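import Pool.Agent.MelD.Lift

/-!
# Lifting through extensions with abelian kernel

`S` a closed subgroup of infinite index of `G_r` as in `Lift.lean`, `A` a normal subgroup of `P`, abelian of
exponent `p`.  A homomorphism `φ₀ : S → P / A` with finite image and closed kernel `S₁` lifts to `P`.

Proof: `T`, `T₁` the preimages of `S`, `S₁` in the free group, `μ : T → P` a lift of `T → P / A`, `s` a section of
`T → Γ = image of φ₀`.  By `exists_hom_conj` for `S₁` there is `χ : T₁ → A` with given values on the conjugates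
`h r h⁻¹`, namely `μ (h r h⁻¹)⁻¹` if `h ∈ T₁ g` for a representative `g` of `T \ F`, and `1` otherwise.  Then
`X t = ∏ γ, μ (s γ)⁻¹ χ (s γ t (s (γ ρ t))⁻¹) μ (s γ)` satisfies `X (a b) = X a * μ a (X b) (μ a)⁻¹` and
`X (g r g⁻¹) = μ (g r g⁻¹)⁻¹`, so `t ↦ X t * μ t` is a homomorphism that kills the conjugates of `r`.
-/

open Finset Module

namespace Pool.Agent.MelD

open Pool.Agent.MelG (HasRel)

theorem abelian_lift {k : ℕ} (hk : 2 ≤ k) (r : FreeGroup (Fin k)) (hr1 : r ≠ 1) (m : ℕ)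
    (H : ∀ N : Subgroup (OR r), N.Normal → N.FiniteIndex → HasRel m N)
    (S : Subgroup (OR r)) (hinf : ¬ S.FiniteIndex)
    (p : ℕ) [hp : Fact p.Prime] {P : Type} [Group P] (A : Subgroup P) [hAn : A.Normal]
    (hcomm : ∀ a ∈ A, ∀ b ∈ A, a * b = b * a) (hexp : ∀ a ∈ A, a ^ p = 1) (φ₀ : S →* P ⧸ A)
    (hfin : Finite φ₀.range) (hcl : IsProClosed (φ₀.ker.map S.subtype)) :
    ∃ φ : S →* P, ∀ s, (QuotientGroup.mk (φ s) : P ⧸ A) = φ₀ s := by
  classical
  let _ : CommGroup A := { (inferInstance : Group A) with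
    mul_comm := fun a b => Subtype.ext (hcomm a.1 a.2 b.1 b.2) }
  let _ : Module (ZMod p) (Additive A) := AddCommGroup.zmodModule (fun a => by
    apply Additive.toMul.injective
    apply Subtype.ext
    exact hexp _ (Additive.toMul a).2)
  -- the kernel
  set S₁ : Subgroup (OR r) := φ₀.ker.map S.subtype with hS₁
  have hS₁S : S₁ ≤ S := by
    rintro _ ⟨x, _, rfl⟩
    exact x.2
  have hinf₁ : ¬ S₁.FiniteIndex := fun h => hinf (Subgroup.finiteIndex_of_le hS₁S)
  have hS₁m : ∀ x : S, x.1 ∈ S₁ ↔ φ₀ x = 1 := by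
    intro x
    constructor
    · rintro ⟨y, hy, hxy⟩
      have h1 : y = x := Subtype.ext hxy
      rw [← h1]
      exact hy
    · intro h
      exact ⟨x, h, rfl⟩
  have hTT : ∀ t : TT r S, t.1 ∈ TT r S₁ ↔ φ₀ (tau r S t) = 1 := fun t => hS₁m (tau r S t)
  -- the lift over the free group
  let μ : TT r S →* P := IsFreeGroup.lift fun b => Quotient.out (φ₀ (tau r S (IsFreeGroup.of b)))
  have hμ : ∀ t, (QuotientGroup.mk (μ t) : P ⧸ A) = φ₀ (tau r S t) := by
    have h1 : (QuotientGroup.mk' A).comp μ = φ₀.comp (tau r S) := by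
      refine IsFreeGroup.ext_hom fun b => ?_
      show (QuotientGroup.mk (μ (IsFreeGroup.of b)) : P ⧸ A) = φ₀ (tau r S (IsFreeGroup.of b))
      rw [IsFreeGroup.lift_of]
      exact QuotientGroup.out_eq' _
    exact fun t => DFunLike.congr_fun h1 t
  have hμc : ∀ g, μ (cjT r S g) ∈ A := by
    intro g
    have h1 := hμ (cjT r S g)
    rw [tau_cjT, map_one] at h1
    exact (QuotientGroup.eq_one_iff _).mp h1
  let ρ : TT r S →* φ₀.range := φ₀.rangeRestrict.comp (tau r S)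
  have hρs : Function.Surjective ρ := φ₀.rangeRestrict_surjective.comp (tau_surj r S)
  have hρv : ∀ t, (ρ t).1 = φ₀ (tau r S t) := fun t => rfl
  have hρ1 : ∀ t, ρ t = 1 ↔ t.1 ∈ TT r S₁ := by
    intro t
    rw [hTT, ← hρv]
    constructor
    · intro h; rw [h]; rfl
    · intro h; exact Subtype.ext h
  choose s hs using hρs
  have : Fintype φ₀.range := Fintype.ofFinite _
  -- the values of `χ`
  let cl : FreeGroup (Fin k) → Quotient (QuotientGroup.rightRel (TT r S)) :=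
    fun g => Quotient.mk (QuotientGroup.rightRel (TT r S)) g
  let rep : FreeGroup (Fin k) → FreeGroup (Fin k) := fun g => Quotient.out (cl g)
  have hrep : ∀ g, g * (rep g)⁻¹ ∈ TT r S := by
    intro g
    exact QuotientGroup.rightRel_apply.mp (Quotient.mk_out (s := QuotientGroup.rightRel (TT r S)) g)
  have hrepT : ∀ t ∈ TT r S, ∀ g, rep (t * g) = rep g := by
    intro t ht g
    have h1 : cl (t * g) = cl g := by
      refine Quotient.sound ?_
      refine QuotientGroup.rightRel_apply.mpr ?_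
      rw [mul_inv_rev, mul_inv_cancel_left]
      exact (TT r S).inv_mem ht
    show Quotient.out (cl (t * g)) = Quotient.out (cl g)
    rw [h1]
  let uv : FreeGroup (Fin k) → A := fun g => (⟨μ (cjT r S g), hμc g⟩ : A)⁻¹
  let u : FreeGroup (Fin k) → A := fun h => if h * (rep h)⁻¹ ∈ TT r S₁ then uv (rep h) else 1
  obtain ⟨χ, hχ⟩ := exists_hom_conj hk r hr1 m H S₁ hcl hinf₁ p
    (W := Additive A) (fun g => Additive.ofMul (u g)) (by
      intro t ht g
      congr 1
      have ht' : t ∈ TT r S := hS₁S ht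
      show (if t * g * (rep (t * g))⁻¹ ∈ TT r S₁ then uv (rep (t * g)) else 1) =
        if g * (rep g)⁻¹ ∈ TT r S₁ then uv (rep g) else 1
      rw [hrepT t ht' g, mul_assoc]
      by_cases h : g * (rep g)⁻¹ ∈ TT r S₁
      · rw [if_pos h, if_pos ((TT r S₁).mul_mem ht h)]
      · rw [if_neg h, if_neg (fun h' => h ((Subgroup.mul_mem_cancel_left _ ht).mp h'))])
  let χ' : TT r S₁ →* A := MonoidHom.mk' (fun t => Additive.toMul (Multiplicative.toAdd (χ t)))
    (by intro a b; rw [map_mul]; rfl)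
  have hχ' : ∀ g, χ' (cjT r S₁ g) = u g := by
    intro g
    show (Additive.toMul (Multiplicative.toAdd (χ (cjT r S₁ g)))) = _
    rw [hχ]
    rfl
  -- the element `s γ t (s (γ ρ t))⁻¹`
  have hmem : ∀ (γ : φ₀.range) (t : TT r S),
      (s γ * t * (s (γ * ρ t))⁻¹ : TT r S).1 ∈ TT r S₁ := by
    intro γ t
    rw [← hρ1, map_mul, map_mul, map_inv, hs, hs, mul_inv_cancel]
  let y : φ₀.range → TT r S → TT r S₁ := fun γ t => ⟨_, hmem γ t⟩
  have hymul : ∀ γ a b, y γ (a * b) = y γ a * y (γ * ρ a) b := by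
    intro γ a b
    apply Subtype.ext
    show (s γ * (a * b) * (s (γ * ρ (a * b)))⁻¹ : TT r S).1 =
      (s γ * a * (s (γ * ρ a))⁻¹ : TT r S).1 * (s (γ * ρ a) * b * (s (γ * ρ a * ρ b))⁻¹ : TT r S).1
    rw [← Subgroup.coe_mul, map_mul, ← mul_assoc γ]
    congr 1
    group
  have hyc : ∀ γ g, y γ (cjT r S g) = cjT r S₁ ((s γ).1 * g) := by
    intro γ g
    apply Subtype.ext
    have h1 : ρ (cjT r S g) = 1 := by
      rw [hρ1, hTT, tau_cjT, map_one]
    show (s γ * cjT r S g * (s (γ * ρ (cjT r S g)))⁻¹ : TT r S).1 =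
      (s γ).1 * g * r * ((s γ).1 * g)⁻¹
    rw [h1, mul_one]
    show (s γ).1 * (g * r * g⁻¹) * (s γ).1⁻¹ = _
    group
  -- the action on `A`
  let act' : P →* MulAut A := MulAut.conjNormal
  have hact : ∀ x y : P, (QuotientGroup.mk x : P ⧸ A) = QuotientGroup.mk y → act' x = act' y := by
    intro x y h
    have h1 : x⁻¹ * y ∈ A := QuotientGroup.eq.mp h
    ext a
    show x * a.1 * x⁻¹ = y * a.1 * y⁻¹
    have h2 := hcomm _ h1 a.1 a.2
    have h3 : y = x * (x⁻¹ * y) := by group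
    calc x * a.1 * x⁻¹ = x * (a.1 * (x⁻¹ * y)) * y⁻¹ := by group
      _ = x * ((x⁻¹ * y) * a.1) * y⁻¹ := by rw [h2]
      _ = y * a.1 * y⁻¹ := by group
  let X : TT r S → A := fun t => ∏ γ, act' (μ (s γ))⁻¹ (χ' (y γ t))
  have hXmul : ∀ a b, X (a * b) = X a * act' (μ a) (X b) := by
    intro a b
    show ∏ γ, act' (μ (s γ))⁻¹ (χ' (y γ (a * b))) = _
    have h1 : ∀ γ, act' (μ (s γ))⁻¹ (χ' (y γ (a * b))) =
        act' (μ (s γ))⁻¹ (χ' (y γ a)) * act' (μ a) (act' (μ (s (γ * ρ a)))⁻¹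
          (χ' (y (γ * ρ a) b))) := by
      intro γ
      rw [hymul, map_mul, map_mul]
      congr 1
      rw [← MulAut.mul_apply, ← map_mul]
      congr 1
      refine hact _ _ ?_
      rw [QuotientGroup.mk_mul, QuotientGroup.mk_inv, QuotientGroup.mk_inv, hμ, hμ, hμ,
        ← hρv, ← hρv, ← hρv, hs, hs, Subgroup.coe_mul, mul_inv_rev, mul_inv_cancel_left]
    rw [Finset.prod_congr rfl fun γ _ => h1 γ, Finset.prod_mul_distrib]
    congr 1
    rw [map_prod]
    exact Fintype.prod_equiv (Equiv.mulRight (ρ a)) _ _ fun γ => rfl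
  have hXc : ∀ g, X (cjT r S g) = uv g := by
    intro g
    set t : TT r S := ⟨_, hrep g⟩ with ht
    have hg : t.1 * rep g = g := inv_mul_cancel_right _ _
    have h1 : ∀ γ, act' (μ (s γ))⁻¹ (χ' (y γ (cjT r S g))) =
        if γ = (ρ t)⁻¹ then act' (μ t) (uv (rep g)) else 1 := by
      intro γ
      rw [hyc, hχ']
      have h2 : u ((s γ).1 * g) = if γ = (ρ t)⁻¹ then uv (rep g) else 1 := by
        show (if (s γ).1 * g * (rep ((s γ).1 * g))⁻¹ ∈ TT r S₁ then uv (rep ((s γ).1 * g)) else 1) = _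
        rw [hrepT _ (s γ).2 g, mul_assoc]
        have h3 : (s γ).1 * (g * (rep g)⁻¹) ∈ TT r S₁ ↔ γ = (ρ t)⁻¹ := by
          have h4 := hρ1 (s γ * t)
          rw [map_mul, hs] at h4
          rw [← mul_eq_one_iff_eq_inv]
          exact h4.symm
        by_cases h5 : γ = (ρ t)⁻¹
        · rw [if_pos h5, if_pos (h3.mpr h5)]
        · rw [if_neg h5, if_neg (fun h => h5 (h3.mp h))]
      rw [h2]
      by_cases h5 : γ = (ρ t)⁻¹
      · rw [if_pos h5, if_pos h5]
        congr 1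
        refine hact _ _ ?_
        rw [QuotientGroup.mk_inv, hμ, hμ, ← hρv, ← hρv, hs, h5, Subgroup.coe_inv, inv_inv]
      · rw [if_neg h5, if_neg h5, map_one]
    show ∏ γ, act' (μ (s γ))⁻¹ (χ' (y γ (cjT r S g))) = uv g
    rw [Finset.prod_congr rfl fun γ _ => h1 γ, Finset.prod_ite_eq' univ ((ρ t)⁻¹), if_pos (mem_univ _)]
    apply Subtype.ext
    show μ t * (μ (cjT r S (rep g)))⁻¹ * (μ t)⁻¹ = (μ (cjT r S g))⁻¹
    have h6 : cjT r S g = t * cjT r S (rep g) * t⁻¹ := by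
      rw [← cjT_mul, hg]
    rw [h6, map_mul, map_mul, map_inv]
    group
  let μ' : TT r S →* P := MonoidHom.mk' (fun t => (X t).1 * μ t) (by
    intro a b
    rw [hXmul, map_mul, Subgroup.coe_mul]
    show (X a).1 * (μ a * (X b).1 * (μ a)⁻¹) * (μ a * μ b) = _
    group)
  obtain ⟨φ, hφ⟩ := descend r S μ' (by
    intro g
    show (X (cjT r S g)).1 * μ (cjT r S g) = 1
    rw [hXc]
    exact inv_mul_cancel _)
  refine ⟨φ, ?_⟩
  intro x
  obtain ⟨t, rfl⟩ := tau_surj r S x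
  rw [hφ, ← hμ]
  show (QuotientGroup.mk ((X t).1 * μ t) : P ⧸ A) = _
  rw [QuotientGroup.mk_mul, (QuotientGroup.eq_one_iff _).mpr (X t).2, one_mul]

end Pool.Agent.MelD
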