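import Pool.Agent.MelD.RigDef

/-!
# The rank of `ev` on an extension

`W = extRep π v`, `W'' = ind π 1`, `n = |Q|`, `ρ` = rank of `ev` on `Q → K`.  The kernel of `ev` on
`(Fin k → W)` contains the `(j ↦ (0, y j))` with `y i ∈ ker (ev (ind π 1) r)` for all `i : Fin N`
(dimension `N (k n - ρ)`) and the principal crossed homomorphisms of the vectors `(f, 0)`; the sum of the
two has dimension `≥ N (k n - ρ) + n - 1` (a principal one with first component `0` has `f` constant,
as `π` is onto).  So the rank of `ev` on `W` is at most `k (n + N n) - N (k n - ρ) - (n - 1)`.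
-/

open Finset Module

namespace Pool.Agent.MelD

section

variable {K : Type} [Field K] {k N : ℕ} {Q : Type} [Group Q]

/-- the inclusion of the copy with index `i` -/
private noncomputable def rigB_T (K : Type) [Field K] (N : ℕ) (Q : Type) (i : Fin N) :
    (Q → K) →ₗ[K] (Q → K) × (Fin N → Q → K) :=
  LinearMap.inr K (Q → K) (Fin N → Q → K) ∘ₗ LinearMap.single K (fun _ : Fin N => Q → K) i

omit [Group Q] in
private theorem rigB_T_fst (i : Fin N) (u : Q → K) : (rigB_T K N Q i u).1 = 0 := rfl

omit [Group Q] in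
private theorem rigB_T_snd (i i' : Fin N) (u : Q → K) :
    (rigB_T K N Q i u).2 i' = if i' = i then u else 0 := by
  show (Pi.single i u : Fin N → Q → K) i' = _
  rw [Pi.single_apply]

private theorem rigB_T_eq (π : FreeGroup (Fin k) →* Q) (v : Fin N → Fin k → Q → K) (i : Fin N)
    (g : FreeGroup (Fin k)) (u : Q → K) :
    rigB_T K N Q i (ind π (1 : FreeGroup (Fin k) →* Module.End K K) g u) =
      extRep π v g (rigB_T K N Q i u) := by
  rw [extRep_apply, rigB_T_fst]
  refine Prod.ext ?_ ?_
  · rfl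
  · funext i' q
    rw [rigB_T_snd]
    show _ = (rigB_T K N Q i u).2 i' (q * π g) + (0 : Q → K) (q * π g) * acoc π (v i') g q
    rw [rigB_T_snd, Pi.zero_apply, zero_mul, add_zero]
    split_ifs
    · rfl
    · rfl

/-- the linear map of the header -/
private noncomputable def rigB_Phi (π : FreeGroup (Fin k) →* Q) (r : FreeGroup (Fin k))
    (v : Fin N → Fin k → Q → K) :
    ((Fin N → LinearMap.ker (ev (ind π (1 : FreeGroup (Fin k) →* Module.End K K)) r)) ×
      (Q → K)) →ₗ[K] (Fin k → (Q → K) × (Fin N → Q → K)) :=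
  LinearMap.pi fun j =>
    (∑ i, rigB_T K N Q i ∘ₗ LinearMap.proj j ∘ₗ
      (LinearMap.ker (ev (ind π (1 : FreeGroup (Fin k) →* Module.End K K)) r)).subtype ∘ₗ
        LinearMap.proj i ∘ₗ LinearMap.fst K _ _) +
    (extRep π v (FreeGroup.of j) - 1) ∘ₗ LinearMap.inl K (Q → K) (Fin N → Q → K) ∘ₗ
      LinearMap.snd K _ _

private theorem rigB_Phi_apply (π : FreeGroup (Fin k) →* Q) (r : FreeGroup (Fin k))
    (v : Fin N → Fin k → Q → K)
    (z : (Fin N → LinearMap.ker (ev (ind π (1 : FreeGroup (Fin k) →* Module.End K K)) r)) ×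
      (Q → K)) (j : Fin k) :
    rigB_Phi π r v z j = ∑ i, rigB_T K N Q i ((z.1 i).1 j) +
      (extRep π v (FreeGroup.of j) (z.2, 0) - (z.2, 0)) := by
  unfold rigB_Phi
  rw [LinearMap.pi_apply, LinearMap.add_apply, LinearMap.sum_apply]
  rfl

private theorem rigB_mem (π : FreeGroup (Fin k) →* Q) (r : FreeGroup (Fin k))
    (v : Fin N → Fin k → Q → K) (hr : π r = 1) (hv : ∀ i, acoc π (v i) r = 0)
    (z : (Fin N → LinearMap.ker (ev (ind π (1 : FreeGroup (Fin k) →* Module.End K K)) r)) ×
      (Q → K)) : ev (extRep π v) r (rigB_Phi π r v z) = 0 := by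
  have h0 : rigB_Phi π r v z = ∑ i, (fun j => rigB_T K N Q i ((z.1 i).1 j)) +
      (fun j => extRep π v (FreeGroup.of j) (z.2, 0) - (z.2, 0)) := by
    funext j
    rw [rigB_Phi_apply, Pi.add_apply, Finset.sum_apply]
  rw [h0, map_add, map_sum]
  have h1 : ev (extRep π v) r (fun j => extRep π v (FreeGroup.of j) (z.2, 0) - (z.2, 0)) = 0 := by
    rw [ev_apply, coc_principal, extRep_rel π v r hr hv]
    exact sub_self _
  rw [h1, add_zero]
  refine Finset.sum_eq_zero fun i _ => ?_
  rw [ev_apply, ← map_coc (ind π (1 : FreeGroup (Fin k) →* Module.End K K)) (extRep π v)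
    (rigB_T K N Q i) (rigB_T_eq π v i) (z.1 i).1 r]
  have h2 : coc (ind π (1 : FreeGroup (Fin k) →* Module.End K K)) (z.1 i).1 r = 0 := (z.1 i).2
  rw [h2, map_zero]

omit [Field K] in
private theorem rigB_inv (π : FreeGroup (Fin k) →* Q) (f : Q → K)
    (hf : ∀ j q, f (q * π (FreeGroup.of j)) = f q) (g : FreeGroup (Fin k)) :
    ∀ q, f (q * π g) = f q := by
  have h : g ∈ Subgroup.closure (Set.range (FreeGroup.of : Fin k → FreeGroup (Fin k))) := by
    rw [FreeGroup.closure_range_of]
    exact Subgroup.mem_top g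
  induction h using Subgroup.closure_induction with
  | mem x hx =>
    obtain ⟨j, rfl⟩ := hx
    exact hf j
  | one =>
    intro q
    rw [map_one, mul_one]
  | mul a b _ _ ha hb =>
    intro q
    rw [map_mul, ← mul_assoc, hb, ha]
  | inv a _ ha =>
    intro q
    rw [map_inv, ← ha (q * (π a)⁻¹), inv_mul_cancel_right]

private theorem rigB_ker (π : FreeGroup (Fin k) →* Q) (hπ : Function.Surjective π)
    (r : FreeGroup (Fin k)) (v : Fin N → Fin k → Q → K)
    (z : (Fin N → LinearMap.ker (ev (ind π (1 : FreeGroup (Fin k) →* Module.End K K)) r)) ×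
      (Q → K)) (hz : rigB_Phi π r v z = 0) (h1 : z.2 1 = 0) : z = 0 := by
  have hj : ∀ j, ∑ i, rigB_T K N Q i ((z.1 i).1 j) +
      (extRep π v (FreeGroup.of j) (z.2, 0) - (z.2, 0)) = 0 := fun j => by
    rw [← rigB_Phi_apply, hz]
    rfl
  have hf : ∀ j q, z.2 (q * π (FreeGroup.of j)) = z.2 q := by
    intro j q
    have h := congrFun (congrArg Prod.fst (hj j)) q
    rw [Prod.fst_add, Prod.fst_sum] at h
    have h2 : ∑ i, (rigB_T K N Q i ((z.1 i).1 j)).1 = 0 :=
      Finset.sum_eq_zero fun i _ => rigB_T_fst i _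
    rw [h2, zero_add] at h
    exact sub_eq_zero.1 h
  have hf2 : z.2 = 0 := by
    funext q
    obtain ⟨g, rfl⟩ := hπ q
    have h := rigB_inv π z.2 hf g 1
    rw [one_mul] at h
    rw [h, h1]
    rfl
  refine Prod.ext ?_ hf2
  funext i
  apply Subtype.ext
  funext j
  have h := congrFun (congrArg Prod.snd (hj j)) i
  rw [hf2] at h
  have h3 : extRep π v (FreeGroup.of j) ((0 : Q → K), (0 : Fin N → Q → K)) - ((0 : Q → K), 0) = 0 := by
    have h4 : ((0 : Q → K), (0 : Fin N → Q → K)) = 0 := rfl
    rw [h4, map_zero, sub_zero]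
  rw [h3, add_zero, Prod.snd_sum, Finset.sum_apply] at h
  have h5 : ∑ i', (rigB_T K N Q i' ((z.1 i').1 j)).2 i = (z.1 i).1 j := by
    have h6 : ∀ i', (rigB_T K N Q i' ((z.1 i').1 j)).2 i = if i = i' then (z.1 i').1 j else 0 :=
      fun i' => rigB_T_snd i' i _
    rw [Finset.sum_congr rfl fun i' _ => h6 i', Finset.sum_ite_eq, if_pos (Finset.mem_univ i)]
  rw [h5] at h
  exact h

end

theorem rank_ext {K : Type} [Field K] {k N : ℕ} {Q : Type} [Group Q] [Fintype Q]
    (π : FreeGroup (Fin k) →* Q) (hπ : Function.Surjective π) (r : FreeGroup (Fin k))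
    (hr : π r = 1) (v : Fin N → Fin k → Q → K) (hv : ∀ i, acoc π (v i) r = 0) :
    finrank K (LinearMap.range (ev (extRep π v) r)) + (Fintype.card Q - 1) ≤
      k * Fintype.card Q +
        N * finrank K (LinearMap.range (ev (ind π (1 : FreeGroup (Fin k) →* Module.End K K)) r)) := by
  classical
  have hW : finrank K (Fin k → (Q → K) × (Fin N → Q → K)) =
      k * (Fintype.card Q + N * Fintype.card Q) := by
    rw [Module.finrank_pi_fintype]
    simp [Module.finrank_prod, Module.finrank_pi_fintype, Module.finrank_fintype_fun_eq_card]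
  have hD : finrank K (Fin k → Q → K) = k * Fintype.card Q := by
    rw [Module.finrank_pi_fintype]
    simp [Module.finrank_fintype_fun_eq_card]
  have r1 := LinearMap.finrank_range_add_finrank_ker (ev (extRep π v) r)
  have r2 := LinearMap.finrank_range_add_finrank_ker
    (ev (ind π (1 : FreeGroup (Fin k) →* Module.End K K)) r)
  have r3 := LinearMap.finrank_range_add_finrank_ker (rigB_Phi π r v)
  rw [hW] at r1
  rw [hD] at r2
  have h3 : finrank K ((Fin N → LinearMap.ker
      (ev (ind π (1 : FreeGroup (Fin k) →* Module.End K K)) r)) × (Q → K)) =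
      N * finrank K (LinearMap.ker (ev (ind π (1 : FreeGroup (Fin k) →* Module.End K K)) r)) +
        Fintype.card Q := by
    rw [Module.finrank_prod, Module.finrank_pi_fintype]
    simp [Module.finrank_fintype_fun_eq_card]
  rw [h3] at r3
  have h4 : finrank K (LinearMap.range (rigB_Phi π r v)) ≤
      finrank K (LinearMap.ker (ev (extRep π v) r)) := by
    apply Submodule.finrank_mono
    rintro _ ⟨z, rfl⟩
    exact rigB_mem π r v hr hv z
  have h5 : finrank K (LinearMap.ker (rigB_Phi π r v)) ≤ 1 := by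
    have h6 : finrank K K = 1 := Module.finrank_self K
    rw [← h6]
    refine LinearMap.finrank_le_finrank_of_injective
      (f := (LinearMap.proj (1 : Q) ∘ₗ LinearMap.snd K _ (Q → K)) ∘ₗ
        (LinearMap.ker (rigB_Phi π r v)).subtype) ?_
    intro a b hab
    have hab' : a.1.2 1 = b.1.2 1 := hab
    have h7 : a.1 - b.1 = 0 := rigB_ker π hπ r v (a.1 - b.1)
      (by rw [map_sub, LinearMap.mem_ker.1 a.2, LinearMap.mem_ker.1 b.2, sub_zero])
      (by
        show a.1.2 1 - b.1.2 1 = 0
        rw [hab', sub_self])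
    exact Subtype.ext (sub_eq_zero.1 h7)
  have hQ : 1 ≤ Fintype.card Q := Fintype.card_pos
  set n := Fintype.card Q with hn
  set R := finrank K (LinearMap.range (ev (extRep π v) r)) with hR
  set R' := finrank K (LinearMap.range (ev (ind π (1 : FreeGroup (Fin k) →* Module.End K K)) r))
    with hR'
  set κ := finrank K (LinearMap.ker (ev (ind π (1 : FreeGroup (Fin k) →* Module.End K K)) r)) with hκ
  have h7 : N * R' + N * κ = k * (N * n) := by
    rw [← Nat.mul_add, r2]
    ring
  have h8 : k * (n + N * n) = k * n + k * (N * n) := by ring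
  omega

end Pool.Agent.MelD
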