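import Pool.Agent.MelD.RigDef

/-!
# The extension is a quotient of the functions on a finite group

`Q₁ = F ⧸ ker (extRep π v)`, finite as `extRep π v` has values in a finite monoid (`K` finite), `π₁` the
projection, `θ : Q₁ → Q` (`extRep π v g = 1` implies `π g = 1`).  The kernel of `θ` has exponent `p`: if
`π g = 1`, then `g` acts by `(x, y) ↦ (x, y + x a(g))`, so `g ^ p` acts trivially.

`T : (Q₁ → K) → W`, `T f = ∑ q, f q • q⁻¹ w₀`, `w₀ = (δ_1, 0)`; equivariant for `(g f) q = f (q π₁(g))`.
It is onto: for `h ∈ ker π`, `h w₀ - w₀ = (0, δ_1 a(h)(1))`, and the vectors `(a_i(h)(1))_i`, `h ∈ ker π`,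
span `Fin N → K` (hypothesis `hli`: no nonzero linear form vanishes on them), and `g (0, δ_1 y) =
(0, δ_{π(g)⁻¹} y)`, `g w₀ = (δ_{π(g)⁻¹}, ..)`.  So `T` induces a map of `(Q₁ → K) / range ev` onto
`W / range ev`.
-/

open Finset Module

namespace Pool.Agent.MelD

/-- The vector `w₀ = (δ_1, 0)` generates the extension. -/
private theorem gen_w0 {K : Type} [Field K] {k N : ℕ} {Q : Type} [Group Q] [Fintype Q]
    [DecidableEq Q] (π : FreeGroup (Fin k) →* Q) (hπ : Function.Surjective π)
    (v : Fin N → Fin k → Q → K)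
    (hli : ∀ c : Fin N → K, (∀ h, π h = 1 → ∑ i, c i * acoc π (v i) h 1 = 0) → c = 0)
    (S : Submodule K ((Q → K) × (Fin N → Q → K))) (hS : ∀ g x, x ∈ S → extRep π v g x ∈ S)
    (hw : ((Pi.single 1 1 : Q → K), (0 : Fin N → Q → K)) ∈ S) : S = ⊤ := by
  -- the vectors `(0, δ_1 c)`
  let ι : (Fin N → K) →ₗ[K] ((Q → K) × (Fin N → Q → K)) :=
    { toFun := fun c => (0, fun i => Pi.single 1 (c i))
      map_add' := by
        intro a b
        refine Prod.ext (by simp) ?_
        funext i
        simp [Pi.single_add]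
      map_smul' := by
        intro a b
        refine Prod.ext (by simp) ?_
        funext i q
        simp [Pi.single_apply] }
  have hι : ∀ c, ι c = (0, fun i => Pi.single 1 (c i)) := fun c => rfl
  have h1 : ∀ h, π h = 1 → ι (fun i => acoc π (v i) h 1) ∈ S := by
    intro h hh
    have h2 := S.sub_mem (hS h _ hw) hw
    rw [extRep_apply] at h2
    refine (congrArg (· ∈ S) ?_).mp h2
    rw [hι]
    refine Prod.ext ?_ ?_
    · funext q
      simp [hh]
    · funext i q
      by_cases hq : q = 1
      · subst hq; simp [hh]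
      · simp [hh, Pi.single_apply, hq]
  have hU : S.comap ι = ⊤ := by
    by_contra hne
    obtain ⟨φ, hφ, hφ2⟩ := Submodule.exists_dual_map_eq_bot_of_lt_top
      (lt_top_iff_ne_top.mpr hne) inferInstance
    apply hφ
    have hz : ∀ x ∈ S.comap ι, φ x = 0 := by
      intro x hx
      have h3 : φ x ∈ (S.comap ι).map φ := Submodule.mem_map_of_mem hx
      rw [hφ2] at h3
      exact (Submodule.mem_bot K).mp h3
    have hφs : ∀ x : Fin N → K, φ x = ∑ i, φ (fun j => if i = j then 1 else 0) * x i := by
      intro x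
      rw [LinearMap.pi_apply_eq_sum_univ φ x]
      exact sum_congr rfl fun i _ => by rw [smul_eq_mul, mul_comm]
    have hc := hli (fun i => φ (fun j => if i = j then 1 else 0)) (by
      intro h hh
      have h4 := hz _ (show (fun i => acoc π (v i) h 1) ∈ S.comap ι from h1 h hh)
      rw [hφs] at h4
      exact h4)
    apply LinearMap.ext
    intro x
    rw [hφs x]
    simp only [LinearMap.zero_apply]
    refine sum_eq_zero fun i _ => ?_
    have := congrFun hc i
    simp only [Pi.zero_apply] at this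
    rw [this, zero_mul]
  have h5 : ∀ c, ι c ∈ S := by
    intro c
    have : c ∈ S.comap ι := by rw [hU]; trivial
    exact this
  -- the vectors `(0, δ_q c)`
  have h6 : ∀ (q0 : Q) (c : Fin N → K),
      ((0 : Q → K), fun i => (Pi.single q0 (c i) : Q → K)) ∈ S := by
    intro q0 c
    obtain ⟨g, hg⟩ := hπ q0⁻¹
    have h7 := hS g _ (h5 c)
    rw [hι, extRep_apply] at h7
    refine (congrArg (· ∈ S) ?_).mp h7
    refine Prod.ext ?_ ?_
    · funext q; rfl
    · funext i q
      by_cases hq : q = q0
      · subst hq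
        simp [hg]
      · have hq2 : q * π g ≠ 1 := by
          rw [hg]
          intro h
          exact hq (mul_inv_eq_one.mp h)
        simp [hq, hq2]
  have h8 : ∀ y : Fin N → Q → K, ((0 : Q → K), y) ∈ S := by
    intro y
    have h9 : ((0 : Q → K), y) =
        ∑ q0 : Q, ((0 : Q → K), fun i => (Pi.single q0 (y i q0) : Q → K)) := by
      refine Prod.ext ?_ ?_
      · rw [Prod.fst_sum]; simp
      · rw [Prod.snd_sum]
        funext i q
        simp [Finset.sum_apply, Pi.single_apply]
    rw [h9]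
    exact S.sum_mem fun q0 _ => h6 q0 (fun i => y i q0)
  have h10 : ∀ q0 : Q, ((Pi.single q0 1 : Q → K), (0 : Fin N → Q → K)) ∈ S := by
    intro q0
    obtain ⟨g, hg⟩ := hπ q0⁻¹
    have h7 := hS g _ hw
    rw [extRep_apply] at h7
    have h11 := S.sub_mem h7 (h8 (fun i q => (0 : Fin N → Q → K) i (q * π g) +
      (Pi.single 1 1 : Q → K) (q * π g) * acoc π (v i) g q))
    refine (congrArg (· ∈ S) ?_).mp h11
    refine Prod.ext ?_ ?_
    · funext q
      by_cases hq : q = q0
      · subst hq
        simp [hg]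
      · have hq2 : q * π g ≠ 1 := by
          rw [hg]
          intro h
          exact hq (mul_inv_eq_one.mp h)
        simp [Pi.single_apply, hq, hq2]
    · funext i q
      simp
  rw [eq_top_iff]
  rintro ⟨x, y⟩ -
  have h12 : ((x, y) : (Q → K) × (Fin N → Q → K)) =
      (∑ q0 : Q, x q0 • ((Pi.single q0 1 : Q → K), (0 : Fin N → Q → K))) + (0, y) := by
    refine Prod.ext ?_ ?_
    · rw [Prod.fst_add, Prod.fst_sum]
      funext q
      simp [Finset.sum_apply, Pi.single_apply]
    · rw [Prod.snd_add, Prod.snd_sum]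
      simp
  rw [h12]
  exact S.add_mem (S.sum_mem fun q0 _ => S.smul_mem _ (h10 q0)) (h8 y)

/-- Elements of the kernel of `π` act with exponent `n` if `n = 0` in `K`. -/
private theorem ext_pow {K : Type} [Field K] {k N : ℕ} {Q : Type} [Group Q]
    (π : FreeGroup (Fin k) →* Q) (v : Fin N → Fin k → Q → K) (g : FreeGroup (Fin k))
    (hg : π g = 1) (n : ℕ) (x : (Q → K) × (Fin N → Q → K)) :
    extRep π v (g ^ n) x = (x.1, fun i q => x.2 i q + n * (x.1 q * acoc π (v i) g q)) := by
  induction n with
  | zero =>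
    rw [pow_zero, map_one]
    refine Prod.ext rfl ?_
    funext i q
    simp
  | succ n ih =>
    rw [pow_succ', map_mul]
    show extRep π v g (extRep π v (g ^ n) x) = _
    rw [ih, extRep_apply]
    refine Prod.ext ?_ ?_
    · funext q
      simp [hg]
    · funext i q
      simp only [hg, mul_one]
      push_cast
      ring

theorem cyc_ext {K : Type} [Field K] [Finite K] {p : ℕ} [Fact p.Prime] [CharP K p] {k N : ℕ}
    {Q : Type} [Group Q] [Fintype Q]
    (π : FreeGroup (Fin k) →* Q) (hπ : Function.Surjective π) (r : FreeGroup (Fin k))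
    (hr : π r = 1) (v : Fin N → Fin k → Q → K) (hv : ∀ i, acoc π (v i) r = 0)
    (hli : ∀ c : Fin N → K, (∀ h, π h = 1 → ∑ i, c i * acoc π (v i) h 1 = 0) → c = 0) :
    ∃ (Q₁ : Type) (_ : Group Q₁) (_ : Fintype Q₁) (π₁ : FreeGroup (Fin k) →* Q₁) (θ : Q₁ →* Q),
      Function.Surjective π₁ ∧ π₁ r = 1 ∧ θ.comp π₁ = π ∧ IsPGroup p θ.ker ∧
      Fintype.card Q + N * Fintype.card Q ≤
        cork K r π₁ + finrank K (LinearMap.range (ev (extRep π v) r)) := by
  classical
  -- the homomorphism to a finite group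
  let φ : FreeGroup (Fin k) →* (Module.End K ((Q → K) × (Fin N → Q → K)))ˣ :=
    (extRep π v).toHomUnits
  have hφ : ∀ g, ((φ g : (Module.End K ((Q → K) × (Fin N → Q → K)))ˣ) :
      Module.End K ((Q → K) × (Fin N → Q → K))) = extRep π v g := fun g => rfl
  have hfinE : Finite (Module.End K ((Q → K) × (Fin N → Q → K))) :=
    Finite.of_injective (fun f => (f : ((Q → K) × (Fin N → Q → K)) → ((Q → K) × (Fin N → Q → K))))
      DFunLike.coe_injective
  have hfinU : Finite (Module.End K ((Q → K) × (Fin N → Q → K)))ˣ :=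
    Finite.of_injective (fun u => (u : Module.End K ((Q → K) × (Fin N → Q → K)))) Units.val_injective
  have hfin : Finite (FreeGroup (Fin k) ⧸ φ.ker) :=
    Finite.of_injective (QuotientGroup.kerLift φ) (QuotientGroup.kerLift_injective φ)
  have hk1 : ∀ g, g ∈ φ.ker → extRep π v g = 1 := by
    intro g hg
    rw [← hφ g, MonoidHom.mem_ker.mp hg]
    rfl
  have hk2 : ∀ g, extRep π v g = 1 → g ∈ φ.ker := by
    intro g hg
    rw [MonoidHom.mem_ker]
    apply Units.ext
    rw [hφ g, hg]
    rfl
  have hk3 : ∀ g ∈ φ.ker, π g = 1 := by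
    intro g hg
    have h1 := hk1 g hg
    have h2 := congrArg (fun f : Module.End K ((Q → K) × (Fin N → Q → K)) =>
      (f ((Pi.single 1 1 : Q → K), (0 : Fin N → Q → K))).1 1) h1
    simp only [extRep_apply, one_mul, Module.End.one_apply, Pi.single_eq_same] at h2
    by_contra hne
    rw [Pi.single_eq_of_ne hne] at h2
    exact zero_ne_one h2
  let θ : (FreeGroup (Fin k) ⧸ φ.ker) →* Q := QuotientGroup.lift φ.ker π hk3
  let π₁ : FreeGroup (Fin k) →* (FreeGroup (Fin k) ⧸ φ.ker) := QuotientGroup.mk' φ.ker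
  let _ : Fintype (FreeGroup (Fin k) ⧸ φ.ker) := Fintype.ofFinite _
  have hsurj : Function.Surjective π₁ := QuotientGroup.mk'_surjective φ.ker
  refine ⟨FreeGroup (Fin k) ⧸ φ.ker, inferInstance, inferInstance, π₁, θ, hsurj, ?_, ?_, ?_, ?_⟩
  · exact (QuotientGroup.eq_one_iff r).mpr (hk2 r (extRep_rel π v r hr hv))
  · apply MonoidHom.ext
    intro g
    rfl
  · intro x
    obtain ⟨x, hx⟩ := x
    obtain ⟨g, rfl⟩ := hsurj x
    refine ⟨1, ?_⟩
    rw [pow_one]
    apply Subtype.ext
    show (π₁ g) ^ p = 1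
    rw [← map_pow]
    refine (QuotientGroup.eq_one_iff _).mpr (hk2 _ ?_)
    have hg : π g = 1 := hx
    apply LinearMap.ext
    intro y
    rw [ext_pow π v g hg]
    refine Prod.ext rfl ?_
    funext i q
    simp
  · -- the lifted representation
    let ρ : (FreeGroup (Fin k) ⧸ φ.ker) →* Module.End K ((Q → K) × (Fin N → Q → K)) :=
      QuotientGroup.lift φ.ker (extRep π v) hk1
    have hρ : ∀ g, ρ (π₁ g) = extRep π v g := fun g => rfl
    let w0 : (Q → K) × (Fin N → Q → K) := ((Pi.single 1 1 : Q → K), (0 : Fin N → Q → K))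
    let T : ((FreeGroup (Fin k) ⧸ φ.ker) → K) →ₗ[K] ((Q → K) × (Fin N → Q → K)) :=
      { toFun := fun f => ∑ q, f q • ρ q⁻¹ w0
        map_add' := by
          intro a b
          simp only [Pi.add_apply, add_smul, sum_add_distrib]
        map_smul' := by
          intro c a
          simp only [Pi.smul_apply, smul_eq_mul, mul_smul, smul_sum, RingHom.id_apply] }
    have hT : ∀ f, T f = ∑ q, f q • ρ q⁻¹ w0 := fun f => rfl
    have hTe : ∀ g f, T (ind π₁ (1 : FreeGroup (Fin k) →* Module.End K K) g f) =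
        extRep π v g (T f) := by
      intro g f
      rw [hT, hT, map_sum, ← Equiv.sum_comp (Equiv.mulRight (π₁ g))
        (fun q => extRep π v g (f q • ρ q⁻¹ w0))]
      refine sum_congr rfl fun q _ => ?_
      rw [map_smul, ind_apply]
      show (f (q * π₁ g)) • ρ q⁻¹ w0 = f (q * π₁ g) • extRep π v g (ρ (q * π₁ g)⁻¹ w0)
      congr 1
      rw [← hρ g, mul_inv_rev, map_mul]
      show _ = ρ (π₁ g) (ρ (π₁ g)⁻¹ (ρ q⁻¹ w0))
      rw [← Module.End.mul_apply, ← map_mul, mul_inv_cancel, map_one, Module.End.one_apply]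
    have hTs : LinearMap.range T = ⊤ := by
      refine gen_w0 π hπ v hli (LinearMap.range T) ?_ ?_
      · rintro g _ ⟨f, rfl⟩
        exact ⟨_, hTe g f⟩
      · refine ⟨Pi.single 1 1, ?_⟩
        rw [hT, sum_eq_single 1]
        · rw [Pi.single_eq_same, one_smul, inv_one, map_one, Module.End.one_apply]
        · intro b _ hb
          rw [Pi.single_eq_of_ne hb, zero_smul]
        · intro h
          exact absurd (mem_univ _) h
    have hTr : (LinearMap.range (ev (ind π₁ (1 : FreeGroup (Fin k) →* Module.End K K)) r)).map T ≤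
        LinearMap.range (ev (extRep π v) r) := by
      rintro _ ⟨_, ⟨u, rfl⟩, rfl⟩
      refine ⟨fun j => T (u j), ?_⟩
      rw [ev_apply, ev_apply]
      exact (map_coc _ _ T hTe u r).symm
    have h1 := rank_add_cork K r π₁
    have h2 := Submodule.finrank_quotient_add_finrank (LinearMap.range (ev (extRep π v) r))
    have h3 := Submodule.finrank_quotient_add_finrank
      (LinearMap.range (ev (ind π₁ (1 : FreeGroup (Fin k) →* Module.End K K)) r))
    have h4 : finrank K (((Q → K) × (Fin N → Q → K)) ⧸ LinearMap.range (ev (extRep π v) r)) ≤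
        finrank K (((FreeGroup (Fin k) ⧸ φ.ker) → K) ⧸
          LinearMap.range (ev (ind π₁ (1 : FreeGroup (Fin k) →* Module.End K K)) r)) := by
      refine LinearMap.finrank_le_finrank_of_surjective
        (f := Submodule.mapQ _ _ T (Submodule.map_le_iff_le_comap.mp hTr)) ?_
      intro y
      obtain ⟨y, rfl⟩ := Submodule.mkQ_surjective _ y
      obtain ⟨f, rfl⟩ := LinearMap.range_eq_top.mp hTs y
      exact ⟨Submodule.Quotient.mk f, rfl⟩
    have h5 : finrank K ((Q → K) × (Fin N → Q → K)) = Fintype.card Q + N * Fintype.card Q := by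
      rw [Module.finrank_prod, Module.finrank_fintype_fun_eq_card, Module.finrank_pi_fintype]
      simp [Module.finrank_fintype_fun_eq_card]
    have h6 : finrank K ((FreeGroup (Fin k) ⧸ φ.ker) → K) =
        Fintype.card (FreeGroup (Fin k) ⧸ φ.ker) := Module.finrank_fintype_fun_eq_card K
    omega

end Pool.Agent.MelD
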