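import Pool.Agent.MelD.RigA
import Pool.Agent.MelD.RigB
import Pool.Agent.MelD.RigC

/-!
# Rigidity: a maximal corank is at most one

If the corank over a finite field of characteristic `p` does not grow when `Q` is replaced by an
extension of `Q` with kernel a `p`-group, then it is at most `1`.
-/

open Finset Module

namespace Pool.Agent.MelD

theorem rigid {K : Type} [Field K] [Finite K] {p : ℕ} [Fact p.Prime] [CharP K p] {k : ℕ}
    (hk : 2 ≤ k) {Q : Type} [Group Q] [Fintype Q] (π : FreeGroup (Fin k) →* Q)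
    (hπ : Function.Surjective π) (r : FreeGroup (Fin k)) (hr : π r = 1)
    (hmax : ∀ (Q₁ : Type) (_ : Group Q₁) (_ : Fintype Q₁) (π₁ : FreeGroup (Fin k) →* Q₁)
      (θ : Q₁ →* Q), Function.Surjective π₁ → π₁ r = 1 → θ.comp π₁ = π → IsPGroup p θ.ker →
      cork K r π₁ ≤ cork K r π) :
    cork K r π ≤ 1 := by
  obtain ⟨N, v, hN, hv, hli⟩ := exists_coc (K := K) π hπ r
  have hB := rank_ext π hπ r hr v hv
  obtain ⟨Q₁, iG, iF, π₁, θ, hs, hr1, hθ, hp, hC⟩ := cyc_ext (p := p) π hπ r hr v hv hli
  have hm := hmax Q₁ iG iF π₁ θ hs hr1 hθ hp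
  have h1 := rank_add_cork K r π
  have h2 := (ev (ind π (1 : FreeGroup (Fin k) →* Module.End K K)) r).finrank_range_add_finrank_ker
  rw [Module.finrank_pi_fintype, sum_const, card_univ, Fintype.card_fin, smul_eq_mul,
    Module.finrank_fintype_fun_eq_card] at h2
  have hc : 1 ≤ Fintype.card Q := Fintype.card_pos
  set ρ := finrank K (LinearMap.range (ev (ind π (1 : FreeGroup (Fin k) →* Module.End K K)) r))
  set R := finrank K (LinearMap.range (ev (extRep π v) r))
  set z := finrank K (LinearMap.ker (ev (ind π (1 : FreeGroup (Fin k) →* Module.End K K)) r))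
  set c := cork K r π
  set n := Fintype.card Q
  -- `n + N n ≤ c + R`, `R + (n - 1) ≤ k n + N ρ`, `ρ + c = n`, `ρ + z = k n`, `z ≤ N + (n - 1)`
  have h3 : n + N * n ≤ c + R := le_trans hC (Nat.add_le_add_right hm R)
  have h4 : N * n = N * ρ + N * c := by rw [← h1]; ring
  have h5 : N * c ≤ N := by omega
  have h6 : 2 * n ≤ k * n := Nat.mul_le_mul_right n hk
  have h7 : 1 ≤ N := by omega
  exact Nat.le_of_mul_le_mul_left (by rwa [mul_one]) h7

end Pool.Agent.MelD
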