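import Pool.Agent.MelD.CycG
import Pool.Agent.MelD.Rigid

/-!
# All finite quotients

If all finite index normal subgroups of the one-relator group have presentations with at most `m` relators, then
the coranks of ALL finite quotients are at most `m`, and at most one over finite fields.

`Q` a finite quotient with `n` elements, `R` the cyclic quotient with `J = m n + 1` elements of `cyc_gen`.
The bound for the generic representation of `cyc_gen` shows that the kernel of the map to `R` has a
presentation with `y ≤ (k - 2) J + 1 + m` generators and at most `m` relators, so for the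
representation `Q → K` of dimension `n` the rank of `ev` on `R → (Q → K)` is at least `(J - m) n`.
This is the rank on `Q → (R → K)`, and `(J - m) n > (n - 1) J`: so `R → K` is generic for `Q` and
`crit` applies.
-/

open Finset Module

namespace Pool.Agent.MelD

open Pool.Agent.MelG (HasRel)

private theorem arith (k m n d y z1 z2 r1 r2 : ℕ) (hn : 1 ≤ n)
    (e1 : z1 + m * n * n + r1 = k * ((m * n + 1) * n))
    (e2 : z2 + m * n * d + r2 = k * ((m * n + 1) * d))
    (y1 : z1 ≤ y * n) (y2 : y * d ≤ z2 + m * d) (hrank : m * n * d < r2) :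
    (n - 1) * (m * n + 1) < r1 := by
  -- the number of generators
  have h1 : y + 2 * (m * n) < k * (m * n + 1) + m := by
    by_contra hcon
    push Not at hcon
    have h2 := Nat.mul_le_mul_right d hcon
    have h3 : (y + 2 * (m * n)) * d = y * d + 2 * (m * n * d) := by ring
    have h4 : (k * (m * n + 1) + m) * d = k * ((m * n + 1) * d) + m * d := by ring
    rw [h3, h4] at h2
    omega
  -- the rank
  have h5 : (m * n + 1) * n ≤ r1 + m * n := by
    have h2 := Nat.mul_le_mul_right n (Nat.succ_le_of_lt h1)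
    have h3 : (y + 2 * (m * n) + 1) * n = y * n + 2 * (m * n * n) + n := by ring
    have h4 : (k * (m * n + 1) + m) * n = k * ((m * n + 1) * n) + m * n := by ring
    have h6 : (m * n + 1) * n = m * n * n + n := by ring
    rw [Nat.succ_eq_add_one, h3, h4] at h2
    rw [h6] at h2 e1 ⊢
    omega
  have h7 : (n - 1) * (m * n + 1) + (m * n + 1) = (m * n + 1) * n := by
    obtain ⟨c, hc⟩ : ∃ c, n = c + 1 := ⟨n - 1, by omega⟩
    rw [hc, Nat.add_sub_cancel]
    ring
  omega

/-- The order of two coinductions does not matter. -/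
theorem rank_swap {K : Type} [Field K] {k : ℕ} (r : FreeGroup (Fin k)) {Q R : Type} [Group Q]
    [Group R] (π : FreeGroup (Fin k) →* Q) (κ : FreeGroup (Fin k) →* R) :
    finrank K (LinearMap.range (ev (ind κ (ind π (1 : FreeGroup (Fin k) →* Module.End K K))) r)) =
      finrank K (LinearMap.range (ev (ind π (ind κ (1 : FreeGroup (Fin k) →* Module.End K K))) r)) := by
  let S : (R → Q → K) ≃ₗ[K] (Q → R → K) :=
    { toFun := fun f q x => f x q
      invFun := fun f x q => f q x
      map_add' := fun _ _ => rfl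
      map_smul' := fun _ _ => rfl
      left_inv := fun _ => rfl
      right_inv := fun _ => rfl }
  have hS : ∀ (g : FreeGroup (Fin k)) (v : R → Q → K), (S : (R → Q → K) →ₗ[K] (Q → R → K))
      (ind κ (ind π (1 : FreeGroup (Fin k) →* Module.End K K)) g v) =
      ind π (ind κ (1 : FreeGroup (Fin k) →* Module.End K K)) g (S v) := fun g v => rfl
  have h1 : ∀ v, S (ev (ind κ (ind π (1 : FreeGroup (Fin k) →* Module.End K K))) r v) =
      ev (ind π (ind κ (1 : FreeGroup (Fin k) →* Module.End K K))) r (fun j => S (v j)) :=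
    fun v => map_coc _ _ (S : (R → Q → K) →ₗ[K] (Q → R → K)) hS v r
  have h2 : LinearMap.range (ev (ind π (ind κ (1 : FreeGroup (Fin k) →* Module.End K K))) r) =
      (LinearMap.range (ev (ind κ (ind π (1 : FreeGroup (Fin k) →* Module.End K K))) r)).map
        (S : (R → Q → K) →ₗ[K] (Q → R → K)) := by
    apply le_antisymm
    · rintro _ ⟨v, rfl⟩
      refine ⟨_, ⟨fun j => S.symm (v j), rfl⟩, ?_⟩
      refine (h1 _).trans ?_
      congr 1
    · rintro _ ⟨_, ⟨v, rfl⟩, rfl⟩
      exact ⟨fun j => S (v j), (h1 v).symm⟩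
  rw [h2]
  exact (LinearEquiv.finrank_map_eq S _).symm

/-- For every finite quotient `Q` the functions on some cyclic quotient are generic. -/
theorem generic_all {k : ℕ} (hk : 2 ≤ k) (r : FreeGroup (Fin k)) (hr1 : r ≠ 1) (m : ℕ)
    (H : ∀ N : Subgroup (OR r), N.Normal → N.FiniteIndex → HasRel m N)
    {Q : Type} [Group Q] [Fintype Q] (π : FreeGroup (Fin k) →* Q) (hπ : π r = 1)
    (K : Type) [Field K] :
    ∃ (R : Type) (_ : Group R) (_ : Fintype R) (κ : FreeGroup (Fin k) →* R), κ r = 1 ∧
      (Fintype.card Q - 1) * finrank K (R → K) <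
        finrank K (LinearMap.range (ev (ind π (ind κ (1 : FreeGroup (Fin k) →* Module.End K K))) r)) := by
  obtain ⟨κ, hκs, hκ, V, iV1, iV2, iV3, ρ, hρ, hrank⟩ := cyc_gen hk r hr1 (m * Fintype.card Q)
  refine ⟨Multiplicative (ZMod (m * Fintype.card Q + 1)), inferInstance, inferInstance, κ, hκ, ?_⟩
  obtain ⟨κ', hκ'⟩ := exists_desc r κ hκ
  have hs : Function.Surjective κ' := by
    intro q
    obtain ⟨g, hg⟩ := hκs q
    refine ⟨PresentedGroup.mk {r} g, ?_⟩
    rw [← hg, ← hκ']
    rfl
  obtain ⟨y, hy⟩ := pres_bounds (H κ'.ker inferInstance inferInstance)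
  obtain ⟨ρ', hρ'⟩ := exists_desc r ρ hρ
  obtain ⟨π', hπ'⟩ := exists_desc r π hπ
  have e1 := finrank_ker r κ' hs (ind π' (1 : OR r →* Module.End K K))
  have e2 := finrank_ker r κ' hs ρ'
  have hone : (ind π' (1 : OR r →* Module.End K K)).comp
      (PresentedGroup.mk ({r} : Set (FreeGroup (Fin k)))) = ind π 1 := by
    rw [← hπ']
    rfl
  rw [hκ', hone] at e1
  rw [hκ', hρ'] at e2
  have y1 := (hy K inferInstance (Q → K) inferInstance inferInstance inferInstance
    ((ind π' (1 : OR r →* Module.End K K)).comp κ'.ker.subtype)).1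
  have y2 := (hy ℚ inferInstance V inferInstance inferInstance inferInstance
    (ρ'.comp κ'.ker.subtype)).2
  rw [← rank_swap, Module.finrank_fintype_fun_eq_card]
  rw [Module.finrank_fintype_fun_eq_card] at e1 y1
  have hJ : Fintype.card (Multiplicative (ZMod (m * Fintype.card Q + 1))) = m * Fintype.card Q + 1 := by
    rw [Fintype.card_multiplicative, ZMod.card]
  rw [hJ] at e1 e2 ⊢
  simp only [Nat.add_sub_cancel] at e1 e2
  exact arith k m (Fintype.card Q) (finrank ℚ V) y _ _ _ _ Fintype.card_pos e1 e2 y1 y2 hrank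

/-- The coranks of all finite quotients are at most `m`. -/
theorem cork_le_m_all {k : ℕ} (hk : 2 ≤ k) (r : FreeGroup (Fin k)) (hr1 : r ≠ 1) (m : ℕ)
    (H : ∀ N : Subgroup (OR r), N.Normal → N.FiniteIndex → HasRel m N)
    {Q : Type} [Group Q] [Fintype Q] (π : FreeGroup (Fin k) →* Q) (hs : Function.Surjective π)
    (hπ : π r = 1) (K : Type) [Field K] : cork K r π ≤ m := by
  by_contra hcon
  obtain ⟨R, iR, iF, κ, hκ, hgen⟩ := generic_all hk r hr1 m H π hπ K
  obtain ⟨π', hπ'⟩ := exists_desc r π hπ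
  have h3 := rank_add_cork K r π
  have hρ : ind κ (1 : FreeGroup (Fin k) →* Module.End K K) r = 1 := by
    apply LinearMap.ext
    intro f
    funext q
    show f (q * κ r) = f q
    rw [hκ, mul_one]
  exact crit r π hs (K₁ := K) (by omega) (ind κ (1 : FreeGroup (Fin k) →* Module.End K K)) hρ hgen
    π' hπ' (H π'.ker inferInstance inferInstance)

/-- The coranks of all finite quotients over finite fields are at most one. -/
theorem cork_le_one_all {k : ℕ} (hk : 2 ≤ k) (r : FreeGroup (Fin k)) (hr1 : r ≠ 1) (m : ℕ)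
    (H : ∀ N : Subgroup (OR r), N.Normal → N.FiniteIndex → HasRel m N)
    {Q : Type} [Group Q] [Fintype Q] (π : FreeGroup (Fin k) →* Q) (hs : Function.Surjective π)
    (hπ : π r = 1) (K : Type) [Field K] [Finite K] : cork K r π ≤ 1 := by
  classical
  obtain ⟨p, hp⟩ := CharP.exists K
  have : Fact p.Prime := ⟨CharP.char_is_prime K p⟩
  let P : ℕ → Prop := fun c => ∃ (Q : Type) (_ : Group Q) (_ : Fintype Q)
    (π : FreeGroup (Fin k) →* Q), Function.Surjective π ∧ π r = 1 ∧ cork K r π = c
  have hP : P (cork K r π) := ⟨Q, inferInstance, inferInstance, π, hs, hπ, rfl⟩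
  have hb : ∀ c, P c → c ≤ m := by
    rintro c ⟨Q, _, _, π, h, h', rfl⟩
    exact cork_le_m_all hk r hr1 m H π h h' K
  have hg := Nat.findGreatest_spec (P := P) (hb _ hP) hP
  have hle : cork K r π ≤ Nat.findGreatest P m := Nat.le_findGreatest (hb _ hP) hP
  obtain ⟨Q₀, iG, iF, π₀, h0, h0', h0c⟩ := hg
  have h1 : cork K r π₀ ≤ 1 := by
    refine rigid (p := p) hk π₀ h0 r h0' ?_
    intro Q₁ iG₁ iF₁ π₁ θ₁ hs₁ hr₁ hθ₁ hp₁
    rw [h0c]
    have hP1 : P (cork K r π₁) := ⟨Q₁, iG₁, iF₁, π₁, hs₁, hr₁, rfl⟩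
    exact Nat.le_findGreatest (hb _ hP1) hP1
  rw [h0c] at h1
  exact le_trans hle h1

end Pool.Agent.MelD
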