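import Pool.Agent.MelD.Dens

/-!
# The first Betti numbers of the finite index normal subgroups

For `N` normal of index `n` in the one-relator group and a field `K` the space of homomorphisms `N → K` has
dimension `(k - 2) n + 1 + c`, `c` the corank.
-/

open Finset Module

namespace Pool.Agent.MelD

open Pool.Agent.MelG (HasRel)

/-- Crossed homomorphisms for the trivial action. -/
def z1Equiv (K : Type) [Field K] {H : Type} [Group H] (ρ : H →* Module.End K K) (hρ : ∀ g, ρ g = 1) :
    Z1 ρ ≃ₗ[K] (Additive H →+ K) where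
  toFun c := AddMonoidHom.mk' (fun g => c.1 (Additive.toMul g)) (by
    intro a b
    show c.1 (Additive.toMul a * Additive.toMul b) = c.1 (Additive.toMul a) + c.1 (Additive.toMul b)
    rw [c.2, hρ]
    rfl)
  invFun f := ⟨fun g => f (Additive.ofMul g), by
    intro g h
    show f (Additive.ofMul (g * h)) = f (Additive.ofMul g) + ρ g (f (Additive.ofMul h))
    rw [hρ]
    show f (Additive.ofMul (g * h)) = f (Additive.ofMul g) + f (Additive.ofMul h)
    rw [← map_add]
    rfl⟩
  map_add' _ _ := rfl
  map_smul' _ _ := rfl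
  left_inv _ := rfl
  right_inv _ := rfl

/-- The first Betti number in terms of the corank. -/
theorem b1_eq {k : ℕ} (hk : 2 ≤ k) (r : FreeGroup (Fin k)) (N : Subgroup (OR r)) [N.Normal]
    [N.FiniteIndex] (K : Type) [Field K] :
    ∃ (Q : Type) (_ : Group Q) (_ : Fintype Q) (π : FreeGroup (Fin k) →* Q),
      Function.Surjective π ∧ π r = 1 ∧ Fintype.card Q = N.index ∧
      finrank K (Additive N →+ K) = (k - 2) * N.index + 1 + cork K r π := by
  classical
  let π' : OR r →* OR r ⧸ N := QuotientGroup.mk' N
  have : Fintype (OR r ⧸ N) := Fintype.ofFinite _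
  have hs : Function.Surjective π' := QuotientGroup.mk'_surjective N
  have hmk : Function.Surjective (PresentedGroup.mk ({r} : Set (FreeGroup (Fin k)))) :=
    PresentedGroup.mk_surjective _
  have hr : PresentedGroup.mk ({r} : Set (FreeGroup (Fin k))) r = 1 :=
    PresentedGroup.one_of_mem (Set.mem_singleton r)
  have hcard : Fintype.card (OR r ⧸ N) = N.index := by
    rw [Subgroup.index, Nat.card_eq_fintype_card]
  refine ⟨OR r ⧸ N, inferInstance, inferInstance, π'.comp (PresentedGroup.mk {r}), hs.comp hmk, ?_, hcard, ?_⟩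
  · show π' (PresentedGroup.mk {r} r) = 1
    rw [hr, map_one]
  · have e1 := finrank_ker r π' hs (1 : OR r →* Module.End K K)
    have hone : (1 : OR r →* Module.End K K).comp
      (PresentedGroup.mk ({r} : Set (FreeGroup (Fin k)))) = 1 := rfl
    rw [hone, finrank_self, mul_one, mul_one] at e1
    have h2 := rank_add_cork K r (π'.comp (PresentedGroup.mk ({r} : Set (FreeGroup (Fin k)))))
    have h3 : finrank K (Z1 ((1 : OR r →* Module.End K K).comp π'.ker.subtype)) =
        finrank K (Additive N →+ K) := by
      have h4 : finrank K (Z1 ((1 : OR r →* Module.End K K).comp π'.ker.subtype)) =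
          finrank K (Additive π'.ker →+ K) :=
        (z1Equiv K ((1 : OR r →* Module.End K K).comp π'.ker.subtype) (fun g => rfl)).finrank_eq
      rw [h4]
      have h5 : π'.ker = N := QuotientGroup.ker_mk' N
      rw [h5]
    rw [h3] at e1
    rw [hcard] at e1 h2
    have hn : 1 ≤ N.index := by
      rw [← hcard]
      exact Fintype.card_pos
    have h6 : k * N.index = (k - 2) * N.index + 2 * N.index := by
      rw [← Nat.add_mul, Nat.sub_add_cancel hk]
    omega

/-- `H(m)` for some `m` implies that the first Betti numbers modulo `p` of all finite index normal subgroups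
take one of two values. -/
theorem b1_all {k : ℕ} (hk : 2 ≤ k) (r : FreeGroup (Fin k)) (hr1 : r ≠ 1) (m : ℕ)
    (H : ∀ N : Subgroup (OR r), N.Normal → N.FiniteIndex → HasRel m N)
    (N : Subgroup (OR r)) [N.Normal] [N.FiniteIndex] (K : Type) [Field K] [Finite K] :
    finrank K (Additive N →+ K) = (k - 2) * N.index + 1 ∨
      finrank K (Additive N →+ K) = (k - 2) * N.index + 2 := by
  obtain ⟨Q, _, _, π, hs, hπ, _, h⟩ := b1_eq hk r N K
  have h1 := cork_le_one_all hk r hr1 m H π hs hπ K
  omega

/-- If all homomorphisms to `K` vanish at `r`, the corank is at least one. -/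
theorem one_le_cork {K : Type} [Field K] {k : ℕ} (r : FreeGroup (Fin k)) (p : ℕ)
    (hp : ∀ a : K, p • a = 0) (hT : r ∈ VT p (⊤ : Subgroup (FreeGroup (Fin k)))) {Q : Type}
    [Group Q] [Fintype Q] (π : FreeGroup (Fin k) →* Q) : 1 ≤ cork K r π := by
  classical
  let ℓ : (Q → K) →ₗ[K] K :=
    { toFun := fun f => ∑ q, f q
      map_add' := fun f g => by
        simp only [Pi.add_apply, sum_add_distrib]
      map_smul' := fun c f => by
        simp only [Pi.smul_apply, smul_eq_mul, RingHom.id_apply, mul_sum] }
  have hℓ : ∀ f, ℓ f = ∑ q, f q := fun f => rfl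
  have hzero : ∀ v, ℓ (ev (ind π (1 : FreeGroup (Fin k) →* Module.End K K)) r v) = 0 := by
    intro v
    refine VT_kill p ⊤ hp (fun g => ℓ (coc (ind π (1 : FreeGroup (Fin k) →* Module.End K K)) v g)) ?_ r hT
    intro g _ h _
    show ℓ (coc _ v (g * h)) = ℓ (coc _ v g) + ℓ (coc _ v h)
    rw [coc_mul, map_add]
    congr 1
    rw [hℓ, hℓ]
    exact Fintype.sum_equiv (Equiv.mulRight (π g)) _ _ fun q => rfl
  have hsur : Function.Surjective ℓ := by
    intro a
    refine ⟨Pi.single 1 a, ?_⟩
    rw [hℓ, Finset.sum_eq_single 1]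
    · rw [Pi.single_eq_same]
    · intro q _ hq
      rw [Pi.single_eq_of_ne hq]
    · intro h
      exact absurd (mem_univ _) h
  have h1 : LinearMap.range (ev (ind π (1 : FreeGroup (Fin k) →* Module.End K K)) r) ≤
      LinearMap.ker ℓ := by
    rintro _ ⟨v, rfl⟩
    exact hzero v
  have h2 := Submodule.finrank_mono h1
  have h3 := LinearMap.finrank_range_add_finrank_ker ℓ
  rw [LinearMap.range_eq_top.2 hsur, finrank_top, finrank_self, Module.finrank_fintype_fun_eq_card] at h3
  have h4 := rank_add_cork K r π
  omega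

/-- The case in which `r` is a product of commutators and `p`-th powers. -/
theorem b1_surf {k : ℕ} (hk : 2 ≤ k) (r : FreeGroup (Fin k)) (hr1 : r ≠ 1) (m : ℕ)
    (H : ∀ N : Subgroup (OR r), N.Normal → N.FiniteIndex → HasRel m N) (p : ℕ)
    (hT : r ∈ VT p (⊤ : Subgroup (FreeGroup (Fin k))))
    (N : Subgroup (OR r)) [N.Normal] [N.FiniteIndex] (K : Type) [Field K] [Finite K]
    (hp : ∀ a : K, p • a = 0) :
    finrank K (Additive N →+ K) = (k - 2) * N.index + 2 := by
  obtain ⟨Q, _, _, π, hs, hπ, _, h⟩ := b1_eq hk r N K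
  have h1 := cork_le_one_all hk r hr1 m H π hs hπ K
  have h2 := one_le_cork (K := K) r p hp hT π
  omega

end Pool.Agent.MelD
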