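import Pool.Agent.MelD.Gam

/-!
# Torsion-free nilpotent quotients of groups of power series are nice

`R = Matrix (Fin d) (Fin d) ℤ`, `Γ = Gam R`, `M = M(N, D)` the subgroup of the `u ∈ Γ` such that
`N ^ n` divides all entries of `coeff n u` for `0 < n < D`.  `Ω = Γ ⧸ M`.

* A series is in the box if the entries of `coeff n` are in `[0, N ^ n)` for `0 < n < D`.  Every coset
  of `M` contains a series in the box, and two series in the box in the same coset agree modulo
  `t ^ D`.  So `|Ω| ≤ N ^ e`, `e = ∑_{n<D} n d²`.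
* The inner box: entries of `coeff n` in `[C N ^ (n-1), N ^ n - C N ^ (n-1))`; `C` such that `a b` is in
  the box for all `a` in the given finite set and `b` in the inner box.  `B` = its image in `Ω`,
  `|B| = ∏_n (N ^ n - 2 C N ^ (n-1)) ^ (d²) = N ^ e (1 - 2 C / N) ^ (d² (D-1))`.
* `uniq` gives the unique products.
-/

open Finset PowerSeries

namespace Pool.Agent.MelD

namespace Box

/-- Integer matrices. -/
abbrev Mt (d : ℕ) : Type := Matrix (Fin d) (Fin d) ℤ

theorem uniqueSums_mt (d : ℕ) : UniqueSums (Mt d) :=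
  inferInstanceAs (UniqueSums (Fin d → Fin d → ℤ))

/-- `N ^ n` divides the entries of the coefficient of degree `n`, for `n < D`. -/
def Dv {d : ℕ} (D : ℕ) (N : ℤ) (x : (Mt d)⟦X⟧) : Prop :=
  ∀ n, n < D → ∀ i j, N ^ n ∣ coeff n x i j

theorem Dv.mul {d D : ℕ} {N : ℤ} {x y : (Mt d)⟦X⟧} (hx : Dv D N x) (hy : Dv D N y) :
    Dv D N (x * y) := by
  intro n hn i j
  rw [coeff_mul, Matrix.sum_apply]
  refine dvd_sum fun p hp => ?_
  rw [HasAntidiagonal.mem_antidiagonal] at hp
  rw [Matrix.mul_apply]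
  refine dvd_sum fun k _ => ?_
  rw [← hp, pow_add]
  exact mul_dvd_mul (hx p.1 (by omega) i k) (hy p.2 (by omega) k j)

theorem Dv.inv {d D : ℕ} {N : ℤ} {u : Gam (Mt d)} (hu : Dv D N (ser u)) :
    Dv D N (ser u⁻¹) := by
  intro n
  induction n using Nat.strong_induction_on with
  | _ n ih =>
    intro hn i j
    rcases Nat.eq_zero_or_pos n with rfl | h0
    · rw [pow_zero]
      exact one_dvd _
    · have h1 := coeff_ser_mul u u⁻¹ n h0
      rw [mul_inv_cancel, ser_one, coeff_one, if_neg (by omega)] at h1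
      have h2 : coeff n (ser u⁻¹) = -(coeff n (ser u) +
          ∑ i ∈ Ioo 0 n, coeff i (ser u) * coeff (n - i) (ser u⁻¹)) := by
        rw [eq_neg_iff_add_eq_zero, h1]
        abel
      rw [h2, Matrix.neg_apply, Matrix.add_apply, Matrix.sum_apply, dvd_neg]
      refine dvd_add (hu n hn i j) (dvd_sum fun a ha => ?_)
      rw [mem_Ioo] at ha
      rw [Matrix.mul_apply]
      refine dvd_sum fun k _ => ?_
      have h3 : N ^ n = N ^ a * N ^ (n - a) := by
        rw [← pow_add]
        congr 1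
        omega
      rw [h3]
      exact mul_dvd_mul (hu a (by omega) i k) (ih (n - a) (by omega) (by omega) k j)

/-- The subgroup of the series satisfying the divisibilities. -/
noncomputable def MN (d D : ℕ) (N : ℤ) : Subgroup (Gam (Mt d)) where
  carrier := {u | Dv D N (ser u)}
  one_mem' := by
    rw [Set.mem_ofPred_eq, ser_one]
    intro n hn i j
    rw [coeff_one]
    rcases Nat.eq_zero_or_pos n with rfl | h0
    · rw [pow_zero]
      exact one_dvd _
    · rw [if_neg (by omega)]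
      exact dvd_zero _
  mul_mem' := by
    intro a b ha hb
    rw [Set.mem_ofPred_eq] at ha hb ⊢
    rw [ser_mul]
    exact ha.mul hb
  inv_mem' := by
    intro a ha
    rw [Set.mem_ofPred_eq] at ha ⊢
    exact ha.inv

theorem mem_MN {d D : ℕ} {N : ℤ} {u : Gam (Mt d)} : u ∈ MN d D N ↔ Dv D N (ser u) := Iff.rfl

theorem KD_le_MN (d D : ℕ) (N : ℤ) : KD (Mt d) D ≤ MN d D N := by
  intro u hu n hn i j
  rcases Nat.eq_zero_or_pos n with rfl | h0
  · rw [pow_zero]
    exact one_dvd _
  · rw [show coeff n (ser u) = 0 from hu n h0 hn]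
    exact dvd_zero _

/-- The finite set of cosets. -/
abbrev Om (d D : ℕ) (N : ℤ) : Type :=
  (Gam (Mt d) ⧸ KD (Mt d) D) ⧸ (MN d D N).map (QuotientGroup.mk' (KD (Mt d) D))

/-- The class of a series. -/
noncomputable def pr (d D : ℕ) (N : ℤ) (u : Gam (Mt d)) : Om d D N :=
  ((u : Gam (Mt d) ⧸ KD (Mt d) D) : Om d D N)

theorem pr_surjective (d D : ℕ) (N : ℤ) : Function.Surjective (pr d D N) := by
  intro ω
  obtain ⟨q, rfl⟩ := QuotientGroup.mk_surjective ω
  obtain ⟨u, rfl⟩ := QuotientGroup.mk_surjective q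
  exact ⟨u, rfl⟩

theorem pr_eq_iff {d D : ℕ} {N : ℤ} {u v : Gam (Mt d)} :
    pr d D N u = pr d D N v ↔ u⁻¹ * v ∈ MN d D N := by
  unfold pr
  rw [QuotientGroup.eq, Subgroup.mem_map]
  constructor
  · rintro ⟨m, hm, h⟩
    have h1 : (m : Gam (Mt d) ⧸ KD (Mt d) D) = ((u⁻¹ * v : Gam (Mt d)) : Gam (Mt d) ⧸ KD (Mt d) D) := h
    rw [QuotientGroup.eq] at h1
    have h2 := (MN d D N).mul_mem hm (KD_le_MN d D N h1)
    rwa [mul_inv_cancel_left] at h2
  · intro h
    exact ⟨u⁻¹ * v, h, rfl⟩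

/-- The action of the quotient group on the cosets. -/
theorem smul_pr {d D : ℕ} {N : ℤ} (a b : Gam (Mt d)) :
    (a : Gam (Mt d) ⧸ KD (Mt d) D) • pr d D N b = pr d D N (a * b) := rfl

/-- The box. -/
def InBox {d : ℕ} (D : ℕ) (N : ℤ) (u : Gam (Mt d)) : Prop :=
  ∀ n, 0 < n → n < D → ∀ i j, 0 ≤ coeff n (ser u) i j ∧ coeff n (ser u) i j < N ^ n

theorem box_inj {d D : ℕ} {N : ℤ} {u v : Gam (Mt d)} (hu : InBox D N u) (hv : InBox D N v)
    (h : pr d D N u = pr d D N v) : Cong D (ser u) (ser v) := by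
  rw [pr_eq_iff] at h
  obtain ⟨x, hx⟩ : ∃ x, x = u⁻¹ * v := ⟨_, rfl⟩
  rw [← hx] at h
  have hv' : v = u * x := by rw [hx, mul_inv_cancel_left]
  have h1 : ∀ n, 0 < n → n < D → coeff n (ser x) = 0 := by
    intro n
    induction n using Nat.strong_induction_on with
    | _ n ih =>
      intro h0 hn
      have h2 := coeff_ser_mul u x n h0
      rw [← hv', sum_eq_zero, add_zero] at h2
      · apply Matrix.ext
        intro i j
        have h3 : coeff n (ser x) i j = coeff n (ser v) i j - coeff n (ser u) i j := by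
          rw [h2, Matrix.add_apply]
          ring
        rw [Matrix.zero_apply]
        have h4 := h n hn i j
        have h5 := hu n h0 hn i j
        have h6 := hv n h0 hn i j
        apply Int.eq_zero_of_abs_lt_dvd h4
        rw [h3, abs_lt]
        constructor <;> linarith [h5.1, h5.2, h6.1, h6.2]
      · intro i hi
        rw [mem_Ioo] at hi
        rw [ih (n - i) (by omega) (by omega) (by omega), mul_zero]
  rw [hv']
  intro n hn
  rcases Nat.eq_zero_or_pos n with rfl | h0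
  · rw [coeff_zero_ser, coeff_zero_ser]
  · rw [coeff_ser_mul u x n h0, h1 n h0 hn, add_zero, sum_eq_zero, add_zero]
    intro i hi
    rw [mem_Ioo] at hi
    rw [h1 (n - i) (by omega) (by omega), mul_zero]

/-- The series with given coefficients of positive degree. -/
theorem exists_coeff {d : ℕ} (c : ℕ → Mt d) :
    ∃ u : Gam (Mt d), ∀ n, 0 < n → coeff n (ser u) = c n := by
  obtain ⟨u, hu⟩ := exists_ser (R := Mt d) (PowerSeries.mk fun n => if n = 0 then 1 else c n) (by
    rw [← coeff_zero_eq_constantCoeff_apply, coeff_mk, if_pos rfl])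
  refine ⟨u, fun n hn => ?_⟩
  rw [hu, coeff_mk, if_neg (by omega)]

theorem box_surj {d D : ℕ} {N : ℤ} (hN : 0 < N) (u : Gam (Mt d)) :
    ∃ v, InBox D N v ∧ pr d D N v = pr d D N u := by
  have h : ∀ m : ℕ, ∃ x ∈ MN d D N, InBox m N (u * x) := by
    intro m
    induction m with
    | zero => exact ⟨1, (MN d D N).one_mem, fun n h0 hn => absurd hn (by omega)⟩
    | succ m ih =>
      rcases Nat.eq_zero_or_pos m with rfl | hm
      · exact ⟨1, (MN d D N).one_mem, fun n h0 hn => absurd hn (by omega)⟩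
      · obtain ⟨x, hx, hb⟩ := ih
        obtain ⟨y, hy⟩ := exists_coeff (fun n => if n = m then
          (Matrix.of fun i j => coeff m (ser (u * x)) i j % N ^ m - coeff m (ser (u * x)) i j)
            else (0 : Mt d))
        have hyM : y ∈ MN d D N := by
          rw [mem_MN]
          intro n hn i j
          rcases Nat.eq_zero_or_pos n with rfl | h0
          · rw [pow_zero]
            exact one_dvd _
          · rw [hy n h0]
            split_ifs with h1
            · rw [Matrix.of_apply, h1]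
              refine ⟨-(coeff m (ser (u * x)) i j / N ^ m), ?_⟩
              rw [Int.emod_def]
              ring
            · exact dvd_zero _
        refine ⟨x * y, (MN d D N).mul_mem hx hyM, ?_⟩
        rw [← mul_assoc]
        intro n h0 hn i j
        rw [coeff_ser_mul _ _ n h0, sum_eq_zero, add_zero, Matrix.add_apply, hy n h0]
        · rcases Nat.lt_or_ge n m with h1 | h1
          · rw [if_neg (by omega), Matrix.zero_apply, add_zero]
            exact hb n h0 h1 i j
          · obtain rfl : n = m := by omega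
            rw [if_pos rfl, Matrix.of_apply, add_sub_cancel]
            exact ⟨Int.emod_nonneg _ (pow_pos hN _).ne', Int.emod_lt_of_pos _ (pow_pos hN _)⟩
        · intro i hi
          rw [mem_Ioo] at hi
          rw [hy (n - i) (by omega), if_neg (by omega), mul_zero]
  obtain ⟨x, hx, hb⟩ := h D
  refine ⟨u * x, hb, ?_⟩
  rw [pr_eq_iff, mul_inv_rev, inv_mul_cancel_right]
  exact (MN d D N).inv_mem hx

/-- The index set of the entries of the coefficients of degree less than `D`. -/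
abbrev Ix (d D : ℕ) : Type := Fin D × Fin d × Fin d

/-- The series with given entries of the coefficients of degree in `(0, D)`. -/
noncomputable def mkS {d D : ℕ} (f : Ix d D → ℤ) : Gam (Mt d) :=
  Classical.choose (exists_coeff (fun n => if h : n < D then
    (Matrix.of fun i j => f (⟨n, h⟩, i, j) : Mt d) else 0))

theorem coeff_mkS {d D : ℕ} (f : Ix d D → ℤ) (n : ℕ) (h0 : 0 < n) (hn : n < D) (i j : Fin d) :
    coeff n (ser (mkS f)) i j = f (⟨n, hn⟩, i, j) := by
  unfold mkS
  rw [Classical.choose_spec (exists_coeff (fun n => if h : n < D then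
    (Matrix.of fun i j => f (⟨n, h⟩, i, j) : Mt d) else 0)) n h0, dif_pos hn, Matrix.of_apply]

/-- The margin. -/
def mg (C N : ℤ) (n : ℕ) : ℤ := if n = 0 then 0 else C * N ^ (n - 1)

/-- The functions of the box with the margin. -/
noncomputable def bx (d D : ℕ) (N C : ℤ) : Finset (Ix d D → ℤ) :=
  Fintype.piFinset fun p => Ico (mg C N p.1.1) (N ^ p.1.1 - mg C N p.1.1)

theorem card_bx (d D : ℕ) (N C : ℤ) (hN : 0 < N) (hCN : 2 * C ≤ N) :
    ((bx d D N C).card : ℤ) = ∏ p : Ix d D, (N ^ p.1.1 - 2 * mg C N p.1.1) := by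
  unfold bx
  rw [Fintype.card_piFinset, Nat.cast_prod]
  refine prod_congr rfl fun p _ => ?_
  rw [Int.card_Ico, Int.toNat_of_nonneg]
  · ring
  · unfold mg
    split_ifs with h
    · have := pow_pos hN p.1.1
      linarith
    · have h1 : N ^ p.1.1 = N * N ^ (p.1.1 - 1) := by
        rw [← pow_succ']
        congr 1
        omega
      have h2 := pow_pos hN (p.1.1 - 1)
      rw [h1]
      nlinarith

theorem mg_zero (N : ℤ) (n : ℕ) : mg 0 N n = 0 := by
  unfold mg
  split_ifs <;> simp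

theorem cover (d D : ℕ) (N : ℤ) (hN : 0 < N) (ω : Om d D N) :
    ∃ f ∈ bx d D N 0, pr d D N (mkS f) = ω := by
  obtain ⟨u, rfl⟩ := pr_surjective d D N ω
  obtain ⟨v, hv, hvu⟩ := box_surj (D := D) hN u
  refine ⟨fun p => if 0 < p.1.1 then coeff p.1.1 (ser v) p.2.1 p.2.2 else 0, ?_, ?_⟩
  · unfold bx
    rw [Fintype.mem_piFinset]
    intro p
    rw [mem_Ico, mg_zero, sub_zero]
    split_ifs with h3
    · exact hv p.1.1 h3 p.1.2 p.2.1 p.2.2
    · exact ⟨le_rfl, pow_pos hN _⟩
  · rw [← hvu, pr_eq_iff]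
    apply KD_le_MN
    rw [← QuotientGroup.eq, mk_eq_mk]
    intro n hn
    rcases Nat.eq_zero_or_pos n with rfl | h4
    · rw [coeff_zero_ser, coeff_zero_ser]
    · apply Matrix.ext
      intro i j
      rw [coeff_mkS _ n h4 hn]
      simp only [h4, if_true]

theorem finite_Om (d D : ℕ) (N : ℤ) (hN : 0 < N) : Finite (Om d D N) := by
  refine Finite.of_surjective (fun f : bx d D N 0 => pr d D N (mkS f.1)) ?_
  intro ω
  obtain ⟨f, hf, h⟩ := cover d D N hN ω
  exact ⟨⟨f, hf⟩, h⟩

theorem card_le (d D : ℕ) (N : ℤ) (hN : 0 < N) [Fintype (Om d D N)] :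
    (Fintype.card (Om d D N) : ℤ) ≤ ∏ p : Ix d D, N ^ p.1.1 := by
  classical
  have h0 := card_bx d D N 0 hN (by linarith)
  simp only [mg_zero, mul_zero, sub_zero] at h0
  rw [← h0]
  have h2 : (univ : Finset (Om d D N)) ⊆ (bx d D N 0).image (fun f => pr d D N (mkS f)) := by
    intro ω _
    obtain ⟨f, hf, h⟩ := cover d D N hN ω
    exact mem_image.mpr ⟨f, hf, h⟩
  have h3 := (card_le_card h2).trans card_image_le
  rw [card_univ] at h3
  exact_mod_cast h3

theorem mg_nonneg {N C : ℤ} (hN : 0 < N) (hC : 0 ≤ C) (n : ℕ) : 0 ≤ mg C N n := by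
  unfold mg
  split_ifs
  · exact le_rfl
  · exact mul_nonneg hC (pow_pos hN _).le

/-- Multiplication maps the inner box to the box. -/
theorem act_box {d D : ℕ} {N α C : ℤ} (hN : 0 < N) (hα : 0 ≤ α) (hC : α * (D * d + 1) = C)
    {a b : Gam (Mt d)} (ha : ∀ n, n < D → ∀ i j, |coeff n (ser a) i j| ≤ α)
    (hb : ∀ n, 0 < n → n < D → ∀ i j, mg C N n ≤ coeff n (ser b) i j ∧
      coeff n (ser b) i j < N ^ n - mg C N n) :
    InBox D N (a * b) := by
  have hC0 : 0 ≤ C := by
    rw [← hC]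
    positivity
  have hb' : ∀ n, 0 < n → n < D → ∀ i j, |coeff n (ser b) i j| ≤ N ^ n := by
    intro n h0 hn i j
    have h1 := hb n h0 hn i j
    have h2 := mg_nonneg hN hC0 n
    rw [abs_le]
    constructor <;> linarith [h1.1, h1.2]
  intro n h0 hn i j
  rw [coeff_ser_mul _ _ n h0, Matrix.add_apply, Matrix.add_apply, Matrix.sum_apply]
  have h1 : |∑ t ∈ Ioo 0 n, (coeff t (ser a) * coeff (n - t) (ser b)) i j| ≤
      D * d * α * N ^ (n - 1) := by
    refine (abs_sum_le_sum_abs _ _).trans ?_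
    have h2 : ∀ t ∈ Ioo 0 n, |(coeff t (ser a) * coeff (n - t) (ser b)) i j| ≤
        d * α * N ^ (n - 1) := by
      intro t ht
      rw [mem_Ioo] at ht
      rw [Matrix.mul_apply]
      refine (abs_sum_le_sum_abs _ _).trans ?_
      have h3 : ∀ k ∈ (univ : Finset (Fin d)),
          |coeff t (ser a) i k * coeff (n - t) (ser b) k j| ≤ α * N ^ (n - 1) := by
        intro k _
        rw [abs_mul]
        refine mul_le_mul (ha t (by omega) i k) ((hb' (n - t) (by omega) (by omega) k j).trans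
          ?_) (abs_nonneg _) hα
        exact pow_le_pow_right₀ (by omega) (by omega)
      refine (sum_le_card_nsmul _ _ _ h3).trans ?_
      rw [card_univ, Fintype.card_fin, nsmul_eq_mul, mul_assoc]
    refine (sum_le_card_nsmul _ _ _ h2).trans ?_
    rw [Nat.card_Ioo, nsmul_eq_mul, mul_assoc, mul_assoc, mul_assoc]
    refine mul_le_mul_of_nonneg_right ?_ (by positivity)
    have : n - 0 - 1 ≤ D := by omega
    exact_mod_cast this
  have h2 : |coeff n (ser a) i j| ≤ α * N ^ (n - 1) := by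
    refine (ha n hn i j).trans ?_
    have h3 : (1 : ℤ) ≤ N ^ (n - 1) := one_le_pow₀ (by omega)
    nlinarith
  have h3 : D * d * α * N ^ (n - 1) + α * N ^ (n - 1) = mg C N n := by
    unfold mg
    rw [if_neg (by omega), ← hC]
    ring
  have h4 := hb n h0 hn i j
  rw [abs_le] at h1 h2
  constructor <;> linarith [h1.1, h1.2, h2.1, h2.2, h4.1, h4.2]

theorem mkS_mem {d D : ℕ} {N C : ℤ} {f : Ix d D → ℤ} (hf : f ∈ bx d D N C) :
    ∀ n, 0 < n → n < D → ∀ i j, mg C N n ≤ coeff n (ser (mkS f)) i j ∧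
      coeff n (ser (mkS f)) i j < N ^ n - mg C N n := by
  intro n h0 hn i j
  unfold bx at hf
  rw [Fintype.mem_piFinset] at hf
  have h1 := hf (⟨n, hn⟩, i, j)
  rw [mem_Ico] at h1
  rw [coeff_mkS f n h0 hn i j]
  exact h1

theorem mkS_inBox {d D : ℕ} {N C : ℤ} (hN : 0 < N) (hC : 0 ≤ C) {f : Ix d D → ℤ}
    (hf : f ∈ bx d D N C) : InBox D N (mkS f) := by
  intro n h0 hn i j
  have h1 := mkS_mem hf n h0 hn i j
  have h2 := mg_nonneg hN hC n
  constructor <;> linarith [h1.1, h1.2]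

theorem mkS_inj {d D : ℕ} {N C : ℤ} (hN : 0 < N) (hC : 0 ≤ C) {f g : Ix d D → ℤ}
    (hf : f ∈ bx d D N C) (hg : g ∈ bx d D N C) (h : pr d D N (mkS f) = pr d D N (mkS g)) :
    f = g := by
  have h1 := box_inj (mkS_inBox hN hC hf) (mkS_inBox hN hC hg) h
  funext p
  obtain ⟨⟨n, hn⟩, i, j⟩ := p
  rcases Nat.eq_zero_or_pos n with rfl | h0
  · unfold bx at hf hg
    rw [Fintype.mem_piFinset] at hf hg
    have h2 := hf (⟨0, hn⟩, i, j)
    have h3 := hg (⟨0, hn⟩, i, j)
    rw [mem_Ico] at h2 h3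
    simp only [mg, if_true, pow_zero, sub_zero] at h2 h3
    omega
  · rw [← coeff_mkS f n h0 hn i j, ← coeff_mkS g n h0 hn i j, h1 n hn]

/-- The estimate for the size of the inner box. -/
theorem size {d D : ℕ} {N C : ℤ} (hN : 0 < N) (hC : 0 ≤ C) (hCN : 2 * C ≤ N) (n : ℕ)
    (h : (n + 1) * (2 * C) * Fintype.card (Ix d D) < N) :
    (n : ℤ) * ∏ p : Ix d D, N ^ p.1.1 < (n + 1) * ((bx d D N C).card : ℤ) := by
  rw [card_bx d D N C hN hCN]
  have hN' : (0 : ℚ) < N := by exact_mod_cast hN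
  have hC' : (0 : ℚ) ≤ C := by exact_mod_cast hC
  have hCN' : (2 : ℚ) * C ≤ N := by exact_mod_cast hCN
  have h' : ((n : ℚ) + 1) * (2 * C) * Fintype.card (Ix d D) < N := by exact_mod_cast h
  have key : (n : ℚ) * ∏ p : Ix d D, (N : ℚ) ^ p.1.1 <
      (n + 1) * ∏ p : Ix d D, ((N : ℚ) ^ p.1.1 - 2 * (mg C N p.1.1 : ℤ)) := by
    have h1 : ∏ p : Ix d D, ((N : ℚ) ^ p.1.1 * (1 + (-(2 * C / N)))) ≤
        ∏ p : Ix d D, ((N : ℚ) ^ p.1.1 - 2 * (mg C N p.1.1 : ℤ)) := by
      have h5 : (2 : ℚ) * C / N ≤ 1 := by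
        rw [div_le_one hN']
        exact hCN'
      refine prod_le_prod (fun p _ => mul_nonneg (by positivity) (by linarith)) fun p _ => ?_
      unfold mg
      split_ifs with h2
      · rw [h2, pow_zero]
        have : 0 ≤ (2 : ℚ) * C / N := by positivity
        push_cast
        linarith
      · have h3 : (N : ℚ) ^ p.1.1 = N * (N : ℚ) ^ (p.1.1 - 1) := by
          rw [← pow_succ']
          congr 1
          omega
        push_cast
        rw [h3]
        have h4 : (N : ℚ) * (N : ℚ) ^ (p.1.1 - 1) * (1 + (-(2 * C / N))) =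
            N * (N : ℚ) ^ (p.1.1 - 1) - 2 * (C * (N : ℚ) ^ (p.1.1 - 1)) := by
          field_simp
          ring
        rw [h4]
    rw [prod_mul_distrib, prod_const, card_univ] at h1
    have h2 : 0 < ∏ p : Ix d D, (N : ℚ) ^ p.1.1 := prod_pos fun p _ => by positivity
    have h3 : (2 : ℚ) * C / N ≤ 1 := by
      rw [div_le_one hN']
      exact hCN'
    have h4 := one_add_mul_le_pow (a := (-(2 * C / N) : ℚ)) (by linarith)
      (Fintype.card (Ix d D))
    have h5 : (n : ℚ) < (n + 1) * (1 + Fintype.card (Ix d D) * (-(2 * C / N))) := by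
      have h6 : ((n : ℚ) + 1) * (Fintype.card (Ix d D) * (2 * C / N)) < 1 := by
        rw [show ((n : ℚ) + 1) * (Fintype.card (Ix d D) * (2 * C / N)) =
          ((n : ℚ) + 1) * (2 * C) * Fintype.card (Ix d D) / N by ring, div_lt_one hN']
        exact h'
      linarith
    calc (n : ℚ) * ∏ p : Ix d D, (N : ℚ) ^ p.1.1
        < ((n + 1) * (1 + Fintype.card (Ix d D) * (-(2 * C / N)))) *
            ∏ p : Ix d D, (N : ℚ) ^ p.1.1 := mul_lt_mul_of_pos_right h5 h2
      _ = (n + 1) * ((∏ p : Ix d D, (N : ℚ) ^ p.1.1) *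
            (1 + Fintype.card (Ix d D) * (-(2 * C / N)))) := by ring
      _ ≤ (n + 1) * ((∏ p : Ix d D, (N : ℚ) ^ p.1.1) *
            (1 + (-(2 * C / N))) ^ Fintype.card (Ix d D)) :=
          mul_le_mul_of_nonneg_left (mul_le_mul_of_nonneg_left h4 h2.le) (by positivity)
      _ ≤ _ := mul_le_mul_of_nonneg_left h1 (by positivity)
  exact_mod_cast key

end Box

open Box in
theorem nice_box (d D : ℕ) :
    Nice (Gam (Matrix (Fin d) (Fin d) ℤ) ⧸ KD (Matrix (Fin d) (Fin d) ℤ) D) := by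
  classical
  intro A n
  obtain ⟨lf, hlf⟩ : ∃ lf : Gam (Mt d) ⧸ KD (Mt d) D → Gam (Mt d), ∀ q,
      (lf q : Gam (Mt d) ⧸ KD (Mt d) D) = q := ⟨Quotient.out, QuotientGroup.out_eq'⟩
  obtain ⟨α, hα0, hα⟩ : ∃ α : ℤ, 0 ≤ α ∧ ∀ a ∈ A, ∀ m, m < D → ∀ i j,
      |coeff m (ser (lf a)) i j| ≤ α := by
    refine ⟨∑ a ∈ A, ∑ m ∈ range D, ∑ i, ∑ j, |coeff m (ser (lf a)) i j|, by positivity, ?_⟩
    intro a ha m hm i j
    calc |coeff m (ser (lf a)) i j| ≤ ∑ j, |coeff m (ser (lf a)) i j| :=
          single_le_sum (f := fun j => |coeff m (ser (lf a)) i j|) (fun _ _ => abs_nonneg _)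
            (mem_univ j)
      _ ≤ ∑ i, ∑ j, |coeff m (ser (lf a)) i j| :=
          single_le_sum (f := fun i => ∑ j, |coeff m (ser (lf a)) i j|)
            (fun _ _ => by positivity) (mem_univ i)
      _ ≤ ∑ m ∈ range D, ∑ i, ∑ j, |coeff m (ser (lf a)) i j| :=
          single_le_sum (f := fun m => ∑ i, ∑ j, |coeff m (ser (lf a)) i j|)
            (fun _ _ => by positivity) (mem_range.mpr hm)
      _ ≤ _ :=
          single_le_sum (f := fun a => ∑ m ∈ range D, ∑ i, ∑ j, |coeff m (ser (lf a)) i j|)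
            (fun _ _ => by positivity) ha
  obtain ⟨C, hC⟩ : ∃ C : ℤ, α * (D * d + 1) = C := ⟨_, rfl⟩
  have hC0 : 0 ≤ C := by
    rw [← hC]
    positivity
  obtain ⟨N, hNd⟩ : ∃ N : ℤ, N = (n + 1) * (2 * C) * (Fintype.card (Ix d D) + 1) + 1 := ⟨_, rfl⟩
  have h7 : 0 ≤ ((n : ℤ) + 1) * (2 * C) * Fintype.card (Ix d D) := by positivity
  have h8 : 0 ≤ (n : ℤ) * C := by positivity
  have hN : 0 < N := by
    rw [hNd]
    positivity
  have hCN : 2 * C ≤ N := by
    rw [hNd]
    nlinarith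
  have hNs : (n + 1) * (2 * C) * Fintype.card (Ix d D) < N := by
    rw [hNd]
    nlinarith
  have := finite_Om d D N hN
  let iF : Fintype (Om d D N) := Fintype.ofFinite _
  have hinj : Set.InjOn (fun f => pr d D N (mkS f)) (bx d D N C : Set (Ix d D → ℤ)) := by
    intro f hf g hg h
    exact mkS_inj hN hC0 hf hg h
  refine ⟨Om d D N, iF, Classical.decEq _, MulAction.toPermHom _ _,
    (bx d D N C).image (fun f => pr d D N (mkS f)), ?_, ?_⟩
  · have h1 := card_le d D N hN
    have h2 := size hN hC0 hCN n hNs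
    rw [card_image_of_injOn hinj]
    have h3 : (n : ℤ) * (Fintype.card (Om d D N) : ℤ) ≤ n * ∏ p : Ix d D, N ^ p.1.1 :=
      mul_le_mul_of_nonneg_left h1 (by positivity)
    exact_mod_cast h3.trans_lt h2
  · intro hA B' hB' hB'n
    have := uniqueSums_mt d
    set B1 : Finset (Gam (Mt d)) :=
      ((bx d D N C).filter (fun f => pr d D N (mkS f) ∈ B')).image mkS with hB1
    have hB1m : ∀ ω ∈ B', ∃ b ∈ B1, pr d D N b = ω := by
      intro ω hω
      obtain ⟨f, hf, h⟩ := mem_image.mp (hB' hω)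
      refine ⟨mkS f, mem_image_of_mem _ (mem_filter.mpr ⟨hf, ?_⟩), h⟩
      rw [h]
      exact hω
    have hB1n : B1.Nonempty := by
      obtain ⟨ω, hω⟩ := hB'n
      obtain ⟨b, hb, _⟩ := hB1m ω hω
      exact ⟨b, hb⟩
    obtain ⟨a', ha', b, hb, hu⟩ := uniq D (A.image lf) B1 (hA.image lf) hB1n
    obtain ⟨a, ha, rfl⟩ := mem_image.mp ha'
    have hbox : ∀ a ∈ A, ∀ b ∈ B1, InBox D N (lf a * b) := by
      intro a ha b hb
      obtain ⟨f, hf, rfl⟩ := mem_image.mp hb
      rw [mem_filter] at hf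
      exact act_box hN hα0 hC (hα a ha) (mkS_mem hf.1)
    have hbB : pr d D N b ∈ B' := by
      obtain ⟨f, hf, rfl⟩ := mem_image.mp hb
      exact (mem_filter.mp hf).2
    refine ⟨a, ha, pr d D N b, hbB, fun a1 ha1 ω hω h => ?_⟩
    obtain ⟨b1, hb1, rfl⟩ := hB1m ω hω
    have h1 : pr d D N (lf a1 * b1) = pr d D N (lf a * b) := by
      rw [← smul_pr, ← smul_pr, hlf, hlf]
      exact h
    obtain ⟨h2, h3⟩ := hu (lf a1) (mem_image_of_mem _ ha1) b1 hb1
      (box_inj (hbox a1 ha1 b1 hb1) (hbox a ha b hb) h1)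
    constructor
    · rw [← hlf a1, ← hlf a, mk_eq_mk]
      exact h2
    · unfold pr
      rw [(mk_eq_mk D b1 b).mpr h3]

end Pool.Agent.MelD
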