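import Pool.Agent.MelD.Def

/-!
# Generic representations of nice groups

`f : F → U` with `U` nice and `f r = 1`, `π : F → Q` onto a finite group; `e` the image in `ℚ[U × Q]`
of some Fox derivative of `r`.  If `e ≠ 0` and the second coordinate on the support of `e` is a
function of the first one, then for `V = Ω → ℚ` (`Ω` from the definition of `Nice U` for the first
coordinates of the support and `n = |Q| - 1`) the map `ev` has rank `> (|Q| - 1) dim V` on `Q → V`.

Proof: on `Q → V` the element `e` maps `δ(q, ω)` to `∑ e(a, p(a)) δ(q p(a)⁻¹, ψ(a) ω)`, and this is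
injective on the span of the `δ(q, ω)` with `ω ∈ B`.
-/

open Finset Module

namespace Pool.Agent.MelD

/-- The permutation representation on functions. -/
def permRep {U : Type*} [Group U] {Ω : Type*} (ψ : U →* Equiv.Perm Ω) : U →* Module.End ℚ (Ω → ℚ) where
  toFun u :=
    { toFun := fun v ω => v ((ψ u)⁻¹ ω)
      map_add' := by intro a b; rfl
      map_smul' := by intro c a; rfl }
  map_one' := by
    apply LinearMap.ext
    intro v
    funext ω
    show v ((ψ 1)⁻¹ ω) = v ω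
    rw [map_one, inv_one]
    rfl
  map_mul' := by
    intro a b
    apply LinearMap.ext
    intro v
    funext ω
    show v ((ψ (a * b))⁻¹ ω) = v ((ψ b)⁻¹ ((ψ a)⁻¹ ω))
    rw [map_mul, mul_inv_rev]
    rfl

theorem permRep_apply {U : Type*} [Group U] {Ω : Type*} (ψ : U →* Equiv.Perm Ω) (u : U) (v : Ω → ℚ)
    (ω : Ω) : permRep ψ u v ω = v ((ψ u)⁻¹ ω) := rfl

/-- Extension by zero. -/
noncomputable def extZ {Q Ω : Type} [DecidableEq Ω] (B : Finset Ω) : (Q → B → ℚ) →ₗ[ℚ] (Q → Ω → ℚ) where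
  toFun F q ω := if h : ω ∈ B then F q ⟨ω, h⟩ else 0
  map_add' := by
    intro a b
    funext q ω
    show (if h : ω ∈ B then (a + b) q ⟨ω, h⟩ else 0) =
      (if h : ω ∈ B then a q ⟨ω, h⟩ else 0) + (if h : ω ∈ B then b q ⟨ω, h⟩ else 0)
    split_ifs
    · rfl
    · rw [add_zero]
  map_smul' := by
    intro c a
    funext q ω
    show (if h : ω ∈ B then (c • a) q ⟨ω, h⟩ else 0) =
      c * (if h : ω ∈ B then a q ⟨ω, h⟩ else 0)
    split_ifs
    · rfl
    · rw [mul_zero]

theorem extZ_apply {Q Ω : Type} [DecidableEq Ω] (B : Finset Ω) (F : Q → B → ℚ) (q : Q) (ω : Ω) :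
    extZ B F q ω = if h : ω ∈ B then F q ⟨ω, h⟩ else 0 := rfl

theorem gen {k : ℕ} (r : FreeGroup (Fin k)) {U : Type} [Group U] (hU : Nice U)
    (f : FreeGroup (Fin k) →* U) (hf : f r = 1) {Q : Type} [Group Q] [Fintype Q]
    (π : FreeGroup (Fin k) →* Q) (j : Fin k)
    (he : fox ((MonoidAlgebra.of ℚ (U × Q)).comp (f.prod π)) j r ≠ 0)
    (hfun : ∀ x ∈ (fox ((MonoidAlgebra.of ℚ (U × Q)).comp (f.prod π)) j r).coeff.support,
      ∀ y ∈ (fox ((MonoidAlgebra.of ℚ (U × Q)).comp (f.prod π)) j r).coeff.support,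
      x.1 = y.1 → x.2 = y.2) :
    ∃ (V : Type) (_ : AddCommGroup V) (_ : Module ℚ V) (_ : FiniteDimensional ℚ V)
      (ρ : FreeGroup (Fin k) →* Module.End ℚ V), ρ r = 1 ∧
      (Fintype.card Q - 1) * finrank ℚ V < finrank ℚ (LinearMap.range (ev (ind π ρ) r)) := by
  classical
  obtain ⟨e, hedef⟩ : ∃ e, e = fox ((MonoidAlgebra.of ℚ (U × Q)).comp (f.prod π)) j r := ⟨_, rfl⟩
  rw [← hedef] at he hfun
  obtain ⟨Ω, iF, iD, ψ, B, hcard, huniq⟩ :=
    hU (e.coeff.support.image Prod.fst) (Fintype.card Q - 1)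
  have hQ : 0 < Fintype.card Q := Fintype.card_pos
  have hcoeff : e.coeff.support.Nonempty := by
    rw [Finset.nonempty_iff_ne_empty]
    intro h
    apply he
    have h1 : e.coeff = 0 := Finsupp.support_eq_empty.mp h
    exact MonoidAlgebra.coeff_inj.mp (h1.trans MonoidAlgebra.coeff_zero.symm)
  have hA : (e.coeff.support.image Prod.fst).Nonempty := hcoeff.image _
  obtain ⟨ρ, hρ⟩ : ∃ ρ : FreeGroup (Fin k) →* Module.End ℚ (Ω → ℚ), ρ = (permRep ψ).comp f :=
    ⟨_, rfl⟩
  refine ⟨Ω → ℚ, inferInstance, inferInstance, inferInstance, ρ, ?_, ?_⟩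
  · rw [hρ, MonoidHom.comp_apply, hf, map_one]
  -- the representation of `U × Q`
  obtain ⟨Θ, hΘ⟩ : ∃ Θ : U × Q →* Module.End ℚ (Q → Ω → ℚ),
    Θ = ind (MonoidHom.snd U Q) ((permRep ψ).comp (MonoidHom.fst U Q)) := ⟨_, rfl⟩
  have hΘap : ∀ (a : U) (p : Q) (F : Q → Ω → ℚ) (q : Q) (ω : Ω),
      Θ (a, p) F q ω = F (q * p) ((ψ a)⁻¹ ω) := by
    intro a p F q ω
    rw [hΘ]
    rfl
  have hcomp : ind π ρ = Θ.comp (f.prod π) := by
    rw [hΘ, hρ]
    rfl
  have hfox : fox (ind π ρ) j r = MonoidAlgebra.lift ℚ (Module.End ℚ (Q → Ω → ℚ)) (U × Q) Θ e := by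
    have h1 := map_fox ((MonoidAlgebra.lift ℚ (Module.End ℚ (Q → Ω → ℚ)) (U × Q) Θ :
      MonoidAlgebra ℚ (U × Q) →ₐ[ℚ] Module.End ℚ (Q → Ω → ℚ)) : MonoidAlgebra ℚ (U × Q) →+*
        Module.End ℚ (Q → Ω → ℚ)) ((MonoidAlgebra.of ℚ (U × Q)).comp (f.prod π)) j r
    rw [← hedef] at h1
    refine Eq.trans ?_ h1.symm
    congr 1
    rw [hcomp]
    apply MonoidHom.ext
    intro g
    show Θ (f.prod π g) = MonoidAlgebra.lift ℚ (Module.End ℚ (Q → Ω → ℚ)) (U × Q) Θ
      (MonoidAlgebra.of ℚ (U × Q) (f.prod π g))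
    rw [MonoidAlgebra.lift_of]
  -- injectivity
  have hinj : Function.Injective ((fox (ind π ρ) j r).comp (extZ (Q := Q) B)) := by
    rw [← LinearMap.ker_eq_bot, LinearMap.ker_eq_bot']
    intro F hF
    by_contra hne
    have hne' : ∃ q b, F q b ≠ 0 := by
      by_contra hc
      push Not at hc
      exact hne (by funext q b; exact hc q b)
    obtain ⟨q0, b0, hqb⟩ := hne'
    have hB'ne : (B.filter (fun ω => ∃ q, extZ B F q ω ≠ 0)).Nonempty := by
      refine ⟨b0.1, ?_⟩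
      rw [Finset.mem_filter]
      refine ⟨b0.2, q0, ?_⟩
      rw [extZ_apply, dif_pos b0.2]
      exact hqb
    obtain ⟨a, ha, b, hb, hu⟩ := huniq hA (B.filter (fun ω => ∃ q, extZ B F q ω ≠ 0))
      (Finset.filter_subset _ _) hB'ne
    obtain ⟨⟨a1, p⟩, hap, ha1⟩ := Finset.mem_image.mp ha
    have ha1' : a1 = a := ha1
    subst ha1'
    obtain ⟨hbB, q1, hq1⟩ := Finset.mem_filter.mp hb
    -- evaluate
    have hval : (fox (ind π ρ) j r) (extZ B F) (q1 * p⁻¹) (ψ a1 b) =
        e.coeff (a1, p) * extZ B F q1 b := by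
      rw [hfox, MonoidAlgebra.lift_apply, Finsupp.sum]
      rw [LinearMap.sum_apply, Finset.sum_apply, Finset.sum_apply]
      rw [Finset.sum_eq_single (a1, p)]
      · show e.coeff (a1, p) * Θ (a1, p) (extZ B F) (q1 * p⁻¹) (ψ a1 b) = _
        rw [hΘap, inv_mul_cancel_right, show (ψ a1)⁻¹ (ψ a1 b) = b from (ψ a1).symm_apply_apply b]
      · rintro ⟨a', p'⟩ hs hne2
        show e.coeff (a', p') * Θ (a', p') (extZ B F) (q1 * p⁻¹) (ψ a1 b) = 0
        rw [hΘap]
        by_contra hnz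
        have hF' : extZ B F (q1 * p⁻¹ * p') ((ψ a')⁻¹ (ψ a1 b)) ≠ 0 := fun h => hnz (by rw [h, mul_zero])
        have hmem : (ψ a')⁻¹ (ψ a1 b) ∈ B := by
          by_contra hnB
          exact hF' (by rw [extZ_apply, dif_neg hnB])
        have h2 := hu a' (Finset.mem_image_of_mem Prod.fst hs) ((ψ a')⁻¹ (ψ a1 b))
          (Finset.mem_filter.mpr ⟨hmem, _, hF'⟩) ((ψ a').apply_symm_apply (ψ a1 b))
        apply hne2
        have h3 : a' = a1 := h2.1
        subst h3
        have h4 := hfun (a', p') hs (a', p) hap rfl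
        have h5 : p' = p := h4
        rw [h5]
      · intro hn
        exact absurd hap hn
    have h0 : (fox (ind π ρ) j r) (extZ B F) (q1 * p⁻¹) (ψ a1 b) = 0 := by
      have h6 : (fox (ind π ρ) j r) (extZ B F) = 0 := hF
      rw [h6]
      rfl
    rw [h0] at hval
    rcases mul_eq_zero.mp hval.symm with h7 | h7
    · exact (Finsupp.mem_support_iff.mp hap) h7
    · exact hq1 h7
  -- count
  have hrange : LinearMap.range ((fox (ind π ρ) j r).comp (extZ (Q := Q) B)) ≤
      LinearMap.range (ev (ind π ρ) r) := by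
    rintro x ⟨F, rfl⟩
    refine ⟨Pi.single j (extZ B F), ?_⟩
    rw [ev_apply, coc_eq_sum, Finset.sum_eq_single j]
    · rw [Pi.single_eq_same]
      rfl
    · intro i _ hij
      rw [Pi.single_eq_of_ne hij, smul_zero]
    · intro h
      exact absurd (Finset.mem_univ j) h
  have h1 : finrank ℚ (LinearMap.range ((fox (ind π ρ) j r).comp (extZ (Q := Q) B))) =
      Fintype.card Q * B.card := by
    rw [LinearMap.finrank_range_of_inj hinj, Module.finrank_pi_fintype]
    simp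
  have h2 := Submodule.finrank_mono hrange
  rw [h1] at h2
  refine lt_of_lt_of_le ?_ h2
  rw [Module.finrank_fintype_fun_eq_card]
  have h3 : Fintype.card Q - 1 + 1 = Fintype.card Q := Nat.sub_add_cancel hQ
  rw [h3] at hcard
  exact hcard

end Pool.Agent.MelD
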