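import Pool.Agent.MelD.Def

/-!
# The hypothesis on the preimages of the finite index normal subgroups of the free quotient
-/

namespace Pool.Agent.MelD

open Pool.Agent.MelG (HasRel)

/-- Every normal subgroup of finite index of the one-relator group that contains the image of the
kernel of `φ` has a presentation with at most `m` relators. -/
def HL (m : ℕ) {k : ℕ} {L : Type} [Group L] (φ : FreeGroup (Fin k) →* L) (r : FreeGroup (Fin k)) :
    Prop :=
  ∀ N : Subgroup (OR r), N.Normal → N.FiniteIndex →
    (∀ w : FreeGroup (Fin k), φ w = 1 → PresentedGroup.mk {r} w ∈ N) → HasRel m N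

theorem HL_of_all {m k : ℕ} {L : Type} [Group L] (φ : FreeGroup (Fin k) →* L)
    (r : FreeGroup (Fin k)) (H : ∀ N : Subgroup (OR r), N.Normal → N.FiniteIndex → HasRel m N) :
    HL m φ r := fun N h1 h2 _ => H N h1 h2

end Pool.Agent.MelD
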