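import Pool.Agent.MelD.Gam

/-!
# A Magnus representation by 3 × 3 integral matrices

`Em s j` = `u_j w_jᵀ` with `u_j = (1, j, s j)`, `w_j = (j, -1, 0)`; so `(Em s j)² = 0` and
`Em s i * Em s j = (i - j) u_i w_jᵀ`.  The homomorphism `mag s` maps `x_j` to `1 + t Em s j`; it is
injective (the coefficient of `t ^ m` of a reduced word with `m` syllables `x_{i_1}^{a_1} ...` is
`∏ a_s ∏ (i_s - i_{s+1}) u_{i_1} w_{i_m}ᵀ`).
-/

open Finset PowerSeries

namespace Pool.Agent.MelD

/-- The matrix `u_j w_jᵀ`. -/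
def Em {k : ℕ} (s : Fin k → ℤ) (j : Fin k) : Matrix (Fin 3) (Fin 3) ℤ :=
  !![(j : ℤ), -1, 0; (j : ℤ) ^ 2, -(j : ℤ), 0; s j * (j : ℤ), -(s j), 0]

theorem Em_sq {k : ℕ} (s : Fin k → ℤ) (j : Fin k) : Em s j * Em s j = 0 := by
  ext a b
  fin_cases a <;> fin_cases b <;> simp [Em, Matrix.mul_apply, Fin.sum_univ_three] <;> ring

/-- The generator `1 + t Em s j`. -/
theorem exists_gen {k : ℕ} (s : Fin k → ℤ) (j : Fin k) :
    ∃ u : Gam (Matrix (Fin 3) (Fin 3) ℤ), ser u = 1 + PowerSeries.C (Em s j) * X := by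
  refine exists_ser _ ?_
  simp

/-- The Magnus homomorphism. -/
noncomputable def mag {k : ℕ} (s : Fin k → ℤ) :
    FreeGroup (Fin k) →* Gam (Matrix (Fin 3) (Fin 3) ℤ) :=
  FreeGroup.lift (fun j => (exists_gen s j).choose)

theorem ser_mag_of {k : ℕ} (s : Fin k → ℤ) (j : Fin k) :
    ser (mag s (FreeGroup.of j)) = 1 + PowerSeries.C (Em s j) * X := by
  unfold mag
  rw [FreeGroup.lift_apply_of]
  exact (exists_gen s j).choose_spec

/-- The product of `E_i` and `E_j Y`: row `0`. -/
private theorem Em_mul_row {k : ℕ} (s : Fin k → ℤ) (i j : Fin k) (Y : Matrix (Fin 3) (Fin 3) ℤ)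
    (c : Fin 3) :
    (Em s i * (Em s j * Y)) 0 c = ((i : ℤ) - (j : ℤ)) * (Em s j * Y) 0 c := by
  simp only [Matrix.mul_apply, Fin.sum_univ_three, Em, Matrix.of_apply, Matrix.cons_val_zero,
    Matrix.cons_val_one, Matrix.cons_val', Matrix.cons_val, Matrix.cons_val_fin_one]
  ring

/-- Multiplication of two elements `1 + t a E`, `1 + t b E`. -/
private theorem gen_mul_gen {k : ℕ} (s : Fin k → ℤ) (j : Fin k) (a b : ℤ) :
    (1 + PowerSeries.C (a • Em s j) * X) * (1 + PowerSeries.C (b • Em s j) * X) =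
      (1 + PowerSeries.C ((a + b) • Em s j) * X : (Matrix (Fin 3) (Fin 3) ℤ)⟦X⟧) := by
  have h1 : (PowerSeries.C (a • Em s j) * X) * (PowerSeries.C (b • Em s j) * X) =
      (0 : (Matrix (Fin 3) (Fin 3) ℤ)⟦X⟧) := by
    rw [mul_assoc, ← mul_assoc X, ← (PowerSeries.commute_X (PowerSeries.C (b • Em s j))).eq,
      mul_assoc, ← mul_assoc (PowerSeries.C (a • Em s j)), ← map_mul, smul_mul_smul_comm, Em_sq,
      smul_zero, map_zero, zero_mul]
  rw [mul_add, mul_one, add_mul, one_mul, h1, add_smul, map_add, add_mul]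
  abel

private theorem ser_letter {k : ℕ} (s : Fin k → ℤ) (j : Fin k) (b : Bool) :
    ser (mag s (FreeGroup.mk [(j, b)])) =
      1 + PowerSeries.C ((if b then (1 : ℤ) else -1) • Em s j) * X := by
  cases b with
  | true =>
    have := ser_mag_of s j
    rw [if_pos rfl, one_smul]
    exact this
  | false =>
    have h1 : ser (mag s (FreeGroup.of j)) * ser (mag s (FreeGroup.mk [(j, false)])) = 1 := by
      have h2 : FreeGroup.mk [(j, false)] = (FreeGroup.of j)⁻¹ := rfl
      rw [h2, map_inv, ← ser_mul, mul_inv_cancel, ser_one]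
    have h3 : ser (mag s (FreeGroup.of j)) = 1 + PowerSeries.C ((1 : ℤ) • Em s j) * X := by
      rw [one_smul, ser_mag_of]
    have h4 : (1 + PowerSeries.C ((-1 : ℤ) • Em s j) * X) *
        (1 + PowerSeries.C ((1 : ℤ) • Em s j) * X) = (1 : (Matrix (Fin 3) (Fin 3) ℤ)⟦X⟧) := by
      rw [gen_mul_gen]
      simp
    rw [if_neg (by simp)]
    rw [h3] at h1
    calc ser (mag s (FreeGroup.mk [(j, false)]))
        = ((1 + PowerSeries.C ((-1 : ℤ) • Em s j) * X) *
        (1 + PowerSeries.C ((1 : ℤ) • Em s j) * X)) * ser (mag s (FreeGroup.mk [(j, false)])) := by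
          rw [h4, one_mul]
      _ = _ := by rw [mul_assoc, h1, mul_one]

/-- The shape of the series of a reduced word `(j, b) :: L`. -/
private theorem shape {k : ℕ} (s : Fin k → ℤ) (L : List (Fin k × Bool)) :
    ∀ (j : Fin k) (b : Bool), FreeGroup.IsReduced ((j, b) :: L) →
    ∃ (a : ℤ) (N : (Matrix (Fin 3) (Fin 3) ℤ)⟦X⟧) (d : ℕ),
      0 < (if b then (1 : ℤ) else -1) * a ∧
      ser (mag s (FreeGroup.mk ((j, b) :: L))) = (1 + PowerSeries.C (a • Em s j) * X) * N ∧
      (∀ n, d < n → coeff n N = 0) ∧ ∃ c, (Em s j * coeff d N) 0 c ≠ 0 := by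
  induction L with
  | nil =>
    intro j b _
    refine ⟨if b then (1 : ℤ) else -1, 1, 0, ?_, ?_, ?_, 1, ?_⟩
    · cases b <;> simp
    · rw [ser_letter, mul_one]
    · intro n hn
      rw [coeff_one, if_neg (by omega)]
    · rw [coeff_one, if_pos rfl, mul_one]
      simp [Em]
  | cons x L ih =>
    intro j b hr
    obtain ⟨i, b'⟩ := x
    have hr1 : FreeGroup.IsReduced ((i, b') :: L) := by
      unfold FreeGroup.IsReduced at hr ⊢
      exact hr.tail
    have hr2 : j = i → b = b' := by
      unfold FreeGroup.IsReduced at hr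
      rw [List.isChain_cons_cons] at hr
      exact hr.1
    obtain ⟨a, N, d, ha, hN, hd, c, hc⟩ := ih i b' hr1
    have hsplit : FreeGroup.mk ((j, b) :: (i, b') :: L) =
        FreeGroup.mk [(j, b)] * FreeGroup.mk ((i, b') :: L) := rfl
    rw [hsplit, map_mul, ser_mul, ser_letter]
    by_cases hij : j = i
    · obtain rfl := hij
      obtain rfl := hr2 rfl
      refine ⟨(if b then (1 : ℤ) else -1) + a, N, d, ?_, ?_, hd, c, hc⟩
      · cases b <;> simp at ha ⊢ <;> omega
      · rw [hN, ← mul_assoc, gen_mul_gen]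
    · have hco : ∀ n, coeff (n + 1) (ser (mag s (FreeGroup.mk ((i, b') :: L)))) =
          coeff (n + 1) N + a • (Em s i * coeff n N) := by
        intro n
        rw [hN, add_mul, one_mul, map_add, mul_assoc, (PowerSeries.commute_X N).symm.eq,
          ← mul_assoc, coeff_succ_mul_X, coeff_C_mul, smul_mul_assoc]
      refine ⟨if b then (1 : ℤ) else -1, ser (mag s (FreeGroup.mk ((i, b') :: L))), d + 1,
        ?_, rfl, ?_, c, ?_⟩
      · cases b <;> simp
      · intro n hn
        obtain ⟨m, rfl⟩ : ∃ m, n = m + 1 := ⟨n - 1, by omega⟩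
        rw [hco, hd _ (by omega), hd _ (by omega), mul_zero, smul_zero, add_zero]
      · rw [hco, hd _ (by omega), zero_add, mul_smul_comm, Matrix.smul_apply, Em_mul_row,
          smul_eq_mul]
        have ha0 : a ≠ 0 := by
          rintro rfl
          simp at ha
        have hji : (j : ℤ) - (i : ℤ) ≠ 0 := by
          intro h
          apply hij
          apply Fin.ext
          omega
        exact mul_ne_zero ha0 (mul_ne_zero hji hc)

theorem mag_injective {k : ℕ} (s : Fin k → ℤ) : Function.Injective (mag s) := by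
  rw [injective_iff_map_eq_one]
  intro w hw
  by_contra hne
  have hL : w.toWord ≠ [] := fun h => hne (FreeGroup.toWord_eq_nil_iff.mp h)
  obtain ⟨x, L, hxL⟩ := List.exists_cons_of_ne_nil hL
  obtain ⟨j, b⟩ := x
  have hr : FreeGroup.IsReduced ((j, b) :: L) := by
    rw [← hxL]
    exact FreeGroup.isReduced_toWord
  obtain ⟨a, N, d, ha, hN, hd, c, hc⟩ := shape s L j b hr
  have hmk : FreeGroup.mk ((j, b) :: L) = w := by
    rw [← hxL, FreeGroup.mk_toWord]
  rw [hmk, hw, ser_one] at hN
  have hco : coeff (d + 1) ((1 + PowerSeries.C (a • Em s j) * X) * N) =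
      coeff (d + 1) N + a • (Em s j * coeff d N) := by
    rw [add_mul, one_mul, map_add, mul_assoc, (PowerSeries.commute_X N).symm.eq,
      ← mul_assoc, coeff_succ_mul_X, coeff_C_mul, smul_mul_assoc]
  rw [← hN, coeff_one, if_neg (by omega), hd _ (by omega), zero_add] at hco
  have h0 := congrFun (congrFun hco 0) c
  rw [Matrix.smul_apply, smul_eq_mul] at h0
  have ha0 : a ≠ 0 := by
    rintro rfl
    simp at ha
  exact mul_ne_zero ha0 hc h0.symm

/-- The coefficient of `t` is additive. -/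
private theorem coeff_one_mul {k : ℕ} (s : Fin k → ℤ) (v w : FreeGroup (Fin k)) :
    coeff 1 (ser (mag s (v * w))) = coeff 1 (ser (mag s v)) + coeff 1 (ser (mag s w)) := by
  rw [map_mul, coeff_ser_mul _ _ _ one_pos]
  have h : Ioo 0 1 = (∅ : Finset ℕ) := by decide
  rw [h, sum_empty, add_zero]

/-- An entry of the coefficient of `t`, as a homomorphism. -/
private noncomputable def entry {k : ℕ} (s : Fin k → ℤ) (a b : Fin 3) :
    FreeGroup (Fin k) →* Multiplicative ℤ where
  toFun w := Multiplicative.ofAdd (coeff 1 (ser (mag s w)) a b)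
  map_one' := by
    rw [map_one, ser_one, coeff_one, if_neg (by omega)]
    rfl
  map_mul' v w := by
    rw [coeff_one_mul, Matrix.add_apply, ofAdd_add]

/-- The coefficient of `t`. -/
theorem coeff_one_mag {k : ℕ} (s : Fin k → ℤ) (σ : FreeGroup (Fin k) →* Multiplicative ℤ)
    (hσ : ∀ j, σ (FreeGroup.of j) = Multiplicative.ofAdd (s j)) (w : FreeGroup (Fin k)) :
    coeff 1 (ser (mag s w)) 2 1 = -(Multiplicative.toAdd (σ w)) := by
  have h : entry s 2 1 = σ⁻¹ := by
    refine FreeGroup.ext_hom _ _ fun j => ?_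
    rw [MonoidHom.inv_apply, hσ]
    change Multiplicative.ofAdd (coeff 1 (ser (mag s (FreeGroup.of j))) 2 1) = _
    rw [ser_mag_of, map_add, coeff_one, if_neg (by omega), zero_add]
    have h1 : coeff 1 (PowerSeries.C (Em s j) * X) = Em s j := by
      have := coeff_succ_mul_X 0 (PowerSeries.C (Em s j))
      rw [zero_add] at this
      rw [this, coeff_zero_C]
    rw [h1, ← ofAdd_neg]
    simp [Em]
  have h1 := DFunLike.congr_fun h w
  have h2 : Multiplicative.toAdd (entry s 2 1 w) = coeff 1 (ser (mag s w)) 2 1 := rfl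
  rw [← h2, h1, MonoidHom.inv_apply, toAdd_inv]

/-- If all exponent sums of `w` vanish, then the coefficient of `t` vanishes. -/
theorem coeff_one_mag_zero {k : ℕ} (s : Fin k → ℤ) (w : FreeGroup (Fin k))
    (hw : ∀ σ : FreeGroup (Fin k) →* Multiplicative ℤ, σ w = 1) :
    coeff 1 (ser (mag s w)) = 0 := by
  ext a b
  have h1 := hw (entry s a b)
  have h2 : Multiplicative.toAdd (entry s a b w) = coeff 1 (ser (mag s w)) a b := rfl
  rw [← h2, h1]
  rfl

end Pool.Agent.MelD
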