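import Pool.Agent.MelD.Box
import Pool.Agent.MelD.Mag

/-!
# Free groups are nice and have unique products
-/

open Finset PowerSeries

namespace Pool.Agent.MelD

/-- A finite set of elements of the free group is separated modulo some `t ^ D`. -/
theorem exists_sep {l : ℕ} (A : Finset (FreeGroup (Fin l))) :
    ∃ D : ℕ, ∀ a ∈ A, ∀ b ∈ A,
      (∀ n, n < D → coeff n (ser (mag 0 a)) = coeff n (ser (mag 0 b))) → a = b := by
  classical
  have h : ∀ p : FreeGroup (Fin l) × FreeGroup (Fin l), ∃ n : ℕ, p.1 ≠ p.2 →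
      coeff n (ser (mag 0 p.1)) ≠ coeff n (ser (mag 0 p.2)) := by
    intro p
    by_cases hp : p.1 = p.2
    · exact ⟨0, fun h => absurd hp h⟩
    · by_contra hcon
      push Not at hcon
      apply hp
      apply mag_injective 0
      apply ser_injective
      apply PowerSeries.ext
      intro n
      exact (hcon n).2
  choose N hN using h
  refine ⟨(A ×ˢ A).sup N + 1, fun a ha b hb h => ?_⟩
  by_contra hab
  refine hN (a, b) hab (h (N (a, b)) ?_)
  have h1 : N (a, b) ≤ (A ×ˢ A).sup N := le_sup (f := N) (mem_product.mpr ⟨ha, hb⟩)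
  omega

theorem nice_free (l : ℕ) : Nice (FreeGroup (Fin l)) := by
  classical
  intro A n
  obtain ⟨D, hD⟩ := exists_sep A
  set R := Matrix (Fin 3) (Fin 3) ℤ with hR
  set f : FreeGroup (Fin l) →* Gam R ⧸ KD R D := (QuotientGroup.mk' (KD R D)).comp (mag 0) with hf
  obtain ⟨Ω, iF, iD, ψ, B, h1, h2⟩ := nice_box 3 D (A.image f) n
  refine ⟨Ω, iF, iD, ψ.comp f, B, h1, fun hA B' hB' hB'n => ?_⟩
  obtain ⟨a', ha', b, hb, hu⟩ := h2 (hA.image f) B' hB' hB'n
  obtain ⟨a, ha, rfl⟩ := mem_image.mp ha'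
  refine ⟨a, ha, b, hb, fun a1 ha1 b1 hb1 h => ?_⟩
  obtain ⟨h3, h4⟩ := hu (f a1) (mem_image_of_mem f ha1) b1 hb1 h
  refine ⟨hD a1 ha1 a ha ?_, h4⟩
  exact (mk_eq_mk D (mag 0 a1) (mag 0 a)).mp h3

instance uniqueSums_matrix (d : ℕ) : UniqueSums (Matrix (Fin d) (Fin d) ℤ) :=
  inferInstanceAs (UniqueSums (Fin d → Fin d → ℤ))

theorem uniqueProds_free (l : ℕ) : UniqueProds (FreeGroup (Fin l)) := by
  classical
  constructor
  intro A B hA hB
  obtain ⟨D, hD⟩ := exists_sep (A ∪ B)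
  obtain ⟨a', ha', b', hb', hu⟩ := uniq D (A.image (mag 0)) (B.image (mag 0)) (hA.image _)
    (hB.image _)
  obtain ⟨a, ha, rfl⟩ := mem_image.mp ha'
  obtain ⟨b, hb, rfl⟩ := mem_image.mp hb'
  refine ⟨a, ha, b, hb, fun a1 b1 ha1 hb1 h => ?_⟩
  obtain ⟨h1, h2⟩ := hu (mag 0 a1) (mem_image_of_mem _ ha1) (mag 0 b1) (mem_image_of_mem _ hb1) (by
    rw [← map_mul, ← map_mul, h]
    exact Cong.refl D _)
  exact ⟨hD a1 (mem_union_left _ ha1) a (mem_union_left _ ha) h1,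
    hD b1 (mem_union_right _ hb1) b (mem_union_right _ hb) h2⟩

end Pool.Agent.MelD
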