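import Pool.Agent.MelD.Ext

/-!
# A Nullstellensatz for group algebras of free groups over finite fields

`E` a finite family in `K[L]`, `L` free, `K` finite, `J = RI E` the right ideal it generates.  If
`dim K[L]/J ≥ m + 1`, then there is a finite quotient `κ : L → Q` such that the subspace of `Q → K`
generated by the images of the `act κ (E j)` has codimension at least `m + 1`.

Proof (A = K[L]/J): `S` a finite set of elements of `L` containing the supports of the `E j` and of
representatives of `m + 1` independent vectors of `A`; `V`, `T`, `e₀ = [1]` as in `exists_T`: `V` is a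
finite-dimensional subspace of `A` and `T : L → GL(V)` with `T s⁻¹ [1] = [s]` for `s ∈ S`.  Then
`Q` = the image of `T`, a finite group.  The map `Λ : (Q → K) → V`, `Λ f = ∑ q, f q • q [1]`, kills
the images of the `act κ (E j)` and its image contains the classes of the representatives.
-/

open Finset Module

namespace Pool.Agent.MelD

namespace Null

section phi

variable {K : Type*} [Field K] {G : Type*} [Group G] {V : Type*} [AddCommGroup V] [Module K V]

/-- The linear map `∑ c_g g ↦ ∑ c_g u_g`. -/
noncomputable def lin (u : G → V) : MonoidAlgebra K G →ₗ[K] V where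
  toFun x := Finsupp.linearCombination K u x.coeff
  map_add' := by
    intro x y
    rw [MonoidAlgebra.coeff_add, map_add]
  map_smul' := by
    intro c x
    rw [MonoidAlgebra.coeff_smul, map_smul, RingHom.id_apply]

theorem lin_single (u : G → V) (g : G) (c : K) :
    lin u (MonoidAlgebra.single g c) = c • u g := by
  show Finsupp.linearCombination K u (MonoidAlgebra.single g c).coeff = _
  rw [MonoidAlgebra.coeff_single, Finsupp.linearCombination_single]

theorem lin_eq (u : G → V) (x : MonoidAlgebra K G) :
    lin u x = ∑ g ∈ x.coeff.support, x.coeff g • u g := by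
  show Finsupp.linearCombination K u x.coeff = _
  rw [Finsupp.linearCombination_apply]
  rfl

theorem eq_sum (x : MonoidAlgebra K G) :
    x = ∑ g ∈ x.coeff.support, x.coeff g • MonoidAlgebra.single g (1 : K) := by
  conv_lhs => rw [← MonoidAlgebra.sum_coeff_single x]
  rw [Finsupp.sum]
  refine Finset.sum_congr rfl fun g _ => ?_
  rw [MonoidAlgebra.smul_single', mul_one]

variable {Q : Type*} [Group Q] [Fintype Q]

theorem act_single (κ : G →* Q) (g : G) (c : K) (f : Q → K) (q : Q) :
    act K κ (MonoidAlgebra.single g c) f q = c * f (q * κ g) := by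
  unfold act
  rw [MonoidAlgebra.lift_single]
  rfl

/-- The main computation. -/
theorem sum_act (κ : G →* Q) (R : Q →* Module.End K V) (e₀ : V) (x : MonoidAlgebra K G)
    (f : Q → K) :
    ∑ q, act K κ x f q • R q e₀ = ∑ q, f q • R q (lin (fun g => R (κ g⁻¹) e₀) x) := by
  induction x using MonoidAlgebra.induction_linear with
  | zero => simp
  | add x y hx hy =>
    simp only [map_add, LinearMap.add_apply, Pi.add_apply, add_smul, Finset.sum_add_distrib,
      smul_add, hx, hy]
  | single g c =>
    simp only [act_single, lin_single, map_smul]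
    rw [← Equiv.sum_comp (Equiv.mulRight (κ g)) (fun q => f q • c • R q (R (κ g⁻¹) e₀))]
    refine Finset.sum_congr rfl fun q _ => ?_
    simp only [Equiv.coe_mulRight]
    rw [map_mul, map_inv κ, Module.End.mul_apply, ← Module.End.mul_apply (R (κ g)), ← map_mul,
      mul_inv_cancel, map_one, Module.End.one_apply, smul_smul, mul_comm c]

end phi

end Null

open Null in
theorem null {K : Type} [Field K] [Finite K] {l k : ℕ}
    (E : Fin k → MonoidAlgebra K (FreeGroup (Fin l))) (m : ℕ)
    (h : (m : Cardinal) < Module.rank K (MonoidAlgebra K (FreeGroup (Fin l)) ⧸ RI (K := K) E)) :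
    ∃ (Q : Type) (_ : Group Q) (_ : Fintype Q) (κ : FreeGroup (Fin l) →* Q),
      Function.Surjective κ ∧
      finrank K (⨆ j, LinearMap.range (act K κ (E j)) : Submodule K (Q → K)) + (m + 1) ≤
        Fintype.card Q := by
  classical
  set J : Submodule K (MonoidAlgebra K (FreeGroup (Fin l))) := RI (K := K) E with hJ
  -- representatives
  have h1 : ((m + 1 : ℕ) : Cardinal) ≤ Module.rank K (MonoidAlgebra K (FreeGroup (Fin l)) ⧸ J) := by
    rw [Cardinal.nat_succ]
    exact Order.succ_le_of_lt h
  obtain ⟨w, hw⟩ : ∃ w : Fin (m + 1) → (MonoidAlgebra K (FreeGroup (Fin l)) ⧸ J),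
      LinearIndependent K w := by
    obtain ⟨s, hs1, hs2⟩ := le_rank_iff_exists_linearIndependent_finset.mp h1
    let e : Fin (m + 1) ≃ s := (s.equivFinOfCardEq hs1).symm
    exact ⟨fun i => (e i : _), hs2.comp e e.injective⟩
  choose y hy using fun i => J.mkQ_surjective (w i)
  let S : Finset (FreeGroup (Fin l)) :=
    (Finset.univ.biUnion fun j => (E j).coeff.support) ∪
      (Finset.univ.biUnion fun i => (y i).coeff.support)
  obtain ⟨V, T, e₀, hfin, he, hT⟩ := exists_T J (RI_mul E) S
  haveI := hfin
  haveI : Finite V := Module.finite_of_finite K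
  haveI : Finite (V ≃ₗ[K] V) := Finite.of_injective (fun e : V ≃ₗ[K] V => (e : V → V))
    DFunLike.coe_injective
  let κ : FreeGroup (Fin l) →* T.range := T.rangeRestrict
  letI : Fintype T.range := Fintype.ofFinite _
  let R : T.range →* Module.End K V :=
    (LinearEquiv.automorphismGroup.toLinearMapMonoidHom (R := K) (M := V)).comp T.range.subtype
  have hR : ∀ g v, R (κ g) v = T g v := fun g v => rfl
  let Φ : MonoidAlgebra K (FreeGroup (Fin l)) →ₗ[K] V := lin (fun g => R (κ g⁻¹) e₀)
  let Λ : (T.range → K) →ₗ[K] V :=
    { toFun := fun f => ∑ q, f q • R q e₀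
      map_add' := by
        intro f g
        simp only [Pi.add_apply, add_smul, Finset.sum_add_distrib]
      map_smul' := by
        intro c f
        simp only [Pi.smul_apply, smul_assoc, Finset.smul_sum, RingHom.id_apply] }
  have hΛ : ∀ f, Λ f = ∑ q, f q • R q e₀ := fun f => rfl
  -- the map `Φ` is the class on elements with support in `S`
  have hΦ : ∀ x : MonoidAlgebra K (FreeGroup (Fin l)), x.coeff.support ⊆ S →
      ((Φ x : V) : MonoidAlgebra K (FreeGroup (Fin l)) ⧸ J) = J.mkQ x := by
    intro x hx
    conv_rhs => rw [eq_sum x]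
    rw [show Φ x = _ from lin_eq _ x, map_sum, Submodule.coe_sum]
    refine Finset.sum_congr rfl fun g hg => ?_
    rw [Submodule.coe_smul, map_smul, hR, hT g (hx hg)]
  have hE : ∀ j, Φ (E j) = 0 := by
    intro j
    have h2 : (E j).coeff.support ⊆ S := by
      intro g hg
      exact Finset.mem_union_left _ (Finset.mem_biUnion.mpr ⟨j, Finset.mem_univ _, hg⟩)
    apply Subtype.ext
    rw [hΦ _ h2]
    show J.mkQ (E j) = 0
    rw [Submodule.mkQ_apply, Submodule.Quotient.mk_eq_zero]
    exact Submodule.subset_span ⟨j, 1, (mul_one _).symm⟩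
  have hker : (⨆ j, LinearMap.range (act K κ (E j)) : Submodule K (T.range → K)) ≤
      LinearMap.ker Λ := by
    refine iSup_le fun j => ?_
    rintro _ ⟨f, rfl⟩
    rw [LinearMap.mem_ker, hΛ, sum_act]
    refine Finset.sum_eq_zero fun q _ => ?_
    rw [show lin (fun g => R (κ g⁻¹) e₀) (E j) = 0 from hE j, map_zero, smul_zero]
  have hrange : ∀ x, Φ x ∈ LinearMap.range Λ := by
    intro x
    rw [show Φ x = _ from lin_eq _ x]
    refine Submodule.sum_mem _ fun g _ => Submodule.smul_mem _ _ ?_
    refine ⟨Pi.single (κ g⁻¹) 1, ?_⟩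
    rw [hΛ, Finset.sum_eq_single (κ g⁻¹)]
    · rw [Pi.single_eq_same, one_smul]
    · intro q _ hq
      rw [Pi.single_eq_of_ne hq, zero_smul]
    · intro hq
      exact absurd (Finset.mem_univ _) hq
  have hdim : m + 1 ≤ finrank K (LinearMap.range Λ) := by
    have h3 : LinearIndependent K (fun i => (⟨Φ (y i), hrange _⟩ : LinearMap.range Λ)) := by
      refine LinearIndependent.of_comp (V.subtype ∘ₗ (LinearMap.range Λ).subtype) ?_
      have h4 : ((V.subtype ∘ₗ (LinearMap.range Λ).subtype) ∘
          fun i => (⟨Φ (y i), hrange _⟩ : LinearMap.range Λ)) = w := by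
        funext i
        show ((Φ (y i) : V) : MonoidAlgebra K (FreeGroup (Fin l)) ⧸ J) = w i
        rw [hΦ, hy]
        intro g hg
        exact Finset.mem_union_right _ (Finset.mem_biUnion.mpr ⟨i, Finset.mem_univ _, hg⟩)
      rw [h4]
      exact hw
    have h5 := h3.fintype_card_le_finrank
    rwa [Fintype.card_fin] at h5
  refine ⟨T.range, inferInstance, inferInstance, κ, T.rangeRestrict_surjective, ?_⟩
  have h6 := Submodule.finrank_mono hker
  have h7 := LinearMap.finrank_range_add_finrank_ker Λ
  rw [Module.finrank_pi] at h7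
  omega

end Pool.Agent.MelD
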