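import Pool.Agent.MelD.Crit
import Pool.Agent.MelD.Gen
import Pool.Agent.MelD.Null
import Pool.Agent.MelD.NiceL
import Pool.Agent.MelD.Hyp

/-!
# The case in which some Fox derivative is not zero in the group algebra of the free quotient

`Q`, `κ` from `null`, `π = κ ∘ φ`; `crit` with `gen` for `U = L`.
-/

open Finset Module

namespace Pool.Agent.MelD

open Pool.Agent.MelG (HasRel)

/-- The action of the image of a Fox derivative is the Fox derivative of the action. -/
theorem act_fox {K : Type} [Field K] {k : ℕ} {L : Type} [Group L] {Q : Type} [Group Q]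
    (κ : L →* Q) (φ : FreeGroup (Fin k) →* L) (j : Fin k) (r : FreeGroup (Fin k)) :
    act K κ (fox ((MonoidAlgebra.of K L).comp φ) j r) =
      fox (ind (κ.comp φ) (1 : FreeGroup (Fin k) →* Module.End K K)) j r := by
  have h1 := map_fox (act K κ : MonoidAlgebra K L →+* Module.End K (Q → K))
    ((MonoidAlgebra.of K L).comp φ) j r
  have h2 : (((act K κ : MonoidAlgebra K L →+* Module.End K (Q → K)) :
      MonoidAlgebra K L →* Module.End K (Q → K))).comp ((MonoidAlgebra.of K L).comp φ) =
      ind (κ.comp φ) (1 : FreeGroup (Fin k) →* Module.End K K) := by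
    apply MonoidHom.ext
    intro g
    show act K κ (MonoidAlgebra.of K L (φ g)) = _
    unfold act
    rw [MonoidAlgebra.lift_of]
    rfl
  rw [h2] at h1
  exact h1

/-- The image of a Fox derivative in the group algebra of the graph of `κ`. -/
theorem graph_fox {k : ℕ} {L : Type} [Group L] {Q : Type} [Group Q]
    (κ : L →* Q) (φ : FreeGroup (Fin k) →* L) (j : Fin k) (r : FreeGroup (Fin k)) :
    fox ((MonoidAlgebra.of ℚ (L × Q)).comp (φ.prod (κ.comp φ))) j r =
      MonoidAlgebra.mapDomain (fun u : L => (u, κ u))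
        (fox ((MonoidAlgebra.of ℚ L).comp φ) j r) := by
  have h1 := map_fox (MonoidAlgebra.mapDomainRingHom ℚ ((MonoidHom.id L).prod κ))
    ((MonoidAlgebra.of ℚ L).comp φ) j r
  have h2 : ((MonoidAlgebra.mapDomainRingHom ℚ ((MonoidHom.id L).prod κ) :
      MonoidAlgebra ℚ L →* MonoidAlgebra ℚ (L × Q))).comp ((MonoidAlgebra.of ℚ L).comp φ) =
      (MonoidAlgebra.of ℚ (L × Q)).comp (φ.prod (κ.comp φ)) := by
    apply MonoidHom.ext
    intro g
    show MonoidAlgebra.mapDomain _ (MonoidAlgebra.of ℚ L (φ g)) = _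
    rw [MonoidAlgebra.of_apply, MonoidAlgebra.mapDomain_single]
    rfl
  rw [h2] at h1
  exact h1.symm

theorem caseA {k l : ℕ} (r : FreeGroup (Fin k))
    (φ : FreeGroup (Fin k) →* FreeGroup (Fin l)) (hφ : Function.Surjective φ) (hr : φ r = 1)
    (j : Fin k) (hj : fox ((MonoidAlgebra.of ℚ (FreeGroup (Fin l))).comp φ) j r ≠ 0) (m : ℕ)
    (H : HL m φ r)
    (K : Type) [Field K] [Finite K] :
    Module.rank K (MonoidAlgebra K (FreeGroup (Fin l)) ⧸
      RI (K := K) (fun j => fox ((MonoidAlgebra.of K (FreeGroup (Fin l))).comp φ) j r)) ≤ m := by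
  classical
  by_contra hcon
  obtain ⟨Q, iQ, iF, κ, hκ, hc⟩ :=
    null (fun j => fox ((MonoidAlgebra.of K (FreeGroup (Fin l))).comp φ) j r) m (lt_of_not_ge hcon)
  have hπ : Function.Surjective (κ.comp φ) := hκ.comp hφ
  have hle : LinearMap.range (ev (ind (κ.comp φ)
      (1 : FreeGroup (Fin k) →* Module.End K K)) r) ≤
      ⨆ j, LinearMap.range
        (act K κ (fox ((MonoidAlgebra.of K (FreeGroup (Fin l))).comp φ) j r)) := by
    rintro _ ⟨v, rfl⟩
    rw [ev_apply, coc_eq_sum]
    refine Submodule.sum_mem _ fun i _ => ?_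
    apply Submodule.mem_iSup_of_mem i
    rw [act_fox]
    exact ⟨v i, rfl⟩
  have h1 := Submodule.finrank_mono hle
  have hr' : (κ.comp φ) r = 1 := by
    show κ (φ r) = 1
    rw [hr, map_one]
  obtain ⟨π', hπ'⟩ := exists_desc r (κ.comp φ) hr'
  have hinj : Function.Injective (fun u : FreeGroup (Fin l) => (u, κ u)) :=
    fun a b h => congrArg Prod.fst h
  have he : fox ((MonoidAlgebra.of ℚ (FreeGroup (Fin l) × Q)).comp (φ.prod (κ.comp φ))) j r ≠ 0 := by
    rw [graph_fox]
    intro h
    apply hj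
    apply MonoidAlgebra.mapDomain_injective hinj
    rw [h]
    symm
    exact MonoidAlgebra.mapDomain_zero _
  have hsup : ∀ x ∈ (fox ((MonoidAlgebra.of ℚ (FreeGroup (Fin l) × Q)).comp
      (φ.prod (κ.comp φ))) j r).coeff.support, x.2 = κ x.1 := by
    intro x hx
    rw [graph_fox] at hx
    have h2 := Finsupp.mapDomain_support hx
    obtain ⟨u, _, hu⟩ := mem_image.mp h2
    rw [← hu]
  obtain ⟨V, iV1, iV2, iV3, ρ, hρ, h2⟩ := gen r (nice_free l) φ hr (κ.comp φ) j he (by
    intro x hx y hy hxy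
    rw [hsup x hx, hsup y hy, hxy])
  exact crit r (κ.comp φ) hπ (K₁ := K) (by omega) ρ hρ h2 π' hπ'
    (H π'.ker inferInstance inferInstance (by
      intro w hw
      rw [MonoidHom.mem_ker]
      have h1 : π' (PresentedGroup.mk {r} w) = κ (φ w) := DFunLike.congr_fun hπ' w
      rw [h1, hw, map_one]))

end Pool.Agent.MelD
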