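import Pool.Agent.MelD.Crit
import Pool.Agent.MelD.Gen
import Pool.Agent.MelD.Box
import Pool.Agent.MelD.Mag
import Pool.Agent.MelD.Hyp

/-!
# The case in which all Fox derivatives vanish in the group algebra of the free quotient

`σ : F → L → ℤ` onto, `s j = σ x_j`, `Q = ℤ/(m+1)`.  The map `ev` vanishes on the functions `Q → ℚ`.
`R` the 3 × 3 integral matrices, `D` minimal with `coeff D (ser (mag s r)) ≠ 0`, `D > 0`; `D ≥ 2` as
the exponent sums of `r` vanish.  `U = Gam R ⧸ KD R D`, `f : F → U` the class of `mag s`, `f r = 1`.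
* The fundamental formula for `serHom R ∘ mag s` in degree `D` gives `j` such that
  `coeff (D - 1) (fox (serHom R ∘ mag s) j r) ≠ 0`.
* So the `j`-th Fox derivative is not `0` in `ℤ[U]` and in `ℚ[U × Q]`: the map `F → R`,
  `g ↦ coeff (D - 1) (ser (mag s g))` factors through `f`.
* The second coordinate is a function of the first: `σ g` is an entry of `coeff 1 (ser (mag s g))`.
-/

open Finset Module PowerSeries

namespace Pool.Agent.MelD

open Pool.Agent.MelG (HasRel)

/-- Fox derivatives in the action on functions come from the group algebra of the free quotient. -/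
theorem fox_ind_zero {k l : ℕ} (r : FreeGroup (Fin k))
    (φ : FreeGroup (Fin k) →* FreeGroup (Fin l))
    (hall : ∀ j, fox ((MonoidAlgebra.of ℚ (FreeGroup (Fin l))).comp φ) j r = 0)
    {Q : Type} [Group Q] (κ : FreeGroup (Fin l) →* Q) (j : Fin k) :
    fox (ind (κ.comp φ) (1 : FreeGroup (Fin k) →* Module.End ℚ ℚ)) j r = 0 := by
  have h := map_fox ((act ℚ κ : MonoidAlgebra ℚ (FreeGroup (Fin l)) →ₐ[ℚ] Module.End ℚ (Q → ℚ)) :
    MonoidAlgebra ℚ (FreeGroup (Fin l)) →+* Module.End ℚ (Q → ℚ))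
    ((MonoidAlgebra.of ℚ (FreeGroup (Fin l))).comp φ) j r
  rw [hall j, map_zero] at h
  rw [h]
  congr 1
  refine MonoidHom.ext fun g => LinearMap.ext fun f => funext fun q => ?_
  show _ = (act ℚ κ (MonoidAlgebra.of ℚ _ (φ g))) f q
  unfold act
  rw [MonoidAlgebra.lift_of]
  rfl

/-- The exponent sums of `r` vanish. -/
theorem exp_zero {k l : ℕ} (r : FreeGroup (Fin k))
    (φ : FreeGroup (Fin k) →* FreeGroup (Fin l))
    (hall : ∀ j, fox ((MonoidAlgebra.of ℚ (FreeGroup (Fin l))).comp φ) j r = 0)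
    (τ : FreeGroup (Fin k) →* Multiplicative ℤ) : τ r = 1 := by
  have h0 : ∀ j, fox (1 : FreeGroup (Fin k) →* ℚ) j r = 0 := by
    intro j
    have h := map_fox ((MonoidAlgebra.lift ℚ ℚ (FreeGroup (Fin l))
      (1 : FreeGroup (Fin l) →* ℚ) : MonoidAlgebra ℚ (FreeGroup (Fin l)) →ₐ[ℚ] ℚ) :
      MonoidAlgebra ℚ (FreeGroup (Fin l)) →+* ℚ)
      ((MonoidAlgebra.of ℚ (FreeGroup (Fin l))).comp φ) j r
    rw [hall j, map_zero] at h
    rw [h]
    congr 1
    ext g
    show _ = MonoidAlgebra.lift ℚ ℚ (FreeGroup (Fin l)) 1 (MonoidAlgebra.of ℚ _ (φ _))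
    rw [MonoidAlgebra.lift_of]
    rfl
  have h1 := coc_unique (1 : FreeGroup (Fin k) →* ℚ)
    (fun w => ((Multiplicative.toAdd (τ w) : ℤ) : ℚ))
    (coc (1 : FreeGroup (Fin k) →* ℚ) (fun j => ((Multiplicative.toAdd (τ (FreeGroup.of j)) : ℤ) : ℚ)))
    (by
      intro g h
      simp) (coc_mul _ _) (by
      intro j
      rw [coc_of]) r
  rw [coc_eq_sum] at h1
  simp only [h0, zero_smul, sum_const_zero, Int.cast_eq_zero] at h1
  exact Multiplicative.toAdd.injective h1

/-- The ring homomorphism of `ℤ[F]` given by a homomorphism into the monoid of a ring. -/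
noncomputable def lz {k : ℕ} {S : Type*} [Ring S] (f : FreeGroup (Fin k) →* S) :
    MonoidAlgebra ℤ (FreeGroup (Fin k)) →+* S :=
  ((MonoidAlgebra.lift ℤ S (FreeGroup (Fin k)) f :
    MonoidAlgebra ℤ (FreeGroup (Fin k)) →ₐ[ℤ] S) : MonoidAlgebra ℤ (FreeGroup (Fin k)) →+* S)

theorem lz_single {k : ℕ} {S : Type*} [Ring S] (f : FreeGroup (Fin k) →* S)
    (g : FreeGroup (Fin k)) (n : ℤ) : lz f (MonoidAlgebra.single g n) = n • f g := by
  show MonoidAlgebra.lift ℤ S (FreeGroup (Fin k)) f (MonoidAlgebra.single g n) = n • f g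
  rw [MonoidAlgebra.lift_single]

/-- The comparison of two images of the Fox derivatives in `ℤ[F]`. -/
theorem fox_image {k : ℕ} {S : Type*} [Ring S] (f : FreeGroup (Fin k) →* S) (j : Fin k)
    (w : FreeGroup (Fin k)) :
    fox f j w = lz f (fox (MonoidAlgebra.of ℤ (FreeGroup (Fin k))) j w) := by
  have h := map_fox (lz f) (MonoidAlgebra.of ℤ (FreeGroup (Fin k))) j w
  refine Eq.trans ?_ h.symm
  congr 1
  ext g
  show _ = MonoidAlgebra.lift ℤ S (FreeGroup (Fin k)) f (MonoidAlgebra.of ℤ _ _)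
  rw [MonoidAlgebra.lift_of]

/-- The Fox derivatives are supported in the image. -/
theorem fox_supp {k : ℕ} {G : Type*} [Group G] (f : FreeGroup (Fin k) →* G) (j : Fin k)
    (w : FreeGroup (Fin k)) (x : G)
    (hx : x ∈ (fox ((MonoidAlgebra.of ℚ G).comp f) j w).coeff.support) : ∃ g, f g = x := by
  by_contra hne
  push Not at hne
  rw [Finsupp.mem_support_iff] at hx
  apply hx
  rw [fox_image]
  generalize fox (MonoidAlgebra.of ℤ (FreeGroup (Fin k))) j w = y
  induction y using MonoidAlgebra.induction_linear with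
  | zero => simp
  | add a b ha hb => rw [map_add, MonoidAlgebra.coeff_add, Finsupp.add_apply, ha, hb, add_zero]
  | single g n =>
    rw [lz_single]
    show (n • (MonoidAlgebra.of ℚ G (f g))).coeff x = 0
    rw [MonoidAlgebra.coeff_smul_apply, MonoidAlgebra.of_apply, MonoidAlgebra.coeff_single,
      Finsupp.single_eq_of_ne (fun h => hne g h.symm), smul_zero]

/-- A function on `G` which pulls back to a coefficient. -/
theorem fox_coeff {k : ℕ} {G : Type*} [Group G] (f : FreeGroup (Fin k) →* G) (c : G → ℚ)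
    {S : Type*} [Ring S] (f' : FreeGroup (Fin k) →* S) (c' : S →+ ℚ)
    (hc : ∀ g, c (f g) = c' (f' g)) (j : Fin k) (w : FreeGroup (Fin k))
    (h0 : fox ((MonoidAlgebra.of ℚ G).comp f) j w = 0) : c' (fox f' j w) = 0 := by
  have key : ∀ y : MonoidAlgebra ℤ (FreeGroup (Fin k)),
      Finsupp.linearCombination ℚ c (lz ((MonoidAlgebra.of ℚ G).comp f) y).coeff =
      c' (lz f' y) := by
    intro y
    induction y using MonoidAlgebra.induction_linear with
    | zero => simp
    | add a b ha hb => rw [map_add, map_add, MonoidAlgebra.coeff_add, map_add, map_add, ha, hb]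
    | single g n =>
      rw [lz_single, lz_single]
      show Finsupp.linearCombination ℚ c (n • (MonoidAlgebra.of ℚ G (f g))).coeff = _
      rw [MonoidAlgebra.coeff_smul, MonoidAlgebra.of_apply, MonoidAlgebra.coeff_single,
        map_zsmul, Finsupp.linearCombination_single, map_zsmul, one_smul, hc]
  rw [fox_image] at h0 ⊢
  rw [← key, h0]
  simp

theorem caseB {k l : ℕ} (r : FreeGroup (Fin k)) (hr1 : r ≠ 1)
    (φ : FreeGroup (Fin k) →* FreeGroup (Fin l)) (hφ : Function.Surjective φ) (hl : 1 ≤ l)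
    (hr : φ r = 1)
    (hall : ∀ j, fox ((MonoidAlgebra.of ℚ (FreeGroup (Fin l))).comp φ) j r = 0) (m : ℕ)
    (H : HL m φ r) : False := by
  -- the homomorphisms
  let θ : FreeGroup (Fin l) →* Multiplicative ℤ := FreeGroup.lift (fun _ => Multiplicative.ofAdd 1)
  have hθ : Function.Surjective θ := by
    intro x
    refine ⟨(FreeGroup.of ⟨0, hl⟩) ^ (Multiplicative.toAdd x), ?_⟩
    rw [map_zpow]
    show (FreeGroup.lift (fun _ => Multiplicative.ofAdd (1 : ℤ)) (FreeGroup.of _)) ^ _ = x
    rw [FreeGroup.lift_apply_of, ← ofAdd_zsmul]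
    simp
  let c : Multiplicative ℤ →* Multiplicative (ZMod (m + 1)) :=
    AddMonoidHom.toMultiplicative (Int.castAddHom (ZMod (m + 1)))
  have hc : Function.Surjective c := by
    intro x
    obtain ⟨a, ha⟩ := ZMod.intCast_surjective (Multiplicative.toAdd x)
    exact ⟨Multiplicative.ofAdd a, congrArg Multiplicative.ofAdd ha⟩
  let σ : FreeGroup (Fin k) →* Multiplicative ℤ := θ.comp φ
  let κ : FreeGroup (Fin l) →* Multiplicative (ZMod (m + 1)) := c.comp θ
  let π : FreeGroup (Fin k) →* Multiplicative (ZMod (m + 1)) := κ.comp φ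
  have hπ : Function.Surjective π := (hc.comp hθ).comp hφ
  have hπr : π r = 1 := by
    show κ (φ r) = 1
    rw [hr, map_one]
  obtain ⟨π', hπ'⟩ := exists_desc r π hπr
  let s : Fin k → ℤ := fun j => Multiplicative.toAdd (σ (FreeGroup.of j))
  have hσ : ∀ j, σ (FreeGroup.of j) = Multiplicative.ofAdd (s j) := fun j => rfl
  have hexp := exp_zero r φ hall
  -- the degree
  have hex : ∃ n, 0 < n ∧ coeff n (ser (mag s r)) ≠ 0 := by
    by_contra hno
    push Not at hno
    apply hr1
    apply mag_injective s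
    rw [map_one]
    apply ser_injective
    rw [ser_one]
    ext1 n
    rcases Nat.eq_zero_or_pos n with rfl | hn
    · rw [coeff_zero_ser, coeff_one, if_pos rfl]
    · rw [hno n hn, coeff_one, if_neg (by omega)]
  classical
  obtain ⟨D, ⟨hD0, hD⟩, hmin⟩ : ∃ D, (0 < D ∧ coeff D (ser (mag s r)) ≠ 0) ∧
      ∀ n, 0 < n → n < D → coeff n (ser (mag s r)) = 0 := by
    refine ⟨Nat.find hex, Nat.find_spec hex, fun n hn hlt => ?_⟩
    by_contra hne
    exact Nat.find_min hex hlt ⟨hn, hne⟩
  have hD1 : D ≠ 1 := by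
    rintro rfl
    exact hD (coeff_one_mag_zero s r hexp)
  obtain ⟨E, rfl⟩ : ∃ E, D = E + 2 := ⟨D - 2, by omega⟩
  -- a Fox derivative
  have hfund := fundamental ((serHom (Matrix (Fin 3) (Fin 3) ℤ)).comp (mag s)) r
  have hj : ∃ j, coeff (E + 1) (fox ((serHom (Matrix (Fin 3) (Fin 3) ℤ)).comp (mag s)) j r) ≠ 0 := by
    by_contra hno
    push Not at hno
    apply hD
    have h1 := congrArg (fun x => coeff (E + 2) x) hfund
    simp only [map_sub, map_sum] at h1
    have h2 : coeff (E + 2) (1 : (Matrix (Fin 3) (Fin 3) ℤ)⟦X⟧) = 0 := by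
      rw [coeff_one, if_neg (by omega)]
    rw [h2, sub_zero] at h1
    refine Eq.trans h1 (sum_eq_zero fun j _ => ?_)
    show coeff (E + 2) (_ * (ser (mag s (FreeGroup.of j)) - 1)) = 0
    rw [ser_mag_of, add_sub_cancel_left, ← mul_assoc, coeff_succ_mul_X, coeff_mul_C, hno j, zero_mul]
  obtain ⟨j, hj⟩ := hj
  let R := Matrix (Fin 3) (Fin 3) ℤ
  let f : FreeGroup (Fin k) →* Gam R ⧸ KD R (E + 2) := (QuotientGroup.mk' (KD R (E + 2))).comp (mag s)
  have hf : f r = 1 := by
    show ((mag s r : Gam R) : Gam R ⧸ KD R (E + 2)) = ((1 : Gam R) : Gam R ⧸ KD R (E + 2))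
    rw [mk_eq_mk]
    intro n hn
    rw [ser_one, coeff_one]
    rcases Nat.eq_zero_or_pos n with rfl | h
    · rw [coeff_zero_ser, if_pos rfl]
    · rw [hmin n h hn, if_neg (by omega)]
  have hfg : ∀ g h, f g = f h → ∀ n, n < E + 2 →
      coeff n (ser (mag s g)) = coeff n (ser (mag s h)) := by
    intro g h hgh
    exact (mk_eq_mk (E + 2) (mag s g) (mag s h)).mp hgh
  have he : fox ((MonoidAlgebra.of ℚ ((Gam R ⧸ KD R (E + 2)) × Multiplicative (ZMod (m + 1)))).comp
      (f.prod π)) j r ≠ 0 := by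
    intro h0
    apply hj
    ext a b
    let c' : R⟦X⟧ →+ ℚ :=
      { toFun := fun x => ((coeff (E + 1) x a b : ℤ) : ℚ)
        map_zero' := by
          rw [map_zero]
          exact Int.cast_zero
        map_add' := by
          intro x y
          rw [map_add]
          exact Int.cast_add _ _ }
    have h1 := fox_coeff (f.prod π)
      (fun x => ((coeff (E + 1) (ser (Quotient.out x.1)) a b : ℤ) : ℚ))
      ((serHom R).comp (mag s)) c' (by
        intro g
        show ((coeff (E + 1) (ser (Quotient.out (f g))) a b : ℤ) : ℚ) =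
          ((coeff (E + 1) (ser (mag s g)) a b : ℤ) : ℚ)
        have h2 : ((Quotient.out (f g) : Gam R) : Gam R ⧸ KD R (E + 2)) =
            ((mag s g : Gam R) : Gam R ⧸ KD R (E + 2)) := QuotientGroup.out_eq' (f g)
        rw [mk_eq_mk] at h2
        rw [h2 (E + 1) (by omega)]) j r h0
    have h3 : ((coeff (E + 1) (fox ((serHom R).comp (mag s)) j r) a b : ℤ) : ℚ) = 0 := h1
    rw [Int.cast_eq_zero] at h3
    rw [h3]
    rfl
  obtain ⟨V, _, _, _, ρ, hρ, hrank⟩ := gen r (nice_box 3 (E + 2)) f hf π j he (by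
    intro x hx y hy hxy
    obtain ⟨g, rfl⟩ := fox_supp _ j r x hx
    obtain ⟨h, rfl⟩ := fox_supp _ j r y hy
    have h1 : f g = f h := hxy
    have h2 := hfg g h h1 1 (by omega)
    have h3 : σ g = σ h := by
      apply Multiplicative.toAdd.injective
      have h4 := coeff_one_mag s σ hσ g
      have h5 := coeff_one_mag s σ hσ h
      rw [h2, h5] at h4
      exact (neg_injective h4).symm
    show c (σ g) = c (σ h)
    rw [h3])
  refine crit r π hπ (K₁ := ℚ) ?_ ρ hρ hrank π' hπ' (H π'.ker inferInstance inferInstance (by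
    intro w hw
    rw [MonoidHom.mem_ker]
    have h1 : π' (PresentedGroup.mk {r} w) = κ (φ w) := DFunLike.congr_fun hπ' w
    rw [h1, hw, map_one]))
  have hz : ev (ind π (1 : FreeGroup (Fin k) →* Module.End ℚ ℚ)) r = 0 := by
    apply LinearMap.ext
    intro v
    rw [ev_apply, coc_eq_sum]
    refine sum_eq_zero fun i _ => ?_
    rw [fox_ind_zero r φ hall κ i, zero_smul]
  rw [hz, LinearMap.range_zero, finrank_bot, zero_add]
  rw [Fintype.card_multiplicative, ZMod.card]

end Pool.Agent.MelD
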