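import Pool.Agent.MelD.RigDef

/-!
# Cycles of a subgroup bound the index of its image in finite quotients

`T ≤ F` a subgroup, `g_i r g_i⁻¹ ∈ T` for `i < s`, and `∑ i, c i * χ (g_i r g_i⁻¹) = 0` for every
homomorphism `χ : T → K`.  For `π : F → Q`, `Q` finite, `π r = 1`, `T_Q = π T`, the function
`u q = ∑ i, c i * [q ∈ T_Q π(g_i)]` and all its left translates are orthogonal to the range of `ev`:
for a crossed homomorphism `c` with values in `Q → K` and `x : Q`, `t ↦ ∑ y ∈ T_Q, c t (x y)` is a
homomorphism on `T`, and `c (g r g⁻¹) q = c r (q π(g))`.  The translates of a nonzero function with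
support of size `S` span a space of dimension at least `|Q| / S`.
-/

open Finset Module

namespace Pool.Agent.MelD

section translates

variable {K : Type} [Field K] {Q : Type} [Group Q] [Fintype Q]

/-- The translates of a nonzero function with small support span a space of large dimension. -/
theorem card_le_translates (u : Q → K) (q₀ : Q) (hu : u q₀ ≠ 0) (S : ℕ)
    (hS : (Set.ncard {q | u q ≠ 0}) ≤ S) (W : Submodule K (Q → K))
    (hW : ∀ x : Q, (fun q => u (x⁻¹ * q)) ∈ W) : Fintype.card Q ≤ finrank K W * S := by
  classical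
  obtain ⟨b, hb, hspan, hli⟩ := exists_linearIndependent K
    (Set.range fun (x : Q) (q : Q) => u (x⁻¹ * q))
  have hbW : ∀ t ∈ b, t ∈ W := by
    intro t ht
    obtain ⟨x, rfl⟩ := hb ht
    exact hW x
  have hfin : b.Finite := hli.setFinite
  have hcard : hfin.toFinset.card ≤ finrank K W := by
    have h1 : LinearIndependent K (fun t : b => (⟨t.1, hbW t.1 t.2⟩ : W)) := by
      refine LinearIndependent.of_comp W.subtype ?_
      exact hli
    have : Fintype b := hfin.fintype
    have h2 := h1.fintype_card_le_finrank
    rw [← Set.toFinset_card] at h2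
    convert h2 using 2
    ext x
    simp
  have hsupp : ∀ t ∈ b, (univ.filter fun q => t q ≠ 0).card ≤ S := by
    intro t ht
    obtain ⟨x, rfl⟩ := hb ht
    refine le_trans (le_of_eq ?_) hS
    rw [← Set.ncard_coe_finset]
    refine (Set.ncard_congr (fun q _ => x * q) ?_ ?_ ?_).symm
    · intro q hq
      simp only [coe_filter, mem_univ, true_and, Set.mem_ofPred_eq]
      rw [inv_mul_cancel_left]
      exact hq
    · intro a a' _ _ h
      exact mul_left_cancel h
    · intro q hq
      refine ⟨x⁻¹ * q, ?_, by rw [mul_inv_cancel_left]⟩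
      simpa using hq
  have hcover : (univ : Finset Q) ⊆ hfin.toFinset.biUnion fun t => univ.filter fun q => t q ≠ 0 := by
    intro q _
    rw [mem_biUnion]
    by_contra hcon
    push Not at hcon
    have h1 : Submodule.span K b ≤ LinearMap.ker (LinearMap.proj q : (Q → K) →ₗ[K] K) := by
      rw [Submodule.span_le]
      intro t ht
      have h2 := hcon t (by simpa using ht)
      simp only [mem_filter, mem_univ, true_and, not_not] at h2
      exact h2
    have h2 : (fun q' => u ((q * q₀⁻¹)⁻¹ * q')) ∈ Submodule.span K b := by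
      rw [hspan]
      exact Submodule.subset_span ⟨q * q₀⁻¹, rfl⟩
    have h3 : u ((q * q₀⁻¹)⁻¹ * q) = 0 := h1 h2
    rw [mul_inv_rev, inv_inv, mul_assoc, inv_mul_cancel, mul_one] at h3
    exact hu h3
  calc Fintype.card Q = (univ : Finset Q).card := rfl
    _ ≤ _ := card_le_card hcover
    _ ≤ ∑ t ∈ hfin.toFinset, (univ.filter fun q => t q ≠ 0).card := card_biUnion_le
    _ ≤ ∑ t ∈ hfin.toFinset, S := sum_le_sum fun t ht => hsupp t (by simpa using ht)
    _ = hfin.toFinset.card * S := by rw [sum_const, smul_eq_mul]
    _ ≤ finrank K W * S := Nat.mul_le_mul_right S hcard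

/-- Functions orthogonal to a subspace. -/
def orth (R : Submodule K (Q → K)) : Submodule K (Q → K) where
  carrier := {u | ∀ f ∈ R, ∑ q, u q * f q = 0}
  add_mem' := by
    intro a b ha hb f hf
    simp only [Pi.add_apply, add_mul, sum_add_distrib]
    rw [ha f hf, hb f hf, add_zero]
  zero_mem' := by
    intro f _
    simp
  smul_mem' := by
    intro c a ha f hf
    simp only [Pi.smul_apply, smul_eq_mul, mul_assoc, ← mul_sum]
    rw [ha f hf, mul_zero]

omit [Group Q] in
theorem finrank_orth (R : Submodule K (Q → K)) :
    finrank K (orth R) + finrank K R ≤ Fintype.card Q := by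
  classical
  let D : (Q → K) →ₗ[K] Module.Dual K (Q → K) :=
    { toFun := fun u =>
        { toFun := fun f => ∑ q, u q * f q
          map_add' := by
            intro f g
            simp only [Pi.add_apply, mul_add, sum_add_distrib]
          map_smul' := by
            intro c f
            simp only [Pi.smul_apply, smul_eq_mul, RingHom.id_apply, mul_sum]
            exact sum_congr rfl fun q _ => by ring }
      map_add' := by
        intro u v
        ext f
        simp [add_mul, sum_add_distrib]
      map_smul' := by
        intro c u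
        ext f
        simp [mul_assoc, mul_sum] }
  have hD : ∀ u f, D u f = ∑ q, u q * f q := fun u f => rfl
  have hinj : Function.Injective D := by
    intro u v h
    funext q
    have h1 := DFunLike.congr_fun h (Pi.single q 1)
    rw [hD, hD] at h1
    simpa [Pi.single_apply] using h1
  have h1 : ∀ u ∈ orth R, D u ∈ R.dualAnnihilator := by
    intro u hu
    rw [Submodule.mem_dualAnnihilator]
    intro f hf
    exact hu f hf
  have h2 : finrank K (orth R) ≤ finrank K R.dualAnnihilator := by
    refine LinearMap.finrank_le_finrank_of_injective (f := D.restrict h1) ?_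
    intro a b h
    apply Subtype.ext
    apply hinj
    exact congrArg Subtype.val h
  have h3 := Subspace.finrank_add_finrank_dualAnnihilator_eq R
  rw [Module.finrank_fintype_fun_eq_card] at h3
  omega

end translates

/-- Crossed homomorphisms at conjugates of `r`. -/
theorem coc_conj {K : Type} [Field K] {k : ℕ} (r : FreeGroup (Fin k)) {Q : Type} [Group Q]
    (π : FreeGroup (Fin k) →* Q) (hr : π r = 1) (v : Fin k → Q → K) (g : FreeGroup (Fin k))
    (q : Q) :
    coc (ind π (1 : FreeGroup (Fin k) →* Module.End K K)) v (g * r * g⁻¹) q =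
      coc (ind π (1 : FreeGroup (Fin k) →* Module.End K K)) v r (q * π g) := by
  have h0 := coc_mul (ind π (1 : FreeGroup (Fin k) →* Module.End K K)) v g g⁻¹
  rw [mul_inv_cancel, coc_one] at h0
  have h1 := congrFun h0 q
  rw [coc_mul, coc_mul]
  simp only [Pi.add_apply, Pi.zero_apply, Module.End.smul_def, ind_apply, MonoidHom.one_apply,
    Module.End.one_apply, map_mul, Module.End.mul_apply, hr, mul_one] at h1 ⊢
  rw [add_right_comm, ← h1, zero_add]

theorem cells {K : Type} [Field K] {k : ℕ} (r : FreeGroup (Fin k)) {Q : Type} [Group Q]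
    [Fintype Q] (π : FreeGroup (Fin k) →* Q) (hr : π r = 1) (T : Subgroup (FreeGroup (Fin k)))
    {s : ℕ} (g : Fin s → FreeGroup (Fin k)) (hg : ∀ i, g i * r * (g i)⁻¹ ∈ T) (c : Fin s → K)
    (hc : ∀ χ : T →* Multiplicative K,
      ∑ i, c i * Multiplicative.toAdd (χ ⟨g i * r * (g i)⁻¹, hg i⟩) = 0)
    [DecidablePred (· ∈ T.map π)]
    (q₀ : Q) (hu : (∑ i, if q₀ * (π (g i))⁻¹ ∈ T.map π then c i else 0) ≠ 0) :
    Fintype.card Q ≤ cork K r π * (s * Nat.card (T.map π)) := by
  classical
  set R := LinearMap.range (ev (ind π (1 : FreeGroup (Fin k) →* Module.End K K)) r) with hR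
  set u : Q → K := fun q => ∑ i, if q * (π (g i))⁻¹ ∈ T.map π then c i else 0 with hudef
  have hcork : finrank K (orth R) ≤ cork K r π := by
    have h1 := finrank_orth R
    have h2 := rank_add_cork K r π
    rw [← hR] at h2
    omega
  refine le_trans ?_ (Nat.mul_le_mul_right _ hcork)
  refine card_le_translates u q₀ hu _ ?_ (orth R) ?_
  · -- the support
    have h1 : {q | u q ≠ 0} ⊆ ⋃ i : Fin s, {q : Q | q * (π (g i))⁻¹ ∈ T.map π} := by
      intro q hq
      rw [Set.mem_iUnion]
      by_contra hcon
      push Not at hcon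
      apply hq
      refine sum_eq_zero fun i _ => ?_
      exact if_neg fun h => hcon i h
    refine le_trans (Set.ncard_le_ncard h1 (Set.toFinite _)) ?_
    refine le_trans (Set.ncard_iUnion_le_of_fintype _) ?_
    refine le_of_eq ?_
    have h2 : ∀ i : Fin s, ({q : Q | q * (π (g i))⁻¹ ∈ T.map π}).ncard = Nat.card (T.map π) := by
      intro i
      rw [← Nat.card_coe_set_eq]
      refine Nat.card_congr
        { toFun := fun q => ⟨q.1 * (π (g i))⁻¹, q.2⟩
          invFun := fun t => ⟨t.1 * π (g i), by
            show t.1 * π (g i) * (π (g i))⁻¹ ∈ T.map π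
            rw [mul_inv_cancel_right]
            exact t.2⟩
          left_inv := fun q => by
            apply Subtype.ext
            show q.1 * (π (g i))⁻¹ * π (g i) = q.1
            rw [inv_mul_cancel_right]
          right_inv := fun t => by
            apply Subtype.ext
            show t.1 * π (g i) * (π (g i))⁻¹ = t.1
            rw [mul_inv_cancel_right] }
    rw [sum_congr rfl fun i _ => h2 i, sum_const, card_univ, Fintype.card_fin, smul_eq_mul]
  · -- orthogonality
    rintro x _ ⟨v, rfl⟩
    rw [ev_apply]
    set C := coc (ind π (1 : FreeGroup (Fin k) →* Module.End K K)) v with hC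
    have hCmul : ∀ a b q, C (a * b) q = C a q + C b (q * π a) := by
      intro a b q
      rw [hC, coc_mul]
      rfl
    -- the homomorphism on `T`
    let χ : T →* Multiplicative K :=
      { toFun := fun t => Multiplicative.ofAdd (∑ y : T.map π, C t.1 (x * y.1))
        map_one' := by
          have h1 : C (1 : FreeGroup (Fin k)) = 0 := coc_one _ _
          show Multiplicative.ofAdd (∑ y : T.map π, C (1 : FreeGroup (Fin k)) (x * y.1)) = 1
          rw [h1]
          simp
        map_mul' := by
          intro a b
          show Multiplicative.ofAdd (∑ y : T.map π, C (a.1 * b.1) (x * y.1)) = _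
          rw [← ofAdd_add]
          congr 1
          simp only [hCmul, sum_add_distrib]
          congr 1
          refine Fintype.sum_equiv (Equiv.mulRight (⟨π a.1, ⟨a.1, a.2, rfl⟩⟩ : T.map π)) _ _ ?_
          intro y
          show C b.1 (x * y.1 * π a.1) = C b.1 (x * (y.1 * π a.1))
          rw [mul_assoc] }
    have h1 := hc χ
    have h2 : ∀ i, Multiplicative.toAdd (χ ⟨g i * r * (g i)⁻¹, hg i⟩) =
        ∑ y : T.map π, C r (x * y.1 * π (g i)) := by
      intro i
      show ∑ y : T.map π, C (g i * r * (g i)⁻¹) (x * y.1) = _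
      exact sum_congr rfl fun y _ => coc_conj r π hr v (g i) (x * y.1)
    simp only [h2] at h1
    rw [← h1]
    -- rearrangement
    have h3 : ∀ q : Q, u (x⁻¹ * q) * C r q =
        ∑ i, (if x⁻¹ * q * (π (g i))⁻¹ ∈ T.map π then c i * C r q else 0) := by
      intro q
      rw [hudef, sum_mul]
      refine sum_congr rfl fun i _ => ?_
      split_ifs <;> simp
    rw [sum_congr rfl fun q _ => h3 q, sum_comm]
    refine sum_congr rfl fun i _ => ?_
    rw [mul_sum, ← sum_filter]
    refine sum_bij' (fun q hq => (⟨x⁻¹ * q * (π (g i))⁻¹, (mem_filter.mp hq).2⟩ : T.map π))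
      (fun y _ => x * y.1 * π (g i)) ?_ ?_ ?_ ?_ ?_
    · intro q _; exact mem_univ _
    · intro y _
      rw [mem_filter]
      refine ⟨mem_univ _, ?_⟩
      have h4 : x⁻¹ * (x * y.1 * π (g i)) * (π (g i))⁻¹ = y.1 := by group
      rw [h4]
      exact y.2
    · intro q _
      show x * (x⁻¹ * q * (π (g i))⁻¹) * π (g i) = q
      group
    · intro y _
      apply Subtype.ext
      show x⁻¹ * (x * y.1 * π (g i)) * (π (g i))⁻¹ = y.1
      group
    · intro q _
      congr 2
      show q = x * (x⁻¹ * q * (π (g i))⁻¹) * π (g i)
      group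

end Pool.Agent.MelD
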