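import Pool.Agent.MelD.Def

/-!
# Coranks and extensions of coinduced representations by themselves

* `cork K r π`: the codimension of the range of `ev` on the functions `Q → K`.
* `extRep π v`: for crossed homomorphisms `a i = coc (ind π 1) (v i)` with values in `Q → K`, the
  representation on `(Q → K) × (Fin N → Q → K)` in which `g` acts by
  `(x, y) ↦ (g x, g (y i) + (g x) * a i g)`.
-/

open Finset Module

namespace Pool.Agent.MelD

/-- The codimension of the range of `ev` on the functions `Q → K`. -/
noncomputable def cork (K : Type) [Field K] {k : ℕ} (r : FreeGroup (Fin k)) {Q : Type} [Group Q]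
    [Fintype Q] (π : FreeGroup (Fin k) →* Q) : ℕ :=
  Fintype.card Q -
    finrank K (LinearMap.range (ev (ind π (1 : FreeGroup (Fin k) →* Module.End K K)) r))

theorem rank_add_cork (K : Type) [Field K] {k : ℕ} (r : FreeGroup (Fin k)) {Q : Type} [Group Q]
    [Fintype Q] (π : FreeGroup (Fin k) →* Q) :
    finrank K (LinearMap.range (ev (ind π (1 : FreeGroup (Fin k) →* Module.End K K)) r)) +
      cork K r π = Fintype.card Q := by
  have h : finrank K (LinearMap.range (ev (ind π (1 : FreeGroup (Fin k) →* Module.End K K)) r)) ≤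
      Fintype.card Q := by
    refine le_trans (Submodule.finrank_le _) ?_
    rw [Module.finrank_fintype_fun_eq_card]
  unfold cork
  omega

/-- Equivariant linear maps commute with `coc`. -/
theorem map_coc {K : Type*} [Field K] {k : ℕ} {V W : Type*} [AddCommGroup V] [Module K V]
    [AddCommGroup W] [Module K W] (ρ : FreeGroup (Fin k) →* Module.End K V)
    (σ : FreeGroup (Fin k) →* Module.End K W) (T : V →ₗ[K] W) (hT : ∀ g v, T (ρ g v) = σ g (T v))
    (v : Fin k → V) (g : FreeGroup (Fin k)) : T (coc ρ v g) = coc σ (fun j => T (v j)) g := by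
  refine coc_unique σ (fun g => T (coc ρ v g)) (coc σ (fun j => T (v j))) ?_ (coc_mul σ _) ?_ g
  · intro g h
    show T (coc ρ v (g * h)) = _
    rw [coc_mul, map_add]
    congr 1
    exact hT g (coc ρ v h)
  · intro j
    show T (coc ρ v (FreeGroup.of j)) = _
    rw [coc_of, coc_of]

/-- Principal crossed homomorphisms. -/
theorem coc_principal {K : Type*} [Field K] {k : ℕ} {V : Type*} [AddCommGroup V] [Module K V]
    (ρ : FreeGroup (Fin k) →* Module.End K V) (w : V) (g : FreeGroup (Fin k)) :
    coc ρ (fun j => ρ (FreeGroup.of j) w - w) g = ρ g w - w := by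
  refine coc_unique ρ (coc ρ (fun j => ρ (FreeGroup.of j) w - w)) (fun g => ρ g w - w)
    (coc_mul ρ _) ?_ ?_ g
  · intro g h
    show ρ (g * h) w - w = ρ g w - w + ρ g (ρ h w - w)
    rw [map_mul, map_sub]
    show ρ g (ρ h w) - w = ρ g w - w + (ρ g (ρ h w) - ρ g w)
    abel
  · intro j
    rw [coc_of]

variable {K : Type} [Field K] {k N : ℕ} {Q : Type} [Group Q]

/-- The crossed homomorphism with values in `Q → K`. -/
noncomputable def acoc (π : FreeGroup (Fin k) →* Q) (v : Fin k → Q → K) (g : FreeGroup (Fin k)) :
    Q → K := coc (ind π (1 : FreeGroup (Fin k) →* Module.End K K)) v g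

theorem acoc_mul (π : FreeGroup (Fin k) →* Q) (v : Fin k → Q → K) (g h : FreeGroup (Fin k)) (q : Q) :
    acoc π v (g * h) q = acoc π v g q + acoc π v h (q * π g) := by
  unfold acoc
  rw [coc_mul]
  rfl

theorem acoc_one (π : FreeGroup (Fin k) →* Q) (v : Fin k → Q → K) (q : Q) : acoc π v 1 q = 0 := by
  unfold acoc
  rw [coc_one]
  rfl

/-- The extension of `Q → K` by `N` copies of `Q → K` given by `N` crossed homomorphisms. -/
noncomputable def extRep (π : FreeGroup (Fin k) →* Q) (v : Fin N → Fin k → Q → K) :
    FreeGroup (Fin k) →* Module.End K ((Q → K) × (Fin N → Q → K)) where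
  toFun g :=
    { toFun := fun x => (fun q => x.1 (q * π g),
        fun i q => x.2 i (q * π g) + x.1 (q * π g) * acoc π (v i) g q)
      map_add' := by
        intro x y
        refine Prod.ext ?_ ?_
        · rfl
        · funext i q
          simp only [Prod.fst_add, Prod.snd_add, Pi.add_apply]
          ring
      map_smul' := by
        intro c x
        refine Prod.ext ?_ ?_
        · rfl
        · funext i q
          simp only [Prod.smul_fst, Prod.smul_snd, Pi.smul_apply, smul_eq_mul, RingHom.id_apply]
          ring }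
  map_one' := by
    apply LinearMap.ext
    intro x
    refine Prod.ext ?_ ?_
    · funext q
      show x.1 (q * π 1) = x.1 q
      rw [map_one, mul_one]
    · funext i q
      show x.2 i (q * π 1) + x.1 (q * π 1) * acoc π (v i) 1 q = x.2 i q
      rw [map_one, mul_one, acoc_one, mul_zero, add_zero]
  map_mul' := by
    intro g h
    apply LinearMap.ext
    intro x
    refine Prod.ext ?_ ?_
    · funext q
      show x.1 (q * π (g * h)) = x.1 (q * π g * π h)
      rw [map_mul, mul_assoc]
    · funext i q
      show x.2 i (q * π (g * h)) + x.1 (q * π (g * h)) * acoc π (v i) (g * h) q =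
        (x.2 i (q * π g * π h) + x.1 (q * π g * π h) * acoc π (v i) h (q * π g)) +
          x.1 (q * π g * π h) * acoc π (v i) g q
      rw [map_mul, acoc_mul, ← mul_assoc]
      ring

theorem extRep_apply (π : FreeGroup (Fin k) →* Q) (v : Fin N → Fin k → Q → K)
    (g : FreeGroup (Fin k)) (x : (Q → K) × (Fin N → Q → K)) :
    extRep π v g x = (fun q => x.1 (q * π g),
      fun i q => x.2 i (q * π g) + x.1 (q * π g) * acoc π (v i) g q) := rfl

/-- If `π r = 1` and the crossed homomorphisms vanish at `r`, then `r` acts trivially. -/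
theorem extRep_rel (π : FreeGroup (Fin k) →* Q) (v : Fin N → Fin k → Q → K)
    (r : FreeGroup (Fin k)) (hr : π r = 1) (hv : ∀ i, acoc π (v i) r = 0) : extRep π v r = 1 := by
  apply LinearMap.ext
  intro x
  rw [extRep_apply]
  refine Prod.ext ?_ ?_
  · funext q
    show x.1 (q * π r) = x.1 q
    rw [hr, mul_one]
  · funext i q
    show x.2 i (q * π r) + x.1 (q * π r) * acoc π (v i) r q = x.2 i q
    rw [hr, mul_one, hv i, Pi.zero_apply, mul_zero, add_zero]

end Pool.Agent.MelD
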