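import Pool.Agent.MelD.CaseA
import Pool.Agent.MelD.RigDef

/-!
# The corank is the codimension of the right ideal of the Fox derivatives in `K[Q]`
-/

open Finset Module

namespace Pool.Agent.MelD

/-- Elements of the group algebra of a finite group as functions. -/
noncomputable def toFn (K : Type) [Field K] (Q : Type) [Group Q] [Fintype Q] :
    MonoidAlgebra K Q ≃ₗ[K] (Q → K) :=
  ((MonoidAlgebra.coeffLinearEquiv K).trans (Finsupp.linearEquivFunOnFinite K K Q)).trans
    (LinearEquiv.funCongrLeft K K (Equiv.inv Q))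

theorem toFn_apply (K : Type) [Field K] (Q : Type) [Group Q] [Fintype Q] (x : MonoidAlgebra K Q)
    (q : Q) : toFn K Q x q = x.coeff q⁻¹ := rfl

theorem toFn_mul (K : Type) [Field K] (Q : Type) [Group Q] [Fintype Q] (a x : MonoidAlgebra K Q) :
    toFn K Q (a * x) = act K (MonoidHom.id Q) a (toFn K Q x) := by
  induction a using MonoidAlgebra.induction_linear with
  | zero => rw [zero_mul, map_zero, map_zero]; rfl
  | add a b ha hb => rw [add_mul, map_add, ha, hb, map_add]; rfl
  | single g c =>
    funext q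
    unfold act
    rw [MonoidAlgebra.lift_single]
    show _ = c * toFn K Q x (q * g)
    rw [toFn_apply, toFn_apply, MonoidAlgebra.coeff_single_mul_apply, mul_inv_rev]

theorem map_RI (K : Type) [Field K] {k : ℕ} (r : FreeGroup (Fin k)) {Q : Type} [Group Q]
    [Fintype Q] (π : FreeGroup (Fin k) →* Q) :
    (RI (K := K) (fun j => fox ((MonoidAlgebra.of K Q).comp π) j r)).map
      (toFn K Q : MonoidAlgebra K Q →ₗ[K] (Q → K)) =
    LinearMap.range (ev (ind π (1 : FreeGroup (Fin k) →* Module.End K K)) r) := by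
  classical
  have hact : ∀ j y, toFn K Q (fox ((MonoidAlgebra.of K Q).comp π) j r * y) =
      fox (ind π (1 : FreeGroup (Fin k) →* Module.End K K)) j r (toFn K Q y) := by
    intro j y
    rw [toFn_mul, act_fox]
    rfl
  apply le_antisymm
  · unfold RI
    rw [Submodule.map_span, Submodule.span_le]
    rintro _ ⟨_, ⟨j, y, rfl⟩, rfl⟩
    refine ⟨Pi.single j (toFn K Q y), ?_⟩
    rw [ev_apply, coc_eq_sum, sum_eq_single j]
    · rw [Pi.single_eq_same]
      exact (hact j y).symm
    · intro i _ hij
      rw [Pi.single_eq_of_ne hij, smul_zero]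
    · intro h
      exact absurd (mem_univ j) h
  · rintro _ ⟨v, rfl⟩
    rw [ev_apply, coc_eq_sum]
    refine Submodule.sum_mem _ fun j _ => ?_
    refine ⟨fox ((MonoidAlgebra.of K Q).comp π) j r * (toFn K Q).symm (v j), ?_, ?_⟩
    · exact Submodule.subset_span ⟨j, _, rfl⟩
    · show toFn K Q (fox ((MonoidAlgebra.of K Q).comp π) j r * (toFn K Q).symm (v j)) = _
      rw [hact, LinearEquiv.apply_symm_apply]
      rfl

theorem rank_RI_eq (K : Type) [Field K] {k : ℕ} (r : FreeGroup (Fin k)) {Q : Type} [Group Q]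
    [Fintype Q] (π : FreeGroup (Fin k) →* Q) :
    Module.rank K (MonoidAlgebra K Q ⧸
      RI (K := K) (fun j => fox ((MonoidAlgebra.of K Q).comp π) j r)) = cork K r π := by
  have hfin : FiniteDimensional K (MonoidAlgebra K Q) := Module.Finite.equiv (toFn K Q).symm
  rw [← finrank_eq_rank]
  congr 1
  have h1 := Submodule.finrank_quotient_add_finrank
    (RI (K := K) (fun j => fox ((MonoidAlgebra.of K Q).comp π) j r))
  have h2 := LinearEquiv.finrank_eq (toFn K Q)
  rw [Module.finrank_fintype_fun_eq_card] at h2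
  have h3 := LinearEquiv.finrank_map_eq (toFn K Q)
    (RI (K := K) (fun j => fox ((MonoidAlgebra.of K Q).comp π) j r))
  rw [map_RI] at h3
  have h4 := rank_add_cork K r π
  omega

end Pool.Agent.MelD
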