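import Pool.Agent.MelD.All
import Pool.Agent.MelD.CorkRI

/-!
# Characters that kill the Fox derivatives of the relator

`Dual r χ`: the character `χ : F → A` with values in a commutative ring `A` kills all Fox derivatives of `r`
(so `χ r = 1`): the 2-cell of the presentation complex is a cycle with coefficients twisted by `χ`.

`dual_rigid`: under the hypothesis on the numbers of relators, a character with values in a finite
algebra over the prime field that kills the Fox derivatives has its values in the prime field.  Applied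
to `K × K` this is uniqueness of the character, applied to the dual numbers it is its rigidity.
-/

open Finset Module

namespace Pool.Agent.MelD

open Pool.Agent.MelG (HasRel)

/-- The character kills the Fox derivatives of `r`. -/
def Dual {k : ℕ} (r : FreeGroup (Fin k)) {A : Type*} [CommRing A] (χ : FreeGroup (Fin k) →* A) : Prop :=
  ∀ j, fox χ j r = 0

theorem Dual.rel {k : ℕ} {r : FreeGroup (Fin k)} {A : Type*} [CommRing A] {χ : FreeGroup (Fin k) →* A}
    (h : Dual r χ) : χ r = 1 := by
  have h1 := fundamental χ r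
  rw [sum_eq_zero (fun j _ => by rw [h j, zero_mul])] at h1
  exact sub_eq_zero.1 h1

theorem Dual.map {k : ℕ} {r : FreeGroup (Fin k)} {A B : Type*} [CommRing A] [CommRing B]
    {χ : FreeGroup (Fin k) →* A} (h : Dual r χ) (f : A →+* B) : Dual r ((f : A →* B).comp χ) := by
  intro j
  rw [← map_fox, h j, map_zero]

theorem Dual.of_map {k : ℕ} {r : FreeGroup (Fin k)} {A B : Type*} [CommRing A] [CommRing B]
    {χ : FreeGroup (Fin k) →* A} (f : A →+* B) (hf : Function.Injective f)
    (h : Dual r ((f : A →* B).comp χ)) : Dual r χ := by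
  intro j
  apply hf
  rw [map_zero, map_fox, h j]

theorem Dual.prod {k : ℕ} {r : FreeGroup (Fin k)} {A B : Type*} [CommRing A] [CommRing B]
    {χ : FreeGroup (Fin k) →* A} {ψ : FreeGroup (Fin k) →* B} (h : Dual r χ) (h' : Dual r ψ) :
    Dual r (χ.prod ψ) := by
  intro j
  refine Prod.ext ?_ ?_
  · show (RingHom.fst A B) (fox (χ.prod ψ) j r) = 0
    rw [map_fox]
    exact h j
  · show (RingHom.snd A B) (fox (χ.prod ψ) j r) = 0
    rw [map_fox]
    exact h' j

/-- Rigidity. -/
theorem dual_rigid {k : ℕ} (hk : 2 ≤ k) (r : FreeGroup (Fin k)) (hr1 : r ≠ 1) (m : ℕ)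
    (H : ∀ N : Subgroup (OR r), N.Normal → N.FiniteIndex → HasRel m N) {p : ℕ} [Fact p.Prime]
    {A : Type} [CommRing A] [Finite A] [Algebra (ZMod p) A] (χ : FreeGroup (Fin k) →* A)
    (h : Dual r χ) (g : FreeGroup (Fin k)) : ∃ c : ZMod p, χ g = algebraMap (ZMod p) A c := by
  classical
  have hfd : FiniteDimensional (ZMod p) A := inferInstance
  -- the image group
  let ψ : FreeGroup (Fin k) →* Aˣ := MonoidHom.toHomUnits χ
  have hψ : ∀ x, ((ψ x : Aˣ) : A) = χ x := fun x => rfl
  let π : FreeGroup (Fin k) →* ψ.range := ψ.rangeRestrict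
  have : Fintype ψ.range := Fintype.ofFinite _
  have hs : Function.Surjective π := ψ.rangeRestrict_surjective
  have hπ : π r = 1 := by
    apply Subtype.ext
    apply Units.ext
    show χ r = 1
    exact h.rel
  have h1 := cork_le_one_all hk r hr1 m H π hs hπ (ZMod p)
  have h2 := rank_RI_eq (ZMod p) r π
  -- the evaluation
  let e : MonoidAlgebra (ZMod p) ψ.range →ₐ[ZMod p] A :=
    MonoidAlgebra.lift (ZMod p) A ψ.range ((Units.coeHom A).comp ψ.range.subtype)
  have he : ∀ x, e (MonoidAlgebra.of (ZMod p) ψ.range (π x)) = χ x := by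
    intro x
    show MonoidAlgebra.lift (ZMod p) A ψ.range _ (MonoidAlgebra.single (π x) 1) = _
    rw [MonoidAlgebra.lift_single, one_smul]
    rfl
  have hker : RI (K := ZMod p) (fun j => fox ((MonoidAlgebra.of (ZMod p) ψ.range).comp π) j r) ≤
      LinearMap.ker e.toLinearMap := by
    unfold RI
    rw [Submodule.span_le]
    rintro _ ⟨j, y, rfl⟩
    show e (fox ((MonoidAlgebra.of (ZMod p) ψ.range).comp π) j r * y) = 0
    rw [map_mul]
    have h3 : e (fox ((MonoidAlgebra.of (ZMod p) ψ.range).comp π) j r) = 0 := by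
      show (e : MonoidAlgebra (ZMod p) ψ.range →+* A) _ = 0
      rw [map_fox]
      have h4 : ((e : MonoidAlgebra (ZMod p) ψ.range →+* A) : MonoidAlgebra (ZMod p) ψ.range →* A).comp
          ((MonoidAlgebra.of (ZMod p) ψ.range).comp π) = χ := MonoidHom.ext he
      rw [h4]
      exact h j
    rw [h3, zero_mul]
  -- dimension count
  have hfin : FiniteDimensional (ZMod p) (MonoidAlgebra (ZMod p) ψ.range) :=
    Module.Finite.equiv (toFn (ZMod p) ψ.range).symm
  have h5 : finrank (ZMod p) (LinearMap.range e.toLinearMap) ≤ 1 := by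
    have h6 := LinearMap.finrank_range_add_finrank_ker e.toLinearMap
    have h7 := Submodule.finrank_mono hker
    have h8 := Submodule.finrank_quotient_add_finrank
      (RI (K := ZMod p) (fun j => fox ((MonoidAlgebra.of (ZMod p) ψ.range).comp π) j r))
    rw [← finrank_eq_rank, Nat.cast_inj] at h2
    omega
  rcases subsingleton_or_nontrivial A with hA | hA
  · exact ⟨0, Subsingleton.elim _ _⟩
  -- `1` spans the range
  let one' : LinearMap.range e.toLinearMap := ⟨1, ⟨1, map_one e⟩⟩
  have hone : one' ≠ 0 := fun h9 => one_ne_zero (congrArg Subtype.val h9)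
  have h9 : ∃ c : ZMod p, c • one' = ⟨χ g, ⟨_, he g⟩⟩ :=
    exists_smul_eq_of_finrank_eq_one (le_antisymm h5 (Nat.one_le_iff_ne_zero.2 (fun h0 => by
      have := (Module.finrank_pos_iff_exists_ne_zero (R := ZMod p)).2 ⟨one', hone⟩
      omega))) hone _
  obtain ⟨c, hc⟩ := h9
  refine ⟨c, ?_⟩
  rw [Algebra.algebraMap_eq_smul_one]
  exact (congrArg Subtype.val hc).symm

end Pool.Agent.MelD
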