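import Pool.Agent.MelD.All
import Pool.Agent.MelD.Cells

/-!
# Closed subgroups of infinite index

`S` a subgroup of infinite index of the one-relator group `G_r` that is closed in the profinite topology
(an intersection of subgroups of finite index), `T` its preimage in the free group, `K` any field.  If
all finite index normal subgroups of `G_r` have presentations with at most `m` relators, then the classes
of `g r g⁻¹`, for `g` in a system of representatives of `T \ F`, are linearly independent in the
abelianization of `T` tensored with `K`: no nontrivial combination of them is killed by all homomorphisms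
`T → K`.  In other words `H_2 (S; K) = 0`.  For `S = 1` this is the asphericity of the presentation.
-/

open Finset Module

namespace Pool.Agent.MelD

open Pool.Agent.MelG (HasRel)

/-- `S` is closed in the profinite topology. -/
def IsProClosed {G : Type} [Group G] (S : Subgroup G) : Prop :=
  ∀ x : G, x ∉ S → ∃ U : Subgroup G, U.FiniteIndex ∧ S ≤ U ∧ x ∉ U

/-- Finitely many elements outside a closed subgroup are outside a common finite index subgroup that
contains it. -/
theorem IsProClosed.finset {G : Type} [Group G] {S : Subgroup G} (hS : IsProClosed S)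
    (Y : Finset G) (hY : ∀ y ∈ Y, y ∉ S) :
    ∃ U : Subgroup G, U.FiniteIndex ∧ S ≤ U ∧ ∀ y ∈ Y, y ∉ U := by
  classical
  induction Y using Finset.induction_on with
  | empty => exact ⟨⊤, inferInstance, le_top, by simp⟩
  | insert y Y hy ih =>
    obtain ⟨U, h1, h2, h3⟩ := ih fun z hz => hY z (mem_insert_of_mem hz)
    obtain ⟨U', h1', h2', h3'⟩ := hS y (hY y (mem_insert_self y Y))
    refine ⟨U ⊓ U', inferInstance, le_inf h2 h2', ?_⟩
    intro z hz hzU
    rcases mem_insert.mp hz with rfl | hz
    · exact h3' hzU.2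
    · exact h3 z hz hzU.1

/-- The relator is trivial in the group. -/
theorem mk_rel {k : ℕ} (r : FreeGroup (Fin k)) :
    PresentedGroup.mk ({r} : Set (FreeGroup (Fin k))) r = 1 :=
  PresentedGroup.one_of_mem (Set.mem_singleton r)

/-- The conjugates of the relator are in the preimage of every subgroup. -/
theorem conj_mem_comap {k : ℕ} (r : FreeGroup (Fin k)) (S : Subgroup (OR r))
    (g : FreeGroup (Fin k)) :
    g * r * g⁻¹ ∈ S.comap (PresentedGroup.mk ({r} : Set (FreeGroup (Fin k)))) := by
  show PresentedGroup.mk {r} (g * r * g⁻¹) ∈ S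
  rw [map_mul, map_mul, mk_rel, mul_one, map_inv, mul_inv_cancel]
  exact S.one_mem

theorem closed_cycles {k : ℕ} (hk : 2 ≤ k) (r : FreeGroup (Fin k)) (hr1 : r ≠ 1) (m : ℕ)
    (H : ∀ N : Subgroup (OR r), N.Normal → N.FiniteIndex → HasRel m N)
    (S : Subgroup (OR r)) (hS : IsProClosed S) (hinf : ¬ S.FiniteIndex)
    (K : Type) [Field K] {s : ℕ} (g : Fin s → FreeGroup (Fin k))
    (hg : ∀ i j, i ≠ j → PresentedGroup.mk ({r} : Set (FreeGroup (Fin k))) (g i * (g j)⁻¹) ∉ S)
    (c : Fin s → K)
    (hc : ∀ χ : (S.comap (PresentedGroup.mk ({r} : Set (FreeGroup (Fin k))))) →*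
      Multiplicative K,
      ∑ i, c i * Multiplicative.toAdd (χ ⟨g i * r * (g i)⁻¹, conj_mem_comap r S (g i)⟩) = 0) :
    c = 0 := by
  classical
  by_contra hne
  obtain ⟨i₀, hi₀⟩ : ∃ i, c i ≠ 0 := by
    by_contra h
    push Not at h
    exact hne (funext h)
  -- many cosets
  have hQ : Infinite (OR r ⧸ S) := by
    by_contra h
    rw [not_infinite_iff_finite] at h
    exact hinf (Subgroup.finiteIndex_of_finite_quotient)
  let e : ℕ ↪ OR r ⧸ S := Infinite.natEmbedding _
  let y : ℕ → OR r := fun a => Quotient.out (e a)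
  have hy : ∀ a b, a ≠ b → (y a)⁻¹ * y b ∉ S := by
    intro a b hab h
    apply hab
    apply e.injective
    have h1 : (QuotientGroup.mk (y a) : OR r ⧸ S) = QuotientGroup.mk (y b) :=
      QuotientGroup.eq.mpr h
    rw [QuotientGroup.out_eq', QuotientGroup.out_eq'] at h1
    exact h1
  let M := m * s + 1
  -- the finite set of elements to be separated
  let Y : Finset (OR r) :=
    (((univ : Finset (Fin s × Fin s)).filter fun ij => ij.1 ≠ ij.2).image fun ij =>
      PresentedGroup.mk ({r} : Set (FreeGroup (Fin k))) (g ij.1 * (g ij.2)⁻¹)) ∪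
    (((univ : Finset (Fin M × Fin M)).filter fun ab => ab.1 ≠ ab.2).image fun ab =>
      (y ab.1)⁻¹ * y ab.2)
  have hY : ∀ z ∈ Y, z ∉ S := by
    intro z hz
    rcases mem_union.mp hz with hz | hz
    · obtain ⟨⟨i, j⟩, hij, rfl⟩ := mem_image.mp hz
      exact hg i j (mem_filter.mp hij).2
    · obtain ⟨⟨a, b⟩, hab, rfl⟩ := mem_image.mp hz
      refine hy a b ?_
      intro h
      exact (mem_filter.mp hab).2 (Fin.ext h)
  obtain ⟨U, hU, hSU, hUY⟩ := hS.finset Y hY
  have hU' : U.normalCore.FiniteIndex := inferInstance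
  have hfin : Finite (OR r ⧸ U.normalCore) := inferInstance
  have : Fintype (OR r ⧸ U.normalCore) := Fintype.ofFinite _
  let π' : OR r →* OR r ⧸ U.normalCore := QuotientGroup.mk' U.normalCore
  let π : FreeGroup (Fin k) →* OR r ⧸ U.normalCore :=
    π'.comp (PresentedGroup.mk ({r} : Set (FreeGroup (Fin k))))
  have hπr : π r = 1 := by
    show π' (PresentedGroup.mk {r} r) = 1
    rw [mk_rel, map_one]
  have hπs : Function.Surjective π :=
    (QuotientGroup.mk'_surjective _).comp (PresentedGroup.mk_surjective _)
  let T := S.comap (PresentedGroup.mk ({r} : Set (FreeGroup (Fin k))))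
  -- elements outside `U` are not in the image of `T`
  have hsep : ∀ z : OR r, π' z ∈ T.map π → z ∈ U := by
    intro z hz
    obtain ⟨t, ht, hzt⟩ := hz
    have h1 : π' (PresentedGroup.mk {r} t) = π' z := hzt
    have h2 : (PresentedGroup.mk {r} t)⁻¹ * z ∈ U.normalCore := QuotientGroup.eq.mp h1
    have h3 := U.normalCore_le h2
    have h4 : PresentedGroup.mk {r} t ∈ U := hSU ht
    have h5 := U.mul_mem h4 h3
    rwa [mul_inv_cancel_left] at h5
  have hcells := cells (K := K) r π hπr T g (fun i => conj_mem_comap r S (g i)) c hc (π (g i₀)) (by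
    rw [sum_eq_single i₀]
    · rw [if_pos]
      · exact hi₀
      · rw [mul_inv_cancel]
        exact (T.map π).one_mem
    · intro j _ hj
      rw [if_neg]
      intro h
      have h1 : π' (PresentedGroup.mk {r} (g i₀ * (g j)⁻¹)) ∈ T.map π := by
        show π (g i₀ * (g j)⁻¹) ∈ T.map π
        rw [map_mul, map_inv]
        exact h
      refine hUY _ ?_ (hsep _ h1)
      refine mem_union_left _ (mem_image.mpr ⟨(i₀, j), ?_, rfl⟩)
      rw [mem_filter]
      exact ⟨mem_univ _, Ne.symm hj⟩
    · intro h
      exact absurd (mem_univ _) h)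
  have hcork := cork_le_m_all hk r hr1 m H π hπs hπr K
  -- the index is large
  have hind : M * Nat.card (T.map π) ≤ Fintype.card (OR r ⧸ U.normalCore) := by
    have h1 : Function.Injective (fun at' : Fin M × (T.map π) => at'.2.1 * π' (y at'.1)⁻¹) := by
      rintro ⟨a, t⟩ ⟨b, t'⟩ h
      simp only at h
      have hab : a = b := by
        by_contra hab
        have h2 : π' ((y a)⁻¹ * y b) ∈ T.map π := by
          have h3 : π' ((y a)⁻¹ * y b) = t.1⁻¹ * t'.1 := by
            have h4 : π' (y a)⁻¹ = t.1⁻¹ * (t'.1 * π' (y b)⁻¹) := by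
              rw [← h, inv_mul_cancel_left]
            rw [map_mul, h4, map_inv]
            group
          rw [h3]
          exact (T.map π).mul_mem ((T.map π).inv_mem t.2) t'.2
        refine hUY _ ?_ (hsep _ h2)
        refine mem_union_right _ (mem_image.mpr ⟨(a, b), ?_, rfl⟩)
        rw [mem_filter]
        exact ⟨mem_univ _, hab⟩
      subst hab
      have h2 : t.1 = t'.1 := mul_right_cancel h
      rw [Prod.mk.injEq]
      exact ⟨rfl, Subtype.ext h2⟩
    have h2 := Nat.card_le_card_of_injective _ h1
    rw [Nat.card_prod, Nat.card_eq_fintype_card, Fintype.card_fin, Nat.card_eq_fintype_card] at h2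
    rw [Nat.card_eq_fintype_card]
    simpa using h2
  have hpos : 1 ≤ Nat.card (T.map π) := Nat.card_pos
  have h1 : cork K r π * (s * Nat.card (T.map π)) ≤ m * (s * Nat.card (T.map π)) :=
    Nat.mul_le_mul_right _ hcork
  have h2 : M * Nat.card (T.map π) ≤ m * (s * Nat.card (T.map π)) :=
    le_trans hind (le_trans hcells h1)
  have h3 : M * Nat.card (T.map π) = m * (s * Nat.card (T.map π)) + Nat.card (T.map π) := by
    show (m * s + 1) * Nat.card (T.map π) = _
    ring
  omega

end Pool.Agent.MelD
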