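import Pool.Agent.MelD.Def
import Pool.Agent.MelG.Base

/-!
# From Mel'nikov groups to one-relator presentations

* `Hyp m G`: `G` is residually finite and every finite index subgroup of `G` has a presentation with
  finitely many generators and at most `m` relators (`Hyp 1 G` is `IsMelnikov G`).
* The property passes to isomorphic groups and to subgroups of finite index.
* `exists_OR`: a Mel'nikov group that is not cyclic and not free is a one-relator group `OR r` with
  `r ≠ 1` on `k ≥ 2` generators; `exists_OR_sub`: the same for its subgroups of finite index.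
-/

namespace Pool.Agent.MelD

open Pool.Agent.MelG (HasRel IsMelnikov)

/-- Residually finite, and all finite index subgroups have presentations with at most `m` relators. -/
def Hyp (m : ℕ) (G : Type) [Group G] : Prop :=
  (∀ g : G, g ≠ 1 → ∃ H : Subgroup G, H.FiniteIndex ∧ g ∉ H) ∧
    ∀ H : Subgroup G, H.FiniteIndex → HasRel m H

theorem hyp_one_iff (G : Type) [Group G] : Hyp 1 G ↔ IsMelnikov G := Iff.rfl

theorem finIdx_comap {G G' : Type} [Group G] [Group G'] (f : G' →* G) (U : Subgroup G)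
    (hU : U.FiniteIndex) : (U.comap f).FiniteIndex := by
  constructor
  rw [Subgroup.index_comap]
  have h := hU
  have h1 : U.IsFiniteRelIndex f.range := Subgroup.isFiniteRelIndex_of_finiteIndex
  exact Subgroup.relIndex_ne_zero

theorem hasRel_congr {m : ℕ} {G H : Type} [Group G] [Group H] (e : G ≃* H) (h : HasRel m G) :
    HasRel m H := by
  obtain ⟨y, R, h1, h2, ⟨f⟩⟩ := h
  exact ⟨y, R, h1, h2, ⟨e.symm.trans f⟩⟩

theorem hasRel_mono {m m' : ℕ} (hm : m ≤ m') {G : Type} [Group G] (h : HasRel m G) :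
    HasRel m' G := by
  obtain ⟨y, R, h1, h2, h3⟩ := h
  exact ⟨y, R, h1, h2.trans hm, h3⟩

theorem hyp_mono {m m' : ℕ} (hm : m ≤ m') {G : Type} [Group G] (h : Hyp m G) : Hyp m' G :=
  ⟨h.1, fun H hH => hasRel_mono hm (h.2 H hH)⟩

/-- A presentation without relators is a presentation with the relator `1`. -/
theorem empty_equiv (y : ℕ) :
    Nonempty (PresentedGroup (∅ : Set (FreeGroup (Fin y))) ≃* OR (1 : FreeGroup (Fin y))) := by
  have h1 : Subgroup.normalClosure (∅ : Set (FreeGroup (Fin y))) =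
      Subgroup.normalClosure ({1} : Set (FreeGroup (Fin y))) := by
    rw [Subgroup.normalClosure_empty, eq_comm, eq_bot_iff]
    refine Subgroup.normalClosure_le_normal ?_
    intro x hx
    rw [Set.mem_singleton_iff.mp hx]
    exact Subgroup.one_mem _
  exact ⟨QuotientGroup.quotientMulEquivOfEq h1⟩

/-- The one-relator group with trivial relator is free. -/
theorem OR_one (y : ℕ) : Nonempty (OR (1 : FreeGroup (Fin y)) ≃* FreeGroup (Fin y)) := by
  have h1 : Subgroup.normalClosure ({1} : Set (FreeGroup (Fin y))) = ⊥ := by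
    rw [eq_bot_iff]
    refine Subgroup.normalClosure_le_normal ?_
    intro x hx
    rw [Set.mem_singleton_iff.mp hx]
    exact Subgroup.one_mem _
  exact ⟨(QuotientGroup.quotientMulEquivOfEq h1).trans QuotientGroup.quotientBot⟩

theorem hasRel_one {G : Type} [Group G] (h : HasRel 1 G) :
    ∃ (k : ℕ) (r : FreeGroup (Fin k)), Nonempty (G ≃* OR r) := by
  obtain ⟨y, R, h1, h2, ⟨f⟩⟩ := h
  rcases Nat.le_one_iff_eq_zero_or_eq_one.mp h2 with h3 | h3
  · rw [Set.ncard_eq_zero h1] at h3
    subst h3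
    obtain ⟨g⟩ := empty_equiv y
    exact ⟨y, 1, ⟨f.trans g⟩⟩
  · rw [Set.ncard_eq_one] at h3
    obtain ⟨r, rfl⟩ := h3
    exact ⟨y, r, ⟨f⟩⟩

theorem resfin_congr {G H : Type} [Group G] [Group H] (e : G ≃* H)
    (h : ∀ g : G, g ≠ 1 → ∃ U : Subgroup G, U.FiniteIndex ∧ g ∉ U) (g : H) (hg : g ≠ 1) :
    ∃ U : Subgroup H, U.FiniteIndex ∧ g ∉ U := by
  obtain ⟨U, h1, h2⟩ := h (e.symm g) (by
    intro h0
    apply hg
    rw [← e.apply_symm_apply g, h0, map_one])
  refine ⟨U.comap e.symm.toMonoidHom, finIdx_comap _ _ h1, ?_⟩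
  intro h3
  exact h2 h3

theorem hyp_congr {m : ℕ} {G H : Type} [Group G] [Group H] (e : G ≃* H) (h : Hyp m G) :
    Hyp m H := by
  refine ⟨resfin_congr e h.1, ?_⟩
  intro U hU
  have h1 : (U.comap e.toMonoidHom).FiniteIndex := finIdx_comap _ _ hU
  have h2 := h.2 _ h1
  refine hasRel_congr ?_ h2
  have h3 : (U.comap e.toMonoidHom).map e.toMonoidHom = U :=
    Subgroup.map_comap_eq_self_of_surjective e.surjective U
  exact (Subgroup.equivMapOfInjective (U.comap e.toMonoidHom) e.toMonoidHom e.injective).trans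
    (MulEquiv.subgroupCongr h3)

theorem resfin_sub {G : Type} [Group G]
    (h : ∀ g : G, g ≠ 1 → ∃ U : Subgroup G, U.FiniteIndex ∧ g ∉ U) (H : Subgroup G) (g : H)
    (hg : g ≠ 1) : ∃ U : Subgroup H, U.FiniteIndex ∧ g ∉ U := by
  obtain ⟨U, h1, h2⟩ := h g (by
    intro h0
    exact hg (Subtype.ext h0))
  refine ⟨U.comap H.subtype, finIdx_comap _ _ h1, ?_⟩
  intro h3
  exact h2 h3

theorem hyp_sub {m : ℕ} {G : Type} [Group G] (h : Hyp m G) (H : Subgroup G) (hH : H.FiniteIndex) :
    Hyp m H := by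
  refine ⟨resfin_sub h.1 H, ?_⟩
  intro U hU
  have h1 : (U.map H.subtype).FiniteIndex := by
    constructor
    rw [Subgroup.index_map_subtype]
    exact Nat.mul_ne_zero hU.index_ne_zero hH.index_ne_zero
  exact hasRel_congr (Subgroup.equivMapOfInjective U H.subtype H.subtype_injective).symm (h.2 _ h1)

theorem melnikov_congr {G H : Type} [Group G] [Group H] (e : G ≃* H) (h : IsMelnikov G) :
    IsMelnikov H := hyp_congr e h

theorem melnikov_sub {G : Type} [Group G] (h : IsMelnikov G) (H : Subgroup G)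
    (hH : H.FiniteIndex) : IsMelnikov H := hyp_sub h H hH

/-- Quotients of `FreeGroup (Fin k)`, `k ≤ 1`, are cyclic. -/
theorem isCyclic_OR {k : ℕ} (hk : k ≤ 1) (r : FreeGroup (Fin k)) : IsCyclic (OR r) := by
  rcases Nat.le_one_iff_eq_zero_or_eq_one.mp hk with h | h
  · subst h
    have h1 : Subsingleton (OR r) :=
      (PresentedGroup.mk_surjective ({r} : Set (FreeGroup (Fin 0)))).subsingleton
    exact inferInstance
  · subst h
    have h1 : IsCyclic (FreeGroup (Fin 1)) := by
      have h2 := isCyclic_of_surjective (FreeGroup.mulEquivIntOfUnique (α := Fin 1)).symm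
        (FreeGroup.mulEquivIntOfUnique (α := Fin 1)).symm.surjective
      exact h2
    exact isCyclic_of_surjective (PresentedGroup.mk ({r} : Set (FreeGroup (Fin 1))))
      (PresentedGroup.mk_surjective _)

/-- A one-relator group that is not cyclic and not free has a presentation on at least two generators
with a nontrivial relator. -/
theorem exists_OR_of {G : Type} [Group G] (h : HasRel 1 G) (hc : ¬ IsCyclic G)
    (hf : ∀ n : ℕ, IsEmpty (G ≃* FreeGroup (Fin n))) :
    ∃ (k : ℕ) (r : FreeGroup (Fin k)), 2 ≤ k ∧ r ≠ 1 ∧ Nonempty (G ≃* OR r) := by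
  obtain ⟨k, r, ⟨e⟩⟩ := hasRel_one h
  refine ⟨k, r, ?_, ?_, ⟨e⟩⟩
  · by_contra hk
    have h1 := isCyclic_OR (show k ≤ 1 by omega) r
    exact hc (isCyclic_of_surjective e.symm e.symm.surjective)
  · rintro rfl
    obtain ⟨f⟩ := OR_one k
    exact (hf k).false (e.trans f)

theorem exists_OR {G : Type} [Group G] (h : IsMelnikov G) (hc : ¬ IsCyclic G)
    (hf : ∀ n : ℕ, IsEmpty (G ≃* FreeGroup (Fin n))) :
    ∃ (k : ℕ) (r : FreeGroup (Fin k)), 2 ≤ k ∧ r ≠ 1 ∧ Nonempty (G ≃* OR r) ∧ IsMelnikov (OR r) := by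
  have h1 : HasRel 1 G :=
    hasRel_congr Subgroup.topEquiv (h.2 ⊤ inferInstance)
  obtain ⟨k, r, hk, hr, ⟨e⟩⟩ := exists_OR_of h1 hc hf
  exact ⟨k, r, hk, hr, ⟨e⟩, melnikov_congr e h⟩

theorem exists_OR_sub {G : Type} [Group G] (h : IsMelnikov G) (H : Subgroup G) (hH : H.FiniteIndex)
    (hc : ¬ IsCyclic H) (hf : ∀ n : ℕ, IsEmpty (H ≃* FreeGroup (Fin n))) :
    ∃ (k : ℕ) (r : FreeGroup (Fin k)), 2 ≤ k ∧ r ≠ 1 ∧ Nonempty (H ≃* OR r) ∧ IsMelnikov (OR r) :=
  exists_OR (melnikov_sub h H hH) hc hf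

end Pool.Agent.MelD
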