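import Pool.Agent.MelD.Proj
import Pool.Agent.MelD.Wrap

/-!
# Closed subgroups of infinite index, for abstract groups

`G` a one-relator group all of whose finite index normal subgroups have presentations with at most `m`
relators, `S` a closed subgroup of infinite index.
-/

namespace Pool.Agent.MelD

open Pool.Agent.MelG (HasRel)

/-- Homomorphisms of free groups lift. -/
theorem lift_of_free {S : Type} [Group S] [IsFreeGroup S] {P : Type} [Group P] (A : Subgroup P)
    [A.Normal] (φ₀ : S →* P ⧸ A) :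
    ∃ φ : S →* P, ∀ s, (QuotientGroup.mk (φ s) : P ⧸ A) = φ₀ s := by
  let μ : S →* P := IsFreeGroup.lift fun b => Quotient.out (φ₀ (IsFreeGroup.of b))
  refine ⟨μ, ?_⟩
  have h1 : (QuotientGroup.mk' A).comp μ = φ₀ := by
    refine IsFreeGroup.ext_hom fun b => ?_
    show (QuotientGroup.mk (μ (IsFreeGroup.of b)) : P ⧸ A) = φ₀ (IsFreeGroup.of b)
    rw [IsFreeGroup.lift_of]
    exact QuotientGroup.out_eq' _
  exact fun t => DFunLike.congr_fun h1 t

/-- A one-relator group with a nontrivial relator on at most one generator is finite. -/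
theorem finite_OR {k : ℕ} (hk : k ≤ 1) (r : FreeGroup (Fin k)) (hr1 : r ≠ 1) : Finite (OR r) := by
  rcases Nat.le_one_iff_eq_zero_or_eq_one.mp hk with h | h
  · subst h
    exact absurd (Subsingleton.elim r 1) hr1
  · subst h
    have h1 : ∀ w : FreeGroup (Fin 1), ∃ n : ℤ, FreeGroup.of 0 ^ n = w := by
      intro w
      induction w using FreeGroup.induction_on with
      | C1 => exact ⟨0, zpow_zero _⟩
      | of i =>
        refine ⟨1, ?_⟩
        rw [zpow_one, Subsingleton.elim i 0]
      | inv_of i h =>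
        obtain ⟨n, hn⟩ := h
        exact ⟨-n, by rw [zpow_neg, hn]⟩
      | mul a b ha hb =>
        obtain ⟨n, hn⟩ := ha
        obtain ⟨n', hn'⟩ := hb
        exact ⟨n + n', by rw [zpow_add, hn, hn']⟩
    obtain ⟨n, hn⟩ := h1 r
    have hn0 : n ≠ 0 := by
      rintro rfl
      exact hr1 hn.symm
    let x : OR r := PresentedGroup.mk {r} (FreeGroup.of 0)
    have hx : IsOfFinOrder x := by
      rw [isOfFinOrder_iff_zpow_eq_one]
      refine ⟨n, hn0, ?_⟩
      show (PresentedGroup.mk {r} (FreeGroup.of 0)) ^ n = 1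
      rw [← map_zpow, hn, mk_rel]
    have h2 : (Subgroup.zpowers x : Set (OR r)) = Set.univ := by
      rw [Set.eq_univ_iff_forall]
      intro y
      obtain ⟨w, rfl⟩ := PresentedGroup.mk_surjective _ y
      obtain ⟨n, rfl⟩ := h1 w
      exact ⟨n, (map_zpow _ _ _).symm⟩
    have h3 := finite_zpowers.mpr hx
    rw [h2] at h3
    exact Set.finite_univ_iff.mp h3

/-- Transport of the hypotheses to a presented group. -/
theorem closed_transport {G : Type} [Group G] {k : ℕ} (r : FreeGroup (Fin k)) (e : G ≃* OR r)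
    (m : ℕ) (H : ∀ N : Subgroup G, N.Normal → N.FiniteIndex → HasRel m N) :
    ∀ N : Subgroup (OR r), N.Normal → N.FiniteIndex → HasRel m N := by
  intro N hN hf
  have h1 : (N.comap e.toMonoidHom).Normal := hN.comap _
  have h2 : (N.comap e.toMonoidHom).FiniteIndex := finIdx_comap _ _ hf
  have h3 := H _ h1 h2
  have h4 : (N.comap e.toMonoidHom).map e.toMonoidHom = N :=
    Subgroup.map_comap_eq_self_of_surjective e.surjective N
  exact hasRel_congr ((Subgroup.equivMapOfInjective (N.comap e.toMonoidHom) e.toMonoidHom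
    e.injective).trans (MulEquiv.subgroupCongr h4)) h3

theorem closed_map {G G' : Type} [Group G] [Group G'] (e : G ≃* G') (S : Subgroup G)
    (hS : IsProClosed S) : IsProClosed (S.map e.toMonoidHom) := by
  intro x hx
  have h1 : e.symm x ∉ S := by
    intro h
    exact hx ⟨e.symm x, h, e.apply_symm_apply x⟩
  obtain ⟨U, hU, hSU, hxU⟩ := hS _ h1
  refine ⟨U.comap e.symm.toMonoidHom, finIdx_comap _ _ hU, ?_, hxU⟩
  rintro _ ⟨y, hy, rfl⟩
  show e.symm (e y) ∈ U
  rw [e.symm_apply_apply]
  exact hSU hy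

/-- If `S` is closed and `G` induces the profinite topology of `S`, then the finite index subgroups of `S`
are closed. -/
theorem closed_of_full {G : Type} [Group G] (S : Subgroup G) (hS : IsProClosed S)
    (hfull : ∀ V : Subgroup S, V.FiniteIndex → ∃ U : Subgroup G, U.FiniteIndex ∧ U.subgroupOf S ≤ V)
    (V : Subgroup S) (hV : V.FiniteIndex) : IsProClosed (V.map S.subtype) := by
  intro x hx
  by_cases hxS : x ∈ S
  · obtain ⟨U, hU, hUV⟩ := hfull V hV
    have hcf : U.normalCore.FiniteIndex := inferInstance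
    refine ⟨V.map S.subtype ⊔ U.normalCore, Subgroup.finiteIndex_of_le le_sup_right, le_sup_left, ?_⟩
    intro h
    obtain ⟨v, hv, u, hu, hvu⟩ := Subgroup.mem_sup_of_normal_right.mp h
    obtain ⟨v', hv', rfl⟩ := hv
    have huS : u ∈ S := by
      have h1 : u = (v'.1)⁻¹ * x := by
        rw [← hvu]
        show u = v'.1⁻¹ * (v'.1 * u)
        rw [inv_mul_cancel_left]
      rw [h1]
      exact S.mul_mem (S.inv_mem v'.2) hxS
    have huV : (⟨u, huS⟩ : S) ∈ V := hUV (U.normalCore_le hu)
    exact hx ⟨v' * ⟨u, huS⟩, V.mul_mem hv' huV, hvu⟩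
  · obtain ⟨U, hU, hSU, hxU⟩ := hS x hxS
    refine ⟨U, hU, ?_, hxU⟩
    rintro _ ⟨y, _, rfl⟩
    exact hSU y.2

/-- Either homomorphisms of the subgroup lift always, or the group is a one-relator group `OR r`. -/
theorem cases_G {G : Type} [Group G] (h1 : HasRel 1 G) (S : Subgroup G) (hinf : ¬ S.FiniteIndex) :
    IsFreeGroup S ∨ ∃ (k : ℕ) (r : FreeGroup (Fin k)), 2 ≤ k ∧ r ≠ 1 ∧ Nonempty (G ≃* OR r) := by
  obtain ⟨k, r, ⟨e⟩⟩ := hasRel_one h1
  by_cases hr : r = 1
  · left
    subst hr
    obtain ⟨f⟩ := OR_one k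
    have h2 : IsFreeGroup G := IsFreeGroup.ofMulEquiv (e.trans f).symm
    exact inferInstance
  · right
    refine ⟨k, r, ?_, hr, ⟨e⟩⟩
    by_contra hk
    have h2 : Finite (OR r) := finite_OR (by omega) r hr
    have h3 : Finite G := Finite.of_injective e e.injective
    exact hinf inferInstance

/-- Transport of lifting problems. -/
theorem lift_congr {S S' : Type} [Group S] [Group S'] (e : S ≃* S') {P : Type} [Group P]
    (A : Subgroup P) [A.Normal]
    (h : ∀ φ₀ : S' →* P ⧸ A, ∃ φ : S' →* P, ∀ s, (QuotientGroup.mk (φ s) : P ⧸ A) = φ₀ s)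
    (φ₀ : S →* P ⧸ A) : ∃ φ : S →* P, ∀ s, (QuotientGroup.mk (φ s) : P ⧸ A) = φ₀ s := by
  obtain ⟨φ, hφ⟩ := h (φ₀.comp e.symm.toMonoidHom)
  refine ⟨φ.comp e.toMonoidHom, fun s => ?_⟩
  have h1 := hφ (e s)
  show (QuotientGroup.mk (φ (e s)) : P ⧸ A) = φ₀ s
  rw [h1]
  show φ₀ (e.symm (e s)) = φ₀ s
  rw [e.symm_apply_apply]

/-- A closed subgroup of infinite index is not isomorphic to a one-relator group with a nontrivial
relator in `[F, F] F ^ p`. -/
theorem closed_not_OR (m : ℕ) (G : Type) [Group G] (h1 : HasRel 1 G)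
    (H : ∀ N : Subgroup G, N.Normal → N.FiniteIndex → HasRel m N) (S : Subgroup G)
    (hinf : ¬ S.FiniteIndex) (hS : IsProClosed S) (p : ℕ) (hp : p.Prime) {n : ℕ}
    (s : FreeGroup (Fin n)) (hs1 : s ≠ 1)
    (hs : s ∈ VT p (⊤ : Subgroup (FreeGroup (Fin n)))) : IsEmpty (OR s ≃* S) := by
  have : Fact p.Prime := ⟨hp⟩
  rcases cases_G h1 S hinf with hfree | ⟨k, r, hk, hr1, ⟨e⟩⟩
  · exact not_OR_of_lift p (fun _ _ _ A _ _ _ φ₀ => lift_of_free A φ₀) s hs1 hs
  · have hinf' : ¬ (S.map e.toMonoidHom).FiniteIndex := by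
      intro h
      apply hinf
      have h2 := finIdx_comap e.toMonoidHom _ h
      rwa [Subgroup.comap_map_eq_self_of_injective e.injective] at h2
    have h3 := not_one_relator hk r hr1 m (closed_transport r e m H) (S.map e.toMonoidHom)
      (closed_map e S hS) hinf' p s hs1 hs
    exact ⟨fun f => h3.false (f.trans (Subgroup.equivMapOfInjective S e.toMonoidHom e.injective))⟩

/-- Finite embedding problems for closed subgroups of infinite index with the induced topology. -/
theorem closed_projective (m : ℕ) (G : Type) [Group G] (h1 : HasRel 1 G)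
    (H : ∀ N : Subgroup G, N.Normal → N.FiniteIndex → HasRel m N) (S : Subgroup G)
    (hinf : ¬ S.FiniteIndex) (hS : IsProClosed S)
    (hfull : ∀ V : Subgroup S, V.FiniteIndex → ∃ U : Subgroup G, U.FiniteIndex ∧ U.subgroupOf S ≤ V)
    (P : Type) [Group P] [Finite P] (N : Subgroup P) [N.Normal] (φ₀ : S →* P ⧸ N) :
    ∃ φ : S →* P, ∀ s, (QuotientGroup.mk (φ s) : P ⧸ N) = φ₀ s := by
  rcases cases_G h1 S hinf with hfree | ⟨k, r, hk, hr1, ⟨e⟩⟩
  · exact lift_of_free N φ₀
  · have hinf' : ¬ (S.map e.toMonoidHom).FiniteIndex := by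
      intro h
      apply hinf
      have h2 := finIdx_comap e.toMonoidHom _ h
      rwa [Subgroup.comap_map_eq_self_of_injective e.injective] at h2
    let e' : S ≃* S.map e.toMonoidHom := Subgroup.equivMapOfInjective S e.toMonoidHom e.injective
    refine lift_congr e' N (fun ψ => ?_) φ₀
    refine projective hk r hr1 m (closed_transport r e m H) (S.map e.toMonoidHom) hinf' ?_
      (Nat.card P) P le_rfl N ψ
    intro V hV
    have hV' : (V.comap e'.toMonoidHom).FiniteIndex := finIdx_comap _ _ hV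
    have h2 := closed_map e _ (closed_of_full S hS hfull (V.comap e'.toMonoidHom) hV')
    have h3 : ((V.comap e'.toMonoidHom).map S.subtype).map e.toMonoidHom =
        V.map (S.map e.toMonoidHom).subtype := by
      ext x
      constructor
      · rintro ⟨_, ⟨y, hy, rfl⟩, rfl⟩
        exact ⟨e' y, hy, rfl⟩
      · rintro ⟨y, hy, rfl⟩
        refine ⟨(e'.symm y).1, ⟨e'.symm y, ?_, rfl⟩, ?_⟩
        · show e' (e'.symm y) ∈ V
          rw [e'.apply_symm_apply]
          exact hy
        · have h4 : e' (e'.symm y) = y := e'.apply_symm_apply y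
          exact congrArg Subtype.val h4
    rw [← h3]
    exact h2

end Pool.Agent.MelD
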