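import Pool.Agent.MelD.Def

/-!
# Crossed homomorphisms of presented groups

`presL`: the crossed homomorphisms of a presented group are the families of values at the generators
for which the crossed homomorphism of the free group vanishes at all relators.
-/

open Finset Module

namespace Pool.Agent.MelD

open Pool.Agent.MelG (HasRel)

section pres

variable {K : Type*} [Field K] {V : Type*} [AddCommGroup V] [Module K V] {y : ℕ}

private theorem z1_one {G : Type*} [Group G] {ρ : G →* Module.End K V} {c : G → V}
    (hc : c ∈ Z1 ρ) : c 1 = 0 := by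
  have h := hc 1 1
  rw [mul_one, map_one] at h
  have h2 : c 1 = c 1 + c 1 := h
  exact left_eq_add.mp h2

/-- The values at the generators of the crossed homomorphisms vanishing at all relators. -/
private def valS (R : Set (FreeGroup (Fin y))) (φ : FreeGroup (Fin y) →* Module.End K V) :
    Submodule K (Fin y → V) where
  carrier := {v | ∀ s ∈ R, ev φ s v = 0}
  add_mem' := by
    intro a b ha hb s hs
    rw [map_add, ha s hs, hb s hs, add_zero]
  zero_mem' := by
    intro s _
    exact map_zero _
  smul_mem' := by
    intro x a ha s hs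
    rw [map_smul, ha s hs, smul_zero]

private theorem coc_descends (R : Set (FreeGroup (Fin y)))
    (ρ : PresentedGroup R →* Module.End K V) (v : Fin y → V)
    (hv : v ∈ valS R (ρ.comp (PresentedGroup.mk R)))
    (n : FreeGroup (Fin y)) (hn : n ∈ Subgroup.normalClosure R) :
    coc (ρ.comp (PresentedGroup.mk R)) v n = 0 := by
  set φ := ρ.comp (PresentedGroup.mk R) with hφd
  have hφ : ∀ m ∈ Subgroup.normalClosure R, φ m = 1 := by
    intro m hm
    have h1 : PresentedGroup.mk R m = 1 := (QuotientGroup.eq_one_iff m).mpr hm
    rw [hφd, MonoidHom.comp_apply, h1, map_one]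
  let N : Subgroup (FreeGroup (Fin y)) :=
    { carrier := {g | φ g = 1 ∧ coc φ v g = 0}
      mul_mem' := by
        rintro a b ⟨ha, ha'⟩ ⟨hb, hb'⟩
        refine ⟨?_, ?_⟩
        · rw [map_mul, ha, hb, one_mul]
        · rw [coc_mul, ha', hb', smul_zero, add_zero]
      one_mem' := ⟨map_one _, coc_one _ _⟩
      inv_mem' := by
        rintro a ⟨ha, ha'⟩
        refine ⟨?_, ?_⟩
        · have h1 : φ a⁻¹ * φ a = 1 := by rw [← map_mul, inv_mul_cancel, map_one]
          rw [ha, mul_one] at h1
          exact h1
        · rw [coc_inv, ha', smul_zero, neg_zero] }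
  have hN : N.Normal := by
    refine ⟨?_⟩
    rintro a ⟨ha, ha'⟩ g
    refine ⟨?_, ?_⟩
    · show φ (g * a * g⁻¹) = 1
      rw [map_mul, map_mul, ha, mul_one, ← map_mul, mul_inv_cancel, map_one]
    · show coc φ v (g * a * g⁻¹) = 0
      rw [coc_mul, coc_mul, ha', smul_zero, add_zero, map_mul, ha, mul_one, ← coc_mul,
        mul_inv_cancel, coc_one]
  have hr : R ⊆ N := by
    intro x hx
    exact ⟨hφ _ (Subgroup.subset_normalClosure hx), hv x hx⟩
  exact (Subgroup.normalClosure_le_normal hr hn).2

private theorem coc_congr (R : Set (FreeGroup (Fin y)))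
    (ρ : PresentedGroup R →* Module.End K V) (v : Fin y → V)
    (hv : v ∈ valS R (ρ.comp (PresentedGroup.mk R)))
    (a b : FreeGroup (Fin y)) (hab : PresentedGroup.mk R a = PresentedGroup.mk R b) :
    coc (ρ.comp (PresentedGroup.mk R)) v a = coc (ρ.comp (PresentedGroup.mk R)) v b := by
  have h1 : a⁻¹ * b ∈ Subgroup.normalClosure R := by
    rw [← QuotientGroup.eq_one_iff]
    show PresentedGroup.mk R (a⁻¹ * b) = 1
    rw [map_mul, map_inv, hab, inv_mul_cancel]
  have h2 := coc_descends R ρ v hv _ h1
  have h3 : b = a * (a⁻¹ * b) := by group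
  rw [h3, coc_mul, h2, smul_zero, add_zero]

private theorem z1_eq_coc (R : Set (FreeGroup (Fin y)))
    (ρ : PresentedGroup R →* Module.End K V) (c : Z1 ρ) (w : FreeGroup (Fin y)) :
    c.1 (PresentedGroup.mk R w) = coc (ρ.comp (PresentedGroup.mk R))
      (fun j => c.1 (PresentedGroup.mk R (FreeGroup.of j))) w := by
  refine coc_unique (ρ.comp (PresentedGroup.mk R)) (fun w => c.1 (PresentedGroup.mk R w))
    (coc (ρ.comp (PresentedGroup.mk R)) (fun j => c.1 (PresentedGroup.mk R (FreeGroup.of j))))
    ?_ (coc_mul (ρ.comp (PresentedGroup.mk R)) _) ?_ w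
  · intro g h
    show c.1 (PresentedGroup.mk R (g * h)) = _
    rw [map_mul]
    exact c.2 _ _
  · intro j
    exact (coc_of (ρ.comp (PresentedGroup.mk R)) (fun j => c.1 (PresentedGroup.mk R (FreeGroup.of j))) j).symm

/-- The values at the generators. -/
private def presM (R : Set (FreeGroup (Fin y)))
    (ρ : PresentedGroup R →* Module.End K V) :
    Z1 ρ →ₗ[K] valS R (ρ.comp (PresentedGroup.mk R)) where
  toFun c := ⟨fun j => c.1 (PresentedGroup.mk R (FreeGroup.of j)), by
    intro s hs
    rw [ev_apply, ← z1_eq_coc R ρ c s]
    have h2 : PresentedGroup.mk R s = 1 := PresentedGroup.one_of_mem hs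
    rw [h2]
    exact z1_one c.2⟩
  map_add' := by intro a b; rfl
  map_smul' := by intro a b; rfl

private theorem presM_bij (R : Set (FreeGroup (Fin y)))
    (ρ : PresentedGroup R →* Module.End K V) : Function.Bijective (presM R ρ) := by
  constructor
  · intro a b hab
    apply Subtype.ext
    funext g
    obtain ⟨w, rfl⟩ := PresentedGroup.mk_surjective R g
    have h2 : (fun j => a.1 (PresentedGroup.mk R (FreeGroup.of j))) =
        fun j => b.1 (PresentedGroup.mk R (FreeGroup.of j)) := congrArg Subtype.val hab
    rw [z1_eq_coc R ρ a w, z1_eq_coc R ρ b w, h2]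
  · intro vv
    obtain ⟨v, hv⟩ := vv
    have hs : ∀ g : PresentedGroup R,
        PresentedGroup.mk R (Function.surjInv (PresentedGroup.mk_surjective R) g) = g :=
      Function.surjInv_eq _
    refine ⟨⟨fun g => coc (ρ.comp (PresentedGroup.mk R)) v
      (Function.surjInv (PresentedGroup.mk_surjective R) g), ?_⟩, ?_⟩
    · intro g h
      show coc (ρ.comp (PresentedGroup.mk R)) v _ = coc (ρ.comp (PresentedGroup.mk R)) v _ + _
      rw [coc_congr R ρ v hv (Function.surjInv (PresentedGroup.mk_surjective R) (g * h))
        (Function.surjInv (PresentedGroup.mk_surjective R) g *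
          Function.surjInv (PresentedGroup.mk_surjective R) h) (by rw [map_mul, hs, hs, hs]),
        coc_mul, MonoidHom.comp_apply, hs]
      rfl
    · apply Subtype.ext
      funext j
      show coc (ρ.comp (PresentedGroup.mk R)) v _ = v j
      rw [coc_congr R ρ v hv _ (FreeGroup.of j) (hs _), coc_of]

/-- Crossed homomorphisms of a presented group are given by their values at the generators. -/
private noncomputable def presL (R : Set (FreeGroup (Fin y)))
    (ρ : PresentedGroup R →* Module.End K V) :
    Z1 ρ ≃ₗ[K] valS R (ρ.comp (PresentedGroup.mk R)) :=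
  LinearEquiv.ofBijective (presM R ρ) (presM_bij R ρ)

end pres

/-- A crossed homomorphism of a one-relator group is given by its values `v` at the generators with
`ev ρ r v = 0`. -/
theorem finite_Z1_OR {K : Type*} [Field K] {V : Type*} [AddCommGroup V] [Module K V]
    [FiniteDimensional K V] {k : ℕ} (r : FreeGroup (Fin k)) (ρ : OR r →* Module.End K V) :
    FiniteDimensional K (Z1 ρ) :=
  Module.Finite.equiv (presL ({r} : Set (FreeGroup (Fin k))) ρ).symm

theorem finrank_Z1_OR {K : Type*} [Field K] {V : Type*} [AddCommGroup V] [Module K V]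
    [FiniteDimensional K V] {k : ℕ} (r : FreeGroup (Fin k)) (ρ : OR r →* Module.End K V) :
    finrank K (Z1 ρ) +
      finrank K (LinearMap.range (ev (ρ.comp (PresentedGroup.mk ({r} : Set (FreeGroup (Fin k))))) r))
      = k * finrank K V := by
  have h1 : valS ({r} : Set (FreeGroup (Fin k))) (ρ.comp (PresentedGroup.mk {r})) =
      LinearMap.ker (ev (ρ.comp (PresentedGroup.mk ({r} : Set (FreeGroup (Fin k))))) r) := by
    ext v
    rw [LinearMap.mem_ker]
    constructor
    · intro h
      exact h r rfl
    · intro h s hs
      rw [Set.mem_singleton_iff.mp hs]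
      exact h
  rw [LinearEquiv.finrank_eq (presL ({r} : Set (FreeGroup (Fin k))) ρ), h1, add_comm,
    LinearMap.finrank_range_add_finrank_ker, Module.finrank_pi_fintype]
  simp

/-- The number of generators of a presentation with at most `m` relators, compared with the dimension
of the space of crossed homomorphisms with values in any representation over any field. -/
theorem pres_bounds {m : ℕ} {H : Type} [Group H] (h : HasRel m H) :
    ∃ y : ℕ, ∀ (K : Type) (_ : Field K) (V : Type) (_ : AddCommGroup V) (_ : Module K V)
      (_ : FiniteDimensional K V) (ρ : H →* Module.End K V),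
      finrank K (Z1 ρ) ≤ y * finrank K V ∧
      y * finrank K V ≤ finrank K (Z1 ρ) + m * finrank K V := by
  obtain ⟨y, R, hRf, hRm, ⟨e⟩⟩ := h
  refine ⟨y, ?_⟩
  intro K _ V _ _ _ ρ
  set ρ' : PresentedGroup R →* Module.End K V := ρ.comp e.symm.toMonoidHom with hρ'
  have hE : Z1 ρ ≃ₗ[K] Z1 ρ' :=
    { toFun := fun c => ⟨fun g => c.1 (e.symm g), by
        intro g h
        show c.1 (e.symm (g * h)) = _
        rw [map_mul]
        exact c.2 _ _⟩
      map_add' := by intro a b; rfl
      map_smul' := by intro a b; rfl
      invFun := fun c => ⟨fun g => c.1 (e g), by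
        intro g h
        show c.1 (e (g * h)) = _
        rw [map_mul]
        have h1 := c.2 (e g) (e h)
        rw [h1]
        have h2 : ρ' (e g) = ρ g := by
          rw [hρ']
          show ρ (e.symm (e g)) = ρ g
          rw [MulEquiv.symm_apply_apply]
        rw [h2]⟩
      left_inv := by
        intro c
        apply Subtype.ext
        funext g
        show c.1 (e.symm (e g)) = c.1 g
        rw [MulEquiv.symm_apply_apply]
      right_inv := by
        intro c
        apply Subtype.ext
        funext g
        show c.1 (e (e.symm g)) = c.1 g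
        rw [MulEquiv.apply_symm_apply] }
  have h0 : finrank K (Z1 ρ) = finrank K (valS R (ρ'.comp (PresentedGroup.mk R))) := by
    rw [LinearEquiv.finrank_eq hE, LinearEquiv.finrank_eq (presL R ρ')]
  have hd : finrank K (Fin y → V) = y * finrank K V := by
    rw [Module.finrank_pi_fintype]
    simp
  let _ : Fintype R := hRf.fintype
  let T : (Fin y → V) →ₗ[K] (R → V) := LinearMap.pi (fun s => ev (ρ'.comp (PresentedGroup.mk R)) s.1)
  have hk : valS R (ρ'.comp (PresentedGroup.mk R)) = LinearMap.ker T := by
    ext v
    rw [LinearMap.mem_ker]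
    constructor
    · intro h
      funext s
      exact h s.1 s.2
    · intro h s hs
      exact congrFun h ⟨s, hs⟩
  have hrn := LinearMap.finrank_range_add_finrank_ker T
  rw [hd, ← hk, ← h0] at hrn
  have hcR : finrank K (R → V) ≤ m * finrank K V := by
    rw [Module.finrank_pi_fintype]
    simp only [sum_const, card_univ, smul_eq_mul]
    refine Nat.mul_le_mul_right _ ?_
    rw [← Nat.card_eq_fintype_card, Nat.card_coe_set_eq]
    exact hRm
  have hr : finrank K (LinearMap.range T) ≤ finrank K (R → V) := Submodule.finrank_le _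
  refine ⟨?_, ?_⟩
  · omega
  · omega

end Pool.Agent.MelD
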