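import Pool.Agent.MelD.NiceL

/-!
# Elements of `ℤ[L]` that are right invertible modulo all primes
-/

open Finset

namespace Pool.Agent.MelD

/-- Right invertible elements of the group algebra of a free group over a field are monomials
(`TwoUniqueProds` from `uniqueProds_free`). -/
theorem monomial_of_mul_eq_one {K : Type} [Field K] {l : ℕ}
    (u v : MonoidAlgebra K (FreeGroup (Fin l))) (h : u * v = 1) :
    ∃ g c, c ≠ 0 ∧ u = MonoidAlgebra.single g c := by
  classical
  have := uniqueProds_free l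
  have : TwoUniqueProds (FreeGroup (Fin l)) := UniqueProds.toTwoUniqueProds_of_group
  have hu : u ≠ 0 := by
    rintro rfl
    rw [zero_mul] at h
    exact zero_ne_one h
  have hv : v ≠ 0 := by
    rintro rfl
    rw [mul_zero] at h
    exact zero_ne_one h
  have hu1 : u.coeff.support.Nonempty := by
    rw [Finsupp.support_nonempty_iff]
    intro h1
    apply hu
    ext x
    rw [h1]
    rfl
  have hv1 : v.coeff.support.Nonempty := by
    rw [Finsupp.support_nonempty_iff]
    intro h1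
    apply hv
    ext x
    rw [h1]
    rfl
  have key : ∀ a b, a ∈ u.coeff.support → b ∈ v.coeff.support →
      UniqueMul u.coeff.support v.coeff.support a b → a * b = 1 := by
    intro a b ha hb hab
    by_contra hne
    have h2 := MonoidAlgebra.coeff_mul_mul_of_uniqueMul hab
    rw [h, MonoidAlgebra.one_def, MonoidAlgebra.coeff_single, Finsupp.single_apply,
      if_neg (Ne.symm hne)] at h2
    exact mul_ne_zero (Finsupp.mem_support_iff.mp ha) (Finsupp.mem_support_iff.mp hb) h2.symm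
  have hcard : ¬ 1 < #u.coeff.support * #v.coeff.support := by
    intro hc
    obtain ⟨p1, hp1, p2, hp2, hne, h1, h2⟩ := TwoUniqueProds.uniqueMul_of_one_lt_card hc
    rw [mem_product] at hp1 hp2
    have e1 := key p1.1 p1.2 hp1.1 hp1.2 h1
    have e2 := key p2.1 p2.2 hp2.1 hp2.2 h2
    obtain ⟨h3, h4⟩ := h1 hp2.1 hp2.2 (e2.trans e1.symm)
    exact hne (Prod.ext h3.symm h4.symm)
  have hu2 := hu1.card_pos
  have hv2 := hv1.card_pos
  have hu3 : #u.coeff.support = 1 := by
    by_contra hne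
    apply hcard
    have : 2 ≤ #u.coeff.support := by omega
    nlinarith
  obtain ⟨g, c, hc, hgc⟩ := Finsupp.card_support_eq_one'.mp hu3
  refine ⟨g, c, hc, ?_⟩
  ext x
  rw [hgc]
  rfl

theorem monomial_of_mod_primes {l : ℕ} (ρ : MonoidAlgebra ℤ (FreeGroup (Fin l)))
    (h : ∀ (p : ℕ) (_ : Fact p.Prime), ∃ v : MonoidAlgebra (ZMod p) (FreeGroup (Fin l)),
      MonoidAlgebra.mapRingHom (FreeGroup (Fin l)) (Int.castRingHom (ZMod p)) ρ * v = 1) :
    ∃ g, ρ = MonoidAlgebra.single g 1 ∨ ρ = MonoidAlgebra.single g (-1) := by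
  classical
  have hmod : ∀ p : ℕ, p.Prime → ∃ g, ¬ (p : ℤ) ∣ ρ.coeff g ∧
      ∀ x, x ≠ g → (p : ℤ) ∣ ρ.coeff x := by
    intro p hp
    have : Fact p.Prime := ⟨hp⟩
    obtain ⟨v, hv⟩ := h p ⟨hp⟩
    obtain ⟨g, c, hc, hg⟩ := monomial_of_mul_eq_one _ v hv
    have hcoef : ∀ x, ((ρ.coeff x : ℤ) : ZMod p) = if g = x then c else 0 := by
      intro x
      have h1 := congrArg (fun y : MonoidAlgebra (ZMod p) (FreeGroup (Fin l)) => y.coeff x) hg
      simp only [MonoidAlgebra.coeff_single, Finsupp.single_apply] at h1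
      rw [← h1]
      simp
    refine ⟨g, ?_, ?_⟩
    · rw [← ZMod.intCast_zmod_eq_zero_iff_dvd, hcoef, if_pos rfl]
      exact hc
    · intro x hx
      rw [← ZMod.intCast_zmod_eq_zero_iff_dvd, hcoef, if_neg (Ne.symm hx)]
  obtain ⟨p, hp1, hp⟩ := Nat.exists_infinite_primes
    (ρ.coeff.support.sup (fun x => (ρ.coeff x).natAbs) + 1)
  obtain ⟨g, hg1, hg2⟩ := hmod p hp
  have hsmall : ∀ x, (p : ℤ) ∣ ρ.coeff x → ρ.coeff x = 0 := by
    intro x hx
    by_contra hne
    have h1 : (ρ.coeff x).natAbs ≤ ρ.coeff.support.sup (fun x => (ρ.coeff x).natAbs) :=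
      le_sup (f := fun x => (ρ.coeff x).natAbs) (Finsupp.mem_support_iff.mpr hne)
    have h2 : p ∣ (ρ.coeff x).natAbs := Int.natCast_dvd.mp hx
    have h3 := Nat.le_of_dvd (Int.natAbs_pos.mpr hne) h2
    omega
  have hρ : ρ = MonoidAlgebra.single g (ρ.coeff g) := by
    ext x
    rw [MonoidAlgebra.coeff_single, Finsupp.single_apply]
    by_cases hx : g = x
    · rw [if_pos hx, hx]
    · rw [if_neg hx]
      exact hsmall x (hg2 x (Ne.symm hx))
  have hunit : (ρ.coeff g).natAbs = 1 := by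
    by_contra hne
    obtain ⟨q, hq, hqd⟩ := Nat.exists_prime_and_dvd hne
    obtain ⟨g', h1, h2⟩ := hmod q hq
    have h3 : (q : ℤ) ∣ ρ.coeff g := Int.natCast_dvd.mpr hqd
    by_cases hgg : g' = g
    · exact h1 (hgg ▸ h3)
    · apply h1
      have h4 : ρ.coeff g' = 0 := hsmall g' (hg2 g' hgg)
      rw [h4]
      exact dvd_zero _
  rcases Int.natAbs_eq (ρ.coeff g) with h1 | h1
  · refine ⟨g, Or.inl ?_⟩
    rw [hunit] at h1
    rw [hρ, h1]
    rfl
  · refine ⟨g, Or.inr ?_⟩
    rw [hunit] at h1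
    rw [hρ, h1]
    rfl

end Pool.Agent.MelD
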