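import Pool.Agent.MelD.Def

/-!
# The abelianization of the normal closure of a free generator

`F = FreeGroup (Fin (l + 1))`, `z` the last generator, `N` its normal closure,
`φ : F → L = FreeGroup (Fin l)` the homomorphism killing `z`.  `n ↦ ∂n/∂z` in `ℤ[L]` is injective on
`N / [N, N]`: the map `[u] ↦ s(u) z s(u)⁻¹` (`s : L → F` the section) extends to
`ℤ[L] → N / [N, N]`, and is a left inverse (check on the generators `g z g⁻¹` of `N`).
-/

open Finset

namespace Pool.Agent.MelD

/-- The homomorphism killing the last generator. -/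
def killLast (l : ℕ) : FreeGroup (Fin (l + 1)) →* FreeGroup (Fin l) :=
  FreeGroup.lift (Fin.lastCases 1 FreeGroup.of)

private abbrev NN (l : ℕ) : Subgroup (FreeGroup (Fin (l + 1))) :=
  Subgroup.normalClosure {FreeGroup.of (Fin.last l)}

private noncomputable abbrev ff (l : ℕ) : FreeGroup (Fin (l + 1)) →* MonoidAlgebra ℤ (FreeGroup (Fin l)) :=
  (MonoidAlgebra.of ℤ (FreeGroup (Fin l))).comp (killLast l)

private def sec (l : ℕ) : FreeGroup (Fin l) →* FreeGroup (Fin (l + 1)) :=
  FreeGroup.lift (fun i => FreeGroup.of i.castSucc)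

private theorem z_mem (l : ℕ) : FreeGroup.of (Fin.last l) ∈ NN l :=
  Subgroup.subset_normalClosure (Set.mem_singleton _)

private theorem conj_mem (l : ℕ) (g : FreeGroup (Fin (l + 1))) :
    g * FreeGroup.of (Fin.last l) * g⁻¹ ∈ NN l :=
  Subgroup.normalClosure_normal.conj_mem _ (z_mem l) g

/-- The class of `g z g⁻¹`. -/
private noncomputable def cl (l : ℕ) (g : FreeGroup (Fin (l + 1))) :
    Additive (Abelianization (NN l)) :=
  Additive.ofMul (Abelianization.of ⟨g * FreeGroup.of (Fin.last l) * g⁻¹, conj_mem l g⟩)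

private theorem sec_kill (l : ℕ) :
    ((QuotientGroup.mk' (NN l)).comp (sec l)).comp (killLast l) = QuotientGroup.mk' (NN l) := by
  ext i
  refine Fin.lastCases ?_ (fun j => ?_) i
  · simp only [MonoidHom.comp_apply, killLast, FreeGroup.lift_apply_of, Fin.lastCases_last, map_one]
    symm
    exact (QuotientGroup.eq_one_iff _).mpr (z_mem l)
  · simp only [MonoidHom.comp_apply, killLast, FreeGroup.lift_apply_of, Fin.lastCases_castSucc, sec]

private theorem sec_kill_mem (l : ℕ) (g : FreeGroup (Fin (l + 1))) :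
    g * (sec l (killLast l g))⁻¹ ∈ NN l := by
  have h := DFunLike.congr_fun (sec_kill l) g
  simp only [MonoidHom.comp_apply] at h
  rw [← QuotientGroup.eq_one_iff]
  show QuotientGroup.mk' (NN l) (g * (sec l (killLast l g))⁻¹) = 1
  rw [map_mul, map_inv, h, mul_inv_cancel]

private theorem kill_mem (l : ℕ) (n : FreeGroup (Fin (l + 1))) (hn : n ∈ NN l) :
    killLast l n = 1 := by
  have h1 : NN l ≤ (killLast l).ker :=
    Subgroup.normalClosure_le_normal (by
      intro x hx
      rw [Set.mem_singleton_iff.mp hx]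
      show killLast l _ = 1
      simp only [killLast, FreeGroup.lift_apply_of, Fin.lastCases_last])
  exact h1 hn

private theorem cl_mul (l : ℕ) (n g : FreeGroup (Fin (l + 1))) (hn : n ∈ NN l) :
    cl l (n * g) = cl l g := by
  unfold cl
  congr 1
  have h : (⟨n * g * FreeGroup.of (Fin.last l) * (n * g)⁻¹, conj_mem l (n * g)⟩ : NN l) =
      ⟨n, hn⟩ * ⟨g * FreeGroup.of (Fin.last l) * g⁻¹, conj_mem l g⟩ * (⟨n, hn⟩ : NN l)⁻¹ := by
    apply Subtype.ext
    simp only [Subgroup.coe_mul, Subgroup.coe_inv]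
    group
  rw [h, map_mul, map_mul, map_inv, mul_comm (Abelianization.of _), mul_assoc, mul_inv_cancel,
    mul_one]

private theorem cl_eq (l : ℕ) (g : FreeGroup (Fin (l + 1))) :
    cl l (sec l (killLast l g)) = cl l g := by
  have h := cl_mul l (g * (sec l (killLast l g))⁻¹) (sec l (killLast l g)) (sec_kill_mem l g)
  rw [inv_mul_cancel_right] at h
  exact h.symm

private noncomputable def theta (l : ℕ) :
    MonoidAlgebra ℤ (FreeGroup (Fin l)) →+ Additive (Abelianization (NN l)) :=
  (Finsupp.liftAddHom fun u =>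
    (smulAddHom ℤ (Additive (Abelianization (NN l)))).flip (cl l (sec l u))).comp
    MonoidAlgebra.coeffAddEquiv.toAddMonoidHom

private theorem theta_single (l : ℕ) (u : FreeGroup (Fin l)) (ε : ℤ) :
    theta l (MonoidAlgebra.single u ε) = ε • cl l (sec l u) := by
  show Finsupp.liftAddHom (fun u =>
    (smulAddHom ℤ (Additive (Abelianization (NN l)))).flip (cl l (sec l u)))
      (Finsupp.single u ε) = _
  rw [Finsupp.liftAddHom_apply_single]
  rfl

private theorem fox_conj (l : ℕ) (g : FreeGroup (Fin (l + 1))) :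
    fox (ff l) (Fin.last l) (g * FreeGroup.of (Fin.last l) * g⁻¹) =
      MonoidAlgebra.single (killLast l g) 1 := by
  have hz : ff l (FreeGroup.of (Fin.last l)) = 1 := by
    show MonoidAlgebra.of ℤ _ (killLast l _) = 1
    rw [kill_mem l _ (z_mem l), map_one]
  have hinv : fox (ff l) (Fin.last l) g⁻¹ = - (ff l g⁻¹ * fox (ff l) (Fin.last l) g) := by
    unfold fox
    rw [coc_inv, smul_eq_mul]
  rw [fox_mul, fox_mul, hinv, fox_of, if_pos rfl, mul_one, map_mul, hz, mul_one, mul_neg,
    ← mul_assoc, ← map_mul, mul_inv_cancel, map_one, one_mul, add_assoc, add_comm, add_assoc,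
    neg_add_cancel, add_zero]
  rfl

private theorem main (l : ℕ) (n : FreeGroup (Fin (l + 1))) (hn : n ∈ NN l) :
    (Additive.ofMul (Abelianization.of (⟨n, hn⟩ : NN l)) : Additive (Abelianization (NN l))) =
      theta l (fox (ff l) (Fin.last l) n) := by
  refine Subgroup.closure_induction (p := fun n hn =>
    (Additive.ofMul (Abelianization.of (⟨n, hn⟩ : NN l)) : Additive (Abelianization (NN l))) =
      theta l (fox (ff l) (Fin.last l) n)) ?_ ?_ ?_ ?_ hn
  · intro x hx
    obtain ⟨a, ha, hc⟩ := Group.mem_conjugatesOfSet_iff.mp hx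
    rw [Set.mem_singleton_iff.mp ha] at hc
    obtain ⟨g, rfl⟩ := isConj_iff.mp hc
    rw [fox_conj, theta_single, one_smul, cl_eq]
    rfl
  · have h1 : fox (ff l) (Fin.last l) 1 = 0 := coc_one _ _
    rw [h1, map_zero]
    have h2 : (⟨1, Subgroup.one_mem _⟩ : NN l) = 1 := rfl
    rw [h2, map_one]
    rfl
  · intro x y hx hy h1 h2
    have hx1 : ff l x = 1 := by
      show MonoidAlgebra.of ℤ _ (killLast l _) = 1
      rw [kill_mem l _ hx, map_one]
    rw [fox_mul, hx1, one_mul, map_add, ← h1, ← h2]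
    have h3 : (⟨x * y, Subgroup.mul_mem _ hx hy⟩ : NN l) = ⟨x, hx⟩ * ⟨y, hy⟩ := rfl
    rw [h3, map_mul]
    rfl
  · intro x hx h1
    have hx1 : ff l x⁻¹ = 1 := by
      show MonoidAlgebra.of ℤ _ (killLast l _) = 1
      rw [map_inv, kill_mem l _ hx, inv_one, map_one]
    have h2 : fox (ff l) (Fin.last l) x⁻¹ = - fox (ff l) (Fin.last l) x := by
      unfold fox
      rw [coc_inv, hx1, one_smul]
    rw [h2, map_neg, ← h1]
    have h3 : (⟨x⁻¹, Subgroup.inv_mem _ hx⟩ : NN l) = (⟨x, hx⟩)⁻¹ := rfl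
    rw [h3, map_inv]
    rfl

theorem nab {l : ℕ} (n : FreeGroup (Fin (l + 1)))
    (hn : n ∈ Subgroup.normalClosure {FreeGroup.of (Fin.last l)})
    (u : FreeGroup (Fin l)) (ε : ℤ)
    (h : fox ((MonoidAlgebra.of ℤ (FreeGroup (Fin l))).comp (killLast l)) (Fin.last l) n =
      MonoidAlgebra.single u ε) :
    ∃ g : FreeGroup (Fin (l + 1)), n * (g * FreeGroup.of (Fin.last l) ^ ε * g⁻¹)⁻¹ ∈
      ⁅Subgroup.normalClosure {FreeGroup.of (Fin.last l)},
        Subgroup.normalClosure {FreeGroup.of (Fin.last l)}⁆ := by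
  refine ⟨sec l u, ?_⟩
  have h1 := main l n hn
  rw [show fox (ff l) (Fin.last l) n = MonoidAlgebra.single u ε from h, theta_single] at h1
  unfold cl at h1
  rw [← ofMul_zpow, ← map_zpow] at h1
  have h2 := Additive.ofMul.injective h1
  have h3 : Abelianization.of ((⟨n, hn⟩ : NN l) *
      ((⟨sec l u * FreeGroup.of (Fin.last l) * (sec l u)⁻¹, conj_mem l (sec l u)⟩ : NN l) ^ ε)⁻¹)
      = 1 := by
    rw [map_mul, map_inv, h2, mul_inv_cancel]
  have h4 : (⟨n, hn⟩ : NN l) *
      ((⟨sec l u * FreeGroup.of (Fin.last l) * (sec l u)⁻¹, conj_mem l (sec l u)⟩ : NN l) ^ ε)⁻¹ ∈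
      _root_.commutator (NN l) := by
    rw [← Abelianization.ker_of]
    exact h3
  rw [← Subgroup.map_subtype_commutator]
  refine ⟨_, h4, ?_⟩
  simp only [Subgroup.coe_subtype, Subgroup.coe_mul, Subgroup.coe_inv, Subgroup.coe_zpow, conj_zpow]

end Pool.Agent.MelD
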