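import Pool.Agent.MelD.ChiDef

/-!
# Corank one and characters

`cork K r π = 1`: the quotient of `Q → K` by the range `R` of `ev (ind π 1) r` is one-dimensional; in terms of the
right ideal `RI` of `K[Q]` (`rank_RI_eq`), every element of `K[Q]` is a scalar modulo `RI`, and since `RI` is a
right ideal this gives a character `χ` of `Q` which kills the Fox derivatives of `r`.
-/

open Finset Module

namespace Pool.Agent.MelD

/-- Corank one gives a dual character. -/
theorem cork_char {k : ℕ} (r : FreeGroup (Fin k)) {Q : Type} [Group Q] [Fintype Q]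
    (π : FreeGroup (Fin k) →* Q) (K : Type) [Field K] (h : cork K r π = 1) :
    ∃ χ : Q →* K, Dual r (χ.comp π) := by
  classical
  have h2 := rank_RI_eq K r π
  have hfin : FiniteDimensional K (MonoidAlgebra K Q) := Module.Finite.equiv (toFn K Q).symm
  rw [h, ← finrank_eq_rank, Nat.cast_inj] at h2
  set E := fun j => fox ((MonoidAlgebra.of K Q).comp π) j r with hE
  -- `1` is not in the right ideal
  have h1 : (1 : MonoidAlgebra K Q) ∉ RI (K := K) E := by
    intro h0
    have h3 : RI (K := K) E = ⊤ := eq_top_iff.2 fun x _ => by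
      have := RI_mul E _ h0 x
      rwa [one_mul] at this
    have h4 := Submodule.finrank_quotient_add_finrank (RI (K := K) E)
    rw [h2, h3, finrank_top] at h4
    omega
  have huniq : ∀ c : K, c • (1 : MonoidAlgebra K Q) ∈ RI (K := K) E → c = 0 := by
    intro c hc
    by_contra hne
    apply h1
    have := Submodule.smul_mem _ c⁻¹ hc
    rwa [smul_smul, inv_mul_cancel₀ hne, one_smul] at this
  -- every element is a scalar modulo the right ideal
  have hex : ∀ x : MonoidAlgebra K Q, ∃ c : K, x - c • (1 : MonoidAlgebra K Q) ∈ RI (K := K) E := by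
    intro x
    have hne : (Submodule.Quotient.mk 1 : MonoidAlgebra K Q ⧸ RI (K := K) E) ≠ 0 := by
      intro h0
      exact h1 ((Submodule.Quotient.mk_eq_zero _).1 h0)
    obtain ⟨c, hc⟩ := exists_smul_eq_of_finrank_eq_one h2 hne (Submodule.Quotient.mk x)
    refine ⟨c, ?_⟩
    rw [← Submodule.Quotient.mk_eq_zero, Submodule.Quotient.mk_sub, Submodule.Quotient.mk_smul, hc,
      sub_self]
  choose ψ hψ using hex
  have hval : ∀ (x : MonoidAlgebra K Q) (c : K), x - c • (1 : MonoidAlgebra K Q) ∈ RI (K := K) E →
      ψ x = c := by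
    intro x c hc
    have := Submodule.sub_mem _ hc (hψ x)
    rw [sub_sub_sub_cancel_left, ← sub_smul] at this
    exact sub_eq_zero.1 (huniq _ this)
  have hψ1 : ψ 1 = 1 := hval 1 1 (by rw [one_smul, sub_self]; exact Submodule.zero_mem _)
  have hψm : ∀ x y, ψ (x * y) = ψ x * ψ y := by
    intro x y
    apply hval
    have h5 : x * y - (ψ x * ψ y) • (1 : MonoidAlgebra K Q) =
        (x - ψ x • (1 : MonoidAlgebra K Q)) * y + ψ x • (y - ψ y • (1 : MonoidAlgebra K Q)) := by
      rw [sub_mul, smul_mul_assoc, one_mul, smul_sub, smul_smul]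
      abel
    rw [h5]
    exact Submodule.add_mem _ (RI_mul E _ (hψ x) y) (Submodule.smul_mem _ _ (hψ y))
  let χ : Q →* K :=
    { toFun := fun q => ψ (MonoidAlgebra.of K Q q)
      map_one' := by rw [map_one]; exact hψ1
      map_mul' := fun a b => by rw [map_mul]; exact hψm _ _ }
  let e : MonoidAlgebra K Q →ₐ[K] K := MonoidAlgebra.lift K K Q χ
  have he : ∀ x : MonoidAlgebra K Q, x - e x • (1 : MonoidAlgebra K Q) ∈ RI (K := K) E := by
    intro x
    induction x using MonoidAlgebra.induction_linear with
    | zero => rw [map_zero, zero_smul, sub_self]; exact Submodule.zero_mem _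
    | add a b ha hb =>
      rw [map_add, add_smul, add_sub_add_comm]
      exact Submodule.add_mem _ ha hb
    | single g c =>
      have h6 : e (MonoidAlgebra.single g c) = c * ψ (MonoidAlgebra.of K Q g) := by
        show MonoidAlgebra.lift K K Q χ (MonoidAlgebra.single g c) = _
        rw [MonoidAlgebra.lift_single]
        rfl
      have h7 : (MonoidAlgebra.single g c : MonoidAlgebra K Q) = c • MonoidAlgebra.of K Q g := by
        rw [MonoidAlgebra.of_apply, MonoidAlgebra.smul_single, smul_eq_mul, mul_one]
      rw [h6, h7, mul_smul, ← smul_sub]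
      exact Submodule.smul_mem _ _ (hψ _)
  refine ⟨χ, fun j => ?_⟩
  have h8 : e (E j) = 0 := by
    apply huniq
    have h9 : E j ∈ RI (K := K) E := Submodule.subset_span ⟨j, 1, by rw [mul_one]⟩
    have := Submodule.sub_mem _ h9 (he (E j))
    rwa [sub_sub_cancel] at this
  have h10 : (e : MonoidAlgebra K Q →+* K) (fox ((MonoidAlgebra.of K Q).comp π) j r) = 0 := h8
  rw [map_fox] at h10
  have h11 : ((e : MonoidAlgebra K Q →+* K) : MonoidAlgebra K Q →* K).comp
      ((MonoidAlgebra.of K Q).comp π) = χ.comp π := by
    refine MonoidHom.ext fun g => ?_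
    show MonoidAlgebra.lift K K Q χ (MonoidAlgebra.single (π g) 1) = _
    rw [MonoidAlgebra.lift_single, one_smul]
    rfl
  rw [h11] at h10
  exact h10

/-- A dual character gives a positive corank. -/
theorem cork_of_char {k : ℕ} (r : FreeGroup (Fin k)) {Q : Type} [Group Q] [Fintype Q]
    (π : FreeGroup (Fin k) →* Q) (K : Type) [Field K] (χ : Q →* K) (h : Dual r (χ.comp π)) :
    1 ≤ cork K r π := by
  classical
  have h2 := rank_RI_eq K r π
  have hfin : FiniteDimensional K (MonoidAlgebra K Q) := Module.Finite.equiv (toFn K Q).symm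
  rw [← finrank_eq_rank, Nat.cast_inj] at h2
  let e : MonoidAlgebra K Q →ₐ[K] K := MonoidAlgebra.lift K K Q χ
  have hker : RI (K := K) (fun j => fox ((MonoidAlgebra.of K Q).comp π) j r) ≤
      LinearMap.ker e.toLinearMap := by
    unfold RI
    rw [Submodule.span_le]
    rintro _ ⟨j, y, rfl⟩
    show e (fox ((MonoidAlgebra.of K Q).comp π) j r * y) = 0
    rw [map_mul]
    have h3 : e (fox ((MonoidAlgebra.of K Q).comp π) j r) = 0 := by
      show (e : MonoidAlgebra K Q →+* K) _ = 0
      rw [map_fox]
      have h4 : ((e : MonoidAlgebra K Q →+* K) : MonoidAlgebra K Q →* K).comp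
          ((MonoidAlgebra.of K Q).comp π) = χ.comp π := by
        refine MonoidHom.ext fun g => ?_
        show MonoidAlgebra.lift K K Q χ (MonoidAlgebra.single (π g) 1) = _
        rw [MonoidAlgebra.lift_single, one_smul]
        rfl
      rw [h4]
      exact h j
    rw [h3, zero_mul]
  have h5 : finrank K (LinearMap.range e.toLinearMap) = 1 := by
    have h6 : LinearMap.range e.toLinearMap = ⊤ := by
      rw [LinearMap.range_eq_top]
      intro c
      refine ⟨c • 1, ?_⟩
      show e (c • 1) = c
      rw [map_smul, map_one, smul_eq_mul, mul_one]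
    rw [h6, finrank_top, finrank_self]
  have h6 := LinearMap.finrank_range_add_finrank_ker e.toLinearMap
  have h7 := Submodule.finrank_mono hker
  have h8 := Submodule.finrank_quotient_add_finrank
    (RI (K := K) (fun j => fox ((MonoidAlgebra.of K Q).comp π) j r))
  omega

end Pool.Agent.MelD
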