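import Pool.Agent.MelD.Retr2
import Pool.Agent.MelD.RigDef

/-!
# Coranks of the orientable surface relator

For an epimorphism `π` of the free group of rank `2 n` onto a finite group `Q` that kills the product of the commutators
`[x_i, y_i]`, the range of the evaluation at this relator contains all functions on `Q` of sum zero: `cork ≤ 1`, over any field.
-/

set_option autoImplicit false

open Finset Module

namespace Pool.Agent.MelD

namespace CorkSurf

variable {K : Type} [Field K] {k : ℕ} {Q : Type} [Group Q] [Fintype Q]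

/-- the coinduced representation -/
noncomputable abbrev rh (K : Type) [Field K] {k : ℕ} {Q : Type} [Group Q] (π : FreeGroup (Fin k) →* Q) :
    FreeGroup (Fin k) →* Module.End K (Q → K) := ind π (1 : FreeGroup (Fin k) →* Module.End K K)

/-- the stabilizer of a linear form -/
def St (ρ : FreeGroup (Fin k) →* Module.End K (Q → K)) (l : (Q → K) →ₗ[K] K) : Subgroup (FreeGroup (Fin k)) where
  carrier := {g | ∀ f, l (ρ g f) = l f}
  one_mem' := by
    intro f
    rw [map_one]
    rfl
  mul_mem' := by
    intro a b ha hb f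
    rw [map_mul]
    show l (ρ a (ρ b f)) = l f
    rw [ha, hb]
  inv_mem' := by
    intro a ha f
    have h1 := ha (ρ a⁻¹ f)
    have h2 : ρ a (ρ a⁻¹ f) = f := by
      have h3 : (ρ a * ρ a⁻¹) f = f := by
        rw [← map_mul, mul_inv_cancel, map_one]
        rfl
      exact h3
    rw [h2] at h1
    exact h1.symm

/-- the elements at which a crossed homomorphism vanishes -/
def Zr (ρ : FreeGroup (Fin k) →* Module.End K (Q → K)) (v : Fin k → Q → K) : Subgroup (FreeGroup (Fin k)) where
  carrier := {g | coc ρ v g = 0}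
  one_mem' := coc_one ρ v
  mul_mem' := by
    intro a b ha hb
    have ha' : coc ρ v a = 0 := ha
    have hb' : coc ρ v b = 0 := hb
    show coc ρ v (a * b) = 0
    rw [coc_mul, ha', hb', smul_zero, add_zero]
  inv_mem' := by
    intro a ha
    have ha' : coc ρ v a = 0 := ha
    show coc ρ v a⁻¹ = 0
    rw [coc_inv, ha', smul_zero, neg_zero]

/-- the `i`-th commutator -/
def cm {n : ℕ} (i : Fin n) : FreeGroup (Fin (n + n)) :=
  FreeGroup.of (Fin.castAdd n i) * FreeGroup.of (Fin.natAdd n i) *
    (FreeGroup.of (Fin.castAdd n i))⁻¹ * (FreeGroup.of (Fin.natAdd n i))⁻¹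

/-- the splitting of the relator -/
theorem split {n : ℕ} (i : Fin n) : surf n = ((List.ofFn (cm (n := n))).take i).prod * cm i *
    ((List.ofFn (cm (n := n))).drop (i + 1)).prod := by
  have h1 : surf n = (List.ofFn (cm (n := n))).prod := rfl
  have h2 : (i : ℕ) < (List.ofFn (cm (n := n))).length := by
    rw [List.length_ofFn]
    exact i.2
  have h3 : (List.ofFn (cm (n := n))).drop i = cm i :: (List.ofFn (cm (n := n))).drop (i + 1) := by
    rw [List.drop_eq_getElem_cons h2]
    congr 1
    rw [List.getElem_ofFn]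
  rw [h1]
  conv_lhs => rw [← List.take_append_drop (i : ℕ) (List.ofFn (cm (n := n)))]
  rw [List.prod_append, h3, List.prod_cons, mul_assoc]

theorem take_mem {n : ℕ} (i : Fin n) (S : Subgroup (FreeGroup (Fin (n + n))))
    (h : ∀ j : Fin n, (j : ℕ) < i → cm j ∈ S) : ((List.ofFn (cm (n := n))).take i).prod ∈ S := by
  refine S.list_prod_mem ?_
  intro x hx
  rw [List.mem_take_iff_getElem] at hx
  obtain ⟨j, hj, rfl⟩ := hx
  rw [List.getElem_ofFn]
  refine h _ ?_
  show j < (i : ℕ)
  exact lt_of_lt_of_le hj (min_le_left _ _)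

theorem drop_mem {n : ℕ} (i : Fin n) (S : Subgroup (FreeGroup (Fin (n + n))))
    (h : ∀ j : Fin n, (i : ℕ) < j → cm j ∈ S) : ((List.ofFn (cm (n := n))).drop (i + 1)).prod ∈ S := by
  refine S.list_prod_mem ?_
  intro x hx
  rw [List.mem_drop_iff_getElem] at hx
  obtain ⟨j, hj, rfl⟩ := hx
  rw [List.getElem_ofFn]
  refine h _ ?_
  show (i : ℕ) < (i : ℕ) + 1 + j
  omega

theorem cm_mem {n : ℕ} (j : Fin n) (S : Subgroup (FreeGroup (Fin (n + n))))
    (hx : FreeGroup.of (Fin.castAdd n j) ∈ S) (hy : FreeGroup.of (Fin.natAdd n j) ∈ S) : cm j ∈ S := by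
  unfold cm
  exact S.mul_mem (S.mul_mem (S.mul_mem hx hy) (S.inv_mem hx)) (S.inv_mem hy)

omit [Group Q] [Fintype Q] in
/-- the value at the relator for a crossed homomorphism that vanishes at the other commutators -/
theorem coc_surf {n : ℕ} (ρ : FreeGroup (Fin (n + n)) →* Module.End K (Q → K)) (i : Fin n) (v : Fin (n + n) → Q → K)
    (h : ∀ j : Fin n, j ≠ i → v (Fin.castAdd n j) = 0 ∧ v (Fin.natAdd n j) = 0) :
    coc ρ v (surf n) = ρ ((List.ofFn (cm (n := n))).take i).prod (coc ρ v (cm i)) := by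
  have hc : ∀ j : Fin n, j ≠ i → cm j ∈ Zr ρ v := by
    intro j hj
    refine cm_mem j _ ?_ ?_
    · show coc ρ v _ = 0
      rw [coc_of]
      exact (h j hj).1
    · show coc ρ v _ = 0
      rw [coc_of]
      exact (h j hj).2
  have h1 : coc ρ v ((List.ofFn (cm (n := n))).take i).prod = 0 :=
    take_mem i (Zr ρ v) fun j hj => hc j (Fin.ne_of_lt hj)
  have h2 : coc ρ v ((List.ofFn (cm (n := n))).drop (i + 1)).prod = 0 :=
    drop_mem i (Zr ρ v) fun j hj => hc j (Fin.ne_of_gt hj)
  rw [split i, coc_mul, coc_mul, h1, h2, smul_zero, add_zero, zero_add]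
  rfl

/-- the step of the induction -/
theorem step {n : ℕ} (ρ : FreeGroup (Fin (n + n)) →* Module.End K (Q → K)) (l : (Q → K) →ₗ[K] K)
    (hl : ∀ v, l (coc ρ v (surf n)) = 0) (i : Fin n)
    (ih : ∀ j : Fin n, (j : ℕ) < i → FreeGroup.of (Fin.castAdd n j) ∈ St ρ l ∧ FreeGroup.of (Fin.natAdd n j) ∈ St ρ l) :
    FreeGroup.of (Fin.castAdd n i) ∈ St ρ l ∧ FreeGroup.of (Fin.natAdd n i) ∈ St ρ l := by
  have hP : ((List.ofFn (cm (n := n))).take i).prod ∈ St ρ l :=
    take_mem i (St ρ l) fun j hj => cm_mem j _ (ih j hj).1 (ih j hj).2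
  set x : FreeGroup (Fin (n + n)) := FreeGroup.of (Fin.castAdd n i) with hx
  set y : FreeGroup (Fin (n + n)) := FreeGroup.of (Fin.natAdd n i) with hy
  have hne : Fin.castAdd n i ≠ Fin.natAdd n i := by
    intro h
    have := congrArg Fin.val h
    simp only [Fin.val_castAdd, Fin.val_natAdd] at this
    have := i.2
    omega
  -- the form of the value at the commutator
  have hcm : ∀ v : Fin (n + n) → Q → K, coc ρ v (cm i) =
      v (Fin.castAdd n i) + ρ x (v (Fin.natAdd n i)) - ρ (x * y * x⁻¹) (v (Fin.castAdd n i))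
        - ρ (x * y * x⁻¹ * y⁻¹) (v (Fin.natAdd n i)) := by
    intro v
    show coc ρ v (x * y * x⁻¹ * y⁻¹) = _
    rw [coc_mul, coc_mul, coc_mul, coc_inv, coc_inv, hx, hy, coc_of, coc_of, ← hx, ← hy, smul_neg, smul_neg,
      smul_smul, smul_smul, ← map_mul, ← map_mul]
    show v (Fin.castAdd n i) + ρ x (v (Fin.natAdd n i)) + -(ρ (x * y * x⁻¹) (v (Fin.castAdd n i)))
        + -(ρ (x * y * x⁻¹ * y⁻¹) (v (Fin.natAdd n i))) = _
    abel
  have hval : ∀ v : Fin (n + n) → Q → K,
      (∀ j : Fin n, j ≠ i → v (Fin.castAdd n j) = 0 ∧ v (Fin.natAdd n j) = 0) → l (coc ρ v (cm i)) = 0 := by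
    intro v hv
    have h1 := hl v
    rw [coc_surf ρ i v hv, hP] at h1
    exact h1
  have hxyx : x * y * x⁻¹ ∈ St ρ l := by
    intro a
    have h1 := hval (Pi.single (Fin.castAdd n i) a) (by
      intro j hj
      constructor
      · rw [Pi.single_eq_of_ne]
        intro h
        exact hj (Fin.castAdd_injective n n h)
      · rw [Pi.single_eq_of_ne]
        intro h
        have := congrArg Fin.val h
        simp only [Fin.val_castAdd, Fin.val_natAdd] at this
        have := i.2
        omega)
    rw [hcm, Pi.single_eq_same, Pi.single_eq_of_ne hne.symm, map_zero, map_zero, add_zero, sub_zero, map_sub,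
      sub_eq_zero] at h1
    exact h1.symm
  have hxy : x * y ∈ St ρ l := by
    intro b
    have h1 := hval (Pi.single (Fin.natAdd n i) (ρ y b)) (by
      intro j hj
      constructor
      · rw [Pi.single_eq_of_ne]
        intro h
        have := congrArg Fin.val h
        simp only [Fin.val_castAdd, Fin.val_natAdd] at this
        have := j.2
        omega
      · rw [Pi.single_eq_of_ne]
        intro h
        have := congrArg Fin.val h
        simp only [Fin.val_natAdd] at this
        exact hj (Fin.ext (by omega)))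
    rw [hcm, Pi.single_eq_same, Pi.single_eq_of_ne hne, map_zero, zero_add, sub_zero, map_sub, sub_eq_zero] at h1
    have h2 : ρ (x * y * x⁻¹ * y⁻¹) (ρ y b) = ρ (x * y * x⁻¹) b := by
      have h3 : (ρ (x * y * x⁻¹ * y⁻¹) * ρ y) b = ρ (x * y * x⁻¹) b := by
        rw [← map_mul, inv_mul_cancel_right]
      exact h3
    have h4 : ρ x (ρ y b) = ρ (x * y) b := by
      rw [map_mul]
      rfl
    rw [h2, h4, hxyx b] at h1
    exact h1
  have hxi : x ∈ St ρ l := by
    have h1 : (x * y)⁻¹ * (x * y * x⁻¹) ∈ St ρ l := (St ρ l).mul_mem ((St ρ l).inv_mem hxy) hxyx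
    rw [inv_mul_cancel_left] at h1
    exact (St ρ l).inv_mem_iff.mp h1
  refine ⟨hxi, ?_⟩
  have h1 : x⁻¹ * (x * y) ∈ St ρ l := (St ρ l).mul_mem ((St ρ l).inv_mem hxi) hxy
  rwa [inv_mul_cancel_left] at h1

/-- all elements stabilize a linear form that vanishes on the range -/
theorem all_mem {n : ℕ} (ρ : FreeGroup (Fin (n + n)) →* Module.End K (Q → K)) (l : (Q → K) →ₗ[K] K)
    (hl : ∀ v, l (coc ρ v (surf n)) = 0) (g : FreeGroup (Fin (n + n))) : g ∈ St ρ l := by
  have h1 : ∀ m : ℕ, ∀ i : Fin n, (i : ℕ) = m →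
      FreeGroup.of (Fin.castAdd n i) ∈ St ρ l ∧ FreeGroup.of (Fin.natAdd n i) ∈ St ρ l := by
    intro m
    induction m using Nat.strong_induction_on with
    | _ m ih =>
      intro i hi
      refine step ρ l hl i fun j hj => ?_
      exact ih j (hi ▸ hj) j rfl
  induction g using FreeGroup.induction_on with
  | C1 => exact (St ρ l).one_mem
  | of j =>
    refine Fin.addCases (fun i => ?_) (fun i => ?_) j
    · exact (h1 i i rfl).1
    · exact (h1 i i rfl).2
  | inv_of j h => exact (St ρ l).inv_mem h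
  | mul a b ha hb => exact (St ρ l).mul_mem ha hb

/-- a linear form that vanishes on the range is a multiple of the sum -/
theorem form_eq {n : ℕ} (π : FreeGroup (Fin (n + n)) →* Q) (hs : Function.Surjective π) (l : (Q → K) →ₗ[K] K)
    (hl : ∀ v, l (coc (rh K π) v (surf n)) = 0) : ∃ c : K, ∀ f, l f = (∑ q, f q) * c := by
  classical
  refine ⟨l (Pi.single 1 1), fun f => ?_⟩
  have h1 : ∀ q : Q, l (Pi.single q (1 : K)) = l (Pi.single 1 1) := by
    intro q
    obtain ⟨g, rfl⟩ := hs q
    have h2 := all_mem (rh K π) l hl g (Pi.single (π g) (1 : K))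
    have h3 : rh K π g (Pi.single (π g) (1 : K)) = Pi.single 1 1 := by
      funext q
      show (Pi.single (π g) (1 : K) : Q → K) (q * π g) = (Pi.single 1 1 : Q → K) q
      rw [Pi.single_apply, Pi.single_apply]
      by_cases hq : q = 1
      · subst hq
        rw [one_mul, if_pos rfl, if_pos rfl]
      · rw [if_neg hq, if_neg]
        intro h
        exact hq (mul_eq_right.mp h)
    rw [h3] at h2
    exact h2.symm
  have h2 : f = ∑ q, f q • (Pi.single q (1 : K) : Q → K) := by
    funext q
    rw [Finset.sum_apply]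
    simp only [Pi.smul_apply, Pi.single_apply, smul_eq_mul, mul_ite, mul_one, mul_zero]
    rw [Finset.sum_ite_eq]
    simp
  conv_lhs => rw [h2]
  rw [map_sum, Finset.sum_mul]
  refine Finset.sum_congr rfl fun q _ => ?_
  rw [map_smul, h1 q, smul_eq_mul]

/-- functions of sum zero are in the range -/
theorem ker_le {n : ℕ} (π : FreeGroup (Fin (n + n)) →* Q) (hs : Function.Surjective π) (f : Q → K)
    (hf : ∑ q, f q = 0) : f ∈ LinearMap.range (ev (rh K π) (surf n)) := by
  by_contra h
  obtain ⟨l, hl1, hl2⟩ := Submodule.exists_dual_map_eq_bot_of_notMem h inferInstance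
  refine hl1 ?_
  obtain ⟨c, hc⟩ := form_eq π hs l (by
    intro v
    have h1 : l (ev (rh K π) (surf n) v) ∈ (LinearMap.range (ev (rh K π) (surf n))).map l :=
      Submodule.mem_map_of_mem (LinearMap.mem_range_self _ v)
    rw [hl2] at h1
    exact (Submodule.mem_bot K).mp h1)
  rw [hc, hf, zero_mul]

end CorkSurf

open CorkSurf in
/-- **THE CORANK OF THE SURFACE RELATOR IS AT MOST ONE** -/
theorem cork_surf (K : Type) [Field K] {n : ℕ} {Q : Type} [Group Q] [Fintype Q]
    (π : FreeGroup (Fin (n + n)) →* Q) (hs : Function.Surjective π) (_h : π (surf n) = 1) :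
    cork K (surf n) π ≤ 1 := by
  classical
  set s : (Q → K) →ₗ[K] K := ∑ q, LinearMap.proj q with hsum
  have hsv : ∀ f, s f = ∑ q, f q := by
    intro f
    rw [hsum, LinearMap.sum_apply]
    rfl
  have h1 : LinearMap.ker s ≤ LinearMap.range (ev (ind π (1 : FreeGroup (Fin (n + n)) →* Module.End K K)) (surf n)) := by
    intro f hf
    refine ker_le π hs f ?_
    rw [← hsv]
    exact hf
  have h2 := Submodule.finrank_mono h1
  have h3 := LinearMap.finrank_range_add_finrank_ker s
  have h4 : finrank K (LinearMap.range s) ≤ 1 := by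
    refine le_trans (Submodule.finrank_le _) ?_
    rw [Module.finrank_self]
  rw [Module.finrank_fintype_fun_eq_card] at h3
  unfold cork
  omega

end Pool.Agent.MelD
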