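import Pool.Agent.MelD.Def

/-!
# Shapiro's lemma for spaces of crossed homomorphisms

`G` a group, `π : G → Q` onto a finite group, `H = ker π`.  A crossed homomorphism `c` of `G` with
values in `Q → V` gives the crossed homomorphism `h ↦ c h 1` of `H` and the values `v q = c (s q) 1`,
`q ≠ 1`, where `s` is a section with `s 1 = 1`; conversely
`c g q = ρ (s q)⁻¹ (f h + ρ h (v (q π g)) - v q)` with `h = s q * g * (s (q π g))⁻¹`.
-/

open Finset Module

namespace Pool.Agent.MelD

section aux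

variable {K : Type*} [Field K] {G Q : Type*} [Group G] [Group Q] {V : Type*}
    [AddCommGroup V] [Module K V]

private theorem rho_inv_mul (ρ : G →* Module.End K V) (g : G) (x : V) : ρ g⁻¹ (ρ g x) = x := by
  rw [← Module.End.mul_apply, ← map_mul, inv_mul_cancel, map_one]
  rfl

private theorem rho_mul (ρ : G →* Module.End K V) (g h : G) (x : V) : ρ g (ρ h x) = ρ (g * h) x := by
  rw [map_mul]
  rfl

/-- The restriction and the values at the section. -/
private def phi (π : G →* Q) (ρ : G →* Module.End K V) (s : Q → G) :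
    Z1 (ind π ρ) →ₗ[K] Z1 (ρ.comp π.ker.subtype) × ({q : Q // q ≠ 1} → V) where
  toFun c := (⟨fun h => c.1 h.1 1, by
    intro g h
    have h1 := c.2 g.1 h.1
    have h2 := congrFun h1 1
    have h3 : π g.1 = 1 := g.2
    simp only [Pi.add_apply, ind_apply, h3, mul_one] at h2
    exact h2⟩, fun q => c.1 (s q.1) 1)
  map_add' := by
    intro a b
    rfl
  map_smul' := by
    intro x a
    rfl

/-- The key formula. -/
private theorem formula {π : G →* Q} {ρ : G →* Module.End K V} {s : Q → G}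
    (hs : ∀ q, π (s q) = q) {c : G → Q → V} (hc : c ∈ Z1 (ind π ρ)) (g : G) (q : Q) :
    c (s q) 1 + ρ (s q) (c g q) =
      c (s q * g * (s (q * π g))⁻¹) 1 +
        ρ (s q * g * (s (q * π g))⁻¹) (c (s (q * π g)) 1) := by
  have h1 := congrFun (hc (s q) g) 1
  have h2 := congrFun (hc (s q * g * (s (q * π g))⁻¹) (s (q * π g))) 1
  have h3 : π (s q * g * (s (q * π g))⁻¹) = 1 := by
    rw [map_mul, map_mul, map_inv, hs, hs, mul_inv_cancel]
  simp only [Pi.add_apply, ind_apply, h3, hs, one_mul, inv_mul_cancel_right] at h1 h2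
  rw [← h1, ← h2]

private theorem phi_inj {π : G →* Q} {ρ : G →* Module.End K V} {s : Q → G}
    (hs : ∀ q, π (s q) = q) (hs1 : s 1 = 1) : Function.Injective (phi π ρ s) := by
  rw [← LinearMap.ker_eq_bot, LinearMap.ker_eq_bot']
  intro c hc
  have hv : ∀ q, c.1 (s q) 1 = 0 := by
    intro q
    by_cases hq : q = 1
    · subst hq
      have h1 := congrFun (c.2 1 1) 1
      simp only [Pi.add_apply, map_one, mul_one] at h1
      rw [hs1]
      have h2 : c.1 1 1 = c.1 1 1 + c.1 1 1 := h1
      exact left_eq_add.mp h2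
    · have h1 := congrArg Prod.snd hc
      exact congrFun h1 ⟨q, hq⟩
  have hf : ∀ h : G, π h = 1 → c.1 h 1 = 0 := by
    intro h hh
    have h1 := congrArg Prod.fst hc
    have h2 := congrArg Subtype.val h1
    exact congrFun h2 ⟨h, hh⟩
  apply Subtype.ext
  funext g q
  have h3 : π (s q * g * (s (q * π g))⁻¹) = 1 := by
    rw [map_mul, map_mul, map_inv, hs, hs, mul_inv_cancel]
  have h4 := formula hs c.2 g q
  rw [hv, hv, hf _ h3, map_zero, zero_add, zero_add] at h4
  have h5 := rho_inv_mul ρ (s q) (c.1 g q)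
  rw [h4, map_zero] at h5
  exact h5.symm

open Classical in
private theorem phi_surj {π : G →* Q} {ρ : G →* Module.End K V} {s : Q → G}
    (hs : ∀ q, π (s q) = q) (hs1 : s 1 = 1) : Function.Surjective (phi π ρ s) := by
  rintro ⟨f, w⟩
  let v : Q → V := fun q => if h : q ≠ 1 then w ⟨q, h⟩ else 0
  let F : G → V := fun g => if h : g ∈ π.ker then f.1 ⟨g, h⟩ else 0
  have hv1 : v 1 = 0 := by simp [v]
  have hF : ∀ (g : G) (h : g ∈ π.ker), F g = f.1 ⟨g, h⟩ := by
    intro g h
    simp only [F, dif_pos h]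
  have hFm : ∀ a b : G, a ∈ π.ker → b ∈ π.ker → F (a * b) = F a + ρ a (F b) := by
    intro a b ha hb
    rw [hF a ha, hF b hb, hF (a * b) (mul_mem ha hb)]
    exact f.2 ⟨a, ha⟩ ⟨b, hb⟩
  have hF1 : F 1 = 0 := by
    have h1 := hFm 1 1 (one_mem _) (one_mem _)
    rw [mul_one, map_one] at h1
    have h2 : F 1 = F 1 + F 1 := h1
    exact left_eq_add.mp h2
  let η : G → Q → G := fun g q => s q * g * (s (q * π g))⁻¹
  have hη : ∀ g q, η g q ∈ π.ker := by
    intro g q
    show π (s q * g * (s (q * π g))⁻¹) = 1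
    rw [map_mul, map_mul, map_inv, hs, hs, mul_inv_cancel]
  let c : G → Q → V := fun g q => ρ (s q)⁻¹ (F (η g q) + ρ (η g q) (v (q * π g)) - v q)
  have hc : c ∈ Z1 (ind π ρ) := by
    intro a b
    funext q
    rw [Pi.add_apply, ind_apply]
    show ρ (s q)⁻¹ (F (η (a * b) q) + ρ (η (a * b) q) (v (q * π (a * b))) - v q) =
      ρ (s q)⁻¹ (F (η a q) + ρ (η a q) (v (q * π a)) - v q) +
        ρ a (ρ (s (q * π a))⁻¹ (F (η b (q * π a)) + ρ (η b (q * π a)) (v (q * π a * π b)) -
          v (q * π a)))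
    have h1 : η (a * b) q = η a q * η b (q * π a) := by
      show s q * (a * b) * (s (q * π (a * b)))⁻¹ =
        s q * a * (s (q * π a))⁻¹ * (s (q * π a) * b * (s (q * π a * π b))⁻¹)
      rw [map_mul, ← mul_assoc q]
      group
    have h2 : a * (s (q * π a))⁻¹ = (s q)⁻¹ * η a q := by
      show a * (s (q * π a))⁻¹ = (s q)⁻¹ * (s q * a * (s (q * π a))⁻¹)
      group
    rw [rho_mul ρ a, h2, ← rho_mul ρ (s q)⁻¹, ← map_add, h1, hFm _ _ (hη _ _) (hη _ _),
      ← rho_mul ρ (η a q) (η b (q * π a)), map_mul π a b, ← mul_assoc q]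
    congr 1
    rw [map_sub (ρ (η a q)), map_add (ρ (η a q))]
    abel
  refine ⟨⟨c, hc⟩, ?_⟩
  apply Prod.ext
  · apply Subtype.ext
    funext h
    show ρ (s 1)⁻¹ (F (η h.1 1) + ρ (η h.1 1) (v (1 * π h.1)) - v 1) = f.1 h
    have h3 : π h.1 = 1 := h.2
    have h4 : η h.1 1 = h.1 := by
      show s 1 * h.1 * (s (1 * π h.1))⁻¹ = h.1
      rw [h3, one_mul, hs1, one_mul, inv_one, mul_one]
    rw [h4, h3, one_mul, hv1, map_zero, hs1, inv_one, map_one, add_zero, sub_zero, hF h.1 h.2]
    rfl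
  · funext q
    show ρ (s 1)⁻¹ (F (η (s q.1) 1) + ρ (η (s q.1) 1) (v (1 * π (s q.1))) - v 1) = w q
    have h4 : η (s q.1) 1 = 1 := by
      show s 1 * s q.1 * (s (1 * π (s q.1)))⁻¹ = 1
      rw [hs, one_mul, hs1, one_mul, mul_inv_cancel]
    rw [h4, hs, one_mul, hv1, hF1, hs1, inv_one, map_one, zero_add, sub_zero]
    show v q.1 = w q
    simp only [v, dif_pos q.2]

end aux

theorem shapiro {K : Type*} [Field K] {G Q : Type*} [Group G] [Group Q] [Fintype Q] {V : Type*}
    [AddCommGroup V] [Module K V] [FiniteDimensional K V] (π : G →* Q)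
    (hπ : Function.Surjective π) (ρ : G →* Module.End K V)
    (hf : FiniteDimensional K (Z1 (ind π ρ))) :
    finrank K (Z1 (ρ.comp π.ker.subtype)) + (Fintype.card Q - 1) * finrank K V =
      finrank K (Z1 (ind π ρ)) := by
  classical
  let s : Q → G := fun q => if q = 1 then 1 else Function.surjInv hπ q
  have hs : ∀ q, π (s q) = q := by
    intro q
    by_cases hq : q = 1
    · subst hq
      show π (if (1 : Q) = 1 then 1 else Function.surjInv hπ 1) = 1
      rw [if_pos rfl, map_one]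
    · simp only [s, if_neg hq]
      exact Function.surjInv_eq hπ q
  have hs1 : s 1 = 1 := if_pos rfl
  let e := LinearEquiv.ofBijective (phi π ρ s) ⟨phi_inj hs hs1, phi_surj hs hs1⟩
  have h1 : Module.Finite K (Z1 (ρ.comp π.ker.subtype) × ({q : Q // q ≠ 1} → V)) :=
    Module.Finite.equiv e
  have h2 : Module.Finite K (Z1 (ρ.comp π.ker.subtype)) :=
    Module.Finite.of_surjective
      (LinearMap.fst K (Z1 (ρ.comp π.ker.subtype)) ({q : Q // q ≠ 1} → V)) LinearMap.fst_surjective
  rw [e.finrank_eq, Module.finrank_prod, Module.finrank_pi_fintype, Finset.sum_const,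
    Finset.card_univ, smul_eq_mul, Fintype.card_subtype_compl, Fintype.card_subtype_eq]

end Pool.Agent.MelD
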