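import Pool.Agent.MelD.Coc
import Pool.Agent.MelD.Shap

/-!
# The criterion

A finite quotient `Q` of a one-relator group such that the map `ev` has corank `≥ m + 1` on the
functions `Q → K₁`, but corank `< dim V₂` on the functions `Q → V₂` for some representation `V₂`
(over some other field): the kernel has no presentation with at most `m` relators.
-/

open Finset Module

namespace Pool.Agent.MelD

open Pool.Agent.MelG (HasRel)

/-- The dimension of the space of crossed homomorphisms of the kernel. -/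
theorem finrank_ker {k : ℕ} (r : FreeGroup (Fin k)) {Q : Type} [Group Q] [Fintype Q]
    (π' : OR r →* Q) (hπ : Function.Surjective π') {K V : Type} [Field K] [AddCommGroup V]
    [Module K V] [FiniteDimensional K V] (ρ : OR r →* Module.End K V) :
    finrank K (Z1 (ρ.comp π'.ker.subtype)) + (Fintype.card Q - 1) * finrank K V +
      finrank K (LinearMap.range (ev (ind (π'.comp (PresentedGroup.mk {r}))
        (ρ.comp (PresentedGroup.mk {r}))) r)) = k * (Fintype.card Q * finrank K V) := by
  have h1 := shapiro π' hπ ρ (finite_Z1_OR r (ind π' ρ))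
  have h2 := finrank_Z1_OR r (ind π' ρ)
  have h3 : (ind π' ρ).comp (PresentedGroup.mk {r}) = ind (π'.comp (PresentedGroup.mk {r}))
      (ρ.comp (PresentedGroup.mk {r})) := rfl
  rw [h3, Module.finrank_pi_fintype, sum_const, card_univ, smul_eq_mul] at h2
  omega

theorem crit {k : ℕ} (r : FreeGroup (Fin k)) {m : ℕ} {Q : Type} [Group Q] [Fintype Q]
    (π : FreeGroup (Fin k) →* Q) (hπ : Function.Surjective π)
    {K₁ : Type} [Field K₁]
    (h1 : finrank K₁ (LinearMap.range
      (ev (ind π (1 : FreeGroup (Fin k) →* Module.End K₁ K₁)) r)) + (m + 1) ≤ Fintype.card Q)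
    {K₂ V₂ : Type} [Field K₂] [AddCommGroup V₂] [Module K₂ V₂] [FiniteDimensional K₂ V₂]
    (ρ₂ : FreeGroup (Fin k) →* Module.End K₂ V₂) (hρ : ρ₂ r = 1)
    (h2 : (Fintype.card Q - 1) * finrank K₂ V₂ <
      finrank K₂ (LinearMap.range (ev (ind π ρ₂) r)))
    (π' : OR r →* Q) (hπ' : π'.comp (PresentedGroup.mk ({r} : Set (FreeGroup (Fin k)))) = π) :
    ¬ HasRel m π'.ker := by
  intro h
  obtain ⟨y, hy⟩ := pres_bounds h
  obtain ⟨ρ', hρ'⟩ := exists_desc r ρ₂ hρ
  have hs : Function.Surjective π' := by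
    intro q
    obtain ⟨g, hg⟩ := hπ q
    refine ⟨PresentedGroup.mk {r} g, ?_⟩
    rw [← hg, ← hπ']
    rfl
  have e1 := finrank_ker r π' hs (1 : OR r →* Module.End K₁ K₁)
  have e2 := finrank_ker r π' hs ρ'
  rw [hπ', hρ'] at e2
  have hone : (1 : OR r →* Module.End K₁ K₁).comp
      (PresentedGroup.mk ({r} : Set (FreeGroup (Fin k)))) = 1 := rfl
  rw [hπ', hone] at e1
  have y1 := (hy K₁ inferInstance K₁ inferInstance inferInstance inferInstance
    ((1 : OR r →* Module.End K₁ K₁).comp π'.ker.subtype)).1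
  have y2 := (hy K₂ inferInstance V₂ inferInstance inferInstance inferInstance
    (ρ'.comp π'.ker.subtype)).2
  rw [finrank_self, mul_one] at e1 y1
  rw [mul_one] at e1
  have hc : 1 ≤ Fintype.card Q := Fintype.card_pos
  obtain ⟨c, hc'⟩ : ∃ c, Fintype.card Q = c + 1 := ⟨Fintype.card Q - 1, by omega⟩
  rw [hc'] at e1 e2 h1 h2
  simp only [Nat.add_sub_cancel] at e1 e2 h2
  set d := finrank K₂ V₂
  set z1 := finrank K₁ (Z1 ((1 : OR r →* Module.End K₁ K₁).comp π'.ker.subtype))
  set z2 := finrank K₂ (Z1 (ρ'.comp π'.ker.subtype))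
  set r1 := finrank K₁ (LinearMap.range (ev (ind π (1 : FreeGroup (Fin k) →* Module.End K₁ K₁)) r))
  set r2 := finrank K₂ (LinearMap.range (ev (ind π ρ₂) r))
  have h4 : y * d ≥ z1 * d := Nat.mul_le_mul_right d y1
  have h5 : (z1 + c + r1) * d = k * ((c + 1) * d) := by
    rw [e1]; ring
  have h6 : (r1 + (m + 1)) * d ≤ (c + 1) * d := Nat.mul_le_mul_right d h1
  have h7 : z1 * d + c * d + r1 * d = z2 + c * d + r2 := by
    rw [e2, ← h5]; ring
  have h8 : r1 * d + m * d + d ≤ c * d + d := by
    calc r1 * d + m * d + d = (r1 + (m + 1)) * d := by ring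
      _ ≤ _ := h6
      _ = c * d + d := by ring
  omega

end Pool.Agent.MelD
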