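import Pool.Agent.MelD.ShapR

/-!
# The cokernel over `ℤ / q`

`A = ZMod q`, `R = rangeR r A π`, `C = (Q → A) / R`.  Proof.  `R` is a subgroup stable under the left
translations `(lt x f) y = f (x y)`, which commute with `indR`.  For a prime `p` that divides `q` the group
`C / p C` is the cokernel over `ZMod p` (reduction `(Q → ZMod q) → (Q → ZMod p)` is onto), so it has dimension
`cork (ZMod p) r π ≤ 1` (`cork_le_one_all`); if it is not zero, it is generated by the class of `δ_1`,
`δ_x = Pi.single x 1`, as the translates of `δ_1` span.  So the class of `δ_1` generates the abelian group `C`, which is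
cyclic of order `c`, `c ∣ q`; `[δ_x] = φ x • [δ_1]` with `φ : Q → ZMod c`, and `δ_(x y) = lt x⁻¹ δ_y` gives
`φ (x y) = φ x φ y`.  The map `Ψ f = ∑ x, φ x * f x` (modulo `c`) kills `R` and
`Ψ (indR g f) = φ (π g)⁻¹ Ψ f`, so `Ψ (coc v r) = ∑ j, fox χ j r * Ψ (v j)` for `χ g = φ (π g)⁻¹`, and
`Dual r χ`.  Conversely a dual character `ψ' : Q → ZMod c'`, `c' ∣ q`, gives the map
`f ↦ ∑ x, ψ' x⁻¹ * f x` of `C` onto `ZMod c'`, so `c' ∣ c`.
-/

open Finset Module

namespace Pool.Agent.MelD

open Pool.Agent.MelG (HasRel)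

namespace CycC

variable {k : ℕ} {Q : Type} [Group Q]

/-- The evaluation at `r` as a linear map. -/
def evR (A : Type) [CommRing A] (π : FreeGroup (Fin k) →* Q) (r : FreeGroup (Fin k)) :
    (Fin k → Q → A) →ₗ[A] (Q → A) where
  toFun v := coc (indR A π) v r
  map_add' := by
    intro a b
    simp only [coc_eq_sum, Pi.add_apply, smul_add, sum_add_distrib]
  map_smul' := by
    intro c a
    simp only [coc_eq_sum, Pi.smul_apply, RingHom.id_apply, smul_sum]
    refine sum_congr rfl fun j _ => ?_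
    exact (fox (indR A π) j r).map_smul c (a j)

theorem evR_apply (A : Type) [CommRing A] (π : FreeGroup (Fin k) →* Q) (r : FreeGroup (Fin k))
    (v : Fin k → Q → A) : evR A π r v = coc (indR A π) v r := rfl

/-- Left translations commute with `coc`. -/
theorem coc_lt {A : Type} [CommRing A] (π : FreeGroup (Fin k) →* Q) (x : Q) (v : Fin k → Q → A)
    (g : FreeGroup (Fin k)) :
    (fun y => coc (indR A π) v g (x * y)) = coc (indR A π) (fun j y => v j (x * y)) g := by
  refine coc_unique (indR A π) (fun g => fun y => coc (indR A π) v g (x * y)) _ ?_ (coc_mul _ _) ?_ g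
  · intro a b
    funext y
    show coc (indR A π) v (a * b) (x * y) =
      coc (indR A π) v a (x * y) + coc (indR A π) v b (x * (y * π a))
    rw [coc_mul, ← mul_assoc]
    rfl
  · intro j
    funext y
    show coc (indR A π) v (FreeGroup.of j) (x * y) = _
    rw [coc_of, coc_of]

/-- Change of rings. -/
theorem coc_ring {A B : Type} [CommRing A] [CommRing B] (θ : A →+* B) (π : FreeGroup (Fin k) →* Q)
    (v : Fin k → Q → A) (g : FreeGroup (Fin k)) :
    (fun y => θ (coc (indR A π) v g y)) = coc (indR B π) (fun j y => θ (v j y)) g := by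
  refine coc_unique (indR B π) (fun g => fun y => θ (coc (indR A π) v g y)) _ ?_ (coc_mul _ _) ?_ g
  · intro a b
    funext y
    show θ (coc (indR A π) v (a * b) y) = θ (coc (indR A π) v a y) + θ (coc (indR A π) v b (y * π a))
    rw [coc_mul, ← map_add]
    rfl
  · intro j
    funext y
    show θ (coc (indR A π) v (FreeGroup.of j) y) = _
    rw [coc_of, coc_of]

/-- The sums twisted by a character. -/
theorem coc_tw [Fintype Q] {A B : Type} [CommRing A] [CommRing B] (θ : A →+* B)
    (π : FreeGroup (Fin k) →* Q) (ψ : Q →* B) (v : Fin k → Q → A) (g : FreeGroup (Fin k)) :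
    ∑ x, ψ x⁻¹ * θ (coc (indR A π) v g x) = coc (ψ.comp π) (fun j => ∑ x, ψ x⁻¹ * θ (v j x)) g := by
  refine coc_unique (ψ.comp π) (fun g => ∑ x, ψ x⁻¹ * θ (coc (indR A π) v g x)) _ ?_ (coc_mul _ _) ?_ g
  · intro a b
    show ∑ x, ψ x⁻¹ * θ (coc (indR A π) v (a * b) x) = ∑ x, ψ x⁻¹ * θ (coc (indR A π) v a x) +
      ψ (π a) * ∑ x, ψ x⁻¹ * θ (coc (indR A π) v b x)
    have h1 : ∀ x, ψ x⁻¹ * θ (coc (indR A π) v (a * b) x) = ψ x⁻¹ * θ (coc (indR A π) v a x) +
        ψ x⁻¹ * θ (coc (indR A π) v b (x * π a)) := by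
      intro x
      rw [coc_mul, ← mul_add, ← map_add]
      rfl
    rw [sum_congr rfl (fun x _ => h1 x), sum_add_distrib]
    congr 1
    rw [← Equiv.sum_comp (Equiv.mulRight (π a)) (fun x => ψ x⁻¹ * θ (coc (indR A π) v b x)), mul_sum]
    refine sum_congr rfl fun x _ => ?_
    simp only [Equiv.coe_mulRight]
    rw [← mul_assoc, ← map_mul]
    congr 2
    group
  · intro j
    show ∑ x, ψ x⁻¹ * θ (coc (indR A π) v (FreeGroup.of j) x) = _
    rw [coc_of, coc_of]

open Classical in
/-- Over the prime field the range and `δ_1` span everything, if the corank is at most one. -/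
theorem span_prime [Fintype Q] {p : ℕ} [Fact p.Prime] (π : FreeGroup (Fin k) →* Q)
    (r : FreeGroup (Fin k)) (hc : cork (ZMod p) r π ≤ 1) (f : Q → ZMod p) :
    ∃ (v : Fin k → Q → ZMod p) (c : ZMod p),
      f = coc (indR (ZMod p) π) v r + c • (Pi.single 1 1 : Q → ZMod p) := by
  have h0 : ind π (1 : FreeGroup (Fin k) →* Module.End (ZMod p) (ZMod p)) = indR (ZMod p) π := by
    apply MonoidHom.ext
    intro g
    apply LinearMap.ext
    intro f
    rfl
  obtain ⟨L, hL⟩ : ∃ L : (Fin k → Q → ZMod p) →ₗ[ZMod p] (Q → ZMod p),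
      L = ev (ind π (1 : FreeGroup (Fin k) →* Module.End (ZMod p) (ZMod p))) r := ⟨_, rfl⟩
  have hLa : ∀ v, L v = coc (indR (ZMod p) π) v r := by
    intro v
    rw [hL, ev_apply, h0]
  have h1 := rank_add_cork (ZMod p) r π
  rw [← hL] at h1
  obtain ⟨d, hd⟩ : ∃ d : Q → ZMod p, d = Pi.single 1 1 := ⟨_, rfl⟩
  have htop : LinearMap.range L ⊔ Submodule.span (ZMod p) {d} = ⊤ := by
    by_cases hmem : d ∈ LinearMap.range L
    · -- all translates
      have hall : ∀ x : Q, (Pi.single x 1 : Q → ZMod p) ∈ LinearMap.range L := by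
        intro x
        obtain ⟨v, hv⟩ := hmem
        refine ⟨fun j y => v j (x⁻¹ * y), ?_⟩
        rw [hLa, ← coc_lt, ← hLa, hv, hd]
        funext y
        by_cases hy : y = x
        · subst hy
          rw [inv_mul_cancel, Pi.single_eq_same, Pi.single_eq_same]
        · rw [Pi.single_eq_of_ne hy, Pi.single_eq_of_ne]
          intro h2
          apply hy
          rw [inv_mul_eq_one] at h2
          exact h2.symm
      have h2 : LinearMap.range L = ⊤ := by
        rw [eq_top_iff]
        intro f _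
        have h3 : f = ∑ x, f x • (Pi.single x 1 : Q → ZMod p) := by
          funext y
          rw [Finset.sum_apply, Finset.sum_eq_single y]
          · rw [Pi.smul_apply, Pi.single_eq_same, smul_eq_mul, mul_one]
          · intro x _ hx
            rw [Pi.smul_apply, Pi.single_eq_of_ne hx.symm, smul_zero]
          · intro h; exact absurd (mem_univ _) h
        rw [h3]
        exact Submodule.sum_mem _ fun x _ => Submodule.smul_mem _ _ (hall x)
      rw [h2, top_sup_eq]
    · apply Submodule.eq_top_of_finrank_eq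
      rw [Module.finrank_fintype_fun_eq_card]
      have h2 : LinearMap.range L < LinearMap.range L ⊔ Submodule.span (ZMod p) {d} := by
        refine lt_of_le_of_ne le_sup_left fun h3 => hmem ?_
        rw [h3]
        exact Submodule.mem_sup_right (Submodule.mem_span_singleton_self d)
      have h3 := Submodule.finrank_lt_finrank_of_lt h2
      have h4 := Submodule.finrank_le (LinearMap.range L ⊔ Submodule.span (ZMod p) {d})
      rw [Module.finrank_fintype_fun_eq_card] at h4
      omega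
  have hf : f ∈ LinearMap.range L ⊔ Submodule.span (ZMod p) {d} := by rw [htop]; exact Submodule.mem_top
  obtain ⟨a, ⟨v, hv⟩, b, hb, hab⟩ := Submodule.mem_sup.1 hf
  obtain ⟨c, hc'⟩ := Submodule.mem_span_singleton.1 hb
  refine ⟨v, c, ?_⟩
  rw [← hLa, hv, ← hd, hc', hab]

/-- Elements of the kernel of the reduction. -/
theorem ker_cast {q p : ℕ} (hq : 0 < q) (hpq : p ∣ q) (x : ZMod q)
    (hx : ZMod.castHom hpq (ZMod p) x = 0) : ∃ y : ZMod q, x = (p : ZMod q) * y := by
  have : NeZero q := ⟨hq.ne'⟩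
  have h1 : x = ((x.val : ℕ) : ZMod q) := (ZMod.natCast_zmod_val x).symm
  rw [h1, map_natCast, ZMod.natCast_eq_zero_iff] at hx
  obtain ⟨y, hy⟩ := hx
  refine ⟨(y : ZMod q), ?_⟩
  rw [h1, hy, Nat.cast_mul]

open Classical in
/-- The range and the multiples of `δ_1` span everything modulo any divisor of `q`. -/
theorem span_mod [Fintype Q] (π : FreeGroup (Fin k) →* Q) (r : FreeGroup (Fin k)) {q : ℕ} (hq : 0 < q)
    (hc : ∀ (p : ℕ) [Fact p.Prime], cork (ZMod p) r π ≤ 1) (n : ℕ) (hn : n ∣ q) :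
    ∀ f : Q → ZMod q, ∃ (v : Fin k → Q → ZMod q) (c : ZMod q) (f' : Q → ZMod q),
      f = coc (indR (ZMod q) π) v r + c • (Pi.single 1 1 : Q → ZMod q) + (n : ZMod q) • f' := by
  induction n using Nat.recOnMul with
  | zero =>
    rw [zero_dvd_iff] at hn
    omega
  | one =>
    intro f
    refine ⟨0, 0, f, ?_⟩
    have h1 : coc (indR (ZMod q) π) (0 : Fin k → Q → ZMod q) r = 0 :=
      (evR (ZMod q) π r).map_zero
    rw [h1, zero_smul, Nat.cast_one, one_smul, zero_add, zero_add]
  | prime p hp =>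
    intro f
    have : Fact p.Prime := ⟨hp⟩
    obtain ⟨v', c', hf⟩ := span_prime π r (hc p) (fun y => ZMod.castHom hn (ZMod p) (f y))
    have hsurj := ZMod.castHom_surjective hn (m := p)
    choose v hv using fun j y => hsurj (v' j y)
    obtain ⟨c, hc2⟩ := hsurj c'
    have h1 : ∀ y, ∃ z : ZMod q, f y - coc (indR (ZMod q) π) v r y -
        c * (Pi.single 1 1 : Q → ZMod q) y = (p : ZMod q) * z := by
      intro y
      apply ker_cast hq hn
      have h2 := congrFun (coc_ring (ZMod.castHom hn (ZMod p)) π v r) y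
      have h3 := congrFun hf y
      have h4 : (fun j y => ZMod.castHom hn (ZMod p) (v j y)) = v' := by
        funext j y
        exact hv j y
      rw [h4] at h2
      have h5 : ZMod.castHom hn (ZMod p) ((Pi.single 1 1 : Q → ZMod q) y) =
          (Pi.single 1 1 : Q → ZMod p) y := by
        by_cases hy : y = 1
        · subst hy
          rw [Pi.single_eq_same, Pi.single_eq_same, map_one]
        · rw [Pi.single_eq_of_ne hy, Pi.single_eq_of_ne hy, map_zero]
      have h6 : ZMod.castHom hn (ZMod p) (coc (indR (ZMod q) π) v r y) =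
          coc (indR (ZMod p) π) v' r y := h2
      have h7 : ZMod.castHom hn (ZMod p) (f y) = coc (indR (ZMod p) π) v' r y +
          c' * (Pi.single 1 1 : Q → ZMod p) y := h3
      rw [map_sub, map_sub, map_mul, h5, h6, hc2, h7]
      ring
    choose z hz using h1
    refine ⟨v, c, z, ?_⟩
    funext y
    have := hz y
    show f y = coc (indR (ZMod q) π) v r y + c * (Pi.single 1 1 : Q → ZMod q) y + (p : ZMod q) * z y
    rw [← this]
    ring
  | mul a b ha hb =>
    intro f
    obtain ⟨v1, c1, f1, h1⟩ := ha ((Dvd.intro _ rfl).trans hn) f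
    obtain ⟨v2, c2, f2, h2⟩ := hb ((Dvd.intro_left _ rfl).trans hn) f1
    refine ⟨v1 + (a : ZMod q) • v2, c1 + (a : ZMod q) * c2, f2, ?_⟩
    have h3 : coc (indR (ZMod q) π) (v1 + (a : ZMod q) • v2) r =
        coc (indR (ZMod q) π) v1 r + (a : ZMod q) • coc (indR (ZMod q) π) v2 r := by
      rw [← evR_apply, map_add, map_smul, evR_apply, evR_apply]
    rw [h1]
    conv_lhs => rw [h2]
    rw [h3]
    funext y
    simp only [Pi.add_apply, Pi.smul_apply, smul_eq_mul, Nat.cast_mul]
    ring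

end CycC

open CycC in
theorem card_rangeR {k : ℕ} (hk : 2 ≤ k) (r : FreeGroup (Fin k)) (hr1 : r ≠ 1) (m : ℕ)
    (H : ∀ N : Subgroup (OR r), N.Normal → N.FiniteIndex → HasRel m N) {Q : Type} [Group Q] [Fintype Q]
    (π : FreeGroup (Fin k) →* Q) (hs : Function.Surjective π) (hπ : π r = 1) (q : ℕ) (hq : 0 < q) :
    ∃ c : ℕ, c ∣ q ∧ (∃ ψ : Q →* ZMod c, Dual r (ψ.comp π)) ∧
      (∀ c' : ℕ, c' ∣ q → (∃ ψ : Q →* ZMod c', Dual r (ψ.comp π)) → c' ∣ c) ∧
      Nat.card (rangeR r (ZMod q) π) * c = q ^ Fintype.card Q := by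
  classical
  have : NeZero q := ⟨hq.ne'⟩
  have hcork : ∀ (p : ℕ) [Fact p.Prime], cork (ZMod p) r π ≤ 1 :=
    fun p _ => cork_le_one_all hk r hr1 m H π hs hπ (ZMod p)
  obtain ⟨R, hR⟩ : ∃ R : Submodule (ZMod q) (Q → ZMod q), R = LinearMap.range (evR (ZMod q) π r) :=
    ⟨_, rfl⟩
  have hmemR : ∀ f, f ∈ R ↔ ∃ v, coc (indR (ZMod q) π) v r = f := by
    intro f
    rw [hR]
    exact Iff.rfl
  let C := (Q → ZMod q) ⧸ R
  let mk : (Q → ZMod q) →ₗ[ZMod q] C := R.mkQ
  have hmk : ∀ f, mk f = 0 ↔ f ∈ R := fun f => Submodule.Quotient.mk_eq_zero R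
  obtain ⟨δ, hδ⟩ : ∃ δ : Q → (Q → ZMod q), δ = fun x => Pi.single x 1 := ⟨_, rfl⟩
  -- every element is a multiple of the class of `δ 1`
  have hgen : ∀ f, ∃ n : ℕ, mk f = n • mk (δ 1) := by
    intro f
    obtain ⟨v, c, f', hf⟩ := span_mod π r hq hcork q dvd_rfl f
    refine ⟨c.val, ?_⟩
    have h1 : mk (coc (indR (ZMod q) π) v r) = 0 := (hmk _).2 ((hmemR _).2 ⟨v, rfl⟩)
    rw [hf, map_add, map_add, h1, zero_add, map_smul, map_smul, ZMod.natCast_self, zero_smul,
      add_zero, hδ]
    conv_lhs => rw [← ZMod.natCast_zmod_val c]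
    rw [Nat.cast_smul_eq_nsmul]
  obtain ⟨c, hcdef⟩ : ∃ c, c = addOrderOf (mk (δ 1)) := ⟨_, rfl⟩
  have hord : ∀ n : ℕ, n • mk (δ 1) = 0 ↔ c ∣ n := by
    intro n
    rw [hcdef]
    exact addOrderOf_dvd_iff_nsmul_eq_zero.symm
  have hcq : c ∣ q := by
    rw [← hord, ← Nat.cast_smul_eq_nsmul (ZMod q), ZMod.natCast_self, zero_smul]
  have hcpos : 0 < c := Nat.pos_of_dvd_of_pos hcq hq
  have hcard : Nat.card C = c := by
    rw [hcdef, ← Nat.card_zmultiples]
    have h1 : AddSubgroup.zmultiples (mk (δ 1)) = ⊤ := by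
      rw [eq_top_iff]
      intro z _
      obtain ⟨f, rfl⟩ := R.mkQ_surjective z
      obtain ⟨n, hn⟩ := hgen f
      rw [AddSubgroup.mem_zmultiples_iff]
      exact ⟨n, by rw [natCast_zsmul]; exact hn.symm⟩
    rw [h1]
    exact (Nat.card_congr (AddSubgroup.topEquiv (G := C)).toEquiv).symm
  -- the character
  choose nx hnx using fun x => hgen (δ x)
  have hRlt : ∀ (x : Q) (f : Q → ZMod q), f ∈ R → (fun y => f (x * y)) ∈ R := by
    intro x f hf
    obtain ⟨v, hv⟩ := (hmemR _).1 hf
    rw [hmemR]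
    refine ⟨fun j y => v j (x * y), ?_⟩
    rw [← coc_lt, hv]
  have hlt : ∀ (x y : Q), (fun z => δ y (x⁻¹ * z)) = δ (x * y) := by
    intro x y
    funext z
    rw [hδ]
    by_cases hz : z = x * y
    · subst hz
      simp
    · simp only
      rw [Pi.single_eq_of_ne hz, Pi.single_eq_of_ne]
      intro h
      apply hz
      rw [← h, mul_inv_cancel_left]
  have hmul : ∀ x y, ((nx (x * y) : ℕ) : ZMod c) = (nx x : ZMod c) * (nx y : ZMod c) := by
    intro x y
    -- `δ y - n_y δ 1 ∈ R`
    have h1 : δ y - (nx y) • δ 1 ∈ R := by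
      rw [← hmk, map_sub, map_nsmul, hnx y, sub_self]
    have h2 := hRlt x⁻¹ _ h1
    have h3 : (fun z => (δ y - (nx y) • δ 1) (x⁻¹ * z)) = δ (x * y) - (nx y) • δ x := by
      funext z
      have h4 := congrFun (hlt x y) z
      have h5 := congrFun (hlt x 1) z
      rw [mul_one] at h5
      show δ y (x⁻¹ * z) - (nx y) • δ 1 (x⁻¹ * z) = δ (x * y) z - (nx y) • δ x z
      rw [← h4, ← h5]
    rw [h3, ← hmk, map_sub, map_nsmul, hnx (x * y), hnx x, sub_eq_zero, smul_smul] at h2
    have h6 : ((nx (x * y) : ℕ) : ZMod c) = ((nx y * nx x : ℕ) : ZMod c) := by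
      rw [ZMod.natCast_eq_natCast_iff]
      rw [hcdef]
      exact (nsmul_eq_nsmul_iff_modEq).1 h2
    rw [h6, Nat.cast_mul, mul_comm]
  have hone : ((nx 1 : ℕ) : ZMod c) = ((1 : ℕ) : ZMod c) := by
    rw [ZMod.natCast_eq_natCast_iff, hcdef]
    refine (nsmul_eq_nsmul_iff_modEq).1 ?_
    rw [one_smul]
    exact (hnx 1).symm
  let ψ : Q →* ZMod c :=
    { toFun := fun x => ((nx x⁻¹ : ℕ) : ZMod c)
      map_one' := by rw [inv_one, hone, Nat.cast_one]
      map_mul' := by
        intro x y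
        rw [mul_inv_rev, hmul, mul_comm] }
  have hψ : ∀ x, ψ x⁻¹ = ((nx x : ℕ) : ZMod c) := by
    intro x
    show ((nx x⁻¹⁻¹ : ℕ) : ZMod c) = _
    rw [inv_inv]
  have hkill : ∀ f, f ∈ R → ∑ x, ψ x⁻¹ * ZMod.castHom hcq (ZMod c) (f x) = 0 := by
    intro f hf
    have h1 : f = ∑ x, (f x).val • δ x := by
      funext y
      rw [Finset.sum_apply, Finset.sum_eq_single y]
      · rw [hδ, Pi.smul_apply]
        simp only [Pi.single_eq_same]
        rw [nsmul_eq_mul, mul_one, ZMod.natCast_zmod_val]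
      · intro x _ hx
        rw [hδ, Pi.smul_apply]
        simp only
        rw [Pi.single_eq_of_ne hx.symm, smul_zero]
      · intro h; exact absurd (mem_univ _) h
    have h2 : (∑ x, (f x).val * nx x) • mk (δ 1) = 0 := by
      rw [Finset.sum_smul, ← (hmk f).2 hf]
      conv_rhs => rw [h1]
      rw [map_sum]
      refine Finset.sum_congr rfl fun x _ => ?_
      rw [map_nsmul, hnx x, smul_smul]
    rw [hord, ← ZMod.natCast_eq_zero_iff, Nat.cast_sum] at h2
    rw [← h2]
    refine Finset.sum_congr rfl fun x _ => ?_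
    rw [hψ, Nat.cast_mul, mul_comm]
    congr 1
    conv_lhs => rw [← ZMod.natCast_zmod_val (f x)]
    rw [map_natCast]
  refine ⟨c, hcq, ⟨ψ, ?_⟩, ?_, ?_⟩
  · intro j
    have h1 := coc_tw (ZMod.castHom hcq (ZMod c)) π ψ (Pi.single j (δ 1)) r
    rw [hkill _ ((hmemR _).2 ⟨_, rfl⟩), coc_eq_sum, Finset.sum_eq_single j] at h1
    · have h2 : ∑ x, ψ x⁻¹ * ZMod.castHom hcq (ZMod c) ((Pi.single j (δ 1) : Fin k → Q → ZMod q) j x) = 1 := by
        rw [Pi.single_eq_same, Finset.sum_eq_single 1]
        · rw [hδ]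
          simp only [Pi.single_eq_same]
          rw [inv_one, map_one, map_one, mul_one]
        · intro x _ hx
          rw [hδ]
          simp only
          rw [Pi.single_eq_of_ne hx, map_zero, mul_zero]
        · intro h; exact absurd (mem_univ _) h
      rw [h2, smul_eq_mul, mul_one] at h1
      exact h1.symm
    · intro i _ hi
      rw [Pi.single_eq_of_ne hi]
      have h3 : ∑ x, ψ x⁻¹ * ZMod.castHom hcq (ZMod c) ((0 : Q → ZMod q) x) = 0 := by
        refine Finset.sum_eq_zero fun x _ => ?_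
        rw [Pi.zero_apply, map_zero, mul_zero]
      rw [h3, smul_zero]
    · intro h; exact absurd (mem_univ _) h
  · rintro c' hc' ⟨ψ', hψ'⟩
    have h1 : (c • δ 1) ∈ R := by
      rw [← hmk, map_nsmul, hord]
    obtain ⟨v, hv⟩ := (hmemR _).1 h1
    have h2 := coc_tw (ZMod.castHom hc' (ZMod c')) π ψ' v r
    rw [hv, coc_eq_sum, Finset.sum_eq_zero (s := (Finset.univ : Finset (Fin k)))
      (fun j _ => by rw [hψ' j, zero_smul]), Finset.sum_eq_single 1] at h2
    · rw [hδ] at h2
      simp only [Pi.smul_apply, Pi.single_eq_same] at h2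
      rw [inv_one, map_one, one_mul, nsmul_eq_mul, mul_one, map_natCast] at h2
      exact (ZMod.natCast_eq_zero_iff _ _).1 h2
    · intro x _ hx
      rw [hδ]
      simp only [Pi.smul_apply]
      rw [Pi.single_eq_of_ne hx, smul_zero, map_zero, mul_zero]
    · intro h; exact absurd (mem_univ _) h
  · have h1 := Submodule.card_eq_card_quotient_mul_card R
    have h2 : Nat.card (Q → ZMod q) = q ^ Fintype.card Q := by
      rw [Nat.card_fun, Nat.card_zmod, Nat.card_eq_fintype_card]
    have h3 : Nat.card (rangeR r (ZMod q) π) = Nat.card R := by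
      refine Nat.card_congr (Equiv.subtypeEquivRight fun x => ?_)
      rw [hmemR]
      exact Iff.rfl
    rw [h3, ← h2, h1]
    have h4 : Nat.card ((Q → ZMod q) ⧸ R) = c := hcard
    rw [h4, mul_comm]

end Pool.Agent.MelD
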