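import Pool.Agent.MelD.B1

/-!
# Density, the version with degrees

`R` the normal closure of `r`, `T` a subgroup of the free group, `s` in `[R, F]` with `s r` in `VT p T`,
`p` prime: then `p` does not divide the index of the image of `T` in any finite quotient `Q` of the one-relator
group.  So if `s r` is in the commutator subgroup of `T`, then `T` maps onto every finite quotient.

Proof: `ℓ` the sum over `Q`, `ℓ_q` the sum over the coset `q T_Q`.  For crossed homomorphisms
`c (s r) = P (c r)`, where `P` commutes with the left translations and `ℓ P = ℓ`.  The functional `ℓ_q P` kills the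
range of `ev`, so it is `c ℓ`, with `c` independent of `q`; the sum over the cosets is `ℓ = [Q : T_Q] c ℓ`.
-/

open Finset Module

namespace Pool.Agent.MelD

open Pool.Agent.MelG (HasRel)

namespace Deg

variable {K : Type} [Field K] {k : ℕ} {Q : Type} [Group Q]

/-- left translation -/
def lt (K : Type) [Field K] (x : Q) : (Q → K) →ₗ[K] (Q → K) where
  toFun f q := f (x * q)
  map_add' _ _ := rfl
  map_smul' _ _ := rfl

/-- the sum over `Q` -/
def tot (K : Type) [Field K] (Q : Type) [Fintype Q] : (Q → K) →ₗ[K] K where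
  toFun f := ∑ q, f q
  map_add' f g := by simp only [Pi.add_apply, sum_add_distrib]
  map_smul' c f := by simp only [Pi.smul_apply, smul_eq_mul, RingHom.id_apply, mul_sum]

theorem tot_lt [Fintype Q] (x : Q) (f : Q → K) : tot K Q (lt K x f) = tot K Q f :=
  Fintype.sum_equiv (Equiv.mulLeft x) _ _ fun _ => rfl

theorem tot_ind [Fintype Q] (π : FreeGroup (Fin k) →* Q) (g : FreeGroup (Fin k)) (f : Q → K) :
    tot K Q (ind π (1 : FreeGroup (Fin k) →* Module.End K K) g f) = tot K Q f :=
  Fintype.sum_equiv (Equiv.mulRight (π g)) _ _ fun _ => rfl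

/-- the sum over a coset -/
noncomputable def cs (K : Type) [Field K] [Fintype Q] (S : Subgroup Q) (q : Q) : (Q → K) →ₗ[K] K := by
  classical
  exact
    { toFun := fun f => ∑ t : S, f (q * t)
      map_add' := fun f g => by simp only [Pi.add_apply, sum_add_distrib]
      map_smul' := fun c f => by simp only [Pi.smul_apply, smul_eq_mul, RingHom.id_apply, mul_sum] }

theorem cs_mul [Fintype Q] (S : Subgroup Q) (x q : Q) (f : Q → K) :
    cs K S (x * q) f = cs K S q (lt K x f) := by
  classical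
  show ∑ t : S, f (x * q * t) = ∑ t : S, f (x * (q * t))
  exact Finset.sum_congr rfl fun t _ => by rw [mul_assoc]

theorem cs_ind [Fintype Q] (S : Subgroup Q) (π : FreeGroup (Fin k) →* Q) (q : Q)
    (g : FreeGroup (Fin k)) (hg : π g ∈ S) (f : Q → K) :
    cs K S q (ind π (1 : FreeGroup (Fin k) →* Module.End K K) g f) = cs K S q f := by
  classical
  show ∑ t : S, f (q * t * π g) = ∑ t : S, f (q * t)
  refine Fintype.sum_equiv (Equiv.mulRight (⟨π g, hg⟩ : S)) _ _ fun t => ?_
  show f (q * t * π g) = f (q * (t * π g))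
  rw [mul_assoc]

/-- the sum over all cosets -/
theorem sum_cs [Fintype Q] (S : Subgroup Q) (c : K) (f : Q → K) (h : ∀ q, cs K S q f = c) :
    tot K Q f = (S.index : K) * c := by
  classical
  have : Fintype (Q ⧸ S) := Fintype.ofFinite _
  let e : (Q ⧸ S) × S → Q := fun x => x.1.out * x.2
  have he : Function.Bijective e := by
    constructor
    · rintro ⟨x, t⟩ ⟨y, u⟩ hxy
      have hxy' : x.out * (t : Q) = y.out * (u : Q) := hxy
      have h1 : x = y := by
        have h2 := congrArg (fun q : Q => (q : Q ⧸ S)) hxy'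
        simp only [QuotientGroup.mk_mul_of_mem _ t.2, QuotientGroup.mk_mul_of_mem _ u.2,
          QuotientGroup.out_eq'] at h2
        exact h2
      subst h1
      have h3 : t = u := Subtype.ext (mul_left_cancel hxy')
      rw [h3]
    · intro q
      have h1 : ((q : Q ⧸ S).out)⁻¹ * q ∈ S := by
        rw [← QuotientGroup.eq, QuotientGroup.out_eq']
      exact ⟨⟨(q : Q ⧸ S), ⟨_, h1⟩⟩, mul_inv_cancel_left _ _⟩
  have h1 : tot K Q f = ∑ x : (Q ⧸ S) × S, f (e x) :=
    (Fintype.sum_equiv (Equiv.ofBijective e he) (fun x => f (e x)) f (fun _ => rfl)).symm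
  rw [h1, Fintype.sum_prod_type]
  have h2 : ∀ x : Q ⧸ S, ∑ y : S, f (e (x, y)) = c := fun x => h x.out
  rw [Finset.sum_congr rfl fun x _ => h2 x, sum_const, card_univ, nsmul_eq_mul, Subgroup.index,
    Nat.card_eq_fintype_card]

/-- The values of crossed homomorphisms on the normal closure. -/
theorem val_R (r : FreeGroup (Fin k)) (π : FreeGroup (Fin k) →* Q) (hπ : π r = 1)
    (t : FreeGroup (Fin k)) (ht : t ∈ Subgroup.normalClosure ({r} : Set (FreeGroup (Fin k)))) :
    π t = 1 ∧ ∃ P : (Q → K) →ₗ[K] (Q → K), (∀ x f, P (lt K x f) = lt K x (P f)) ∧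
      ∀ v, coc (ind π (1 : FreeGroup (Fin k) →* Module.End K K)) v t =
        P (coc (ind π (1 : FreeGroup (Fin k) →* Module.End K K)) v r) := by
  have hind : ∀ g, π g = 1 → ind π (1 : FreeGroup (Fin k) →* Module.End K K) g = 1 := by
    intro g hg
    apply LinearMap.ext
    intro f
    funext q
    show f (q * π g) = f q
    rw [hg, mul_one]
  refine Subgroup.closure_induction (p := fun t _ => π t = 1 ∧ ∃ P : (Q → K) →ₗ[K] (Q → K),
    (∀ x f, P (lt K x f) = lt K x (P f)) ∧
      ∀ v, coc (ind π (1 : FreeGroup (Fin k) →* Module.End K K)) v t =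
        P (coc (ind π (1 : FreeGroup (Fin k) →* Module.End K K)) v r)) ?_ ?_ ?_ ?_ ht
  · intro x hx
    obtain ⟨a, ha, hc⟩ := Group.mem_conjugatesOfSet_iff.mp hx
    rw [Set.mem_singleton_iff.mp ha] at hc
    obtain ⟨g, rfl⟩ := isConj_iff.mp hc
    refine ⟨by rw [map_mul, map_mul, hπ, mul_one, map_inv, mul_inv_cancel],
      ind π (1 : FreeGroup (Fin k) →* Module.End K K) g, fun x f => ?_, fun v => ?_⟩
    · funext q
      show f (x * (q * π g)) = f (x * q * π g)
      rw [mul_assoc]
    · rw [coc_mul, coc_mul, coc_inv, map_mul, hind r hπ, mul_one, smul_neg, smul_smul, ← map_mul,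
        mul_inv_cancel, map_one, one_smul]
      show _ + ind π (1 : FreeGroup (Fin k) →* Module.End K K) g _ + - _ = _
      abel
  · refine ⟨map_one π, 0, fun x f => ?_, fun v => ?_⟩
    · rw [LinearMap.zero_apply, LinearMap.zero_apply, map_zero]
    · rw [coc_one, LinearMap.zero_apply]
  · rintro a b _ _ ⟨ha, P, hP, hPv⟩ ⟨hb, P', hP', hPv'⟩
    refine ⟨by rw [map_mul, ha, hb, one_mul], P + P', fun x f => ?_, fun v => ?_⟩
    · rw [LinearMap.add_apply, LinearMap.add_apply, hP, hP', map_add]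
    · rw [coc_mul, hind a ha, one_smul, hPv, hPv']
      rfl
  · rintro a _ ⟨ha, P, hP, hPv⟩
    have ha' : π a⁻¹ = 1 := by rw [map_inv, ha, inv_one]
    refine ⟨ha', -P, fun x f => ?_, fun v => ?_⟩
    · rw [LinearMap.neg_apply, LinearMap.neg_apply, hP, map_neg]
    · rw [coc_inv, hind _ ha', one_smul, hPv]
      rfl

/-- The values of crossed homomorphisms on `[R, F]`. -/
theorem val_RF [Fintype Q] (r : FreeGroup (Fin k)) (π : FreeGroup (Fin k) →* Q) (hπ : π r = 1)
    (s : FreeGroup (Fin k))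
    (hs : s ∈ ⁅Subgroup.normalClosure ({r} : Set (FreeGroup (Fin k))), (⊤ : Subgroup (FreeGroup (Fin k)))⁆) :
    π s = 1 ∧ ∃ P : (Q → K) →ₗ[K] (Q → K), (∀ x f, P (lt K x f) = lt K x (P f)) ∧
      (∀ f, tot K Q (P f) = 0) ∧
      ∀ v, coc (ind π (1 : FreeGroup (Fin k) →* Module.End K K)) v s =
        P (coc (ind π (1 : FreeGroup (Fin k) →* Module.End K K)) v r) := by
  have hind : ∀ g, π g = 1 → ind π (1 : FreeGroup (Fin k) →* Module.End K K) g = 1 := by
    intro g hg
    apply LinearMap.ext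
    intro f
    funext q
    show f (q * π g) = f q
    rw [hg, mul_one]
  rw [Subgroup.commutator_def] at hs
  refine Subgroup.closure_induction (p := fun s _ => π s = 1 ∧ ∃ P : (Q → K) →ₗ[K] (Q → K),
    (∀ x f, P (lt K x f) = lt K x (P f)) ∧ (∀ f, tot K Q (P f) = 0) ∧
      ∀ v, coc (ind π (1 : FreeGroup (Fin k) →* Module.End K K)) v s =
        P (coc (ind π (1 : FreeGroup (Fin k) →* Module.End K K)) v r)) ?_ ?_ ?_ ?_ hs
  · rintro _ ⟨a, ha, b, _, rfl⟩
    obtain ⟨ha1, P, hP, hPv⟩ := val_R (K := K) r π hπ a ha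
    have ha' : π a⁻¹ = 1 := by rw [map_inv, ha1, inv_one]
    refine ⟨by rw [map_commutatorElement, ha1, commutatorElement_one_left],
      P - (ind π (1 : FreeGroup (Fin k) →* Module.End K K) b).comp P, fun x f => ?_, fun f => ?_,
      fun v => ?_⟩
    · rw [LinearMap.sub_apply, LinearMap.sub_apply, LinearMap.comp_apply, LinearMap.comp_apply, hP, map_sub]
      congr 1
      funext q
      show P f (x * (q * π b)) = P f (x * q * π b)
      rw [mul_assoc]
    · rw [LinearMap.sub_apply, LinearMap.comp_apply, map_sub, tot_ind, sub_self]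
    · rw [commutatorElement_def, coc_mul, coc_mul, coc_mul, coc_inv, coc_inv, map_mul, map_mul, hind a ha1,
        hind _ ha', hPv]
      simp only [one_mul, mul_one, one_smul, smul_neg]
      rw [smul_smul, ← map_mul, mul_inv_cancel_right, hind a ha1, one_smul]
      show P _ + _ + - ind π (1 : FreeGroup (Fin k) →* Module.End K K) b (P _) + - _ =
        P _ - ind π (1 : FreeGroup (Fin k) →* Module.End K K) b (P _)
      abel
  · refine ⟨map_one π, 0, fun x f => ?_, fun f => ?_, fun v => ?_⟩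
    · rw [LinearMap.zero_apply, LinearMap.zero_apply, map_zero]
    · rw [LinearMap.zero_apply, map_zero]
    · rw [coc_one, LinearMap.zero_apply]
  · rintro a b _ _ ⟨ha, P, hP, hP0, hPv⟩ ⟨hb, P', hP', hP0', hPv'⟩
    refine ⟨by rw [map_mul, ha, hb, one_mul], P + P', fun x f => ?_, fun f => ?_, fun v => ?_⟩
    · rw [LinearMap.add_apply, LinearMap.add_apply, hP, hP', map_add]
    · rw [LinearMap.add_apply, map_add, hP0, hP0', add_zero]
    · rw [coc_mul, hind a ha, one_smul, hPv, hPv']
      rfl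
  · rintro a _ ⟨ha, P, hP, hP0, hPv⟩
    have ha' : π a⁻¹ = 1 := by rw [map_inv, ha, inv_one]
    refine ⟨ha', -P, fun x f => ?_, fun f => ?_, fun v => ?_⟩
    · rw [LinearMap.neg_apply, LinearMap.neg_apply, hP, map_neg]
    · rw [LinearMap.neg_apply, map_neg, hP0, neg_zero]
    · rw [coc_inv, hind _ ha', one_smul, hPv]
      rfl

end Deg

open Deg

/-- The index of the image of `T` is prime to `p`. -/
theorem index_deg {k : ℕ} (hk : 2 ≤ k) (r : FreeGroup (Fin k)) (hr1 : r ≠ 1) (m : ℕ)
    (H : ∀ N : Subgroup (OR r), N.Normal → N.FiniteIndex → HasRel m N) (p : ℕ)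
    (hp : p.Prime) (T : Subgroup (FreeGroup (Fin k))) (s : FreeGroup (Fin k))
    (hs : s ∈ ⁅Subgroup.normalClosure ({r} : Set (FreeGroup (Fin k))), (⊤ : Subgroup (FreeGroup (Fin k)))⁆)
    (hT : s * r ∈ VT p T) {Q : Type} [Group Q]
    [Fintype Q] (π : FreeGroup (Fin k) →* Q) (hsur : Function.Surjective π) (hπ : π r = 1) :
    ¬ p ∣ (T.map π).index := by
  classical
  intro hdvd
  have : Fact p.Prime := ⟨hp⟩
  let K := ZMod p
  have hK : ∀ a : K, p • a = 0 := fun a => by
    rw [nsmul_eq_mul, CharP.cast_eq_zero, zero_mul]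
  -- `r` in `VT p ⊤`
  have hrtop : r ∈ VT p (⊤ : Subgroup (FreeGroup (Fin k))) := by
    have h1 : s ∈ VT p (⊤ : Subgroup (FreeGroup (Fin k))) := by
      unfold VT
      exact Subgroup.mem_sup_left (Subgroup.commutator_mono le_top le_rfl hs)
    have h2 : s * r ∈ VT p (⊤ : Subgroup (FreeGroup (Fin k))) := VT_mono p le_top hT
    have h3 := Subgroup.mul_mem _ (Subgroup.inv_mem _ h1) h2
    rwa [inv_mul_cancel_left] at h3
  obtain ⟨hs1, P, hP, hP0, hPv⟩ := val_RF (K := K) r π hπ s hs
  set ρ := ind π (1 : FreeGroup (Fin k) →* Module.End K K) with hρ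
  have hsr : ∀ v, coc ρ v (s * r) = P (coc ρ v r) + coc ρ v r := by
    intro v
    rw [coc_mul, hPv]
    congr 1
    funext q
    show coc ρ v r (q * π s) = coc ρ v r q
    rw [hs1, mul_one]
  -- the range of `ev` is the kernel of the sum
  have hker : LinearMap.range (ev ρ r) = LinearMap.ker (tot K Q) := by
    have h1 : LinearMap.range (ev ρ r) ≤ LinearMap.ker (tot K Q) := by
      rintro _ ⟨v, rfl⟩
      refine VT_kill p ⊤ hK (fun g => tot K Q (coc ρ v g)) ?_ r hrtop
      intro g _ h _
      show tot K Q (coc ρ v (g * h)) = tot K Q (coc ρ v g) + tot K Q (coc ρ v h)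
      rw [coc_mul, map_add]
      congr 1
      exact tot_ind π g _
    refine Submodule.eq_of_le_of_finrank_le h1 ?_
    have h2 := cork_le_one_all hk r hr1 m H π hsur hπ K
    have h3 := rank_add_cork K r π
    have h4 := LinearMap.finrank_range_add_finrank_ker (tot K Q)
    have h5 : LinearMap.range (tot K Q) = ⊤ := by
      rw [LinearMap.range_eq_top]
      intro a
      refine ⟨Pi.single 1 a, ?_⟩
      show ∑ q, (Pi.single 1 a : Q → K) q = a
      rw [Finset.sum_eq_single 1 (fun q _ hq => Pi.single_eq_of_ne hq _)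
        (fun h => absurd (mem_univ _) h), Pi.single_eq_same]
    rw [h5, finrank_top, finrank_self, Module.finrank_fintype_fun_eq_card] at h4
    show _ ≤ finrank K (LinearMap.range (ev (ind π (1 : FreeGroup (Fin k) →* Module.End K K)) r))
    omega
  let f₀ : Q → K := Pi.single 1 1
  have hf₀ : tot K Q f₀ = 1 := by
    show ∑ q, (Pi.single 1 1 : Q → K) q = 1
    rw [Finset.sum_eq_single 1 (fun q _ hq => Pi.single_eq_of_ne hq _)
      (fun h => absurd (mem_univ _) h), Pi.single_eq_same]
  -- the functionals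
  let φ : Q → (Q → K) →ₗ[K] K := fun q => (cs K (T.map π) q).comp (P + 1)
  have hφ0 : ∀ q f, tot K Q f = 0 → φ q f = 0 := by
    intro q f hf
    have h1 : f ∈ LinearMap.range (ev ρ r) := by
      rw [hker]
      exact hf
    obtain ⟨v, rfl⟩ := h1
    show cs K (T.map π) q (P (coc ρ v r) + coc ρ v r) = 0
    rw [← hsr]
    refine VT_kill p T hK (fun g => cs K (T.map π) q (coc ρ v g)) ?_ (s * r) hT
    intro g hg h _
    show cs K (T.map π) q (coc ρ v (g * h)) = cs K (T.map π) q (coc ρ v g) + cs K (T.map π) q (coc ρ v h)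
    rw [coc_mul, map_add]
    congr 1
    exact cs_ind (T.map π) π q g (Subgroup.mem_map_of_mem π hg) _
  have hφ1 : ∀ q f, φ q f = tot K Q f * φ q f₀ := by
    intro q f
    have h1 := hφ0 q (f - tot K Q f • f₀) (by
      rw [map_sub, map_smul, hf₀, smul_eq_mul, mul_one, sub_self])
    rw [map_sub, map_smul, smul_eq_mul, sub_eq_zero] at h1
    exact h1
  have hφ2 : ∀ q, φ q f₀ = φ 1 f₀ := by
    intro q
    have h1 : φ q f₀ = φ 1 (lt K q f₀) := by
      show cs K (T.map π) q (P f₀ + f₀) = cs K (T.map π) 1 (P (lt K q f₀) + lt K q f₀)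
      rw [hP, ← map_add, ← cs_mul, mul_one]
    rw [h1, hφ1, tot_lt, hf₀, one_mul]
  have h6 : tot K Q (P f₀ + f₀) = ((T.map π).index : K) * φ 1 f₀ :=
    sum_cs (T.map π) (φ 1 f₀) (P f₀ + f₀) hφ2
  rw [map_add, hP0, zero_add, hf₀, (CharP.cast_eq_zero_iff K p _).2 hdvd, zero_mul] at h6
  exact one_ne_zero h6

/-- Density from the class of `r` modulo `[R, F]`. -/
theorem dens_deg {k : ℕ} (hk : 2 ≤ k) (r : FreeGroup (Fin k)) (hr1 : r ≠ 1) (m : ℕ)
    (H : ∀ N : Subgroup (OR r), N.Normal → N.FiniteIndex → HasRel m N)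
    (T : Subgroup (FreeGroup (Fin k))) (s : FreeGroup (Fin k))
    (hs : s ∈ ⁅Subgroup.normalClosure ({r} : Set (FreeGroup (Fin k))), (⊤ : Subgroup (FreeGroup (Fin k)))⁆)
    (hT : s * r ∈ ⁅T, T⁆) {Q : Type} [Group Q]
    [Fintype Q] (π : FreeGroup (Fin k) →* Q) (hsur : Function.Surjective π) (hπ : π r = 1) :
    T.map π = ⊤ := by
  rw [← Subgroup.index_eq_one]
  by_contra hne
  obtain ⟨p, hp, hdvd⟩ := Nat.exists_prime_and_dvd hne
  refine index_deg hk r hr1 m H p hp T s hs ?_ π hsur hπ hdvd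
  unfold VT
  exact Subgroup.mem_sup_left hT

end Pool.Agent.MelD
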