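import Pool.Agent.MelD.ShapR
import Pool.Agent.MelD.Deg

/-!
# The cokernel over `ℤ / q` is generated by the class of `δ_1`

`gen_delta`: every function `Q → ZMod q` is a multiple of `δ_1` plus an element of the range of `v ↦ coc (indR A π) v r`.
For a prime `p` that divides `q` this holds modulo `p` (corank at most one; the range over `ZMod p` is stable under the left
translations), and then it holds modulo every product of such primes.
-/

set_option autoImplicit false

open Finset Module

namespace Pool.Agent.MelD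

open Pool.Agent.MelG (HasRel)

namespace CycC

section field

variable {K : Type} [Field K] {k : ℕ} {Q : Type} [Group Q]

/-- the values of crossed homomorphisms commute with the left translations -/
theorem coc_lt (π : FreeGroup (Fin k) →* Q) (x : Q) (v : Fin k → Q → K) (g : FreeGroup (Fin k)) :
    Deg.lt K x (coc (ind π (1 : FreeGroup (Fin k) →* Module.End K K)) v g) =
      coc (ind π (1 : FreeGroup (Fin k) →* Module.End K K)) (fun j => Deg.lt K x (v j)) g := by
  refine coc_unique (ind π (1 : FreeGroup (Fin k) →* Module.End K K))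
    (fun g => Deg.lt K x (coc (ind π (1 : FreeGroup (Fin k) →* Module.End K K)) v g)) _ ?_ (coc_mul _ _) ?_ g
  · intro a b
    rw [coc_mul, map_add]
    congr 1
    funext q
    show (coc (ind π (1 : FreeGroup (Fin k) →* Module.End K K)) v b) (x * q * π a) =
      (coc (ind π (1 : FreeGroup (Fin k) →* Module.End K K)) v b) (x * (q * π a))
    rw [mul_assoc]
  · intro j
    rw [coc_of, coc_of]

open Classical in
/-- corank at most one: `δ_1` generates modulo the range -/
theorem gen_field [Fintype Q] (r : FreeGroup (Fin k)) (π : FreeGroup (Fin k) →* Q) (h : cork K r π ≤ 1)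
    (f : Q → K) : ∃ (n : K) (v : Fin k → Q → K),
      f = n • (Pi.single 1 1 : Q → K) + coc (ind π (1 : FreeGroup (Fin k) →* Module.End K K)) v r := by
  set E := ev (ind π (1 : FreeGroup (Fin k) →* Module.End K K)) r with hE
  have hr := rank_add_cork K r π
  rw [← hE] at hr
  set S : Submodule K (Q → K) := LinearMap.range E ⊔ Submodule.span K {(Pi.single 1 1 : Q → K)} with hS
  have hfin : FiniteDimensional K (Q → K) := inferInstance
  have htop : S = ⊤ := by
    by_cases h1 : (Pi.single 1 1 : Q → K) ∈ LinearMap.range E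
    · -- all the delta functions are in the range
      have h2 : ∀ x : Q, (Pi.single x 1 : Q → K) ∈ LinearMap.range E := by
        intro x
        obtain ⟨v, hv⟩ := h1
        refine ⟨fun j => Deg.lt K x⁻¹ (v j), ?_⟩
        rw [hE, ev_apply, ← coc_lt, ← ev_apply, ← hE, hv]
        funext y
        show (Pi.single 1 1 : Q → K) (x⁻¹ * y) = (Pi.single x 1 : Q → K) y
        rw [Pi.single_apply, Pi.single_apply]
        congr 1
        exact propext ⟨fun hh => by rw [← mul_one x, ← hh, mul_inv_cancel_left], fun hh => by rw [hh, inv_mul_cancel]⟩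
      rw [eq_top_iff]
      intro f _
      refine Submodule.mem_sup_left ?_
      have h3 : f = ∑ x, f x • (Pi.single x 1 : Q → K) := by
        funext y
        rw [Finset.sum_apply, Finset.sum_eq_single y]
        · rw [Pi.smul_apply, Pi.single_eq_same, smul_eq_mul, mul_one]
        · intro x _ hx
          rw [Pi.smul_apply, Pi.single_apply, if_neg hx.symm, smul_zero]
        · intro hy
          exact absurd (mem_univ y) hy
      rw [h3]
      exact Submodule.sum_mem _ fun x _ => Submodule.smul_mem _ _ (h2 x)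
    · have h2 : LinearMap.range E < S := by
        refine lt_of_le_of_ne le_sup_left fun hh => h1 ?_
        rw [hh]
        exact Submodule.mem_sup_right (Submodule.mem_span_singleton_self _)
      have h3 := Submodule.finrank_lt_finrank_of_lt h2
      refine Submodule.eq_top_of_finrank_eq ?_
      have h4 := Submodule.finrank_le S
      rw [Module.finrank_fintype_fun_eq_card] at h4 ⊢
      omega
  have hf : f ∈ S := by rw [htop]; exact Submodule.mem_top
  obtain ⟨a, ⟨v, hv⟩, b, hb, hab⟩ := Submodule.mem_sup.1 hf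
  obtain ⟨n, rfl⟩ := Submodule.mem_span_singleton.1 hb
  exact ⟨n, v, by rw [← hab, ← hv, hE, ev_apply, add_comm]⟩

end field

section red

variable {k : ℕ} {Q : Type} [Group Q]

/-- reduction of the values of crossed homomorphisms -/
theorem coc_red {q p : ℕ} (hp : p ∣ q) [Fact p.Prime] (π : FreeGroup (Fin k) →* Q) (v : Fin k → Q → ZMod q)
    (g : FreeGroup (Fin k)) :
    (fun x => ZMod.castHom hp (ZMod p) (coc (indR (ZMod q) π) v g x)) =
      coc (ind π (1 : FreeGroup (Fin k) →* Module.End (ZMod p) (ZMod p))) (fun j x => ZMod.castHom hp (ZMod p) (v j x)) g := by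
  refine coc_unique (ind π (1 : FreeGroup (Fin k) →* Module.End (ZMod p) (ZMod p)))
    (fun g x => ZMod.castHom hp (ZMod p) (coc (indR (ZMod q) π) v g x)) _ ?_ (coc_mul _ _) ?_ g
  · intro a b
    funext x
    show ZMod.castHom hp (ZMod p) (coc (indR (ZMod q) π) v (a * b) x) = _
    rw [coc_mul, Pi.add_apply, map_add]
    rfl
  · intro j
    rw [coc_of, coc_of]

theorem coc_add (q : ℕ) (π : FreeGroup (Fin k) →* Q) (v v' : Fin k → Q → ZMod q) (g : FreeGroup (Fin k)) :
    coc (indR (ZMod q) π) (v + v') g = coc (indR (ZMod q) π) v g + coc (indR (ZMod q) π) v' g := by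
  simp only [coc_eq_sum, Pi.add_apply, smul_add, sum_add_distrib]

theorem coc_smul (q : ℕ) (π : FreeGroup (Fin k) →* Q) (c : ZMod q) (v : Fin k → Q → ZMod q) (g : FreeGroup (Fin k)) :
    coc (indR (ZMod q) π) (c • v) g = c • coc (indR (ZMod q) π) v g := by
  simp only [coc_eq_sum, Pi.smul_apply, smul_sum]
  refine sum_congr rfl fun j _ => ?_
  exact (fox (indR (ZMod q) π) j g).map_smul c (v j)

open Classical in
/-- modulo a prime -/
theorem gen_mod [Fintype Q] {q p : ℕ} (hp : p ∣ q) [Fact p.Prime] (r : FreeGroup (Fin k)) (π : FreeGroup (Fin k) →* Q)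
    (h : cork (ZMod p) r π ≤ 1) (f : Q → ZMod q) :
    ∃ (n : ZMod q) (v : Fin k → Q → ZMod q) (f' : Q → ZMod q),
      f = n • (Pi.single 1 1 : Q → ZMod q) + coc (indR (ZMod q) π) v r + (p : ZMod q) • f' := by
  obtain ⟨n, v, hn⟩ := gen_field r π h (fun x => ZMod.castHom hp (ZMod p) (f x))
  have hsurj : Function.Surjective (ZMod.castHom hp (ZMod p)) := ZMod.castHom_surjective hp
  obtain ⟨n', rfl⟩ := hsurj n
  choose s hs using hsurj
  set v' : Fin k → Q → ZMod q := fun j x => s (v j x) with hv'
  have h1 : v = fun j x => ZMod.castHom hp (ZMod p) (v' j x) := by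
    funext j x
    exact (hs (v j x)).symm
  rw [h1, ← coc_red hp π v' r] at hn
  -- the difference is killed by the reduction
  have h2 : ∀ x, ∃ y : ZMod q, f x - (n' • (Pi.single 1 1 : Q → ZMod q) x + coc (indR (ZMod q) π) v' r x) = p * y := by
    intro x
    have h3 : ZMod.castHom hp (ZMod p) (f x - (n' • (Pi.single 1 1 : Q → ZMod q) x + coc (indR (ZMod q) π) v' r x)) = 0 := by
      have h4 := congrFun hn x
      rw [Pi.add_apply, Pi.smul_apply] at h4
      have h5 : ZMod.castHom hp (ZMod p) ((Pi.single 1 1 : Q → ZMod q) x) = (Pi.single 1 1 : Q → ZMod p) x := by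
        rw [Pi.single_apply, Pi.single_apply]
        split_ifs
        · exact map_one _
        · exact map_zero _
      rw [map_sub, map_add, sub_eq_zero, h4, smul_eq_mul, smul_eq_mul, map_mul, h5]
    have h5 : (p : ZMod q) ∣ f x - (n' • (Pi.single 1 1 : Q → ZMod q) x + coc (indR (ZMod q) π) v' r x) := by
      obtain ⟨z, hz⟩ := ZMod.intCast_surjective (f x - (n' • (Pi.single 1 1 : Q → ZMod q) x + coc (indR (ZMod q) π) v' r x))
      rw [← hz] at h3 ⊢
      rw [map_intCast] at h3
      obtain ⟨y, hy⟩ := (ZMod.intCast_zmod_eq_zero_iff_dvd z p).1 h3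
      refine ⟨(y : ZMod q), ?_⟩
      rw [hy, Int.cast_mul, Int.cast_natCast]
    exact h5
  choose f' hf' using h2
  refine ⟨n', v', f', ?_⟩
  funext x
  rw [Pi.add_apply, Pi.add_apply, Pi.smul_apply, Pi.smul_apply, smul_eq_mul (p : ZMod q), ← hf' x]
  ring

end red

open Classical in
/-- **THE COKERNEL IS GENERATED BY THE CLASS OF `δ_1`** -/
theorem gen_delta {k : ℕ} (hk : 2 ≤ k) (r : FreeGroup (Fin k)) (hr1 : r ≠ 1) (m : ℕ)
    (H : ∀ N : Subgroup (OR r), N.Normal → N.FiniteIndex → HasRel m N) {Q : Type} [Group Q] [Fintype Q]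
    (π : FreeGroup (Fin k) →* Q) (hs : Function.Surjective π) (hπ : π r = 1) (q : ℕ) (hq : 0 < q) (f : Q → ZMod q) :
    ∃ (n : ZMod q) (v : Fin k → Q → ZMod q), f = n • (Pi.single 1 1 : Q → ZMod q) + coc (indR (ZMod q) π) v r := by
  -- modulo every divisor
  have key : ∀ d : ℕ, d ∣ q → ∀ f : Q → ZMod q, ∃ (n : ZMod q) (v : Fin k → Q → ZMod q) (f' : Q → ZMod q),
      f = n • (Pi.single 1 1 : Q → ZMod q) + coc (indR (ZMod q) π) v r + (d : ZMod q) • f' := by
    intro d
    induction d using Nat.recOnMul with
    | zero =>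
      intro h0 
      exact absurd (Nat.eq_zero_of_zero_dvd h0) hq.ne'
    | one =>
      intro _ f
      exact ⟨0, 0, f, by
        have h0 : coc (indR (ZMod q) π) (0 : Fin k → Q → ZMod q) r = 0 := by simp only [coc_eq_sum, Pi.zero_apply, smul_zero, sum_const_zero]
        rw [h0, zero_smul, zero_add, zero_add, Nat.cast_one, one_smul]⟩
    | prime p hp =>
      intro hd f
      have : Fact p.Prime := ⟨hp⟩
      exact gen_mod hd r π (cork_le_one_all hk r hr1 m H π hs hπ (ZMod p)) f
    | mul a b ha hb =>
      intro hd f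
      obtain ⟨n, v, f', h1⟩ := ha (dvd_trans (Dvd.intro b rfl) hd) f
      obtain ⟨n', v', f'', h2⟩ := hb (dvd_trans (Dvd.intro_left a rfl) hd) f'
      refine ⟨n + a * n', v + (a : ZMod q) • v', f'', ?_⟩
      rw [coc_add, coc_smul, h1, h2, Nat.cast_mul]
      funext x
      simp only [Pi.add_apply, Pi.smul_apply, smul_eq_mul]
      ring
  obtain ⟨n, v, f', h1⟩ := key q (dvd_refl q) f
  refine ⟨n, v, ?_⟩
  rw [h1, ZMod.natCast_self, zero_smul, add_zero]

end CycC

end Pool.Agent.MelD
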