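import Pool.Agent.MelD.CaseB
import Pool.Agent.MelD.NiceL

/-!
# Cyclic quotients with generic representations

For every `r ≠ 1` in a free group of rank `k ≥ 2` and every `m` there is a homomorphism `π` of `F` onto the
cyclic group of order `m + 1` with `π r = 1` and a representation `ρ` of the one-relator group such that
`ev (ind π ρ) r` has rank greater than `m * dim ρ`.

`σ : F → ℤ` onto with `σ r = 1`.  If some exponent sum of `r` is not zero: `gen` for `U` free of rank one.
Otherwise the proof of `caseB`.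
-/

open Finset Module PowerSeries

namespace Pool.Agent.MelD

/-- Homomorphisms to the integers and exponent sums. -/
theorem toAdd_eq_sum {k : ℕ} (τ : FreeGroup (Fin k) →* Multiplicative ℤ) (w : FreeGroup (Fin k)) :
    ((Multiplicative.toAdd (τ w) : ℤ) : ℚ) = ∑ j, fox (1 : FreeGroup (Fin k) →* ℚ) j w *
      ((Multiplicative.toAdd (τ (FreeGroup.of j)) : ℤ) : ℚ) := by
  have h1 := coc_unique (1 : FreeGroup (Fin k) →* ℚ)
    (fun w => ((Multiplicative.toAdd (τ w) : ℤ) : ℚ))
    (coc (1 : FreeGroup (Fin k) →* ℚ) (fun j => ((Multiplicative.toAdd (τ (FreeGroup.of j)) : ℤ) : ℚ)))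
    (by
      intro g h
      simp) (coc_mul _ _) (by
      intro j
      rw [coc_of]) w
  rw [coc_eq_sum] at h1
  exact h1

theorem cyc_gen_zero {k : ℕ} (r : FreeGroup (Fin k)) (hr1 : r ≠ 1)
    (hexp : ∀ τ : FreeGroup (Fin k) →* Multiplicative ℤ, τ r = 1)
    (σ : FreeGroup (Fin k) →* Multiplicative ℤ) {Q : Type} [Group Q] [Fintype Q]
    (c : Multiplicative ℤ →* Q) :
    ∃ (V : Type) (_ : AddCommGroup V) (_ : Module ℚ V) (_ : FiniteDimensional ℚ V)
      (ρ : FreeGroup (Fin k) →* Module.End ℚ V), ρ r = 1 ∧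
      (Fintype.card Q - 1) * finrank ℚ V <
        finrank ℚ (LinearMap.range (ev (ind (c.comp σ) ρ) r)) := by
  let s : Fin k → ℤ := fun j => Multiplicative.toAdd (σ (FreeGroup.of j))
  have hσ : ∀ j, σ (FreeGroup.of j) = Multiplicative.ofAdd (s j) := fun j => rfl
  -- the degree
  have hex : ∃ n, 0 < n ∧ coeff n (ser (mag s r)) ≠ 0 := by
    by_contra hno
    push Not at hno
    apply hr1
    apply mag_injective s
    rw [map_one]
    apply ser_injective
    rw [ser_one]
    ext1 n
    rcases Nat.eq_zero_or_pos n with rfl | hn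
    · rw [coeff_zero_ser, coeff_one, if_pos rfl]
    · rw [hno n hn, coeff_one, if_neg (by omega)]
  classical
  obtain ⟨D, ⟨hD0, hD⟩, hmin⟩ : ∃ D, (0 < D ∧ coeff D (ser (mag s r)) ≠ 0) ∧
      ∀ n, 0 < n → n < D → coeff n (ser (mag s r)) = 0 := by
    refine ⟨Nat.find hex, Nat.find_spec hex, fun n hn hlt => ?_⟩
    by_contra hne
    exact Nat.find_min hex hlt ⟨hn, hne⟩
  have hD1 : D ≠ 1 := by
    rintro rfl
    exact hD (coeff_one_mag_zero s r hexp)
  obtain ⟨E, rfl⟩ : ∃ E, D = E + 2 := ⟨D - 2, by omega⟩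
  -- a Fox derivative
  have hfund := fundamental ((serHom (Matrix (Fin 3) (Fin 3) ℤ)).comp (mag s)) r
  have hj : ∃ j, coeff (E + 1) (fox ((serHom (Matrix (Fin 3) (Fin 3) ℤ)).comp (mag s)) j r) ≠ 0 := by
    by_contra hno
    push Not at hno
    apply hD
    have h1 := congrArg (fun x => coeff (E + 2) x) hfund
    simp only [map_sub, map_sum] at h1
    have h2 : coeff (E + 2) (1 : (Matrix (Fin 3) (Fin 3) ℤ)⟦X⟧) = 0 := by
      rw [coeff_one, if_neg (by omega)]
    rw [h2, sub_zero] at h1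
    refine Eq.trans h1 (sum_eq_zero fun j _ => ?_)
    show coeff (E + 2) (_ * (ser (mag s (FreeGroup.of j)) - 1)) = 0
    rw [ser_mag_of, add_sub_cancel_left, ← mul_assoc, coeff_succ_mul_X, coeff_mul_C, hno j, zero_mul]
  obtain ⟨j, hj⟩ := hj
  let R := Matrix (Fin 3) (Fin 3) ℤ
  let f : FreeGroup (Fin k) →* Gam R ⧸ KD R (E + 2) := (QuotientGroup.mk' (KD R (E + 2))).comp (mag s)
  have hf : f r = 1 := by
    show ((mag s r : Gam R) : Gam R ⧸ KD R (E + 2)) = ((1 : Gam R) : Gam R ⧸ KD R (E + 2))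
    rw [mk_eq_mk]
    intro n hn
    rw [ser_one, coeff_one]
    rcases Nat.eq_zero_or_pos n with rfl | h
    · rw [coeff_zero_ser, if_pos rfl]
    · rw [hmin n h hn, if_neg (by omega)]
  have hfg : ∀ g h, f g = f h → ∀ n, n < E + 2 →
      coeff n (ser (mag s g)) = coeff n (ser (mag s h)) := by
    intro g h hgh
    exact (mk_eq_mk (E + 2) (mag s g) (mag s h)).mp hgh
  have he : fox ((MonoidAlgebra.of ℚ ((Gam R ⧸ KD R (E + 2)) × Q)).comp
      (f.prod (c.comp σ))) j r ≠ 0 := by
    intro h0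
    apply hj
    ext a b
    let c' : R⟦X⟧ →+ ℚ :=
      { toFun := fun x => ((coeff (E + 1) x a b : ℤ) : ℚ)
        map_zero' := by
          rw [map_zero]
          exact Int.cast_zero
        map_add' := by
          intro x y
          rw [map_add]
          exact Int.cast_add _ _ }
    have h1 := fox_coeff (f.prod (c.comp σ))
      (fun x => ((coeff (E + 1) (ser (Quotient.out x.1)) a b : ℤ) : ℚ))
      ((serHom R).comp (mag s)) c' (by
        intro g
        show ((coeff (E + 1) (ser (Quotient.out (f g))) a b : ℤ) : ℚ) =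
          ((coeff (E + 1) (ser (mag s g)) a b : ℤ) : ℚ)
        have h2 : ((Quotient.out (f g) : Gam R) : Gam R ⧸ KD R (E + 2)) =
            ((mag s g : Gam R) : Gam R ⧸ KD R (E + 2)) := QuotientGroup.out_eq' (f g)
        rw [mk_eq_mk] at h2
        rw [h2 (E + 1) (by omega)]) j r h0
    have h3 : ((coeff (E + 1) (fox ((serHom R).comp (mag s)) j r) a b : ℤ) : ℚ) = 0 := h1
    rw [Int.cast_eq_zero] at h3
    rw [h3]
    rfl
  exact gen r (nice_box 3 (E + 2)) f hf (c.comp σ) j he (by
    intro x hx y hy hxy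
    obtain ⟨g, rfl⟩ := fox_supp _ j r x hx
    obtain ⟨h, rfl⟩ := fox_supp _ j r y hy
    have h1 : f g = f h := hxy
    have h2 := hfg g h h1 1 (by omega)
    have h3 : σ g = σ h := by
      apply Multiplicative.toAdd.injective
      have h4 := coeff_one_mag s σ hσ g
      have h5 := coeff_one_mag s σ hσ h
      rw [h2, h5] at h4
      exact (neg_injective h4).symm
    show c (σ g) = c (σ h)
    rw [h3])

/-- The embedding of the integers in the free group of rank one. -/
theorem zf_injective : Function.Injective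
    (zpowersHom (FreeGroup (Fin 1)) (FreeGroup.of (0 : Fin 1))) := by
  intro a b h
  have h1 := congrArg (FreeGroup.lift (fun _ : Fin 1 => Multiplicative.ofAdd (1 : ℤ))) h
  simp only [zpowersHom_apply, map_zpow, FreeGroup.lift_apply_of] at h1
  have h2 := congrArg Multiplicative.toAdd h1
  rw [toAdd_zpow, toAdd_zpow, toAdd_ofAdd] at h2
  apply Multiplicative.toAdd.injective
  simpa using h2

theorem cyc_gen_ne {k : ℕ} (r : FreeGroup (Fin k)) (i : Fin k)
    (hi : fox (1 : FreeGroup (Fin k) →* ℚ) i r ≠ 0)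
    (σ : FreeGroup (Fin k) →* Multiplicative ℤ) (hσ : σ r = 1) {Q : Type} [Group Q] [Fintype Q]
    (c : Multiplicative ℤ →* Q) :
    ∃ (V : Type) (_ : AddCommGroup V) (_ : Module ℚ V) (_ : FiniteDimensional ℚ V)
      (ρ : FreeGroup (Fin k) →* Module.End ℚ V), ρ r = 1 ∧
      (Fintype.card Q - 1) * finrank ℚ V <
        finrank ℚ (LinearMap.range (ev (ind (c.comp σ) ρ) r)) := by
  classical
  let f : FreeGroup (Fin k) →* FreeGroup (Fin 1) :=
    (zpowersHom (FreeGroup (Fin 1)) (FreeGroup.of (0 : Fin 1))).comp σ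
  have hf : f r = 1 := by
    show (zpowersHom (FreeGroup (Fin 1)) (FreeGroup.of (0 : Fin 1))) (σ r) = 1
    rw [hσ, map_one]
  have he : fox ((MonoidAlgebra.of ℚ (FreeGroup (Fin 1) × Q)).comp (f.prod (c.comp σ))) i r ≠ 0 := by
    intro h0
    apply hi
    have h := map_fox ((MonoidAlgebra.lift ℚ ℚ (FreeGroup (Fin 1) × Q)
      (1 : FreeGroup (Fin 1) × Q →* ℚ) : MonoidAlgebra ℚ (FreeGroup (Fin 1) × Q) →ₐ[ℚ] ℚ) :
      MonoidAlgebra ℚ (FreeGroup (Fin 1) × Q) →+* ℚ)
      ((MonoidAlgebra.of ℚ (FreeGroup (Fin 1) × Q)).comp (f.prod (c.comp σ))) i r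
    rw [h0, map_zero] at h
    rw [h]
    congr 1
    ext g
    show _ = MonoidAlgebra.lift ℚ ℚ (FreeGroup (Fin 1) × Q) 1 (MonoidAlgebra.of ℚ _ _)
    rw [MonoidAlgebra.lift_of]
    rfl
  exact gen r (nice_free 1) f hf (c.comp σ) i he (by
    intro x hx y hy hxy
    obtain ⟨g, rfl⟩ := fox_supp _ i r x hx
    obtain ⟨h, rfl⟩ := fox_supp _ i r y hy
    have h1 : f g = f h := hxy
    have h3 : σ g = σ h := zf_injective h1
    show c (σ g) = c (σ h)
    rw [h3])

/-- A homomorphism onto the integers that kills `r`. -/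
theorem exists_onto {k : ℕ} (hk : 2 ≤ k) (r : FreeGroup (Fin k)) :
    ∃ σ : FreeGroup (Fin k) →* Multiplicative ℤ, Function.Surjective σ ∧ σ r = 1 := by
  classical
  -- the exponent sums
  let τ : Fin k → FreeGroup (Fin k) →* Multiplicative ℤ := fun j =>
    FreeGroup.lift (fun i => if i = j then Multiplicative.ofAdd (1 : ℤ) else 1)
  let e : Fin k → ℤ := fun j => Multiplicative.toAdd (τ j r)
  have hτ : ∀ i j, τ j (FreeGroup.of i) = if i = j then Multiplicative.ofAdd (1 : ℤ) else 1 := fun i j => by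
    show FreeGroup.lift _ (FreeGroup.of i) = _
    rw [FreeGroup.lift_apply_of]
  have he : ∀ j, fox (1 : FreeGroup (Fin k) →* ℚ) j r = (e j : ℚ) := by
    intro j
    have h := toAdd_eq_sum (τ j) r
    rw [Finset.sum_eq_single j (fun i _ hij => by
      rw [hτ, if_neg hij, toAdd_one, Int.cast_zero, mul_zero])
      (fun h => absurd (mem_univ j) h), hτ, if_pos rfl, toAdd_ofAdd, Int.cast_one, mul_one] at h
    exact h.symm
  have hsum : ∀ σ : FreeGroup (Fin k) →* Multiplicative ℤ,
      ∑ j, e j * Multiplicative.toAdd (σ (FreeGroup.of j)) = 0 → σ r = 1 := by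
    intro σ h
    apply Multiplicative.toAdd.injective
    have h1 := toAdd_eq_sum σ r
    simp only [he] at h1
    have h2 : ((Multiplicative.toAdd (σ r) : ℤ) : ℚ) = ((∑ j, e j *
        Multiplicative.toAdd (σ (FreeGroup.of j)) : ℤ) : ℚ) := by
      rw [h1, Int.cast_sum]
      exact Finset.sum_congr rfl fun j _ => by rw [Int.cast_mul]
    rw [h, Int.cast_zero, Int.cast_eq_zero] at h2
    rw [h2]
    rfl
  -- two indices
  let i0 : Fin k := ⟨0, by omega⟩
  let i1 : Fin k := ⟨1, by omega⟩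
  have hne : i1 ≠ i0 := by
    intro h
    have := congrArg Fin.val h
    simp [i0, i1] at this
  obtain ⟨a, b, hab, x, y, hxy⟩ : ∃ a b : ℤ, e i0 * a + e i1 * b = 0 ∧ ∃ x y : ℤ, x * a + y * b = 1 := by
    by_cases h0 : e i0 = 0 ∧ e i1 = 0
    · exact ⟨1, 0, by rw [h0.1, h0.2]; ring, 1, 0, by ring⟩
    · have hg : (Int.gcd (e i0) (e i1) : ℤ) ≠ 0 := by
        intro h
        apply h0
        rw [Int.natCast_eq_zero, Int.gcd_eq_zero_iff] at h
        exact h
      obtain ⟨a', ha'⟩ := Int.gcd_dvd_left (e i0) (e i1)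
      obtain ⟨b', hb'⟩ := Int.gcd_dvd_right (e i0) (e i1)
      have hbez := Int.gcd_eq_gcd_ab (e i0) (e i1)
      set g : ℤ := (Int.gcd (e i0) (e i1) : ℤ)
      have h1 : a' * Int.gcdA (e i0) (e i1) + b' * Int.gcdB (e i0) (e i1) = 1 := by
        apply mul_left_cancel₀ hg
        rw [mul_one, mul_add, ← mul_assoc, ← mul_assoc, ← ha', ← hb', ← hbez]
      refine ⟨b', -a', ?_, Int.gcdB (e i0) (e i1), - Int.gcdA (e i0) (e i1), ?_⟩
      · rw [ha', hb']
        ring
      · rw [← h1]
        ring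
  let s : Fin k → Multiplicative ℤ := fun j =>
    if j = i0 then Multiplicative.ofAdd a else if j = i1 then Multiplicative.ofAdd b else 1
  have hs0 : FreeGroup.lift s (FreeGroup.of i0) = Multiplicative.ofAdd a := by
    rw [FreeGroup.lift_apply_of]
    show (if i0 = i0 then _ else _) = _
    rw [if_pos rfl]
  have hs1 : FreeGroup.lift s (FreeGroup.of i1) = Multiplicative.ofAdd b := by
    rw [FreeGroup.lift_apply_of]
    show (if i1 = i0 then _ else if i1 = i1 then _ else _) = _
    rw [if_neg hne, if_pos rfl]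
  refine ⟨FreeGroup.lift s, ?_, hsum _ ?_⟩
  · intro z
    refine ⟨(FreeGroup.of i0 ^ x * FreeGroup.of i1 ^ y) ^ (Multiplicative.toAdd z), ?_⟩
    rw [map_zpow, map_mul, map_zpow, map_zpow, hs0, hs1]
    apply Multiplicative.toAdd.injective
    rw [toAdd_zpow, toAdd_mul, toAdd_zpow, toAdd_zpow, toAdd_ofAdd, toAdd_ofAdd, smul_eq_mul, smul_eq_mul,
      smul_eq_mul, hxy, mul_one]
  · rw [← Finset.add_sum_erase _ _ (mem_univ i0),
      ← Finset.add_sum_erase _ _ (Finset.mem_erase.2 ⟨hne, mem_univ i1⟩), hs0, hs1,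
      Finset.sum_eq_zero, add_zero, toAdd_ofAdd, toAdd_ofAdd, hab]
    intro j hj
    have hj1 := Finset.mem_erase.1 hj
    have hj2 := Finset.mem_erase.1 hj1.2
    rw [FreeGroup.lift_apply_of]
    show e j * Multiplicative.toAdd (if j = i0 then _ else if j = i1 then _ else 1) = 0
    rw [if_neg hj2.1, if_neg hj1.1, toAdd_one, mul_zero]

theorem cyc_gen {k : ℕ} (hk : 2 ≤ k) (r : FreeGroup (Fin k)) (hr1 : r ≠ 1) (m : ℕ) :
    ∃ π : FreeGroup (Fin k) →* Multiplicative (ZMod (m + 1)), Function.Surjective π ∧ π r = 1 ∧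
      ∃ (V : Type) (_ : AddCommGroup V) (_ : Module ℚ V) (_ : FiniteDimensional ℚ V)
        (ρ : FreeGroup (Fin k) →* Module.End ℚ V), ρ r = 1 ∧
        m * finrank ℚ V < finrank ℚ (LinearMap.range (ev (ind π ρ) r)) := by
  let c : Multiplicative ℤ →* Multiplicative (ZMod (m + 1)) :=
    AddMonoidHom.toMultiplicative (Int.castAddHom (ZMod (m + 1)))
  have hc : Function.Surjective c := by
    intro x
    obtain ⟨a, ha⟩ := ZMod.intCast_surjective (Multiplicative.toAdd x)
    exact ⟨Multiplicative.ofAdd a, congrArg Multiplicative.ofAdd ha⟩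
  obtain ⟨σ, hσ, hσr⟩ := exists_onto hk r
  have hcard : Fintype.card (Multiplicative (ZMod (m + 1))) - 1 = m := by
    rw [Fintype.card_multiplicative, ZMod.card]
    rfl
  refine ⟨c.comp σ, hc.comp hσ, ?_, ?_⟩
  · show c (σ r) = 1
    rw [hσr, map_one]
  · by_cases h : ∃ i, fox (1 : FreeGroup (Fin k) →* ℚ) i r ≠ 0
    · obtain ⟨i, hi⟩ := h
      have h1 := cyc_gen_ne r i hi σ hσr c
      rw [hcard] at h1
      exact h1
    · push Not at h
      have hexp : ∀ τ : FreeGroup (Fin k) →* Multiplicative ℤ, τ r = 1 := by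
        intro τ
        have h1 := toAdd_eq_sum τ r
        simp only [h, zero_mul, sum_const_zero, Int.cast_eq_zero] at h1
        exact Multiplicative.toAdd.injective h1
      have h1 := cyc_gen_zero r hr1 hexp σ c
      rw [hcard] at h1
      exact h1

end Pool.Agent.MelD
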