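import Pool.Agent.MelD.Fox
import Pool.Agent.MelG.Base

/-!
# Definitions for the virtual deficiency theorem

* `Z1 ρ`: the space of crossed homomorphisms of a group with values in a representation.
* `ev ρ r`: for a representation `ρ` of a free group, the linear map taking the values `v` of a
  crossed homomorphism at the generators to its value at `r`.
* `ind π ρ`: the coinduced representation on `Q → V` for a homomorphism `π : G →* Q`.
* `Nice U`: the group `U` has finite permutation representations that look like the regular
  representation, with unique products.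
* `act κ`: the action of the group algebra on functions on a group `Q`, for `κ : G →* Q`.
* `RI E`: the right ideal generated by a family `E`.
-/

open Finset

namespace Pool.Agent.MelD

section rep

variable {K : Type*} [Field K] {G : Type*} [Group G] {V : Type*} [AddCommGroup V] [Module K V]

/-- The space of crossed homomorphisms `c (g h) = c g + ρ g (c h)`. -/
def Z1 (ρ : G →* Module.End K V) : Submodule K (G → V) where
  carrier := {c | ∀ g h, c (g * h) = c g + ρ g (c h)}
  add_mem' := by
    intro a b ha hb g h
    simp only [Pi.add_apply]
    rw [ha g h, hb g h, map_add]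
    abel
  zero_mem' := by
    intro g h
    simp
  smul_mem' := by
    intro x c hc g h
    simp only [Pi.smul_apply]
    rw [hc g h, smul_add, map_smul]

theorem mem_Z1 {ρ : G →* Module.End K V} {c : G → V} :
    c ∈ Z1 ρ ↔ ∀ g h, c (g * h) = c g + ρ g (c h) := Iff.rfl

/-- The coinduced representation on functions `Q → V` for a homomorphism `π : G →* Q`. -/
def ind {Q : Type*} [Group Q] (π : G →* Q) (ρ : G →* Module.End K V) :
    G →* Module.End K (Q → V) where
  toFun g :=
    { toFun := fun f q => ρ g (f (q * π g))
      map_add' := by
        intro a b; funext q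
        simp only [Pi.add_apply, map_add]
      map_smul' := by
        intro c a; funext q
        simp only [Pi.smul_apply, map_smul, RingHom.id_apply] }
  map_one' := by
    ext f q
    simp
  map_mul' := by
    intro a b
    apply LinearMap.ext
    intro f
    funext q
    show ρ (a * b) (f (q * π (a * b))) = ρ a (ρ b (f (q * π a * π b)))
    rw [map_mul, map_mul, mul_assoc]
    rfl

theorem ind_apply {Q : Type*} [Group Q] (π : G →* Q) (ρ : G →* Module.End K V) (g : G) (f : Q → V)
    (q : Q) : ind π ρ g f q = ρ g (f (q * π g)) := rfl

end rep

section free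

variable {K : Type*} [Field K] {k : ℕ} {V : Type*} [AddCommGroup V] [Module K V]

/-- The map taking the values `v` at the generators to the value at `r` of the crossed homomorphism
with these values. -/
def ev (ρ : FreeGroup (Fin k) →* Module.End K V) (r : FreeGroup (Fin k)) : (Fin k → V) →ₗ[K] V where
  toFun v := coc ρ v r
  map_add' := by
    intro a b
    simp only [coc_eq_sum, Pi.add_apply, smul_add, sum_add_distrib]
  map_smul' := by
    intro c a
    simp only [coc_eq_sum, Pi.smul_apply, RingHom.id_apply, smul_sum]
    refine sum_congr rfl fun j _ => ?_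
    exact (fox ρ j r).map_smul c (a j)

theorem ev_apply (ρ : FreeGroup (Fin k) →* Module.End K V) (r : FreeGroup (Fin k)) (v : Fin k → V) :
    ev ρ r v = coc ρ v r := rfl

end free

/-- The group `U` acts on finite sets `Ω` with a large subset `B` such that any nonempty subset `B'`
of `B` and the given finite subset `A` of `U` have a unique product in `Ω`. -/
def Nice (U : Type) [Group U] : Prop :=
  ∀ (A : Finset U) (n : ℕ), ∃ (Ω : Type) (_ : Fintype Ω) (_ : DecidableEq Ω)
    (ψ : U →* Equiv.Perm Ω) (B : Finset Ω),
    n * Fintype.card Ω < (n + 1) * B.card ∧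
    (A.Nonempty → ∀ B' : Finset Ω, B' ⊆ B → B'.Nonempty →
      ∃ a ∈ A, ∃ b ∈ B', ∀ a' ∈ A, ∀ b' ∈ B', ψ a' b' = ψ a b → a' = a ∧ b' = b)

section alg

variable {K : Type*} [Field K] {G : Type*} [Group G] {Q : Type*} [Group Q]

/-- The action of the group algebra `K[G]` on functions on `Q`: `(g f) q = f (q κ(g))`. -/
noncomputable def act (K : Type*) [Field K] {G : Type*} [Group G] {Q : Type*} [Group Q]
    (κ : G →* Q) : MonoidAlgebra K G →ₐ[K] Module.End K (Q → K) :=
  MonoidAlgebra.lift K (Module.End K (Q → K)) G (ind κ (1 : G →* Module.End K K))

/-- The right ideal generated by the elements `E i`, as a `K`-subspace. -/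
def RI {ι : Type*} {A : Type*} [Ring A] [Algebra K A] (E : ι → A) : Submodule K A :=
  Submodule.span K {x | ∃ i y, x = E i * y}

end alg

/-- The presented group with one relator. -/
abbrev OR {k : ℕ} (r : FreeGroup (Fin k)) : Type := PresentedGroup ({r} : Set (FreeGroup (Fin k)))

/-- A homomorphism that kills `r` factors through the one-relator group. -/
theorem exists_desc {k : ℕ} (r : FreeGroup (Fin k)) {M : Type*} [Monoid M]
    (f : FreeGroup (Fin k) →* M) (h : f r = 1) :
    ∃ f' : OR r →* M, f'.comp (PresentedGroup.mk {r}) = f := by
  have h1 : Subgroup.normalClosure ({r} : Set (FreeGroup (Fin k))) ≤ f.ker :=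
    Subgroup.normalClosure_le_normal (by
      intro x hx
      rw [Set.mem_singleton_iff.mp hx]
      exact h)
  exact ⟨QuotientGroup.lift (Subgroup.normalClosure ({r} : Set (FreeGroup (Fin k)))) f h1, rfl⟩

end Pool.Agent.MelD
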