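import Pool.Agent.MelD.All

/-!
# Density

`VT p T`: the subgroup generated by the commutators and the `p`-th powers of elements of `T` (the commutator
subgroup of `T` for `p = 0`).  If `r` is in `VT p T`, `p = 0` or prime, and all finite index normal subgroups of
the one-relator group have presentations with at most `m` relators, then `T` maps onto every finite quotient
of the one-relator group.

For a finite quotient `Q` the functional `f ↦ ∑ t, f (q t)`, `t` in the image of `T`, is invariant under `T`,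
so it is a homomorphism on `T` when composed with a crossed homomorphism, and vanishes at `r`; if `T` does not
map onto `Q`, the functionals for two cosets show that the corank is at least two.
-/

open Finset Module

namespace Pool.Agent.MelD

open Pool.Agent.MelG (HasRel)

/-- The subgroup generated by the commutators and the `p`-th powers of elements of `T`. -/
def VT (p : ℕ) {G : Type*} [Group G] (T : Subgroup G) : Subgroup G :=
  ⁅T, T⁆ ⊔ Subgroup.closure ((fun t => t ^ p) '' (T : Set G))

theorem VT_map (p : ℕ) {G G' : Type*} [Group G] [Group G'] (f : G →* G') (T : Subgroup G) :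
    (VT p T).map f = VT p (T.map f) := by
  unfold VT
  rw [Subgroup.map_sup, Subgroup.map_commutator, MonoidHom.map_closure]
  congr 2
  ext x
  constructor
  · rintro ⟨_, ⟨t, ht, rfl⟩, rfl⟩
    exact ⟨f t, ⟨t, ht, rfl⟩, (map_pow f t p).symm⟩
  · rintro ⟨_, ⟨t, ht, rfl⟩, rfl⟩
    exact ⟨t ^ p, ⟨t, ht, rfl⟩, map_pow f t p⟩

theorem VT_mono (p : ℕ) {G : Type*} [Group G] {T T' : Subgroup G} (h : T ≤ T') : VT p T ≤ VT p T' := by
  unfold VT
  exact sup_le_sup (Subgroup.commutator_mono h h) (Subgroup.closure_mono (Set.image_mono h))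

theorem VT_le (p : ℕ) {G : Type*} [Group G] (T : Subgroup G) : VT p T ≤ T := by
  unfold VT
  refine sup_le (Subgroup.commutator_le.2 fun a ha b hb => ?_) ((Subgroup.closure_le T).2 ?_)
  · exact T.mul_mem (T.mul_mem (T.mul_mem ha hb) (T.inv_mem ha)) (T.inv_mem hb)
  · rintro _ ⟨t, ht, rfl⟩
    exact T.pow_mem ht p

/-- A map that is additive on `T`, with values in a group of exponent `p`, vanishes on `VT p T`. -/
theorem VT_kill (p : ℕ) {G : Type*} [Group G] (T : Subgroup G) {A : Type*} [AddCommGroup A]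
    (hA : ∀ a : A, p • a = 0) (τ : G → A) (hτ : ∀ g ∈ T, ∀ h ∈ T, τ (g * h) = τ g + τ h)
    (x : G) (hx : x ∈ VT p T) : τ x = 0 := by
  have h1 : τ 1 = 0 := by
    have := hτ 1 T.one_mem 1 T.one_mem
    rw [mul_one] at this
    simpa using this
  have hi : ∀ g ∈ T, τ g⁻¹ = - τ g := by
    intro g hg
    have := hτ g⁻¹ (T.inv_mem hg) g hg
    rw [inv_mul_cancel, h1] at this
    exact eq_neg_of_add_eq_zero_left this.symm
  -- the subgroup of the elements of T killed by τ
  let S : Subgroup G :=
    { carrier := {g | g ∈ T ∧ τ g = 0}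
      mul_mem' := by
        rintro a b ⟨ha, ha'⟩ ⟨hb, hb'⟩
        exact ⟨T.mul_mem ha hb, by rw [hτ a ha b hb, ha', hb', add_zero]⟩
      one_mem' := ⟨T.one_mem, h1⟩
      inv_mem' := by
        rintro a ⟨ha, ha'⟩
        exact ⟨T.inv_mem ha, by rw [hi a ha, ha', neg_zero]⟩ }
  have hS : VT p T ≤ S := by
    unfold VT
    refine sup_le (Subgroup.commutator_le.2 fun a ha b hb => ?_) ((Subgroup.closure_le S).2 ?_)
    · have ha' := T.inv_mem ha
      have hb' := T.inv_mem hb
      have hab := T.mul_mem ha hb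
      have haba := T.mul_mem hab ha'
      refine ⟨T.mul_mem haba hb', ?_⟩
      rw [commutatorElement_def, hτ _ haba _ hb', hτ _ hab _ ha', hτ _ ha _ hb, hi a ha, hi b hb]
      abel
    · rintro _ ⟨t, ht, rfl⟩
      refine ⟨T.pow_mem ht p, ?_⟩
      have h2 : ∀ n : ℕ, τ (t ^ n) = n • τ t := by
        intro n
        induction n with
        | zero => rw [pow_zero, h1, zero_smul]
        | succ n ih => rw [pow_succ, hτ _ (T.pow_mem ht n) t ht, ih, succ_nsmul]
      show τ (t ^ p) = 0
      rw [h2, hA]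
  exact (hS hx).2

/-- If `T` does not map onto the finite quotient, the corank is at least two. -/
theorem two_le_cork {K : Type} [Field K] {k : ℕ} (r : FreeGroup (Fin k)) (p : ℕ)
    (hp : ∀ a : K, p • a = 0) (T : Subgroup (FreeGroup (Fin k))) (hT : r ∈ VT p T) {Q : Type}
    [Group Q] [Fintype Q] (π : FreeGroup (Fin k) →* Q) (hne : T.map π ≠ ⊤) : 2 ≤ cork K r π := by
  classical
  obtain ⟨q1, hq1⟩ : ∃ q, q ∉ T.map π := by
    by_contra h
    push Not at h
    exact hne (Subgroup.eq_top_iff' _ |>.2 h)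
  -- the functionals
  let ℓ : Q → (Q → K) →ₗ[K] K := fun q =>
    { toFun := fun f => ∑ t : T.map π, f (q * t)
      map_add' := fun f g => by
        simp only [Pi.add_apply, sum_add_distrib]
      map_smul' := fun c f => by
        simp only [Pi.smul_apply, smul_eq_mul, RingHom.id_apply, mul_sum] }
  have hℓ : ∀ q f, ℓ q f = ∑ t : T.map π, f (q * t) := fun q f => rfl
  have hinv : ∀ q, ∀ g ∈ T, ∀ f, ℓ q (ind π (1 : FreeGroup (Fin k) →* Module.End K K) g f) = ℓ q f := by
    intro q g hg f
    rw [hℓ, hℓ]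
    refine Fintype.sum_equiv (Equiv.mulRight (⟨π g, Subgroup.mem_map_of_mem π hg⟩ : T.map π)) _ _ ?_
    intro t
    show f (q * t * π g) = f (q * (t * π g))
    rw [mul_assoc]
  have hzero : ∀ q v, ℓ q (ev (ind π (1 : FreeGroup (Fin k) →* Module.End K K)) r v) = 0 := by
    intro q v
    refine VT_kill p T hp (fun g => ℓ q (coc (ind π (1 : FreeGroup (Fin k) →* Module.End K K)) v g)) ?_ r hT
    intro g hg h _
    show ℓ q (coc _ v (g * h)) = ℓ q (coc _ v g) + ℓ q (coc _ v h)
    rw [coc_mul, map_add]
    congr 1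
    exact hinv q g hg _
  let Λ : (Q → K) →ₗ[K] (K × K) := (ℓ 1).prod (ℓ q1)
  have hΛ : Function.Surjective Λ := by
    rintro ⟨a, b⟩
    refine ⟨Pi.single 1 a + Pi.single q1 b, ?_⟩
    have e1 : ℓ 1 (Pi.single 1 a) = a := by
      rw [hℓ, Finset.sum_eq_single (1 : T.map π)]
      · simp
      · intro t _ ht
        rw [one_mul, Pi.single_apply, if_neg]
        intro h
        exact ht (Subtype.ext h)
      · intro h
        exact absurd (mem_univ _) h
    have e2 : ℓ 1 (Pi.single q1 b) = 0 := by
      rw [hℓ]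
      refine Finset.sum_eq_zero fun t _ => ?_
      rw [one_mul, Pi.single_apply, if_neg]
      intro h
      exact hq1 (h ▸ t.2)
    have e3 : ℓ q1 (Pi.single 1 a) = 0 := by
      rw [hℓ]
      refine Finset.sum_eq_zero fun t _ => ?_
      rw [Pi.single_apply, if_neg]
      intro h
      apply hq1
      rw [eq_inv_of_mul_eq_one_left h]
      exact (T.map π).inv_mem t.2
    have e4 : ℓ q1 (Pi.single q1 b) = b := by
      rw [hℓ, Finset.sum_eq_single (1 : T.map π)]
      · simp
      · intro t _ ht
        rw [Pi.single_apply, if_neg]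
        intro h
        apply ht
        apply Subtype.ext
        exact mul_eq_left.1 h
      · intro h
        exact absurd (mem_univ _) h
    show (ℓ 1 _, ℓ q1 _) = (a, b)
    rw [map_add, map_add, e1, e2, e3, e4, add_zero, zero_add]
  have h1 : LinearMap.range (ev (ind π (1 : FreeGroup (Fin k) →* Module.End K K)) r) ≤
      LinearMap.ker Λ := by
    rintro _ ⟨v, rfl⟩
    rw [LinearMap.mem_ker]
    show (ℓ 1 _, ℓ q1 _) = (0, 0)
    rw [hzero, hzero]
  have h2 := Submodule.finrank_mono h1
  have h3 := LinearMap.finrank_range_add_finrank_ker Λ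
  rw [LinearMap.range_eq_top.2 hΛ, finrank_top, Module.finrank_prod, finrank_self,
    Module.finrank_fintype_fun_eq_card] at h3
  have h4 := rank_add_cork K r π
  omega

/-- Density. -/
theorem dens {k : ℕ} (hk : 2 ≤ k) (r : FreeGroup (Fin k)) (hr1 : r ≠ 1) (m : ℕ)
    (H : ∀ N : Subgroup (OR r), N.Normal → N.FiniteIndex → HasRel m N) (p : ℕ)
    (hp : p = 0 ∨ p.Prime) (T : Subgroup (FreeGroup (Fin k))) (hT : r ∈ VT p T) {Q : Type} [Group Q]
    [Fintype Q] (π : FreeGroup (Fin k) →* Q) (hs : Function.Surjective π) (hπ : π r = 1) :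
    T.map π = ⊤ := by
  by_contra hne
  obtain ⟨q, hq, hqp⟩ : ∃ q : ℕ, q.Prime ∧ (p = 0 ∨ p = q) := by
    rcases hp with h | h
    · exact ⟨2, Nat.prime_two, Or.inl h⟩
    · exact ⟨p, h, Or.inr rfl⟩
  have : Fact q.Prime := ⟨hq⟩
  have h0 : ∀ a : ZMod q, p • a = 0 := by
    intro a
    rcases hqp with h | h
    · rw [h, zero_smul]
    · rw [h, nsmul_eq_mul, CharP.cast_eq_zero, zero_mul]
  have h1 := two_le_cork (K := ZMod q) r p h0 T hT π hne
  have h2 := cork_le_one_all hk r hr1 m H π hs hπ (ZMod q)
  omega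

end Pool.Agent.MelD
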