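import Pool.Agent.MelD.Dens

/-!
# Consequences of the density theorem (helper41)

`G_r` one-relator group, `r ≠ 1`, all normal subgroups of finite index have presentations with at most `m` relators;
`VT p T = [T, T] T ^ p` (`p = 0`: `[T, T]`).

* `not_mem` : `r ∉ VT p T` if `T` is contained in the kernel of a homomorphism onto a nontrivial finite group;
  `not_mem_normal`, `not_mem_derived` (the second derived group);
* `rank_le` : if `r ∈ VT p T` then `T` cannot be generated by fewer than `k` elements;
  `word_le` : `r = w (u_1, ..., u_s)`, `w ∈ VT p ⊤`, implies `k ≤ s`; `genus_le` : `n` commutators, `k ≤ 2 n`;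
  `powers_le` : `n` `p`-th powers, `k ≤ n`.
-/

open Finset

namespace Pool.Agent.MelD

open Pool.Agent.MelG (HasRel)
open scoped commutatorElement

/-- the quotient of the free group onto the elementary abelian group of rank `k` -/
def eab (k q : ℕ) : FreeGroup (Fin k) →* Multiplicative (Fin k → ZMod q) :=
  FreeGroup.lift fun j => Multiplicative.ofAdd (Pi.single j 1)

theorem eab_surj (k q : ℕ) : Function.Surjective (eab k q) := by
  intro v
  have h1 : v ∈ (eab k q).range := by
    have h3 : ∀ j (a : ZMod q), Multiplicative.ofAdd (Pi.single j a : Fin k → ZMod q) ∈ (eab k q).range := by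
      intro j a
      obtain ⟨z, hz⟩ := ZMod.intCast_surjective a
      refine ⟨FreeGroup.of j ^ z, ?_⟩
      rw [map_zpow]
      unfold eab
      rw [FreeGroup.lift_apply_of, ← ofAdd_zsmul]
      congr 1
      rw [← hz, ← Pi.single_smul, zsmul_eq_mul, mul_one]
    have h4 : v = ∏ j, Multiplicative.ofAdd (Pi.single j ((Multiplicative.toAdd v) j) : Fin k → ZMod q) := by
      apply Multiplicative.toAdd.injective
      rw [toAdd_prod]
      simp only [toAdd_ofAdd]
      exact (Finset.univ_sum_single (Multiplicative.toAdd v)).symm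
    rw [h4]
    exact Subgroup.prod_mem _ fun j _ => h3 j _
  exact h1

/-- the elementary abelian quotient kills `VT p ⊤` -/
theorem eab_VT (k : ℕ) {p q : ℕ} (hpq : q = p ∨ p = 0) {x : FreeGroup (Fin k)} (hx : x ∈ VT p (⊤ : Subgroup (FreeGroup (Fin k)))) :
    eab k q x = 1 := by
  have h1 : VT p (⊤ : Subgroup (FreeGroup (Fin k))) ≤ (eab k q).ker := by
    unfold VT
    refine sup_le ?_ ?_
    · rw [Subgroup.commutator_le]
      intro a _ b _
      rw [MonoidHom.mem_ker, map_commutatorElement]
      exact commutatorElement_eq_one_iff_mul_comm.2 (mul_comm _ _)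
    · rw [Subgroup.closure_le]
      rintro _ ⟨t, _, rfl⟩
      show eab k q (t ^ p) = 1
      rw [map_pow]
      rcases hpq with rfl | rfl
      · apply Multiplicative.toAdd.injective
        rw [toAdd_pow, toAdd_one]
        funext j
        rw [Pi.smul_apply, nsmul_eq_mul, ZMod.natCast_self, zero_mul]
        rfl
      · rw [pow_zero]
  exact h1 hx

/-- the elementary abelian group of rank `k` needs `k` generators -/
theorem eab_rank {k q s : ℕ} (hq : q.Prime) (t : Fin s → FreeGroup (Fin k))
    (h : (Subgroup.closure (Set.range t)).map (eab k q) = ⊤) : k ≤ s := by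
  have : Fact q.Prime := ⟨hq⟩
  set w : Fin s → (Fin k → ZMod q) := fun i => Multiplicative.toAdd (eab k q (t i)) with hw
  have h1 : Submodule.span (ZMod q) (Set.range w) = ⊤ := by
    rw [eq_top_iff]
    intro v _
    have h2 : Multiplicative.ofAdd v ∈ (Subgroup.closure (Set.range t)).map (eab k q) := by
      rw [h]
      trivial
    obtain ⟨x, hx, hxv⟩ := h2
    have h3 : ∀ x ∈ Subgroup.closure (Set.range t), Multiplicative.toAdd (eab k q x) ∈
        Submodule.span (ZMod q) (Set.range w) := by
      intro x hx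
      induction hx using Subgroup.closure_induction with
      | mem x hx =>
        obtain ⟨i, rfl⟩ := hx
        exact Submodule.subset_span ⟨i, rfl⟩
      | one =>
        rw [map_one, toAdd_one]
        exact Submodule.zero_mem _
      | mul x y _ _ hx hy =>
        rw [map_mul, toAdd_mul]
        exact Submodule.add_mem _ hx hy
      | inv x _ hx =>
        rw [map_inv, toAdd_inv]
        exact Submodule.neg_mem _ hx
    have h4 := h3 x hx
    rw [hxv, toAdd_ofAdd] at h4
    exact h4
  have h2 := finrank_range_le_card (R := ZMod q) w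
  unfold Set.finrank at h2
  rw [h1, finrank_top, Module.finrank_fin_fun, Fintype.card_fin] at h2
  exact h2

section

variable {k : ℕ} (hk : 2 ≤ k) (r : FreeGroup (Fin k)) (hr1 : r ≠ 1) (m : ℕ)
  (H : ∀ N : Subgroup (OR r), N.Normal → N.FiniteIndex → HasRel m N) (p : ℕ) (hp : p = 0 ∨ p.Prime)

include hk hr1 H hp

/-- the relator is not in `[T, T] T ^ p` if `T` dies in a nontrivial finite quotient of `F` -/
theorem not_mem (T : Subgroup (FreeGroup (Fin k))) {Q : Type} [Group Q] [Finite Q] [Nontrivial Q]
    (π : FreeGroup (Fin k) →* Q) (hs : Function.Surjective π) (hT : T ≤ π.ker) : r ∉ VT p T := by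
  intro hr
  have := Fintype.ofFinite Q
  have h1 : π r = 1 := hT (VT_le p T hr)
  have h2 := dens hk r hr1 m H p hp T hr π hs h1
  rw [(Subgroup.map_eq_bot_iff T).2 hT] at h2
  exact bot_ne_top h2

/-- the relator is not in `[N, N] N ^ p`, `N` a proper normal subgroup of finite index -/
theorem not_mem_normal (N : Subgroup (FreeGroup (Fin k))) [N.Normal] [N.FiniteIndex] (hN : N ≠ ⊤) : r ∉ VT p N := by
  have h1 : Nontrivial (FreeGroup (Fin k) ⧸ N) := by
    rw [← not_subsingleton_iff_nontrivial]
    intro h
    exact hN (QuotientGroup.subgroup_eq_top_of_subsingleton N h)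
  exact not_mem hk r hr1 m H p hp N (QuotientGroup.mk' N) (QuotientGroup.mk'_surjective N)
    (by rw [QuotientGroup.ker_mk'])

/-- the relator is not in the second derived group -/
theorem not_mem_derived : r ∉ VT p (commutator (FreeGroup (Fin k))) := by
  have : Nontrivial (Multiplicative (Fin k → ZMod 2)) := by
    have h0 : Nonempty (Fin k) := ⟨⟨0, by omega⟩⟩
    exact (inferInstance : Nontrivial (Fin k → ZMod 2))
  refine not_mem hk r hr1 m H p hp (commutator (FreeGroup (Fin k))) (eab k 2) (eab_surj k 2) ?_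
  rw [commutator_def, Subgroup.commutator_le]
  intro a _ b _
  rw [MonoidHom.mem_ker, map_commutatorElement]
  exact commutatorElement_eq_one_iff_mul_comm.2 (mul_comm _ _)

/-- **a subgroup `T` with `r ∈ [T, T] T ^ p` needs at least `k` generators** -/
theorem rank_le {s : ℕ} (t : Fin s → FreeGroup (Fin k)) (hr : r ∈ VT p (Subgroup.closure (Set.range t))) : k ≤ s := by
  obtain ⟨q, hq, hpq⟩ : ∃ q : ℕ, q.Prime ∧ (q = p ∨ p = 0) := by
    rcases hp with h | h
    · exact ⟨2, Nat.prime_two, Or.inr h⟩
    · exact ⟨p, h, Or.inl rfl⟩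
  have : Fact q.Prime := ⟨hq⟩
  have h1 : eab k q r = 1 := eab_VT k hpq (VT_mono p le_top hr)
  have : Fintype (Multiplicative (Fin k → ZMod q)) := (inferInstance : Fintype (Fin k → ZMod q))
  exact eab_rank hq t (dens hk r hr1 m H p hp _ hr (eab k q) (eab_surj k q) h1)

/-- `r = w (u_1, ..., u_s)` -/
theorem word_le {s : ℕ} (u : Fin s → FreeGroup (Fin k)) (w : FreeGroup (Fin s))
    (hw : w ∈ VT p (⊤ : Subgroup (FreeGroup (Fin s)))) (hr : r = FreeGroup.lift u w) : k ≤ s := by
  refine rank_le hk r hr1 m H p hp u ?_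
  have h1 : FreeGroup.lift u w ∈ (VT p (⊤ : Subgroup (FreeGroup (Fin s)))).map (FreeGroup.lift u) := ⟨w, hw, rfl⟩
  rw [VT_map, ← MonoidHom.range_eq_map, FreeGroup.range_lift_eq_closure, ← hr] at h1
  exact h1

/-- `r` is a product of `n` commutators and `l` `p`-th powers: `k ≤ 2 n + l` -/
theorem mixed_le {n l : ℕ} (u v : Fin n → FreeGroup (Fin k)) (x : Fin l → FreeGroup (Fin k))
    (hr : r = (List.ofFn fun i => ⁅u i, v i⁆).prod * (List.ofFn fun i => x i ^ p).prod) : k ≤ 2 * n + l := by
  have h1 := rank_le hk r hr1 m H p hp (Fin.append (Fin.append u v) x) ?_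
  · omega
  · set T := Subgroup.closure (Set.range (Fin.append (Fin.append u v) x)) with hT
    have hu : ∀ i, u i ∈ T := fun i =>
      Subgroup.subset_closure ⟨Fin.castAdd l (Fin.castAdd n i), by rw [Fin.append_left, Fin.append_left]⟩
    have hv : ∀ i, v i ∈ T := fun i =>
      Subgroup.subset_closure ⟨Fin.castAdd l (Fin.natAdd n i), by rw [Fin.append_left, Fin.append_right]⟩
    have hx : ∀ i, x i ∈ T := fun i => Subgroup.subset_closure ⟨Fin.natAdd (n + n) i, by rw [Fin.append_right]⟩
    rw [hr]
    refine Subgroup.mul_mem _ ?_ ?_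
    · refine Subgroup.list_prod_mem _ fun y hy => ?_
      rw [List.mem_ofFn'] at hy
      obtain ⟨i, rfl⟩ := hy
      exact (le_sup_left : ⁅T, T⁆ ≤ VT p T) (Subgroup.commutator_mem_commutator (hu i) (hv i))
    · refine Subgroup.list_prod_mem _ fun y hy => ?_
      rw [List.mem_ofFn'] at hy
      obtain ⟨i, rfl⟩ := hy
      exact (le_sup_right : _ ≤ VT p T) (Subgroup.subset_closure ⟨x i, hx i, rfl⟩)

/-- `r` is a product of `n` `p`-th powers: `k ≤ n` -/
theorem powers_le {n : ℕ} (x : Fin n → FreeGroup (Fin k)) (hr : r = (List.ofFn fun i => x i ^ p).prod) : k ≤ n := by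
  have h1 := mixed_le hk r hr1 m H p hp (n := 0) (l := n) Fin.elim0 Fin.elim0 x
    (by rw [hr, List.ofFn_zero, List.prod_nil, one_mul])
  omega

end

/-- **the commutator length of the relator is at least `k / 2`**: `r` is a product of `n` commutators, `k ≤ 2 n` -/
theorem genus_le {k : ℕ} (hk : 2 ≤ k) (r : FreeGroup (Fin k)) (hr1 : r ≠ 1) (m : ℕ)
    (H : ∀ N : Subgroup (OR r), N.Normal → N.FiniteIndex → HasRel m N) {n : ℕ} (u v : Fin n → FreeGroup (Fin k))
    (hr : r = (List.ofFn fun i => ⁅u i, v i⁆).prod) : k ≤ 2 * n := by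
  have h1 := mixed_le hk r hr1 m H 0 (Or.inl rfl) (n := n) (l := 0) u v Fin.elim0
    (by rw [hr, List.ofFn_zero, List.prod_nil, mul_one])
  omega

end Pool.Agent.MelD
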