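import Pool.Agent.MelD.ProjZero
import Pool.Agent.MelD.ChiDef

/-!
# Duality for all finite modules

`χ : F → F_p` a character that kills the Fox derivatives of `r`, under the hypothesis on the numbers of
relators.  For every representation `V` over `F_p` of a finite quotient of `G_r` the range of `ev` is the
span of the vectors `g v - χ g v` (so `H^2 (G_r; V) = H_0 (G_r; V ⊗ χ⁻¹)`), and a homomorphism from `G_r`
lifts through a kernel `A`, abelian of exponent `p`, if `A` has no nonzero quotient on which `G_r` acts
by `χ`.
-/

open Finset Module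

namespace Pool.Agent.MelD

open Pool.Agent.MelG (HasRel)

/-- Representations given by characters. -/
def chiEnd {G K : Type} [Group G] [Field K] (χ : G →* K) : G →* Module.End K K where
  toFun g := χ g • (1 : Module.End K K)
  map_one' := by rw [map_one, one_smul]
  map_mul' := by
    intro a b
    rw [map_mul]
    ext
    simp [mul_comm]

theorem chiEnd_apply {G K : Type} [Group G] [Field K] (χ : G →* K) (g : G) (x : K) :
    chiEnd χ g x = χ g * x := rfl

/-- The map `ev` vanishes for a dual character. -/
theorem ev_chi {K : Type} [Field K] {k : ℕ} (r : FreeGroup (Fin k)) (χ : FreeGroup (Fin k) →* K)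
    (h : Dual r χ) (v : Fin k → K) : ev (chiEnd χ) r v = 0 := by
  have h1 : ∀ w, coc (chiEnd χ) v w = ∑ j, fox χ j w * v j := by
    intro w
    refine coc_unique (chiEnd χ) (coc (chiEnd χ) v) (fun w => ∑ j, fox χ j w * v j)
      (coc_mul (chiEnd χ) v) ?_ ?_ w
    · intro g h
      simp only [fox_mul, add_mul, sum_add_distrib]
      congr 1
      show _ = χ g * ∑ j, fox χ j h * v j
      rw [mul_sum]
      exact sum_congr rfl fun j _ => mul_assoc _ _ _
    · intro j
      rw [coc_of]
      simp only [fox_of]
      rw [sum_eq_single j]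
      · rw [if_pos rfl, one_mul]
      · intro i _ hi
        rw [if_neg (Ne.symm hi), zero_mul]
      · intro h
        exact absurd (mem_univ j) h
  rw [ev_apply, h1]
  exact sum_eq_zero fun j _ => by rw [h j, zero_mul]

/-- If the range of `ev` for the regular representation has codimension at most `1` and `χ` is dual, then
the range is the kernel of the functional of `χ`. -/
theorem range_of_dual {K : Type} [Field K] {k : ℕ} (r : FreeGroup (Fin k)) {Q : Type} [Group Q]
    [Fintype Q] (π : FreeGroup (Fin k) →* Q) (hc : cork K r π ≤ 1) (χ : Q →* K)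
    (h : Dual r (χ.comp π)) (f : Q → K) (hf : ∑ q, f q * χ q⁻¹ = 0) :
    f ∈ LinearMap.range (ev (ind π (1 : FreeGroup (Fin k) →* Module.End K K)) r) := by
  classical
  set R := LinearMap.range (ev (ind π (1 : FreeGroup (Fin k) →* Module.End K K)) r) with hR
  let L : (Q → K) →ₗ[K] K := smear (chiEnd χ) 1
  have hL : ∀ f, L f = ∑ q, f q * χ q⁻¹ := by
    intro f
    show smear (chiEnd χ) 1 f = _
    rw [smear_apply]
    refine sum_congr rfl fun q _ => ?_
    rw [chiEnd_apply, mul_one, smul_eq_mul]
  have hle : R ≤ LinearMap.ker L := by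
    intro f hf
    have h1 := smear_ev r π (chiEnd χ) (1 : K) f hf
    obtain ⟨v, hv⟩ := h1
    rw [LinearMap.mem_ker]
    show smear (chiEnd χ) 1 f = 0
    rw [← hv]
    exact ev_chi r (χ.comp π) h v
  have hL1 : L ≠ 0 := by
    intro h0
    have h1 : L (Pi.single 1 1) = 0 := by rw [h0]; rfl
    have h2 : L (Pi.single 1 1) = 1 := by
      show smear (chiEnd χ) 1 (Pi.single 1 1) = 1
      rw [smear_single, chiEnd_apply, inv_one, map_one, mul_one, one_smul]
    rw [h1] at h2
    exact zero_ne_one h2
  have hdim : finrank K (LinearMap.ker L) + 1 = Fintype.card Q := by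
    have h1 := LinearMap.finrank_range_add_finrank_ker L
    rw [Module.finrank_fintype_fun_eq_card] at h1
    have h2 : LinearMap.range L = ⊤ := LinearMap.range_eq_top.mpr (LinearMap.surjective hL1)
    rw [h2, finrank_top, Module.finrank_self] at h1
    omega
  have hdimR := rank_add_cork K r π
  rw [← hR] at hdimR
  have heq : R = LinearMap.ker L := Submodule.eq_of_le_of_finrank_le hle (by omega)
  rw [heq, LinearMap.mem_ker, hL]
  exact hf

/-- **Duality.**  The range of `ev` for all representations of finite quotients. -/
theorem range_ev_dual {k : ℕ} (hk : 2 ≤ k) (r : FreeGroup (Fin k)) (hr1 : r ≠ 1) (m : ℕ)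
    (H : ∀ N : Subgroup (OR r), N.Normal → N.FiniteIndex → HasRel m N) {K : Type} [Field K] [Finite K]
    (χ : FreeGroup (Fin k) →* K) (h : Dual r χ)
    {Q : Type} [Group Q] [Finite Q] (π : FreeGroup (Fin k) →* Q) (hπ : π r = 1) {V : Type}
    [AddCommGroup V] [Module K V] (σ : Q →* Module.End K V) :
    LinearMap.range (ev (σ.comp π) r) =
      Submodule.span K {x | ∃ g v, x = σ (π g) v - χ g • v} := by
  classical
  apply le_antisymm
  · -- the quotient is a sum of copies of `χ`
    rintro _ ⟨v, rfl⟩
    rw [ev_apply, coc_eq_sum]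
    set W := Submodule.span K {x | ∃ g v, x = σ (π g) v - χ g • v} with hW
    -- `fox ρ j r` acts as the scalar `fox χ j r` modulo `W`
    have h1 : ∀ (w : FreeGroup (Fin k)) (v : Fin k → V),
        W.mkQ (coc (σ.comp π) v w) = ∑ j, fox χ j w • W.mkQ (v j) := by
      intro w v
      have hmod : ∀ (g : FreeGroup (Fin k)) (x : V), W.mkQ (σ (π g) x) = χ g • W.mkQ x := by
        intro g x
        rw [← map_smul, ← sub_eq_zero, ← map_sub]
        exact (Submodule.Quotient.mk_eq_zero W).mpr (Submodule.subset_span ⟨g, x, rfl⟩)
      induction w using FreeGroup.induction_on with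
      | C1 =>
        rw [coc_one, map_zero]
        symm
        refine sum_eq_zero fun j _ => ?_
        have : fox χ j 1 = 0 := by
          unfold fox
          exact coc_one _ _
        rw [this, zero_smul]
      | of i =>
        rw [coc_of, sum_eq_single i]
        · rw [fox_of, if_pos rfl, one_smul]
        · intro j _ hj
          rw [fox_of, if_neg (Ne.symm hj), zero_smul]
        · intro h
          exact absurd (mem_univ i) h
      | inv_of i ih =>
        have h2 : coc (σ.comp π) v (FreeGroup.of i)⁻¹ =
            -(σ (π (FreeGroup.of i)⁻¹) (coc (σ.comp π) v (FreeGroup.of i))) := by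
          rw [coc_inv]
          rfl
        have h3 : ∀ j, fox χ j (FreeGroup.of i)⁻¹ =
            -(χ (FreeGroup.of i)⁻¹ * fox χ j (FreeGroup.of i)) := by
          intro j
          unfold fox
          rw [coc_inv, smul_eq_mul]
        change W.mkQ (coc (σ.comp π) v (FreeGroup.of i)⁻¹) =
          ∑ j, fox χ j (FreeGroup.of i)⁻¹ • W.mkQ (v j)
        have ih' : W.mkQ (coc (σ.comp π) v (FreeGroup.of i)) =
          ∑ j, fox χ j (FreeGroup.of i) • W.mkQ (v j) := ih
        rw [h2, map_neg, hmod, ih', smul_sum, ← sum_neg_distrib]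
        refine sum_congr rfl fun j _ => ?_
        rw [h3, neg_smul, mul_smul]
      | mul a b iha ihb =>
        have h2 : coc (σ.comp π) v (a * b) = coc (σ.comp π) v a +
            σ (π a) (coc (σ.comp π) v b) := coc_mul _ _ _ _
        rw [h2, map_add, hmod, iha, ihb, smul_sum, ← sum_add_distrib]
        refine sum_congr rfl fun j _ => ?_
        rw [fox_mul, add_smul, mul_smul]
    rw [← coc_eq_sum, ← Submodule.Quotient.mk_eq_zero W]
    show W.mkQ (coc (σ.comp π) v r) = 0
    rw [h1]
    exact sum_eq_zero fun j _ => by rw [h j, zero_smul]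
  · rw [Submodule.span_le]
    rintro _ ⟨g, v, rfl⟩
    -- the image of the free group in `Q × K`
    have hχu : ∀ w, χ w ≠ 0 := fun w h0 => by
      have h1 := map_mul χ w w⁻¹
      rw [mul_inv_cancel, map_one, h0, zero_mul] at h1
      exact one_ne_zero h1
    let χu : FreeGroup (Fin k) →* Kˣ := χ.toHomUnits
    let Pp : FreeGroup (Fin k) →* Q × Kˣ := π.prod χu
    let π' : FreeGroup (Fin k) →* Pp.range := Pp.rangeRestrict
    have : Finite Kˣ := inferInstance
    have : Fintype Pp.range := Fintype.ofFinite _
    have hχr : χu r = 1 := Units.ext h.rel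
    have hπ' : π' r = 1 := by
      apply Subtype.ext
      exact Prod.ext hπ hχr
    let χ' : Pp.range →* K := (Units.coeHom K).comp ((MonoidHom.snd Q Kˣ).comp Pp.range.subtype)
    have hχ' : χ'.comp π' = χ := by
      apply MonoidHom.ext
      intro w
      rfl
    let σ' : Pp.range →* Module.End K V := σ.comp ((MonoidHom.fst Q Kˣ).comp Pp.range.subtype)
    have hσ' : σ'.comp π' = σ.comp π := by
      apply MonoidHom.ext
      intro w
      rfl
    have hcork := cork_le_one_all hk r hr1 m H π' Pp.rangeRestrict_surjective hπ' K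
    have h1 := range_of_dual r π' hcork χ' (by rw [hχ']; exact h)
      (Pi.single (π' g)⁻¹ 1 - χ g • Pi.single 1 1) (by
        simp only [Pi.sub_apply, Pi.smul_apply, smul_eq_mul, sub_mul, sum_sub_distrib]
        rw [sum_eq_single (π' g)⁻¹, sum_eq_single (1 : Pp.range)]
        · rw [Pi.single_eq_same, Pi.single_eq_same, inv_inv, inv_one, map_one, one_mul, mul_one,
            mul_one, sub_eq_zero]
          rfl
        · intro q _ hq
          rw [Pi.single_eq_of_ne hq, mul_zero, zero_mul]
        · intro h; exact absurd (mem_univ _) h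
        · intro q _ hq
          rw [Pi.single_eq_of_ne hq, zero_mul]
        · intro h; exact absurd (mem_univ _) h)
    have h2 := smear_ev r π' σ' v _ h1
    rw [hσ', map_sub, map_smul, smear_single, smear_single, inv_inv, inv_one, map_one, one_smul,
      one_smul] at h2
    exact h2

end Pool.Agent.MelD
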