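import Pool.Agent.MelD.DualEv

/-!
# Lifting problems for a one-relator group with a dual character
-/

open Finset Module

namespace Pool.Agent.MelD

open Pool.Agent.MelG (HasRel)

theorem lift_core_dual {k : ℕ} (hk : 2 ≤ k) (r : FreeGroup (Fin k)) (hr1 : r ≠ 1) (m : ℕ)
    (H : ∀ N : Subgroup (OR r), N.Normal → N.FiniteIndex → HasRel m N) (p : ℕ) [hp : Fact p.Prime]
    (χ : FreeGroup (Fin k) →* ZMod p) (hχ : Dual r χ) {P A B : Type}
    [Group P] [CommGroup A] [Module (ZMod p) (Additive A)] [Group B] (ι : A →* P) (q : P →* B)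
    (hq : ∀ x, q x = 1 → ∃ a, ι a = x) (hq' : ∀ a, q (ι a) = 1) (hqs : Function.Surjective q)
    (σ' : B →* MulAut A) (hσ : ∀ x a, ι (σ' (q x) a) = x * ι a * x⁻¹) (φ₀ : OR r →* B)
    (hfin : Finite φ₀.range)
    (hA : ∀ l : A →* Multiplicative (ZMod p), (∀ (w : FreeGroup (Fin k)) (a : A),
      Multiplicative.toAdd (l (σ' (φ₀ (PresentedGroup.mk {r} w)) a)) =
        χ w * Multiplicative.toAdd (l a)) → l = 1) :
    ∃ φ : OR r →* P, ∀ s, q (φ s) = φ₀ s := by
  refine lift_core r p ι q hq hq' hqs σ' hσ φ₀ ?_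
  rw [← LinearMap.range_eq_top]
  have hπr : (φ₀.rangeRestrict.comp (PresentedGroup.mk {r})) r = 1 := by
    show φ₀.rangeRestrict (PresentedGroup.mk {r} r) = 1
    rw [mk_rel, map_one]
  rw [range_ev_dual hk r hr1 m H χ hχ (φ₀.rangeRestrict.comp (PresentedGroup.mk {r})) hπr
    ((linAut p).comp (σ'.comp φ₀.range.subtype))]
  by_contra hne
  obtain ⟨L, hL0, hL⟩ := Submodule.exists_le_ker_of_lt_top _ (lt_top_iff_ne_top.mpr hne)
  apply hL0
  have h1 := hA (MonoidHom.mk' (fun a => Multiplicative.ofAdd (L (Additive.ofMul a))) (by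
    intro a b
    rw [← ofAdd_add, ← map_add]
    rfl)) (by
    intro w a
    show L (Additive.ofMul (σ' (φ₀ (PresentedGroup.mk {r} w)) a)) = χ w * L (Additive.ofMul a)
    have h1 := hL (Submodule.subset_span ⟨w, Additive.ofMul a, rfl⟩)
    rw [LinearMap.mem_ker, map_sub, map_smul, sub_eq_zero, smul_eq_mul] at h1
    exact h1)
  apply LinearMap.ext
  intro x
  have h2 := DFunLike.congr_fun h1 (Additive.toMul x)
  exact h2

/-- **Lifting.**  `χ` a character with values in `ZMod p` that kills the Fox derivatives of `r`.  A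
homomorphism from `G_r` with finite image lifts through a kernel `A`, abelian of exponent `p`, if every
equivariant homomorphism from `A` to the one-dimensional representation `χ` is trivial. -/
theorem lift_dual {k : ℕ} (hk : 2 ≤ k) (r : FreeGroup (Fin k)) (hr1 : r ≠ 1) (m : ℕ)
    (H : ∀ N : Subgroup (OR r), N.Normal → N.FiniteIndex → HasRel m N) (p : ℕ) [hp : Fact p.Prime]
    (χ : FreeGroup (Fin k) →* ZMod p) (hχ : Dual r χ) {P : Type} [Group P]
    (A : Subgroup P) [hAn : A.Normal]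
    (hcomm : ∀ a ∈ A, ∀ b ∈ A, a * b = b * a) (hexp : ∀ a ∈ A, a ^ p = 1) (φ₀ : OR r →* P ⧸ A)
    (hfin : Finite φ₀.range)
    (hA : ∀ l : A →* Multiplicative (ZMod p), (∀ (w : FreeGroup (Fin k)) (y : P) (a b : A),
      (QuotientGroup.mk y : P ⧸ A) = φ₀ (PresentedGroup.mk {r} w) → b.1 = y * a.1 * y⁻¹ →
        Multiplicative.toAdd (l b) = χ w * Multiplicative.toAdd (l a)) → l = 1) :
    ∃ φ : OR r →* P, ∀ s, (QuotientGroup.mk (φ s) : P ⧸ A) = φ₀ s := by
  classical
  let _ : CommGroup A := { (inferInstance : Group A) with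
    mul_comm := fun a b => Subtype.ext (hcomm a.1 a.2 b.1 b.2) }
  let _ : Module (ZMod p) (Additive A) := AddCommGroup.zmodModule (fun a => by
    apply Additive.toMul.injective
    apply Subtype.ext
    exact hexp _ (Additive.toMul a).2)
  have hA1 : A ≤ (MulAut.conjNormal : P →* MulAut A).ker := by
    intro a ha
    rw [MonoidHom.mem_ker]
    ext b
    show a * b.1 * a⁻¹ = b.1
    rw [hcomm a ha b.1 b.2, mul_inv_cancel_right]
  refine lift_core_dual hk r hr1 m H p χ hχ (A := A) A.subtype (QuotientGroup.mk' A)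
    (fun x hx => ⟨⟨x, (QuotientGroup.eq_one_iff x).mp hx⟩, rfl⟩)
    (fun a => (QuotientGroup.eq_one_iff a.1).mpr a.2) (QuotientGroup.mk'_surjective A)
    (QuotientGroup.lift A MulAut.conjNormal hA1) (fun x a => rfl) φ₀ hfin ?_
  intro l hl
  refine hA l ?_
  intro w y a b hy hb
  rw [← hl w a]
  congr 2
  apply Subtype.ext
  rw [← hy, hb]
  rfl

end Pool.Agent.MelD
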