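import Pool.Agent.MelD.Mag

/-!
# Free groups are residually finite `p`-groups

The group of power series with constant coefficient `1` over a finite ring of order a power of `p`,
modulo `t ^ D`, is a finite `p`-group; the Magnus representation is injective.
-/

open Finset PowerSeries

namespace Pool.Agent.MelD

/-- Reduction of coefficients. -/
noncomputable def gmap {R R' : Type} [Ring R] [Ring R'] (φ : R →+* R') : Gam R →* Gam R' :=
  ((Units.map (PowerSeries.map φ : R⟦X⟧ →* R'⟦X⟧)).comp (Gam R).subtype).codRestrict (Gam R') (by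
    intro u
    rw [mem_Gam]
    show constantCoeff (PowerSeries.map φ (u.1 : R⟦X⟧)) = 1
    rw [← coeff_zero_eq_constantCoeff_apply, coeff_map, coeff_zero_eq_constantCoeff_apply,
      mem_Gam.mp u.2, map_one])

theorem ser_gmap {R R' : Type} [Ring R] [Ring R'] (φ : R →+* R') (u : Gam R) (n : ℕ) :
    coeff n (ser (gmap φ u)) = φ (coeff n (ser u)) := by
  show coeff n (PowerSeries.map φ (u.1 : R⟦X⟧)) = _
  rw [coeff_map]
  rfl

theorem card_quot_KD (R : Type) [Ring R] (D : ℕ) :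
    Nat.card (Gam R ⧸ KD R (D + 1)) = Nat.card (Fin D → R) := by
  classical
  refine Nat.card_congr (Equiv.ofBijective
    (fun q : Gam R ⧸ KD R (D + 1) => fun i : Fin D => coeff (i.1 + 1) (ser (Quotient.out q))) ⟨?_, ?_⟩)
  · intro q q' h
    have h1 : (QuotientGroup.mk (Quotient.out q) : Gam R ⧸ KD R (D + 1)) =
        QuotientGroup.mk (Quotient.out q') := by
      rw [mk_eq_mk]
      intro n hn
      rcases n with _ | n
      · rw [coeff_zero_ser, coeff_zero_ser]
      · exact congrFun h ⟨n, by omega⟩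
    rwa [QuotientGroup.out_eq', QuotientGroup.out_eq'] at h1
  · intro c
    obtain ⟨u, hu⟩ := exists_ser (PowerSeries.mk fun n => if n = 0 then (1 : R) else
      if h : n - 1 < D then c ⟨n - 1, h⟩ else 0) (by
        rw [← coeff_zero_eq_constantCoeff_apply, coeff_mk, if_pos rfl])
    refine ⟨QuotientGroup.mk u, ?_⟩
    funext i
    have h1 : (QuotientGroup.mk (Quotient.out (QuotientGroup.mk u : Gam R ⧸ KD R (D + 1))) :
        Gam R ⧸ KD R (D + 1)) = QuotientGroup.mk u := QuotientGroup.out_eq' _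
    rw [mk_eq_mk] at h1
    show coeff (i.1 + 1) (ser (Quotient.out (QuotientGroup.mk u : Gam R ⧸ KD R (D + 1)))) = c i
    rw [h1 (i.1 + 1) (by omega), hu, coeff_mk, if_neg (by omega)]
    simp

/-- Free groups are residually finite `p`-groups. -/
theorem resp_free {k : ℕ} (p : ℕ) [hp : Fact p.Prime] (w : FreeGroup (Fin k)) (hw : w ≠ 1) :
    ∃ (P : Type) (_ : Group P) (_ : Finite P) (κ : FreeGroup (Fin k) →* P),
      IsPGroup p P ∧ κ w ≠ 1 := by
  classical
  have h1 : mag (0 : Fin k → ℤ) w ≠ 1 := by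
    intro h
    exact hw (mag_injective 0 (h.trans (map_one _).symm))
  obtain ⟨n, hn⟩ : ∃ n, coeff n (ser (mag (0 : Fin k → ℤ) w)) ≠
      coeff n (1 : (Matrix (Fin 3) (Fin 3) ℤ)⟦X⟧) := by
    by_contra h
    push Not at h
    apply h1
    apply ser_injective
    rw [ser_one]
    exact PowerSeries.ext h
  have hn0 : n ≠ 0 := by
    rintro rfl
    apply hn
    rw [coeff_zero_ser, coeff_one, if_pos rfl]
  rw [coeff_one, if_neg hn0] at hn
  obtain ⟨i, j, hij⟩ : ∃ i j, coeff n (ser (mag (0 : Fin k → ℤ) w)) i j ≠ 0 := by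
    by_contra h
    push Not at h
    apply hn
    ext i j
    rw [h i j, Matrix.zero_apply]
  set z := coeff n (ser (mag (0 : Fin k → ℤ) w)) i j with hz
  obtain ⟨a, ha⟩ : ∃ a : ℕ, z.natAbs < p ^ a := ⟨z.natAbs, Nat.lt_pow_self hp.out.one_lt⟩
  have hne : NeZero (p ^ a) := ⟨pow_ne_zero _ hp.out.ne_zero⟩
  let R := Matrix (Fin 3) (Fin 3) (ZMod (p ^ a))
  let φ : Matrix (Fin 3) (Fin 3) ℤ →+* R := (Int.castRingHom (ZMod (p ^ a))).mapMatrix
  have hcard : Nat.card (Gam R ⧸ KD R (n + 1)) = p ^ (((a * 3) * 3) * n) := by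
    rw [card_quot_KD]
    have h2 : Nat.card R = p ^ ((a * 3) * 3) := by
      show Nat.card (Fin 3 → Fin 3 → ZMod (p ^ a)) = _
      rw [Nat.card_fun, Nat.card_fun, Nat.card_fin, Nat.card_zmod, ← pow_mul, ← pow_mul, mul_assoc]
    rw [Nat.card_fun, h2, Nat.card_fin, ← pow_mul]
  have hfin : Finite (Gam R ⧸ KD R (n + 1)) := by
    apply Nat.finite_of_card_ne_zero
    rw [hcard]
    exact pow_ne_zero _ hp.out.ne_zero
  refine ⟨Gam R ⧸ KD R (n + 1), inferInstance, hfin,
    (QuotientGroup.mk' (KD R (n + 1))).comp ((gmap φ).comp (mag 0)), IsPGroup.of_card hcard, ?_⟩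
  intro h
  have h2 : (QuotientGroup.mk (gmap φ (mag 0 w)) : Gam R ⧸ KD R (n + 1)) = QuotientGroup.mk 1 := h
  rw [mk_eq_mk] at h2
  have h3 := h2 n (by omega)
  rw [ser_gmap, ser_one, coeff_one, if_neg hn0] at h3
  have h4 : ((z : ℤ) : ZMod (p ^ a)) = 0 := congrFun (congrFun h3 i) j
  rw [ZMod.intCast_zmod_eq_zero_iff_dvd] at h4
  have h5 := Int.natAbs_dvd_natAbs.mpr h4
  rw [Int.natAbs_natCast] at h5
  have h6 := Nat.le_of_dvd (Int.natAbs_pos.mpr hij) h5
  omega

end Pool.Agent.MelD
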