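import Pool.Agent.MelD.Closed
import Pool.Agent.MelD.ResP

/-!
# Freeness in closed subgroups of infinite index

`G_r` a one-relator group all of whose finite index normal subgroups have presentations with at most `m`
relators, `S` a closed subgroup of infinite index, `p` a prime, `x_1, ..., x_d` elements of `S` that are
linearly independent in `H_1 (S; ZMod p)` (every assignment of values in `ZMod p` to the `x_i` extends
to a homomorphism on `S`).  Then the `x_i` are a free basis of the subgroup they generate: every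
assignment of values in a finite `p`-group `P` extends to a homomorphism `S → P` (induction on the
order of `P`, central extensions, `H_2 (S; ZMod p) = 0` by `closed_cycles`), and free groups are
residually finite `p`-groups.
-/

open Finset Module

namespace Pool.Agent.MelD

open Pool.Agent.MelG (HasRel)

/-- Prescribed values of a homomorphism on a family independent in the abelianization tensored with
`K`. -/
theorem exists_hom_of_indep {T : Type} [Group T] [IsFreeGroup T] {K : Type} [Field K] {ι : Type}
    (v : ι → T)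
    (hv : ∀ (s : Finset ι) (c : ι → K),
      (∀ χ : T →* Multiplicative K, ∑ i ∈ s, c i * Multiplicative.toAdd (χ (v i)) = 0) →
        ∀ i ∈ s, c i = 0) (f : ι → K) :
    ∃ χ : T →* Multiplicative K, ∀ i, χ (v i) = Multiplicative.ofAdd (f i) := by
  classical
  let V := IsFreeGroup.Generators T →₀ K
  let θ : T →* Multiplicative V :=
    IsFreeGroup.lift fun b => Multiplicative.ofAdd (Finsupp.single b (1 : K))
  have hθ : ∀ b, θ (IsFreeGroup.of b) = Multiplicative.ofAdd (Finsupp.single b (1 : K)) := by
    intro b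
    exact IsFreeGroup.lift_of _ b
  -- homomorphisms are linear functionals
  have hχ : ∀ χ : T →* Multiplicative K, ∃ L : V →ₗ[K] K, ∀ t,
      Multiplicative.toAdd (χ t) = L (Multiplicative.toAdd (θ t)) := by
    intro χ
    let L : V →ₗ[K] K :=
      Finsupp.linearCombination K fun b => Multiplicative.toAdd (χ (IsFreeGroup.of b))
    refine ⟨L, ?_⟩
    have h1 : χ = (AddMonoidHom.toMultiplicative L.toAddMonoidHom).comp θ := by
      refine IsFreeGroup.ext_hom fun b => ?_
      show χ (IsFreeGroup.of b) = Multiplicative.ofAdd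
        (L (Multiplicative.toAdd (θ (IsFreeGroup.of b))))
      rw [hθ, toAdd_ofAdd, Finsupp.linearCombination_single, one_smul, ofAdd_toAdd]
    intro t
    conv_lhs => rw [h1]
    rfl
  have hli : LinearIndependent K fun i => Multiplicative.toAdd (θ (v i)) := by
    rw [linearIndependent_iff']
    intro s c hc
    refine hv s c ?_
    intro χ
    obtain ⟨L, hL⟩ := hχ χ
    simp only [hL]
    have h1 := congrArg L hc
    rw [map_sum, map_zero] at h1
    rw [← h1]
    refine sum_congr rfl fun i _ => ?_
    rw [map_smul, smul_eq_mul]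
  let g₀ : Submodule.span K (Set.range fun i => Multiplicative.toAdd (θ (v i))) →ₗ[K] K :=
    (Finsupp.linearCombination K f).comp hli.repr
  obtain ⟨L, hL⟩ := LinearMap.exists_extend g₀
  refine ⟨(AddMonoidHom.toMultiplicative L.toAddMonoidHom).comp θ, ?_⟩
  intro i
  show Multiplicative.ofAdd (L (Multiplicative.toAdd (θ (v i)))) = _
  congr 1
  have h1 : Multiplicative.toAdd (θ (v i)) ∈
      Submodule.span K (Set.range fun i => Multiplicative.toAdd (θ (v i))) :=
    Submodule.subset_span ⟨i, rfl⟩
  have h2 := LinearMap.congr_fun hL ⟨_, h1⟩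
  have h3 : L (Multiplicative.toAdd (θ (v i))) = g₀ ⟨_, h1⟩ := h2
  rw [h3]
  show Finsupp.linearCombination K f (hli.repr ⟨_, h1⟩) = f i
  rw [hli.repr_eq_single i ⟨_, h1⟩ rfl, Finsupp.linearCombination_single, one_smul]

theorem pow_mod_eq {P : Type} [Group P] {p : ℕ} (z : P) (hz : orderOf z = p) (n : ℕ) :
    z ^ (n % p) = z ^ n := by
  have h := pow_mod_orderOf z n
  rwa [hz] at h

/-- The homomorphism from `ZMod p` onto the subgroup generated by an element of order `p`. -/
def cyc {P : Type} [Group P] {p : ℕ} [NeZero p] (z : P) (hz : orderOf z = p) :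
    Multiplicative (ZMod p) →* P where
  toFun a := z ^ (Multiplicative.toAdd a).val
  map_one' := by
    show z ^ (0 : ZMod p).val = 1
    rw [ZMod.val_zero, pow_zero]
  map_mul' := by
    intro a b
    show z ^ (Multiplicative.toAdd a + Multiplicative.toAdd b).val = _
    rw [ZMod.val_add, ← pow_add]
    exact pow_mod_eq z hz _

theorem cyc_surj {P : Type} [Group P] {p : ℕ} [NeZero p] (z : P) (hz : orderOf z = p) (u : P)
    (hu : u ∈ Subgroup.zpowers z) : ∃ a : ZMod p, cyc z hz (Multiplicative.ofAdd a) = u := by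
  have h0 : 0 < orderOf z := by
    rw [hz]
    exact Nat.pos_of_ne_zero (NeZero.ne p)
  have hfo : IsOfFinOrder z := orderOf_pos_iff.mp h0
  obtain ⟨n, rfl⟩ := (hfo.mem_powers_iff_mem_zpowers.mpr hu)
  refine ⟨(n : ZMod p), ?_⟩
  show z ^ (n : ZMod p).val = z ^ n
  rw [ZMod.val_natCast]
  exact pow_mod_eq z hz n

theorem cyc_mem {P : Type} [Group P] {p : ℕ} [NeZero p] (z : P) (hz : orderOf z = p)
    (a : Multiplicative (ZMod p)) : cyc z hz a ∈ Subgroup.zpowers z :=
  Subgroup.npow_mem_zpowers z _

/-- Extension of values in a finite `p`-group. -/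
theorem step {k : ℕ} (hk : 2 ≤ k) (r : FreeGroup (Fin k)) (hr1 : r ≠ 1) (m : ℕ)
    (H : ∀ N : Subgroup (OR r), N.Normal → N.FiniteIndex → HasRel m N)
    (S : Subgroup (OR r)) (hS : IsProClosed S) (hinf : ¬ S.FiniteIndex)
    (p : ℕ) [hp : Fact p.Prime] {d : ℕ} (x : Fin d → S)
    (hx : ∀ a : Fin d → ZMod p, ∃ χ : S →* Multiplicative (ZMod p),
      ∀ i, χ (x i) = Multiplicative.ofAdd (a i)) (n : ℕ) :
    ∀ (P : Type) [Group P] [Finite P], IsPGroup p P → Nat.card P ≤ n → ∀ y : Fin d → P,
      ∃ φ : S →* P, ∀ i, φ (x i) = y i := by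
  classical
  induction n with
  | zero =>
    intro P _ _ _ hcard
    have h1 : 0 < Nat.card P := Nat.card_pos
    omega
  | succ n ih =>
    intro P _ _ hP hcard y
    rcases subsingleton_or_nontrivial P with hsub | hnt
    · exact ⟨1, fun i => Subsingleton.elim _ _⟩
    -- a central element of order `p`
    have hcen : Nontrivial (Subgroup.center P) := hP.center_nontrivial
    have hdvd : p ∣ Nat.card (Subgroup.center P) := by
      obtain ⟨e, he⟩ := (IsPGroup.iff_card (p := p)).mp (hP.to_subgroup (Subgroup.center P))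
      rw [he]
      refine dvd_pow_self p ?_
      rintro rfl
      rw [pow_zero] at he
      have h1 : 1 < Nat.card (Subgroup.center P) := Finite.one_lt_card
      omega
    obtain ⟨z', hz'⟩ := exists_prime_orderOf_dvd_card' p hdvd
    let z : P := z'.1
    have hz : orderOf z = p := by
      rw [← hz']
      exact Subgroup.orderOf_coe z'
    have hzc : ∀ (u : P), u ∈ Subgroup.zpowers z → ∀ v : P, v * u = u * v := by
      intro u hu v
      have h1 : Subgroup.zpowers z ≤ Subgroup.center P := by
        rw [Subgroup.zpowers_le]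
        exact z'.2
      exact Subgroup.mem_center_iff.mp (h1 hu) v
    have hC : (Subgroup.zpowers z).Normal := by
      constructor
      intro u hu v
      rw [hzc u hu v, mul_inv_cancel_right]
      exact hu
    have hιc : ∀ (a : Multiplicative (ZMod p)) (v : P), v * cyc z hz a = cyc z hz a * v :=
      fun a v => hzc _ (cyc_mem z hz a) v
    -- the quotient
    have hcardQ : Nat.card (P ⧸ Subgroup.zpowers z) ≤ n := by
      have h1 := Subgroup.card_eq_card_quotient_mul_card_subgroup (Subgroup.zpowers z)
      rw [Nat.card_zpowers, hz] at h1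
      have h2 := hp.out.two_le
      have h3 : 0 < Nat.card (P ⧸ Subgroup.zpowers z) := Nat.card_pos
      have h4 : Nat.card (P ⧸ Subgroup.zpowers z) * 2 ≤
          Nat.card (P ⧸ Subgroup.zpowers z) * p := Nat.mul_le_mul_left _ h2
      omega
    obtain ⟨φ₀, hφ₀⟩ := ih (P ⧸ Subgroup.zpowers z) (hP.to_quotient _) hcardQ
      (fun i => QuotientGroup.mk (y i))
    -- the free group above `S`
    let T := S.comap (PresentedGroup.mk ({r} : Set (FreeGroup (Fin k))))
    let τ : T →* S := (PresentedGroup.mk ({r} : Set (FreeGroup (Fin k)))).subgroupComap S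
    have hτ : Function.Surjective τ := by
      rintro ⟨s, hs⟩
      obtain ⟨t, rfl⟩ := PresentedGroup.mk_surjective _ s
      exact ⟨⟨t, hs⟩, rfl⟩
    let μ : T →* P := IsFreeGroup.lift fun b => Quotient.out (φ₀ (τ (IsFreeGroup.of b)))
    have hμ : ∀ t, (QuotientGroup.mk (μ t) : P ⧸ Subgroup.zpowers z) = φ₀ (τ t) := by
      have h1 : (QuotientGroup.mk' (Subgroup.zpowers z)).comp μ = φ₀.comp τ := by
        refine IsFreeGroup.ext_hom fun b => ?_
        show (QuotientGroup.mk (μ (IsFreeGroup.of b)) : P ⧸ Subgroup.zpowers z) =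
          φ₀ (τ (IsFreeGroup.of b))
        rw [IsFreeGroup.lift_of]
        exact QuotientGroup.out_eq' _
      exact fun t => DFunLike.congr_fun h1 t
    let cj : FreeGroup (Fin k) → T := fun g => ⟨g * r * g⁻¹, conj_mem_comap r S g⟩
    have hτc : ∀ g, τ (cj g) = 1 := by
      intro g
      apply Subtype.ext
      show PresentedGroup.mk {r} (g * r * g⁻¹) = 1
      rw [map_mul, map_mul, mk_rel, mul_one, map_inv, mul_inv_cancel]
    have hμc : ∀ g, μ (cj g) ∈ Subgroup.zpowers z := by
      intro g
      have h1 := hμ (cj g)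
      rw [hτc, map_one] at h1
      exact (QuotientGroup.eq_one_iff _).mp h1
    -- representatives of the cosets
    let ι := Quotient (QuotientGroup.rightRel T)
    let v : ι → T := fun i => cj (Quotient.out i)
    have hv : ∀ (s : Finset ι) (c : ι → ZMod p),
        (∀ χ : T →* Multiplicative (ZMod p), ∑ i ∈ s, c i * Multiplicative.toAdd (χ (v i)) = 0) →
        ∀ i ∈ s, c i = 0 := by
      intro s c hc i hi
      let e := s.equivFin
      have h1 := closed_cycles hk r hr1 m H S hS hinf (ZMod p)
        (fun a : Fin s.card => Quotient.out (e.symm a).1) (by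
          intro a b hab h
          apply hab
          apply e.symm.injective
          apply Subtype.ext
          rw [← Quotient.out_eq (e.symm a).1, ← Quotient.out_eq (e.symm b).1]
          refine Quotient.sound ?_
          refine (QuotientGroup.rightRel T).symm ?_
          exact QuotientGroup.rightRel_apply.mpr h) (fun a => c (e.symm a).1) (by
          intro χ
          have h2 := hc χ
          rw [← Finset.sum_coe_sort] at h2
          rw [← h2]
          exact Fintype.sum_equiv e.symm _ _ fun a => rfl)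
      have h2 := congrFun h1 (e ⟨i, hi⟩)
      simpa using h2
    choose f hf using fun i : ι => cyc_surj z hz (μ (v i)) (hμc (Quotient.out i))
    obtain ⟨χ, hχ⟩ := exists_hom_of_indep v hv f
    -- the corrected homomorphism
    let μ' : T →* P := MonoidHom.mk' (fun t => μ t * (cyc z hz (χ t))⁻¹) (by
      intro a b
      rw [map_mul, map_mul, map_mul, mul_inv_rev, ← map_inv (cyc z hz) (χ b),
        ← map_inv (cyc z hz) (χ a), ← hιc (χ b)⁻¹]
      simp only [mul_assoc]
      rw [← mul_assoc (μ b), hιc (χ a)⁻¹ (μ b)]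
      simp only [mul_assoc])
    have hμ'v : ∀ i, μ' (v i) = 1 := by
      intro i
      show μ (v i) * (cyc z hz (χ (v i)))⁻¹ = 1
      rw [hχ, hf, mul_inv_cancel]
    have hμ'c : ∀ g, μ' (cj g) = 1 := by
      intro g
      have h1 : g * (Quotient.out (Quotient.mk (QuotientGroup.rightRel T) g))⁻¹ ∈ T := by
        have h2 := Quotient.mk_out (s := QuotientGroup.rightRel T) g
        exact QuotientGroup.rightRel_apply.mp h2
      have h3 : cj g = ⟨_, h1⟩ * v (Quotient.mk (QuotientGroup.rightRel T) g) * ⟨_, h1⟩⁻¹ := by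
        apply Subtype.ext
        show g * r * g⁻¹ = (g * (Quotient.out (Quotient.mk (QuotientGroup.rightRel T) g))⁻¹) *
          (Quotient.out (Quotient.mk (QuotientGroup.rightRel T) g) * r *
            (Quotient.out (Quotient.mk (QuotientGroup.rightRel T) g))⁻¹) *
          (g * (Quotient.out (Quotient.mk (QuotientGroup.rightRel T) g))⁻¹)⁻¹
        group
      rw [h3, map_mul, map_mul, hμ'v, mul_one, map_inv, mul_inv_cancel]
    have hker : τ.ker ≤ μ'.ker := by
      intro t ht
      have h1 : PresentedGroup.mk ({r} : Set (FreeGroup (Fin k))) t.1 = 1 :=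
        congrArg Subtype.val (MonoidHom.mem_ker.mp ht)
      have h2 : t.1 ∈ Subgroup.normalClosure ({r} : Set (FreeGroup (Fin k))) :=
        (QuotientGroup.eq_one_iff _).mp h1
      have h3 : Subgroup.normalClosure ({r} : Set (FreeGroup (Fin k))) ≤ μ'.ker.map T.subtype := by
        unfold Subgroup.normalClosure
        rw [Subgroup.closure_le]
        intro w hw
        obtain ⟨r', hr', hconj⟩ := Group.mem_conjugatesOfSet_iff.mp hw
        rw [Set.mem_singleton_iff] at hr'
        subst hr'
        obtain ⟨g, rfl⟩ := isConj_iff.mp hconj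
        exact ⟨cj g, MonoidHom.mem_ker.mpr (hμ'c g), rfl⟩
      obtain ⟨t', ht', htt'⟩ := h3 h2
      have h4 : t' = t := Subtype.ext htt'
      rw [← h4]
      exact ht'
    let φ₁ : S →* P := (MonoidHom.liftOfSurjective τ hτ) ⟨μ', hker⟩
    have hφ₁ : ∀ t, φ₁ (τ t) = μ' t := by
      intro t
      exact MonoidHom.liftOfRightInverse_comp_apply τ _ _ ⟨μ', hker⟩ t
    have hφ₁q : ∀ s : S, (QuotientGroup.mk (φ₁ s) : P ⧸ Subgroup.zpowers z) = φ₀ s := by
      intro s
      obtain ⟨t, rfl⟩ := hτ s
      rw [hφ₁, ← hμ t]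
      show (QuotientGroup.mk (μ t * (cyc z hz (χ t))⁻¹) : P ⧸ Subgroup.zpowers z) = _
      rw [QuotientGroup.eq]
      have h1 : (μ t * (cyc z hz (χ t))⁻¹)⁻¹ * μ t = cyc z hz (χ t) := by
        rw [mul_inv_rev, inv_inv, inv_mul_cancel_right]
      rw [h1]
      exact cyc_mem z hz _
    -- the final correction
    have hmem : ∀ i, (φ₁ (x i))⁻¹ * y i ∈ Subgroup.zpowers z := by
      intro i
      rw [← QuotientGroup.eq, hφ₁q, hφ₀]
    choose a ha using fun i => cyc_surj z hz _ (hmem i)
    obtain ⟨ψ, hψ⟩ := hx a
    let φ : S →* P := MonoidHom.mk' (fun s => φ₁ s * cyc z hz (ψ s)) (by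
      intro s s'
      rw [map_mul, map_mul, map_mul]
      simp only [mul_assoc]
      rw [← mul_assoc (cyc z hz (ψ s)) (φ₁ s'), ← hιc (ψ s) (φ₁ s')]
      simp only [mul_assoc])
    refine ⟨φ, ?_⟩
    intro i
    show φ₁ (x i) * cyc z hz (ψ (x i)) = y i
    rw [hψ, ha, mul_inv_cancel_left]

/-- **Freeness.**  Elements of a closed subgroup `S` of infinite index that are independent modulo `p`
in the abelianization of `S` are a free basis of the subgroup they generate. -/
theorem free_of_indep {k : ℕ} (hk : 2 ≤ k) (r : FreeGroup (Fin k)) (hr1 : r ≠ 1) (m : ℕ)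
    (H : ∀ N : Subgroup (OR r), N.Normal → N.FiniteIndex → HasRel m N)
    (S : Subgroup (OR r)) (hS : IsProClosed S) (hinf : ¬ S.FiniteIndex)
    (p : ℕ) [hp : Fact p.Prime] {d : ℕ} (x : Fin d → S)
    (hx : ∀ a : Fin d → ZMod p, ∃ χ : S →* Multiplicative (ZMod p),
      ∀ i, χ (x i) = Multiplicative.ofAdd (a i)) :
    Function.Injective (FreeGroup.lift x) := by
  rw [injective_iff_map_eq_one]
  intro w hw
  by_contra hne
  obtain ⟨P, _, _, κ, hP, hκ⟩ := resp_free p w hne
  obtain ⟨φ, hφ⟩ := step hk r hr1 m H S hS hinf p x hx (Nat.card P) P hP le_rfl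
    (fun i => κ (FreeGroup.of i))
  have h1 : φ.comp (FreeGroup.lift x) = κ := by
    refine FreeGroup.ext_hom _ _ fun i => ?_
    show φ (FreeGroup.lift x (FreeGroup.of i)) = _
    rw [FreeGroup.lift_apply_of, hφ]
  apply hκ
  rw [← h1]
  show φ (FreeGroup.lift x w) = 1
  rw [hw, map_one]

/-- A closed subgroup of infinite index generated by elements that are independent modulo `p` in its
abelianization is free on them. -/
theorem free_closed {k : ℕ} (hk : 2 ≤ k) (r : FreeGroup (Fin k)) (hr1 : r ≠ 1) (m : ℕ)
    (H : ∀ N : Subgroup (OR r), N.Normal → N.FiniteIndex → HasRel m N)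
    (S : Subgroup (OR r)) (hS : IsProClosed S) (hinf : ¬ S.FiniteIndex)
    (p : ℕ) [hp : Fact p.Prime] {d : ℕ} (x : Fin d → S)
    (hgen : Subgroup.closure (Set.range x) = ⊤)
    (hx : ∀ a : Fin d → ZMod p, ∃ χ : S →* Multiplicative (ZMod p),
      ∀ i, χ (x i) = Multiplicative.ofAdd (a i)) :
    Function.Bijective (FreeGroup.lift x) := by
  refine ⟨free_of_indep hk r hr1 m H S hS hinf p x hx, ?_⟩
  rw [← MonoidHom.range_eq_top, FreeGroup.range_lift_eq_closure]
  exact hgen

end Pool.Agent.MelD
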