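import Pool.Agent.MelG.Base

/-!
# The Hopf count

`G` finitely generated and residually finite.  An endomorphism of `G` whose composition with every
epimorphism of `G` onto a finite group is onto is injective: for a finite group `Q` the map
`π ↦ π ∘ f` on the finite set of homomorphisms `G → Q` is injective (if `π ∘ f = π' ∘ f`, the image
of `G` in `Q × Q` under `(π, π')` is the image of `f`, in the diagonal), so it is onto, so the kernel of
`f` is contained in the kernel of every `π`.

Consequence: if `a : G' → G` is onto modulo every finite quotient of `G` and `h : G → G'` is onto, then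
`h` is an isomorphism.
-/

namespace Pool.Agent.MelD

/-- The homomorphism `a` is onto modulo every finite quotient of `G`. -/
def DenseHom {G' G : Type} [Group G'] [Group G] (a : G' →* G) : Prop :=
  ∀ (Q : Type) (_ : Group Q) (_ : Finite Q) (π : G →* Q), Function.Surjective π →
    Function.Surjective (π.comp a)

theorem finite_hom {G Q : Type} [Group G] [Group Q] [Finite Q] (hG : Group.FG G) :
    Finite (G →* Q) := by
  obtain ⟨S, hS⟩ := (Group.fg_iff'.mp hG)
  obtain ⟨S, _, hS⟩ := hS
  refine Finite.of_injective (fun (π : G →* Q) (s : S) => π s.1) ?_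
  intro π π' h
  refine MonoidHom.eq_of_eqOn_dense hS ?_
  intro s hs
  exact congrFun h ⟨s, hs⟩

theorem hopf {G : Type} [Group G] (hG : Group.FG G)
    (hRF : ∀ g : G, g ≠ 1 → ∃ H : Subgroup G, H.FiniteIndex ∧ g ∉ H)
    (f : G →* G) (hf : DenseHom f) : Function.Injective f := by
  rw [injective_iff_map_eq_one]
  intro g hg
  by_contra hne
  obtain ⟨H, hfin, hgH⟩ := hRF g hne
  have hfin' : H.normalCore.FiniteIndex := inferInstance
  have hQ : Finite (G ⧸ H.normalCore) := inferInstance
  have hH : Finite (G →* G ⧸ H.normalCore) := finite_hom hG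
  have hinj : Function.Injective
      (fun π : G →* G ⧸ H.normalCore => (π.comp f : G →* G ⧸ H.normalCore)) := by
    intro π π' h
    simp only at h
    let P : G →* (G ⧸ H.normalCore) × (G ⧸ H.normalCore) := π.prod π'
    have hs : Function.Surjective (P.rangeRestrict.comp f) :=
      hf P.range _ inferInstance P.rangeRestrict P.rangeRestrict_surjective
    ext x
    obtain ⟨y, hy⟩ := hs (P.rangeRestrict x)
    have h1 : P (f y) = P x := congrArg Subtype.val hy
    have h2 : π (f y) = π x := congrArg Prod.fst h1
    have h3 : π' (f y) = π' x := congrArg Prod.snd h1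
    have h4 : π (f y) = π' (f y) := DFunLike.congr_fun h y
    rw [← h2, h4, h3]
  obtain ⟨π, hπ⟩ := (Finite.injective_iff_surjective.mp hinj) (QuotientGroup.mk' H.normalCore)
  have h1 : QuotientGroup.mk' H.normalCore g = 1 := by
    rw [← hπ]
    show π (f g) = 1
    rw [hg, map_one]
  have h2 : g ∈ H.normalCore := (QuotientGroup.eq_one_iff g).mp h1
  exact hgH (H.normalCore_le h2)

/-- If `a : G' → G` is onto modulo every finite quotient of `G` and `h : G → G'` is onto, then `h` is an
isomorphism. -/
theorem bijective_of_dense {G G' : Type} [Group G] [Group G'] (hG : Group.FG G)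
    (hRF : ∀ g : G, g ≠ 1 → ∃ H : Subgroup G, H.FiniteIndex ∧ g ∉ H)
    (a : G' →* G) (ha : DenseHom a) (h : G →* G') (hh : Function.Surjective h) :
    Function.Bijective h := by
  refine ⟨?_, hh⟩
  have hf : DenseHom (a.comp h) := by
    intro Q _ _ π hπ
    have h1 : Function.Surjective (π.comp a) := ha Q _ inferInstance π hπ
    show Function.Surjective ((π.comp a).comp h)
    exact h1.comp hh
  have h1 := hopf hG hRF (a.comp h) hf
  exact Function.Injective.of_comp (f := a) h1

end Pool.Agent.MelD
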