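import Pool.Agent.MelD.Dens
import Pool.Agent.MelD.Hopf

/-!
# Endomorphisms of degree one and quotients of the same genus

`G = G_r` residually finite, all finite index normal subgroups have presentations with at most `m`
relators.
* `endo_inj`: an endomorphism `f` of `G` such that `r` is a product of commutators (and `p`-th powers)
  of elements of the preimage of the image of `f` is injective.
* `retr2`: if `r = α w` for a homomorphism `α : F_n → F_k` and a word `w ∈ [F_n, F_n]`
  (or `[F_n, F_n] F_n ^ p`), then every epimorphism of `G_r` onto `G_w` is an isomorphism.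
* `genus_orient`, `genus_nonorient`: the cases of products of `n` commutators and of `n` squares.
-/

open Finset Module

namespace Pool.Agent.MelD

open Pool.Agent.MelG (HasRel)

theorem fg_OR {k : ℕ} (r : FreeGroup (Fin k)) : Group.FG (OR r) :=
  Group.fg_of_surjective (PresentedGroup.mk_surjective ({r} : Set (FreeGroup (Fin k))))

theorem dense_of_VT {k : ℕ} (hk : 2 ≤ k) (r : FreeGroup (Fin k)) (hr1 : r ≠ 1) (m : ℕ)
    (H : ∀ N : Subgroup (OR r), N.Normal → N.FiniteIndex → HasRel m N)
    (p : ℕ) (hp : p = 0 ∨ p.Prime) {G' : Type} [Group G'] (a : G' →* OR r)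
    (ha : r ∈ VT p (a.range.comap (PresentedGroup.mk ({r} : Set (FreeGroup (Fin k)))))) :
    DenseHom a := by
  intro Q _ _ π hπ q
  have : Fintype Q := Fintype.ofFinite Q
  have hs : Function.Surjective (π.comp (PresentedGroup.mk ({r} : Set (FreeGroup (Fin k))))) :=
    hπ.comp (PresentedGroup.mk_surjective _)
  have hr : (π.comp (PresentedGroup.mk ({r} : Set (FreeGroup (Fin k))))) r = 1 := by
    show π (PresentedGroup.mk {r} r) = 1
    have h0 : PresentedGroup.mk ({r} : Set (FreeGroup (Fin k))) r = 1 :=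
      PresentedGroup.one_of_mem (Set.mem_singleton r)
    rw [h0, map_one]
  have h1 := dens hk r hr1 m H p hp _ ha _ hs hr
  have h2 : q ∈ (a.range.comap (PresentedGroup.mk ({r} : Set (FreeGroup (Fin k))))).map
      (π.comp (PresentedGroup.mk ({r} : Set (FreeGroup (Fin k))))) := by
    rw [h1]
    exact Subgroup.mem_top q
  obtain ⟨x, hx, rfl⟩ := h2
  obtain ⟨y, hy⟩ := hx
  refine ⟨y, ?_⟩
  show π (a y) = π (PresentedGroup.mk {r} x)
  rw [hy]

/-- Endomorphisms through whose image the relator is killed in homology are injective. -/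
theorem endo_inj {k : ℕ} (hk : 2 ≤ k) (r : FreeGroup (Fin k)) (hr1 : r ≠ 1) (m : ℕ)
    (H : ∀ N : Subgroup (OR r), N.Normal → N.FiniteIndex → HasRel m N)
    (hRF : ∀ g : OR r, g ≠ 1 → ∃ U : Subgroup (OR r), U.FiniteIndex ∧ g ∉ U)
    (p : ℕ) (hp : p = 0 ∨ p.Prime) (f : OR r →* OR r)
    (hf : r ∈ VT p (f.range.comap (PresentedGroup.mk ({r} : Set (FreeGroup (Fin k)))))) :
    Function.Injective f :=
  hopf (fg_OR r) hRF f (dense_of_VT hk r hr1 m H p hp f hf)

/-- Epimorphisms onto quotients of the same genus are isomorphisms. -/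
theorem retr2 {k n : ℕ} (hk : 2 ≤ k) (r : FreeGroup (Fin k)) (hr1 : r ≠ 1) (m : ℕ)
    (H : ∀ N : Subgroup (OR r), N.Normal → N.FiniteIndex → HasRel m N)
    (hRF : ∀ g : OR r, g ≠ 1 → ∃ U : Subgroup (OR r), U.FiniteIndex ∧ g ∉ U)
    (p : ℕ) (hp : p = 0 ∨ p.Prime) (w : FreeGroup (Fin n)) (hw : w ∈ VT p (⊤ : Subgroup _))
    (α : FreeGroup (Fin n) →* FreeGroup (Fin k)) (hα : α w = r)
    (h : OR r →* OR w) (hh : Function.Surjective h) : Function.Bijective h := by
  have h0 : ((PresentedGroup.mk ({r} : Set (FreeGroup (Fin k)))).comp α) w = 1 := by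
    show PresentedGroup.mk {r} (α w) = 1
    rw [hα]
    exact PresentedGroup.one_of_mem (Set.mem_singleton r)
  obtain ⟨a, ha⟩ := exists_desc w _ h0
  refine bijective_of_dense (fg_OR r) hRF a (dense_of_VT hk r hr1 m H p hp a ?_) h hh
  have h1 : α.range ≤ a.range.comap (PresentedGroup.mk ({r} : Set (FreeGroup (Fin k)))) := by
    rintro _ ⟨x, rfl⟩
    refine ⟨PresentedGroup.mk {w} x, ?_⟩
    exact DFunLike.congr_fun ha x
  refine VT_mono p h1 ?_
  have h2 : α w ∈ (VT p (⊤ : Subgroup (FreeGroup (Fin n)))).map α := ⟨w, hw, rfl⟩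
  rw [VT_map, ← MonoidHom.range_eq_map, hα] at h2
  exact h2

/-- The orientable surface relator of genus `n`: the product of the commutators `[x_i, y_i]`. -/
def surf (n : ℕ) : FreeGroup (Fin (n + n)) :=
  (List.ofFn fun i : Fin n => FreeGroup.of (Fin.castAdd n i) * FreeGroup.of (Fin.natAdd n i) *
    (FreeGroup.of (Fin.castAdd n i))⁻¹ * (FreeGroup.of (Fin.natAdd n i))⁻¹).prod

/-- The non orientable surface relator of genus `n`: the product of the squares `x_i ^ 2`. -/
def nsurf (n : ℕ) : FreeGroup (Fin n) :=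
  (List.ofFn fun i : Fin n => FreeGroup.of i ^ 2).prod

theorem list_prod_mem {G : Type*} [Group G] (S : Subgroup G) {n : ℕ} (f : Fin n → G)
    (hf : ∀ i, f i ∈ S) : (List.ofFn f).prod ∈ S := by
  refine S.list_prod_mem ?_
  intro x hx
  rw [List.mem_ofFn] at hx
  obtain ⟨i, rfl⟩ := hx
  exact hf i

/-- A product of `n` commutators: epimorphisms onto the orientable surface group of genus `n` are
isomorphisms. -/
theorem genus_orient {k n : ℕ} (hk : 2 ≤ k) (r : FreeGroup (Fin k)) (hr1 : r ≠ 1) (m : ℕ)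
    (H : ∀ N : Subgroup (OR r), N.Normal → N.FiniteIndex → HasRel m N)
    (hRF : ∀ g : OR r, g ≠ 1 → ∃ U : Subgroup (OR r), U.FiniteIndex ∧ g ∉ U)
    (u v : Fin n → FreeGroup (Fin k))
    (hr : r = (List.ofFn fun i => u i * v i * (u i)⁻¹ * (v i)⁻¹).prod)
    (h : OR r →* OR (surf n)) (hh : Function.Surjective h) : Function.Bijective h := by
  refine retr2 hk r hr1 m H hRF 0 (Or.inl rfl) (surf n) ?_
    (FreeGroup.lift (Fin.addCases u v)) ?_ h hh
  · refine list_prod_mem _ _ fun i => ?_
    unfold VT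
    exact Subgroup.mem_sup_left
      (Subgroup.commutator_mem_commutator (Subgroup.mem_top _) (Subgroup.mem_top _))
  · unfold surf
    rw [map_list_prod, List.map_ofFn, hr]
    congr 2
    funext i
    simp only [Function.comp_apply, map_mul, map_inv, FreeGroup.lift_apply_of,
      Fin.addCases_left, Fin.addCases_right]

/-- A product of `n` squares: epimorphisms onto the non orientable surface group of genus `n` are
isomorphisms. -/
theorem genus_nonorient {k n : ℕ} (hk : 2 ≤ k) (r : FreeGroup (Fin k)) (hr1 : r ≠ 1) (m : ℕ)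
    (H : ∀ N : Subgroup (OR r), N.Normal → N.FiniteIndex → HasRel m N)
    (hRF : ∀ g : OR r, g ≠ 1 → ∃ U : Subgroup (OR r), U.FiniteIndex ∧ g ∉ U)
    (u : Fin n → FreeGroup (Fin k)) (hr : r = (List.ofFn fun i => u i ^ 2).prod)
    (h : OR r →* OR (nsurf n)) (hh : Function.Surjective h) : Function.Bijective h := by
  refine retr2 hk r hr1 m H hRF 2 (Or.inr Nat.prime_two) (nsurf n) ?_
    (FreeGroup.lift u) ?_ h hh
  · refine list_prod_mem _ _ fun i => ?_
    unfold VT
    exact Subgroup.mem_sup_right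
      (Subgroup.subset_closure ⟨FreeGroup.of i, Subgroup.mem_top _, rfl⟩)
  · unfold nsurf
    rw [map_list_prod, List.map_ofFn, hr]
    congr 2
    funext i
    simp only [Function.comp_apply, map_pow, FreeGroup.lift_apply_of]

end Pool.Agent.MelD
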