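import Pool.Agent.MelD.B1
import Pool.Agent.MelD.Free
import Pool.Agent.MelD.Retr2
import Pool.Agent.MelD.Wrap

/-!
# Tools for the surface subgroup

* `free_of_indep'`: `free_of_indep` for a family with any index type.
* `finset_fin`: an element of a free group is a word in finitely many letters.
* `restr_surj`: if `a : G_w → G_r` is onto modulo all finite quotients and the coranks of `w` are at most one,
  then every homomorphism of the preimage of `N` to `ZMod p` is the restriction of a homomorphism of `N`.
* `wchar`: homomorphisms of subgroups given by homomorphisms to wreath products.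
-/

open Finset Module

namespace Pool.Agent.MelD

open Pool.Agent.MelG (HasRel)

/-- Every element of a free group is a word in finitely many letters. -/
theorem finset_fin {ι : Type} (f : FreeGroup ι) :
    ∃ s : Finset ι, f ∈ (FreeGroup.map (Subtype.val : s → ι)).range := by
  classical
  induction f using FreeGroup.induction_on with
  | C1 => exact ⟨∅, Subgroup.one_mem _⟩
  | of i => exact ⟨{i}, FreeGroup.of ⟨i, mem_singleton_self i⟩, by rw [FreeGroup.map.of]⟩
  | inv_of i _ => exact ⟨{i}, Subgroup.inv_mem _ ⟨FreeGroup.of ⟨i, mem_singleton_self i⟩, by rw [FreeGroup.map.of]⟩⟩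
  | mul a b ha hb =>
    obtain ⟨s, ha⟩ := ha
    obtain ⟨t, hb⟩ := hb
    have mono : ∀ s u : Finset ι, s ⊆ u →
        (FreeGroup.map (Subtype.val : s → ι)).range ≤ (FreeGroup.map (Subtype.val : u → ι)).range := by
      rintro s u hsu _ ⟨x, rfl⟩
      refine ⟨FreeGroup.map (fun z : s => (⟨z.1, hsu z.2⟩ : u)) x, ?_⟩
      rw [FreeGroup.map.comp]
      rfl
    exact ⟨s ∪ t, Subgroup.mul_mem _ (mono s _ subset_union_left ha) (mono t _ subset_union_right hb)⟩

/-- A family of elements of a closed subgroup of infinite index that is independent modulo `p` freely generates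
a free group. -/
theorem free_of_indep' {k : ℕ} (hk : 2 ≤ k) (r : FreeGroup (Fin k)) (hr1 : r ≠ 1) (m : ℕ)
    (H : ∀ N : Subgroup (OR r), N.Normal → N.FiniteIndex → HasRel m N)
    (S : Subgroup (OR r)) (hS : IsProClosed S) (hinf : ¬ S.FiniteIndex)
    (p : ℕ) [hp : Fact p.Prime] {ι : Type} (x : ι → S)
    (hx : ∀ (s : Finset ι) (v : ι → ZMod p), ∃ χ : S →* Multiplicative (ZMod p),
      ∀ i ∈ s, χ (x i) = Multiplicative.ofAdd (v i)) :
    Function.Injective (FreeGroup.lift x) := by
  classical
  rw [injective_iff_map_eq_one]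
  intro f hf
  obtain ⟨s, f', rfl⟩ := finset_fin f
  let e : Fin s.card ≃ s := s.equivFin.symm
  have h1 := free_of_indep hk r hr1 m H S hS hinf p (fun i => x (e i)) (fun a => by
    obtain ⟨χ, hχ⟩ := hx s (fun i => if h : i ∈ s then a (e.symm ⟨i, h⟩) else 0)
    refine ⟨χ, fun i => ?_⟩
    rw [hχ _ (e i).2, dif_pos (e i).2]
    congr 2
    exact e.symm_apply_apply i)
  have h2 : FreeGroup.lift (fun i => x (e i)) (FreeGroup.map e.symm f') = 1 := by
    rw [← hf]
    have h3 : (FreeGroup.lift (fun i => x (e i))).comp (FreeGroup.map e.symm) =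
        (FreeGroup.lift x).comp (FreeGroup.map (Subtype.val : s → ι)) := by
      refine FreeGroup.ext_hom _ _ fun j => ?_
      simp only [MonoidHom.comp_apply, FreeGroup.map.of, FreeGroup.lift_apply_of, e.apply_symm_apply]
    exact DFunLike.congr_fun h3 f'
  have h3 : FreeGroup.map e.symm f' = 1 := by
    apply h1
    rw [h2, map_one]
  have h4 : f' = 1 := by
    have h5 := congrArg (FreeGroup.map e) h3
    rw [FreeGroup.map.comp, map_one] at h5
    rw [← h5]
    have h6 : (⇑e ∘ ⇑e.symm) = id := by
      funext z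
      exact e.apply_symm_apply z
    rw [h6, FreeGroup.map.id]
  rw [h4, map_one]

/-- Density for subgroups of finite index. -/
theorem DenseHom.exists_mul {G' G : Type} [Group G'] [Group G] {a : G' →* G} (ha : DenseHom a)
    (U : Subgroup G) (hU : U.FiniteIndex) (x : G) : ∃ y, (a y)⁻¹ * x ∈ U := by
  have h1 : U.normalCore.FiniteIndex := inferInstance
  obtain ⟨y, hy⟩ := ha (G ⧸ U.normalCore) _ inferInstance (QuotientGroup.mk' U.normalCore)
    (QuotientGroup.mk'_surjective _) (QuotientGroup.mk' U.normalCore x)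
  refine ⟨y, U.normalCore_le ?_⟩
  rw [← QuotientGroup.eq]
  exact hy

/-- Restriction of homomorphisms. -/
theorem restr_surj {k : ℕ} (hk : 2 ≤ k) (r : FreeGroup (Fin k)) (hr1 : r ≠ 1) (m : ℕ)
    (H : ∀ N : Subgroup (OR r), N.Normal → N.FiniteIndex → HasRel m N) (p : ℕ) [hp : Fact p.Prime]
    (hT : r ∈ VT p (⊤ : Subgroup (FreeGroup (Fin k)))) (w : FreeGroup (Fin k))
    (hw : ∀ (Q : Type) (_ : Group Q) (_ : Fintype Q) (π : FreeGroup (Fin k) →* Q), Function.Surjective π →
      π w = 1 → cork (ZMod p) w π ≤ 1)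
    (a : OR w →* OR r) (ha : DenseHom a) (N : Subgroup (OR r)) [hN : N.Normal] [hNf : N.FiniteIndex] :
    Function.Bijective (fun (χ : Additive N →+ ZMod p) =>
      χ.comp (MonoidHom.toAdditive (a.subgroupComap N))) := by
  classical
  let M : Subgroup (OR w) := N.comap a
  have hMf : M.FiniteIndex := finIdx_comap a N hNf
  have hind : M.index ≤ N.index := by
    show (N.comap a).index ≤ _
    rw [Subgroup.index_comap]
    exact Nat.le_of_dvd (Nat.pos_of_ne_zero hNf.index_ne_zero) (Subgroup.relIndex_dvd_index_of_normal N _)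
  let ρ : (Additive N →+ ZMod p) →ₗ[ZMod p] (Additive M →+ ZMod p) :=
    { toFun := fun χ => χ.comp (MonoidHom.toAdditive (a.subgroupComap N))
      map_add' := fun _ _ => rfl
      map_smul' := fun _ _ => rfl }
  have h1 := b1_surf hk r hr1 m H p hT N (ZMod p) (fun a => by
    rw [nsmul_eq_mul, ZMod.natCast_self, zero_mul])
  obtain ⟨Q, hQ1, hQ2, π, hs, hπ, _, h2⟩ := b1_eq hk w M (ZMod p)
  have h3 := hw Q hQ1 hQ2 π hs hπ
  have hinj : Function.Injective ρ := by
    rw [injective_iff_map_eq_zero]
    intro χ hχ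
    refine AddMonoidHom.ext fun x => ?_
    let χ' : N →* Multiplicative (ZMod p) :=
      MonoidHom.mk' (fun g => Multiplicative.ofAdd (χ (Additive.ofMul g))) (fun g h => by
        rw [ofMul_mul, map_add, ofAdd_add])
    let U : Subgroup (OR r) := χ'.ker.map N.subtype
    have hU : U.FiniteIndex := by
      have hf : χ'.ker.FiniteIndex := inferInstance
      constructor
      rw [Subgroup.index_map_subtype]
      exact Nat.mul_ne_zero hf.index_ne_zero hNf.index_ne_zero
    obtain ⟨y, z, hz, hz'⟩ := ha.exists_mul U hU (Additive.toMul x : N)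
    have hy : y ∈ M := by
      show a y ∈ N
      have h5 : a y = (Additive.toMul x : N) * (z : OR r)⁻¹ := by
        have h6 : (z : OR r) = (a y)⁻¹ * (Additive.toMul x : N) := hz'
        rw [h6]
        group
      rw [h5]
      exact N.mul_mem (Additive.toMul x : N).2 (N.inv_mem z.2)
    have h5 : x = Additive.ofMul (a.subgroupComap N ⟨y, hy⟩ * z) := by
      apply Additive.toMul.injective
      apply Subtype.ext
      show ((Additive.toMul x : N) : OR r) = a y * z
      have h6 : (z : OR r) = (a y)⁻¹ * (Additive.toMul x : N) := hz'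
      rw [h6, mul_inv_cancel_left]
    have h6 : χ (Additive.ofMul (a.subgroupComap N ⟨y, hy⟩)) = 0 :=
      DFunLike.congr_fun hχ (Additive.ofMul (⟨y, hy⟩ : M))
    have h7 : χ (Additive.ofMul z) = 0 := hz
    rw [h5, ofMul_mul, map_add, h6, h7, add_zero]
    rfl
  have f1 : FiniteDimensional (ZMod p) (Additive N →+ ZMod p) :=
    Module.finite_of_finrank_pos (by omega)
  have f2 : FiniteDimensional (ZMod p) (Additive M →+ ZMod p) :=
    Module.finite_of_finrank_pos (by omega)
  have h4 : finrank (ZMod p) (Additive M →+ ZMod p) ≤ finrank (ZMod p) (Additive N →+ ZMod p) := by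
    rw [h1, h2]
    have := Nat.mul_le_mul_left (k - 2) hind
    omega
  have h5 := LinearMap.finrank_le_finrank_of_injective hinj
  exact ⟨hinj, (LinearMap.injective_iff_surjective_of_finrank_eq_finrank (le_antisymm h5 h4)).1 hinj⟩

end Pool.Agent.MelD
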