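import Pool.Agent.MelD.Retr2

/-!
# The kernel of a standard epimorphism of a surface group onto `ℤ`

Let `S` be generated by `x_0, ..., x_n, y_0, ..., y_n` with `∏ [x_i, y_i] = 1`, and `π : S → ℤ` with `π x_0 = 1`, `π = 0` on the
other generators. Then `ker π` is generated by `y_0` and the elements `x_0 ^ j x_i x_0 ^ -j`, `x_0 ^ j y_i x_0 ^ -j`, `i ≥ 1`.
-/

set_option autoImplicit false

namespace Pool.Agent.MelD

namespace KerSurf

variable {S : Type*} [Group S]

/-- the generators of the kernel -/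
def gens {n : ℕ} (x y : Fin (n + 1) → S) : Set S :=
  {g | g = y 0 ∨ ∃ (j : ℤ) (i : Fin n), g = x 0 ^ j * x i.succ * (x 0 ^ j)⁻¹ ∨ g = x 0 ^ j * y i.succ * (x 0 ^ j)⁻¹}

theorem gens_y {n : ℕ} (x y : Fin (n + 1) → S) : y 0 ∈ gens x y := Or.inl rfl

theorem gens_X {n : ℕ} (x y : Fin (n + 1) → S) (j : ℤ) (i : Fin n) :
    x 0 ^ j * x i.succ * (x 0 ^ j)⁻¹ ∈ gens x y := Or.inr ⟨j, i, Or.inl rfl⟩

theorem gens_Y {n : ℕ} (x y : Fin (n + 1) → S) (j : ℤ) (i : Fin n) :
    x 0 ^ j * y i.succ * (x 0 ^ j)⁻¹ ∈ gens x y := Or.inr ⟨j, i, Or.inr rfl⟩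

/-- the conjugates of the product of the other commutators -/
theorem tail_mem {n : ℕ} (x y : Fin (n + 1) → S) (j : ℤ) :
    x 0 ^ j * (List.ofFn fun i : Fin n => x i.succ * y i.succ * (x i.succ)⁻¹ * (y i.succ)⁻¹).prod * (x 0 ^ j)⁻¹ ∈
      Subgroup.closure (gens x y) := by
  have e : x 0 ^ j * (List.ofFn fun i : Fin n => x i.succ * y i.succ * (x i.succ)⁻¹ * (y i.succ)⁻¹).prod * (x 0 ^ j)⁻¹ =
      (List.ofFn fun i : Fin n => (x 0 ^ j * x i.succ * (x 0 ^ j)⁻¹) * (x 0 ^ j * y i.succ * (x 0 ^ j)⁻¹) *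
        (x 0 ^ j * x i.succ * (x 0 ^ j)⁻¹)⁻¹ * (x 0 ^ j * y i.succ * (x 0 ^ j)⁻¹)⁻¹).prod := by
    have h1 := map_list_prod (MulAut.conj (x 0 ^ j)).toMonoidHom
      (List.ofFn fun i : Fin n => x i.succ * y i.succ * (x i.succ)⁻¹ * (y i.succ)⁻¹)
    have h2 : (MulAut.conj (x 0 ^ j)).toMonoidHom
        (List.ofFn fun i : Fin n => x i.succ * y i.succ * (x i.succ)⁻¹ * (y i.succ)⁻¹).prod =
      x 0 ^ j * (List.ofFn fun i : Fin n => x i.succ * y i.succ * (x i.succ)⁻¹ * (y i.succ)⁻¹).prod * (x 0 ^ j)⁻¹ := rfl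
    rw [← h2, h1, List.map_ofFn]
    congr 2
    funext i
    show x 0 ^ j * (x i.succ * y i.succ * (x i.succ)⁻¹ * (y i.succ)⁻¹) * (x 0 ^ j)⁻¹ = _
    group
  rw [e]
  refine list_prod_mem _ _ fun i => ?_
  have a := Subgroup.subset_closure (k := gens x y) (gens_X x y j i)
  have b := Subgroup.subset_closure (k := gens x y) (gens_Y x y j i)
  exact Subgroup.mul_mem _ (Subgroup.mul_mem _ (Subgroup.mul_mem _ a b) (Subgroup.inv_mem _ a)) (Subgroup.inv_mem _ b)

/-- conjugation by `x_0` and its inverse -/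
theorem conj_mem {n : ℕ} (x y : Fin (n + 1) → S)
    (hrel : (List.ofFn fun i => x i * y i * (x i)⁻¹ * (y i)⁻¹).prod = 1) (g : S)
    (hg : g ∈ Subgroup.closure (gens x y)) :
    x 0 * g * (x 0)⁻¹ ∈ Subgroup.closure (gens x y) ∧ (x 0)⁻¹ * g * x 0 ∈ Subgroup.closure (gens x y) := by
  set R := (List.ofFn fun i : Fin n => x i.succ * y i.succ * (x i.succ)⁻¹ * (y i.succ)⁻¹).prod with hR
  have h0 : x 0 * y 0 * (x 0)⁻¹ * (y 0)⁻¹ * R = 1 := by
    rw [← hrel, List.ofFn_succ, List.prod_cons]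
  have hy := Subgroup.subset_closure (k := gens x y) (gens_y x y)
  induction hg using Subgroup.closure_induction with
  | mem g hg =>
    rcases hg with rfl | ⟨j, i, rfl | rfl⟩
    · constructor
      · have e : x 0 * y 0 * (x 0)⁻¹ = R⁻¹ * y 0 := by
          have h1 : x 0 * y 0 * (x 0)⁻¹ * (y 0)⁻¹ = R⁻¹ := eq_inv_of_mul_eq_one_left h0
          rw [← h1]
          group
        rw [e]
        have h1 := tail_mem x y 0
        rw [← hR, zpow_zero, one_mul, inv_one, mul_one] at h1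
        exact Subgroup.mul_mem _ (Subgroup.inv_mem _ h1) hy
      · have e : (x 0)⁻¹ * y 0 * x 0 = (x 0 ^ (-1 : ℤ) * R * (x 0 ^ (-1 : ℤ))⁻¹) * y 0 := by
          have h1 : R⁻¹ * y 0 = x 0 * y 0 * (x 0)⁻¹ := by
            have h1 : x 0 * y 0 * (x 0)⁻¹ * (y 0)⁻¹ = R⁻¹ := eq_inv_of_mul_eq_one_left h0
            rw [← h1]
            group
          have h2 : y 0 = R * (x 0 * y 0 * (x 0)⁻¹) := by
            rw [← h1]
            group
          calc (x 0)⁻¹ * y 0 * x 0 = (x 0)⁻¹ * (R * (x 0 * y 0 * (x 0)⁻¹)) * x 0 := by rw [← h2]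
            _ = _ := by group
        rw [e]
        exact Subgroup.mul_mem _ (tail_mem x y (-1)) hy
    · constructor
      · have h1 := Subgroup.subset_closure (k := gens x y) (gens_X x y (1 + j) i)
        rw [zpow_add, zpow_one, mul_inv_rev] at h1
        have e : x 0 * (x 0 ^ j * x i.succ * (x 0 ^ j)⁻¹) * (x 0)⁻¹ = x 0 * x 0 ^ j * x i.succ * ((x 0 ^ j)⁻¹ * (x 0)⁻¹) := by
          group
        rw [e]
        exact h1
      · have h1 := Subgroup.subset_closure (k := gens x y) (gens_X x y (-1 + j) i)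
        have e : (x 0)⁻¹ * (x 0 ^ j * x i.succ * (x 0 ^ j)⁻¹) * x 0 = x 0 ^ (-1 + j) * x i.succ * (x 0 ^ (-1 + j))⁻¹ := by
          rw [zpow_add, zpow_neg, zpow_one]
          group
        rw [e]
        exact h1
    · constructor
      · have h1 := Subgroup.subset_closure (k := gens x y) (gens_Y x y (1 + j) i)
        rw [zpow_add, zpow_one, mul_inv_rev] at h1
        have e : x 0 * (x 0 ^ j * y i.succ * (x 0 ^ j)⁻¹) * (x 0)⁻¹ = x 0 * x 0 ^ j * y i.succ * ((x 0 ^ j)⁻¹ * (x 0)⁻¹) := by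
          group
        rw [e]
        exact h1
      · have h1 := Subgroup.subset_closure (k := gens x y) (gens_Y x y (-1 + j) i)
        have e : (x 0)⁻¹ * (x 0 ^ j * y i.succ * (x 0 ^ j)⁻¹) * x 0 = x 0 ^ (-1 + j) * y i.succ * (x 0 ^ (-1 + j))⁻¹ := by
          rw [zpow_add, zpow_neg, zpow_one]
          group
        rw [e]
        exact h1
  | one =>
    constructor
    · rw [mul_one, mul_inv_cancel]
      exact Subgroup.one_mem _
    · rw [mul_one, inv_mul_cancel]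
      exact Subgroup.one_mem _
  | mul a b _ _ iha ihb =>
    constructor
    · have e : x 0 * (a * b) * (x 0)⁻¹ = (x 0 * a * (x 0)⁻¹) * (x 0 * b * (x 0)⁻¹) := by group
      rw [e]
      exact Subgroup.mul_mem _ iha.1 ihb.1
    · have e : (x 0)⁻¹ * (a * b) * x 0 = ((x 0)⁻¹ * a * x 0) * ((x 0)⁻¹ * b * x 0) := by group
      rw [e]
      exact Subgroup.mul_mem _ iha.2 ihb.2
  | inv a _ iha =>
    constructor
    · have e : x 0 * a⁻¹ * (x 0)⁻¹ = (x 0 * a * (x 0)⁻¹)⁻¹ := by group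
      rw [e]
      exact Subgroup.inv_mem _ iha.1
    · have e : (x 0)⁻¹ * a⁻¹ * x 0 = ((x 0)⁻¹ * a * x 0)⁻¹ := by group
      rw [e]
      exact Subgroup.inv_mem _ iha.2

theorem zconj_mem {n : ℕ} (x y : Fin (n + 1) → S)
    (hrel : (List.ofFn fun i => x i * y i * (x i)⁻¹ * (y i)⁻¹).prod = 1) (j : ℤ) (g : S)
    (hg : g ∈ Subgroup.closure (gens x y)) : x 0 ^ j * g * (x 0 ^ j)⁻¹ ∈ Subgroup.closure (gens x y) := by
  induction j using Int.induction_on with
  | zero =>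
    rw [zpow_zero, one_mul, inv_one, mul_one]
    exact hg
  | succ j ih =>
    have h1 := (conj_mem x y hrel _ ih).1
    have e : x 0 ^ ((j : ℤ) + 1) * g * (x 0 ^ ((j : ℤ) + 1))⁻¹ = x 0 * (x 0 ^ (j : ℤ) * g * (x 0 ^ (j : ℤ))⁻¹) * (x 0)⁻¹ := by
      rw [show (j : ℤ) + 1 = 1 + (j : ℤ) by ring, zpow_add, zpow_one]
      group
    rw [e]
    exact h1
  | pred j ih =>
    have h1 := (conj_mem x y hrel _ ih).2
    have e : x 0 ^ (-(j : ℤ) - 1) * g * (x 0 ^ (-(j : ℤ) - 1))⁻¹ =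
        (x 0)⁻¹ * (x 0 ^ (-(j : ℤ)) * g * (x 0 ^ (-(j : ℤ)))⁻¹) * x 0 := by
      rw [show -(j : ℤ) - 1 = -1 + -(j : ℤ) by ring, zpow_add (x 0) (-1), zpow_neg (x 0) 1, zpow_one]
      group
    rw [e]
    exact h1

/-- every element is a power of `x_0` times an element of the subgroup -/
theorem decomp {n : ℕ} (x y : Fin (n + 1) → S)
    (hgen : Subgroup.closure (Set.range x ∪ Set.range y) = ⊤)
    (hrel : (List.ofFn fun i => x i * y i * (x i)⁻¹ * (y i)⁻¹).prod = 1) (g : S) :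
    ∃ k ∈ Subgroup.closure (gens x y), ∃ j : ℤ, g = k * x 0 ^ j := by
  have hg : g ∈ Subgroup.closure (Set.range x ∪ Set.range y) := by
    rw [hgen]
    exact Subgroup.mem_top g
  induction hg using Subgroup.closure_induction with
  | mem g hg =>
    rcases hg with ⟨i, rfl⟩ | ⟨i, rfl⟩
    · refine Fin.cases ?_ (fun i => ?_) i
      · exact ⟨1, Subgroup.one_mem _, 1, by rw [one_mul, zpow_one]⟩
      · have h1 := Subgroup.subset_closure (k := gens x y) (gens_X x y 0 i)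
        rw [zpow_zero, one_mul, inv_one, mul_one] at h1
        exact ⟨x i.succ, h1, 0, by rw [zpow_zero, mul_one]⟩
    · refine Fin.cases ?_ (fun i => ?_) i
      · exact ⟨y 0, Subgroup.subset_closure (gens_y x y), 0, by rw [zpow_zero, mul_one]⟩
      · have h1 := Subgroup.subset_closure (k := gens x y) (gens_Y x y 0 i)
        rw [zpow_zero, one_mul, inv_one, mul_one] at h1
        exact ⟨y i.succ, h1, 0, by rw [zpow_zero, mul_one]⟩
  | one => exact ⟨1, Subgroup.one_mem _, 0, by rw [zpow_zero, mul_one]⟩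
  | mul a b _ _ iha ihb =>
    obtain ⟨k, hk, j, rfl⟩ := iha
    obtain ⟨k', hk', j', rfl⟩ := ihb
    refine ⟨k * (x 0 ^ j * k' * (x 0 ^ j)⁻¹), Subgroup.mul_mem _ hk (zconj_mem x y hrel j k' hk'), j + j', ?_⟩
    rw [zpow_add]
    group
  | inv a _ iha =>
    obtain ⟨k, hk, j, rfl⟩ := iha
    refine ⟨x 0 ^ (-j) * k⁻¹ * (x 0 ^ (-j))⁻¹, zconj_mem x y hrel (-j) k⁻¹ (Subgroup.inv_mem _ hk), -j, ?_⟩
    rw [zpow_neg]
    group

/-- **THE KERNEL** -/
theorem ker_eq {n : ℕ} (x y : Fin (n + 1) → S)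
    (hgen : Subgroup.closure (Set.range x ∪ Set.range y) = ⊤)
    (hrel : (List.ofFn fun i => x i * y i * (x i)⁻¹ * (y i)⁻¹).prod = 1)
    (π : S →* Multiplicative ℤ) (h0 : π (x 0) = Multiplicative.ofAdd 1) (hx : ∀ i : Fin n, π (x i.succ) = 1)
    (hy : ∀ i, π (y i) = 1) : π.ker = Subgroup.closure (gens x y) := by
  have h1 : Subgroup.closure (gens x y) ≤ π.ker := by
    rw [Subgroup.closure_le]
    rintro g (rfl | ⟨j, i, rfl | rfl⟩)
    · exact hy 0
    · show π _ = 1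
      rw [map_mul, map_mul, map_inv, hx i, mul_one, mul_inv_cancel]
    · show π _ = 1
      rw [map_mul, map_mul, map_inv, hy i.succ, mul_one, mul_inv_cancel]
  refine le_antisymm (fun g hg => ?_) h1
  obtain ⟨k, hk, j, rfl⟩ := decomp x y hgen hrel g
  have h2 : π (k * x 0 ^ j) = 1 := hg
  rw [map_mul, show π k = 1 from h1 hk, one_mul, map_zpow, h0, ← ofAdd_zsmul] at h2
  have h3 : j • (1 : ℤ) = 0 := Multiplicative.ofAdd.injective h2
  have h4 : j = 0 := by simpa using h3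
  rw [h4, zpow_zero, mul_one]
  exact hk

/-- **the surface group** `OR (surf (n + 1))` : the images of the generators -/
theorem surf_rel (n : ℕ) : (List.ofFn fun i : Fin n => (PresentedGroup.of (rels := {surf n}) (Fin.castAdd n i)) *
    PresentedGroup.of (Fin.natAdd n i) * (PresentedGroup.of (Fin.castAdd n i))⁻¹ *
    (PresentedGroup.of (Fin.natAdd n i))⁻¹).prod = 1 := by
  have h1 : PresentedGroup.mk ({surf n} : Set (FreeGroup (Fin (n + n)))) (surf n) = 1 :=
    PresentedGroup.one_of_mem (Set.mem_singleton _)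
  have h2 : PresentedGroup.mk ({surf n} : Set (FreeGroup (Fin (n + n)))) (List.ofFn fun i : Fin n =>
      FreeGroup.of (Fin.castAdd n i) * FreeGroup.of (Fin.natAdd n i) * (FreeGroup.of (Fin.castAdd n i))⁻¹ *
        (FreeGroup.of (Fin.natAdd n i))⁻¹).prod = 1 := h1
  rw [map_list_prod, List.map_ofFn] at h2
  exact h2

theorem surf_gen (n : ℕ) : Subgroup.closure
    (Set.range (fun i : Fin n => (PresentedGroup.of (rels := {surf n}) (Fin.castAdd n i))) ∪
      Set.range (fun i : Fin n => (PresentedGroup.of (rels := {surf n}) (Fin.natAdd n i)))) = ⊤ := by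
  rw [eq_top_iff, ← PresentedGroup.closure_range_of ({surf n} : Set (FreeGroup (Fin (n + n))))]
  rw [Subgroup.closure_le]
  rintro _ ⟨i, rfl⟩
  refine Subgroup.subset_closure ?_
  refine Fin.addCases (fun i => Or.inl ⟨i, rfl⟩) (fun i => Or.inr ⟨i, rfl⟩) i

/-- **THE KERNEL, surface group** -/
theorem ker_surf {n : ℕ} (π : OR (surf (n + 1)) →* Multiplicative ℤ)
    (h0 : π (PresentedGroup.of (Fin.castAdd (n + 1) 0)) = Multiplicative.ofAdd 1)
    (hx : ∀ i : Fin n, π (PresentedGroup.of (Fin.castAdd (n + 1) i.succ)) = 1)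
    (hy : ∀ i, π (PresentedGroup.of (Fin.natAdd (n + 1) i)) = 1) :
    π.ker = Subgroup.closure (gens (fun i => PresentedGroup.of (rels := {surf (n + 1)}) (Fin.castAdd (n + 1) i))
      (fun i => PresentedGroup.of (Fin.natAdd (n + 1) i))) :=
  ker_eq _ _ (surf_gen (n + 1)) (surf_rel (n + 1)) π h0 hx hy

end KerSurf

end Pool.Agent.MelD
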