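import Pool.Agent.MelD.Emb1
import Pool.Agent.MelD.KerSurf
import Mathlib.GroupTheory.RegularWreathProduct

/-!
# Characters of the cyclic covers of a surface

`wchar`: for the surface relator `[x_0, y_0] ... [x_n, y_n]` a homomorphism of its group to the wreath product
of `D` and `Q` with `x_0 ↦ t`, `y_0` going to a constant function, the other generators going to the base group
with prescribed functions.
-/

open Finset Module

namespace Pool.Agent.MelD

open Pool.Agent.MelG (HasRel)

section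

variable (n : ℕ)

/-- the generators of the surface group -/
abbrev sx (i : Fin (n + 1)) : OR (surf (n + 1)) :=
  PresentedGroup.of (rels := {surf (n + 1)}) (Fin.castAdd (n + 1) i)

/-- the generators of the surface group -/
abbrev sy (i : Fin (n + 1)) : OR (surf (n + 1)) :=
  PresentedGroup.of (rels := {surf (n + 1)}) (Fin.natAdd (n + 1) i)

/-- A homomorphism of the surface group. -/
theorem exists_surf_hom {B : Type} [Group B] (X Y : Fin (n + 1) → B)
    (h : ∀ i, X i * Y i * (X i)⁻¹ * (Y i)⁻¹ = 1) :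
    ∃ Ψ : OR (surf (n + 1)) →* B, (∀ i, Ψ (sx n i) = X i) ∧ ∀ i, Ψ (sy n i) = Y i := by
  have h1 : ∀ t ∈ ({surf (n + 1)} : Set (FreeGroup (Fin (n + 1 + (n + 1))))),
      FreeGroup.lift (Fin.addCases X Y) t = 1 := by
    intro t ht
    rw [Set.mem_singleton_iff.1 ht]
    unfold surf
    rw [map_list_prod, List.map_ofFn]
    refine List.prod_eq_one ?_
    intro z hz
    rw [List.mem_ofFn] at hz
    obtain ⟨i, rfl⟩ := hz
    simp only [Function.comp_apply, map_mul, map_inv, FreeGroup.lift_apply_of,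
      Fin.addCases_left, Fin.addCases_right]
    exact h i
  refine ⟨PresentedGroup.toGroup h1, fun i => ?_, fun i => ?_⟩
  · rw [PresentedGroup.toGroup.of, Fin.addCases_left]
  · rw [PresentedGroup.toGroup.of, Fin.addCases_right]

/-- The homomorphisms to wreath products. -/
theorem wchar (D : Type) [CommGroup D] (Q : Type) [CommGroup Q] (t : Q) (c : D) (f : Bool → Fin n → Q → D) :
    ∃ Ψ : OR (surf (n + 1)) →* D ≀ᵣ Q, Ψ (sx n 0) = RegularWreathProduct.inl t ∧
      Ψ (sy n 0) = ⟨fun _ => c, 1⟩ ∧ (∀ i : Fin n, Ψ (sx n (Fin.succ i)) = ⟨f true i, 1⟩) ∧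
      ∀ i : Fin n, Ψ (sy n (Fin.succ i)) = ⟨f false i, 1⟩ := by
  obtain ⟨Ψ, h1, h2⟩ := exists_surf_hom n (B := D ≀ᵣ Q)
    (Fin.cases (RegularWreathProduct.inl t) (fun i => ⟨f true i, 1⟩))
    (Fin.cases ⟨fun _ => c, 1⟩ (fun i => ⟨f false i, 1⟩)) (fun i => by
      refine Fin.cases ?_ (fun i => ?_) i
      · rw [Fin.cases_zero, Fin.cases_zero, mul_inv_eq_one, mul_inv_eq_iff_eq_mul]
        apply RegularWreathProduct.ext
        · funext q
          simp
        · simp
      · rw [Fin.cases_succ, Fin.cases_succ, mul_inv_eq_one, mul_inv_eq_iff_eq_mul]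
        apply RegularWreathProduct.ext
        · funext q
          simp [mul_comm]
        · simp)
  exact ⟨Ψ, h1 0, h2 0, fun i => h1 (Fin.succ i), fun i => h2 (Fin.succ i)⟩

/-- The value at one of a conjugate of an element of the base group. -/
theorem conj_left {D Q : Type} [Group D] [CommGroup Q] (q : Q) (f : Q → D) :
    ((RegularWreathProduct.inl q * ⟨f, 1⟩ * (RegularWreathProduct.inl q)⁻¹ : D ≀ᵣ Q)).left 1 = f q⁻¹ := by
  simp

theorem mul_left_one {D Q : Type} [Group D] [CommGroup Q] (a b : D ≀ᵣ Q) (ha : a.right = 1) :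
    (a * b).left 1 = a.left 1 * b.left 1 := by
  simp [ha]

end

/-- Prescribed characters of the cyclic covers of the surface. -/
theorem cyc_char (n : ℕ) (D : Type) [CommGroup D] (L : ℕ) (c : D) (f : Bool → Fin n → ZMod L → D)
    (π : OR (surf (n + 1)) →* Multiplicative ℤ) (h0 : π (sx n 0) = Multiplicative.ofAdd 1)
    (hx : ∀ i : Fin n, π (sx n i.succ) = 1) (hy : ∀ i, π (sy n i) = 1) :
    ∃ F : OR (surf (n + 1)) → D,
      (∀ g h, ((Multiplicative.toAdd (π g) : ℤ) : ZMod L) = 0 → F (g * h) = F g * F h) ∧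
      F (sy n 0) = c ∧
      (∀ (i : Fin n) (j : ℤ), F (sx n 0 ^ j * sx n i.succ * (sx n 0 ^ j)⁻¹) = f true i (-j)) ∧
      ∀ (i : Fin n) (j : ℤ), F (sx n 0 ^ j * sy n i.succ * (sx n 0 ^ j)⁻¹) = f false i (-j) := by
  obtain ⟨Ψ, e0, e1, e2, e3⟩ := wchar n D (Multiplicative (ZMod L)) (Multiplicative.ofAdd 1) c
    (fun b i q => f b i (Multiplicative.toAdd q))
  have hr : RegularWreathProduct.rightHom.comp Ψ =
      (AddMonoidHom.toMultiplicative (Int.castAddHom (ZMod L))).comp π := by
    refine PresentedGroup.ext fun j => ?_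
    refine Fin.addCases (fun i => ?_) (fun i => ?_) j
    · refine Fin.cases ?_ (fun i => ?_) i
      · show RegularWreathProduct.rightHom (Ψ (sx n 0)) = AddMonoidHom.toMultiplicative (Int.castAddHom (ZMod L)) (π (sx n 0))
        rw [e0, h0]
        show Multiplicative.ofAdd (1 : ZMod L) = Multiplicative.ofAdd ((1 : ℤ) : ZMod L)
        rw [Int.cast_one]
      · show RegularWreathProduct.rightHom (Ψ (sx n i.succ)) = AddMonoidHom.toMultiplicative (Int.castAddHom (ZMod L)) (π (sx n i.succ))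
        rw [e2, hx, map_one]
        rfl
    · refine Fin.cases ?_ (fun i => ?_) i
      · show RegularWreathProduct.rightHom (Ψ (sy n 0)) = AddMonoidHom.toMultiplicative (Int.castAddHom (ZMod L)) (π (sy n 0))
        rw [e1, hy, map_one]
        rfl
      · show RegularWreathProduct.rightHom (Ψ (sy n i.succ)) = AddMonoidHom.toMultiplicative (Int.castAddHom (ZMod L)) (π (sy n i.succ))
        rw [e3, hy, map_one]
        rfl
  have hr' : ∀ g, (Ψ g).right = Multiplicative.ofAdd (((Multiplicative.toAdd (π g) : ℤ) : ZMod L)) :=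
    fun g => DFunLike.congr_fun hr g
  refine ⟨fun g => (Ψ g).left 1, fun g h hg => ?_, ?_, fun i j => ?_, fun i j => ?_⟩
  · show (Ψ (g * h)).left 1 = _
    rw [map_mul, mul_left_one _ _ (by rw [hr' g, hg]; rfl)]
  · show (Ψ (sy n 0)).left 1 = c
    rw [e1]
  · show (Ψ (sx n 0 ^ j * sx n i.succ * (sx n 0 ^ j)⁻¹)).left 1 = _
    rw [map_mul, map_mul, map_inv, map_zpow, e0, e2, ← map_zpow, conj_left]
    show f true i (Multiplicative.toAdd ((Multiplicative.ofAdd (1 : ZMod L)) ^ j)⁻¹) = _
    rw [toAdd_inv, toAdd_zpow, toAdd_ofAdd, zsmul_eq_mul, mul_one]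
  · show (Ψ (sx n 0 ^ j * sy n i.succ * (sx n 0 ^ j)⁻¹)).left 1 = _
    rw [map_mul, map_mul, map_inv, map_zpow, e0, e3, ← map_zpow, conj_left]
    show f false i (Multiplicative.toAdd ((Multiplicative.ofAdd (1 : ZMod L)) ^ j)⁻¹) = _
    rw [toAdd_inv, toAdd_zpow, toAdd_ofAdd, zsmul_eq_mul, mul_one]

end Pool.Agent.MelD
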