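import Pool.Agent.MelD.Emb2
import Pool.Agent.MelD.Dens2

/-!
# The surface subgroup

`r` a product of `g` commutators in the free group of rank `2 g`, `r ≠ 1`, all finite index normal subgroups of
`G_r` with presentations with at most `m` relators: the homomorphism of the surface group of genus `g` to `G_r` is
injective.
-/

open Finset Module

namespace Pool.Agent.MelD

open Pool.Agent.MelG (HasRel)

/-- The kernel of an epimorphism to `ℤ` is closed of infinite index. -/
theorem ker_closed {G : Type} [Group G] (Θ : G →* Multiplicative ℤ) : IsProClosed Θ.ker := by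
  intro x hx
  let j : ℤ := Multiplicative.toAdd (Θ x)
  have hj : j ≠ 0 := hx
  let L : ℕ := j.natAbs + 1
  have hL : NeZero L := ⟨by omega⟩
  let ρ : G →* Multiplicative (ZMod L) := (AddMonoidHom.toMultiplicative (Int.castAddHom (ZMod L))).comp Θ
  refine ⟨ρ.ker, inferInstance, ?_, ?_⟩
  · intro y hy
    show AddMonoidHom.toMultiplicative (Int.castAddHom (ZMod L)) (Θ y) = 1
    rw [MonoidHom.mem_ker.1 hy, map_one]
  · intro hy
    have h1 : ((j : ℤ) : ZMod L) = 0 := hy
    rw [ZMod.intCast_zmod_eq_zero_iff_dvd] at h1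
    have h2 := Int.eq_zero_of_abs_lt_dvd h1 (by
      rw [Int.abs_eq_natAbs]
      push_cast [L]
      omega)
    exact hj h2

theorem ker_inf {G : Type} [Group G] (Θ : G →* Multiplicative ℤ) (g : G)
    (hg : Θ g = Multiplicative.ofAdd 1) : ¬ Θ.ker.FiniteIndex := by
  intro h
  have h1 := h.index_ne_zero
  rw [Subgroup.index_ker] at h1
  have h2 : Θ.range = ⊤ := by
    rw [eq_top_iff]
    intro z _
    refine ⟨g ^ (Multiplicative.toAdd z), ?_⟩
    rw [map_zpow, hg, ← ofAdd_zsmul, smul_eq_mul, mul_one, ofAdd_toAdd]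
  rw [h2] at h1
  have h3 : Infinite (Multiplicative ℤ) := (inferInstance : Infinite ℤ)
  apply h1
  rw [Subgroup.card_top]
  exact Nat.card_eq_zero_of_infinite

/-- the index type of the generators of the kernel -/
abbrev Idx (n : ℕ) : Type := Option (Bool × Fin n × ℤ)

/-- the generators of the kernel -/
def gY (n : ℕ) : Idx n → OR (surf (n + 1))
  | none => sy n 0
  | some (true, i, j) => sx n 0 ^ j * sx n i.succ * (sx n 0 ^ j)⁻¹
  | some (false, i, j) => sx n 0 ^ j * sy n i.succ * (sx n 0 ^ j)⁻¹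

theorem range_gY (n : ℕ) : Set.range (gY n) = KerSurf.gens (sx n) (sy n) := by
  ext g
  constructor
  · rintro ⟨i, rfl⟩
    match i with
    | none => exact KerSurf.gens_y _ _
    | some (true, i, j) => exact KerSurf.gens_X (sx n) (sy n) j i
    | some (false, i, j) => exact KerSurf.gens_Y (sx n) (sy n) j i
  · rintro (rfl | ⟨j, i, rfl | rfl⟩)
    · exact ⟨none, rfl⟩
    · exact ⟨some (true, i, j), rfl⟩
    · exact ⟨some (false, i, j), rfl⟩

theorem surf_inj {n : ℕ} (r : FreeGroup (Fin (n + 1 + (n + 1)))) (hr1 : r ≠ 1) (m : ℕ)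
    (H : ∀ N : Subgroup (OR r), N.Normal → N.FiniteIndex → HasRel m N)
    (hT : r ∈ VT 2 (⊤ : Subgroup (FreeGroup (Fin (n + 1 + (n + 1))))))
    (hw : ∀ (Q : Type) (_ : Group Q) (_ : Fintype Q) (π : FreeGroup (Fin (n + 1 + (n + 1))) →* Q),
      Function.Surjective π → π (surf (n + 1)) = 1 → cork (ZMod 2) (surf (n + 1)) π ≤ 1)
    (a : OR (surf (n + 1)) →* OR r) (ha : DenseHom a) (Θ : OR r →* Multiplicative ℤ)
    (h0 : Θ (a (sx n 0)) = Multiplicative.ofAdd 1) (hx : ∀ i : Fin n, Θ (a (sx n i.succ)) = 1)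
    (hy : ∀ i, Θ (a (sy n i)) = 1) : Function.Injective a := by
  classical
  have hp : Fact (Nat.Prime 2) := ⟨Nat.prime_two⟩
  let π : OR (surf (n + 1)) →* Multiplicative ℤ := Θ.comp a
  have hker : π.ker = Subgroup.closure (Set.range (gY n)) := by
    rw [range_gY]
    exact KerSurf.ker_surf π h0 hx hy
  have hmem : ∀ i, π (gY n i) = 1 := by
    intro i
    have h1 : gY n i ∈ π.ker := by
      rw [hker]
      exact Subgroup.subset_closure ⟨i, rfl⟩
    exact h1
  let Y : Idx n → Θ.ker := fun i => ⟨a (gY n i), hmem i⟩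
  have hinj : Function.Injective (FreeGroup.lift Y) := by
    refine free_of_indep' (by omega) r hr1 m H Θ.ker (ker_closed Θ) (ker_inf Θ _ h0) 2 Y ?_
    intro s v
    -- a bound for the exponents
    let B : ℕ := s.sup (fun i => match i with
      | none => 0
      | some (_, _, j) => j.natAbs)
    have hB : ∀ b i j, some (b, i, j) ∈ s → j.natAbs ≤ B := fun b i j h =>
      Finset.le_sup (f := fun i : Idx n => match i with
      | none => 0
      | some (_, _, j) => j.natAbs) h
    let L : ℕ := 2 * B + 1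
    have hL : NeZero L := ⟨by omega⟩
    have key : ∀ j' j'' : ℤ, j'.natAbs ≤ B → j''.natAbs ≤ B →
        ((-j' : ℤ) : ZMod L) = ((-j'' : ℤ) : ZMod L) → j' = j'' := by
      intro j' j'' h1 h2 h3
      have h5 : ((-j' - -j'' : ℤ) : ZMod L) = 0 := by
        rw [Int.cast_sub, h3, sub_self]
      rw [ZMod.intCast_zmod_eq_zero_iff_dvd] at h5
      have h6 := Int.eq_zero_of_abs_lt_dvd h5 (by
        rw [abs_lt]
        constructor <;> push_cast [L] <;> omega)
      omega
    let f : Bool → Fin n → ZMod L → Multiplicative (ZMod 2) := fun b i q =>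
      if h : ∃ j : ℤ, some (b, i, j) ∈ s ∧ ((-j : ℤ) : ZMod L) = q then
        Multiplicative.ofAdd (v (some (b, i, h.choose))) else 1
    have hf : ∀ b i j, some (b, i, j) ∈ s → f b i ((-j : ℤ) : ZMod L) = Multiplicative.ofAdd (v (some (b, i, j))) := by
      intro b i j hj
      have h : ∃ j' : ℤ, some (b, i, j') ∈ s ∧ ((-j' : ℤ) : ZMod L) = ((-j : ℤ) : ZMod L) := ⟨j, hj, rfl⟩
      show (if h : ∃ j' : ℤ, some (b, i, j') ∈ s ∧ ((-j' : ℤ) : ZMod L) = ((-j : ℤ) : ZMod L) then
        Multiplicative.ofAdd (v (some (b, i, h.choose))) else 1) = _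
      rw [dif_pos h]
      have h1 := h.choose_spec
      have h4 : h.choose = j := key _ _ (hB _ _ _ h1.1) (hB _ _ _ hj) h1.2
      rw [h4]
    obtain ⟨F, hF, hF0, hFx, hFy⟩ := cyc_char n (Multiplicative (ZMod 2)) L
      (Multiplicative.ofAdd (v none)) f π h0 hx hy
    -- the cyclic cover
    let ρ : OR r →* Multiplicative (ZMod L) := (AddMonoidHom.toMultiplicative (Int.castAddHom (ZMod L))).comp Θ
    have hρ : ∀ g, ρ g = 1 ↔ ((Multiplicative.toAdd (Θ g) : ℤ) : ZMod L) = 0 := fun g => Iff.rfl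
    have hfin : ρ.ker.FiniteIndex := inferInstance
    let χ' : Additive (ρ.ker.comap a) →+ ZMod 2 :=
      AddMonoidHom.mk' (fun g => Multiplicative.toAdd (F (Additive.toMul g : ρ.ker.comap a))) (fun g h => by
        show Multiplicative.toAdd (F ((Additive.toMul g : ρ.ker.comap a) * (Additive.toMul h : ρ.ker.comap a))) = _
        rw [hF _ _ ((hρ _).1 (Additive.toMul g : ρ.ker.comap a).2), toAdd_mul])
    obtain ⟨χ, hχ⟩ := (restr_surj (by omega) r hr1 m H 2 hT (surf (n + 1)) hw a ha ρ.ker).2 χ'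
    have hle : ∀ g ∈ Θ.ker, g ∈ ρ.ker := by
      intro g hg
      show AddMonoidHom.toMultiplicative (Int.castAddHom (ZMod L)) (Θ g) = 1
      rw [MonoidHom.mem_ker.1 hg, map_one]
    refine ⟨MonoidHom.mk' (fun g => Multiplicative.ofAdd (χ (Additive.ofMul ⟨g.1, hle g.1 g.2⟩))) ?_, ?_⟩
    · intro g h
      rw [← ofAdd_add, ← map_add]
      rfl
    · intro i hi
      have h1 : χ (Additive.ofMul ⟨a (gY n i), hle _ (hmem i)⟩) = Multiplicative.toAdd (F (gY n i)) :=
        DFunLike.congr_fun hχ (Additive.ofMul (⟨gY n i, hle _ (hmem i)⟩ : ρ.ker.comap a))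
      show Multiplicative.ofAdd (χ (Additive.ofMul ⟨a (gY n i), hle _ (hmem i)⟩)) = _
      rw [h1, ofAdd_toAdd]
      match i, hi with
      | none, _ => exact hF0
      | some (true, i, j), hi =>
        show F (sx n 0 ^ j * sx n i.succ * (sx n 0 ^ j)⁻¹) = _
        rw [hFx, ← hf true i j hi, Int.cast_neg]
      | some (false, i, j), hi =>
        show F (sx n 0 ^ j * sy n i.succ * (sx n 0 ^ j)⁻¹) = _
        rw [hFy, ← hf false i j hi, Int.cast_neg]
  rw [injective_iff_map_eq_one]
  intro g hg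
  have h1 : g ∈ π.ker := by
    show Θ (a g) = 1
    rw [hg, map_one]
  rw [hker, ← FreeGroup.range_lift_eq_closure] at h1
  obtain ⟨f, rfl⟩ := h1
  have h2 : FreeGroup.lift Y f = 1 := by
    apply Subtype.ext
    rw [Subgroup.coe_one, ← hg]
    have h3 : Θ.ker.subtype.comp (FreeGroup.lift Y) = a.comp (FreeGroup.lift (gY n)) := by
      refine FreeGroup.ext_hom _ _ fun i => ?_
      simp only [MonoidHom.comp_apply, FreeGroup.lift_apply_of]
      rfl
    exact DFunLike.congr_fun h3 f
  have h3 : f = 1 := by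
    apply hinj
    rw [h2, map_one]
  rw [h3, map_one]

end Pool.Agent.MelD
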