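import Pool.Agent.MelD.Emb1

/-!
# Solvable quotients

`solv_comap`: `a : S → G` onto modulo all finite quotients, such that for all finite index normal subgroups `N` of
`G` and all primes `p` every homomorphism `a⁻¹ N → ZMod p` extends to `N`.  Then every finite index normal
subgroup `U` of `S` contained in `a⁻¹ N` with solvable quotient `a⁻¹ N / U` is the preimage of a finite index
normal subgroup of `G`.
-/

open Finset Module

namespace Pool.Agent.MelD

/-- A nontrivial finite solvable group has a nontrivial homomorphism to some `ZMod p`. -/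
theorem exists_char (P : Type) [Group P] [Finite P] [Group.IsSolvable P] [Nontrivial P] :
    ∃ p : ℕ, p.Prime ∧ ∃ (χ : P →* Multiplicative (ZMod p)) (g : P), χ g ≠ 1 := by
  classical
  have h1 : commutator P < ⊤ := Group.IsSolvable.commutator_lt_top_of_nontrivial P
  have h2 : Nontrivial (Abelianization P) := by
    obtain ⟨g, _, hg⟩ := SetLike.exists_of_lt h1
    refine ⟨Abelianization.of g, 1, fun h => hg ?_⟩
    exact (QuotientGroup.eq_one_iff g).1 h
  have h3 : Finite (Abelianization P) := Finite.of_surjective _ (QuotientGroup.mk'_surjective (commutator P))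
  obtain ⟨ι, _, n, hn, ⟨e⟩⟩ := AddCommGroup.equiv_directSum_zmod_of_finite' (Additive (Abelianization P))
  have h4 : Nonempty ι := by
    by_contra h
    rw [not_nonempty_iff] at h
    obtain ⟨x, y, hxy⟩ := h2
    apply hxy
    have h5 : e (Additive.ofMul x) = e (Additive.ofMul y) := by
      refine DFinsupp.ext fun i => ?_
      exact (h.false i).elim
    exact Additive.ofMul.injective (e.injective h5)
  obtain ⟨i⟩ := h4
  let p := (n i).minFac
  have hp : p.Prime := Nat.minFac_prime (by have := @hn i; omega)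
  have hpn : p ∣ n i := Nat.minFac_dvd _
  have hpf : Fact p.Prime := ⟨hp⟩
  let c : Additive (Abelianization P) →+ ZMod p :=
    ((ZMod.castHom hpn (ZMod p)).toAddMonoidHom.comp
      (DFinsupp.evalAddMonoidHom i : (DirectSum ι fun i => ZMod (n i)) →+ ZMod (n i))).comp e.toAddMonoidHom
  obtain ⟨g, hg⟩ := QuotientGroup.mk'_surjective (commutator P)
    (Additive.toMul (e.symm (DirectSum.of (fun i => ZMod (n i)) i 1)))
  refine ⟨p, hp, (AddMonoidHom.toMultiplicative c).comp (Abelianization.of : P →* Abelianization P), g, ?_⟩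
  intro h
  have h5 : c (Additive.ofMul (Abelianization.of g)) = 0 := h
  have h6 : Additive.ofMul (Abelianization.of g) = e.symm (DirectSum.of (fun i => ZMod (n i)) i 1) :=
    congrArg Additive.ofMul hg
  rw [h6] at h5
  have h7 : c (e.symm (DirectSum.of (fun i => ZMod (n i)) i 1)) = 1 := by
    show ZMod.castHom hpn (ZMod p) (DFinsupp.evalAddMonoidHom i (e (e.symm (DirectSum.of (fun i => ZMod (n i)) i 1)))) = 1
    rw [e.apply_symm_apply]
    show ZMod.castHom hpn (ZMod p) ((DirectSum.of (fun i => ZMod (n i)) i 1) i) = 1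
    rw [DirectSum.of_eq_same, map_one]
  rw [h7] at h5
  exact one_ne_zero h5

theorem solv_comap {S G : Type} [Group S] [Group G] (a : S →* G) (ha : DenseHom a)
    (hB : ∀ (N : Subgroup G), N.Normal → N.FiniteIndex → ∀ p : ℕ, p.Prime →
      Function.Surjective (fun χ : Additive N →+ ZMod p => χ.comp (MonoidHom.toAdditive (a.subgroupComap N))))
    (U : Subgroup S) (hU : U.Normal) (hUf : U.FiniteIndex) (n d : ℕ) :
    ∀ (N : Subgroup G), N.Normal → N.FiniteIndex → U ≤ N.comap a → U.relIndex (N.comap a) ≤ d →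
      (derivedSeries (N.comap a) n).map (N.comap a).subtype ≤ U →
      ∃ N' ≤ N, N'.Normal ∧ N'.FiniteIndex ∧ N'.comap a = U := by
  classical
  induction d with
  | zero =>
    intro N hN hf hle hd _
    exfalso
    have h1 : U.relIndex (N.comap a) ≠ 0 := by
      have : (U.subgroupOf (N.comap a)).FiniteIndex := inferInstance
      exact this.index_ne_zero
    omega
  | succ d ih =>
    intro N hN hf hle hd hn
    by_cases heq : N.comap a = U
    · exact ⟨N, le_rfl, hN, hf, heq⟩
    set M : Subgroup S := N.comap a with hM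
    have hlt : U < M := lt_of_le_of_ne hle (Ne.symm heq)
    have hP1 : Finite (M ⧸ U.subgroupOf M) := inferInstance
    have hP2 : Nontrivial (M ⧸ U.subgroupOf M) := by
      obtain ⟨x, hx, hxU⟩ := SetLike.exists_of_lt hlt
      refine ⟨QuotientGroup.mk' _ ⟨x, hx⟩, 1, fun h => hxU ?_⟩
      exact (QuotientGroup.eq_one_iff (⟨x, hx⟩ : M)).1 h
    have hP3 : Group.IsSolvable (M ⧸ U.subgroupOf M) := by
      refine ⟨⟨n, ?_⟩⟩
      rw [← map_derivedSeries_eq (QuotientGroup.mk'_surjective (U.subgroupOf M)) n, eq_bot_iff]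
      rintro _ ⟨x, hx, rfl⟩
      exact (QuotientGroup.eq_one_iff x).2 (hn ⟨x, hx, rfl⟩)
    obtain ⟨p, hp, χ₀, g, hg⟩ := exists_char (M ⧸ U.subgroupOf M)
    have hpf : Fact p.Prime := ⟨hp⟩
    let χ₁ : M →* Multiplicative (ZMod p) := χ₀.comp (QuotientGroup.mk' _)
    have hχ₁ : ∀ x : M, (x : S) ∈ U → χ₁ x = 1 := by
      intro x hx
      show χ₀ (QuotientGroup.mk' _ x) = 1
      have h1 : QuotientGroup.mk' (U.subgroupOf M) x = 1 := (QuotientGroup.eq_one_iff x).2 hx
      rw [h1, map_one]
    obtain ⟨y, rfl⟩ := QuotientGroup.mk'_surjective _ g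
    obtain ⟨χ₂, hχ₂⟩ := hB N hN hf p hp (AddMonoidHom.mk' (fun z => Multiplicative.toAdd (χ₁ (Additive.toMul z)))
      (fun z z' => by rw [toMul_add, map_mul, toAdd_mul]))
    let χ : N →* Multiplicative (ZMod p) :=
      MonoidHom.mk' (fun g => Multiplicative.ofAdd (χ₂ (Additive.ofMul g))) (fun g h => by
        rw [ofMul_mul, map_add, ofAdd_add])
    have hχ : ∀ (x : S) (hx : x ∈ M), χ ⟨a x, hx⟩ = χ₁ ⟨x, hx⟩ := fun x hx =>
      congrArg Multiplicative.ofAdd (DFunLike.congr_fun hχ₂ (Additive.ofMul (⟨x, hx⟩ : M)))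
    let V : Subgroup G := χ.ker.map N.subtype
    have hV : ∀ x (hx : x ∈ N), x ∈ V ↔ χ ⟨x, hx⟩ = 1 := by
      intro x hx
      constructor
      · rintro ⟨z, hz, rfl⟩
        exact hz
      · intro h
        exact ⟨⟨x, hx⟩, h, rfl⟩
    have hVN : V ≤ N := by
      rintro _ ⟨z, _, rfl⟩
      exact z.2
    have hVf : V.FiniteIndex := by
      have hf' : χ.ker.FiniteIndex := inferInstance
      constructor
      rw [Subgroup.index_map_subtype]
      exact Nat.mul_ne_zero hf'.index_ne_zero hf.index_ne_zero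
    have hVc : V.normalCore ≤ V := V.normalCore_le
    have h1 : U ≤ V.normalCore.comap a := by
      intro u hu
      show ∀ b : G, b * a u * b⁻¹ ∈ V
      intro b
      obtain ⟨y, hy⟩ := ha.exists_mul N hf b
      have hyu : y * u * y⁻¹ ∈ U := hU.conj_mem u hu y
      have hyM : y * u * y⁻¹ ∈ M := hle hyu
      have hn' : b * (a y)⁻¹ ∈ N := by
        have := hN.conj_mem _ hy (a y)
        have h2 : a y * ((a y)⁻¹ * b) * (a y)⁻¹ = b * (a y)⁻¹ := by group
        rwa [h2] at this
      have h3 : b * a u * b⁻¹ = (b * (a y)⁻¹) * a (y * u * y⁻¹) * (b * (a y)⁻¹)⁻¹ := by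
        rw [map_mul, map_mul, map_inv]
        group
      have h4 : b * a u * b⁻¹ ∈ N := by
        rw [h3]
        exact hN.conj_mem _ hyM _
      rw [hV _ h4]
      have h5 : (⟨b * a u * b⁻¹, h4⟩ : N) = ⟨b * (a y)⁻¹, hn'⟩ * ⟨a (y * u * y⁻¹), hyM⟩ * ⟨b * (a y)⁻¹, hn'⟩⁻¹ :=
        Subtype.ext h3
      rw [h5, map_mul, map_mul, hχ, hχ₁ _ hyu, mul_one, map_inv, mul_inv_cancel]
    have h2 : V.normalCore.comap a < M := by
      refine lt_of_le_of_ne (Subgroup.comap_mono (hVc.trans hVN)) ?_
      intro h
      have h3 : (y : S) ∈ V.normalCore.comap a := by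
        rw [h]
        exact y.2
      have h4 : χ ⟨a y, y.2⟩ = 1 := (hV _ y.2).1 (hVc h3)
      rw [hχ] at h4
      exact hg h4
    have h3 : U.relIndex (V.normalCore.comap a) ≤ d := by
      have h4 := Subgroup.relIndex_mul_relIndex U (V.normalCore.comap a) M h1 h2.le
      have h5 : U.relIndex M ≠ 0 := by
        have : (U.subgroupOf M).FiniteIndex := inferInstance
        exact this.index_ne_zero
      have h6 : (V.normalCore.comap a).relIndex M ≠ 1 := by
        intro h
        rw [Subgroup.relIndex_eq_one] at h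
        exact absurd h (not_le_of_gt h2)
      have h7 : 2 ≤ (V.normalCore.comap a).relIndex M := by
        have h8 : (V.normalCore.comap a).relIndex M ≠ 0 := by
          intro h
          rw [h, mul_zero] at h4
          exact h5 h4.symm
        omega
      have h8 : U.relIndex (V.normalCore.comap a) * 2 ≤ U.relIndex M := by
        rw [← h4]
        exact Nat.mul_le_mul_left _ h7
      omega
    obtain ⟨N', hN', h4, h5, h6⟩ := ih V.normalCore V.normalCore_normal inferInstance h1 h3 (by
      refine le_trans ?_ hn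
      rintro _ ⟨z, hz, rfl⟩
      let ι : V.normalCore.comap a →* M := Subgroup.inclusion h2.le
      have h4 : ι z ∈ derivedSeries M n := by
        have h5 := map_derivedSeries_le_derivedSeries ι n
        exact h5 ⟨z, hz, rfl⟩
      exact ⟨ι z, h4, rfl⟩)
    exact ⟨N', hN'.trans (hVc.trans hVN), h4, h5, h6⟩

end Pool.Agent.MelD
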