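import Pool.Agent.MelD.RetrW
import Pool.Agent.MelD.Wrap

/-!
# Virtual retracts of Mel'nikov groups

If a subgroup `H` of finite index of a Mel'nikov group retracts onto a one-relator group with a nontrivial relator
in the commutator subgroup, for example onto the fundamental group of a closed orientable surface, then the
retraction is an isomorphism.
-/

open Finset Module
open scoped commutatorElement

namespace Pool.Agent.MelD

open Pool.Agent.MelG (HasRel IsMelnikov)

/-- Homomorphisms of the free group to the integers factor through the one-relator group if the relator is in the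
commutator subgroup. -/
theorem kill_comm {n : ℕ} (w : FreeGroup (Fin n))
    (hw : w ∈ ⁅(⊤ : Subgroup (FreeGroup (Fin n))), (⊤ : Subgroup (FreeGroup (Fin n)))⁆)
    {A : Type*} [CommGroup A] (τ : FreeGroup (Fin n) →* A) : τ w = 1 := by
  have h := eq_on_comm τ (1 : FreeGroup (Fin n) →* A) (fun x => by
    rw [Subgroup.mem_center_iff]
    intro g
    exact mul_comm _ _) w hw
  rw [h]
  rfl

theorem not_cyclic_OR {n : ℕ} (w : FreeGroup (Fin n)) (hw1 : w ≠ 1)
    (hw : w ∈ ⁅(⊤ : Subgroup (FreeGroup (Fin n))), (⊤ : Subgroup (FreeGroup (Fin n)))⁆) :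
    ¬ IsCyclic (OR w) := by
  intro hc
  have hn : 2 ≤ n := by
    by_contra hn
    apply hw1
    have h1 := isCyclic_OR (show n ≤ 1 by omega) (1 : FreeGroup (Fin n))
    obtain ⟨e⟩ := OR_one n
    have h2 : IsCyclic (FreeGroup (Fin n)) := isCyclic_of_surjective e e.surjective
    let _ : CommGroup (FreeGroup (Fin n)) := IsCyclic.commGroup
    exact kill_comm w hw (MonoidHom.id (FreeGroup (Fin n)))
  obtain ⟨g, hg⟩ := hc.exists_generator
  let a : Fin n := ⟨0, by omega⟩
  let b : Fin n := ⟨1, by omega⟩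
  have hab : b ≠ a := by
    intro h
    have := congrArg Fin.val h
    simp [a, b] at this
  let τ : Fin n → FreeGroup (Fin n) →* Multiplicative ℤ := fun j =>
    FreeGroup.lift (fun i => if i = j then Multiplicative.ofAdd (1 : ℤ) else 1)
  have hτ : ∀ i j, τ j (FreeGroup.of i) = if i = j then Multiplicative.ofAdd (1 : ℤ) else 1 := fun i j => by
    show FreeGroup.lift _ (FreeGroup.of i) = _
    rw [FreeGroup.lift_apply_of]
  obtain ⟨ta, hta⟩ := exists_desc w (τ a) (kill_comm w hw _)
  obtain ⟨tb, htb⟩ := exists_desc w (τ b) (kill_comm w hw _)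
  have hta' : ∀ x, ta (PresentedGroup.mk {w} x) = τ a x := fun x => DFunLike.congr_fun hta x
  have htb' : ∀ x, tb (PresentedGroup.mk {w} x) = τ b x := fun x => DFunLike.congr_fun htb x
  obtain ⟨x, hx⟩ := Subgroup.mem_zpowers_iff.1 (hg (PresentedGroup.mk {w} (FreeGroup.of a)))
  obtain ⟨y, hy⟩ := Subgroup.mem_zpowers_iff.1 (hg (PresentedGroup.mk {w} (FreeGroup.of b)))
  have e1 : x * Multiplicative.toAdd (ta g) = 1 := by
    have h1 := congrArg (fun z => Multiplicative.toAdd (ta z)) hx
    simp only [hta', hτ, map_zpow, toAdd_zpow, if_true, toAdd_ofAdd, smul_eq_mul] at h1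
    exact h1
  have e2 : y * Multiplicative.toAdd (ta g) = 0 := by
    have h1 := congrArg (fun z => Multiplicative.toAdd (ta z)) hy
    simp only [hta', hτ, map_zpow, toAdd_zpow, if_neg hab, toAdd_one, smul_eq_mul] at h1
    exact h1
  have e3 : y * Multiplicative.toAdd (tb g) = 1 := by
    have h1 := congrArg (fun z => Multiplicative.toAdd (tb z)) hy
    simp only [htb', hτ, map_zpow, toAdd_zpow, if_true, toAdd_ofAdd, smul_eq_mul] at h1
    exact h1
  rcases mul_eq_zero.1 e2 with h | h
  · rw [h, zero_mul] at e3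
    exact zero_ne_one e3
  · rw [h, mul_zero] at e1
    exact zero_ne_one e1

/-- Free groups do not retract onto such groups. -/
theorem no_free_retract {n l : ℕ} (w : FreeGroup (Fin n)) (hw1 : w ≠ 1)
    (hw : w ∈ ⁅(⊤ : Subgroup (FreeGroup (Fin n))), (⊤ : Subgroup (FreeGroup (Fin n)))⁆)
    (i : OR w →* FreeGroup (Fin l)) (h : FreeGroup (Fin l) →* OR w) (hi : ∀ x, h (i x) = x) : False := by
  choose f hf using fun j : Fin l => PresentedGroup.mk_surjective ({w} : Set (FreeGroup (Fin n)))
    (h (FreeGroup.of j))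
  have hη : ∀ x, PresentedGroup.mk ({w} : Set (FreeGroup (Fin n))) (FreeGroup.lift f x) = h x := by
    have h1 : (PresentedGroup.mk ({w} : Set (FreeGroup (Fin n)))).comp (FreeGroup.lift f) = h := by
      refine FreeGroup.ext_hom _ _ fun j => ?_
      show PresentedGroup.mk {w} (FreeGroup.lift f (FreeGroup.of j)) = _
      rw [FreeGroup.lift_apply_of]
      exact hf j
    exact fun x => DFunLike.congr_fun h1 x
  have hwW : w ∈ NC w := Subgroup.subset_normalClosure (Set.mem_singleton w)
  have hnorm : (⁅NC w, (⊤ : Subgroup (FreeGroup (Fin n)))⁆).Normal := Subgroup.commutator_normal _ _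
  let q : FreeGroup (Fin n) →* FreeGroup (Fin n) ⧸ ⁅NC w, (⊤ : Subgroup (FreeGroup (Fin n)))⁆ :=
    QuotientGroup.mk' _
  have hq : ∀ x, q x = 1 ↔ x ∈ ⁅NC w, (⊤ : Subgroup (FreeGroup (Fin n)))⁆ :=
    fun x => QuotientGroup.eq_one_iff x
  have hqs : Function.Surjective q := QuotientGroup.mk'_surjective _
  have hcent : ∀ x ∈ NC w, q x ∈ Subgroup.center _ := by
    intro x hx
    rw [Subgroup.mem_center_iff]
    intro y
    obtain ⟨y, rfl⟩ := hqs y
    have h3 : q ⁅x, y⁆ = 1 := (hq _).2 (Subgroup.commutator_mem_commutator hx (Subgroup.mem_top y))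
    rw [map_commutatorElement, commutatorElement_eq_one_iff_mul_comm] at h3
    exact h3.symm
  let α : FreeGroup (Fin n) →* FreeGroup (Fin l) := i.comp (PresentedGroup.mk ({w} : Set (FreeGroup (Fin n))))
  have h3 : q (FreeGroup.lift f (α w)) = q w := by
    refine eq_on_comm ((q.comp (FreeGroup.lift f)).comp α) q (fun x => ?_) w hw
    show q (FreeGroup.lift f (α x)) * (q x)⁻¹ ∈ _
    rw [← map_inv, ← map_mul]
    apply hcent
    rw [← mk_eq_one_iff, map_mul, hη, map_inv]
    show h (i (PresentedGroup.mk {w} x)) * _ = 1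
    rw [hi, mul_inv_cancel]
  have h4 : α w = 1 := by
    show i (PresentedGroup.mk {w} w) = 1
    rw [(mk_eq_one_iff w w).2 hwW, map_one]
  rw [h4, map_one, map_one] at h3
  have h5 := inf_order w hw1 1 (by
    rw [zpow_one, ← hq, ← h3])
  exact one_ne_zero h5

/-- Retractions of finite index subgroups of Mel'nikov groups. -/
theorem melnikov_retract {G : Type} [Group G] (hG : IsMelnikov G) (H : Subgroup G)
    (hH : H.FiniteIndex) {n : ℕ} (w : FreeGroup (Fin n)) (hw1 : w ≠ 1)
    (hw : w ∈ ⁅(⊤ : Subgroup (FreeGroup (Fin n))), (⊤ : Subgroup (FreeGroup (Fin n)))⁆)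
    (i : OR w →* H) (h : H →* OR w) (hi : ∀ x, h (i x) = x) : Function.Bijective h := by
  have hs : Function.Surjective h := fun x => ⟨i x, hi x⟩
  obtain ⟨k, r, hk, hr1, ⟨e⟩, hM⟩ := exists_OR_sub hG H hH
    (fun hc => not_cyclic_OR w hw1 hw (isCyclic_of_surjective h hs))
    (fun l => ⟨fun e => no_free_retract w hw1 hw (e.toMonoidHom.comp i) (h.comp e.symm.toMonoidHom)
      (fun x => by
        show h (e.symm (e (i x))) = x
        rw [e.symm_apply_apply, hi])⟩)
  have h1 := retract_w hk r hr1 1 (fun N _ hN => hM.2 N hN) hM.1 w hw1 hw (e.toMonoidHom.comp i)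
    (h.comp e.symm.toMonoidHom) (fun x => by
      show h (e.symm (e (i x))) = x
      rw [e.symm_apply_apply, hi])
  refine ⟨fun a b hab => ?_, hs⟩
  have h2 : (h.comp e.symm.toMonoidHom) (e a) = (h.comp e.symm.toMonoidHom) (e b) := by
    show h (e.symm (e a)) = h (e.symm (e b))
    rw [e.symm_apply_apply, e.symm_apply_apply, hab]
  exact e.injective (h1.1 h2)

/-- Retractions onto groups with a subgroup of finite index of this kind. -/
theorem melnikov_retract' {G : Type} [Group G] (hG : IsMelnikov G) (H : Subgroup G)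
    (hH : H.FiniteIndex) {S : Type} [Group S] (S₀ : Subgroup S) (hS₀ : S₀.FiniteIndex) {n : ℕ}
    (w : FreeGroup (Fin n)) (hw1 : w ≠ 1)
    (hw : w ∈ ⁅(⊤ : Subgroup (FreeGroup (Fin n))), (⊤ : Subgroup (FreeGroup (Fin n)))⁆)
    (e : S₀ ≃* OR w) (i : S →* H) (h : H →* S) (hi : ∀ x, h (i x) = x) : Function.Bijective h := by
  let H₀ : Subgroup H := S₀.comap h
  have hH₀ : H₀.FiniteIndex := finIdx_comap h S₀ hS₀
  let i₀ : OR w →* H₀ :=
    { toFun := fun x => ⟨i (e.symm x), by
        show h (i (e.symm x)) ∈ S₀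
        rw [hi]
        exact (e.symm x).2⟩
      map_one' := by
        apply Subtype.ext
        show i (e.symm 1 : S₀) = 1
        rw [map_one, Subgroup.coe_one, map_one]
      map_mul' := fun x y => by
        apply Subtype.ext
        show i (e.symm (x * y) : S₀) = i (e.symm x : S₀) * i (e.symm y : S₀)
        rw [map_mul, Subgroup.coe_mul, map_mul] }
  let h₀ : H₀ →* OR w :=
    { toFun := fun y => e ⟨h y, y.2⟩
      map_one' := by
        have h1 : (⟨h ((1 : H₀) : H), (1 : H₀).2⟩ : S₀) = 1 := Subtype.ext (map_one h)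
        rw [h1, map_one]
      map_mul' := fun x y => by
        have h1 : (⟨h ((x * y : H₀) : H), (x * y).2⟩ : S₀) =
          ⟨h (x : H), x.2⟩ * ⟨h (y : H), y.2⟩ := Subtype.ext (map_mul h _ _)
        rw [h1, map_mul] }
  have h1 := melnikov_retract (melnikov_sub hG H hH) H₀ hH₀ w hw1 hw i₀ h₀ (fun x => by
    show e ⟨h (i (e.symm x)), _⟩ = x
    have h2 : (⟨h (i (e.symm x : S₀)), (i₀ x).2⟩ : S₀) = e.symm x := Subtype.ext (hi _)
    exact (congrArg e h2).trans (e.apply_symm_apply x))
  refine ⟨?_, fun x => ⟨i x, hi x⟩⟩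
  rw [injective_iff_map_eq_one]
  intro y hy
  have hy₀ : y ∈ H₀ := by
    show h y ∈ S₀
    rw [hy]
    exact S₀.one_mem
  have h2 : h₀ ⟨y, hy₀⟩ = h₀ 1 := by
    show e ⟨h y, hy₀⟩ = e ⟨h ((1 : H₀) : H), (1 : H₀).2⟩
    congr 1
    apply Subtype.ext
    show h y = h 1
    rw [hy, map_one]
  exact congrArg Subtype.val (h1.1 h2)

end Pool.Agent.MelD
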