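import Pool.Agent.MelD.Dens2

/-!
# A homomorphism to `ℤ` with prescribed values (helper41, for the theorem on the commutator length)

`t : Fin k → F_k` whose images generate `(ℤ/p) ^ k` for every prime `p`: the matrix of the exponent sums is unimodular, so for
every `i` there is `θ : F_k → ℤ` with `θ (t i) = 1`, `θ (t j) = 0` for `j ≠ i` (`theta`); every vector of values is taken
(`theta_all`).
-/

open Finset

namespace Pool.Agent.MelD

section theta

variable {k : ℕ}

/-- exponent sum of the generator `l` -/
private def exs (l : Fin k) : FreeGroup (Fin k) →* Multiplicative ℤ :=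
  FreeGroup.lift fun m => Multiplicative.ofAdd (if m = l then 1 else 0)

/-- exponent sums determine every homomorphism to `ℤ` -/
private theorem lift_exs (c : Fin k → ℤ) (g : FreeGroup (Fin k)) :
    Multiplicative.toAdd (FreeGroup.lift (fun l => Multiplicative.ofAdd (c l)) g) =
      ∑ l, Multiplicative.toAdd (exs l g) * c l := by
  induction g using FreeGroup.induction_on with
  | C1 => simp
  | of x =>
    rw [FreeGroup.lift_apply_of, toAdd_ofAdd, sum_eq_single x]
    · unfold exs
      rw [FreeGroup.lift_apply_of, toAdd_ofAdd, if_pos rfl, one_mul]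
    · intro l _ hl
      unfold exs
      rw [FreeGroup.lift_apply_of, toAdd_ofAdd, if_neg (Ne.symm hl), zero_mul]
    · intro h
      exact absurd (mem_univ _) h
  | inv_of x ih =>
    rw [map_inv, toAdd_inv, ih, ← sum_neg_distrib]
    refine sum_congr rfl fun l _ => ?_
    rw [map_inv, toAdd_inv, neg_mul]
  | mul x y hx hy =>
    rw [map_mul, toAdd_mul, hx, hy, ← sum_add_distrib]
    refine sum_congr rfl fun l _ => ?_
    rw [map_mul, toAdd_mul, add_mul]

/-- exponent sums modulo `p` -/
private theorem eab_exs (p : ℕ) (g : FreeGroup (Fin k)) (l : Fin k) :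
    Multiplicative.toAdd (eab k p g) l = ((Multiplicative.toAdd (exs l g) : ℤ) : ZMod p) := by
  induction g using FreeGroup.induction_on with
  | C1 => simp
  | of x =>
    unfold eab exs
    rw [FreeGroup.lift_apply_of, FreeGroup.lift_apply_of, toAdd_ofAdd, toAdd_ofAdd]
    by_cases h : x = l
    · subst h
      rw [Pi.single_eq_same, if_pos rfl, Int.cast_one]
    · rw [Pi.single_eq_of_ne (Ne.symm h), if_neg h, Int.cast_zero]
  | inv_of x ih =>
    rw [map_inv, toAdd_inv, Pi.neg_apply, ih, map_inv, toAdd_inv, Int.cast_neg]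
  | mul x y hx hy =>
    rw [map_mul, toAdd_mul, Pi.add_apply, hx, hy, map_mul, toAdd_mul, Int.cast_add]

/-- **every vector of values is taken** -/
theorem theta_all (t : Fin k → FreeGroup (Fin k))
    (h : ∀ p : ℕ, p.Prime → (Subgroup.closure (Set.range t)).map (eab k p) = ⊤) (a : Fin k → ℤ) :
    ∃ θ : FreeGroup (Fin k) →* Multiplicative ℤ, ∀ j, θ (t j) = Multiplicative.ofAdd (a j) := by
  set M : Matrix (Fin k) (Fin k) ℤ := fun j l => Multiplicative.toAdd (exs l (t j)) with hM
  have hdet : IsUnit M.det := by
    rw [Int.isUnit_iff_natAbs_eq]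
    by_contra hne
    obtain ⟨p, hp, hdvd⟩ := Nat.exists_prime_and_dvd hne
    have : Fact p.Prime := ⟨hp⟩
    have h1 : (M.map (Int.castRingHom (ZMod p))).det = 0 := by
      rw [← RingHom.mapMatrix_apply, ← RingHom.map_det]
      exact (ZMod.intCast_zmod_eq_zero_iff_dvd _ p).2 (Int.natCast_dvd.2 hdvd)
    obtain ⟨v, hv0, hv⟩ := Matrix.exists_mulVec_eq_zero_iff.2 h1
    apply hv0
    -- the functional `v` vanishes on the image of the closure
    have h2 : ∀ x ∈ Subgroup.closure (Set.range t), ∑ l, Multiplicative.toAdd (eab k p x) l * v l = 0 := by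
      intro x hx
      induction hx using Subgroup.closure_induction with
      | mem x hx =>
        obtain ⟨j, rfl⟩ := hx
        have h3 := congrFun hv j
        rw [Pi.zero_apply] at h3
        rw [← h3]
        unfold Matrix.mulVec dotProduct
        refine sum_congr rfl fun l _ => ?_
        rw [eab_exs]
        rfl
      | one => simp
      | mul x y _ _ hx hy =>
        rw [map_mul, toAdd_mul]
        simp only [Pi.add_apply, add_mul]
        rw [sum_add_distrib, hx, hy, add_zero]
      | inv x _ hx =>
        rw [map_inv, toAdd_inv]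
        simp only [Pi.neg_apply, neg_mul]
        rw [sum_neg_distrib, hx, neg_zero]
    funext l
    have h3 : Multiplicative.ofAdd (Pi.single l 1 : Fin k → ZMod p) ∈ (Subgroup.closure (Set.range t)).map (eab k p) := by
      rw [h p hp]
      trivial
    obtain ⟨x, hx, hxl⟩ := h3
    have h4 := h2 x hx
    rw [hxl, toAdd_ofAdd, sum_eq_single l] at h4
    · rw [Pi.single_eq_same, one_mul] at h4
      exact h4
    · intro m _ hm
      rw [Pi.single_eq_of_ne hm, zero_mul]
    · intro h
      exact absurd (mem_univ _) h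
  refine ⟨FreeGroup.lift fun l => Multiplicative.ofAdd ((M⁻¹.mulVec a) l), fun j => ?_⟩
  apply Multiplicative.toAdd.injective
  rw [lift_exs, toAdd_ofAdd]
  have h1 : M.mulVec (M⁻¹.mulVec a) = a := by
    rw [Matrix.mulVec_mulVec, Matrix.mul_nonsing_inv M hdet, Matrix.one_mulVec]
  exact congrFun h1 j

/-- **a homomorphism to `ℤ` which is `1` at `t i` and trivial at the others** -/
theorem theta (t : Fin k → FreeGroup (Fin k))
    (h : ∀ p : ℕ, p.Prime → (Subgroup.closure (Set.range t)).map (eab k p) = ⊤) (i : Fin k) :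
    ∃ θ : FreeGroup (Fin k) →* Multiplicative ℤ, θ (t i) = Multiplicative.ofAdd 1 ∧ ∀ j, j ≠ i → θ (t j) = 1 := by
  obtain ⟨θ, hθ⟩ := theta_all t h (Pi.single i 1)
  refine ⟨θ, ?_, fun j hj => ?_⟩
  · rw [hθ, Pi.single_eq_same]
  · rw [hθ, Pi.single_eq_of_ne hj]
    rfl

end theta

end Pool.Agent.MelD
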