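import Pool.Agent.MelD.Emb3
import Pool.Agent.MelD.Emb4
import Pool.Agent.MelD.Theta
import Pool.Agent.MelD.CorkSurf
import Pool.Agent.MelD.MelRetr

/-!
# Products of `k / 2` commutators

`comm_main`: `r ≠ 1` a product of `n` commutators `[u_i, v_i]` in the free group of rank `2 n`, all finite index
normal subgroups of `G_r` with presentations with at most `m` relators.  The homomorphism `a : S_n → G_r`,
`x_i ↦ u_i`, `y_i ↦ v_i`, is injective, its image is dense, the finite solvable quotients of the finite index normal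
subgroups correspond; `a` is an isomorphism if its image is closed, every epimorphism `G_r → S_n` is an isomorphism
if `G_r` is residually finite.
-/

open Finset Module
open scoped commutatorElement

namespace Pool.Agent.MelD

open Pool.Agent.MelG (HasRel)

theorem surf_mem (n : ℕ) :
    surf n ∈ ⁅(⊤ : Subgroup (FreeGroup (Fin (n + n)))), (⊤ : Subgroup (FreeGroup (Fin (n + n))))⁆ := by
  unfold surf
  refine list_prod_mem _ _ fun i => ?_
  exact Subgroup.commutator_mem_commutator (Subgroup.mem_top _) (Subgroup.mem_top _)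

theorem surf_image {n k : ℕ} (u v : Fin n → FreeGroup (Fin k)) :
    FreeGroup.lift (Fin.addCases u v) (surf n) =
      (List.ofFn fun i => u i * v i * (u i)⁻¹ * (v i)⁻¹).prod := by
  unfold surf
  rw [map_list_prod, List.map_ofFn]
  congr 2
  funext i
  simp only [Function.comp_apply, map_mul, map_inv, FreeGroup.lift_apply_of,
    Fin.addCases_left, Fin.addCases_right]

theorem comm_main {n : ℕ} (u v : Fin n → FreeGroup (Fin (n + n))) (r : FreeGroup (Fin (n + n)))
    (hr : r = (List.ofFn fun i => u i * v i * (u i)⁻¹ * (v i)⁻¹).prod) (hr1 : r ≠ 1) (m : ℕ)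
    (H : ∀ N : Subgroup (OR r), N.Normal → N.FiniteIndex → HasRel m N) :
    ∃ a : OR (surf n) →* OR r,
      (∀ x, a (PresentedGroup.mk ({surf n} : Set (FreeGroup (Fin (n + n)))) x) =
        PresentedGroup.mk ({r} : Set (FreeGroup (Fin (n + n)))) (FreeGroup.lift (Fin.addCases u v) x)) ∧
      DenseHom a ∧ Function.Injective a ∧
      ∀ (N : Subgroup (OR r)), N.Normal → N.FiniteIndex → ∀ (U : Subgroup (OR (surf n))), U.Normal →
        U.FiniteIndex → U ≤ N.comap a → ∀ d : ℕ, (derivedSeries (N.comap a) d).map (N.comap a).subtype ≤ U →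
        ∃ N' ≤ N, N'.Normal ∧ N'.FiniteIndex ∧ N'.comap a = U := by
  classical
  have hw : ∀ (p : ℕ) [Fact p.Prime] (Q : Type) (_ : Group Q) (_ : Fintype Q)
      (π : FreeGroup (Fin (n + n)) →* Q), Function.Surjective π → π (surf n) = 1 →
      cork (ZMod p) (surf n) π ≤ 1 := fun p _ Q _ _ π hs h => cork_surf (ZMod p) π hs h
  -- the case `n = 0`
  rcases n with _ | n
  · exfalso
    apply hr1
    rw [hr, List.ofFn_zero, List.prod_nil]
  have hk : 2 ≤ n + 1 + (n + 1) := by omega
  set φ : FreeGroup (Fin (n + 1 + (n + 1))) →* FreeGroup (Fin (n + 1 + (n + 1))) :=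
    FreeGroup.lift (Fin.addCases u v) with hφ
  have hφw : φ (surf (n + 1)) = r := by
    rw [hr]
    exact surf_image u v
  have h0 : ((PresentedGroup.mk ({r} : Set (FreeGroup (Fin (n + 1 + (n + 1)))))).comp φ) (surf (n + 1)) = 1 := by
    show PresentedGroup.mk {r} (φ (surf (n + 1))) = 1
    rw [hφw]
    exact PresentedGroup.one_of_mem (Set.mem_singleton r)
  obtain ⟨a, ha⟩ := exists_desc (surf (n + 1)) _ h0
  have ha' : ∀ x, a (PresentedGroup.mk ({surf (n + 1)} : Set (FreeGroup (Fin (n + 1 + (n + 1))))) x) =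
      PresentedGroup.mk ({r} : Set (FreeGroup (Fin (n + 1 + (n + 1))))) (φ x) :=
    fun x => DFunLike.congr_fun ha x
  have hsT : ∀ p, surf (n + 1) ∈ VT p (⊤ : Subgroup (FreeGroup (Fin (n + 1 + (n + 1))))) := by
    intro p
    unfold VT
    exact Subgroup.mem_sup_left (surf_mem (n + 1))
  have hrφ : ∀ p, r ∈ VT p φ.range := by
    intro p
    have h2 : φ (surf (n + 1)) ∈ (VT p (⊤ : Subgroup (FreeGroup (Fin (n + 1 + (n + 1)))))).map φ :=
      ⟨_, hsT p, rfl⟩
    rw [VT_map, ← MonoidHom.range_eq_map, hφw] at h2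
    exact h2
  have hrT : ∀ p, r ∈ VT p (⊤ : Subgroup (FreeGroup (Fin (n + 1 + (n + 1))))) :=
    fun p => VT_mono p le_top (hrφ p)
  -- density
  have hD : DenseHom a := by
    refine dense_of_VT hk r hr1 m H 0 (Or.inl rfl) a (VT_mono 0 ?_ (hrφ 0))
    rintro _ ⟨x, rfl⟩
    exact ⟨PresentedGroup.mk {surf (n + 1)} x, ha' x⟩
  -- the homomorphism to the integers
  have hcl : Subgroup.closure (Set.range fun j => φ (FreeGroup.of j)) = φ.range := by
    rw [hφ, FreeGroup.range_lift_eq_closure]
    congr 1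
    ext z
    simp only [Set.mem_range, FreeGroup.lift_apply_of]
  obtain ⟨θ, hθ0, hθ⟩ := theta (fun j => φ (FreeGroup.of j)) (fun p hp => by
    have : Fact p.Prime := ⟨hp⟩
    rw [hcl]
    have : Fintype (Multiplicative (Fin (n + 1 + (n + 1)) → ZMod p)) :=
      (inferInstance : Fintype (Fin (n + 1 + (n + 1)) → ZMod p))
    exact dens hk r hr1 m H 0 (Or.inl rfl) φ.range (hrφ 0) (eab _ p) (eab_surj _ p)
      (eab_VT _ (Or.inr rfl) (hrT 0))) (Fin.castAdd (n + 1) 0)
  have hθr : θ r = 1 := by
    rw [← hφw]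
    exact kill_comm (surf (n + 1)) (surf_mem (n + 1)) (θ.comp φ)
  obtain ⟨Θ, hΘ⟩ := exists_desc r θ hθr
  have hΘ' : ∀ x, Θ (PresentedGroup.mk {r} x) = θ x := fun x => DFunLike.congr_fun hΘ x
  have hval : ∀ j, Θ (a (PresentedGroup.of (rels := {surf (n + 1)}) j)) = θ (φ (FreeGroup.of j)) := by
    intro j
    have h1 : a (PresentedGroup.of (rels := {surf (n + 1)}) j) = PresentedGroup.mk {r} (φ (FreeGroup.of j)) :=
      ha' (FreeGroup.of j)
    rw [h1, hΘ']
  have hinj : Function.Injective a := by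
    refine surf_inj r hr1 m H (hrT 2) (fun Q h1 h2 π => ?_) a hD Θ ?_ ?_ ?_
    · have : Fact (Nat.Prime 2) := ⟨Nat.prime_two⟩
      exact hw 2 Q h1 h2 π
    · rw [hval]
      exact hθ0
    · intro i
      rw [hval]
      refine hθ _ fun h => ?_
      have h2 := congrArg Fin.val h
      simp at h2
    · intro i
      rw [hval]
      refine hθ _ fun h => ?_
      have h2 := congrArg Fin.val h
      simp at h2
  refine ⟨a, ha', hD, hinj, ?_⟩
  intro N hN hNf U hU hUf hle d hd
  exact solv_comap a hD (fun N hN hNf p hp => by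
    have : Fact p.Prime := ⟨hp⟩
    exact (restr_surj hk r hr1 m H p (hrT p) (surf (n + 1)) (hw p) a hD N).2) U hU hUf d _ N hN hNf hle le_rfl hd

end Pool.Agent.MelD
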