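import Pool.Agent.MelD.Emb4
import Pool.Agent.MelD.Dens2

/-!
# Words of the same rank

`restr_bij`: `r = φ w` for a word `w` in the same number `k` of letters, `a : G_w → G_r` the induced homomorphism.  If `a`
is onto modulo all finite quotients, then for all finite index normal subgroups `N` of `G_r` and all primes `q` the
restriction `Hom (N, ZMod q) → Hom (a⁻¹ N, ZMod q)` is bijective.
-/

open Finset Module

namespace Pool.Agent.MelD

open Pool.Agent.MelG (HasRel)

/-- The first Betti number of the kernel of an epimorphism to a finite group. -/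
theorem b1_ker {k : ℕ} (hk : 2 ≤ k) (w : FreeGroup (Fin k)) {Q : Type} [Group Q] [Fintype Q]
    (κ : OR w →* Q) (hs : Function.Surjective κ) (K : Type) [Field K] :
    finrank K (Additive κ.ker →+ K) = (k - 2) * Fintype.card Q + 1 +
      cork K w (κ.comp (PresentedGroup.mk ({w} : Set (FreeGroup (Fin k))))) := by
  classical
  have e1 := finrank_ker w κ hs (1 : OR w →* Module.End K K)
  have hone : (1 : OR w →* Module.End K K).comp
    (PresentedGroup.mk ({w} : Set (FreeGroup (Fin k)))) = 1 := rfl
  rw [hone, finrank_self, mul_one, mul_one] at e1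
  have h2 := rank_add_cork K w (κ.comp (PresentedGroup.mk ({w} : Set (FreeGroup (Fin k)))))
  have h3 : finrank K (Z1 ((1 : OR w →* Module.End K K).comp κ.ker.subtype)) =
      finrank K (Additive κ.ker →+ K) :=
    (z1Equiv K ((1 : OR w →* Module.End K K).comp κ.ker.subtype) (fun g => rfl)).finrank_eq
  rw [h3] at e1
  have hn : 1 ≤ Fintype.card Q := Fintype.card_pos
  have h6 : k * Fintype.card Q = (k - 2) * Fintype.card Q + 2 * Fintype.card Q := by
    rw [← Nat.add_mul, Nat.sub_add_cancel hk]
  omega

/-- The chain rule. -/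
theorem cork_comp (K : Type) [Field K] {n k : ℕ} (w : FreeGroup (Fin n))
    (φ : FreeGroup (Fin n) →* FreeGroup (Fin k)) {Q : Type} [Group Q] [Fintype Q]
    (π : FreeGroup (Fin k) →* Q) : cork K w (π.comp φ) ≤ cork K (φ w) π := by
  have h1 : LinearMap.range (ev (ind π (1 : FreeGroup (Fin k) →* Module.End K K)) (φ w)) ≤
      LinearMap.range (ev (ind (π.comp φ) (1 : FreeGroup (Fin n) →* Module.End K K)) w) := by
    rintro _ ⟨v, rfl⟩
    refine ⟨fun i => coc (ind π (1 : FreeGroup (Fin k) →* Module.End K K)) v (φ (FreeGroup.of i)), ?_⟩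
    show coc (ind (π.comp φ) (1 : FreeGroup (Fin n) →* Module.End K K)) _ w =
      coc (ind π (1 : FreeGroup (Fin k) →* Module.End K K)) v (φ w)
    refine coc_unique (ind (π.comp φ) (1 : FreeGroup (Fin n) →* Module.End K K)) (coc _ _)
      (fun g => coc (ind π (1 : FreeGroup (Fin k) →* Module.End K K)) v (φ g)) (coc_mul _ _) ?_ ?_ w
    · intro g h
      show coc (ind π (1 : FreeGroup (Fin k) →* Module.End K K)) v (φ (g * h)) = _
      rw [map_mul, coc_mul]
      rfl
    · intro j
      rw [coc_of]
  have h2 := Submodule.finrank_mono h1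
  have h3 := rank_add_cork K w (π.comp φ)
  have h4 := rank_add_cork K (φ w) π
  omega

/-- Restriction along a homomorphism with dense image is injective. -/
theorem restr_inj {S G : Type} [Group S] [Group G] (a : S →* G) (ha : DenseHom a) (N : Subgroup G)
    (hNf : N.FiniteIndex) (q : ℕ) [Fact q.Prime] (χ : Additive N →+ ZMod q)
    (hχ : ∀ (y : S) (hy : a y ∈ N), χ (Additive.ofMul ⟨a y, hy⟩) = 0) : χ = 0 := by
  refine AddMonoidHom.ext fun x => ?_
  let χ' : N →* Multiplicative (ZMod q) :=
    MonoidHom.mk' (fun g => Multiplicative.ofAdd (χ (Additive.ofMul g))) (fun g h => by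
      rw [ofMul_mul, map_add, ofAdd_add])
  let U : Subgroup G := χ'.ker.map N.subtype
  have hU : U.FiniteIndex := by
    have hf : χ'.ker.FiniteIndex := inferInstance
    constructor
    rw [Subgroup.index_map_subtype]
    exact Nat.mul_ne_zero hf.index_ne_zero hNf.index_ne_zero
  obtain ⟨y, z, hz, hz'⟩ := ha.exists_mul U hU (Additive.toMul x : N)
  have h6 : (z : G) = (a y)⁻¹ * (Additive.toMul x : N) := hz'
  have hy : a y ∈ N := by
    have h5 : a y = (Additive.toMul x : N) * (z : G)⁻¹ := by
      rw [h6]
      group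
    rw [h5]
    exact N.mul_mem (Additive.toMul x : N).2 (N.inv_mem z.2)
  have h5 : x = Additive.ofMul (⟨a y, hy⟩ * z : N) := by
    apply Additive.toMul.injective
    apply Subtype.ext
    show ((Additive.toMul x : N) : G) = a y * z
    rw [h6, mul_inv_cancel_left]
  have h7 : χ (Additive.ofMul z) = 0 := hz
  rw [h5, ofMul_mul, map_add, hχ, h7, add_zero]
  rfl

/-- Restriction of homomorphisms for words of the same rank. -/
theorem restr_bij {k : ℕ} (hk : 2 ≤ k) (r w : FreeGroup (Fin k)) (φ : FreeGroup (Fin k) →* FreeGroup (Fin k))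
    (hφ : φ w = r) (a : OR w →* OR r)
    (ha : ∀ x, a (PresentedGroup.mk ({w} : Set (FreeGroup (Fin k))) x) =
      PresentedGroup.mk ({r} : Set (FreeGroup (Fin k))) (φ x))
    (hD : DenseHom a) (N : Subgroup (OR r)) (hN : N.Normal) (hNf : N.FiniteIndex) (q : ℕ) [hq : Fact q.Prime] :
    Function.Bijective (fun (χ : Additive N →+ ZMod q) =>
      χ.comp (MonoidHom.toAdditive (a.subgroupComap N))) := by
  classical
  have : Fintype (OR r ⧸ N) := Fintype.ofFinite _
  let κ : OR r →* OR r ⧸ N := QuotientGroup.mk' N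
  have hκ : Function.Surjective κ := QuotientGroup.mk'_surjective N
  have hκa : Function.Surjective (κ.comp a) := hD _ _ inferInstance κ hκ
  have e1 := b1_ker hk r κ hκ (ZMod q)
  have e2 := b1_ker hk w (κ.comp a) hκa (ZMod q)
  have e3 := cork_comp (ZMod q) w φ (κ.comp (PresentedGroup.mk ({r} : Set (FreeGroup (Fin k)))))
  have e4 : (κ.comp a).comp (PresentedGroup.mk ({w} : Set (FreeGroup (Fin k)))) =
      (κ.comp (PresentedGroup.mk ({r} : Set (FreeGroup (Fin k))))).comp φ := by
    apply MonoidHom.ext
    intro x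
    exact congrArg κ (ha x)
  rw [e4] at e2
  rw [hφ] at e3
  have h5 : κ.ker = N := QuotientGroup.ker_mk' N
  have h6 : (κ.comp a).ker = N.comap a := by
    ext x
    show κ (a x) = 1 ↔ a x ∈ N
    exact QuotientGroup.eq_one_iff (a x)
  rw [h5] at e1
  rw [h6] at e2
  let ρ : (Additive N →+ ZMod q) →ₗ[ZMod q] (Additive (N.comap a) →+ ZMod q) :=
    { toFun := fun χ => χ.comp (MonoidHom.toAdditive (a.subgroupComap N))
      map_add' := fun _ _ => rfl
      map_smul' := fun _ _ => rfl }
  have hinj : Function.Injective ρ := by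
    rw [injective_iff_map_eq_zero]
    intro χ hχ
    exact restr_inj a hD N hNf q χ fun y hy =>
      DFunLike.congr_fun hχ (Additive.ofMul (⟨y, hy⟩ : N.comap a))
  have f1 : FiniteDimensional (ZMod q) (Additive N →+ ZMod q) :=
    Module.finite_of_finrank_pos (by omega)
  have f2 : FiniteDimensional (ZMod q) (Additive (N.comap a) →+ ZMod q) :=
    Module.finite_of_finrank_pos (by omega)
  have h7 := LinearMap.finrank_le_finrank_of_injective hinj
  exact ⟨hinj, (LinearMap.injective_iff_surjective_of_finrank_eq_finrank (by omega)).1 hinj⟩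

end Pool.Agent.MelD
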