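import Pool.Agent.MelD.Emb3
import Pool.Agent.MelD.Emb6

/-!
# The non orientable surface subgroup

`inj_of_chars`: the general form of the injectivity argument.
`nchar`: characters of the cyclic covers of the non orientable surface group `x_0 ^ 2 x_1 ^ 2 ... = 1`,
`x_0 ↦ 1`, `x_1 ↦ -1`, `x_i ↦ 0` for the others.
-/

open Finset Module

namespace Pool.Agent.MelD

open Pool.Agent.MelG (HasRel)

/-- The general injectivity argument. -/
theorem inj_of_chars {k : ℕ} (hk : 2 ≤ k) (r : FreeGroup (Fin k)) (hr1 : r ≠ 1) (m : ℕ)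
    (H : ∀ N : Subgroup (OR r), N.Normal → N.FiniteIndex → HasRel m N)
    {S : Type} [Group S] (a : S →* OR r) (p : ℕ) [hp : Fact p.Prime]
    (hres : ∀ N : Subgroup (OR r), N.Normal → N.FiniteIndex →
      Function.Surjective (fun (χ : Additive N →+ ZMod p) => χ.comp (MonoidHom.toAdditive (a.subgroupComap N))))
    (Θ : OR r →* Multiplicative ℤ) (g₀ : OR r) (h0 : Θ g₀ = Multiplicative.ofAdd 1)
    {ι : Type} (y : ι → S) (hker : (Θ.comp a).ker = Subgroup.closure (Set.range y))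
    (hchar : ∀ (s : Finset ι) (v : ι → ZMod p), ∃ L : ℕ, L ≠ 0 ∧ ∃ F : S → Multiplicative (ZMod p),
      (∀ g h, ((Multiplicative.toAdd (Θ (a g)) : ℤ) : ZMod L) = 0 → F (g * h) = F g * F h) ∧
      ∀ i ∈ s, F (y i) = Multiplicative.ofAdd (v i)) : Function.Injective a := by
  classical
  let π : S →* Multiplicative ℤ := Θ.comp a
  have hmem : ∀ i, π (y i) = 1 := by
    intro i
    have h1 : y i ∈ (Θ.comp a).ker := by
      rw [hker]
      exact Subgroup.subset_closure ⟨i, rfl⟩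
    exact h1
  let Y : ι → Θ.ker := fun i => ⟨a (y i), hmem i⟩
  have hinj : Function.Injective (FreeGroup.lift Y) := by
    refine free_of_indep' hk r hr1 m H Θ.ker (ker_closed Θ) (ker_inf Θ _ h0) p Y ?_
    intro s v
    obtain ⟨L, hL0, F, hF, hFy⟩ := hchar s v
    have hL : NeZero L := ⟨hL0⟩
    let ρ : OR r →* Multiplicative (ZMod L) := (AddMonoidHom.toMultiplicative (Int.castAddHom (ZMod L))).comp Θ
    have hρ : ∀ g, ρ g = 1 ↔ ((Multiplicative.toAdd (Θ g) : ℤ) : ZMod L) = 0 := fun g => Iff.rfl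
    have hfin : ρ.ker.FiniteIndex := inferInstance
    let χ' : Additive (ρ.ker.comap a) →+ ZMod p :=
      AddMonoidHom.mk' (fun g => Multiplicative.toAdd (F (Additive.toMul g : ρ.ker.comap a))) (fun g h => by
        show Multiplicative.toAdd (F ((Additive.toMul g : ρ.ker.comap a) * (Additive.toMul h : ρ.ker.comap a))) = _
        rw [hF _ _ ((hρ _).1 (Additive.toMul g : ρ.ker.comap a).2), toAdd_mul])
    obtain ⟨χ, hχ⟩ := hres ρ.ker inferInstance hfin χ'
    have hle : ∀ g ∈ Θ.ker, g ∈ ρ.ker := by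
      intro g hg
      show AddMonoidHom.toMultiplicative (Int.castAddHom (ZMod L)) (Θ g) = 1
      rw [MonoidHom.mem_ker.1 hg, map_one]
    refine ⟨MonoidHom.mk' (fun g => Multiplicative.ofAdd (χ (Additive.ofMul ⟨g.1, hle g.1 g.2⟩))) ?_, ?_⟩
    · intro g h
      rw [← ofAdd_add, ← map_add]
      rfl
    · intro i hi
      have h1 : χ (Additive.ofMul ⟨a (y i), hle _ (hmem i)⟩) = Multiplicative.toAdd (F (y i)) :=
        DFunLike.congr_fun hχ (Additive.ofMul (⟨y i, hle _ (hmem i)⟩ : ρ.ker.comap a))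
      show Multiplicative.ofAdd (χ (Additive.ofMul ⟨a (y i), hle _ (hmem i)⟩)) = _
      rw [h1, ofAdd_toAdd, hFy i hi]
  rw [injective_iff_map_eq_one]
  intro g hg
  have h1 : g ∈ (Θ.comp a).ker := by
    show Θ (a g) = 1
    rw [hg, map_one]
  rw [hker, ← FreeGroup.range_lift_eq_closure] at h1
  obtain ⟨f, rfl⟩ := h1
  have h2 : FreeGroup.lift Y f = 1 := by
    apply Subtype.ext
    rw [Subgroup.coe_one, ← hg]
    have h3 : Θ.ker.subtype.comp (FreeGroup.lift Y) = a.comp (FreeGroup.lift y) := by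
      refine FreeGroup.ext_hom _ _ fun i => ?_
      simp only [MonoidHom.comp_apply, FreeGroup.lift_apply_of]
      rfl
    exact DFunLike.congr_fun h3 f
  have h3 : f = 1 := by
    apply hinj
    rw [h2, map_one]
  rw [h3, map_one]

/-- Functions on `ZMod L` with prescribed values at the classes of finitely many integers. -/
theorem exists_fun {ι D : Type} [One D] (s : Finset ι) (j : ι → ℤ) (v : ι → D)
    (β : Type) (b : ι → β) (hinj : ∀ i ∈ s, ∀ i' ∈ s, b i = b i' → j i = j i' → i = i') :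
    ∃ L : ℕ, L ≠ 0 ∧ ∃ f : β → ZMod L → D, ∀ i ∈ s, f (b i) ((j i : ℤ) : ZMod L) = v i := by
  classical
  let B : ℕ := s.sup (fun i => (j i).natAbs)
  have hB : ∀ i ∈ s, (j i).natAbs ≤ B := fun i h => Finset.le_sup (f := fun i => (j i).natAbs) h
  let L : ℕ := 2 * B + 1
  have key : ∀ j' j'' : ℤ, j'.natAbs ≤ B → j''.natAbs ≤ B →
      ((j' : ℤ) : ZMod L) = ((j'' : ℤ) : ZMod L) → j' = j'' := by
    intro j' j'' h1 h2 h3
    have h5 : ((j' - j'' : ℤ) : ZMod L) = 0 := by
      rw [Int.cast_sub, h3, sub_self]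
    rw [ZMod.intCast_zmod_eq_zero_iff_dvd] at h5
    have h6 := Int.eq_zero_of_abs_lt_dvd h5 (by
      rw [abs_lt]
      constructor <;> push_cast [L] <;> omega)
    omega
  refine ⟨L, by omega, fun c q => if h : ∃ i ∈ s, b i = c ∧ ((j i : ℤ) : ZMod L) = q then v h.choose else 1, ?_⟩
  intro i hi
  have h : ∃ i' ∈ s, b i' = b i ∧ ((j i' : ℤ) : ZMod L) = ((j i : ℤ) : ZMod L) := ⟨i, hi, rfl, rfl⟩
  show (if h : ∃ i' ∈ s, b i' = b i ∧ ((j i' : ℤ) : ZMod L) = ((j i : ℤ) : ZMod L) then v h.choose else 1) = v i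
  rw [dif_pos h]
  congr 1
  obtain ⟨h1, h2, h3⟩ := h.choose_spec
  exact hinj _ h1 _ hi h2 (key _ _ (hB _ h1) (hB _ hi) h3)

section non

variable (n : ℕ)

/-- the generators of the non orientable surface group -/
abbrev nx (i : Fin (n + 2)) : OR (nsurf (n + 2)) := PresentedGroup.of (rels := {nsurf (n + 2)}) i

/-- A homomorphism of the non orientable surface group. -/
theorem exists_nsurf_hom {B : Type} [Group B] (X : Fin (n + 2) → B)
    (h : (List.ofFn fun i => X i ^ 2).prod = 1) :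
    ∃ Ψ : OR (nsurf (n + 2)) →* B, ∀ i, Ψ (nx n i) = X i := by
  have h1 : ∀ t ∈ ({nsurf (n + 2)} : Set (FreeGroup (Fin (n + 2)))), FreeGroup.lift X t = 1 := by
    intro t ht
    rw [Set.mem_singleton_iff.1 ht]
    unfold nsurf
    rw [map_list_prod, List.map_ofFn, ← h]
    congr 2
    funext i
    simp only [Function.comp_apply, map_pow, FreeGroup.lift_apply_of]
  exact ⟨PresentedGroup.toGroup h1, fun i => by rw [PresentedGroup.toGroup.of]⟩

/-- Prescribed characters of the cyclic covers of the surface. -/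
theorem ncyc_char (D : Type) [CommGroup D] (hD : ∀ d : D, d * d = 1) (L : ℕ) (c : D) (f : Fin n → ZMod L → D)
    (π : OR (nsurf (n + 2)) →* Multiplicative ℤ) (h0 : π (nx n 0) = Multiplicative.ofAdd 1)
    (h1 : π (nx n 1) = Multiplicative.ofAdd (-1)) (hx : ∀ i : Fin n, π (nx n i.succ.succ) = 1) :
    ∃ F : OR (nsurf (n + 2)) → D,
      (∀ g h, ((Multiplicative.toAdd (π g) : ℤ) : ZMod L) = 0 → F (g * h) = F g * F h) ∧
      F (nx n 0 * nx n 1) = c ∧
      ∀ (i : Fin n) (j : ℤ), F (nx n 0 ^ j * nx n i.succ.succ * (nx n 0 ^ j)⁻¹) = f i (-j) := by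
  let t : D ≀ᵣ Multiplicative (ZMod L) := RegularWreathProduct.inl (Multiplicative.ofAdd 1)
  let z : D ≀ᵣ Multiplicative (ZMod L) := ⟨fun _ => c, 1⟩
  let X : Fin (n + 2) → D ≀ᵣ Multiplicative (ZMod L) :=
    Fin.cases t (Fin.cases (t⁻¹ * z) (fun i => ⟨fun q => f i (Multiplicative.toAdd q), 1⟩))
  have hsq : ∀ g : Multiplicative (ZMod L) → D, (⟨g, 1⟩ : D ≀ᵣ Multiplicative (ZMod L)) ^ 2 = 1 := by
    intro g
    rw [pow_two]
    apply RegularWreathProduct.ext
    · funext q
      simp [hD]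
    · simp
  have htz : t * z = z * t := by
    apply RegularWreathProduct.ext
    · funext q
      simp [t, z]
    · simp [t, z]
  have hz : z * z = 1 := by
    rw [← pow_two]
    exact hsq _
  have hX : (List.ofFn fun i => X i ^ 2).prod = 1 := by
    rw [List.ofFn_succ, List.prod_cons, List.ofFn_succ, List.prod_cons]
    have e1 : (List.ofFn fun i : Fin n => X i.succ.succ ^ 2).prod = 1 := by
      refine List.prod_eq_one ?_
      intro y hy
      rw [List.mem_ofFn] at hy
      obtain ⟨i, rfl⟩ := hy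
      exact hsq _
    rw [e1, mul_one]
    show t ^ 2 * (t⁻¹ * z) ^ 2 = 1
    have e2 : t ^ 2 * (t⁻¹ * z) ^ 2 = (t * z) * t⁻¹ * z := by
      rw [pow_two, pow_two]
      group
    rw [e2, htz, mul_inv_cancel_right, hz]
  obtain ⟨Ψ, hΨ⟩ := exists_nsurf_hom n X hX
  have e0 : Ψ (nx n 0) = t := hΨ 0
  have e1 : Ψ (nx n 1) = t⁻¹ * z := hΨ 1
  have e2 : ∀ i : Fin n, Ψ (nx n i.succ.succ) = ⟨fun q => f i (Multiplicative.toAdd q), 1⟩ := fun i => hΨ i.succ.succ
  have hr : RegularWreathProduct.rightHom.comp Ψ =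
      (AddMonoidHom.toMultiplicative (Int.castAddHom (ZMod L))).comp π := by
    refine PresentedGroup.ext fun j => ?_
    refine Fin.cases ?_ (Fin.cases ?_ (fun i => ?_)) j
    · show RegularWreathProduct.rightHom (Ψ (nx n 0)) = AddMonoidHom.toMultiplicative (Int.castAddHom (ZMod L)) (π (nx n 0))
      rw [e0, h0]
      show Multiplicative.ofAdd (1 : ZMod L) = Multiplicative.ofAdd ((1 : ℤ) : ZMod L)
      rw [Int.cast_one]
    · show RegularWreathProduct.rightHom (Ψ (nx n 1)) = AddMonoidHom.toMultiplicative (Int.castAddHom (ZMod L)) (π (nx n 1))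
      rw [e1, h1, map_mul, map_inv]
      show (Multiplicative.ofAdd (1 : ZMod L))⁻¹ * 1 = Multiplicative.ofAdd ((-1 : ℤ) : ZMod L)
      rw [mul_one, Int.cast_neg, Int.cast_one, ofAdd_neg]
    · show RegularWreathProduct.rightHom (Ψ (nx n i.succ.succ)) = AddMonoidHom.toMultiplicative (Int.castAddHom (ZMod L)) (π (nx n i.succ.succ))
      rw [e2, hx, map_one]
      rfl
  have hr' : ∀ g, (Ψ g).right = Multiplicative.ofAdd (((Multiplicative.toAdd (π g) : ℤ) : ZMod L)) :=
    fun g => DFunLike.congr_fun hr g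
  refine ⟨fun g => (Ψ g).left 1, fun g h hg => ?_, ?_, fun i j => ?_⟩
  · show (Ψ (g * h)).left 1 = _
    rw [map_mul, mul_left_one _ _ (by rw [hr' g, hg]; rfl)]
  · show (Ψ (nx n 0 * nx n 1)).left 1 = c
    rw [map_mul, e0, e1, mul_inv_cancel_left]
  · show (Ψ (nx n 0 ^ j * nx n i.succ.succ * (nx n 0 ^ j)⁻¹)).left 1 = _
    rw [map_mul, map_mul, map_inv, map_zpow, e0, e2]
    show (t ^ j * ⟨fun q => f i (Multiplicative.toAdd q), 1⟩ * (t ^ j)⁻¹).left 1 = _
    rw [← map_zpow, conj_left]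
    show f i (Multiplicative.toAdd ((Multiplicative.ofAdd (1 : ZMod L)) ^ j)⁻¹) = _
    rw [toAdd_inv, toAdd_zpow, toAdd_ofAdd, zsmul_eq_mul, mul_one]

/-- the generators of the kernel -/
def ngY : Option (Fin n × ℤ) → OR (nsurf (n + 2))
  | none => nx n 0 * nx n 1
  | some (i, j) => nx n 0 ^ j * nx n i.succ.succ * (nx n 0 ^ j)⁻¹

end non

end Pool.Agent.MelD
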