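import Pool.Agent.MelD.Emb5
import Pool.Agent.MelD.Emb7

/-!
# Words of the same rank, non orientable surfaces

`same_rank`: `w ∈ [F_k, F_k] F_k ^ p` (`p = 0` or a prime), `r = φ w ≠ 1`, `φ : F_k → F_k`: the homomorphism
`a : G_w → G_r` is onto modulo all finite quotients, and the finite solvable quotients of the finite index normal
subgroups correspond.
`nonorient_main`: `r` a product of `k` squares in the free group of rank `k`: the non orientable surface group
of genus `k` is a dense subgroup of `G_r`.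
-/

open Finset Module

namespace Pool.Agent.MelD

open Pool.Agent.MelG (HasRel)

/-- The solvable quotients correspond. -/
def SolvIso {S G : Type} [Group S] [Group G] (a : S →* G) : Prop :=
  ∀ (N : Subgroup G), N.Normal → N.FiniteIndex → ∀ (U : Subgroup S), U.Normal →
    U.FiniteIndex → U ≤ N.comap a → ∀ d : ℕ, (derivedSeries (N.comap a) d).map (N.comap a).subtype ≤ U →
    ∃ N' ≤ N, N'.Normal ∧ N'.FiniteIndex ∧ N'.comap a = U

theorem same_rank {k : ℕ} (hk : 2 ≤ k) (r w : FreeGroup (Fin k)) (φ : FreeGroup (Fin k) →* FreeGroup (Fin k))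
    (hφ : φ w = r) (hr1 : r ≠ 1) (m : ℕ)
    (H : ∀ N : Subgroup (OR r), N.Normal → N.FiniteIndex → HasRel m N)
    (p : ℕ) (hp : p = 0 ∨ p.Prime) (hw : w ∈ VT p (⊤ : Subgroup (FreeGroup (Fin k)))) :
    ∃ a : OR w →* OR r,
      (∀ x, a (PresentedGroup.mk ({w} : Set (FreeGroup (Fin k))) x) =
        PresentedGroup.mk ({r} : Set (FreeGroup (Fin k))) (φ x)) ∧
      DenseHom a ∧
      (∀ (N : Subgroup (OR r)) (_ : N.Normal) (_ : N.FiniteIndex) (q : ℕ) (_ : Fact q.Prime),
        Function.Bijective (fun (χ : Additive N →+ ZMod q) => χ.comp (MonoidHom.toAdditive (a.subgroupComap N)))) ∧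
      SolvIso a := by
  have h0 : ((PresentedGroup.mk ({r} : Set (FreeGroup (Fin k)))).comp φ) w = 1 := by
    show PresentedGroup.mk {r} (φ w) = 1
    rw [hφ]
    exact PresentedGroup.one_of_mem (Set.mem_singleton r)
  obtain ⟨a, ha⟩ := exists_desc w _ h0
  have ha' : ∀ x, a (PresentedGroup.mk ({w} : Set (FreeGroup (Fin k))) x) =
      PresentedGroup.mk ({r} : Set (FreeGroup (Fin k))) (φ x) :=
    fun x => DFunLike.congr_fun ha x
  have hrφ : r ∈ VT p φ.range := by
    have h2 : φ w ∈ (VT p (⊤ : Subgroup (FreeGroup (Fin k)))).map φ := ⟨_, hw, rfl⟩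
    rw [VT_map, ← MonoidHom.range_eq_map, hφ] at h2
    exact h2
  have hD : DenseHom a := by
    refine dense_of_VT hk r hr1 m H p hp a (VT_mono p ?_ hrφ)
    rintro _ ⟨x, rfl⟩
    exact ⟨PresentedGroup.mk {w} x, ha' x⟩
  have hb : ∀ (N : Subgroup (OR r)) (_ : N.Normal) (_ : N.FiniteIndex) (q : ℕ) (_ : Fact q.Prime),
      Function.Bijective (fun (χ : Additive N →+ ZMod q) => χ.comp (MonoidHom.toAdditive (a.subgroupComap N))) :=
    fun N hN hNf q hq => restr_bij hk r w φ hφ a ha' hD N hN hNf q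
  refine ⟨a, ha', hD, hb, ?_⟩
  intro N hN hNf U hU hUf hle d hd
  exact solv_comap a hD (fun N hN hNf p hp => (hb N hN hNf p ⟨hp⟩).2) U hU hUf d _ N hN hNf hle le_rfl hd

/-- Density modulo the elementary abelian quotients of the free group. -/
theorem dens_eab {k : ℕ} (hk : 2 ≤ k) (r : FreeGroup (Fin k)) (hr1 : r ≠ 1) (m : ℕ)
    (H : ∀ N : Subgroup (OR r), N.Normal → N.FiniteIndex → HasRel m N) (p : ℕ)
    (hp : p = 0 ∨ p.Prime) (T : Subgroup (FreeGroup (Fin k))) (hT : r ∈ VT p T) (q : ℕ) (hq : q.Prime) :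
    T.map (eab k q) = ⊤ := by
  have : Fact q.Prime := ⟨hq⟩
  have : Finite (Multiplicative (Fin k → ZMod q)) := (inferInstance : Finite (Fin k → ZMod q))
  let Z : Subgroup (Multiplicative (Fin k → ZMod q)) := Subgroup.zpowers (eab k q r)
  have : Fintype (Multiplicative (Fin k → ZMod q) ⧸ Z) := Fintype.ofFinite _
  have h1 := dens hk r hr1 m H p hp T hT ((QuotientGroup.mk' Z).comp (eab k q))
    ((QuotientGroup.mk'_surjective Z).comp (eab_surj k q))
    ((QuotientGroup.eq_one_iff _).2 (Subgroup.mem_zpowers _))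
  rw [eq_top_iff]
  intro v _
  have h2 : QuotientGroup.mk' Z v ∈ T.map ((QuotientGroup.mk' Z).comp (eab k q)) := by
    rw [h1]
    exact Subgroup.mem_top _
  obtain ⟨t, ht, h3⟩ := h2
  have h4 : (eab k q t)⁻¹ * v ∈ Z := QuotientGroup.eq.1 h3
  obtain ⟨j, hj⟩ := Subgroup.mem_zpowers_iff.1 h4
  refine ⟨t * r ^ j, T.mul_mem ht (T.zpow_mem (VT_le p T hT) j), ?_⟩
  rw [map_mul, map_zpow, hj, mul_inv_cancel_left]

theorem nsurf_inj {n : ℕ} (r : FreeGroup (Fin (n + 2))) (hr1 : r ≠ 1) (m : ℕ)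
    (H : ∀ N : Subgroup (OR r), N.Normal → N.FiniteIndex → HasRel m N)
    (a : OR (nsurf (n + 2)) →* OR r)
    (hres : ∀ N : Subgroup (OR r), N.Normal → N.FiniteIndex →
      Function.Surjective (fun (χ : Additive N →+ ZMod 2) => χ.comp (MonoidHom.toAdditive (a.subgroupComap N))))
    (Θ : OR r →* Multiplicative ℤ)
    (h0 : Θ (a (nx n 0)) = Multiplicative.ofAdd 1) (h1 : Θ (a (nx n 1)) = Multiplicative.ofAdd (-1))
    (hx : ∀ i : Fin n, Θ (a (nx n i.succ.succ)) = 1)
    (hker : (Θ.comp a).ker = Subgroup.closure (Set.range (ngY n))) : Function.Injective a := by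
  classical
  have hp : Fact (Nat.Prime 2) := ⟨Nat.prime_two⟩
  refine inj_of_chars (by omega) r hr1 m H a 2 hres Θ _ h0 (ngY n) hker ?_
  intro s v
  obtain ⟨L, hL, f, hf⟩ := exists_fun s (fun i : Option (Fin n × ℤ) => match i with
    | none => 0
    | some (_, j) => -j) (fun i => Multiplicative.ofAdd (v i)) (Option (Fin n)) (fun i => i.map Prod.fst) (by
      intro i _ i' _ h2 h3
      match i, i', h2, h3 with
      | none, none, _, _ => rfl
      | none, some (_, _), h2, _ => exact absurd h2 (by simp)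
      | some (_, _), none, h2, _ => exact absurd h2 (by simp)
      | some (i, j), some (i', j'), h2, h3 =>
        have h4 : i = i' := by simpa using h2
        have h5 : j = j' := neg_injective h3
        rw [h4, h5])
  obtain ⟨F, hF, hF0, hFx⟩ := ncyc_char n (Multiplicative (ZMod 2)) (fun d => by
    show Multiplicative.ofAdd (Multiplicative.toAdd d + Multiplicative.toAdd d) = 1
    rw [CharTwo.add_self_eq_zero]
    rfl) L (Multiplicative.ofAdd (v none)) (fun i => f (some i)) (Θ.comp a) h0 h1 hx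
  refine ⟨L, hL, F, hF, ?_⟩
  intro i hi
  match i, hi with
  | none, _ => exact hF0
  | some (i, j), hi =>
    show F (nx n 0 ^ j * nx n i.succ.succ * (nx n 0 ^ j)⁻¹) = _
    have h2 := hf (some (i, j)) hi
    rw [hFx, ← h2]
    show f (some i) (-(j : ZMod L)) = f (some i) (((-j : ℤ)) : ZMod L)
    rw [Int.cast_neg]

end Pool.Agent.MelD
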