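import Pool.Agent.MelD.KerSurf

/-!
# The kernel of a standard epimorphism of a non orientable surface group onto `ℤ`

Let `S` be generated by `x_0, ..., x_(n+1)` with `∏ x_i ^ 2 = 1`, and `π : S → ℤ` with `π x_0 = 1`, `π x_1 = -1`, `π = 0` on the
other generators. Then `ker π` is generated by `x_0 x_1` and the elements `x_0 ^ j x_i x_0 ^ -j`, `i ≥ 2`.
-/

set_option autoImplicit false

namespace Pool.Agent.MelD

namespace KerNSurf

variable {S : Type*} [Group S]

/-- the generators of the kernel -/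
def ngens {n : ℕ} (x : Fin (n + 2) → S) : Set S :=
  {g | g = x 0 * x 1 ∨ ∃ (j : ℤ) (i : Fin n), g = x 0 ^ j * x i.succ.succ * (x 0 ^ j)⁻¹}

theorem ngens_z {n : ℕ} (x : Fin (n + 2) → S) : x 0 * x 1 ∈ ngens x := Or.inl rfl

theorem ngens_X {n : ℕ} (x : Fin (n + 2) → S) (j : ℤ) (i : Fin n) :
    x 0 ^ j * x i.succ.succ * (x 0 ^ j)⁻¹ ∈ ngens x := Or.inr ⟨j, i, rfl⟩

/-- the conjugates of the product of the other squares -/
theorem tail_mem {n : ℕ} (x : Fin (n + 2) → S) (j : ℤ) :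
    x 0 ^ j * (List.ofFn fun i : Fin n => x i.succ.succ ^ 2).prod * (x 0 ^ j)⁻¹ ∈ Subgroup.closure (ngens x) := by
  have e : x 0 ^ j * (List.ofFn fun i : Fin n => x i.succ.succ ^ 2).prod * (x 0 ^ j)⁻¹ =
      (List.ofFn fun i : Fin n => (x 0 ^ j * x i.succ.succ * (x 0 ^ j)⁻¹) ^ 2).prod := by
    have h1 := map_list_prod (MulAut.conj (x 0 ^ j)).toMonoidHom (List.ofFn fun i : Fin n => x i.succ.succ ^ 2)
    have h2 : (MulAut.conj (x 0 ^ j)).toMonoidHom (List.ofFn fun i : Fin n => x i.succ.succ ^ 2).prod =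
      x 0 ^ j * (List.ofFn fun i : Fin n => x i.succ.succ ^ 2).prod * (x 0 ^ j)⁻¹ := rfl
    rw [← h2, h1, List.map_ofFn]
    congr 2
    funext i
    show x 0 ^ j * (x i.succ.succ ^ 2) * (x 0 ^ j)⁻¹ = _
    rw [conj_pow]
  rw [e]
  refine list_prod_mem _ _ fun i => ?_
  exact Subgroup.pow_mem _ (Subgroup.subset_closure (ngens_X x j i)) 2

/-- the relation in terms of `t = x_0`, `z = x_0 x_1` -/
theorem rel_tz {n : ℕ} (x : Fin (n + 2) → S) (hrel : (List.ofFn fun i => x i ^ 2).prod = 1) :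
    x 0 * (x 0 * x 1) * (x 0)⁻¹ * (x 0 * x 1) * (List.ofFn fun i : Fin n => x i.succ.succ ^ 2).prod = 1 := by
  rw [List.ofFn_succ, List.ofFn_succ, List.prod_cons, List.prod_cons] at hrel
  rw [← hrel]
  have e : x (Fin.succ 0) = x 1 := rfl
  rw [e, pow_two, pow_two]
  group

/-- conjugation by `x_0` and its inverse -/
theorem conj_mem {n : ℕ} (x : Fin (n + 2) → S) (hrel : (List.ofFn fun i => x i ^ 2).prod = 1) (g : S)
    (hg : g ∈ Subgroup.closure (ngens x)) :
    x 0 * g * (x 0)⁻¹ ∈ Subgroup.closure (ngens x) ∧ (x 0)⁻¹ * g * x 0 ∈ Subgroup.closure (ngens x) := by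
  have h0 := rel_tz x hrel
  have t0 := tail_mem x 0
  have t1 := tail_mem x (-1)
  set R := (List.ofFn fun i : Fin n => x i.succ.succ ^ 2).prod with hR
  set z := x 0 * x 1 with hz
  rw [zpow_zero, one_mul, inv_one, mul_one] at t0
  have hzm : z ∈ Subgroup.closure (ngens x) := Subgroup.subset_closure (ngens_z x)
  induction hg using Subgroup.closure_induction with
  | mem g hg =>
    rcases hg with hg | ⟨j, i, rfl⟩
    · rw [hg, ← hz]
      constructor
      · have e : x 0 * z * (x 0)⁻¹ = R⁻¹ * z⁻¹ := by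
          have h1 : x 0 * z * (x 0)⁻¹ * (z * R) = 1 := by
            rw [← h0]
            group
          rw [eq_inv_of_mul_eq_one_left h1, mul_inv_rev]
        rw [e]
        exact Subgroup.mul_mem _ (Subgroup.inv_mem _ t0) (Subgroup.inv_mem _ hzm)
      · have e : (x 0)⁻¹ * z * x 0 = z⁻¹ * (x 0 ^ (-1 : ℤ) * R * (x 0 ^ (-1 : ℤ))⁻¹)⁻¹ := by
          have h1 : (x 0)⁻¹ * R * x 0 * z * ((x 0)⁻¹ * z * x 0) = 1 := by
            have h2 : z * R * (x 0 * z * (x 0)⁻¹) = 1 := by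
              have h3 : x 0 * z * (x 0)⁻¹ * (z * R) = 1 := by
                rw [← h0]
                group
              have h4 := eq_inv_of_mul_eq_one_left h3
              rw [h4, mul_inv_cancel]
            have h5 : R * (x 0 * z * (x 0)⁻¹) * z = 1 := by
              calc R * (x 0 * z * (x 0)⁻¹) * z = z⁻¹ * (z * R * (x 0 * z * (x 0)⁻¹)) * z := by group
                _ = 1 := by rw [h2]; group
            calc (x 0)⁻¹ * R * x 0 * z * ((x 0)⁻¹ * z * x 0)
                = (x 0)⁻¹ * (R * (x 0 * z * (x 0)⁻¹) * z) * x 0 := by group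
              _ = 1 := by rw [h5]; group
          have h6 : (x 0)⁻¹ * z * x 0 = ((x 0)⁻¹ * R * x 0 * z)⁻¹ := eq_inv_of_mul_eq_one_right h1
          rw [h6, mul_inv_rev]
          congr 2
          rw [zpow_neg, zpow_one, inv_inv]
        rw [e]
        exact Subgroup.mul_mem _ (Subgroup.inv_mem _ hzm) (Subgroup.inv_mem _ t1)
    · constructor
      · have h1 := Subgroup.subset_closure (k := ngens x) (ngens_X x (1 + j) i)
        rw [zpow_add, zpow_one, mul_inv_rev] at h1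
        have e : x 0 * (x 0 ^ j * x i.succ.succ * (x 0 ^ j)⁻¹) * (x 0)⁻¹ =
            x 0 * x 0 ^ j * x i.succ.succ * ((x 0 ^ j)⁻¹ * (x 0)⁻¹) := by
          group
        rw [e]
        exact h1
      · have h1 := Subgroup.subset_closure (k := ngens x) (ngens_X x (-1 + j) i)
        have e : (x 0)⁻¹ * (x 0 ^ j * x i.succ.succ * (x 0 ^ j)⁻¹) * x 0 =
            x 0 ^ (-1 + j) * x i.succ.succ * (x 0 ^ (-1 + j))⁻¹ := by
          rw [zpow_add, zpow_neg, zpow_one]
          group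
        rw [e]
        exact h1
  | one =>
    constructor
    · rw [mul_one, mul_inv_cancel]
      exact Subgroup.one_mem _
    · rw [mul_one, inv_mul_cancel]
      exact Subgroup.one_mem _
  | mul a b _ _ iha ihb =>
    constructor
    · have e : x 0 * (a * b) * (x 0)⁻¹ = (x 0 * a * (x 0)⁻¹) * (x 0 * b * (x 0)⁻¹) := by group
      rw [e]
      exact Subgroup.mul_mem _ iha.1 ihb.1
    · have e : (x 0)⁻¹ * (a * b) * x 0 = ((x 0)⁻¹ * a * x 0) * ((x 0)⁻¹ * b * x 0) := by group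
      rw [e]
      exact Subgroup.mul_mem _ iha.2 ihb.2
  | inv a _ iha =>
    constructor
    · have e : x 0 * a⁻¹ * (x 0)⁻¹ = (x 0 * a * (x 0)⁻¹)⁻¹ := by group
      rw [e]
      exact Subgroup.inv_mem _ iha.1
    · have e : (x 0)⁻¹ * a⁻¹ * x 0 = ((x 0)⁻¹ * a * x 0)⁻¹ := by group
      rw [e]
      exact Subgroup.inv_mem _ iha.2

theorem zconj_mem {n : ℕ} (x : Fin (n + 2) → S) (hrel : (List.ofFn fun i => x i ^ 2).prod = 1) (j : ℤ) (g : S)
    (hg : g ∈ Subgroup.closure (ngens x)) : x 0 ^ j * g * (x 0 ^ j)⁻¹ ∈ Subgroup.closure (ngens x) := by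
  induction j using Int.induction_on with
  | zero =>
    rw [zpow_zero, one_mul, inv_one, mul_one]
    exact hg
  | succ j ih =>
    have h1 := (conj_mem x hrel _ ih).1
    have e : x 0 ^ ((j : ℤ) + 1) * g * (x 0 ^ ((j : ℤ) + 1))⁻¹ = x 0 * (x 0 ^ (j : ℤ) * g * (x 0 ^ (j : ℤ))⁻¹) * (x 0)⁻¹ := by
      rw [show (j : ℤ) + 1 = 1 + (j : ℤ) by ring, zpow_add, zpow_one]
      group
    rw [e]
    exact h1
  | pred j ih =>
    have h1 := (conj_mem x hrel _ ih).2
    have e : x 0 ^ (-(j : ℤ) - 1) * g * (x 0 ^ (-(j : ℤ) - 1))⁻¹ =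
        (x 0)⁻¹ * (x 0 ^ (-(j : ℤ)) * g * (x 0 ^ (-(j : ℤ)))⁻¹) * x 0 := by
      rw [show -(j : ℤ) - 1 = -1 + -(j : ℤ) by ring, zpow_add (x 0) (-1), zpow_neg (x 0) 1, zpow_one]
      group
    rw [e]
    exact h1

/-- every element is a power of `x_0` times an element of the subgroup -/
theorem decomp {n : ℕ} (x : Fin (n + 2) → S) (hgen : Subgroup.closure (Set.range x) = ⊤)
    (hrel : (List.ofFn fun i => x i ^ 2).prod = 1) (g : S) :
    ∃ k ∈ Subgroup.closure (ngens x), ∃ j : ℤ, g = k * x 0 ^ j := by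
  have hg : g ∈ Subgroup.closure (Set.range x) := by
    rw [hgen]
    exact Subgroup.mem_top g
  induction hg using Subgroup.closure_induction with
  | mem g hg =>
    obtain ⟨i, rfl⟩ := hg
    refine Fin.cases ?_ (fun i => ?_) i
    · exact ⟨1, Subgroup.one_mem _, 1, by rw [one_mul, zpow_one]⟩
    · refine Fin.cases ?_ (fun i => ?_) i
      · have hz := (conj_mem x hrel _ (Subgroup.subset_closure (ngens_z x))).2
        refine ⟨_, hz, -1, ?_⟩
        show x 1 = (x 0)⁻¹ * (x 0 * x 1) * x 0 * x 0 ^ (-1 : ℤ)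
        rw [zpow_neg, zpow_one]
        group
      · have h1 := Subgroup.subset_closure (k := ngens x) (ngens_X x 0 i)
        rw [zpow_zero, one_mul, inv_one, mul_one] at h1
        exact ⟨x i.succ.succ, h1, 0, by rw [zpow_zero, mul_one]⟩
  | one => exact ⟨1, Subgroup.one_mem _, 0, by rw [zpow_zero, mul_one]⟩
  | mul a b _ _ iha ihb =>
    obtain ⟨k, hk, j, rfl⟩ := iha
    obtain ⟨k', hk', j', rfl⟩ := ihb
    refine ⟨k * (x 0 ^ j * k' * (x 0 ^ j)⁻¹), Subgroup.mul_mem _ hk (zconj_mem x hrel j k' hk'), j + j', ?_⟩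
    rw [zpow_add]
    group
  | inv a _ iha =>
    obtain ⟨k, hk, j, rfl⟩ := iha
    refine ⟨x 0 ^ (-j) * k⁻¹ * (x 0 ^ (-j))⁻¹, zconj_mem x hrel (-j) k⁻¹ (Subgroup.inv_mem _ hk), -j, ?_⟩
    rw [zpow_neg]
    group

/-- **THE KERNEL** -/
theorem ker_eq {n : ℕ} (x : Fin (n + 2) → S) (hgen : Subgroup.closure (Set.range x) = ⊤)
    (hrel : (List.ofFn fun i => x i ^ 2).prod = 1) (π : S →* Multiplicative ℤ)
    (h0 : π (x 0) = Multiplicative.ofAdd 1) (h1 : π (x 1) = Multiplicative.ofAdd (-1))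
    (hx : ∀ i : Fin n, π (x i.succ.succ) = 1) : π.ker = Subgroup.closure (ngens x) := by
  have h2 : Subgroup.closure (ngens x) ≤ π.ker := by
    rw [Subgroup.closure_le]
    rintro g (rfl | ⟨j, i, rfl⟩)
    · show π _ = 1
      rw [map_mul, h0, h1, ← ofAdd_add, add_neg_cancel, ofAdd_zero]
    · show π _ = 1
      rw [map_mul, map_mul, map_inv, hx i, mul_one, mul_inv_cancel]
  refine le_antisymm (fun g hg => ?_) h2
  obtain ⟨k, hk, j, rfl⟩ := decomp x hgen hrel g
  have h3 : π (k * x 0 ^ j) = 1 := hg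
  rw [map_mul, show π k = 1 from h2 hk, one_mul, map_zpow, h0, ← ofAdd_zsmul] at h3
  have h4 : j • (1 : ℤ) = 0 := Multiplicative.ofAdd.injective h3
  have h5 : j = 0 := by simpa using h4
  rw [h5, zpow_zero, mul_one]
  exact hk

theorem nsurf_rel (n : ℕ) : (List.ofFn fun i : Fin n => (PresentedGroup.of (rels := {nsurf n}) i) ^ 2).prod = 1 := by
  have h1 : PresentedGroup.mk ({nsurf n} : Set (FreeGroup (Fin n))) (nsurf n) = 1 :=
    PresentedGroup.one_of_mem (Set.mem_singleton _)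
  have h2 : PresentedGroup.mk ({nsurf n} : Set (FreeGroup (Fin n))) (List.ofFn fun i : Fin n =>
      FreeGroup.of i ^ 2).prod = 1 := h1
  rw [map_list_prod, List.map_ofFn] at h2
  exact h2

theorem nsurf_gen (n : ℕ) : Subgroup.closure
    (Set.range (fun i : Fin n => (PresentedGroup.of (rels := {nsurf n}) i))) = ⊤ :=
  PresentedGroup.closure_range_of ({nsurf n} : Set (FreeGroup (Fin n)))

/-- **THE KERNEL, non orientable surface group** -/
theorem ker_nsurf {n : ℕ} (π : OR (nsurf (n + 2)) →* Multiplicative ℤ)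
    (h0 : π (PresentedGroup.of 0) = Multiplicative.ofAdd 1)
    (h1 : π (PresentedGroup.of 1) = Multiplicative.ofAdd (-1))
    (hx : ∀ i : Fin n, π (PresentedGroup.of i.succ.succ) = 1) :
    π.ker = Subgroup.closure (ngens fun i => PresentedGroup.of (rels := {nsurf (n + 2)}) i) :=
  ker_eq _ (nsurf_gen (n + 2)) (nsurf_rel (n + 2)) π h0 h1 hx

end KerNSurf

end Pool.Agent.MelD
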