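import Pool.Agent.MelD.Emb8
import Pool.Agent.MelD.KerNSurf

/-!
# The minimal genus

The final theorems on products of commutators and of squares.
-/

open Finset Module
open scoped commutatorElement

namespace Pool.Agent.MelD

open Pool.Agent.MelG (HasRel)

/-- Every finitely generated subgroup is closed. -/
def IsLERF (G : Type) [Group G] : Prop := ∀ B : Subgroup G, B.FG → IsProClosed B

theorem nsurf_image {n k : ℕ} (u : Fin n → FreeGroup (Fin k)) :
    FreeGroup.lift u (nsurf n) = (List.ofFn fun i => u i ^ 2).prod := by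
  unfold nsurf
  rw [map_list_prod, List.map_ofFn]
  congr 2
  funext i
  simp only [Function.comp_apply, map_pow, FreeGroup.lift_apply_of]

theorem nsurf_VT (n : ℕ) : nsurf n ∈ VT 2 (⊤ : Subgroup (FreeGroup (Fin n))) := by
  refine list_prod_mem _ _ fun i => ?_
  unfold VT
  exact Subgroup.mem_sup_right (Subgroup.subset_closure ⟨FreeGroup.of i, Subgroup.mem_top _, rfl⟩)

/-- A dense homomorphism is onto modulo every subgroup of finite index. -/
theorem DenseHom.top {S G : Type} [Group S] [Group G] {a : S →* G} (ha : DenseHom a) (U : Subgroup G)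
    (hU : U.FiniteIndex) (h : a.range ≤ U) : U = ⊤ := by
  rw [eq_top_iff]
  intro x _
  obtain ⟨y, hy⟩ := ha.exists_mul U hU x
  have h1 : x = a y * ((a y)⁻¹ * x) := by group
  rw [h1]
  exact U.mul_mem (h ⟨y, rfl⟩) hy

/-- A dense homomorphism with closed image is onto. -/
theorem DenseHom.surj {S G : Type} [Group S] [Group G] {a : S →* G} (ha : DenseHom a)
    (h : IsProClosed a.range) : Function.Surjective a := by
  intro x
  by_contra hx
  obtain ⟨U, hU, h1, h2⟩ := h x (fun ⟨y, hy⟩ => hx ⟨y, hy⟩)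
  apply h2
  rw [ha.top U hU h1]
  exact Subgroup.mem_top x

theorem DenseHom.surj_LERF {n : ℕ} {w : FreeGroup (Fin n)} {G : Type} [Group G] {a : OR w →* G}
    (ha : DenseHom a) (hG : IsLERF G) : Function.Surjective a := by
  refine ha.surj (hG _ ?_)
  have h1 : Group.FG (OR w) := fg_OR w
  exact (Group.fg_iff_subgroup_fg _).1 (Group.fg_range a)

/-- Words in any number of letters: density. -/
theorem any_rank {k l : ℕ} (hk : 2 ≤ k) (r : FreeGroup (Fin k)) (w : FreeGroup (Fin l))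
    (φ : FreeGroup (Fin l) →* FreeGroup (Fin k)) (hφ : φ w = r) (hr1 : r ≠ 1) (m : ℕ)
    (H : ∀ N : Subgroup (OR r), N.Normal → N.FiniteIndex → HasRel m N)
    (p : ℕ) (hp : p = 0 ∨ p.Prime) (hw : w ∈ VT p (⊤ : Subgroup (FreeGroup (Fin l)))) :
    ∃ a : OR w →* OR r,
      (∀ x, a (PresentedGroup.mk ({w} : Set (FreeGroup (Fin l))) x) =
        PresentedGroup.mk ({r} : Set (FreeGroup (Fin k))) (φ x)) ∧ DenseHom a := by
  have h0 : ((PresentedGroup.mk ({r} : Set (FreeGroup (Fin k)))).comp φ) w = 1 := by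
    show PresentedGroup.mk {r} (φ w) = 1
    rw [hφ]
    exact PresentedGroup.one_of_mem (Set.mem_singleton r)
  obtain ⟨a, ha⟩ := exists_desc w _ h0
  have ha' : ∀ x, a (PresentedGroup.mk ({w} : Set (FreeGroup (Fin l))) x) =
      PresentedGroup.mk ({r} : Set (FreeGroup (Fin k))) (φ x) :=
    fun x => DFunLike.congr_fun ha x
  refine ⟨a, ha', ?_⟩
  refine dense_of_VT hk r hr1 m H p hp a (VT_mono p (T := φ.range) ?_ ?_)
  · rintro _ ⟨x, rfl⟩
    exact ⟨PresentedGroup.mk {w} x, ha' x⟩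
  · have h2 : φ w ∈ (VT p (⊤ : Subgroup (FreeGroup (Fin l)))).map φ := ⟨_, hw, rfl⟩
    rw [VT_map, ← MonoidHom.range_eq_map, hφ] at h2
    exact h2

/-- The homomorphism is determined by its values. -/
theorem OR_hom_ext {l : ℕ} {w : FreeGroup (Fin l)} {G : Type} [Group G] {a b : OR w →* G}
    (h : ∀ x, a (PresentedGroup.mk ({w} : Set (FreeGroup (Fin l))) x) =
      b (PresentedGroup.mk ({w} : Set (FreeGroup (Fin l))) x)) : a = b := by
  apply MonoidHom.ext
  intro y
  obtain ⟨x, rfl⟩ := PresentedGroup.mk_surjective _ y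
  exact h x

/-- **Products of commutators.** -/
theorem orient_final {k n : ℕ} (u v : Fin n → FreeGroup (Fin k)) (r : FreeGroup (Fin k))
    (hr : r = (List.ofFn fun i => u i * v i * (u i)⁻¹ * (v i)⁻¹).prod) (hr1 : r ≠ 1) (m : ℕ)
    (H : ∀ N : Subgroup (OR r), N.Normal → N.FiniteIndex → HasRel m N) :
    ∃ a : OR (surf n) →* OR r,
      (∀ x, a (PresentedGroup.mk ({surf n} : Set (FreeGroup (Fin (n + n)))) x) =
        PresentedGroup.mk ({r} : Set (FreeGroup (Fin k))) (FreeGroup.lift (Fin.addCases u v) x)) ∧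
      k ≤ 2 * n ∧ DenseHom a ∧ (IsLERF (OR r) → Function.Surjective a) ∧
      (k = 2 * n → Function.Injective a ∧ SolvIso a ∧
        ((∀ g : OR r, g ≠ 1 → ∃ U : Subgroup (OR r), U.FiniteIndex ∧ g ∉ U) →
          ∀ h : OR r →* OR (surf n), Function.Surjective h → Function.Bijective h)) := by
  have hw : FreeGroup.lift (Fin.addCases u v) (surf n) = r := by
    rw [hr]
    exact surf_image u v
  have hrF : r ∈ ⁅(⊤ : Subgroup (FreeGroup (Fin k))), (⊤ : Subgroup (FreeGroup (Fin k)))⁆ := by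
    rw [hr]
    exact list_prod_mem _ _ fun i => Subgroup.commutator_mem_commutator (Subgroup.mem_top _) (Subgroup.mem_top _)
  have hk : 2 ≤ k := by
    by_contra hk
    apply hr1
    have h1 := isCyclic_OR (show k ≤ 1 by omega) (1 : FreeGroup (Fin k))
    obtain ⟨e⟩ := OR_one k
    have h2 : IsCyclic (FreeGroup (Fin k)) := isCyclic_of_surjective e e.surjective
    let _ : CommGroup (FreeGroup (Fin k)) := IsCyclic.commGroup
    exact kill_comm r hrF (MonoidHom.id (FreeGroup (Fin k)))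
  obtain ⟨a, ha, hD⟩ := any_rank hk r (surf n) (FreeGroup.lift (Fin.addCases u v)) hw hr1 m H 0 (Or.inl rfl) (by
    unfold VT
    exact Subgroup.mem_sup_left (surf_mem n))
  refine ⟨a, ha, genus_le hk r hr1 m H u v hr, hD, hD.surj_LERF, ?_⟩
  intro hkn
  have hkn' : k = n + n := by omega
  subst hkn'
  obtain ⟨b, hb, _, hbi, hbs⟩ := comm_main u v r hr hr1 m H
  have hab : a = b := OR_hom_ext fun x => by rw [ha, hb]
  subst hab
  refine ⟨hbi, hbs, fun hRF h hh => genus_orient hk r hr1 m H hRF u v hr h hh⟩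

theorem range_ngY (n : ℕ) : Set.range (ngY n) = KerNSurf.ngens (nx n) := by
  ext g
  constructor
  · rintro ⟨i, rfl⟩
    match i with
    | none => exact Or.inl rfl
    | some (i, j) => exact Or.inr ⟨j, i, rfl⟩
  · rintro (rfl | ⟨j, i, rfl⟩)
    · exact ⟨none, rfl⟩
    · exact ⟨some (i, j), rfl⟩

theorem nonorient_main {n : ℕ} (u : Fin (n + 2) → FreeGroup (Fin (n + 2))) (r : FreeGroup (Fin (n + 2)))
    (hr : r = (List.ofFn fun i => u i ^ 2).prod) (hr1 : r ≠ 1) (m : ℕ)
    (H : ∀ N : Subgroup (OR r), N.Normal → N.FiniteIndex → HasRel m N) :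
    ∃ a : OR (nsurf (n + 2)) →* OR r,
      (∀ x, a (PresentedGroup.mk ({nsurf (n + 2)} : Set (FreeGroup (Fin (n + 2)))) x) =
        PresentedGroup.mk ({r} : Set (FreeGroup (Fin (n + 2)))) (FreeGroup.lift u x)) ∧
      Function.Injective a ∧ SolvIso a := by
  have hk : 2 ≤ n + 2 := by omega
  have hw : FreeGroup.lift u (nsurf (n + 2)) = r := by
    rw [hr]
    exact nsurf_image u
  obtain ⟨a, ha, _, hb, hs⟩ := same_rank hk r (nsurf (n + 2)) (FreeGroup.lift u) hw hr1 m H 2
    (Or.inr Nat.prime_two) (nsurf_VT _)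
  refine ⟨a, ha, ?_, hs⟩
  obtain ⟨θ, hθ⟩ := theta_all u (fun p hp => by
    have h1 := dens_eab hk r hr1 m H 2 (Or.inr Nat.prime_two) (FreeGroup.lift u).range (by
      have h2 : FreeGroup.lift u (nsurf (n + 2)) ∈ (VT 2 (⊤ : Subgroup (FreeGroup (Fin (n + 2))))).map
        (FreeGroup.lift u) := ⟨_, nsurf_VT _, rfl⟩
      rw [VT_map, ← MonoidHom.range_eq_map, hw] at h2
      exact h2) p hp
    rw [FreeGroup.range_lift_eq_closure] at h1
    exact h1) (Fin.cases 1 (Fin.cases (-1) fun _ => 0))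
  have hθr : θ r = 1 := by
    rw [hr, map_list_prod, List.map_ofFn, List.ofFn_succ, List.prod_cons, List.ofFn_succ, List.prod_cons]
    have e1 : (List.ofFn fun i : Fin n => (⇑θ ∘ fun i => u i ^ 2) i.succ.succ).prod = 1 := by
      refine List.prod_eq_one ?_
      intro y hy
      rw [List.mem_ofFn] at hy
      obtain ⟨i, rfl⟩ := hy
      show θ (u i.succ.succ ^ 2) = 1
      rw [map_pow, hθ]
      rfl
    rw [e1, mul_one]
    show θ (u 0 ^ 2) * θ (u (Fin.succ 0) ^ 2) = 1
    rw [map_pow, map_pow, hθ, hθ]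
    rfl
  obtain ⟨Θ, hΘ⟩ := exists_desc r θ hθr
  have hΘ' : ∀ x, Θ (PresentedGroup.mk {r} x) = θ x := fun x => DFunLike.congr_fun hΘ x
  have hval : ∀ j, Θ (a (nx n j)) = θ (u j) := by
    intro j
    have h1 : a (nx n j) = PresentedGroup.mk {r} (FreeGroup.lift u (FreeGroup.of j)) :=
      ha (FreeGroup.of j)
    rw [h1, hΘ', FreeGroup.lift_apply_of]
  have h0 : Θ (a (nx n 0)) = Multiplicative.ofAdd 1 := by
    rw [hval, hθ]
    rfl
  have h1 : Θ (a (nx n 1)) = Multiplicative.ofAdd (-1) := by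
    rw [hval, hθ]
    rfl
  have hx : ∀ i : Fin n, Θ (a (nx n i.succ.succ)) = 1 := by
    intro i
    rw [hval, hθ]
    rfl
  have : Fact (Nat.Prime 2) := ⟨Nat.prime_two⟩
  refine nsurf_inj r hr1 m H a (fun N hN hNf => (hb N hN hNf 2 inferInstance).2) Θ h0 h1 hx ?_
  rw [range_ngY]
  exact KerNSurf.ker_nsurf (Θ.comp a) h0 h1 hx

/-- **Products of squares.** -/
theorem nonorient_final {k n : ℕ} (hk : 2 ≤ k) (u : Fin n → FreeGroup (Fin k)) (r : FreeGroup (Fin k))
    (hr : r = (List.ofFn fun i => u i ^ 2).prod) (hr1 : r ≠ 1) (m : ℕ)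
    (H : ∀ N : Subgroup (OR r), N.Normal → N.FiniteIndex → HasRel m N) :
    ∃ a : OR (nsurf n) →* OR r,
      (∀ x, a (PresentedGroup.mk ({nsurf n} : Set (FreeGroup (Fin n))) x) =
        PresentedGroup.mk ({r} : Set (FreeGroup (Fin k))) (FreeGroup.lift u x)) ∧
      k ≤ n ∧ DenseHom a ∧ (IsLERF (OR r) → Function.Surjective a) ∧
      (k = n → Function.Injective a ∧ SolvIso a ∧
        ((∀ g : OR r, g ≠ 1 → ∃ U : Subgroup (OR r), U.FiniteIndex ∧ g ∉ U) →
          ∀ h : OR r →* OR (nsurf n), Function.Surjective h → Function.Bijective h)) := by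
  have hw : FreeGroup.lift u (nsurf n) = r := by
    rw [hr]
    exact nsurf_image u
  obtain ⟨a, ha, hD⟩ := any_rank hk r (nsurf n) (FreeGroup.lift u) hw hr1 m H 2 (Or.inr Nat.prime_two)
    (nsurf_VT n)
  refine ⟨a, ha, powers_le hk r hr1 m H 2 (Or.inr Nat.prime_two) u hr, hD, hD.surj_LERF, ?_⟩
  intro hkn
  subst hkn
  obtain ⟨n, rfl⟩ : ∃ n, k = n + 2 := ⟨k - 2, by omega⟩
  obtain ⟨b, hb, hbi, hbs⟩ := nonorient_main u r hr hr1 m H
  have hab : a = b := OR_hom_ext fun x => by rw [ha, hb]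
  subst hab
  refine ⟨hbi, hbs, fun hRF h hh => genus_nonorient hk r hr1 m H hRF u hr h hh⟩

end Pool.Agent.MelD
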