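import Pool.Agent.MelD.Def

/-!
# Finite pieces of cyclic modules of a free group algebra

`J` a right ideal of `K[L]`, `L` free, `A = K[L]/J`.  For a finite subset `S` of `L` there are a
finite-dimensional subspace `V` of `A` that contains the class of `1`, and a homomorphism `T` of `L` to
the group of automorphisms of `V`, such that `T s⁻¹ [1] = [s]` for all `s ∈ S`.
-/

open Finset Module

namespace Pool.Agent.MelD

namespace Ext

section lin

variable {K : Type*} [Field K] {V : Type*} [AddCommGroup V] [Module K V]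

/-- An injective map of a subspace of a finite-dimensional space extends to an automorphism. -/
theorem exists_ext [FiniteDimensional K V] (D : Submodule K V) (f : D →ₗ[K] V)
    (hf : Function.Injective f) : ∃ e : V ≃ₗ[K] V, ∀ d : D, e d = f d := by
  obtain ⟨C, hC⟩ := Submodule.exists_isCompl D
  obtain ⟨C', hC'⟩ := Submodule.exists_isCompl (LinearMap.range f)
  have h1 : finrank K D = finrank K (LinearMap.range f) :=
    (LinearMap.finrank_range_of_inj hf).symm
  have h2 : finrank K C = finrank K C' := by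
    have a1 := Submodule.finrank_add_eq_of_isCompl hC
    have a2 := Submodule.finrank_add_eq_of_isCompl hC'
    omega
  let g : C ≃ₗ[K] C' := LinearEquiv.ofFinrankEq C C' h2
  let f' : D ≃ₗ[K] LinearMap.range f := LinearEquiv.ofInjective f hf
  refine ⟨(Submodule.prodEquivOfIsCompl D C hC).symm ≪≫ₗ (LinearEquiv.prodCongr f' g) ≪≫ₗ
    (Submodule.prodEquivOfIsCompl _ C' hC'), fun d => ?_⟩
  have h3 : (Submodule.prodEquivOfIsCompl D C hC).symm (d : V) = (d, 0) := by
    rw [LinearEquiv.symm_apply_eq]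
    simp
  simp only [LinearEquiv.trans_apply, h3, LinearEquiv.prodCongr_apply, map_zero]
  simp [f']

end lin

section grp

variable {K : Type*} [Field K] {l : ℕ}

/-- The right multiplication by `g` on the quotient by a right ideal. -/
noncomputable def R (J : Submodule K (MonoidAlgebra K (FreeGroup (Fin l))))
    (hJ : ∀ x ∈ J, ∀ y, x * y ∈ J) (g : FreeGroup (Fin l)) :
    (MonoidAlgebra K (FreeGroup (Fin l)) ⧸ J) →ₗ[K] (MonoidAlgebra K (FreeGroup (Fin l)) ⧸ J) :=
  J.mapQ J (LinearMap.mulRight K (MonoidAlgebra.single g 1)) (fun x hx => hJ x hx _)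

variable (J : Submodule K (MonoidAlgebra K (FreeGroup (Fin l))))
  (hJ : ∀ x ∈ J, ∀ y, x * y ∈ J)

theorem R_mk (g : FreeGroup (Fin l)) (x : MonoidAlgebra K (FreeGroup (Fin l))) :
    R J hJ g (J.mkQ x) = J.mkQ (x * MonoidAlgebra.single g 1) := rfl

theorem R_R (g h : FreeGroup (Fin l)) (v : MonoidAlgebra K (FreeGroup (Fin l)) ⧸ J) :
    R J hJ h (R J hJ g v) = R J hJ (g * h) v := by
  obtain ⟨x, rfl⟩ := J.mkQ_surjective v
  rw [R_mk, R_mk, R_mk, mul_assoc, MonoidAlgebra.single_mul_single, one_mul]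

theorem R_one (v : MonoidAlgebra K (FreeGroup (Fin l)) ⧸ J) : R J hJ 1 v = v := by
  obtain ⟨x, rfl⟩ := J.mkQ_surjective v
  rw [R_mk, ← MonoidAlgebra.one_def, mul_one]

theorem R_inj (g : FreeGroup (Fin l)) : Function.Injective (R J hJ g) := by
  intro a b hab
  have := congrArg (R J hJ g⁻¹) hab
  rwa [R_R, R_R, mul_inv_cancel, R_one, R_one] at this

end grp

end Ext

open Ext in
theorem exists_T {K : Type*} [Field K] {l : ℕ} (J : Submodule K (MonoidAlgebra K (FreeGroup (Fin l))))
    (hJ : ∀ x ∈ J, ∀ y, x * y ∈ J) (S : Finset (FreeGroup (Fin l))) :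
    ∃ (V : Submodule K (MonoidAlgebra K (FreeGroup (Fin l)) ⧸ J))
      (T : FreeGroup (Fin l) →* (V ≃ₗ[K] V)) (e₀ : V),
      FiniteDimensional K V ∧ (e₀ : MonoidAlgebra K (FreeGroup (Fin l)) ⧸ J) = J.mkQ 1 ∧
      ∀ s ∈ S, ((T s⁻¹ e₀ : V) : MonoidAlgebra K (FreeGroup (Fin l)) ⧸ J) =
        J.mkQ (MonoidAlgebra.single s 1) := by
  classical
  set P : Finset (FreeGroup (Fin l)) := insert 1 (S.biUnion fun s =>
    (Finset.range (s.toWord.length + 1)).image fun i => FreeGroup.mk (s.toWord.take i)) with hP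
  let cl : FreeGroup (Fin l) → (MonoidAlgebra K (FreeGroup (Fin l)) ⧸ J) :=
    fun g => J.mkQ (MonoidAlgebra.single g 1)
  set V : Submodule K (MonoidAlgebra K (FreeGroup (Fin l)) ⧸ J) :=
    Submodule.span K (P.image cl : Set _) with hV
  have hfin : FiniteDimensional K V := FiniteDimensional.span_finset K _
  have hcl : ∀ p ∈ P, cl p ∈ V := fun p hp =>
    Submodule.subset_span (by
      rw [Finset.mem_coe]
      exact Finset.mem_image_of_mem cl hp)
  have h1P : (1 : FreeGroup (Fin l)) ∈ P := Finset.mem_insert_self _ _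
  -- the generators
  have hgen : ∀ i : Fin l, ∃ e : V ≃ₗ[K] V, ∀ v : V, ∀ u : V,
      (u : MonoidAlgebra K (FreeGroup (Fin l)) ⧸ J) = R J hJ (FreeGroup.of i)⁻¹ v → e v = u := by
    intro i
    let D : Submodule K V := (V.comap (R J hJ (FreeGroup.of i)⁻¹)).comap V.subtype
    let f : D →ₗ[K] V := LinearMap.codRestrict V
      ((R J hJ (FreeGroup.of i)⁻¹) ∘ₗ V.subtype ∘ₗ D.subtype) (fun d => d.2)
    have hf : Function.Injective f := by
      intro a b hab
      have h2 := congrArg Subtype.val hab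
      exact Subtype.ext (Subtype.ext (R_inj J hJ _ h2))
    obtain ⟨e, he⟩ := exists_ext D f hf
    refine ⟨e, fun v u huv => ?_⟩
    have hvD : v ∈ D := by
      show R J hJ (FreeGroup.of i)⁻¹ v ∈ V
      rw [← huv]
      exact u.2
    have h3 := he ⟨v, hvD⟩
    rw [show ((⟨v, hvD⟩ : D) : V) = v from rfl] at h3
    rw [h3]
    exact Subtype.ext huv.symm
  choose e he using hgen
  let T : FreeGroup (Fin l) →* (V ≃ₗ[K] V) := FreeGroup.lift e
  have hT1 : ∀ i, T (FreeGroup.of i) = e i := fun i => FreeGroup.lift_apply_of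
  have hstep : ∀ (p : FreeGroup (Fin l)) (y : Fin l × Bool) (v : V), p ∈ P →
      p * FreeGroup.mk [y] ∈ P → (v : MonoidAlgebra K (FreeGroup (Fin l)) ⧸ J) = cl p →
      ((T (FreeGroup.mk [y])⁻¹ v : V) : MonoidAlgebra K (FreeGroup (Fin l)) ⧸ J) =
        cl (p * FreeGroup.mk [y]) := by
    intro p y v hp hpy hv
    have hR : ∀ g, R J hJ g (cl p) = cl (p * g) := by
      intro g
      show R J hJ g (J.mkQ _) = _
      rw [R_mk, MonoidAlgebra.single_mul_single, one_mul]
    obtain ⟨i, b⟩ := y
    cases b with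
    | true =>
      have hy : FreeGroup.mk [(i, true)] = FreeGroup.of i := rfl
      rw [hy] at hpy ⊢
      let u : V := ⟨cl (p * FreeGroup.of i), hcl _ hpy⟩
      have h4 : e i u = v := by
        apply he i u v
        show (v : MonoidAlgebra K (FreeGroup (Fin l)) ⧸ J) = R J hJ (FreeGroup.of i)⁻¹ (cl _)
        rw [← hR, R_R, mul_inv_cancel, R_one]
        exact hv
      rw [map_inv, hT1, ← h4]
      show (((e i)⁻¹ (e i u) : V) : MonoidAlgebra K (FreeGroup (Fin l)) ⧸ J) = _
      rw [show (e i)⁻¹ (e i u) = u from (e i).symm_apply_apply u]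
    | false =>
      have hy : FreeGroup.mk [(i, false)] = (FreeGroup.of i)⁻¹ := rfl
      rw [hy] at hpy ⊢
      rw [inv_inv, hT1]
      let u : V := ⟨cl (p * (FreeGroup.of i)⁻¹), hcl _ hpy⟩
      have h4 : e i v = u := by
        apply he i v u
        show cl _ = _
        rw [hv, hR]
      rw [h4]
  refine ⟨V, T, ⟨cl 1, hcl 1 h1P⟩, hfin, rfl, ?_⟩
  intro s hs
  have hpre : ∀ i ≤ s.toWord.length, FreeGroup.mk (s.toWord.take i) ∈ P := by
    intro i hi
    rw [hP]
    refine Finset.mem_insert_of_mem (Finset.mem_biUnion.mpr ⟨s, hs, Finset.mem_image.mpr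
      ⟨i, Finset.mem_range.mpr (by omega), rfl⟩⟩)
  have key : ∀ i ≤ s.toWord.length,
      ((T (FreeGroup.mk (s.toWord.take i))⁻¹ ⟨cl 1, hcl 1 h1P⟩ : V) :
        MonoidAlgebra K (FreeGroup (Fin l)) ⧸ J) = cl (FreeGroup.mk (s.toWord.take i)) := by
    intro i
    induction i with
    | zero =>
      intro _
      have h5 : FreeGroup.mk (List.take 0 s.toWord) = 1 := by
        rw [List.take_zero]; rfl
      rw [h5, inv_one, map_one]
      rfl
    | succ i ih =>
      intro hi
      have hi' : i < s.toWord.length := by omega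
      have h6 : FreeGroup.mk (s.toWord.take (i + 1)) =
          FreeGroup.mk (s.toWord.take i) * FreeGroup.mk [s.toWord[i]] := by
        rw [FreeGroup.mul_mk, List.take_append_getElem]
      have h7 := hpre (i + 1) hi
      rw [h6] at h7 ⊢
      rw [mul_inv_rev, map_mul]
      exact hstep _ _ _ (hpre i (by omega)) h7 (ih (by omega))
  have h8 := key s.toWord.length le_rfl
  rw [List.take_length, FreeGroup.mk_toWord] at h8
  exact h8

theorem RI_mul {ι : Type*} {K : Type*} [Field K] {A : Type*} [Ring A] [Algebra K A] (E : ι → A) :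
    ∀ x ∈ RI (K := K) E, ∀ y, x * y ∈ RI (K := K) E := by
  intro x hx y
  induction hx using Submodule.span_induction with
  | mem x hx =>
    obtain ⟨i, z, rfl⟩ := hx
    exact Submodule.subset_span ⟨i, z * y, by rw [mul_assoc]⟩
  | zero => rw [zero_mul]; exact Submodule.zero_mem _
  | add a b _ _ ha hb => rw [add_mul]; exact Submodule.add_mem _ ha hb
  | smul c a _ ha => rw [smul_mul_assoc]; exact Submodule.smul_mem _ _ ha

end Pool.Agent.MelD
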