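import Pool.Agent.MelD.Gen

/-!
# Generic representations of nice groups in characteristic `p`

As in `Gen.lean`, with a finite field `K` of characteristic `p` instead of `ℚ` and with a surjective
homomorphism `θ : Q → Q'` whose kernel is a `p`-group; the condition is on the image `e` of the Fox
derivative in `K[U × Q']`.

Proof: `V = Ω → K`, `W = Q → V`, `W_B` = the functions with values supported on `B`.  The kernel of the
Fox derivative on `W_B` is invariant under the left translations by `P = ker θ`; if it is not `0`, it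
contains a nonzero vector fixed by the `p`-group `P`
(`IsPGroup.exists_fixed_point_of_prime_dvd_card_of_fixed_point`), which is a function on `Q'`; but on
the functions `Q' → V` with values supported on `B` the element `e` is injective (proof of `gen`).
-/

open Finset Module

namespace Pool.Agent.MelD

/-- Fox derivatives commute with intertwining maps. -/
theorem fox_inter {k : ℕ} {K : Type*} [Field K] {W W' : Type*} [AddCommGroup W] [Module K W]
    [AddCommGroup W'] [Module K W'] (f : FreeGroup (Fin k) →* Module.End K W)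
    (f' : FreeGroup (Fin k) →* Module.End K W') (R : W' →ₗ[K] W)
    (h : ∀ g x, f g (R x) = R (f' g x)) (j : Fin k) (w : FreeGroup (Fin k)) (x : W') :
    fox f j w (R x) = R (fox f' j w x) := by
  have key := coc_unique (M := W' → W) f (fun w x => fox f j w (R x)) (fun w x => R (fox f' j w x))
    (fun a b => by
      funext y
      show fox f j (a * b) (R y) = fox f j a (R y) + f a (fox f j b (R y))
      rw [fox_mul]
      rfl)
    (fun a b => by
      funext y
      show R (fox f' j (a * b) y) = R (fox f' j a y) + f a (R (fox f' j b y))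
      rw [fox_mul, h, ← map_add]
      rfl)
    (fun i => by
      funext y
      show fox f j (FreeGroup.of i) (R y) = R (fox f' j (FreeGroup.of i) y)
      rw [fox_of, fox_of]
      split_ifs
      · rfl
      · rw [LinearMap.zero_apply, LinearMap.zero_apply, map_zero]) w
  exact congrFun key x

section

variable {K : Type} [Field K]

/-- The permutation representation on functions with values in a field. -/
def permK (K : Type) [Field K] {U : Type*} [Group U] {Ω : Type*} (ψ : U →* Equiv.Perm Ω) :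
    U →* Module.End K (Ω → K) where
  toFun u :=
    { toFun := fun v ω => v ((ψ u)⁻¹ ω)
      map_add' := by intro a b; rfl
      map_smul' := by intro c a; rfl }
  map_one' := by
    apply LinearMap.ext
    intro v
    funext ω
    show v ((ψ 1)⁻¹ ω) = v ω
    rw [map_one, inv_one]
    rfl
  map_mul' := by
    intro a b
    apply LinearMap.ext
    intro v
    funext ω
    show v ((ψ (a * b))⁻¹ ω) = v ((ψ b)⁻¹ ((ψ a)⁻¹ ω))
    rw [map_mul, mul_inv_rev]
    rfl

/-- Extension by zero. -/
noncomputable def extK (K : Type) [Field K] {Q Ω : Type} [DecidableEq Ω] (B : Finset Ω) :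
    (Q → B → K) →ₗ[K] (Q → Ω → K) where
  toFun F q ω := if h : ω ∈ B then F q ⟨ω, h⟩ else 0
  map_add' := by
    intro a b
    funext q ω
    show (if h : ω ∈ B then (a + b) q ⟨ω, h⟩ else 0) =
      (if h : ω ∈ B then a q ⟨ω, h⟩ else 0) + (if h : ω ∈ B then b q ⟨ω, h⟩ else 0)
    split_ifs
    · rfl
    · rw [add_zero]
  map_smul' := by
    intro c a
    funext q ω
    show (if h : ω ∈ B then (c • a) q ⟨ω, h⟩ else 0) =
      c * (if h : ω ∈ B then a q ⟨ω, h⟩ else 0)
    split_ifs
    · rfl
    · rw [mul_zero]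

theorem extK_apply {Q Ω : Type} [DecidableEq Ω] (B : Finset Ω) (F : Q → B → K) (q : Q) (ω : Ω) :
    extK K B F q ω = if h : ω ∈ B then F q ⟨ω, h⟩ else 0 := rfl

/-- The proof of `gen` over any field. -/
theorem inj_up {k : ℕ} (r : FreeGroup (Fin k)) {U : Type} [Group U] (f : FreeGroup (Fin k) →* U)
    {Q : Type} [Group Q] (π : FreeGroup (Fin k) →* Q) (j : Fin k)
    (hcoeff : (fox ((MonoidAlgebra.of K (U × Q)).comp (f.prod π)) j r).coeff.support.Nonempty)
    (hfun : ∀ x ∈ (fox ((MonoidAlgebra.of K (U × Q)).comp (f.prod π)) j r).coeff.support,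
      ∀ y ∈ (fox ((MonoidAlgebra.of K (U × Q)).comp (f.prod π)) j r).coeff.support,
      x.1 = y.1 → x.2 = y.2) {Ω : Type} [DecidableEq Ω] [DecidableEq U] (ψ : U →* Equiv.Perm Ω)
    (B : Finset Ω)
    (huniq : ((fox ((MonoidAlgebra.of K (U × Q)).comp (f.prod π)) j r).coeff.support.image
        Prod.fst).Nonempty → ∀ B' : Finset Ω, B' ⊆ B → B'.Nonempty →
      ∃ a ∈ (fox ((MonoidAlgebra.of K (U × Q)).comp (f.prod π)) j r).coeff.support.image Prod.fst,
      ∃ b ∈ B', ∀ a' ∈ (fox ((MonoidAlgebra.of K (U × Q)).comp (f.prod π)) j r).coeff.support.image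
        Prod.fst, ∀ b' ∈ B', ψ a' b' = ψ a b → a' = a ∧ b' = b) :
    Function.Injective ((fox (ind π ((permK K ψ).comp f)) j r).comp (extK K (Q := Q) B)) := by
  classical
  obtain ⟨e, hedef⟩ : ∃ e, e = fox ((MonoidAlgebra.of K (U × Q)).comp (f.prod π)) j r := ⟨_, rfl⟩
  rw [← hedef] at hcoeff hfun huniq
  have hA : (e.coeff.support.image Prod.fst).Nonempty := hcoeff.image _
  obtain ⟨Θ, hΘ⟩ : ∃ Θ : U × Q →* Module.End K (Q → Ω → K),
    Θ = ind (MonoidHom.snd U Q) ((permK K ψ).comp (MonoidHom.fst U Q)) := ⟨_, rfl⟩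
  have hΘap : ∀ (a : U) (p : Q) (F : Q → Ω → K) (q : Q) (ω : Ω),
      Θ (a, p) F q ω = F (q * p) ((ψ a)⁻¹ ω) := by
    intro a p F q ω
    rw [hΘ]
    rfl
  have hcomp : ind π ((permK K ψ).comp f) = Θ.comp (f.prod π) := by
    rw [hΘ]
    rfl
  have hfox : fox (ind π ((permK K ψ).comp f)) j r =
      MonoidAlgebra.lift K (Module.End K (Q → Ω → K)) (U × Q) Θ e := by
    have h1 := map_fox ((MonoidAlgebra.lift K (Module.End K (Q → Ω → K)) (U × Q) Θ :
      MonoidAlgebra K (U × Q) →ₐ[K] Module.End K (Q → Ω → K)) : MonoidAlgebra K (U × Q) →+*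
        Module.End K (Q → Ω → K)) ((MonoidAlgebra.of K (U × Q)).comp (f.prod π)) j r
    rw [← hedef] at h1
    refine Eq.trans ?_ h1.symm
    congr 1
    rw [hcomp]
    apply MonoidHom.ext
    intro g
    show Θ (f.prod π g) = MonoidAlgebra.lift K (Module.End K (Q → Ω → K)) (U × Q) Θ
      (MonoidAlgebra.of K (U × Q) (f.prod π g))
    rw [MonoidAlgebra.lift_of]
  rw [← LinearMap.ker_eq_bot, LinearMap.ker_eq_bot']
  intro F hF
  by_contra hne
  have hne' : ∃ q b, F q b ≠ 0 := by
    by_contra hc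
    push Not at hc
    exact hne (by funext q b; exact hc q b)
  obtain ⟨q0, b0, hqb⟩ := hne'
  have hB'ne : (B.filter (fun ω => ∃ q, extK K B F q ω ≠ 0)).Nonempty := by
    refine ⟨b0.1, ?_⟩
    rw [Finset.mem_filter]
    refine ⟨b0.2, q0, ?_⟩
    rw [extK_apply, dif_pos b0.2]
    exact hqb
  obtain ⟨a, ha, b, hb, hu⟩ := huniq hA (B.filter (fun ω => ∃ q, extK K B F q ω ≠ 0))
    (Finset.filter_subset _ _) hB'ne
  obtain ⟨⟨a1, p⟩, hap, ha1⟩ := Finset.mem_image.mp ha
  have ha1' : a1 = a := ha1
  subst ha1'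
  obtain ⟨hbB, q1, hq1⟩ := Finset.mem_filter.mp hb
  have hval : (fox (ind π ((permK K ψ).comp f)) j r) (extK K B F) (q1 * p⁻¹) (ψ a1 b) =
      e.coeff (a1, p) * extK K B F q1 b := by
    rw [hfox, MonoidAlgebra.lift_apply, Finsupp.sum]
    rw [LinearMap.sum_apply, Finset.sum_apply, Finset.sum_apply]
    rw [Finset.sum_eq_single (a1, p)]
    · show e.coeff (a1, p) * Θ (a1, p) (extK K B F) (q1 * p⁻¹) (ψ a1 b) = _
      rw [hΘap, inv_mul_cancel_right, show (ψ a1)⁻¹ (ψ a1 b) = b from (ψ a1).symm_apply_apply b]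
    · rintro ⟨a', p'⟩ hs hne2
      show e.coeff (a', p') * Θ (a', p') (extK K B F) (q1 * p⁻¹) (ψ a1 b) = 0
      rw [hΘap]
      by_contra hnz
      have hF' : extK K B F (q1 * p⁻¹ * p') ((ψ a')⁻¹ (ψ a1 b)) ≠ 0 := fun h => hnz (by rw [h, mul_zero])
      have hmem : (ψ a')⁻¹ (ψ a1 b) ∈ B := by
        by_contra hnB
        exact hF' (by rw [extK_apply, dif_neg hnB])
      have h2 := hu a' (Finset.mem_image_of_mem Prod.fst hs) ((ψ a')⁻¹ (ψ a1 b))
        (Finset.mem_filter.mpr ⟨hmem, _, hF'⟩) ((ψ a').apply_symm_apply (ψ a1 b))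
      apply hne2
      have h3 : a' = a1 := h2.1
      subst h3
      have h4 := hfun (a', p') hs (a', p) hap rfl
      have h5 : p' = p := h4
      rw [h5]
    · intro hn
      exact absurd hap hn
  have h0 : (fox (ind π ((permK K ψ).comp f)) j r) (extK K B F) (q1 * p⁻¹) (ψ a1 b) = 0 := by
    have h6 : (fox (ind π ((permK K ψ).comp f)) j r) (extK K B F) = 0 := hF
    rw [h6]
    rfl
  rw [h0] at hval
  rcases mul_eq_zero.mp hval.symm with h7 | h7
  · exact (Finsupp.mem_support_iff.mp hap) h7
  · exact hq1 h7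

/-- A nontrivial finite vector space over a field of characteristic `p` has a number of elements
divisible by `p`. -/
theorem p_dvd {p : ℕ} [Fact p.Prime] [Finite K] [CharP K p] {N : Type*} [AddCommGroup N] [Module K N]
    [FiniteDimensional K N] [Nontrivial N] : p ∣ Nat.card N := by
  classical
  have : Fintype K := Fintype.ofFinite K
  rw [Module.natCard_eq_pow_finrank (K := K) (V := N)]
  obtain ⟨n, _, hn⟩ := FiniteField.card K p
  have h1 : 0 < finrank K N := finrank_pos
  have h2 : p ∣ Nat.card K := by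
    rw [Nat.card_eq_fintype_card, hn]
    exact dvd_pow_self p n.pos.ne'
  exact h2.trans (dvd_pow_self _ h1.ne')

/-- Injectivity upstairs. -/
theorem inj_dn {k : ℕ} (r : FreeGroup (Fin k)) {p : ℕ} [Fact p.Prime] [Finite K] [CharP K p]
    {Q Q' : Type} [Group Q] [Fintype Q] [Group Q'] [Fintype Q']
    (π : FreeGroup (Fin k) →* Q) (θ : Q →* Q') (hθs : Function.Surjective θ)
    (hθ : IsPGroup p θ.ker) (j : Fin k) {Ω : Type} [Fintype Ω] [DecidableEq Ω]
    (ρ : FreeGroup (Fin k) →* Module.End K (Ω → K)) (B : Finset Ω)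
    (hinj : Function.Injective ((fox (ind (θ.comp π) ρ) j r).comp (extK K (Q := Q') B))) :
    Function.Injective ((fox (ind π ρ) j r).comp (extK K (Q := Q) B)) := by
  classical
  rw [← LinearMap.ker_eq_bot]
  by_contra hne
  set N : Submodule K (Q → B → K) := LinearMap.ker ((fox (ind π ρ) j r).comp (extK K (Q := Q) B)) with hN
  have : Nontrivial N := Submodule.nontrivial_iff_ne_bot.2 hne
  have : Finite N := Module.finite_of_finite K
  -- left translations
  have hL : ∀ (g : Q) (F : Q → B → K), F ∈ N → (fun q => F (g⁻¹ * q)) ∈ N := by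
    intro g F hF
    have h1 : (fox (ind π ρ) j r) (extK K B F) = 0 := LinearMap.mem_ker.1 hF
    have h2 := fox_inter (ind π ρ) (ind π ρ) (LinearMap.funLeft K (Ω → K) (fun q : Q => g⁻¹ * q))
      (fun a x => by
        funext q
        show ρ a (x (g⁻¹ * (q * π a))) = ρ a (x (g⁻¹ * q * π a))
        rw [mul_assoc]) j r (extK K B F)
    rw [h1, map_zero] at h2
    exact LinearMap.mem_ker.2 h2
  let act : MulAction θ.ker N :=
    { smul := fun g F => ⟨fun q => F.1 ((g : Q)⁻¹ * q), hL g F.1 F.2⟩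
      one_smul := by
        intro F
        refine Subtype.ext (funext fun q => ?_)
        show F.1 (((1 : θ.ker) : Q)⁻¹ * q) = F.1 q
        rw [OneMemClass.coe_one, inv_one, one_mul]
      mul_smul := by
        intro g g' F
        refine Subtype.ext (funext fun q => ?_)
        show F.1 (((g * g' : θ.ker) : Q)⁻¹ * q) = F.1 ((g' : Q)⁻¹ * ((g : Q)⁻¹ * q))
        rw [Subgroup.coe_mul, mul_inv_rev, mul_assoc] }
  have h0 : (0 : N) ∈ MulAction.fixedPoints θ.ker N := by
    intro g
    refine Subtype.ext (funext fun q => rfl)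
  obtain ⟨F, hFix, hF0⟩ := hθ.exists_fixed_point_of_prime_dvd_card_of_fixed_point N
    (p_dvd (K := K) (N := N)) h0
  have hfix : ∀ g : Q, g ∈ θ.ker → ∀ q, F.1 (g⁻¹ * q) = F.1 q := by
    intro g hg q
    exact congrFun (congrArg Subtype.val (hFix ⟨g, hg⟩)) q
  -- descend
  set s := Function.surjInv hθs with hs
  have hs1 : ∀ q', θ (s q') = q' := Function.surjInv_eq hθs
  have hdesc : ∀ q, F.1 q = F.1 (s (θ q)) := by
    intro q
    have hg : q * (s (θ q))⁻¹ ∈ θ.ker := by
      rw [MonoidHom.mem_ker, map_mul, map_inv, hs1, mul_inv_cancel]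
    have h1 := hfix _ hg q
    rw [mul_inv_rev, inv_inv, mul_assoc, inv_mul_cancel, mul_one] at h1
    exact h1.symm
  have hext : extK K B F.1 = LinearMap.funLeft K (Ω → K) θ (extK K B fun q' => F.1 (s q')) := by
    funext q ω
    show extK K B F.1 q ω = extK K B (fun q' => F.1 (s q')) (θ q) ω
    rw [extK_apply, extK_apply]
    split_ifs with h
    · rw [hdesc q]
    · rfl
  have h2 := fox_inter (ind π ρ) (ind (θ.comp π) ρ) (LinearMap.funLeft K (Ω → K) θ)
    (fun a x => by
      funext q
      show ρ a (x (θ (q * π a))) = ρ a (x (θ q * θ (π a)))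
      rw [map_mul]) j r (extK K B fun q' => F.1 (s q'))
  rw [← hext] at h2
  have h1 : (fox (ind π ρ) j r) (extK K B F.1) = 0 := LinearMap.mem_ker.1 F.2
  rw [h1] at h2
  have h3 : (fox (ind (θ.comp π) ρ) j r) (extK K B fun q' => F.1 (s q')) = 0 := by
    funext q'
    have h4 := congrFun h2 (s q')
    have h5 : (fox (ind (θ.comp π) ρ) j r) (extK K B fun q' => F.1 (s q')) (θ (s q')) = 0 := h4.symm
    rw [hs1] at h5
    exact h5
  have h4 : (fun q' => F.1 (s q')) = 0 := hinj (by
    show (fox (ind (θ.comp π) ρ) j r) (extK K B fun q' => F.1 (s q')) =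
      (fox (ind (θ.comp π) ρ) j r) (extK K B 0)
    rw [h3, map_zero, map_zero])
  apply hF0
  refine Subtype.ext (funext fun q => ?_)
  show (0 : B → K) = F.1 q
  rw [hdesc q]
  exact (congrFun h4 (θ q)).symm

end

theorem genP {k : ℕ} (r : FreeGroup (Fin k)) {U : Type} [Group U] (hU : Nice U)
    (f : FreeGroup (Fin k) →* U) (hf : f r = 1) {p : ℕ} [Fact p.Prime] {K : Type} [Field K]
    [Finite K] [CharP K p] {Q Q' : Type} [Group Q] [Fintype Q] [Group Q'] [Fintype Q']
    (π : FreeGroup (Fin k) →* Q) (θ : Q →* Q') (hθs : Function.Surjective θ)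
    (hθ : IsPGroup p θ.ker) (j : Fin k)
    (he : fox ((MonoidAlgebra.of K (U × Q')).comp (f.prod (θ.comp π))) j r ≠ 0)
    (hfun : ∀ x ∈ (fox ((MonoidAlgebra.of K (U × Q')).comp (f.prod (θ.comp π))) j r).coeff.support,
      ∀ y ∈ (fox ((MonoidAlgebra.of K (U × Q')).comp (f.prod (θ.comp π))) j r).coeff.support,
      x.1 = y.1 → x.2 = y.2) :
    ∃ (V : Type) (_ : AddCommGroup V) (_ : Module K V) (_ : FiniteDimensional K V)
      (ρ : FreeGroup (Fin k) →* Module.End K V), ρ r = 1 ∧
      (Fintype.card Q - 1) * finrank K V < finrank K (LinearMap.range (ev (ind π ρ) r)) := by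
  classical
  obtain ⟨Ω, iF, iD, ψ, B, hcard, huniq⟩ :=
    hU ((fox ((MonoidAlgebra.of K (U × Q')).comp (f.prod (θ.comp π))) j r).coeff.support.image Prod.fst)
      (Fintype.card Q - 1)
  have hQ : 0 < Fintype.card Q := Fintype.card_pos
  have hcoeff : (fox ((MonoidAlgebra.of K (U × Q')).comp
      (f.prod (θ.comp π))) j r).coeff.support.Nonempty := by
    rw [Finset.nonempty_iff_ne_empty]
    intro h
    apply he
    have h1 : (fox ((MonoidAlgebra.of K (U × Q')).comp (f.prod (θ.comp π))) j r).coeff = 0 :=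
      Finsupp.support_eq_empty.mp h
    exact MonoidAlgebra.coeff_inj.mp (h1.trans MonoidAlgebra.coeff_zero.symm)
  have hup := inj_up (K := K) r f (θ.comp π) j hcoeff hfun ψ B huniq
  have hinj := inj_dn (p := p) r π θ hθs hθ j ((permK K ψ).comp f) B hup
  obtain ⟨ρ, hρ⟩ : ∃ ρ : FreeGroup (Fin k) →* Module.End K (Ω → K), ρ = (permK K ψ).comp f :=
    ⟨_, rfl⟩
  rw [← hρ] at hinj
  refine ⟨Ω → K, inferInstance, inferInstance, inferInstance, ρ, ?_, ?_⟩
  · rw [hρ, MonoidHom.comp_apply, hf, map_one]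
  -- count
  have hrange : LinearMap.range ((fox (ind π ρ) j r).comp (extK K (Q := Q) B)) ≤
      LinearMap.range (ev (ind π ρ) r) := by
    rintro x ⟨F, rfl⟩
    refine ⟨Pi.single j (extK K B F), ?_⟩
    rw [ev_apply, coc_eq_sum, Finset.sum_eq_single j]
    · rw [Pi.single_eq_same]
      rfl
    · intro i _ hij
      rw [Pi.single_eq_of_ne hij, smul_zero]
    · intro h
      exact absurd (Finset.mem_univ j) h
  have h1 : finrank K (LinearMap.range ((fox (ind π ρ) j r).comp (extK K (Q := Q) B))) =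
      Fintype.card Q * B.card := by
    rw [LinearMap.finrank_range_of_inj hinj, Module.finrank_pi_fintype]
    simp
  have h2 := Submodule.finrank_mono hrange
  rw [h1] at h2
  refine lt_of_lt_of_le ?_ h2
  rw [Module.finrank_fintype_fun_eq_card]
  have h3 : Fintype.card Q - 1 + 1 = Fintype.card Q := Nat.sub_add_cancel hQ
  rw [h3] at hcard
  exact hcard

end Pool.Agent.MelD
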