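import Pool.Agent.MelD.Def

/-!
# A Schreier inequality for the right ideal of the Fox derivatives

`φ : F → L` onto, `φ r = 1`, `E j` the image of the `j`-th Fox derivative of `r` in `A = K[L]`,
`J = RI E`, `c = dim A/J` finite.  Then `l c + 1 ≤ (k - l) + c`.

Proof: `∂ i : A → A` the linear extension of the Fox derivatives of `L` (`fox (of K L) i`), `ε` the
augmentation, `D : A → (Fin l → A/J) × K`, `D x = ([∂ i x])_i, ε x)`.
* `D` is onto (`D (e + ∑ i, y i * (x_i - 1)) = ([y i])_i, e)`).
* `D (E j * y) = ε y • D (E j)`: `∂ i (E * g) = ∂ i E + E * ∂ i g`.  So `D J` is the span of `D (E j)`.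
* `∑ j, E j * a j i = 0` for `a j i = ∂ i (φ x_j)` (chain rule), so `∑ j, ε (a j i) • D (E j) = 0`
  for all `i`; the matrix `ε (a j i)` has rank `l` as `φ` is onto.  So `dim D J ≤ k - l`.
* `A/J → ((Fin l → A/J) × K)/D J` is onto, so `l c + 1 - (k - l) ≤ c`.
-/

open Finset Module

namespace Pool.Agent.MelD

section schr

private noncomputable abbrev oo (K : Type) [Field K] (l : ℕ) :
    FreeGroup (Fin l) →* MonoidAlgebra K (FreeGroup (Fin l)) :=
  MonoidAlgebra.of K (FreeGroup (Fin l))

/-- The linear extension of the Fox derivative. -/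
private noncomputable def dd (K : Type) [Field K] (l : ℕ) (i : Fin l) :
    MonoidAlgebra K (FreeGroup (Fin l)) →ₗ[K] MonoidAlgebra K (FreeGroup (Fin l)) :=
  (MonoidAlgebra.basis (FreeGroup (Fin l)) K).constr K (fun g => fox (oo K l) i g)

/-- The augmentation. -/
private noncomputable def ee (K : Type) [Field K] (l : ℕ) :
    MonoidAlgebra K (FreeGroup (Fin l)) →ₐ[K] K :=
  MonoidAlgebra.lift K K (FreeGroup (Fin l)) (1 : FreeGroup (Fin l) →* K)

variable {K : Type} [Field K] {l : ℕ}

private theorem dd_of (i : Fin l) (g : FreeGroup (Fin l)) :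
    dd K l i (oo K l g) = fox (oo K l) i g := by
  unfold dd
  have h : oo K l g = MonoidAlgebra.basis (FreeGroup (Fin l)) K g := by
    rw [MonoidAlgebra.basis_apply]; rfl
  conv_lhs => rw [h]
  rw [Basis.constr_basis]

private theorem ee_of (g : FreeGroup (Fin l)) : ee K l (oo K l g) = 1 := by
  unfold ee
  exact MonoidAlgebra.lift_of (1 : FreeGroup (Fin l) →* K) g

private theorem dd_mul_of (i : Fin l) (x : MonoidAlgebra K (FreeGroup (Fin l)))
    (h : FreeGroup (Fin l)) :
    dd K l i (x * oo K l h) = dd K l i x + x * dd K l i (oo K l h) := by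
  induction x using MonoidAlgebra.induction_on with
  | of g =>
    have h1 : (MonoidAlgebra.of K (FreeGroup (Fin l)) g) * oo K l h = oo K l (g * h) := by
      rw [map_mul]
    rw [h1, dd_of, dd_of, fox_mul, dd_of]
  | add a b ha hb => rw [add_mul, map_add, ha, hb, map_add, add_mul]; abel
  | smul c a ha => rw [smul_mul_assoc, map_smul, ha, map_smul, smul_add, smul_mul_assoc]

private theorem dd_mul (i : Fin l) (x y : MonoidAlgebra K (FreeGroup (Fin l))) :
    dd K l i (x * y) = ee K l y • dd K l i x + x * dd K l i y := by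
  induction y using MonoidAlgebra.induction_on with
  | of g =>
    have h1 : ee K l (MonoidAlgebra.of K (FreeGroup (Fin l)) g) = 1 := ee_of g
    rw [h1, one_smul]
    exact dd_mul_of i x g
  | add a b ha hb => rw [mul_add, map_add, ha, hb, map_add, map_add, add_smul, mul_add]; abel
  | smul c a ha =>
    rw [mul_smul_comm, map_smul, ha, map_smul, map_smul, smul_add, mul_smul_comm, smul_eq_mul,
      mul_smul]

private theorem dd_one (i : Fin l) : dd K l i 1 = 0 := by
  have h := dd_of (K := K) i (1 : FreeGroup (Fin l))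
  rw [map_one] at h
  rw [h]
  exact coc_one _ _

private theorem dd_gen (i j : Fin l) (z : MonoidAlgebra K (FreeGroup (Fin l))) :
    dd K l i (z * (oo K l (FreeGroup.of j) - 1)) = if j = i then z else 0 := by
  rw [dd_mul, map_sub, ee_of, map_one, sub_self, zero_smul, zero_add, map_sub, dd_one, sub_zero,
    dd_of, fox_of]
  split_ifs <;> simp

end schr

theorem schreier {K : Type} [Field K] {k l : ℕ} (φ : FreeGroup (Fin k) →* FreeGroup (Fin l))
    (hφ : Function.Surjective φ) (r : FreeGroup (Fin k)) (hr : φ r = 1)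
    (hfin : FiniteDimensional K (MonoidAlgebra K (FreeGroup (Fin l)) ⧸
      RI (K := K) (fun j => fox ((MonoidAlgebra.of K (FreeGroup (Fin l))).comp φ) j r))) :
    l * finrank K (MonoidAlgebra K (FreeGroup (Fin l)) ⧸
      RI (K := K) (fun j => fox ((MonoidAlgebra.of K (FreeGroup (Fin l))).comp φ) j r)) + 1 + l ≤
    k + finrank K (MonoidAlgebra K (FreeGroup (Fin l)) ⧸
      RI (K := K) (fun j => fox ((MonoidAlgebra.of K (FreeGroup (Fin l))).comp φ) j r)) := by
  set f : FreeGroup (Fin k) →* MonoidAlgebra K (FreeGroup (Fin l)) :=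
    (MonoidAlgebra.of K (FreeGroup (Fin l))).comp φ with hf
  set E : Fin k → MonoidAlgebra K (FreeGroup (Fin l)) := fun j => fox f j r with hE
  set J : Submodule K (MonoidAlgebra K (FreeGroup (Fin l))) := RI (K := K) E with hJ
  -- the map D
  let D : MonoidAlgebra K (FreeGroup (Fin l)) →ₗ[K]
      (Fin l → MonoidAlgebra K (FreeGroup (Fin l)) ⧸ J) × K :=
    LinearMap.prod (LinearMap.pi fun i => J.mkQ ∘ₗ dd K l i) (ee K l).toLinearMap
  have hD : ∀ x, D x = (fun i => J.mkQ (dd K l i x), ee K l x) := fun x => rfl
  have hEJ : ∀ j y, J.mkQ (E j * y) = 0 := by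
    intro j y
    rw [Submodule.mkQ_apply, Submodule.Quotient.mk_eq_zero]
    exact Submodule.subset_span ⟨j, y, rfl⟩
  have hDE : ∀ j y, D (E j * y) = ee K l y • D (E j) := by
    intro j y
    rw [hD, hD]
    ext i
    · show J.mkQ (dd K l i (E j * y)) = ee K l y • J.mkQ (dd K l i (E j))
      rw [dd_mul, map_add, hEJ, add_zero, map_smul]
    · show ee K l (E j * y) = ee K l y • ee K l (E j)
      rw [map_mul, smul_eq_mul, mul_comm]
  -- D is onto
  have hsurj : Function.Surjective D := by
    rintro ⟨y, e⟩
    choose z hz using fun i => J.mkQ_surjective (y i)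
    refine ⟨e • 1 + ∑ j, z j * (oo K l (FreeGroup.of j) - 1), ?_⟩
    rw [hD]
    ext i
    · show J.mkQ (dd K l i (e • 1 + ∑ j, z j * (oo K l (FreeGroup.of j) - 1))) = y i
      rw [map_add, map_smul, dd_one, smul_zero, zero_add, map_sum]
      have h1 : ∀ j ∈ (univ : Finset (Fin l)), dd K l i (z j * (oo K l (FreeGroup.of j) - 1)) =
          if j = i then z j else 0 := fun j _ => dd_gen i j (z j)
      rw [sum_congr rfl h1, sum_ite_eq' univ i z, if_pos (mem_univ i), hz]
    · show ee K l (e • 1 + ∑ j, z j * (oo K l (FreeGroup.of j) - 1)) = e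
      rw [map_add, map_smul, map_one, map_sum]
      have h1 : ∀ j ∈ (univ : Finset (Fin l)), ee K l (z j * (oo K l (FreeGroup.of j) - 1)) =
          0 := by
        intro j _
        rw [map_mul, map_sub, ee_of, map_one, sub_self, mul_zero]
      rw [sum_congr rfl h1, sum_const_zero, add_zero, smul_eq_mul, mul_one]
  -- the span of the D (E j)
  let Ψ : (Fin k → K) →ₗ[K] (Fin l → MonoidAlgebra K (FreeGroup (Fin l)) ⧸ J) × K :=
    Fintype.linearCombination K (fun j => D (E j))
  have hΨ : ∀ c, Ψ c = ∑ j, c j • D (E j) := fun c => by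
    show Fintype.linearCombination K (fun j => D (E j)) c = _
    rw [Fintype.linearCombination_apply]
  have hmap : J.map D ≤ LinearMap.range Ψ := by
    refine (Submodule.map_span_le D {x | ∃ i y, x = E i * y} (LinearMap.range Ψ)).mpr ?_
    rintro x ⟨j, y, rfl⟩
    rw [hDE]
    refine Submodule.smul_mem _ _ ⟨Pi.single j 1, ?_⟩
    rw [hΨ, sum_eq_single j]
    · rw [Pi.single_eq_same, one_smul]
    · intro b _ hb
      rw [Pi.single_eq_of_ne hb, zero_smul]
    · intro h; exact absurd (mem_univ j) h
  -- the chain rule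
  have hchain : ∀ i (w : FreeGroup (Fin k)), fox (oo K l) i (φ w) =
      ∑ j, fox f j w * fox (oo K l) i (φ (FreeGroup.of j)) := by
    intro i w
    have h := coc_unique f (fun w => fox (oo K l) i (φ w))
      (coc f (fun j => fox (oo K l) i (φ (FreeGroup.of j)))) ?_ (coc_mul f _) ?_ w
    · rw [coc_eq_sum] at h
      exact h
    · intro g h
      show fox (oo K l) i (φ (g * h)) = _
      rw [map_mul, fox_mul]
      rfl
    · intro j
      rw [coc_of]
  have hrel : ∀ i, ∑ j, E j * fox (oo K l) i (φ (FreeGroup.of j)) = 0 := by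
    intro i
    have h := hchain i r
    rw [hr] at h
    rw [← h]
    exact coc_one _ _
  have hrel2 : ∀ i, ∑ j, ee K l (fox (oo K l) i (φ (FreeGroup.of j))) • D (E j) = 0 := by
    intro i
    have h := congrArg D (hrel i)
    rw [map_zero, map_sum] at h
    rw [← h]
    exact sum_congr rfl fun j _ => (hDE j _).symm
  -- the exponent sum matrix
  let Θ : (Fin l → K) →ₗ[K] (Fin k → K) :=
    LinearMap.pi fun j => Fintype.linearCombination K
      (fun i => ee K l (fox (oo K l) i (φ (FreeGroup.of j))))
  have hΘ : ∀ c j, Θ c j = ∑ i, c i * ee K l (fox (oo K l) i (φ (FreeGroup.of j))) := by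
    intro c j
    show Fintype.linearCombination K
      (fun i => ee K l (fox (oo K l) i (φ (FreeGroup.of j)))) c = _
    rw [Fintype.linearCombination_apply]
    rfl
  have hΘinj : Function.Injective Θ := by
    rw [← LinearMap.ker_eq_bot, LinearMap.ker_eq_bot']
    intro c hc
    have h0 : ∀ w : FreeGroup (Fin l), ∑ i, c i * ee K l (fox (oo K l) i w) = 0 := by
      -- additive character
      let χ : FreeGroup (Fin l) →* Multiplicative K :=
        { toFun := fun w => Multiplicative.ofAdd (∑ i, c i * ee K l (fox (oo K l) i w))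
          map_one' := by
            have : ∀ i, fox (oo K l) i (1 : FreeGroup (Fin l)) = 0 := fun i => coc_one _ _
            simp only [this, map_zero, mul_zero, sum_const_zero]
            rfl
          map_mul' := by
            intro a b
            have : ∀ i, ee K l (fox (oo K l) i (a * b)) =
                ee K l (fox (oo K l) i a) + ee K l (fox (oo K l) i b) := by
              intro i
              rw [fox_mul, map_add, map_mul, ee_of, one_mul]
            simp only [this, mul_add, sum_add_distrib]
            rfl }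
      have hχ : χ.comp φ = 1 := by
        ext j
        show Multiplicative.ofAdd (∑ i, c i * ee K l (fox (oo K l) i (φ (FreeGroup.of j)))) = 1
        rw [← hΘ, hc]
        rfl
      intro w
      obtain ⟨v, rfl⟩ := hφ w
      have := DFunLike.congr_fun hχ v
      exact this
    funext i
    have h := h0 (FreeGroup.of i)
    rw [sum_eq_single i] at h
    · rw [fox_of, if_pos rfl, map_one, mul_one] at h
      exact h
    · intro b _ hb
      rw [fox_of, if_neg (Ne.symm hb), map_zero, mul_zero]
    · intro h; exact absurd (mem_univ i) h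
  have hΘker : LinearMap.range Θ ≤ LinearMap.ker Ψ := by
    rintro _ ⟨c, rfl⟩
    rw [LinearMap.mem_ker, hΨ]
    have h1 : ∀ j ∈ (univ : Finset (Fin k)), Θ c j • D (E j) =
        ∑ i, c i • (ee K l (fox (oo K l) i (φ (FreeGroup.of j))) • D (E j)) := by
      intro j _
      rw [hΘ, sum_smul]
      exact sum_congr rfl fun i _ => by rw [mul_smul]
    rw [sum_congr rfl h1, sum_comm]
    refine sum_eq_zero fun i _ => ?_
    rw [← smul_sum, hrel2, smul_zero]
  have hl : l ≤ finrank K (LinearMap.ker Ψ) := by
    have h1 := LinearMap.finrank_range_of_inj hΘinj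
    rw [finrank_fin_fun] at h1
    exact h1.symm.le.trans (Submodule.finrank_mono hΘker)
  have hk := LinearMap.finrank_range_add_finrank_ker Ψ
  rw [finrank_fin_fun] at hk
  have hT : finrank K ((Fin l → MonoidAlgebra K (FreeGroup (Fin l)) ⧸ J) × K) =
      l * finrank K (MonoidAlgebra K (FreeGroup (Fin l)) ⧸ J) + 1 := by
    rw [finrank_prod, finrank_pi_fintype, finrank_self, sum_const, card_univ, Fintype.card_fin,
      smul_eq_mul]
  have hq := Submodule.finrank_quotient_add_finrank (J.map D)
  rw [hT] at hq
  have hm : finrank K (J.map D) ≤ finrank K (LinearMap.range Ψ) := Submodule.finrank_mono hmap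
  have hle : finrank K (((Fin l → MonoidAlgebra K (FreeGroup (Fin l)) ⧸ J) × K) ⧸ J.map D) ≤
      finrank K (MonoidAlgebra K (FreeGroup (Fin l)) ⧸ J) := by
    let g := Submodule.mapQ J (J.map D) D (Submodule.le_comap_map D J)
    have hg : Function.Surjective g := by
      intro t
      obtain ⟨t', rfl⟩ := (J.map D).mkQ_surjective t
      obtain ⟨x, rfl⟩ := hsurj t'
      exact ⟨J.mkQ x, rfl⟩
    exact LinearMap.finrank_le_finrank_of_surjective hg
  omega

end Pool.Agent.MelD
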