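import Pool.Agent.MelD.CaseA
import Pool.Agent.MelD.CaseB
import Pool.Agent.MelD.Rigid
import Pool.Agent.MelD.GenP
import Pool.Agent.MelD.Schr

/-!
# The codimension is at most one
-/

open Finset Module

namespace Pool.Agent.MelD

open Pool.Agent.MelG (HasRel)

/-- `Q` is an extension of a `p`-group by a quotient of `L` through `φ`. -/
def PL (p : ℕ) {k : ℕ} {L : Type} [Group L] (φ : FreeGroup (Fin k) →* L) (r : FreeGroup (Fin k))
    {Q : Type} [Group Q] (π : FreeGroup (Fin k) →* Q) : Prop :=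
  Function.Surjective π ∧ π r = 1 ∧
    ∃ (Q' : Type) (_ : Group Q') (_ : Fintype Q') (θ : Q →* Q') (κ : L →* Q'),
      Function.Surjective θ ∧ θ.comp π = κ.comp φ ∧ IsPGroup p θ.ker

/-- The bound by `m`. -/
theorem rank_le_m {k l : ℕ} (r : FreeGroup (Fin k)) (hr1 : r ≠ 1)
    (φ : FreeGroup (Fin k) →* FreeGroup (Fin l)) (hφ : Function.Surjective φ) (hl : 1 ≤ l)
    (hr : φ r = 1) (m : ℕ) (H : HL m φ r)
    (K : Type) [Field K] [Finite K] :
    Module.rank K (MonoidAlgebra K (FreeGroup (Fin l)) ⧸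
      RI (K := K) (fun j => fox ((MonoidAlgebra.of K (FreeGroup (Fin l))).comp φ) j r)) ≤ m := by
  by_cases h : ∃ j, fox ((MonoidAlgebra.of ℚ (FreeGroup (Fin l))).comp φ) j r ≠ 0
  · obtain ⟨j, hj⟩ := h
    exact caseA r φ hφ hr j hj m H K
  · push Not at h
    exact (caseB r hr1 φ hφ hl hr h m H).elim

theorem infinite_free {l : ℕ} (hl : 1 ≤ l) : Infinite (FreeGroup (Fin l)) := by
  have h : Function.Surjective (FreeGroup.lift (fun _ : Fin l => Multiplicative.ofAdd (1 : ℤ))) := by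
    intro z
    refine ⟨FreeGroup.of ⟨0, hl⟩ ^ (Multiplicative.toAdd z), ?_⟩
    rw [map_zpow, FreeGroup.lift_apply_of]
    apply Multiplicative.toAdd.injective
    rw [toAdd_zpow, toAdd_ofAdd]
    simp
  exact Infinite.of_surjective _ h

/-- Some Fox derivative is not zero over `K`. -/
theorem exists_fox_ne {k l : ℕ} (r : FreeGroup (Fin k)) 
    (φ : FreeGroup (Fin k) →* FreeGroup (Fin l)) (hl : 1 ≤ l) (m : ℕ)
    (K : Type) [Field K]
    (h : Module.rank K (MonoidAlgebra K (FreeGroup (Fin l)) ⧸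
      RI (K := K) (fun j => fox ((MonoidAlgebra.of K (FreeGroup (Fin l))).comp φ) j r)) ≤ m) :
    ∃ j, fox ((MonoidAlgebra.of K (FreeGroup (Fin l))).comp φ) j r ≠ 0 := by
  by_contra hcon
  push Not at hcon
  have h0 : RI (K := K)
      (fun j => fox ((MonoidAlgebra.of K (FreeGroup (Fin l))).comp φ) j r) = ⊥ := by
    unfold RI
    rw [Submodule.span_eq_bot]
    rintro x ⟨j, y, rfl⟩
    show fox ((MonoidAlgebra.of K (FreeGroup (Fin l))).comp φ) j r * y = 0
    rw [hcon j, zero_mul]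
  have h1 : Module.Finite K (MonoidAlgebra K (FreeGroup (Fin l)) ⧸
      RI (K := K) (fun j => fox ((MonoidAlgebra.of K (FreeGroup (Fin l))).comp φ) j r)) :=
    Module.rank_lt_aleph0_iff.mp (lt_of_le_of_lt h (Cardinal.natCast_lt_aleph0))
  have h2 : Module.Finite K (MonoidAlgebra K (FreeGroup (Fin l))) :=
    Module.Finite.equiv (Submodule.quotEquivOfEqBot _ h0)
  have h3 : Module.Finite K (FreeGroup (Fin l) →₀ K) :=
    Module.Finite.equiv (MonoidAlgebra.coeffLinearEquiv K)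
  rcases Module.finite_finsupp_self_iff.mp h3 with h4 | h4
  · exact not_subsingleton K h4
  · exact (infinite_free hl).not_finite h4

theorem graph_foxK {K : Type} [Field K] {k : ℕ} {L : Type} [Group L] {Q : Type} [Group Q]
    (κ : L →* Q) (φ : FreeGroup (Fin k) →* L) (j : Fin k) (r : FreeGroup (Fin k)) :
    fox ((MonoidAlgebra.of K (L × Q)).comp (φ.prod (κ.comp φ))) j r =
      MonoidAlgebra.mapDomain (fun u : L => (u, κ u))
        (fox ((MonoidAlgebra.of K L).comp φ) j r) := by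
  have h1 := map_fox (MonoidAlgebra.mapDomainRingHom K ((MonoidHom.id L).prod κ))
    ((MonoidAlgebra.of K L).comp φ) j r
  have h2 : ((MonoidAlgebra.mapDomainRingHom K ((MonoidHom.id L).prod κ) :
      MonoidAlgebra K L →* MonoidAlgebra K (L × Q))).comp ((MonoidAlgebra.of K L).comp φ) =
      (MonoidAlgebra.of K (L × Q)).comp (φ.prod (κ.comp φ)) := by
    apply MonoidHom.ext
    intro g
    show MonoidAlgebra.mapDomain _ (MonoidAlgebra.of K L (φ g)) = _
    rw [MonoidAlgebra.of_apply, MonoidAlgebra.mapDomain_single]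
    rfl
  rw [h2] at h1
  exact h1.symm

/-- The coranks of the extensions of `p`-groups by quotients of `L` are at most `m`. -/
theorem cork_le_m {k l : ℕ} (r : FreeGroup (Fin k))
    (φ : FreeGroup (Fin k) →* FreeGroup (Fin l)) (hr : φ r = 1) (m : ℕ)
    (H : ∀ N : Subgroup (OR r), N.Normal → N.FiniteIndex → HasRel m N)
    {p : ℕ} [Fact p.Prime] (K : Type) [Field K] [Finite K] [CharP K p] (j : Fin k)
    (hj : fox ((MonoidAlgebra.of K (FreeGroup (Fin l))).comp φ) j r ≠ 0)
    {Q : Type} [Group Q] [Fintype Q] (π : FreeGroup (Fin k) →* Q) (hπ : PL p φ r π)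
    (K' : Type) [Field K'] : cork K' r π ≤ m := by
  classical
  obtain ⟨hs, hr1, Q', iQ, iF, θ, κ, hθs, hθ, hp⟩ := hπ
  by_contra hcon
  have hinj : Function.Injective (fun u : FreeGroup (Fin l) => (u, κ u)) :=
    fun a b h => congrArg Prod.fst h
  have he : fox ((MonoidAlgebra.of K (FreeGroup (Fin l) × Q')).comp (φ.prod (θ.comp π))) j r ≠ 0 := by
    rw [hθ, graph_foxK]
    intro h
    apply hj
    apply MonoidAlgebra.mapDomain_injective hinj
    rw [h]
    symm
    exact MonoidAlgebra.mapDomain_zero _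
  have hsup : ∀ x ∈ (fox ((MonoidAlgebra.of K (FreeGroup (Fin l) × Q')).comp
      (φ.prod (θ.comp π))) j r).coeff.support, x.2 = κ x.1 := by
    intro x hx
    rw [hθ, graph_foxK] at hx
    have h2 := Finsupp.mapDomain_support hx
    obtain ⟨u, _, hu⟩ := mem_image.mp h2
    rw [← hu]
  obtain ⟨V, iV1, iV2, iV3, ρ, hρ, h2⟩ := genP r (nice_free l) φ hr π θ hθs hp j he (by
    intro x hx y hy hxy
    rw [hsup x hx, hsup y hy, hxy])
  obtain ⟨π', hπ'⟩ := exists_desc r π hr1
  have h3 := rank_add_cork K' r π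
  exact crit r π hs (K₁ := K') (by omega) ρ hρ h2 π' hπ' (H π'.ker inferInstance inferInstance)

/-- The coranks of the extensions of `p`-groups by quotients of `L` are at most one over finite
fields of characteristic `p`. -/
theorem cork_le_one {k l : ℕ} (hk : 2 ≤ k) (r : FreeGroup (Fin k))
    (φ : FreeGroup (Fin k) →* FreeGroup (Fin l)) (hr : φ r = 1) (m : ℕ)
    (H : ∀ N : Subgroup (OR r), N.Normal → N.FiniteIndex → HasRel m N)
    {p : ℕ} [Fact p.Prime] (K : Type) [Field K] [Finite K] [CharP K p] (j : Fin k)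
    (hj : fox ((MonoidAlgebra.of K (FreeGroup (Fin l))).comp φ) j r ≠ 0)
    {Q : Type} [Group Q] [Fintype Q] (π : FreeGroup (Fin k) →* Q) (hπ : PL p φ r π) :
    cork K r π ≤ 1 := by
  classical
  let P : ℕ → Prop := fun c => ∃ (Q : Type) (_ : Group Q) (_ : Fintype Q)
    (π : FreeGroup (Fin k) →* Q), PL p φ r π ∧ cork K r π = c
  have hP : P (cork K r π) := ⟨Q, inferInstance, inferInstance, π, hπ, rfl⟩
  have hb : ∀ c, P c → c ≤ m := by
    rintro c ⟨Q, _, _, π, h, rfl⟩
    exact cork_le_m r φ hr m H K j hj π h K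
  have hg := Nat.findGreatest_spec (P := P) (hb _ hP) hP
  have hle : cork K r π ≤ Nat.findGreatest P m := Nat.le_findGreatest (hb _ hP) hP
  obtain ⟨Q₀, iG, iF, π₀, h0, h0c⟩ := hg
  obtain ⟨hs, hr1, Q', iQ, iF', θ, κ, hθs, hθ, hp⟩ := h0
  have h1 : cork K r π₀ ≤ 1 := by
    refine rigid (p := p) hk π₀ hs r hr1 ?_
    intro Q₁ iG₁ iF₁ π₁ θ₁ hs₁ hr₁ hθ₁ hp₁
    rw [h0c]
    have hPL : PL p φ r π₁ := by
      refine ⟨hs₁, hr₁, Q', iQ, iF', θ.comp θ₁, κ, ?_, ?_, ?_⟩
      · have hs₁' : Function.Surjective θ₁ := by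
          intro q
          obtain ⟨g, hg⟩ := hs q
          refine ⟨π₁ g, ?_⟩
          rw [← hg, ← hθ₁]
          rfl
        exact hθs.comp hs₁'
      · rw [MonoidHom.comp_assoc, hθ₁, hθ]
      · intro g
        obtain ⟨a, ha⟩ := hp ⟨θ₁ g.1, by
          rw [MonoidHom.mem_ker]
          exact g.2⟩
        have ha' : θ₁ g.1 ^ p ^ a = 1 := congrArg Subtype.val ha
        obtain ⟨b, hb'⟩ := hp₁ ⟨g.1 ^ p ^ a, by
          rw [MonoidHom.mem_ker, map_pow, ha']⟩
        have hb'' : (g.1 ^ p ^ a) ^ p ^ b = 1 := congrArg Subtype.val hb'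
        refine ⟨a + b, ?_⟩
        apply Subtype.ext
        show g.1 ^ p ^ (a + b) = 1
        rw [pow_add, pow_mul, hb'']
    have hP1 : P (cork K r π₁) := ⟨Q₁, iG₁, iF₁, π₁, hPL, rfl⟩
    exact Nat.le_findGreatest (hb _ hP1) hP1
  rw [h0c] at h1
  exact le_trans hle h1

theorem two_le {k l : ℕ} (r : FreeGroup (Fin k))
    (φ : FreeGroup (Fin k) →* FreeGroup (Fin l)) (hφ : Function.Surjective φ) (hl : 1 ≤ l)
    (hr : φ r = 1) (m : ℕ) (K : Type) [Field K]
    (h : Module.rank K (MonoidAlgebra K (FreeGroup (Fin l)) ⧸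
      RI (K := K) (fun j => fox ((MonoidAlgebra.of K (FreeGroup (Fin l))).comp φ) j r)) ≤ m) :
    2 ≤ k := by
  have h1 : FiniteDimensional K (MonoidAlgebra K (FreeGroup (Fin l)) ⧸
      RI (K := K) (fun j => fox ((MonoidAlgebra.of K (FreeGroup (Fin l))).comp φ) j r)) :=
    Module.rank_lt_aleph0_iff.mp (lt_of_le_of_lt h (Cardinal.natCast_lt_aleph0))
  have h2 := schreier φ hφ r hr h1
  set c := finrank K (MonoidAlgebra K (FreeGroup (Fin l)) ⧸
      RI (K := K) (fun j => fox ((MonoidAlgebra.of K (FreeGroup (Fin l))).comp φ) j r))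
  have h3 : 1 * c ≤ l * c := Nat.mul_le_mul_right c hl
  omega

/-- The codimension of the right ideal is at most one. -/
theorem rank_le_one {k l : ℕ} (r : FreeGroup (Fin k)) (hr1 : r ≠ 1)
    (φ : FreeGroup (Fin k) →* FreeGroup (Fin l)) (hφ : Function.Surjective φ) (hl : 1 ≤ l)
    (hr : φ r = 1) (m : ℕ) (H : ∀ N : Subgroup (OR r), N.Normal → N.FiniteIndex → HasRel m N)
    (K : Type) [Field K] [Finite K] :
    Module.rank K (MonoidAlgebra K (FreeGroup (Fin l)) ⧸
      RI (K := K) (fun j => fox ((MonoidAlgebra.of K (FreeGroup (Fin l))).comp φ) j r)) ≤ 1 := by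
  classical
  have hm := rank_le_m r hr1 φ hφ hl hr m (HL_of_all φ r H) K
  obtain ⟨j, hj⟩ := exists_fox_ne r φ hl m K hm
  have hk := two_le r φ hφ hl hr m K hm
  obtain ⟨p, hp⟩ := CharP.exists K
  have : Fact p.Prime := ⟨CharP.char_is_prime K p⟩
  by_contra hcon
  obtain ⟨Q, iQ, iF, κ, hκ, hc⟩ :=
    null (fun j => fox ((MonoidAlgebra.of K (FreeGroup (Fin l))).comp φ) j r) 1 (by
      rw [Nat.cast_one]
      exact lt_of_not_ge hcon)
  have hle : LinearMap.range (ev (ind (κ.comp φ)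
      (1 : FreeGroup (Fin k) →* Module.End K K)) r) ≤
      ⨆ j, LinearMap.range
        (act K κ (fox ((MonoidAlgebra.of K (FreeGroup (Fin l))).comp φ) j r)) := by
    rintro _ ⟨v, rfl⟩
    rw [ev_apply, coc_eq_sum]
    refine Submodule.sum_mem _ fun i _ => ?_
    apply Submodule.mem_iSup_of_mem i
    rw [act_fox]
    exact ⟨v i, rfl⟩
  have h1 := Submodule.finrank_mono hle
  have h2 := rank_add_cork K r (κ.comp φ)
  have h3 : cork K r (κ.comp φ) ≤ 1 := by
    refine cork_le_one hk r φ hr m H (p := p) K j hj (κ.comp φ) ?_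
    refine ⟨hκ.comp hφ, ?_, Q, iQ, iF, MonoidHom.id Q, κ, Function.surjective_id, rfl, ?_⟩
    · show κ (φ r) = 1
      rw [hr, map_one]
    · intro g
      refine ⟨0, ?_⟩
      apply Subtype.ext
      rw [pow_zero, pow_one]
      exact g.2
  omega

end Pool.Agent.MelD
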