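import Mathlib

/-!
# Crossed homomorphisms of free groups and Fox derivatives over a ring

`f : FreeGroup (Fin k) →* R` a homomorphism into the multiplicative monoid of a ring, `M` a left
`R`-module.  `coc f v` is the crossed homomorphism `c (g h) = c g + f g • c h` with value `v j` at the
`j`-th generator; `fox f j` is the crossed homomorphism with values in `R` which is `1` at the `j`-th
generator and `0` at the others: the image under `f` of the `j`-th Fox derivative.
-/

open Finset

namespace Pool.Agent.MelD

section

variable {k : ℕ} {R : Type*} [Ring R] {M : Type*} [AddCommGroup M] [Module R M]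

/-- The affine action of the free group on `M` with linear part `f` and translation parts `v`. -/
def aff (f : FreeGroup (Fin k) →* R) (v : Fin k → M) : FreeGroup (Fin k) →* Equiv.Perm M :=
  FreeGroup.lift (fun j =>
    { toFun := fun x => v j + f (FreeGroup.of j) • x
      invFun := fun x => f (FreeGroup.of j)⁻¹ • (x - v j)
      left_inv := fun x => by
        show f (FreeGroup.of j)⁻¹ • (v j + f (FreeGroup.of j) • x - v j) = x
        rw [add_sub_cancel_left, smul_smul, ← map_mul, inv_mul_cancel, map_one, one_smul]
      right_inv := fun x => by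
        show v j + f (FreeGroup.of j) • (f (FreeGroup.of j)⁻¹ • (x - v j)) = x
        rw [smul_smul, ← map_mul, mul_inv_cancel, map_one, one_smul, add_sub_cancel] })

/-- The crossed homomorphism with values `v` at the generators. -/
def coc (f : FreeGroup (Fin k) →* R) (v : Fin k → M) (w : FreeGroup (Fin k)) : M := aff f v w 0

/-- The image of the `j`-th Fox derivative. -/
def fox (f : FreeGroup (Fin k) →* R) (j : Fin k) (w : FreeGroup (Fin k)) : R :=
  coc f (Pi.single j (1 : R)) w

theorem aff_of (f : FreeGroup (Fin k) →* R) (v : Fin k → M) (j : Fin k) (x : M) :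
    aff f v (FreeGroup.of j) x = v j + f (FreeGroup.of j) • x := by
  unfold aff
  rw [FreeGroup.lift_apply_of]
  rfl

theorem aff_apply (f : FreeGroup (Fin k) →* R) (v : Fin k → M) (w : FreeGroup (Fin k)) :
    ∀ x : M, aff f v w x = coc f v w + f w • x := by
  unfold coc
  induction w using FreeGroup.induction_on with
  | C1 => intro x; simp
  | of j => intro x; rw [aff_of, aff_of, smul_zero, add_zero]
  | inv_of j _ =>
    intro x
    have key : ∀ y : M, aff f v (FreeGroup.of j)⁻¹ y = f (FreeGroup.of j)⁻¹ • (y - v j) := by
      intro y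
      rw [map_inv, Equiv.Perm.inv_def, Equiv.symm_apply_eq, aff_of, smul_smul, ← map_mul,
        mul_inv_cancel, map_one, one_smul, add_sub_cancel]
    rw [key, key, ← smul_add, zero_sub, neg_add_eq_sub]
  | mul a b ha hb =>
    intro x
    have h1 : ∀ y, aff f v (a * b) y = aff f v a (aff f v b y) := by
      intro y; rw [map_mul]; rfl
    rw [h1, h1, hb x, ha, ha (aff f v b 0), map_mul, smul_add, smul_smul, add_assoc]

theorem coc_of (f : FreeGroup (Fin k) →* R) (v : Fin k → M) (j : Fin k) :
    coc f v (FreeGroup.of j) = v j := by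
  unfold coc
  rw [aff_of, smul_zero, add_zero]

theorem coc_mul (f : FreeGroup (Fin k) →* R) (v : Fin k → M) (g h : FreeGroup (Fin k)) :
    coc f v (g * h) = coc f v g + f g • coc f v h := by
  have h1 : coc f v (g * h) = aff f v g (coc f v h) := by
    unfold coc; rw [map_mul]; rfl
  rw [h1, aff_apply]

/-- A crossed homomorphism is determined by its values at the generators. -/
theorem coc_unique (f : FreeGroup (Fin k) →* R) (c c' : FreeGroup (Fin k) → M)
    (hc : ∀ g h, c (g * h) = c g + f g • c h) (hc' : ∀ g h, c' (g * h) = c' g + f g • c' h)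
    (h0 : ∀ j, c (FreeGroup.of j) = c' (FreeGroup.of j)) (w : FreeGroup (Fin k)) : c w = c' w := by
  have h1 : c 1 = 0 := by
    have := hc 1 1
    simpa using this
  have h1' : c' 1 = 0 := by
    have := hc' 1 1
    simpa using this
  have hi : ∀ g, c g⁻¹ = - (f g⁻¹ • c g) := by
    intro g
    have := hc g⁻¹ g
    rw [inv_mul_cancel, h1] at this
    exact eq_neg_of_add_eq_zero_left this.symm
  have hi' : ∀ g, c' g⁻¹ = - (f g⁻¹ • c' g) := by
    intro g
    have := hc' g⁻¹ g
    rw [inv_mul_cancel, h1'] at this
    exact eq_neg_of_add_eq_zero_left this.symm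
  induction w using FreeGroup.induction_on with
  | C1 => rw [h1, h1']
  | of j => exact h0 j
  | inv_of j h => rw [hi, hi', h0 j]
  | mul a b ha hb => rw [hc, hc', ha, hb]

theorem coc_one (f : FreeGroup (Fin k) →* R) (v : Fin k → M) : coc f v 1 = 0 := by
  have := coc_mul f v 1 1
  simpa using this

theorem coc_inv (f : FreeGroup (Fin k) →* R) (v : Fin k → M) (g : FreeGroup (Fin k)) :
    coc f v g⁻¹ = - (f g⁻¹ • coc f v g) := by
  have := coc_mul f v g⁻¹ g
  rw [inv_mul_cancel, coc_one] at this
  exact eq_neg_of_add_eq_zero_left this.symm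

theorem fox_of (f : FreeGroup (Fin k) →* R) (i j : Fin k) :
    fox f j (FreeGroup.of i) = if i = j then 1 else 0 := by
  unfold fox
  rw [coc_of, Pi.single_apply]

theorem fox_mul (f : FreeGroup (Fin k) →* R) (j : Fin k) (g h : FreeGroup (Fin k)) :
    fox f j (g * h) = fox f j g + f g * fox f j h := by
  unfold fox
  rw [coc_mul, smul_eq_mul]

theorem coc_eq_sum (f : FreeGroup (Fin k) →* R) (v : Fin k → M) (w : FreeGroup (Fin k)) :
    coc f v w = ∑ j, fox f j w • v j := by
  refine coc_unique f (coc f v) (fun w => ∑ j, fox f j w • v j) (coc_mul f v) ?_ ?_ w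
  · intro g h
    simp only [fox_mul, add_smul, sum_add_distrib, smul_sum, smul_smul]
  · intro i
    simp only [coc_of, fox_of, ite_smul, one_smul, zero_smul, sum_ite_eq, mem_univ, if_true]

/-- Fox derivatives are compatible with ring homomorphisms. -/
theorem map_fox {S : Type*} [Ring S] (φ : R →+* S) (f : FreeGroup (Fin k) →* R) (j : Fin k)
    (w : FreeGroup (Fin k)) : φ (fox f j w) = fox ((φ : R →* S).comp f) j w := by
  refine coc_unique ((φ : R →* S).comp f) (fun w => φ (fox f j w))
    (fox ((φ : R →* S).comp f) j) ?_ ?_ ?_ w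
  · intro g h
    simp only [fox_mul, map_add, map_mul, smul_eq_mul]
    rfl
  · intro g h
    rw [fox_mul, smul_eq_mul]
  · intro i
    simp only [fox_of]
    split_ifs <;> simp

/-- The fundamental formula of the free differential calculus. -/
theorem fundamental (f : FreeGroup (Fin k) →* R) (w : FreeGroup (Fin k)) :
    f w - 1 = ∑ j, fox f j w * (f (FreeGroup.of j) - 1) := by
  have h := coc_unique f (fun w => f w - 1) (coc f (fun j => f (FreeGroup.of j) - 1)) ?_
    (coc_mul f _) ?_ w
  · rw [coc_eq_sum] at h
    exact h
  · intro g h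
    simp only [map_mul, smul_eq_mul, mul_sub, mul_one]
    abel
  · intro j
    rw [coc_of]

end

end Pool.Agent.MelD
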