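import Pool.Agent.MelD.Def

/-!
# Power series with constant coefficient 1 over a noncommutative ring

`Gam R`: the group of power series over `R` with constant coefficient `1`; `KD R D`: the normal
subgroup of the series `u` with `coeff n u = 0` for `0 < n < D`.  Unique products modulo `t ^ D`.
-/

open Finset PowerSeries

namespace Pool.Agent.MelD

/-- The group of power series with constant coefficient `1`. -/
noncomputable def Gam (R : Type) [Ring R] : Subgroup (R⟦X⟧)ˣ :=
  (Units.map ((constantCoeff : R⟦X⟧ →+* R) : R⟦X⟧ →* R)).ker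

theorem mem_Gam {R : Type} [Ring R] {u : (R⟦X⟧)ˣ} :
    u ∈ Gam R ↔ constantCoeff (u : R⟦X⟧) = 1 := by
  unfold Gam
  rw [MonoidHom.mem_ker, Units.ext_iff]
  rfl

/-- The series of an element of `Gam R`. -/
noncomputable def ser {R : Type} [Ring R] (u : Gam R) : R⟦X⟧ := ((u : (R⟦X⟧)ˣ) : R⟦X⟧)

/-- `ser` as a monoid homomorphism. -/
noncomputable def serHom (R : Type) [Ring R] : Gam R →* R⟦X⟧ :=
  (Units.coeHom R⟦X⟧).comp (Gam R).subtype

theorem serHom_apply {R : Type} [Ring R] (u : Gam R) : serHom R u = ser u := rfl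

theorem ser_mul {R : Type} [Ring R] (u v : Gam R) : ser (u * v) = ser u * ser v := rfl

theorem ser_one {R : Type} [Ring R] : ser (1 : Gam R) = 1 := rfl

theorem ser_injective {R : Type} [Ring R] : Function.Injective (ser : Gam R → R⟦X⟧) := by
  intro u v h
  exact Subtype.ext (Units.ext h)

theorem coeff_zero_ser {R : Type} [Ring R] (u : Gam R) : coeff 0 (ser u) = 1 := by
  rw [coeff_zero_eq_constantCoeff]
  exact mem_Gam.mp u.2

/-- Every power series with constant coefficient `1` is the series of an element of `Gam R`. -/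
theorem exists_ser {R : Type} [Ring R] (x : R⟦X⟧) (h : constantCoeff x = 1) :
    ∃ u : Gam R, ser u = x := by
  have h' : constantCoeff x = ((1 : Rˣ) : R) := by rw [h]; rfl
  refine ⟨⟨⟨x, invOfUnit x 1, mul_invOfUnit x 1 h', invOfUnit_mul x 1 h'⟩, ?_⟩, rfl⟩
  rw [mem_Gam]
  exact h

/-- The coefficient of a product: `(u v)_n = u_n + v_n + ∑_{0<i<n} u_i v_{n-i}`. -/
theorem coeff_ser_mul {R : Type} [Ring R] (u v : Gam R) (n : ℕ) (hn : 0 < n) :
    coeff n (ser (u * v)) = coeff n (ser u) + coeff n (ser v) +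
      ∑ i ∈ Ioo 0 n, coeff i (ser u) * coeff (n - i) (ser v) := by
  rw [ser_mul, coeff_mul, Finset.Nat.sum_antidiagonal_eq_sum_range_succ_mk]
  have h1 : range n.succ = insert 0 (insert n (Ioo 0 n)) := by
    ext i
    simp only [mem_range, mem_insert, mem_Ioo]
    omega
  rw [h1, sum_insert (by simp; omega), sum_insert (by simp)]
  simp only [Nat.sub_zero, Nat.sub_self]
  rw [coeff_zero_ser, coeff_zero_ser, one_mul, mul_one]
  abel

/-- Congruence modulo `t ^ D`. -/
def Cong {R : Type} [Ring R] (D : ℕ) (x y : R⟦X⟧) : Prop := ∀ n, n < D → coeff n x = coeff n y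

theorem Cong.mul {R : Type} [Ring R] {D : ℕ} {x x' y y' : R⟦X⟧} (h : Cong D x x')
    (h' : Cong D y y') : Cong D (x * y) (x' * y') := by
  intro n hn
  rw [coeff_mul, coeff_mul]
  refine sum_congr rfl fun p hp => ?_
  rw [HasAntidiagonal.mem_antidiagonal] at hp
  rw [h p.1 (by omega), h' p.2 (by omega)]

theorem Cong.refl {R : Type} [Ring R] (D : ℕ) (x : R⟦X⟧) : Cong D x x := fun _ _ => rfl

theorem Cong.symm {R : Type} [Ring R] {D : ℕ} {x y : R⟦X⟧} (h : Cong D x y) : Cong D y x :=
  fun n hn => (h n hn).symm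

theorem Cong.trans {R : Type} [Ring R] {D : ℕ} {x y z : R⟦X⟧} (h : Cong D x y) (h' : Cong D y z) :
    Cong D x z := fun n hn => (h n hn).trans (h' n hn)

theorem cong_one {R : Type} [Ring R] {D : ℕ} {u : Gam R} :
    Cong D (ser u) 1 ↔ ∀ n, 0 < n → n < D → coeff n (ser u) = 0 := by
  constructor
  · intro h n hn hD
    rw [h n hD, coeff_one, if_neg (by omega)]
  · intro h n hD
    rcases Nat.eq_zero_or_pos n with rfl | hn
    · rw [coeff_zero_ser, coeff_one, if_pos rfl]
    · rw [h n hn hD, coeff_one, if_neg (by omega)]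

theorem cong_inv {R : Type} [Ring R] {D : ℕ} {u : Gam R} (h : Cong D (ser u) 1) :
    Cong D (ser u⁻¹) 1 := by
  have h1 := (Cong.refl D (ser u⁻¹)).mul h
  rw [← ser_mul, inv_mul_cancel, ser_one, mul_one] at h1
  exact h1.symm

/-- Series congruent to `1` modulo `t ^ D`. -/
def KD (R : Type) [Ring R] (D : ℕ) : Subgroup (Gam R) where
  carrier := {u | ∀ n, 0 < n → n < D → coeff n (ser u) = 0}
  one_mem' := by
    rw [Set.mem_ofPred_eq, ← cong_one, ser_one]
    exact Cong.refl D 1
  mul_mem' := by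
    intro a b ha hb
    rw [Set.mem_ofPred_eq, ← cong_one] at ha hb ⊢
    rw [ser_mul]
    have := ha.mul hb
    rwa [one_mul] at this
  inv_mem' := by
    intro a ha
    rw [Set.mem_ofPred_eq, ← cong_one] at ha ⊢
    exact cong_inv ha

theorem mem_KD {R : Type} [Ring R] {D : ℕ} {u : Gam R} : u ∈ KD R D ↔ Cong D (ser u) 1 := by
  rw [cong_one]
  rfl

instance normal_KD (R : Type) [Ring R] (D : ℕ) : (KD R D).Normal := by
  constructor
  intro u hu g
  rw [mem_KD] at hu ⊢
  have h1 := ((Cong.refl D (ser g)).mul hu).mul (Cong.refl D (ser g⁻¹))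
  rw [mul_one, ← ser_mul, ← ser_mul, ← ser_mul, mul_inv_cancel, ser_one] at h1
  exact h1

/-- `u` and `v` have the same class modulo `KD R D` iff they agree modulo `t ^ D`. -/
theorem mk_eq_mk {R : Type} [Ring R] (D : ℕ) (u v : Gam R) :
    (u : Gam R ⧸ KD R D) = (v : Gam R ⧸ KD R D) ↔
      ∀ n, n < D → coeff n (ser u) = coeff n (ser v) := by
  rw [QuotientGroup.eq, mem_KD]
  constructor
  · intro h
    have h1 := (Cong.refl D (ser u)).mul h
    rw [← ser_mul, mul_inv_cancel_left, mul_one] at h1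
    exact h1.symm
  · intro h
    have h1 := (Cong.refl D (ser u⁻¹)).mul (show Cong D (ser u) (ser v) from h)
    rw [← ser_mul, ← ser_mul, inv_mul_cancel, ser_one] at h1
    exact h1.symm

/-- Unique products modulo `t ^ D`. -/
theorem uniq {R : Type} [Ring R] [UniqueSums R] (D : ℕ) (A B : Finset (Gam R)) (hA : A.Nonempty)
    (hB : B.Nonempty) : ∃ a ∈ A, ∃ b ∈ B, ∀ a' ∈ A, ∀ b' ∈ B,
      Cong D (ser (a' * b')) (ser (a * b)) → Cong D (ser a') (ser a) ∧ Cong D (ser b') (ser b) := by
  classical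
  induction D with
  | zero =>
    obtain ⟨a, ha⟩ := hA
    obtain ⟨b, hb⟩ := hB
    exact ⟨a, ha, b, hb, fun a' _ b' _ _ => ⟨fun n hn => absurd hn (by omega),
      fun n hn => absurd hn (by omega)⟩⟩
  | succ D ih =>
    rcases Nat.eq_zero_or_pos D with rfl | hD
    · obtain ⟨a, ha⟩ := hA
      obtain ⟨b, hb⟩ := hB
      refine ⟨a, ha, b, hb, fun a' _ b' _ _ => ⟨fun n hn => ?_, fun n hn => ?_⟩⟩ <;>
      · obtain rfl : n = 0 := by omega
        rw [coeff_zero_ser, coeff_zero_ser]
    · obtain ⟨a0, ha0, b0, hb0, h0⟩ := ih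
      set A1 := A.filter (fun a => Cong D (ser a) (ser a0)) with hA1
      set B1 := B.filter (fun b => Cong D (ser b) (ser b0)) with hB1
      have hA1n : (A1.image (fun a => coeff D (ser a))).Nonempty :=
        ⟨_, mem_image_of_mem _ (mem_filter.mpr ⟨ha0, Cong.refl D _⟩)⟩
      have hB1n : (B1.image (fun b => coeff D (ser b))).Nonempty :=
        ⟨_, mem_image_of_mem _ (mem_filter.mpr ⟨hb0, Cong.refl D _⟩)⟩
      obtain ⟨α, hα, β, hβ, hu⟩ := UniqueSums.uniqueAdd_of_nonempty hA1n hB1n
      obtain ⟨a, ha, rfl⟩ := mem_image.mp hα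
      obtain ⟨b, hb, rfl⟩ := mem_image.mp hβ
      rw [hA1, mem_filter] at ha
      rw [hB1, mem_filter] at hb
      refine ⟨a, ha.1, b, hb.1, fun a' ha' b' hb' h => ?_⟩
      have hab : Cong D (ser (a' * b')) (ser (a0 * b0)) := by
        refine Cong.trans (y := ser (a * b)) (fun n hn => h n (by omega)) ?_
        rw [ser_mul, ser_mul]
        exact ha.2.mul hb.2
      obtain ⟨h1, h2⟩ := h0 a' ha' b' hb' hab
      have h3 := h D (by omega)
      rw [coeff_ser_mul _ _ _ hD, coeff_ser_mul _ _ _ hD] at h3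
      have h4 : ∑ i ∈ Ioo 0 D, coeff i (ser a') * coeff (D - i) (ser b') =
          ∑ i ∈ Ioo 0 D, coeff i (ser a) * coeff (D - i) (ser b) := by
        refine sum_congr rfl fun i hi => ?_
        rw [mem_Ioo] at hi
        rw [(h1.trans ha.2.symm) i hi.2, (h2.trans hb.2.symm) (D - i) (by omega)]
      rw [h4] at h3
      have h5 := hu (mem_image_of_mem _ (mem_filter.mpr ⟨ha', h1⟩))
        (mem_image_of_mem _ (mem_filter.mpr ⟨hb', h2⟩)) (add_right_cancel h3)
      refine ⟨fun n hn => ?_, fun n hn => ?_⟩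
      · rcases Nat.lt_or_ge n D with h6 | h6
        · exact (h1.trans ha.2.symm) n h6
        · obtain rfl : n = D := by omega
          exact h5.1
      · rcases Nat.lt_or_ge n D with h6 | h6
        · exact (h2.trans hb.2.symm) n h6
        · obtain rfl : n = D := by omega
          exact h5.2

end Pool.Agent.MelD
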