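import Pool.Agent.MelD.ChiDef

/-!
# Lifting of a dual character to the `p`-adic integers

Proof.  `S_j` = the set of characters `χ : F → ℤ_[p]` which reduce to `χ₁` modulo `p` and such that `p ^ j`
divides all `fox χ i r`.  `S_1` is not empty (`first`).  Step `j → j + 1`, `j ≥ 1` (`step`): change the values
`χ x_l` at the generators to `χ x_l (1 + p ^ j δ l)`.  Over the dual numbers `A[ε]` the character `tw χ δ`
with values `χ x_l (1 + ε δ l)` has the Fox derivatives `fox χ i r + ε DD χ δ i r`, and `ε ↦ t` is a ring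
homomorphism (`theta`) if `t * t = 0`, here `t = p ^ j` in `ℤ_[p] / p ^ (j + 1)`.  Modulo `p` the map
`δ ↦ (DD χ₁ δ i r)_i` is additive (`DD_add`) and injective by `dual_rigid` for `A = (ZMod p)[ε]`: if it kills
`δ`, then `tw χ₁ δ` is dual, so it has its values in `ZMod p`, so `δ = 0`.  Hence it is surjective (`DD_surj`)
and `δ` can be chosen.  The limit is `PadicInt.lift` on `ℤ[F]`.
-/

open Finset Module

namespace Pool.Agent.MelD

open Pool.Agent.MelG (HasRel)

namespace Hens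

section Tw

variable {k : ℕ} {A : Type*} [CommRing A] {B : Type*} [CommRing B]

/-- The additive character with values `δ` at the generators. -/
def dd (δ : Fin k → A) : FreeGroup (Fin k) →* Multiplicative A :=
  FreeGroup.lift (fun l => Multiplicative.ofAdd (δ l))

theorem dd_of (δ : Fin k → A) (l : Fin k) : (dd δ (FreeGroup.of l)).toAdd = δ l := by
  unfold dd
  rw [FreeGroup.lift_apply_of]
  rfl

theorem dd_add (δ δ' : Fin k → A) (g : FreeGroup (Fin k)) :
    (dd (δ + δ') g).toAdd = (dd δ g).toAdd + (dd δ' g).toAdd := by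
  have h : dd (δ + δ') = dd δ * dd δ' := by
    refine FreeGroup.ext_hom _ _ (fun l => ?_)
    apply Multiplicative.toAdd.injective
    rw [dd_of]
    show _ = (dd δ (FreeGroup.of l)).toAdd + (dd δ' (FreeGroup.of l)).toAdd
    rw [dd_of, dd_of]
    rfl
  rw [h]
  rfl

/-- The character `χ (1 + ε d)` over the dual numbers. -/
def tw (χ : FreeGroup (Fin k) →* A) (δ : Fin k → A) : FreeGroup (Fin k) →* DualNumber A where
  toFun g := TrivSqZeroExt.inl (χ g) + TrivSqZeroExt.inr (χ g * (dd δ g).toAdd)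
  map_one' := by
    ext
    · simp
    · simp
  map_mul' g h := by
    ext
    · simp
    · simp
      ring

theorem tw_fst (χ : FreeGroup (Fin k) →* A) (δ : Fin k → A) (g : FreeGroup (Fin k)) :
    (tw χ δ g).fst = χ g := by
  simp [tw]

theorem tw_snd (χ : FreeGroup (Fin k) →* A) (δ : Fin k → A) (g : FreeGroup (Fin k)) :
    (tw χ δ g).snd = χ g * (dd δ g).toAdd := by
  simp [tw]

/-- first component -/
def fstH : DualNumber A →+* A where
  toFun x := x.fst
  map_zero' := rfl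
  map_one' := rfl
  map_add' _ _ := rfl
  map_mul' _ _ := rfl

/-- `ε ↦ t` -/
def theta (t : A) (ht : t * t = 0) : DualNumber A →+* A where
  toFun x := x.fst + t * x.snd
  map_zero' := by simp
  map_one' := by simp
  map_add' x y := by simp; ring
  map_mul' x y := by
    simp
    linear_combination (- x.snd * y.snd) * ht

/-- change of the base ring -/
def mapD (f : A →+* B) : DualNumber A →+* DualNumber B where
  toFun x := TrivSqZeroExt.inl (f x.fst) + TrivSqZeroExt.inr (f x.snd)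
  map_zero' := by ext <;> simp
  map_one' := by ext <;> simp
  map_add' x y := by
    ext
    · simp
    · simp
  map_mul' x y := by
    ext
    · simp
    · simp

/-- The derivative of the Fox derivative in the direction `δ`. -/
def DD (χ : FreeGroup (Fin k) →* A) (δ : Fin k → A) (i : Fin k) (w : FreeGroup (Fin k)) : A :=
  (fox (tw χ δ) i w).snd

theorem fox_tw_fst (χ : FreeGroup (Fin k) →* A) (δ : Fin k → A) (i : Fin k)
    (w : FreeGroup (Fin k)) : (fox (tw χ δ) i w).fst = fox χ i w := by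
  have h := map_fox (fstH (A := A)) (tw χ δ) i w
  have e : ((fstH (A := A) : DualNumber A →+* A) : DualNumber A →* A).comp (tw χ δ) = χ :=
    MonoidHom.ext (fun g => tw_fst χ δ g)
  rw [e] at h
  exact h

theorem DD_map (f : A →+* B) (χ : FreeGroup (Fin k) →* A) (δ : Fin k → A) (i : Fin k)
    (w : FreeGroup (Fin k)) :
    f (DD χ δ i w) = DD ((f : A →* B).comp χ) (fun l => f (δ l)) i w := by
  have h := map_fox (mapD f) (tw χ δ) i w
  have e : ((mapD f : DualNumber A →+* DualNumber B) : DualNumber A →* DualNumber B).comp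
      (tw χ δ) = tw ((f : A →* B).comp χ) (fun l => f (δ l)) := by
    have ed : ∀ g, f ((dd δ g).toAdd) = (dd (fun l => f (δ l)) g).toAdd := by
      intro g
      have : (AddMonoidHom.toMultiplicative (f : A →+ B)).comp (dd δ) = dd (fun l => f (δ l)) := by
        refine FreeGroup.ext_hom _ _ (fun l => ?_)
        apply Multiplicative.toAdd.injective
        rw [dd_of]
        show f ((dd δ (FreeGroup.of l)).toAdd) = _
        rw [dd_of]
      rw [← this]
      rfl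
    refine MonoidHom.ext (fun g => ?_)
    ext
    · show (mapD f (tw χ δ g)).fst = _
      rw [tw_fst]
      simp [mapD, tw_fst]
    · show (mapD f (tw χ δ g)).snd = _
      rw [tw_snd, ← ed]
      simp [mapD, tw_snd]
  rw [e] at h
  unfold DD
  rw [← h]
  simp [mapD]

theorem fox_theta (t : A) (ht : t * t = 0) (χ : FreeGroup (Fin k) →* A) (δ : Fin k → A)
    (i : Fin k) (w : FreeGroup (Fin k)) :
    fox (((theta t ht : DualNumber A →+* A) : DualNumber A →* A).comp (tw χ δ)) i w =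
      fox χ i w + t * DD χ δ i w := by
  rw [← map_fox, ← fox_tw_fst χ δ]
  rfl

theorem DD_add (χ : FreeGroup (Fin k) →* A) (δ δ' : Fin k → A) (i : Fin k)
    (w : FreeGroup (Fin k)) : DD χ (δ + δ') i w = DD χ δ i w + DD χ δ' i w := by
  have key : ∀ δ : Fin k → A, ∀ g h, DD χ δ i (g * h) =
      DD χ δ i g + χ g * DD χ δ i h + χ g * (dd δ g).toAdd * fox χ i h := by
    intro δ g h
    unfold DD
    rw [fox_mul, TrivSqZeroExt.snd_add, TrivSqZeroExt.snd_mul, tw_fst, tw_snd, fox_tw_fst]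
    simp
    ring
  have hof : ∀ δ : Fin k → A, ∀ l, DD χ δ i (FreeGroup.of l) = 0 := by
    intro δ l
    unfold DD
    rw [fox_of]
    split_ifs <;> simp
  have h := coc_unique χ (fun w => DD χ (δ + δ') i w - DD χ δ i w - DD χ δ' i w) (fun _ => 0)
    ?_ ?_ ?_ w
  · linear_combination h
  · intro g h
    rw [key, key, key, dd_add, smul_eq_mul]
    ring
  · intro g h
    simp
  · intro j
    rw [hof, hof, hof]
    ring

end Tw

section Pad

variable {k : ℕ} {r : FreeGroup (Fin k)} {m p : ℕ} [Fact p.Prime]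

theorem finDual : Finite (DualNumber (ZMod p)) := inferInstanceAs (Finite (ZMod p × ZMod p))

/-- The derivative of the system of Fox derivatives is onto. -/
theorem DD_surj (hk : 2 ≤ k) (hr1 : r ≠ 1)
    (H : ∀ N : Subgroup (OR r), N.Normal → N.FiniteIndex → HasRel m N)
    (χ₁ : FreeGroup (Fin k) →* ZMod p) (h : Dual r χ₁) (c : Fin k → ZMod p) :
    ∃ δ : Fin k → ZMod p, ∀ i, DD χ₁ δ i r = c i := by
  have hz : ∀ i, DD χ₁ 0 i r = 0 := by
    intro i
    have := DD_add χ₁ 0 0 i r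
    rw [add_zero] at this
    linear_combination -this
  let φ : (Fin k → ZMod p) →+ (Fin k → ZMod p) :=
    { toFun := fun δ i => DD χ₁ δ i r
      map_zero' := funext hz
      map_add' := fun δ δ' => funext (fun i => DD_add χ₁ δ δ' i r) }
  have hinj : Function.Injective φ := by
    rw [injective_iff_map_eq_zero]
    intro δ hδ
    have hd : Dual r (tw χ₁ δ) := by
      intro i
      ext
      · rw [fox_tw_fst, h i]
        rfl
      · exact congrFun hδ i
    funext l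
    haveI : Finite (DualNumber (ZMod p)) := finDual
    obtain ⟨c, hc⟩ := dual_rigid (p := p) hk r hr1 m H (tw χ₁ δ) hd (FreeGroup.of l)
    have h1 := congrArg TrivSqZeroExt.snd hc
    rw [tw_snd, dd_of] at h1
    have h2 : (algebraMap (ZMod p) (DualNumber (ZMod p)) c).snd = 0 := rfl
    rw [h2] at h1
    have hu : χ₁ (FreeGroup.of l) ≠ 0 := by
      intro h0
      have h3 : χ₁ (FreeGroup.of l) * χ₁ (FreeGroup.of l)⁻¹ = 1 := by
        rw [← map_mul, mul_inv_cancel, map_one]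
      rw [h0, zero_mul] at h3
      exact zero_ne_one h3
    exact (mul_eq_zero.1 h1).resolve_left hu
  obtain ⟨δ, hδ⟩ := (Finite.injective_iff_surjective.1 hinj) c
  exact ⟨δ, fun i => congrFun hδ i⟩

theorem dvd_iff (n : ℕ) (x : ℤ_[p]) : (p : ℤ_[p]) ^ n ∣ x ↔ PadicInt.toZModPow n x = 0 := by
  rw [← RingHom.mem_ker, PadicInt.ker_toZModPow, Ideal.mem_span_singleton]

theorem dvd_iff_one (x : ℤ_[p]) : (p : ℤ_[p]) ∣ x ↔ PadicInt.toZMod x = 0 := by
  rw [← RingHom.mem_ker, PadicInt.ker_toZMod, PadicInt.maximalIdeal_eq_span_p,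
    Ideal.mem_span_singleton]

theorem unit_of (x : ℤ_[p]) (h : PadicInt.toZMod x ≠ 0) : IsUnit x := by
  by_contra hx
  apply h
  rw [← RingHom.mem_ker, PadicInt.ker_toZMod]
  exact (IsLocalRing.mem_maximalIdeal x).2 hx

theorem toZMod_surj (c : ZMod p) : ∃ x : ℤ_[p], PadicInt.toZMod x = c :=
  ⟨(c.val : ℤ_[p]), by rw [map_natCast, ZMod.natCast_zmod_val]⟩

/-- One step of the lifting. -/
theorem step (hk : 2 ≤ k) (hr1 : r ≠ 1)
    (H : ∀ N : Subgroup (OR r), N.Normal → N.FiniteIndex → HasRel m N)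
    (χ₁ : FreeGroup (Fin k) →* ZMod p) (h : Dual r χ₁) (n : ℕ)
    (χ : FreeGroup (Fin k) →* ℤ_[p]) (hχ : ∀ g, PadicInt.toZMod (χ g) = χ₁ g)
    (hd : ∀ i, (p : ℤ_[p]) ^ (n + 1) ∣ fox χ i r) :
    ∃ χ' : FreeGroup (Fin k) →* ℤ_[p], (∀ g, PadicInt.toZMod (χ' g) = χ₁ g) ∧
      (∀ g, (p : ℤ_[p]) ^ (n + 1) ∣ χ' g - χ g) ∧ ∀ i, (p : ℤ_[p]) ^ (n + 2) ∣ fox χ' i r := by
  choose c hc using hd
  obtain ⟨δ₁, hδ₁⟩ := DD_surj hk hr1 H χ₁ h (fun i => - PadicInt.toZMod (c i))
  choose δ hδ using fun l => toZMod_surj (δ₁ l)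
  have hp0 : PadicInt.toZMod (p : ℤ_[p]) = 0 := by rw [map_natCast, ZMod.natCast_self]
  -- the new character
  have hu : ∀ l, IsUnit (χ (FreeGroup.of l) * (1 + (p : ℤ_[p]) ^ (n + 1) * δ l)) := by
    intro l
    apply unit_of
    rw [map_mul, hχ, map_add, map_one, map_mul, map_pow, hp0, zero_pow (Nat.succ_ne_zero n),
      zero_mul, add_zero, mul_one]
    intro h0
    have h3 : χ₁ (FreeGroup.of l) * χ₁ (FreeGroup.of l)⁻¹ = 1 := by
      rw [← map_mul, mul_inv_cancel, map_one]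
    rw [h0, zero_mul] at h3
    exact zero_ne_one h3
  let χ' : FreeGroup (Fin k) →* ℤ_[p] :=
    (Units.coeHom ℤ_[p]).comp (FreeGroup.lift (fun l => (hu l).unit))
  have hχ' : ∀ l, χ' (FreeGroup.of l) =
      χ (FreeGroup.of l) * (1 + (p : ℤ_[p]) ^ (n + 1) * δ l) := by
    intro l
    show ((FreeGroup.lift (fun l => (hu l).unit) (FreeGroup.of l) : ℤ_[p]ˣ) : ℤ_[p]) = _
    rw [FreeGroup.lift_apply_of]
    rfl
  -- modulo `p ^ (n + 2)`
  let π : ℤ_[p] →+* ZMod (p ^ (n + 2)) := PadicInt.toZModPow (n + 2)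
  let t : ZMod (p ^ (n + 2)) := π ((p : ℤ_[p]) ^ (n + 1))
  have ht : t * t = 0 := by
    show π ((p : ℤ_[p]) ^ (n + 1)) * π ((p : ℤ_[p]) ^ (n + 1)) = 0
    rw [← map_mul, ← pow_add, ← dvd_iff]
    exact pow_dvd_pow _ (by omega)
  have hcomp : ((π : ℤ_[p] →* ZMod (p ^ (n + 2))).comp χ') =
      ((theta t ht : DualNumber (ZMod (p ^ (n + 2))) →+* ZMod (p ^ (n + 2))) :
        DualNumber (ZMod (p ^ (n + 2))) →* ZMod (p ^ (n + 2))).comp
        (tw ((π : ℤ_[p] →* ZMod (p ^ (n + 2))).comp χ) (fun l => π (δ l))) := by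
    refine FreeGroup.ext_hom _ _ (fun l => ?_)
    show π (χ' (FreeGroup.of l)) = (tw ((π : ℤ_[p] →* ZMod (p ^ (n + 2))).comp χ)
      (fun l => π (δ l)) (FreeGroup.of l)).fst + t * (tw ((π : ℤ_[p] →* ZMod (p ^ (n + 2))).comp χ)
      (fun l => π (δ l)) (FreeGroup.of l)).snd
    rw [tw_fst, tw_snd, dd_of, hχ']
    show _ = π (χ (FreeGroup.of l)) + π ((p : ℤ_[p]) ^ (n + 1)) * (π (χ (FreeGroup.of l)) * π (δ l))
    rw [← map_mul, ← map_mul, ← map_add]
    congr 1
    ring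
  refine ⟨χ', ?_, ?_, ?_⟩
  · intro g
    have : ((PadicInt.toZMod : ℤ_[p] →+* ZMod p) : ℤ_[p] →* ZMod p).comp χ' = χ₁ := by
      refine FreeGroup.ext_hom _ _ (fun l => ?_)
      show PadicInt.toZMod (χ' (FreeGroup.of l)) = _
      rw [hχ', map_mul, hχ, map_add, map_one, map_mul, map_pow, hp0, zero_pow (Nat.succ_ne_zero n),
        zero_mul, add_zero, mul_one]
    exact DFunLike.congr_fun this g
  · intro g
    rw [dvd_iff, map_sub, sub_eq_zero]
    have : ((PadicInt.toZModPow (n + 1) : ℤ_[p] →+* ZMod (p ^ (n + 1))) :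
        ℤ_[p] →* ZMod (p ^ (n + 1))).comp χ' = ((PadicInt.toZModPow (n + 1) : ℤ_[p] →+* _) :
        ℤ_[p] →* ZMod (p ^ (n + 1))).comp χ := by
      refine FreeGroup.ext_hom _ _ (fun l => ?_)
      show PadicInt.toZModPow (n + 1) (χ' (FreeGroup.of l)) =
        PadicInt.toZModPow (n + 1) (χ (FreeGroup.of l))
      rw [← sub_eq_zero, ← map_sub, ← dvd_iff, hχ']
      exact ⟨χ (FreeGroup.of l) * δ l, by ring⟩
    exact DFunLike.congr_fun this g
  · intro i
    rw [dvd_iff]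
    show π (fox χ' i r) = 0
    rw [map_fox, hcomp, fox_theta, ← map_fox, ← DD_map]
    show π (fox χ i r) + π ((p : ℤ_[p]) ^ (n + 1)) * π (DD χ δ i r) = 0
    rw [← map_mul, ← map_add, hc]
    show PadicInt.toZModPow (n + 2) _ = 0
    rw [← dvd_iff, ← mul_add, pow_succ]
    apply mul_dvd_mul_left
    rw [dvd_iff_one, map_add, DD_map]
    have e1 : ((PadicInt.toZMod : ℤ_[p] →+* ZMod p) : ℤ_[p] →* ZMod p).comp χ = χ₁ :=
      MonoidHom.ext hχ
    have e2 : (fun l => PadicInt.toZMod (δ l)) = δ₁ := funext hδ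
    rw [e1, e2, hδ₁]
    exact add_neg_cancel _

/-- The first lift. -/
theorem first (χ₁ : FreeGroup (Fin k) →* ZMod p) (h : Dual r χ₁) :
    ∃ χ : FreeGroup (Fin k) →* ℤ_[p], (∀ g, PadicInt.toZMod (χ g) = χ₁ g) ∧
      ∀ i, (p : ℤ_[p]) ^ (0 + 1) ∣ fox χ i r := by
  choose u hu using fun l => toZMod_surj (χ₁ (FreeGroup.of l))
  have hu' : ∀ l, IsUnit (u l) := by
    intro l
    apply unit_of
    rw [hu]
    intro h0
    have h3 : χ₁ (FreeGroup.of l) * χ₁ (FreeGroup.of l)⁻¹ = 1 := by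
      rw [← map_mul, mul_inv_cancel, map_one]
    rw [h0, zero_mul] at h3
    exact zero_ne_one h3
  let χ : FreeGroup (Fin k) →* ℤ_[p] :=
    (Units.coeHom ℤ_[p]).comp (FreeGroup.lift (fun l => (hu' l).unit))
  have hχ : ∀ l, χ (FreeGroup.of l) = u l := by
    intro l
    show ((FreeGroup.lift (fun l => (hu' l).unit) (FreeGroup.of l) : ℤ_[p]ˣ) : ℤ_[p]) = _
    rw [FreeGroup.lift_apply_of]
    rfl
  have hc : ((PadicInt.toZMod : ℤ_[p] →+* ZMod p) : ℤ_[p] →* ZMod p).comp χ = χ₁ := by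
    refine FreeGroup.ext_hom _ _ (fun l => ?_)
    show PadicInt.toZMod (χ (FreeGroup.of l)) = _
    rw [hχ, hu]
  refine ⟨χ, fun g => DFunLike.congr_fun hc g, fun i => ?_⟩
  rw [zero_add, pow_one, dvd_iff_one, map_fox, hc, h i]

end Pad

end Hens

open Hens in
theorem padic_dual {k : ℕ} (hk : 2 ≤ k) (r : FreeGroup (Fin k)) (hr1 : r ≠ 1) (m : ℕ)
    (H : ∀ N : Subgroup (OR r), N.Normal → N.FiniteIndex → HasRel m N) (p : ℕ) [Fact p.Prime]
    (χ₁ : FreeGroup (Fin k) →* ZMod p) (h : Dual r χ₁) :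
    ∃ χ : FreeGroup (Fin k) →* ℤ_[p], Dual r χ ∧ ∀ g, PadicInt.toZMod (χ g) = χ₁ g := by
  obtain ⟨χ0, h0, h0'⟩ := first χ₁ h
  let X : ℕ → Type := fun n => {χ : FreeGroup (Fin k) →* ℤ_[p] //
    (∀ g, PadicInt.toZMod (χ g) = χ₁ g) ∧ ∀ i, (p : ℤ_[p]) ^ (n + 1) ∣ fox χ i r}
  let nxt : ∀ n, X n → X (n + 1) := fun n x =>
    ⟨(step hk hr1 H χ₁ h n x.1 x.2.1 x.2.2).choose,
      (step hk hr1 H χ₁ h n x.1 x.2.1 x.2.2).choose_spec.1,
      (step hk hr1 H χ₁ h n x.1 x.2.1 x.2.2).choose_spec.2.2⟩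
  have hnxt : ∀ n (x : X n) g, (p : ℤ_[p]) ^ (n + 1) ∣ (nxt n x).1 g - x.1 g := fun n x =>
    (step hk hr1 H χ₁ h n x.1 x.2.1 x.2.2).choose_spec.2.1
  let f : ∀ n, X n := fun n => Nat.rec (motive := X) ⟨χ0, h0, h0'⟩ nxt n
  have hf : ∀ n, f (n + 1) = nxt n (f n) := fun n => rfl
  have hcoh : ∀ a b, a ≤ b → ∀ g, (p : ℤ_[p]) ^ (a + 1) ∣ (f b).1 g - (f a).1 g := by
    intro a b hab g
    induction b, hab using Nat.le_induction with
    | base => rw [sub_self]; exact dvd_zero _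
    | succ b hab ih =>
      have h1 := hnxt b (f b) g
      rw [← hf] at h1
      have h2 := dvd_add ((pow_dvd_pow (p : ℤ_[p]) (by omega : a + 1 ≤ b + 1)).trans h1) ih
      rwa [sub_add_sub_cancel] at h2
  let F : ∀ n, MonoidAlgebra ℤ (FreeGroup (Fin k)) →+* ZMod (p ^ n) := fun n =>
    (MonoidAlgebra.lift ℤ (ZMod (p ^ n)) (FreeGroup (Fin k))
      ((((PadicInt.toZModPow n : ℤ_[p] →+* ZMod (p ^ n))) : ℤ_[p] →* ZMod (p ^ n)).comp
        (f n).1)).toRingHom
  have hF : ∀ n g, F n (MonoidAlgebra.of ℤ (FreeGroup (Fin k)) g) =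
      PadicInt.toZModPow n ((f n).1 g) := by
    intro n g
    show MonoidAlgebra.lift ℤ (ZMod (p ^ n)) (FreeGroup (Fin k)) _
      (MonoidAlgebra.of ℤ (FreeGroup (Fin k)) g) = _
    rw [MonoidAlgebra.lift_of]
    rfl
  have hcompat : ∀ (k1 k2 : ℕ) (hk : k1 ≤ k2),
      (ZMod.castHom (pow_dvd_pow p hk) (ZMod (p ^ k1))).comp (F k2) = F k1 := by
    intro k1 k2 hk12
    refine MonoidAlgebra.ringHom_ext' (Subsingleton.elim _ _) (MonoidHom.ext (fun g => ?_))
    show ZMod.castHom (pow_dvd_pow p hk12) (ZMod (p ^ k1))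
      (F k2 (MonoidAlgebra.of ℤ (FreeGroup (Fin k)) g)) =
      F k1 (MonoidAlgebra.of ℤ (FreeGroup (Fin k)) g)
    rw [hF, hF]
    have h1 := DFunLike.congr_fun (PadicInt.zmod_cast_comp_toZModPow (p := p) k1 k2 hk12)
      ((f k2).1 g)
    rw [RingHom.comp_apply] at h1
    rw [h1, ← sub_eq_zero, ← map_sub, ← dvd_iff]
    exact (pow_dvd_pow _ (by omega)).trans (hcoh k1 k2 hk12 g)
  let L : MonoidAlgebra ℤ (FreeGroup (Fin k)) →+* ℤ_[p] := PadicInt.lift hcompat
  have hL : ∀ n g, PadicInt.toZModPow n (L (MonoidAlgebra.of ℤ (FreeGroup (Fin k)) g)) =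
      PadicInt.toZModPow n ((f n).1 g) := by
    intro n g
    rw [← hF]
    exact DFunLike.congr_fun (PadicInt.lift_spec hcompat n)
      (MonoidAlgebra.of ℤ (FreeGroup (Fin k)) g)
  refine ⟨(L : MonoidAlgebra ℤ (FreeGroup (Fin k)) →* ℤ_[p]).comp
    (MonoidAlgebra.of ℤ (FreeGroup (Fin k))), ?_, ?_⟩
  · intro i
    refine PadicInt.ext_of_toZModPow.1 (fun n => ?_)
    rw [map_fox, map_zero]
    have e : ((PadicInt.toZModPow n : ℤ_[p] →+* ZMod (p ^ n)) : ℤ_[p] →* ZMod (p ^ n)).comp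
        ((L : MonoidAlgebra ℤ (FreeGroup (Fin k)) →* ℤ_[p]).comp
        (MonoidAlgebra.of ℤ (FreeGroup (Fin k)))) =
        ((PadicInt.toZModPow n : ℤ_[p] →+* ZMod (p ^ n)) : ℤ_[p] →* ZMod (p ^ n)).comp (f n).1 :=
      MonoidHom.ext (fun g => hL n g)
    rw [e, ← map_fox, ← dvd_iff]
    exact (pow_dvd_pow _ (by omega)).trans ((f n).2.2 i)
  · intro g
    have h1 := hL 1 g
    rw [← sub_eq_zero, ← map_sub, ← dvd_iff, pow_one, dvd_iff_one, map_sub, sub_eq_zero] at h1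
    exact h1.trans ((f 1).2.1 g)

end Pool.Agent.MelD
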