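import Pool.Agent.MelD.ChiDef

/-!
# Homomorphisms to finite solvable groups

If all coranks are zero, the number of homomorphisms of `G_r`, `r` in the free group of rank `k + 1`, to a
finite solvable group `S` is `|S| ^ k`, as for the free group of rank `k`.

Proof.  Induction on `|S|`.  Let `S ≠ 1`; there are a prime `p` and a normal subgroup `M ≠ 1` of `S`, abelian
and killed by `p`.  Every homomorphism `φ : G_r → S / M` has exactly `|M| ^ k` lifts to `S`: let `ψ : F → S` be a lift of
`φ ∘ mk`; the other lifts are `ψ_v (x j) = v j * ψ (x j)`, `v : Fin (k + 1) → M`, and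
`ψ_v r = coc ρ v r * ψ r`, `ρ` = the action of `F` on `M` (a `ZMod p`-space) through `ψ` by conjugation,
which factors through `G_r`.  `v ↦ coc ρ v r` is linear; it is surjective: `Q` = the image of `F` in `Aut M`, `π`
the map; for `a` in `M` the map `T : (Q → ZMod p) → M`, `f ↦ ∑ q, f q⁻¹ • q a`, is equivariant, `a = T (Pi.single 1 1)`,
and `ev (ind π 1) r` is surjective as the corank is zero (`map_coc`).  So the number of `v` with
`coc ρ v r = (ψ r)⁻¹` is `|M| ^ k`.
-/

open Finset Module

namespace Pool.Agent.MelD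

/-- A nontrivial finite solvable group has a nontrivial normal subgroup that is abelian and killed by
a prime. -/
theorem exists_elem (S : Type*) [Group S] [Finite S] [Group.IsSolvable S] [Nontrivial S] :
    ∃ p : ℕ, p.Prime ∧ ∃ M : Subgroup S, M.Normal ∧ M ≠ ⊥ ∧ (∀ a ∈ M, ∀ b ∈ M, a * b = b * a) ∧
      ∀ a ∈ M, a ^ p = 1 := by
  classical
  have hex : ∃ n, derivedSeries S n = ⊥ := Group.IsSolvable.solvable
  have hn := Nat.find_spec hex
  have hn0 : Nat.find hex ≠ 0 := by
    intro h0
    rw [h0, derivedSeries_zero] at hn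
    exact top_ne_bot hn
  obtain ⟨m, hm⟩ := Nat.exists_eq_succ_of_ne_zero hn0
  have hm' : derivedSeries S m ≠ ⊥ := Nat.find_min hex (by omega)
  rw [hm, derivedSeries_succ] at hn
  obtain ⟨A, hA⟩ : ∃ A : Subgroup S, A = derivedSeries S m := ⟨_, rfl⟩
  have hAn : A.Normal := by rw [hA]; infer_instance
  rw [← hA] at hn hm'
  have hcomm : ∀ a ∈ A, ∀ b ∈ A, a * b = b * a := by
    intro a ha b hb
    have h1 := Subgroup.commutator_mem_commutator ha hb
    rw [hn, Subgroup.mem_bot, commutatorElement_eq_one_iff_mul_comm] at h1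
    exact h1
  have hA1 : Nat.card A ≠ 1 := by
    intro h1
    exact hm' (Subgroup.card_eq_one.mp h1)
  obtain ⟨p, hp, hpd⟩ := Nat.exists_prime_and_dvd hA1
  have : Fact p.Prime := ⟨hp⟩
  obtain ⟨x, hx⟩ := exists_prime_orderOf_dvd_card' p hpd
  let M : Subgroup S :=
    { carrier := {a | a ∈ A ∧ a ^ p = 1}
      mul_mem' := by
        rintro a b ⟨ha, ha'⟩ ⟨hb, hb'⟩
        refine ⟨A.mul_mem ha hb, ?_⟩
        have hc : Commute a b := hcomm a ha b hb
        rw [hc.mul_pow, ha', hb', one_mul]
      one_mem' := ⟨A.one_mem, one_pow p⟩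
      inv_mem' := by
        rintro a ⟨ha, ha'⟩
        refine ⟨A.inv_mem ha, ?_⟩
        rw [inv_pow, ha', inv_one] }
  refine ⟨p, hp, M, ⟨?_⟩, ?_, ?_, ?_⟩
  · rintro a ⟨ha, ha'⟩ g
    refine ⟨hAn.conj_mem a ha g, ?_⟩
    rw [conj_pow, ha', mul_one, mul_inv_cancel]
  · intro hbot
    have hxM : (x : S) ∈ M := by
      refine ⟨x.2, ?_⟩
      have h1 : x ^ p = 1 := by rw [← hx]; exact pow_orderOf_eq_one x
      exact congrArg Subtype.val h1
    rw [hbot, Subgroup.mem_bot] at hxM
    have hx1 : x = 1 := Subtype.ext hxM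
    rw [hx1, orderOf_one] at hx
    exact hp.one_lt.ne hx
  · intro a ha b hb
    exact hcomm a ha.1 b hb.1
  · intro a ha
    exact ha.2

/-- If all coranks are zero, the value at `r` of the crossed homomorphisms of the free group with values in a finite
vector space on which `r` acts trivially is arbitrary. -/
theorem hcEvSurj {k : ℕ} (r : FreeGroup (Fin (k + 1)))
    (h : ∀ (Q : Type) [Group Q] [Fintype Q] (π : FreeGroup (Fin (k + 1)) →* Q), Function.Surjective π →
      π r = 1 → ∀ (p : ℕ) [Fact p.Prime], cork (ZMod p) r π = 0)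
    {p : ℕ} [Fact p.Prime] {V : Type} [AddCommGroup V] [Module (ZMod p) V] [Finite V]
    (ρ : FreeGroup (Fin (k + 1)) →* Module.End (ZMod p) V) (hρ : ρ r = 1) :
    Function.Surjective (ev ρ r) := by
  classical
  intro a
  let ψ : FreeGroup (Fin (k + 1)) →* (Module.End (ZMod p) V)ˣ := MonoidHom.toHomUnits ρ
  have hψ : ∀ x, ((ψ x : (Module.End (ZMod p) V)ˣ) : Module.End (ZMod p) V) = ρ x := fun x => rfl
  have : Finite (Module.End (ZMod p) V) :=
    Finite.of_injective (fun e : Module.End (ZMod p) V => (e : V → V)) DFunLike.coe_injective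
  have : Finite (Module.End (ZMod p) V)ˣ := inferInstance
  let π : FreeGroup (Fin (k + 1)) →* ψ.range := ψ.rangeRestrict
  have : Fintype ψ.range := Fintype.ofFinite _
  have hs : Function.Surjective π := ψ.rangeRestrict_surjective
  have hπ : π r = 1 := by
    apply Subtype.ext
    apply Units.ext
    exact hρ
  have h1 := h ψ.range π hs hπ p
  have h2 := rank_add_cork (ZMod p) r π
  rw [h1, add_zero] at h2
  have h3 : LinearMap.range (ev (ind π (1 : FreeGroup (Fin (k + 1)) →* Module.End (ZMod p) (ZMod p))) r) = ⊤ := by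
    apply Submodule.eq_top_of_finrank_eq
    rw [h2, Module.finrank_fintype_fun_eq_card]
  let T : (ψ.range → ZMod p) →ₗ[ZMod p] V :=
    { toFun := fun f => ∑ q, f q • (((q⁻¹ : ψ.range) : (Module.End (ZMod p) V)ˣ) : Module.End (ZMod p) V) a
      map_add' := by
        intro f g
        simp only [Pi.add_apply, add_smul, sum_add_distrib]
      map_smul' := by
        intro c f
        simp only [Pi.smul_apply, smul_eq_mul, RingHom.id_apply, mul_smul, smul_sum] }
  have hT : ∀ g f, T (ind π (1 : FreeGroup (Fin (k + 1)) →* Module.End (ZMod p) (ZMod p)) g f) = ρ g (T f) := by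
    intro g f
    show ∑ q, f (q * π g) • (((q⁻¹ : ψ.range) : (Module.End (ZMod p) V)ˣ) : Module.End (ZMod p) V) a =
      ρ g (∑ q, f q • (((q⁻¹ : ψ.range) : (Module.End (ZMod p) V)ˣ) : Module.End (ZMod p) V) a)
    rw [map_sum, ← Equiv.sum_comp (Equiv.mulRight (π g))
      (fun q => ρ g (f q • (((q⁻¹ : ψ.range) : (Module.End (ZMod p) V)ˣ) : Module.End (ZMod p) V) a))]
    refine Finset.sum_congr rfl fun q _ => ?_
    simp only [Equiv.coe_mulRight]
    rw [map_smul, ← hψ g]
    congr 1
    rw [← Module.End.mul_apply, ← Units.val_mul]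
    congr 2
    show ((q⁻¹ : ψ.range) : (Module.End (ZMod p) V)ˣ) = ((π g * (q * π g)⁻¹ : ψ.range) : (Module.End (ZMod p) V)ˣ)
    congr 1
    group
  have h4 : (Pi.single 1 1 : ψ.range → ZMod p) ∈
      LinearMap.range (ev (ind π (1 : FreeGroup (Fin (k + 1)) →* Module.End (ZMod p) (ZMod p))) r) := by
    rw [h3]; exact Submodule.mem_top
  obtain ⟨v, hv⟩ := h4
  refine ⟨fun j => T (v j), ?_⟩
  rw [ev_apply, ← map_coc _ ρ T hT v r, ← ev_apply, hv]
  show ∑ q, (Pi.single 1 1 : ψ.range → ZMod p) q •
    (((q⁻¹ : ψ.range) : (Module.End (ZMod p) V)ˣ) : Module.End (ZMod p) V) a = a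
  rw [Finset.sum_eq_single 1]
  · rw [Pi.single_eq_same, one_smul, inv_one]
    rfl
  · intro q _ hq
    rw [Pi.single_eq_of_ne hq, zero_smul]
  · intro hq
    exact absurd (mem_univ _) hq


/-- The number of crossed homomorphisms with a given value at `r`. -/
theorem card_ev {k : ℕ} (r : FreeGroup (Fin (k + 1)))
    (h : ∀ (Q : Type) [Group Q] [Fintype Q] (π : FreeGroup (Fin (k + 1)) →* Q), Function.Surjective π →
      π r = 1 → ∀ (p : ℕ) [Fact p.Prime], cork (ZMod p) r π = 0)
    {p : ℕ} [Fact p.Prime] {V : Type} [AddCommGroup V] [Module (ZMod p) V] [Finite V]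
    (ρ : FreeGroup (Fin (k + 1)) →* Module.End (ZMod p) V) (hρ : ρ r = 1) (b : V) :
    Nat.card {v : Fin (k + 1) → V // coc ρ v r = b} = Nat.card V ^ k := by
  classical
  have : Fintype V := Fintype.ofFinite V
  have hsurj := hcEvSurj r h ρ hρ
  have hall : ∀ b, Nat.card {v : Fin (k + 1) → V // ev ρ r v = b} =
      Nat.card {v : Fin (k + 1) → V // ev ρ r v = 0} := by
    intro b
    obtain ⟨v0, hv0⟩ := hsurj b
    refine Nat.card_congr ((Equiv.subRight v0).subtypeEquiv ?_)
    intro v
    show ev ρ r v = b ↔ ev ρ r (v - v0) = 0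
    rw [map_sub, hv0, sub_eq_zero]
  have hsum : Nat.card (Fin (k + 1) → V) =
      ∑ b : V, Nat.card {v : Fin (k + 1) → V // ev ρ r v = b} := by
    rw [← Nat.card_sigma]
    exact (Nat.card_congr (Equiv.sigmaFiberEquiv (ev ρ r))).symm
  rw [Finset.sum_congr rfl (fun b _ => hall b), Finset.sum_const, Finset.card_univ, smul_eq_mul,
    Nat.card_fun, Nat.card_eq_fintype_card (α := Fin (k + 1)), Fintype.card_fin,
    ← Nat.card_eq_fintype_card, pow_succ, mul_comm] at hsum
  have hpos : 0 < Nat.card V := Nat.card_pos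
  have h1 := Nat.eq_of_mul_eq_mul_left hpos hsum
  show Nat.card {v : Fin (k + 1) → V // ev ρ r v = b} = Nat.card V ^ k
  rw [hall b, ← h1]

/-- A linear representation over the prime field from additive maps. -/
def repOf (p : ℕ) {G V : Type*} [Group G] [AddCommGroup V] [Module (ZMod p) V] (c : G → V →+ V)
    (h1 : ∀ m, c 1 m = m) (h2 : ∀ g g' m, c (g * g') m = c g (c g' m)) :
    G →* Module.End (ZMod p) V where
  toFun g := AddMonoidHom.toZModLinearMap p (c g)
  map_one' := LinearMap.ext h1
  map_mul' g g' := LinearMap.ext (h2 g g')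

/-- The number of lifts of a homomorphism to an extension by a vector space over `ZMod p`. -/
theorem card_lifts_aux {k : ℕ} (r : FreeGroup (Fin (k + 1)))
    (h : ∀ (Q : Type) [Group Q] [Fintype Q] (π : FreeGroup (Fin (k + 1)) →* Q), Function.Surjective π →
      π r = 1 → ∀ (p : ℕ) [Fact p.Prime], cork (ZMod p) r π = 0)
    {S : Type} [Group S] (M : Subgroup S) [hMn : M.Normal] {p : ℕ} [Fact p.Prime]
    {V : Type} [AddCommGroup V] [Module (ZMod p) V] [Finite V] (ι : V → S)
    (hadd : ∀ a b, ι (a + b) = ι a * ι b) (hinj : Function.Injective ι)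
    (hM : ∀ x, x ∈ M ↔ ∃ v, ι v = x)
    (y : Fin (k + 1) → S ⧸ M) (hy : FreeGroup.lift y r = 1) :
    Nat.card {x : Fin (k + 1) → S // (∀ j, QuotientGroup.mk' M (x j) = y j) ∧
      FreeGroup.lift x r = 1} = Nat.card V ^ k := by
  classical
  have hz : ι 0 = 1 := by
    have h1 := hadd 0 0
    rw [add_zero] at h1
    exact left_eq_mul.mp h1
  have hneg : ∀ a, ι (-a) = (ι a)⁻¹ := by
    intro a
    apply eq_inv_of_mul_eq_one_left
    rw [← hadd, neg_add_cancel, hz]
  have hcomm : ∀ a b, ι a * ι b = ι b * ι a := by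
    intro a b
    rw [← hadd, add_comm, hadd]
  have hcj : ∀ (g : S) (m : V), ∃ m' : V, ι m' = g * ι m * g⁻¹ := by
    intro g m
    exact (hM _).mp (hMn.conj_mem _ ((hM _).mpr ⟨m, rfl⟩) g)
  choose cj hcj using hcj
  choose s hs using QuotientGroup.mk'_surjective M
  obtain ⟨x0, hx0⟩ : ∃ x0 : Fin (k + 1) → S, x0 = fun j => s (y j) := ⟨_, rfl⟩
  obtain ⟨ψ, hψd⟩ : ∃ ψ : FreeGroup (Fin (k + 1)) →* S, ψ = FreeGroup.lift x0 := ⟨_, rfl⟩
  have hψM : ψ r ∈ M := by
    have h1 : (QuotientGroup.mk' M).comp ψ = FreeGroup.lift y := by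
      apply FreeGroup.ext_hom
      intro j
      rw [MonoidHom.comp_apply, hψd, FreeGroup.lift_apply_of, FreeGroup.lift_apply_of, hx0]
      exact hs (y j)
    have h2 : QuotientGroup.mk' M (ψ r) = 1 := by rw [← MonoidHom.comp_apply, h1, hy]
    exact (QuotientGroup.eq_one_iff _).mp h2
  obtain ⟨b, hb⟩ := (hM _).mp hψM
  let c : FreeGroup (Fin (k + 1)) → (V →+ V) := fun g =>
    { toFun := cj (ψ g)
      map_zero' := by
        apply hinj
        rw [hcj, hz, mul_one, mul_inv_cancel]
      map_add' := by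
        intro a a'
        apply hinj
        rw [hcj, hadd, hadd, hcj, hcj]
        group }
  have hc : ∀ g (m : V), ι (c g m) = ψ g * ι m * (ψ g)⁻¹ := fun g m => hcj (ψ g) m
  let ρ : FreeGroup (Fin (k + 1)) →* Module.End (ZMod p) V := repOf p c
    (by
      intro m
      apply hinj
      rw [hc, map_one, one_mul, inv_one, mul_one])
    (by
      intro g g' m
      apply hinj
      rw [hc, hc, hc, map_mul]
      group)
  have hρ : ∀ g (m : V), ι (ρ g m) = ψ g * ι m * (ψ g)⁻¹ := hc
  have hρr : ρ r = 1 := by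
    apply LinearMap.ext
    intro m
    apply hinj
    rw [hρ, ← hb, hcomm, mul_inv_cancel_right]
    rfl
  have key : ∀ (v : Fin (k + 1) → V) (w : FreeGroup (Fin (k + 1))),
      FreeGroup.lift (fun j => ι (v j) * x0 j) w = ι (coc ρ v w) * ψ w := by
    intro v w
    let Φ : FreeGroup (Fin (k + 1)) →* S :=
      { toFun := fun w => ι (coc ρ v w) * ψ w
        map_one' := by
          rw [coc_one, map_one, mul_one, hz]
        map_mul' := by
          intro g g'
          rw [coc_mul, hadd]
          show ι (coc ρ v g) * ι (ρ g (coc ρ v g')) * ψ (g * g') = _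
          rw [hρ, map_mul]
          group }
    have hΦ : FreeGroup.lift (fun j => ι (v j) * x0 j) = Φ := by
      apply FreeGroup.ext_hom
      intro j
      rw [FreeGroup.lift_apply_of]
      show _ = ι (coc ρ v (FreeGroup.of j)) * ψ (FreeGroup.of j)
      rw [coc_of, hψd, FreeGroup.lift_apply_of]
    rw [hΦ]
    rfl
  have hone : ∀ v : Fin (k + 1) → V,
      FreeGroup.lift (fun j => ι (v j) * x0 j) r = 1 ↔ coc ρ v r = -b := by
    intro v
    rw [key, mul_eq_one_iff_eq_inv, ← hb, ← hneg]
    exact hinj.eq_iff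
  rw [← card_ev r h ρ hρr (-b)]
  symm
  refine Nat.card_congr (Equiv.ofBijective
    (fun v : {v : Fin (k + 1) → V // coc ρ v r = -b} =>
      (⟨fun j => ι (v.1 j) * x0 j, ?_, (hone v.1).mpr v.2⟩ :
        {x : Fin (k + 1) → S // (∀ j, QuotientGroup.mk' M (x j) = y j) ∧
          FreeGroup.lift x r = 1})) ⟨?_, ?_⟩)
  · intro j
    rw [map_mul, hx0, hs]
    have h1 : QuotientGroup.mk' M (ι (v.1 j)) = 1 :=
      (QuotientGroup.eq_one_iff _).mpr ((hM _).mpr ⟨_, rfl⟩)
    rw [h1, one_mul]
  · rintro ⟨v, hv⟩ ⟨v', hv'⟩ hvv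
    apply Subtype.ext
    funext j
    have h1 := congrFun (congrArg Subtype.val hvv) j
    have h2 : ι (v j) * x0 j = ι (v' j) * x0 j := h1
    exact hinj (mul_right_cancel h2)
  · rintro ⟨x, hx, hx'⟩
    have hmem : ∀ j, ∃ v, ι v = x j * (x0 j)⁻¹ := by
      intro j
      have h1 : QuotientGroup.mk' M (x j * (x0 j)⁻¹) = 1 := by
        rw [map_mul, map_inv, hx, hx0, hs, mul_inv_cancel]
      exact (hM _).mp ((QuotientGroup.eq_one_iff _).mp h1)
    choose v hv using hmem
    have he : (fun j => ι (v j) * x0 j) = x := by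
      funext j
      rw [hv, inv_mul_cancel_right]
    refine ⟨⟨v, ?_⟩, ?_⟩
    · rw [← hone, he, hx']
    · apply Subtype.ext
      exact he

/-- The number of lifts of a homomorphism to an extension by an abelian group killed by `p`. -/
theorem card_lifts {k : ℕ} (r : FreeGroup (Fin (k + 1)))
    (h : ∀ (Q : Type) [Group Q] [Fintype Q] (π : FreeGroup (Fin (k + 1)) →* Q), Function.Surjective π →
      π r = 1 → ∀ (p : ℕ) [Fact p.Prime], cork (ZMod p) r π = 0)
    {S : Type} [Group S] [Finite S] (M : Subgroup S) [M.Normal] {p : ℕ} [Fact p.Prime]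
    (hab : ∀ a ∈ M, ∀ b ∈ M, a * b = b * a) (hp : ∀ a ∈ M, a ^ p = 1)
    (y : Fin (k + 1) → S ⧸ M) (hy : FreeGroup.lift y r = 1) :
    Nat.card {x : Fin (k + 1) → S // (∀ j, QuotientGroup.mk' M (x j) = y j) ∧
      FreeGroup.lift x r = 1} = Nat.card M ^ k := by
  let _ : CommGroup M :=
    { (inferInstance : Group M) with mul_comm := fun a b => Subtype.ext (hab a a.2 b b.2) }
  let _ := AddCommGroup.zmodModule (n := p) (G := Additive M) (fun x => by
    apply Additive.toMul.injective
    show (x.toMul) ^ p = 1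
    exact Subtype.ext (hp x.toMul x.toMul.2))
  have : Finite (Additive M) := inferInstanceAs (Finite M)
  exact card_lifts_aux r h M (p := p) (V := Additive M) (fun m => ((m.toMul : M) : S))
    (fun a b => rfl) (fun a b hab => Additive.toMul.injective (Subtype.ext hab))
    (fun x => ⟨fun hx => ⟨Additive.ofMul ⟨x, hx⟩, rfl⟩, by rintro ⟨v, rfl⟩; exact v.toMul.2⟩) y hy

/-- Homomorphisms of the one-relator group are families of values at the generators. -/
theorem card_hom {k : ℕ} (r : FreeGroup (Fin k)) (S : Type) [Group S] :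
    Nat.card (OR r →* S) = Nat.card {x : Fin k → S // FreeGroup.lift x r = 1} := by
  refine Nat.card_congr (Equiv.ofBijective
    (fun f : OR r →* S => (⟨fun j => f (PresentedGroup.of j), ?_⟩ :
      {x : Fin k → S // FreeGroup.lift x r = 1})) ⟨?_, ?_⟩)
  · have h1 : FreeGroup.lift (fun j => f (PresentedGroup.of j)) = f.comp (PresentedGroup.mk {r}) := by
      apply FreeGroup.ext_hom
      intro j
      rw [FreeGroup.lift_apply_of]
      rfl
    rw [h1, MonoidHom.comp_apply, PresentedGroup.one_of_mem (Set.mem_singleton r), map_one]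
  · intro f g hfg
    apply PresentedGroup.ext
    intro j
    exact congrFun (congrArg Subtype.val hfg) j
  · rintro ⟨x, hx⟩
    obtain ⟨f, hf⟩ := exists_desc r (FreeGroup.lift x) hx
    refine ⟨f, Subtype.ext ?_⟩
    funext j
    have h1 := DFunLike.congr_fun hf (FreeGroup.of j)
    rw [FreeGroup.lift_apply_of] at h1
    exact h1

/-- If all coranks are zero, a one-relator group of rank `k + 1` has `|S| ^ k` homomorphisms to a finite
solvable group `S`. -/
theorem hom_count {k : ℕ} (r : FreeGroup (Fin (k + 1)))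
    (h : ∀ (Q : Type) [Group Q] [Fintype Q] (π : FreeGroup (Fin (k + 1)) →* Q), Function.Surjective π →
      π r = 1 → ∀ (p : ℕ) [Fact p.Prime], cork (ZMod p) r π = 0)
    (S : Type) [Group S] [Finite S] [Group.IsSolvable S] : Nat.card (OR r →* S) = Nat.card S ^ k := by
  classical
  rw [card_hom]
  have main : ∀ n : ℕ, ∀ (S : Type) [Group S] [Finite S] [Group.IsSolvable S], Nat.card S = n →
      Nat.card {x : Fin (k + 1) → S // FreeGroup.lift x r = 1} = n ^ k := by
    intro n
    induction n using Nat.strong_induction_on with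
    | _ n ih =>
      intro S _ _ _ hS
      rcases subsingleton_or_nontrivial S with hsub | hnt
      · have h1 : n = 1 := by rw [← hS]; exact Nat.card_eq_one_iff_unique.mpr ⟨hsub, ⟨1⟩⟩
        rw [h1, one_pow]
        exact Nat.card_eq_one_iff_unique.mpr ⟨⟨fun a b => Subtype.ext (funext fun j =>
          Subsingleton.elim _ _)⟩, ⟨⟨fun _ => 1, Subsingleton.elim _ _⟩⟩⟩
      · obtain ⟨p, hp, M, hMn, hM1, hab, hMp⟩ := exists_elem S
        have : Fact p.Prime := ⟨hp⟩
        have hcm : Nat.card S = Nat.card (S ⧸ M) * Nat.card M :=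
          Subgroup.card_eq_card_quotient_mul_card_subgroup M
        have hM2 : 1 < Nat.card M := by
          rcases Nat.lt_or_ge 1 (Nat.card M) with h1 | h1
          · exact h1
          · have h2 : 0 < Nat.card M := Nat.card_pos
            exact absurd (Subgroup.card_eq_one.mp (by omega)) hM1
        have hq : 0 < Nat.card (S ⧸ M) := Nat.card_pos
        have hlt : Nat.card (S ⧸ M) < n := by
          rw [← hS, hcm]
          nlinarith
        have hih := ih _ hlt (S ⧸ M) rfl
        have : Fintype {y : Fin (k + 1) → S ⧸ M // FreeGroup.lift y r = 1} := Fintype.ofFinite _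
        let F : {x : Fin (k + 1) → S // FreeGroup.lift x r = 1} →
            {y : Fin (k + 1) → S ⧸ M // FreeGroup.lift y r = 1} := fun x =>
          ⟨fun j => QuotientGroup.mk' M (x.1 j), by
            have h1 : FreeGroup.lift (fun j => QuotientGroup.mk' M (x.1 j)) =
                (QuotientGroup.mk' M).comp (FreeGroup.lift x.1) := by
              apply FreeGroup.ext_hom
              intro j
              rw [FreeGroup.lift_apply_of, MonoidHom.comp_apply, FreeGroup.lift_apply_of]
            rw [h1, MonoidHom.comp_apply, x.2, map_one]⟩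
        have hfib : ∀ y, Nat.card {x // F x = y} = Nat.card M ^ k := by
          rintro ⟨y, hy⟩
          rw [← card_lifts r h M hab hMp y hy]
          refine Nat.card_congr
            { toFun := fun x => ⟨x.1.1, fun j => congrFun (congrArg Subtype.val x.2) j, x.1.2⟩
              invFun := fun x => ⟨⟨x.1, x.2.2⟩, Subtype.ext (funext fun j => x.2.1 j)⟩
              left_inv := fun x => rfl
              right_inv := fun x => rfl }
        have hsum : Nat.card {x : Fin (k + 1) → S // FreeGroup.lift x r = 1} =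
            ∑ y, Nat.card {x // F x = y} := by
          rw [← Nat.card_sigma]
          exact (Nat.card_congr (Equiv.sigmaFiberEquiv F)).symm
        rw [hsum, Finset.sum_congr rfl (fun y _ => hfib y), Finset.sum_const, Finset.card_univ,
          smul_eq_mul, ← Nat.card_eq_fintype_card, hih, ← hS, hcm, mul_pow]
  exact main _ S rfl

end Pool.Agent.MelD
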