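import Pool.Agent.MelD.Ext

/-!
# Unimodular rows over `ℤ[L]`, `L` free

If the row `E` of elements of `ℤ[L]` becomes unimodular modulo every prime, then it is unimodular.

Step 1 (over `ℚ`).  Suppose the right ideal `J = RI E` of `ℚ[L]` is proper, `A = ℚ[L]/J`, `κ₀ g [x] =
[x g⁻¹]`.  `P` a finite set of elements of `L`, closed under initial segments, containing `1` and the supports
of the `E j`; `V₀` = span of the classes of `P`; extend the partial maps `κ₀ (x_i)` of `V₀` to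
automorphisms; so `T : L → GL(V₀)` with `T(s⁻¹)[1] = [s]` for `s ∈ P` (`exists_T`), hence
`∑ s, E j s • T(s⁻¹)[1] = [E j] = 0`, and `[1] ≠ 0`.  In a basis of `V₀` (and `[1]` scaled so that one
coordinate is one): invertible rational matrices.  Let `p` be a prime not dividing any denominator of
the entries of the `T (x_i)^±1`; reduce modulo `p` (through `ℤ_[p]`, `PadicInt.toZMod`):
`Ψ x = ∑ s, x s • T̄(s⁻¹) e₀` is a map `F_p[L] → F_p^n` with `Ψ (x y) = ∑ t, y t • T̄(t⁻¹) Ψ x`, so it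
kills `E j * y`, but `Ψ 1 = e₀ ≠ 0`.
Step 2.  So `n ∈ ∑ E j ℤ[L]` for some `n ≥ 1`; take `n` minimal.  If `p` divides `n`, `n = p n'`, and
`1 = x + p a` with `x` in the right ideal, then `n' = x n' + n a` is in the right ideal.
-/

open Finset Module

namespace Pool.Agent.MelD

namespace IntU

open MulOpposite

section op

variable {G : Type*} [Group G] {n : ℕ} {R R' : Type*} [CommRing R] [CommRing R']

/-- the anti-representation of the inverses -/
def th (ρ : G →* Matrix (Fin n) (Fin n) R) : G →* (Matrix (Fin n) (Fin n) R)ᵐᵒᵖ where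
  toFun s := op (ρ s⁻¹)
  map_one' := by rw [inv_one, map_one]; rfl
  map_mul' s t := by rw [mul_inv_rev, map_mul]; rfl

/-- the action on vectors, coefficients in `S` -/
noncomputable def Ps (S : Type*) [CommRing S] [Algebra S R] (ρ : G →* Matrix (Fin n) (Fin n) R)
    (u : Fin n → R) (x : MonoidAlgebra S G) : Fin n → R :=
  Matrix.mulVec (unop (MonoidAlgebra.lift S (Matrix (Fin n) (Fin n) R)ᵐᵒᵖ G (th ρ) x)) u

variable {S : Type*} [CommRing S] [Algebra S R] (ρ : G →* Matrix (Fin n) (Fin n) R) (u : Fin n → R)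

theorem Ps_mul (x y : MonoidAlgebra S G) (hx : Ps S ρ u x = 0) : Ps S ρ u (x * y) = 0 := by
  unfold Ps at hx ⊢
  rw [map_mul, unop_mul, ← Matrix.mulVec_mulVec, hx, Matrix.mulVec_zero]

theorem Ps_add (x y : MonoidAlgebra S G) : Ps S ρ u (x + y) = Ps S ρ u x + Ps S ρ u y := by
  unfold Ps
  rw [map_add, unop_add, Matrix.add_mulVec]

theorem Ps_zero : Ps S ρ u (0 : MonoidAlgebra S G) = 0 := by
  unfold Ps
  rw [map_zero, unop_zero, Matrix.zero_mulVec]

theorem Ps_one : Ps S ρ u (1 : MonoidAlgebra S G) = u := by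
  unfold Ps
  rw [map_one, unop_one, Matrix.one_mulVec]

theorem Ps_sum {ι : Type*} (s : Finset ι) (f : ι → MonoidAlgebra S G) :
    Ps S ρ u (∑ i ∈ s, f i) = ∑ i ∈ s, Ps S ρ u (f i) := by
  classical
  induction s using Finset.induction_on with
  | empty => rw [Finset.sum_empty, Finset.sum_empty, Ps_zero]
  | insert a s ha ih => rw [Finset.sum_insert ha, Finset.sum_insert ha, Ps_add, ih]

/-- as a sum -/
theorem Ps_eq (x : MonoidAlgebra S G) :
    Ps S ρ u x = x.coeff.sum fun s c => c • Matrix.mulVec (ρ s⁻¹) u := by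
  unfold Ps
  rw [MonoidAlgebra.lift_apply]
  unfold Finsupp.sum
  rw [unop_sum, Matrix.sum_mulVec]
  refine Finset.sum_congr rfl fun s _ => ?_
  rw [unop_smul]
  show Matrix.mulVec (x.coeff s • ρ s⁻¹) u = x.coeff s • Matrix.mulVec (ρ s⁻¹) u
  rw [Matrix.smul_mulVec]

/-- change of the coefficients -/
theorem Ps_map (x : MonoidAlgebra ℤ G) :
    Ps R ρ u (MonoidAlgebra.mapRingHom G (Int.castRingHom R) x) = Ps ℤ ρ u x := by
  unfold Ps
  have h := MonoidAlgebra.lift_mapRingHom_algebraMap (R := ℤ) (S := R) (th ρ) x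
  rw [algebraMap_int_eq] at h
  rw [h]

/-- change of the ring -/
theorem Ps_hom (f : R →+* R') (x : MonoidAlgebra ℤ G) :
    Ps ℤ ((f.mapMatrix (m := Fin n) : Matrix (Fin n) (Fin n) R →* Matrix (Fin n) (Fin n) R').comp ρ)
      (fun i => f (u i)) x = fun i => f (Ps ℤ ρ u x i) := by
  rw [Ps_eq, Ps_eq]
  funext i
  unfold Finsupp.sum
  rw [Finset.sum_apply, Finset.sum_apply, map_sum]
  refine Finset.sum_congr rfl fun s _ => ?_
  show x.coeff s • Matrix.mulVec ((ρ s⁻¹).map f) (fun i => f (u i)) i = f (x.coeff s • Matrix.mulVec (ρ s⁻¹) u i)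
  rw [map_zsmul]
  congr 1
  exact (RingHom.map_mulVec f (ρ s⁻¹) u i).symm

/-- a row which kills a nonzero vector in the sense of `Ps` is not unimodular -/
theorem Ps_contra {k : ℕ} (E : Fin k → MonoidAlgebra ℤ G) (hE : ∀ j, Ps ℤ ρ u (E j) = 0)
    (y : Fin k → MonoidAlgebra R G)
    (hy : ∑ j, MonoidAlgebra.mapRingHom G (Int.castRingHom R) (E j) * y j = 1) : u = 0 := by
  rw [← Ps_one (S := R) ρ u, ← hy, Ps_sum]
  refine Finset.sum_eq_zero fun j _ => Ps_mul ρ u _ _ ?_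
  rw [Ps_map, hE]

end op

section red

variable {l n : ℕ}

/-- reduction modulo a large prime -/
theorem reduce (ρ : FreeGroup (Fin l) →* Matrix (Fin n) (Fin n) ℚ) (u : Fin n → ℚ) {a0 : Fin n} (hu : u a0 = 1) :
    ∃ (p : ℕ) (_ : Fact p.Prime) (ρ' : FreeGroup (Fin l) →* Matrix (Fin n) (Fin n) (ZMod p)) (u' : Fin n → ZMod p),
      u' a0 = 1 ∧ ∀ x : MonoidAlgebra ℤ (FreeGroup (Fin l)), Ps ℤ ρ u x = 0 → Ps ℤ ρ' u' x = 0 := by
  classical
  set D : ℕ := (∏ i : Fin l, ∏ a : Fin n, ∏ b : Fin n, (ρ (FreeGroup.of i) a b).den) *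
    ((∏ i : Fin l, ∏ a : Fin n, ∏ b : Fin n, (ρ (FreeGroup.of i)⁻¹ a b).den) * ∏ a : Fin n, (u a).den) with hD
  have hpos : ∀ q : ℚ, 0 < q.den := fun q => q.den_pos
  have hD0 : 0 < D := by
    rw [hD]
    refine Nat.mul_pos (Finset.prod_pos fun i _ => Finset.prod_pos fun a _ => Finset.prod_pos fun b _ => hpos _)
      (Nat.mul_pos (Finset.prod_pos fun i _ => Finset.prod_pos fun a _ => Finset.prod_pos fun b _ => hpos _)
        (Finset.prod_pos fun a _ => hpos _))
  obtain ⟨p, hp, hpr⟩ := Nat.exists_infinite_primes (D + 1)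
  have : Fact p.Prime := ⟨hpr⟩
  have hpD : ¬ p ∣ D := fun h => absurd (Nat.le_of_dvd hD0 h) (by omega)
  have hA : ∀ i a b, ¬ p ∣ (ρ (FreeGroup.of i) a b).den := fun i a b h => by
    refine hpD (h.trans ?_)
    rw [hD]
    exact Dvd.dvd.mul_right ((Finset.dvd_prod_of_mem (fun b => (ρ (FreeGroup.of i) a b).den) (mem_univ b)).trans
      ((Finset.dvd_prod_of_mem (fun a => ∏ b, (ρ (FreeGroup.of i) a b).den) (mem_univ a)).trans
        (Finset.dvd_prod_of_mem (fun i => ∏ a, ∏ b, (ρ (FreeGroup.of i) a b).den) (mem_univ i)))) _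
  have hB : ∀ i a b, ¬ p ∣ (ρ (FreeGroup.of i)⁻¹ a b).den := fun i a b h => by
    refine hpD (h.trans ?_)
    rw [hD]
    exact Dvd.dvd.mul_left (Dvd.dvd.mul_right ((Finset.dvd_prod_of_mem (fun b => (ρ (FreeGroup.of i)⁻¹ a b).den)
      (mem_univ b)).trans ((Finset.dvd_prod_of_mem (fun a => ∏ b, (ρ (FreeGroup.of i)⁻¹ a b).den) (mem_univ a)).trans
        (Finset.dvd_prod_of_mem (fun i => ∏ a, ∏ b, (ρ (FreeGroup.of i)⁻¹ a b).den) (mem_univ i)))) _) _
  have hU : ∀ a, ¬ p ∣ (u a).den := fun a h => by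
    refine hpD (h.trans ?_)
    rw [hD]
    exact Dvd.dvd.mul_left (Dvd.dvd.mul_left (Finset.dvd_prod_of_mem (fun a => (u a).den) (mem_univ a)) _) _
  let zq : (q : ℚ) → ¬ p ∣ q.den → ℤ_[p] := fun q h => ⟨(q : ℚ_[p]), Padic.norm_rat_le_one h⟩
  let A : Fin l → Matrix (Fin n) (Fin n) ℤ_[p] := fun i a b => zq _ (hA i a b)
  let B : Fin l → Matrix (Fin n) (Fin n) ℤ_[p] := fun i a b => zq _ (hB i a b)
  let U : Fin n → ℤ_[p] := fun a => zq _ (hU a)
  let c : ℤ_[p] →+* ℚ_[p] := PadicInt.Coe.ringHom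
  let q : ℚ →+* ℚ_[p] := Rat.castHom ℚ_[p]
  have hc : Function.Injective c := Subtype.val_injective
  have hcm : Function.Injective (fun M : Matrix (Fin n) (Fin n) ℤ_[p] => M.map c) := Matrix.map_injective hc
  have eA : ∀ i, (A i).map c = (ρ (FreeGroup.of i)).map q := fun i => rfl
  have eB : ∀ i, (B i).map c = (ρ (FreeGroup.of i)⁻¹).map q := fun i => rfl
  have h1 : ∀ i, A i * B i = 1 := fun i => hcm (by
    show (A i * B i).map c = (1 : Matrix (Fin n) (Fin n) ℤ_[p]).map c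
    rw [Matrix.map_mul, eA, eB, ← Matrix.map_mul, ← map_mul, mul_inv_cancel, map_one, Matrix.map_one _ (map_zero q)
      (map_one q), Matrix.map_one _ (map_zero c) (map_one c)])
  have h2 : ∀ i, B i * A i = 1 := fun i => hcm (by
    show (B i * A i).map c = (1 : Matrix (Fin n) (Fin n) ℤ_[p]).map c
    rw [Matrix.map_mul, eA, eB, ← Matrix.map_mul, ← map_mul, inv_mul_cancel, map_one, Matrix.map_one _ (map_zero q)
      (map_one q), Matrix.map_one _ (map_zero c) (map_one c)])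
  let r : FreeGroup (Fin l) →* Matrix (Fin n) (Fin n) ℤ_[p] :=
    (Units.coeHom _).comp (FreeGroup.lift fun i => ⟨A i, B i, h1 i, h2 i⟩)
  have hr : (c.mapMatrix (m := Fin n) : Matrix (Fin n) (Fin n) ℤ_[p] →* Matrix (Fin n) (Fin n) ℚ_[p]).comp r =
      (q.mapMatrix (m := Fin n) : Matrix (Fin n) (Fin n) ℚ →* Matrix (Fin n) (Fin n) ℚ_[p]).comp ρ := by
    refine FreeGroup.ext_hom _ _ fun i => ?_
    show (((FreeGroup.lift fun i => (⟨A i, B i, h1 i, h2 i⟩ : (Matrix (Fin n) (Fin n) ℤ_[p])ˣ)) (FreeGroup.of i) :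
      (Matrix (Fin n) (Fin n) ℤ_[p])ˣ) : Matrix (Fin n) (Fin n) ℤ_[p]).map c = (ρ (FreeGroup.of i)).map q
    rw [FreeGroup.lift_apply_of]
    exact eA i
  refine ⟨p, inferInstance, ((PadicInt.toZMod (p := p)).mapMatrix (m := Fin n) :
    Matrix (Fin n) (Fin n) ℤ_[p] →* Matrix (Fin n) (Fin n) (ZMod p)).comp r, fun a => PadicInt.toZMod (U a), ?_, ?_⟩
  · have : U a0 = 1 := hc (by
      show ((u a0 : ℚ) : ℚ_[p]) = c 1
      rw [hu, map_one, Rat.cast_one])
    show PadicInt.toZMod (U a0) = 1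
    rw [this, map_one]
  · intro x hx
    have h3 := Ps_hom r U c x
    have h4 := Ps_hom ρ u q x
    rw [hr] at h3
    have h5 : (fun i => c (U i)) = fun i => q (u i) := rfl
    rw [h5, h4, hx] at h3
    rw [Ps_hom]
    funext i
    have h6 := congrFun h3 i
    have h7 : Ps ℤ r U x i = 0 := hc (by
      rw [← h6, map_zero]
      exact map_zero q)
    show PadicInt.toZMod (Ps ℤ r U x i) = 0
    rw [h7, map_zero]

end red

section rat

variable {l k : ℕ}

/-- a proper right ideal over the rationals is killed by a finite-dimensional representation -/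
theorem exists_mat (E : Fin k → MonoidAlgebra ℤ (FreeGroup (Fin l)))
    (h : (1 : MonoidAlgebra ℚ (FreeGroup (Fin l))) ∉
      RI (K := ℚ) fun j => MonoidAlgebra.mapRingHom (FreeGroup (Fin l)) (Int.castRingHom ℚ) (E j)) :
    ∃ (n : ℕ) (ρ : FreeGroup (Fin l) →* Matrix (Fin n) (Fin n) ℚ) (u : Fin n → ℚ) (a0 : Fin n), u a0 = 1 ∧
      ∀ j, Ps ℤ ρ u (E j) = 0 := by
  classical
  set E' : Fin k → MonoidAlgebra ℚ (FreeGroup (Fin l)) :=
    fun j => MonoidAlgebra.mapRingHom (FreeGroup (Fin l)) (Int.castRingHom ℚ) (E j) with hE'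
  set J := RI (K := ℚ) E' with hJ
  obtain ⟨V, T, e0, hV, h0, hT⟩ := exists_T J (RI_mul E') (univ.biUnion fun j => (E' j).coeff.support)
  have he0 : e0 ≠ 0 := fun h1 => h (by
    rw [h1] at h0
    exact (Submodule.Quotient.mk_eq_zero J).1 h0.symm)
  let b := Module.finBasis ℚ V
  have hb : b.repr e0 ≠ 0 := fun h1 => he0 (b.repr.map_eq_zero_iff.1 h1)
  obtain ⟨a0, ha0⟩ : ∃ a0, b.repr e0 a0 ≠ 0 := by
    by_contra h1
    push Not at h1
    exact hb (Finsupp.ext h1)
  let ρ : FreeGroup (Fin l) →* Matrix (Fin (finrank ℚ V)) (Fin (finrank ℚ V)) ℚ :=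
    ((LinearMap.toMatrixAlgEquiv b : (V →ₗ[ℚ] V) ≃ₐ[ℚ] _) : (V →ₗ[ℚ] V) →* _).comp
      (LinearEquiv.automorphismGroup.toLinearMapMonoidHom.comp T)
  have hρ : ∀ s x, Matrix.mulVec (ρ s) (b.repr x) = b.repr (T s x) := fun s x =>
    LinearMap.toMatrix_mulVec_repr b b (T s : V →ₗ[ℚ] V) x
  refine ⟨finrank ℚ V, ρ, (b.repr e0 a0)⁻¹ • (b.repr e0 : Fin (finrank ℚ V) → ℚ), a0, ?_, fun j => ?_⟩
  · show (b.repr e0 a0)⁻¹ * b.repr e0 a0 = 1
    exact inv_mul_cancel₀ ha0
  · rw [← Ps_map, Ps_eq]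
    show (E' j).coeff.sum _ = 0
    have h2 : (E' j).coeff.sum (fun s c => c • T s⁻¹ e0) = 0 := by
      apply Subtype.ext
      unfold Finsupp.sum
      rw [Submodule.coe_sum]
      have h3 : ∀ s ∈ (E' j).coeff.support, (((E' j).coeff s • T s⁻¹ e0 : V) :
          MonoidAlgebra ℚ (FreeGroup (Fin l)) ⧸ J) = J.mkQ (MonoidAlgebra.single s ((E' j).coeff s)) := fun s hs => by
        rw [Submodule.coe_smul, hT s (Finset.mem_biUnion.2 ⟨j, mem_univ j, hs⟩), ← map_smul]
        congr 1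
        rw [MonoidAlgebra.smul_single, smul_eq_mul, mul_one]
      rw [Finset.sum_congr rfl h3, ← map_sum]
      have h4 : ∑ s ∈ (E' j).coeff.support, MonoidAlgebra.single s ((E' j).coeff s) = E' j :=
        MonoidAlgebra.sum_coeff_single (E' j)
      rw [h4]
      show (Submodule.Quotient.mk (E' j) : MonoidAlgebra ℚ (FreeGroup (Fin l)) ⧸ J) = 0
      rw [Submodule.Quotient.mk_eq_zero]
      refine Submodule.subset_span ⟨j, 1, ?_⟩
      rw [mul_one]
    have h5 : (E' j).coeff.sum (fun s c => c • Matrix.mulVec (ρ s⁻¹)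
        ((b.repr e0 a0)⁻¹ • (b.repr e0 : Fin (finrank ℚ V) → ℚ))) =
        (b.repr e0 a0)⁻¹ • (b.repr ((E' j).coeff.sum (fun s c => c • T s⁻¹ e0)) : Fin (finrank ℚ V) → ℚ) := by
      unfold Finsupp.sum
      rw [map_sum]
      funext a
      rw [Pi.smul_apply, Finset.sum_apply, Finsupp.finsetSum_apply, Finset.smul_sum]
      refine Finset.sum_congr rfl fun s _ => ?_
      show ((E' j).coeff s • Matrix.mulVec (ρ s⁻¹) ((b.repr e0 a0)⁻¹ • (b.repr e0 : Fin (finrank ℚ V) → ℚ))) a =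
        (b.repr e0 a0)⁻¹ • b.repr ((E' j).coeff s • T s⁻¹ e0) a
      rw [Matrix.mulVec_smul, hρ, map_smul]
      show (E' j).coeff s * ((b.repr e0 a0)⁻¹ * b.repr (T s⁻¹ e0) a) =
        (b.repr e0 a0)⁻¹ * ((E' j).coeff s * b.repr (T s⁻¹ e0) a)
      ring
    rw [h5, h2, map_zero]
    show (b.repr e0 a0)⁻¹ • (0 : Fin (finrank ℚ V) → ℚ) = 0
    rw [smul_zero]

/-- common denominator -/
theorem clear1 {G : Type*} [Group G] (z : MonoidAlgebra ℚ G) : ∃ D : ℕ, 0 < D ∧ ∃ y : MonoidAlgebra ℤ G,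
    MonoidAlgebra.mapRingHom G (Int.castRingHom ℚ) y = (D : ℚ) • z := by
  induction z using MonoidAlgebra.induction_linear with
  | zero => exact ⟨1, one_pos, 0, by rw [map_zero, smul_zero]⟩
  | add a b ha hb =>
    obtain ⟨D, hD, y, hy⟩ := ha
    obtain ⟨D', hD', y', hy'⟩ := hb
    refine ⟨D * D', Nat.mul_pos hD hD', (D' : ℤ) • y + (D : ℤ) • y', ?_⟩
    rw [map_add, map_zsmul, map_zsmul, hy, hy', smul_add, Nat.cast_mul, natCast_zsmul, natCast_zsmul,
      ← Nat.cast_smul_eq_nsmul ℚ, ← Nat.cast_smul_eq_nsmul ℚ, smul_smul, smul_smul, mul_comm (D' : ℚ) D]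
  | single m a =>
    refine ⟨a.den, a.den_pos, MonoidAlgebra.single m a.num, ?_⟩
    rw [MonoidAlgebra.mapRingHom_single, MonoidAlgebra.smul_single]
    congr 1
    show ((a.num : ℤ) : ℚ) = (a.den : ℚ) * a
    rw [mul_comm]
    exact (Rat.mul_den_eq_num a).symm

/-- common denominator of an element of the right ideal -/
theorem clear2 {G : Type*} [Group G] (E : Fin k → MonoidAlgebra ℤ G) {x : MonoidAlgebra ℚ G}
    (hx : x ∈ RI (K := ℚ) fun j => MonoidAlgebra.mapRingHom G (Int.castRingHom ℚ) (E j)) :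
    ∃ D : ℕ, 0 < D ∧ ∃ y : Fin k → MonoidAlgebra ℤ G,
      MonoidAlgebra.mapRingHom G (Int.castRingHom ℚ) (∑ j, E j * y j) = (D : ℚ) • x := by
  classical
  refine Submodule.span_induction (p := fun x _ => ∃ D : ℕ, 0 < D ∧ ∃ y : Fin k → MonoidAlgebra ℤ G,
      MonoidAlgebra.mapRingHom G (Int.castRingHom ℚ) (∑ j, E j * y j) = (D : ℚ) • x) ?_ ?_ ?_ ?_ hx
  · rintro _ ⟨i, z, rfl⟩
    obtain ⟨D, hD, y, hy⟩ := clear1 z
    refine ⟨D, hD, fun j => if j = i then y else 0, ?_⟩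
    have h1 : ∑ j, E j * (if j = i then y else 0) = E i * y := by
      rw [Finset.sum_eq_single i (fun j _ hj => by rw [if_neg hj, mul_zero]) (fun h => absurd (mem_univ i) h),
        if_pos rfl]
    rw [h1, map_mul, hy, mul_smul_comm]
  · exact ⟨1, one_pos, fun _ => 0, by simp⟩
  · rintro a b _ _ ⟨D, hD, y, hy⟩ ⟨D', hD', y', hy'⟩
    refine ⟨D * D', Nat.mul_pos hD hD', fun j => (D' : ℤ) • y j + (D : ℤ) • y' j, ?_⟩
    have h1 : ∑ j, E j * ((D' : ℤ) • y j + (D : ℤ) • y' j) =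
        (D' : ℤ) • (∑ j, E j * y j) + (D : ℤ) • ∑ j, E j * y' j := by
      rw [Finset.smul_sum, Finset.smul_sum, ← Finset.sum_add_distrib]
      refine Finset.sum_congr rfl fun j _ => ?_
      rw [mul_add, mul_smul_comm, mul_smul_comm]
    rw [h1, map_add, map_zsmul, map_zsmul, hy, hy', smul_add, Nat.cast_mul, natCast_zsmul, natCast_zsmul,
      ← Nat.cast_smul_eq_nsmul ℚ, ← Nat.cast_smul_eq_nsmul ℚ, smul_smul, smul_smul, mul_comm (D' : ℚ) D]
  · rintro a x _ ⟨D, hD, y, hy⟩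
    refine ⟨a.den * D, Nat.mul_pos a.den_pos hD, fun j => a.num • y j, ?_⟩
    have h1 : ∑ j, E j * (a.num • y j) = a.num • ∑ j, E j * y j := by
      rw [Finset.smul_sum]
      exact Finset.sum_congr rfl fun j _ => mul_smul_comm _ _ _
    rw [h1, map_zsmul, hy, ← Int.cast_smul_eq_zsmul ℚ, smul_smul, smul_smul, Nat.cast_mul]
    congr 1
    rw [← Rat.mul_den_eq_num a]
    ring

end rat

/-- the integers in the right ideal: one prime less -/
theorem step {G : Type*} [Group G] {k : ℕ} (E : Fin k → MonoidAlgebra ℤ G)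
    (h : ∀ (p : ℕ) (_ : Fact p.Prime), ∃ y : Fin k → MonoidAlgebra (ZMod p) G,
      ∑ j, MonoidAlgebra.mapRingHom G (Int.castRingHom (ZMod p)) (E j) * y j = 1) :
    ∀ n : ℕ, 0 < n → (∃ y : Fin k → MonoidAlgebra ℤ G, ∑ j, E j * y j = (n : MonoidAlgebra ℤ G)) →
      ∃ y : Fin k → MonoidAlgebra ℤ G, ∑ j, E j * y j = 1 := by
  intro n
  induction n using Nat.strong_induction_on with
  | _ n ih =>
    rintro hn ⟨y, hy⟩
    rcases Nat.lt_or_ge 1 n with h1 | h1
    · obtain ⟨p, hp, n', hn'⟩ := Nat.exists_prime_and_dvd (show n ≠ 1 by omega)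
      obtain ⟨z, hz⟩ := h p ⟨hp⟩
      have hsur : Function.Surjective (MonoidAlgebra.map (M := G) (Int.castRingHom (ZMod p) : ℤ →+ ZMod p)) :=
        MonoidAlgebra.map_surjective _ (ZMod.ringHom_surjective (Int.castRingHom (ZMod p)))
      choose z' hz' using fun j => hsur (z j)
      have h2 : MonoidAlgebra.mapRingHom G (Int.castRingHom (ZMod p)) (1 - ∑ j, E j * z' j) = 0 := by
        rw [map_sub, map_one, map_sum, ← hz, sub_eq_zero]
        refine Finset.sum_congr rfl fun j _ => ?_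
        rw [map_mul]
        congr 1
        exact (hz' j).symm
      obtain ⟨c, hc⟩ : ∃ c : MonoidAlgebra ℤ G, 1 - ∑ j, E j * z' j = (p : MonoidAlgebra ℤ G) * c := by
        refine ⟨.ofCoeff ((1 - ∑ j, E j * z' j).coeff.mapRange (fun a => a / (p : ℤ)) (Int.zero_ediv _)), ?_⟩
        rw [← nsmul_eq_mul]
        refine MonoidAlgebra.ext (Finsupp.ext fun m => ?_)
        have h4 : ((p : ℤ)) ∣ (1 - ∑ j, E j * z' j).coeff m := by
          rw [← ZMod.intCast_zmod_eq_zero_iff_dvd]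
          have h5 := congrArg (fun x : MonoidAlgebra (ZMod p) G => x.coeff m) h2
          simp only [MonoidAlgebra.coeff_mapRingHom] at h5
          exact h5
        show _ = p • ((1 - ∑ j, E j * z' j).coeff m / (p : ℤ))
        rw [nsmul_eq_mul, Int.mul_ediv_cancel' h4]
      have hn0 : 0 < n' := by
        rcases Nat.eq_zero_or_pos n' with h3 | h3
        · rw [h3, mul_zero] at hn'
          omega
        · exact h3
      have hlt : n' < n := by
        rw [hn']
        have := hp.two_le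
        nlinarith
      refine ih n' hlt hn0 ⟨fun j => z' j * (n' : MonoidAlgebra ℤ G) + y j * c, ?_⟩
      have h3 : ∑ j, E j * (z' j * (n' : MonoidAlgebra ℤ G) + y j * c) =
          (∑ j, E j * z' j) * (n' : MonoidAlgebra ℤ G) + (∑ j, E j * y j) * c := by
        rw [Finset.sum_mul, Finset.sum_mul, ← Finset.sum_add_distrib]
        exact Finset.sum_congr rfl fun j _ => by rw [mul_add, mul_assoc, mul_assoc]
      rw [h3, hy, hn', Nat.cast_mul, ← (Nat.cast_commute n' (p : MonoidAlgebra ℤ G)).eq, mul_assoc, ← hc,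
        ← (Nat.cast_commute n' (∑ j, E j * z' j)).eq, ← mul_add, add_sub_cancel, mul_one]
    · have : n = 1 := by omega
      rw [this, Nat.cast_one] at hy
      exact ⟨y, hy⟩

end IntU

theorem int_unimod {l k : ℕ} (E : Fin k → MonoidAlgebra ℤ (FreeGroup (Fin l)))
    (h : ∀ (p : ℕ) (_ : Fact p.Prime), ∃ y : Fin k → MonoidAlgebra (ZMod p) (FreeGroup (Fin l)),
      ∑ j, MonoidAlgebra.mapRingHom (FreeGroup (Fin l)) (Int.castRingHom (ZMod p)) (E j) * y j = 1) :
    ∃ y : Fin k → MonoidAlgebra ℤ (FreeGroup (Fin l)), ∑ j, E j * y j = 1 := by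
  by_cases h1 : (1 : MonoidAlgebra ℚ (FreeGroup (Fin l))) ∈
      RI (K := ℚ) fun j => MonoidAlgebra.mapRingHom (FreeGroup (Fin l)) (Int.castRingHom ℚ) (E j)
  · obtain ⟨D, hD, y, hy⟩ := IntU.clear2 E h1
    refine IntU.step E h D hD ⟨y, ?_⟩
    have hinj : Function.Injective (MonoidAlgebra.map (M := FreeGroup (Fin l)) (Int.castRingHom ℚ : ℤ →+ ℚ)) :=
      MonoidAlgebra.map_injective _ (Int.castRingHom ℚ).injective_int
    refine hinj ?_
    show MonoidAlgebra.mapRingHom (FreeGroup (Fin l)) (Int.castRingHom ℚ) _ =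
      MonoidAlgebra.mapRingHom (FreeGroup (Fin l)) (Int.castRingHom ℚ) _
    rw [hy, map_natCast, Nat.cast_smul_eq_nsmul ℚ, nsmul_eq_mul, mul_one]
  · obtain ⟨n, ρ, u, a0, hu, hE⟩ := IntU.exists_mat E h1
    obtain ⟨p, hp, ρ', u', hu', hr⟩ := IntU.reduce ρ u hu
    obtain ⟨y, hy⟩ := h p hp
    have h2 := IntU.Ps_contra ρ' u' E (fun j => hr _ (hE j)) y hy
    rw [h2] at hu'
    exact absurd hu'.symm one_ne_zero

end Pool.Agent.MelD
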