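import Pool.Agent.MelD.Uni

/-!
# The kernel of the map onto a free group of rank `k - 1` is perfect
-/

open Finset

namespace Pool.Agent.MelD

open Pool.Agent.MelG (HasRel)

theorem HL_of_last {l m : ℕ} (r : FreeGroup (Fin (l + 1)))
    (H : ∀ N : Subgroup (OR r), N.Normal → N.FiniteIndex →
      PresentedGroup.of (Fin.last l) ∈ N → HasRel m N) : HL m (killLast l) r := by
  intro N h1 h2 h3
  refine H N h1 h2 (h3 (FreeGroup.of (Fin.last l)) ?_)
  unfold killLast
  rw [FreeGroup.lift_apply_of, Fin.lastCases_last]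

/-- The kernel is perfect. -/
theorem perfect {l : ℕ} (r : FreeGroup (Fin (l + 1))) (g : FreeGroup (Fin (l + 1))) (ε : ℤ)
    (hε : ε = 1 ∨ ε = -1)
    (h : r * (g * FreeGroup.of (Fin.last l) ^ ε * g⁻¹)⁻¹ ∈
      ⁅Subgroup.normalClosure {FreeGroup.of (Fin.last l)},
        Subgroup.normalClosure {FreeGroup.of (Fin.last l)}⁆) :
    ⁅Subgroup.normalClosure {(PresentedGroup.of (Fin.last l) : OR r)},
      Subgroup.normalClosure {(PresentedGroup.of (Fin.last l) : OR r)}⁆ =
      Subgroup.normalClosure {(PresentedGroup.of (Fin.last l) : OR r)} := by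
  set Z : Subgroup (OR r) := Subgroup.normalClosure {(PresentedGroup.of (Fin.last l) : OR r)} with hZ
  have hmap : (Subgroup.normalClosure {FreeGroup.of (Fin.last l)}).map
      (PresentedGroup.mk ({r} : Set (FreeGroup (Fin (l + 1))))) = Z := by
    rw [Subgroup.map_normalClosure _ _ (PresentedGroup.mk_surjective _), Set.image_singleton]
    rfl
  have h1 : PresentedGroup.mk {r} (r * (g * FreeGroup.of (Fin.last l) ^ ε * g⁻¹)⁻¹) ∈ ⁅Z, Z⁆ := by
    rw [← hmap, ← Subgroup.map_commutator]
    exact Subgroup.mem_map_of_mem _ h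
  have hr : PresentedGroup.mk {r} r = 1 := PresentedGroup.one_of_mem (Set.mem_singleton r)
  rw [map_mul, hr, one_mul, map_inv, Subgroup.inv_mem_iff, map_mul, map_mul, map_inv] at h1
  have hn : (⁅Z, Z⁆ : Subgroup (OR r)).Normal := inferInstance
  have h2 := hn.conj_mem _ h1 (PresentedGroup.mk {r} g)⁻¹
  have h3 : (PresentedGroup.mk {r} g)⁻¹ * (PresentedGroup.mk {r} g *
      PresentedGroup.mk {r} (FreeGroup.of (Fin.last l) ^ ε) * (PresentedGroup.mk {r} g)⁻¹) *
      (PresentedGroup.mk {r} g)⁻¹⁻¹ = (PresentedGroup.of (Fin.last l) : OR r) ^ ε := by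
    rw [map_zpow]
    group
    rfl
  rw [h3] at h2
  have h4 : (PresentedGroup.of (Fin.last l) : OR r) ∈ ⁅Z, Z⁆ := by
    rcases hε with rfl | rfl
    · rwa [zpow_one] at h2
    · rw [zpow_neg, zpow_one] at h2
      exact (Subgroup.inv_mem_iff _).mp h2
  apply le_antisymm
  · exact Subgroup.commutator_le_left Z Z
  · rw [hZ]
    refine Subgroup.normalClosure_le_normal ?_
    rw [Set.singleton_subset_iff]
    exact h4

/-- If the kernel is perfect and the group is residually solvable, then the group is free. -/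
theorem free_of_perfect {l : ℕ} (r : FreeGroup (Fin (l + 1)))
    (hr : r ∈ Subgroup.normalClosure {FreeGroup.of (Fin.last l)})
    (h : ⁅Subgroup.normalClosure {(PresentedGroup.of (Fin.last l) : OR r)},
      Subgroup.normalClosure {(PresentedGroup.of (Fin.last l) : OR r)}⁆ =
      Subgroup.normalClosure {(PresentedGroup.of (Fin.last l) : OR r)})
    (hs : ∀ x : OR r, x ≠ 1 → ∃ n, x ∉ derivedSeries (OR r) n) :
    Nonempty (OR r ≃* FreeGroup (Fin l)) := by
  have h1 : ∀ n, Subgroup.normalClosure {(PresentedGroup.of (Fin.last l) : OR r)} ≤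
      derivedSeries (OR r) n := by
    intro n
    induction n with
    | zero => exact le_top
    | succ n ih =>
      rw [derivedSeries_succ, ← h]
      exact Subgroup.commutator_mono ih ih
  have h2 : (PresentedGroup.of (Fin.last l) : OR r) = 1 := by
    by_contra hne
    obtain ⟨n, hn⟩ := hs _ hne
    exact hn (h1 n (Subgroup.subset_normalClosure rfl))
  have h3 : FreeGroup.of (Fin.last l) ∈
      Subgroup.normalClosure ({r} : Set (FreeGroup (Fin (l + 1)))) :=
    PresentedGroup.mk_eq_one_iff.mp h2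
  have h4 : Subgroup.normalClosure {FreeGroup.of (Fin.last l)} ≤
      Subgroup.normalClosure ({r} : Set (FreeGroup (Fin (l + 1)))) :=
    Subgroup.normalClosure_le_normal (by
      rw [Set.singleton_subset_iff]
      exact h3)
  obtain ⟨f, hf⟩ := exists_desc r (killLast l) (killLast_kill r hr)
  refine ⟨MulEquiv.ofBijective f ⟨?_, ?_⟩⟩
  · rw [injective_iff_map_eq_one]
    intro a ha
    obtain ⟨w, rfl⟩ := PresentedGroup.mk_surjective _ a
    rw [PresentedGroup.mk_eq_one_iff]
    apply h4
    apply kill_killLast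
    rw [← hf]
    exact ha
  · intro x
    obtain ⟨w, hw⟩ := killLast_surj l x
    refine ⟨PresentedGroup.mk {r} w, ?_⟩
    rw [← hw, ← hf]
    rfl

end Pool.Agent.MelD
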