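import Pool.Agent.MelD.Free
import Pool.Agent.MelD.Dens

/-!
# Lifting problems for closed subgroups of infinite index

`G_r` a one-relator group all of whose finite index normal subgroups have presentations with at most `m`
relators, `S` a closed subgroup of infinite index, `T` its preimage in the free group.

* `exists_hom_conj`: homomorphisms of `T` to vector spaces over `ZMod p` with prescribed values on the
  conjugates of `r`.
* `central_lift`: homomorphisms of `S` lift through central extensions with kernel of exponent `p`.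
* `abelian_lift`: homomorphisms of `S` with finite image and closed kernel lift through extensions with
  kernel abelian of exponent `p`.
* `not_one_relator`: `S` is not isomorphic to a one-relator group with a nontrivial relator in
  `[F, F] F ^ p`, e.g. to a surface group.
-/

open Finset Module commutatorElement

namespace Pool.Agent.MelD

open Pool.Agent.MelG (HasRel)

/-- Prescribed values of a homomorphism to a vector space on a family independent in the abelianization
tensored with `K`. -/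
theorem exists_hom_of_indep' {T : Type} [Group T] [IsFreeGroup T] {K : Type} [Field K] {W : Type}
    [AddCommGroup W] [Module K W] {ι : Type} (v : ι → T)
    (hv : ∀ (s : Finset ι) (c : ι → K),
      (∀ χ : T →* Multiplicative K, ∑ i ∈ s, c i * Multiplicative.toAdd (χ (v i)) = 0) →
        ∀ i ∈ s, c i = 0) (f : ι → W) :
    ∃ χ : T →* Multiplicative W, ∀ i, χ (v i) = Multiplicative.ofAdd (f i) := by
  classical
  let V := IsFreeGroup.Generators T →₀ K
  let θ : T →* Multiplicative V :=
    IsFreeGroup.lift fun b => Multiplicative.ofAdd (Finsupp.single b (1 : K))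
  have hθ : ∀ b, θ (IsFreeGroup.of b) = Multiplicative.ofAdd (Finsupp.single b (1 : K)) := by
    intro b
    exact IsFreeGroup.lift_of _ b
  -- homomorphisms are linear functionals
  have hχ : ∀ χ : T →* Multiplicative K, ∃ L : V →ₗ[K] K, ∀ t,
      Multiplicative.toAdd (χ t) = L (Multiplicative.toAdd (θ t)) := by
    intro χ
    let L : V →ₗ[K] K :=
      Finsupp.linearCombination K fun b => Multiplicative.toAdd (χ (IsFreeGroup.of b))
    refine ⟨L, ?_⟩
    have h1 : χ = (AddMonoidHom.toMultiplicative L.toAddMonoidHom).comp θ := by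
      refine IsFreeGroup.ext_hom fun b => ?_
      show χ (IsFreeGroup.of b) = Multiplicative.ofAdd
        (L (Multiplicative.toAdd (θ (IsFreeGroup.of b))))
      rw [hθ, toAdd_ofAdd, Finsupp.linearCombination_single, one_smul, ofAdd_toAdd]
    intro t
    conv_lhs => rw [h1]
    rfl
  have hli : LinearIndependent K fun i => Multiplicative.toAdd (θ (v i)) := by
    rw [linearIndependent_iff']
    intro s c hc
    refine hv s c ?_
    intro χ
    obtain ⟨L, hL⟩ := hχ χ
    simp only [hL]
    have h1 := congrArg L hc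
    rw [map_sum, map_zero] at h1
    rw [← h1]
    refine sum_congr rfl fun i _ => ?_
    rw [map_smul, smul_eq_mul]
  let g₀ : Submodule.span K (Set.range fun i => Multiplicative.toAdd (θ (v i))) →ₗ[K] W :=
    (Finsupp.linearCombination K f).comp hli.repr
  obtain ⟨L, hL⟩ := LinearMap.exists_extend g₀
  refine ⟨(AddMonoidHom.toMultiplicative L.toAddMonoidHom).comp θ, ?_⟩
  intro i
  show Multiplicative.ofAdd (L (Multiplicative.toAdd (θ (v i)))) = _
  congr 1
  have h1 : Multiplicative.toAdd (θ (v i)) ∈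
      Submodule.span K (Set.range fun i => Multiplicative.toAdd (θ (v i))) :=
    Submodule.subset_span ⟨i, rfl⟩
  have h2 := LinearMap.congr_fun hL ⟨_, h1⟩
  have h3 : L (Multiplicative.toAdd (θ (v i))) = g₀ ⟨_, h1⟩ := h2
  rw [h3]
  show Finsupp.linearCombination K f (hli.repr ⟨_, h1⟩) = f i
  rw [hli.repr_eq_single i ⟨_, h1⟩ rfl, Finsupp.linearCombination_single, one_smul]

section basic

variable {k : ℕ} (r : FreeGroup (Fin k)) (S : Subgroup (OR r))

/-- The preimage of a subgroup in the free group. -/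
abbrev TT : Subgroup (FreeGroup (Fin k)) :=
  S.comap (PresentedGroup.mk ({r} : Set (FreeGroup (Fin k))))

/-- The projection of the preimage. -/
def tau : TT r S →* S := (PresentedGroup.mk ({r} : Set (FreeGroup (Fin k)))).subgroupComap S

theorem tau_surj : Function.Surjective (tau r S) := by
  rintro ⟨s, hs⟩
  obtain ⟨t, rfl⟩ := PresentedGroup.mk_surjective _ s
  exact ⟨⟨t, hs⟩, rfl⟩

/-- The conjugates of the relator as elements of the preimage. -/
def cjT (g : FreeGroup (Fin k)) : TT r S := ⟨g * r * g⁻¹, conj_mem_comap r S g⟩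

theorem tau_cjT (g : FreeGroup (Fin k)) : tau r S (cjT r S g) = 1 := by
  apply Subtype.ext
  show PresentedGroup.mk {r} (g * r * g⁻¹) = 1
  rw [map_mul, map_mul, mk_rel, mul_one, map_inv, mul_inv_cancel]

theorem cjT_mul (t : TT r S) (g : FreeGroup (Fin k)) :
    cjT r S (t.1 * g) = t * cjT r S g * t⁻¹ := by
  apply Subtype.ext
  show t.1 * g * r * (t.1 * g)⁻¹ = t.1 * (g * r * g⁻¹) * t.1⁻¹
  group

/-- A homomorphism that kills the conjugates of the relator descends. -/
theorem descend {P : Type} [Group P] (μ : TT r S →* P) (h : ∀ g, μ (cjT r S g) = 1) :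
    ∃ φ : S →* P, ∀ t, φ (tau r S t) = μ t := by
  have hker : (tau r S).ker ≤ μ.ker := by
    intro t ht
    have h1 : PresentedGroup.mk ({r} : Set (FreeGroup (Fin k))) t.1 = 1 :=
      congrArg Subtype.val (MonoidHom.mem_ker.mp ht)
    have h2 : t.1 ∈ Subgroup.normalClosure ({r} : Set (FreeGroup (Fin k))) :=
      (QuotientGroup.eq_one_iff _).mp h1
    have h3 : Subgroup.normalClosure ({r} : Set (FreeGroup (Fin k))) ≤
        μ.ker.map (TT r S).subtype := by
      unfold Subgroup.normalClosure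
      rw [Subgroup.closure_le]
      intro w hw
      obtain ⟨r', hr', hconj⟩ := Group.mem_conjugatesOfSet_iff.mp hw
      rw [Set.mem_singleton_iff] at hr'
      subst hr'
      obtain ⟨g, rfl⟩ := isConj_iff.mp hconj
      exact ⟨cjT r' S g, MonoidHom.mem_ker.mpr (h g), rfl⟩
    obtain ⟨t', ht', htt'⟩ := h3 h2
    have h4 : t' = t := Subtype.ext htt'
    rw [← h4]
    exact ht'
  exact ⟨(MonoidHom.liftOfSurjective (tau r S) (tau_surj r S)) ⟨μ, hker⟩, fun t =>
    MonoidHom.liftOfRightInverse_comp_apply (tau r S) _ _ ⟨μ, hker⟩ t⟩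

end basic

/-- Homomorphisms of the preimage of a closed subgroup of infinite index with prescribed values on the
conjugates of the relator. -/
theorem exists_hom_conj {k : ℕ} (hk : 2 ≤ k) (r : FreeGroup (Fin k)) (hr1 : r ≠ 1) (m : ℕ)
    (H : ∀ N : Subgroup (OR r), N.Normal → N.FiniteIndex → HasRel m N)
    (S : Subgroup (OR r)) (hS : IsProClosed S) (hinf : ¬ S.FiniteIndex)
    (p : ℕ) [hp : Fact p.Prime] {W : Type} [AddCommGroup W] [Module (ZMod p) W]
    (u : FreeGroup (Fin k) → W) (hu : ∀ t ∈ TT r S, ∀ g, u (t * g) = u g) :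
    ∃ χ : TT r S →* Multiplicative W, ∀ g, χ (cjT r S g) = Multiplicative.ofAdd (u g) := by
  classical
  let ι := Quotient (QuotientGroup.rightRel (TT r S))
  let v : ι → TT r S := fun i => cjT r S (Quotient.out i)
  have hv : ∀ (s : Finset ι) (c : ι → ZMod p),
      (∀ χ : TT r S →* Multiplicative (ZMod p),
        ∑ i ∈ s, c i * Multiplicative.toAdd (χ (v i)) = 0) → ∀ i ∈ s, c i = 0 := by
    intro s c hc i hi
    let e := s.equivFin
    have h1 := closed_cycles hk r hr1 m H S hS hinf (ZMod p)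
      (fun a : Fin s.card => Quotient.out (e.symm a).1) (by
        intro a b hab h
        apply hab
        apply e.symm.injective
        apply Subtype.ext
        rw [← Quotient.out_eq (e.symm a).1, ← Quotient.out_eq (e.symm b).1]
        refine Quotient.sound ?_
        refine (QuotientGroup.rightRel (TT r S)).symm ?_
        exact QuotientGroup.rightRel_apply.mpr h) (fun a => c (e.symm a).1) (by
        intro χ
        have h2 := hc χ
        rw [← Finset.sum_coe_sort] at h2
        rw [← h2]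
        exact Fintype.sum_equiv e.symm _ _ fun a => rfl)
    have h2 := congrFun h1 (e ⟨i, hi⟩)
    simpa using h2
  obtain ⟨χ, hχ⟩ := exists_hom_of_indep' v hv (fun i => u (Quotient.out i))
  refine ⟨χ, ?_⟩
  intro g
  have h1 : g * (Quotient.out (Quotient.mk (QuotientGroup.rightRel (TT r S)) g))⁻¹ ∈ TT r S := by
    have h2 := Quotient.mk_out (s := QuotientGroup.rightRel (TT r S)) g
    exact QuotientGroup.rightRel_apply.mp h2
  have h3 : cjT r S g = ⟨_, h1⟩ * v (Quotient.mk (QuotientGroup.rightRel (TT r S)) g) *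
      ⟨_, h1⟩⁻¹ := by
    rw [← cjT_mul]
    congr 1
    exact (inv_mul_cancel_right _ _).symm
  have h4 : u g = u (Quotient.out (Quotient.mk (QuotientGroup.rightRel (TT r S)) g)) := by
    have h5 := hu _ h1 (Quotient.out (Quotient.mk (QuotientGroup.rightRel (TT r S)) g))
    rw [inv_mul_cancel_right] at h5
    exact h5
  rw [h3, map_mul, map_mul, map_inv, mul_comm, inv_mul_cancel_left, hχ, h4]

/-- Lifting through central extensions with kernel of exponent `p`. -/
theorem central_lift {k : ℕ} (hk : 2 ≤ k) (r : FreeGroup (Fin k)) (hr1 : r ≠ 1) (m : ℕ)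
    (H : ∀ N : Subgroup (OR r), N.Normal → N.FiniteIndex → HasRel m N)
    (S : Subgroup (OR r)) (hS : IsProClosed S) (hinf : ¬ S.FiniteIndex)
    (p : ℕ) [hp : Fact p.Prime] {P : Type} [Group P] (A : Subgroup P) [A.Normal]
    (hcen : ∀ a ∈ A, ∀ x : P, x * a = a * x) (hexp : ∀ a ∈ A, a ^ p = 1) (φ₀ : S →* P ⧸ A) :
    ∃ φ : S →* P, ∀ s, (QuotientGroup.mk (φ s) : P ⧸ A) = φ₀ s := by
  classical
  let _ : CommGroup A := { (inferInstance : Group A) with
    mul_comm := fun a b => Subtype.ext (hcen b.1 b.2 a.1) }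
  let _ : Module (ZMod p) (Additive A) := AddCommGroup.zmodModule (fun a => by
    apply Additive.toMul.injective
    apply Subtype.ext
    exact hexp _ (Additive.toMul a).2)
  let μ : TT r S →* P := IsFreeGroup.lift fun b => Quotient.out (φ₀ (tau r S (IsFreeGroup.of b)))
  have hμ : ∀ t, (QuotientGroup.mk (μ t) : P ⧸ A) = φ₀ (tau r S t) := by
    have h1 : (QuotientGroup.mk' A).comp μ = φ₀.comp (tau r S) := by
      refine IsFreeGroup.ext_hom fun b => ?_
      show (QuotientGroup.mk (μ (IsFreeGroup.of b)) : P ⧸ A) = φ₀ (tau r S (IsFreeGroup.of b))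
      rw [IsFreeGroup.lift_of]
      exact QuotientGroup.out_eq' _
    exact fun t => DFunLike.congr_fun h1 t
  have hμc : ∀ g, μ (cjT r S g) ∈ A := by
    intro g
    have h1 := hμ (cjT r S g)
    rw [tau_cjT, map_one] at h1
    exact (QuotientGroup.eq_one_iff _).mp h1
  obtain ⟨χ, hχ⟩ := exists_hom_conj hk r hr1 m H S hS hinf p
    (W := Additive A) (fun g => Additive.ofMul (⟨μ (cjT r S g), hμc g⟩ : A)) (by
      intro t ht g
      congr 1
      apply Subtype.ext
      show μ (cjT r S (t * g)) = μ (cjT r S g)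
      rw [show cjT r S (t * g) = ⟨t, ht⟩ * cjT r S g * ⟨t, ht⟩⁻¹ from cjT_mul r S ⟨t, ht⟩ g,
        map_mul, map_mul, hcen _ (hμc g), map_inv, mul_inv_cancel_right])
  let χ' : TT r S →* A := MonoidHom.mk' (fun t => Additive.toMul (Multiplicative.toAdd (χ t)))
    (by intro a b; rw [map_mul]; rfl)
  have hχ' : ∀ g, (χ' (cjT r S g)).1 = μ (cjT r S g) := by
    intro g
    show (Additive.toMul (Multiplicative.toAdd (χ (cjT r S g)))).1 = _
    rw [hχ]
    rfl
  let μ' : TT r S →* P := MonoidHom.mk' (fun t => μ t * (χ' t).1⁻¹) (by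
    intro a b
    have h1 : (χ' (a * b)).1 = (χ' b).1 * (χ' a).1 := by
      rw [map_mul, mul_comm]
      rfl
    rw [h1, map_mul, mul_inv_rev]
    have h2 : μ b * ((χ' a).1⁻¹ * (χ' b).1⁻¹) = (χ' a).1⁻¹ * (μ b * (χ' b).1⁻¹) := by
      rw [← mul_assoc, hcen _ (A.inv_mem (χ' a).2), mul_assoc]
    rw [mul_assoc, h2]
    simp only [mul_assoc])
  obtain ⟨φ, hφ⟩ := descend r S μ' (by
    intro g
    show μ (cjT r S g) * (χ' (cjT r S g)).1⁻¹ = 1
    rw [hχ', mul_inv_cancel])
  refine ⟨φ, ?_⟩
  intro s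
  obtain ⟨t, rfl⟩ := tau_surj r S s
  rw [hφ, ← hμ, QuotientGroup.eq]
  show (μ t * (χ' t).1⁻¹)⁻¹ * μ t ∈ A
  rw [mul_inv_rev, inv_inv, inv_mul_cancel_right]
  exact (χ' t).2

/-- The derived subgroup and the `p`-th powers. -/
theorem hom_VT {G A : Type} [Group G] [Group A] (hA : ∀ a b : A, a * b = b * a) {p : ℕ}
    (hp : ∀ a : A, a ^ p = 1) (d : G →* A) {s : G} (hs : s ∈ VT p (⊤ : Subgroup G)) : d s = 1 := by
  have h1 : VT p (⊤ : Subgroup G) ≤ d.ker := by
    unfold VT
    refine sup_le ?_ ?_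
    · rw [Subgroup.commutator_le]
      intro a _ b _
      rw [MonoidHom.mem_ker, map_commutatorElement, commutatorElement_eq_one_iff_mul_comm]
      exact hA _ _
    · rw [Subgroup.closure_le]
      rintro _ ⟨x, _, rfl⟩
      show x ^ p ∈ d.ker
      rw [MonoidHom.mem_ker, map_pow, hp]
  exact h1 hs

/-- **Hopf's formula**: `H_2 (S; ZMod p) = 0`. -/
theorem hopf_formula {k : ℕ} (hk : 2 ≤ k) (r : FreeGroup (Fin k)) (hr1 : r ≠ 1) (m : ℕ)
    (H : ∀ N : Subgroup (OR r), N.Normal → N.FiniteIndex → HasRel m N)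
    (S : Subgroup (OR r)) (hS : IsProClosed S) (hinf : ¬ S.FiniteIndex)
    (p : ℕ) [hp : Fact p.Prime] {α : Type} (q : FreeGroup α →* S) (hq : Function.Surjective q)
    (x : FreeGroup α) (hx : q x = 1) (hxp : x ∈ VT p (⊤ : Subgroup (FreeGroup α))) :
    x ∈ ⁅q.ker, (⊤ : Subgroup (FreeGroup α))⁆ ⊔
      Subgroup.closure ((fun y => y ^ p) '' (q.ker : Set (FreeGroup α))) := by
  classical
  set M := ⁅q.ker, (⊤ : Subgroup (FreeGroup α))⁆ ⊔
      Subgroup.closure ((fun y => y ^ p) '' (q.ker : Set (FreeGroup α))) with hM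
  have hn1 : (Subgroup.closure ((fun y => y ^ p) '' (q.ker : Set (FreeGroup α)))).Normal := by
    constructor
    intro a ha g
    induction ha using Subgroup.closure_induction with
    | mem a ha =>
      obtain ⟨y, hy, rfl⟩ := ha
      refine Subgroup.subset_closure ⟨g * y * g⁻¹, ?_, ?_⟩
      · exact (inferInstance : q.ker.Normal).conj_mem y hy g
      · show (g * y * g⁻¹) ^ p = g * y ^ p * g⁻¹
        rw [conj_pow]
    | one => rw [mul_one, mul_inv_cancel]; exact Subgroup.one_mem _
    | mul a b _ _ iha ihb =>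
      have h1 : g * (a * b) * g⁻¹ = (g * a * g⁻¹) * (g * b * g⁻¹) := by group
      rw [h1]
      exact Subgroup.mul_mem _ iha ihb
    | inv a _ iha =>
      have h1 : g * a⁻¹ * g⁻¹ = (g * a * g⁻¹)⁻¹ := by group
      rw [h1]
      exact Subgroup.inv_mem _ iha
  have hMn : M.Normal := inferInstance
  let A : Subgroup (FreeGroup α ⧸ M) := q.ker.map (QuotientGroup.mk' M)
  have hAn : A.Normal := (inferInstance : q.ker.Normal).map _ (QuotientGroup.mk'_surjective M)
  have hcen : ∀ a ∈ A, ∀ y : FreeGroup α ⧸ M, y * a = a * y := by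
    rintro _ ⟨a, ha, rfl⟩ y
    obtain ⟨y, rfl⟩ := QuotientGroup.mk'_surjective M y
    rw [← map_mul, ← map_mul]
    refine QuotientGroup.eq.mpr ?_
    have h1 : ⁅a⁻¹, y⁻¹⁆ ∈ M :=
      Subgroup.mem_sup_left (Subgroup.commutator_mem_commutator (q.ker.inv_mem ha)
        (Subgroup.mem_top _))
    have h2 : (y * a)⁻¹ * (a * y) = ⁅a⁻¹, y⁻¹⁆ := by
      rw [commutatorElement_def]
      group
    rw [h2]
    exact h1
  have hexp : ∀ a ∈ A, a ^ p = 1 := by
    rintro _ ⟨a, ha, rfl⟩
    rw [← map_pow]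
    exact (QuotientGroup.eq_one_iff _).mpr (Subgroup.mem_sup_right (Subgroup.subset_closure
      ⟨a, ha, rfl⟩))
  let f₀ : FreeGroup α →* (FreeGroup α ⧸ M) ⧸ A :=
    (QuotientGroup.mk' A).comp (QuotientGroup.mk' M)
  have hf₀ : q.ker ≤ f₀.ker := by
    intro a ha
    rw [MonoidHom.mem_ker]
    exact (QuotientGroup.eq_one_iff _).mpr ⟨a, ha, rfl⟩
  let φ₀ : S →* (FreeGroup α ⧸ M) ⧸ A := (MonoidHom.liftOfSurjective q hq) ⟨f₀, hf₀⟩
  have hφ₀ : ∀ y, φ₀ (q y) = f₀ y := fun y =>
    MonoidHom.liftOfRightInverse_comp_apply q _ _ ⟨f₀, hf₀⟩ y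
  obtain ⟨φ, hφ⟩ := central_lift hk r hr1 m H S hS hinf p A hcen hexp φ₀
  have hmem : ∀ y, (φ (q y))⁻¹ * QuotientGroup.mk' M y ∈ A := by
    intro y
    rw [← QuotientGroup.eq, hφ, hφ₀]
    rfl
  let d : FreeGroup α →* A := MonoidHom.mk'
    (fun y => ⟨(φ (q y))⁻¹ * QuotientGroup.mk' M y, hmem y⟩) (by
    intro a b
    apply Subtype.ext
    show (φ (q (a * b)))⁻¹ * QuotientGroup.mk' M (a * b) =
      ((φ (q a))⁻¹ * QuotientGroup.mk' M a) * ((φ (q b))⁻¹ * QuotientGroup.mk' M b)
    rw [map_mul, map_mul, map_mul, mul_inv_rev]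
    have h1 := hcen _ (hmem a) (φ (q b))⁻¹
    calc (φ (q b))⁻¹ * (φ (q a))⁻¹ * (QuotientGroup.mk' M a * QuotientGroup.mk' M b)
        = ((φ (q b))⁻¹ * ((φ (q a))⁻¹ * QuotientGroup.mk' M a)) * QuotientGroup.mk' M b := by
          simp only [mul_assoc]
      _ = (((φ (q a))⁻¹ * QuotientGroup.mk' M a) * (φ (q b))⁻¹) * QuotientGroup.mk' M b := by
          rw [h1]
      _ = _ := by simp only [mul_assoc])
  have hd : d x = 1 := hom_VT (fun a b => Subtype.ext (hcen b.1 b.2 a.1))
    (fun a => Subtype.ext (hexp a.1 a.2)) d hxp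
  have hd1 : (φ (q x))⁻¹ * QuotientGroup.mk' M x = 1 := congrArg Subtype.val hd
  rw [hx, map_one, inv_one, one_mul] at hd1
  exact (QuotientGroup.eq_one_iff x).mp hd1

/-- A group whose homomorphisms to finite `p`-groups lift through central extensions is not isomorphic
to a one-relator group with a nontrivial relator in `[F, F] F ^ p`. -/
theorem not_OR_of_lift {S : Type} [Group S] (p : ℕ) [hp : Fact p.Prime]
    (hL : ∀ (P : Type) [Group P] [Finite P] (A : Subgroup P) [A.Normal],
      (∀ a ∈ A, ∀ x : P, x * a = a * x) → (∀ a ∈ A, a ^ p = 1) → ∀ φ₀ : S →* P ⧸ A,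
        ∃ φ : S →* P, ∀ s, (QuotientGroup.mk (φ s) : P ⧸ A) = φ₀ s)
    {n : ℕ} (s : FreeGroup (Fin n)) (hs1 : s ≠ 1)
    (hs : s ∈ VT p (⊤ : Subgroup (FreeGroup (Fin n)))) : IsEmpty (OR s ≃* S) := by
  classical
  refine ⟨fun e => ?_⟩
  let q : FreeGroup (Fin n) →* S :=
    (e : OR s →* S).comp (PresentedGroup.mk ({s} : Set (FreeGroup (Fin n))))
  have hq : Function.Surjective q := e.surjective.comp (PresentedGroup.mk_surjective _)
  have hker : q.ker = Subgroup.normalClosure {s} := by
    ext u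
    rw [MonoidHom.mem_ker]
    show e (PresentedGroup.mk {s} u) = 1 ↔ _
    rw [map_eq_one_iff e e.injective]
    exact QuotientGroup.eq_one_iff u
  have hqs : q s = 1 := by
    show e (PresentedGroup.mk {s} s) = 1
    rw [mk_rel, map_one]
  -- finite `p`-groups
  have key : ∀ (N : ℕ) (P : Type) [Group P] [Finite P], IsPGroup p P → Nat.card P ≤ N →
      ∀ κ : FreeGroup (Fin n) →* P, κ s = 1 := by
    intro N
    induction N with
    | zero =>
      intro P _ _ _ hcard
      have h1 : 0 < Nat.card P := Nat.card_pos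
      omega
    | succ N ih =>
      intro P _ _ hP hcard κ
      rcases subsingleton_or_nontrivial P with hsub | hnt
      · exact Subsingleton.elim _ _
      have hcen : Nontrivial (Subgroup.center P) := hP.center_nontrivial
      have hdvd : p ∣ Nat.card (Subgroup.center P) := by
        obtain ⟨c, he⟩ := (IsPGroup.iff_card (p := p)).mp (hP.to_subgroup (Subgroup.center P))
        rw [he]
        refine dvd_pow_self p ?_
        rintro rfl
        rw [pow_zero] at he
        have h1 : 1 < Nat.card (Subgroup.center P) := Finite.one_lt_card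
        omega
      obtain ⟨z', hz'⟩ := exists_prime_orderOf_dvd_card' p hdvd
      let z : P := z'.1
      have hz : orderOf z = p := by
        rw [← hz']
        exact Subgroup.orderOf_coe z'
      have hzc : ∀ (u : P), u ∈ Subgroup.zpowers z → ∀ v : P, v * u = u * v := by
        intro u hu v
        have h1 : Subgroup.zpowers z ≤ Subgroup.center P := by
          rw [Subgroup.zpowers_le]
          exact z'.2
        exact Subgroup.mem_center_iff.mp (h1 hu) v
      have hC : (Subgroup.zpowers z).Normal := by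
        constructor
        intro u hu v
        rw [hzc u hu v, mul_inv_cancel_right]
        exact hu
      have hexp : ∀ a ∈ Subgroup.zpowers z, a ^ p = 1 := by
        rintro _ ⟨i, rfl⟩
        show (z ^ i) ^ p = 1
        rw [← zpow_natCast, zpow_comm, zpow_natCast, ← hz, pow_orderOf_eq_one, one_zpow]
      have hcardQ : Nat.card (P ⧸ Subgroup.zpowers z) ≤ N := by
        have h1 := Subgroup.card_eq_card_quotient_mul_card_subgroup (Subgroup.zpowers z)
        rw [Nat.card_zpowers, hz] at h1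
        have h2 := hp.out.two_le
        have h3 : 0 < Nat.card (P ⧸ Subgroup.zpowers z) := Nat.card_pos
        have h4 : Nat.card (P ⧸ Subgroup.zpowers z) * 2 ≤
            Nat.card (P ⧸ Subgroup.zpowers z) * p := Nat.mul_le_mul_left _ h2
        omega
      have hκ0 : (QuotientGroup.mk' (Subgroup.zpowers z)).comp κ s = 1 :=
        ih (P ⧸ Subgroup.zpowers z) (hP.to_quotient _) hcardQ _
      obtain ⟨f, hf⟩ := exists_desc s ((QuotientGroup.mk' (Subgroup.zpowers z)).comp κ) hκ0
      obtain ⟨φ, hφ⟩ := hL P (Subgroup.zpowers z) hzc hexp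
        (f.comp (e.symm : S →* OR s))
      have hφκ : ∀ x, (φ (q x))⁻¹ * κ x ∈ Subgroup.zpowers z := by
        intro x
        rw [← QuotientGroup.eq, hφ]
        show f (e.symm (e (PresentedGroup.mk {s} x))) = QuotientGroup.mk (κ x)
        rw [MulEquiv.symm_apply_apply]
        exact DFunLike.congr_fun hf x
      let d : FreeGroup (Fin n) →* Subgroup.zpowers z := MonoidHom.mk'
        (fun x => ⟨(φ (q x))⁻¹ * κ x, hφκ x⟩) (by
        intro a b
        apply Subtype.ext
        show (φ (q (a * b)))⁻¹ * κ (a * b) = ((φ (q a))⁻¹ * κ a) * ((φ (q b))⁻¹ * κ b)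
        rw [map_mul, map_mul, map_mul, mul_inv_rev]
        have h1 := hzc _ (hφκ a) (φ (q b))⁻¹
        calc (φ (q b))⁻¹ * (φ (q a))⁻¹ * (κ a * κ b)
            = ((φ (q b))⁻¹ * ((φ (q a))⁻¹ * κ a)) * κ b := by simp only [mul_assoc]
          _ = (((φ (q a))⁻¹ * κ a) * (φ (q b))⁻¹) * κ b := by rw [h1]
          _ = _ := by simp only [mul_assoc])
      have hd : d s = 1 := hom_VT (fun a b => Subtype.ext (hzc b.1 b.2 a.1))
        (fun a => Subtype.ext (hexp a.1 a.2)) d hs
      have hd1 : (φ (q s))⁻¹ * κ s = 1 := congrArg Subtype.val hd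
      rw [hqs, map_one, inv_one, one_mul] at hd1
      exact hd1
  obtain ⟨P, _, _, κ, hP, hκ⟩ := resp_free p s hs1
  exact hκ (key (Nat.card P) P hP le_rfl κ)

/-- A closed subgroup of infinite index is not isomorphic to a one-relator group with a nontrivial
relator in `[F, F] F ^ p`. -/
theorem not_one_relator {k : ℕ} (hk : 2 ≤ k) (r : FreeGroup (Fin k)) (hr1 : r ≠ 1) (m : ℕ)
    (H : ∀ N : Subgroup (OR r), N.Normal → N.FiniteIndex → HasRel m N)
    (S : Subgroup (OR r)) (hS : IsProClosed S) (hinf : ¬ S.FiniteIndex)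
    (p : ℕ) [hp : Fact p.Prime] {n : ℕ} (s : FreeGroup (Fin n)) (hs1 : s ≠ 1)
    (hs : s ∈ VT p (⊤ : Subgroup (FreeGroup (Fin n)))) : IsEmpty (OR s ≃* S) :=
  not_OR_of_lift p (fun _ _ _ A _ h1 h2 φ₀ => central_lift hk r hr1 m H S hS hinf p A h1 h2 φ₀) s hs1 hs

end Pool.Agent.MelD
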