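import Pool.Agent.MelD.Int

/-!
# Membership in right ideals of `ℤ[L]`: from all primes to the integers

`mem_int`: if `a` is in the right ideal generated by the `E j` modulo every prime, then some positive
multiple of `a` is in it.  Same proof as step 1 of `int_unimod`: in `A = ℚ[L]/J` the class of `a` is
assumed to be not zero, `V₀` contains the classes of `1`, of `a`, ...; the vector `[1]` is scaled so
that one coordinate of `[a]` is one; reduce modulo a large prime:
`Ψ x = ∑ s, x s • T̄(s⁻¹) [1]‾` kills the `E j * y` and `Ψ a ≠ 0`.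

`int_aug`: if the `E j` have augmentation `0` and generate the augmentation ideal modulo every prime, then
they generate the augmentation ideal `I` of `ℤ[L]`: `n I ⊆ J` with `n` minimal; if `n = p n'`, then
`I ⊆ J + p I` (an element `x = j + p a` of `I` has `a ∈ I`), so `n' I ⊆ J`.
-/

open Finset Module

namespace Pool.Agent.MelD

namespace MemU

open IntU MulOpposite

section red

variable {l n : ℕ}

/-- reduction modulo a large prime, integral coordinates -/
theorem reduceI (ρ : FreeGroup (Fin l) →* Matrix (Fin n) (Fin n) ℚ) (u : Fin n → ℚ) :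
    ∃ (p : ℕ) (_ : Fact p.Prime) (ρ' : FreeGroup (Fin l) →* Matrix (Fin n) (Fin n) (ZMod p)) (u' : Fin n → ZMod p),
      ∀ (x : MonoidAlgebra ℤ (FreeGroup (Fin l))) (i : Fin n) (m : ℤ),
        Ps ℤ ρ u x i = (m : ℚ) → Ps ℤ ρ' u' x i = (m : ZMod p) := by
  classical
  set D : ℕ := (∏ i : Fin l, ∏ a : Fin n, ∏ b : Fin n, (ρ (FreeGroup.of i) a b).den) *
    ((∏ i : Fin l, ∏ a : Fin n, ∏ b : Fin n, (ρ (FreeGroup.of i)⁻¹ a b).den) * ∏ a : Fin n, (u a).den) with hD
  have hpos : ∀ q : ℚ, 0 < q.den := fun q => q.den_pos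
  have hD0 : 0 < D := by
    rw [hD]
    refine Nat.mul_pos (Finset.prod_pos fun i _ => Finset.prod_pos fun a _ => Finset.prod_pos fun b _ => hpos _)
      (Nat.mul_pos (Finset.prod_pos fun i _ => Finset.prod_pos fun a _ => Finset.prod_pos fun b _ => hpos _)
        (Finset.prod_pos fun a _ => hpos _))
  obtain ⟨p, hp, hpr⟩ := Nat.exists_infinite_primes (D + 1)
  have : Fact p.Prime := ⟨hpr⟩
  have hpD : ¬ p ∣ D := fun h => absurd (Nat.le_of_dvd hD0 h) (by omega)
  have hA : ∀ i a b, ¬ p ∣ (ρ (FreeGroup.of i) a b).den := fun i a b h => by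
    refine hpD (h.trans ?_)
    rw [hD]
    exact Dvd.dvd.mul_right ((Finset.dvd_prod_of_mem (fun b => (ρ (FreeGroup.of i) a b).den) (mem_univ b)).trans
      ((Finset.dvd_prod_of_mem (fun a => ∏ b, (ρ (FreeGroup.of i) a b).den) (mem_univ a)).trans
        (Finset.dvd_prod_of_mem (fun i => ∏ a, ∏ b, (ρ (FreeGroup.of i) a b).den) (mem_univ i)))) _
  have hB : ∀ i a b, ¬ p ∣ (ρ (FreeGroup.of i)⁻¹ a b).den := fun i a b h => by
    refine hpD (h.trans ?_)
    rw [hD]
    exact Dvd.dvd.mul_left (Dvd.dvd.mul_right ((Finset.dvd_prod_of_mem (fun b => (ρ (FreeGroup.of i)⁻¹ a b).den)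
      (mem_univ b)).trans ((Finset.dvd_prod_of_mem (fun a => ∏ b, (ρ (FreeGroup.of i)⁻¹ a b).den) (mem_univ a)).trans
        (Finset.dvd_prod_of_mem (fun i => ∏ a, ∏ b, (ρ (FreeGroup.of i)⁻¹ a b).den) (mem_univ i)))) _) _
  have hU : ∀ a, ¬ p ∣ (u a).den := fun a h => by
    refine hpD (h.trans ?_)
    rw [hD]
    exact Dvd.dvd.mul_left (Dvd.dvd.mul_left (Finset.dvd_prod_of_mem (fun a => (u a).den) (mem_univ a)) _) _
  let zq : (q : ℚ) → ¬ p ∣ q.den → ℤ_[p] := fun q h => ⟨(q : ℚ_[p]), Padic.norm_rat_le_one h⟩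
  let A : Fin l → Matrix (Fin n) (Fin n) ℤ_[p] := fun i a b => zq _ (hA i a b)
  let B : Fin l → Matrix (Fin n) (Fin n) ℤ_[p] := fun i a b => zq _ (hB i a b)
  let U : Fin n → ℤ_[p] := fun a => zq _ (hU a)
  let c : ℤ_[p] →+* ℚ_[p] := PadicInt.Coe.ringHom
  let q : ℚ →+* ℚ_[p] := Rat.castHom ℚ_[p]
  have hc : Function.Injective c := Subtype.val_injective
  have hcm : Function.Injective (fun M : Matrix (Fin n) (Fin n) ℤ_[p] => M.map c) := Matrix.map_injective hc
  have eA : ∀ i, (A i).map c = (ρ (FreeGroup.of i)).map q := fun i => rfl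
  have eB : ∀ i, (B i).map c = (ρ (FreeGroup.of i)⁻¹).map q := fun i => rfl
  have h1 : ∀ i, A i * B i = 1 := fun i => hcm (by
    show (A i * B i).map c = (1 : Matrix (Fin n) (Fin n) ℤ_[p]).map c
    rw [Matrix.map_mul, eA, eB, ← Matrix.map_mul, ← map_mul, mul_inv_cancel, map_one, Matrix.map_one _ (map_zero q)
      (map_one q), Matrix.map_one _ (map_zero c) (map_one c)])
  have h2 : ∀ i, B i * A i = 1 := fun i => hcm (by
    show (B i * A i).map c = (1 : Matrix (Fin n) (Fin n) ℤ_[p]).map c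
    rw [Matrix.map_mul, eA, eB, ← Matrix.map_mul, ← map_mul, inv_mul_cancel, map_one, Matrix.map_one _ (map_zero q)
      (map_one q), Matrix.map_one _ (map_zero c) (map_one c)])
  let r : FreeGroup (Fin l) →* Matrix (Fin n) (Fin n) ℤ_[p] :=
    (Units.coeHom _).comp (FreeGroup.lift fun i => ⟨A i, B i, h1 i, h2 i⟩)
  have hr : (c.mapMatrix (m := Fin n) : Matrix (Fin n) (Fin n) ℤ_[p] →* Matrix (Fin n) (Fin n) ℚ_[p]).comp r =
      (q.mapMatrix (m := Fin n) : Matrix (Fin n) (Fin n) ℚ →* Matrix (Fin n) (Fin n) ℚ_[p]).comp ρ := by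
    refine FreeGroup.ext_hom _ _ fun i => ?_
    show (((FreeGroup.lift fun i => (⟨A i, B i, h1 i, h2 i⟩ : (Matrix (Fin n) (Fin n) ℤ_[p])ˣ)) (FreeGroup.of i) :
      (Matrix (Fin n) (Fin n) ℤ_[p])ˣ) : Matrix (Fin n) (Fin n) ℤ_[p]).map c = (ρ (FreeGroup.of i)).map q
    rw [FreeGroup.lift_apply_of]
    exact eA i
  refine ⟨p, inferInstance, ((PadicInt.toZMod (p := p)).mapMatrix (m := Fin n) :
    Matrix (Fin n) (Fin n) ℤ_[p] →* Matrix (Fin n) (Fin n) (ZMod p)).comp r, fun a => PadicInt.toZMod (U a), ?_⟩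
  intro x i m hx
  have h3 := Ps_hom r U c x
  have h4 := Ps_hom ρ u q x
  rw [hr] at h3
  have h5 : (fun i => c (U i)) = fun i => q (u i) := rfl
  rw [h5, h4] at h3
  rw [Ps_hom]
  have h6 := congrFun h3 i
  simp only [hx] at h6
  have h7 : Ps ℤ r U x i = (m : ℤ_[p]) := hc (by
    rw [← h6, map_intCast, map_intCast])
  show PadicInt.toZMod (Ps ℤ r U x i) = (m : ZMod p)
  rw [h7, map_intCast]

end red

section rat

variable {l k : ℕ}

/-- an element outside a right ideal over the rationals is seen by a finite-dimensional representation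
which kills the ideal -/
theorem exists_matI (E : Fin k → MonoidAlgebra ℤ (FreeGroup (Fin l))) (a : MonoidAlgebra ℤ (FreeGroup (Fin l)))
    (h : MonoidAlgebra.mapRingHom (FreeGroup (Fin l)) (Int.castRingHom ℚ) a ∉
      RI (K := ℚ) fun j => MonoidAlgebra.mapRingHom (FreeGroup (Fin l)) (Int.castRingHom ℚ) (E j)) :
    ∃ (n : ℕ) (ρ : FreeGroup (Fin l) →* Matrix (Fin n) (Fin n) ℚ) (u : Fin n → ℚ) (a0 : Fin n),
      Ps ℤ ρ u a a0 = 1 ∧ ∀ j, Ps ℤ ρ u (E j) = 0 := by
  classical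
  set E' : Fin k → MonoidAlgebra ℚ (FreeGroup (Fin l)) :=
    fun j => MonoidAlgebra.mapRingHom (FreeGroup (Fin l)) (Int.castRingHom ℚ) (E j) with hE'
  set a' : MonoidAlgebra ℚ (FreeGroup (Fin l)) :=
    MonoidAlgebra.mapRingHom (FreeGroup (Fin l)) (Int.castRingHom ℚ) a with ha'
  set J := RI (K := ℚ) E' with hJ
  obtain ⟨V, T, e0, hV, h0, hT⟩ := exists_T J (RI_mul E')
    ((univ.biUnion fun j => (E' j).coeff.support) ∪ a'.coeff.support)
  -- the value at an element with support in the finite set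
  have hval : ∀ x : MonoidAlgebra ℚ (FreeGroup (Fin l)),
      x.coeff.support ⊆ (univ.biUnion fun j => (E' j).coeff.support) ∪ a'.coeff.support →
      ((x.coeff.sum (fun s c => c • T s⁻¹ e0) : V) : MonoidAlgebra ℚ (FreeGroup (Fin l)) ⧸ J) = J.mkQ x := by
    intro x hx
    unfold Finsupp.sum
    rw [Submodule.coe_sum]
    have h3 : ∀ s ∈ x.coeff.support, ((x.coeff s • T s⁻¹ e0 : V) :
        MonoidAlgebra ℚ (FreeGroup (Fin l)) ⧸ J) = J.mkQ (MonoidAlgebra.single s (x.coeff s)) := fun s hs => by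
      rw [Submodule.coe_smul, hT s (hx hs), ← map_smul]
      congr 1
      rw [MonoidAlgebra.smul_single, smul_eq_mul, mul_one]
    rw [Finset.sum_congr rfl h3, ← map_sum]
    have h4 : ∑ s ∈ x.coeff.support, MonoidAlgebra.single s (x.coeff s) = x :=
      MonoidAlgebra.sum_coeff_single x
    rw [h4]
  set w : V := a'.coeff.sum (fun s c => c • T s⁻¹ e0) with hw
  have hw0 : w ≠ 0 := fun h1 => h (by
    have h2 := hval a' Finset.subset_union_right
    rw [← hw, h1] at h2
    exact (Submodule.Quotient.mk_eq_zero J).1 h2.symm)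
  let b := Module.finBasis ℚ V
  have hb : b.repr w ≠ 0 := fun h1 => hw0 (b.repr.map_eq_zero_iff.1 h1)
  obtain ⟨a0, ha0⟩ : ∃ a0, b.repr w a0 ≠ 0 := by
    by_contra h1
    push Not at h1
    exact hb (Finsupp.ext h1)
  let ρ : FreeGroup (Fin l) →* Matrix (Fin (finrank ℚ V)) (Fin (finrank ℚ V)) ℚ :=
    ((LinearMap.toMatrixAlgEquiv b : (V →ₗ[ℚ] V) ≃ₐ[ℚ] _) : (V →ₗ[ℚ] V) →* _).comp
      (LinearEquiv.automorphismGroup.toLinearMapMonoidHom.comp T)
  have hρ : ∀ s x, Matrix.mulVec (ρ s) (b.repr x) = b.repr (T s x) := fun s x =>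
    LinearMap.toMatrix_mulVec_repr b b (T s : V →ₗ[ℚ] V) x
  have h5 : ∀ x : MonoidAlgebra ℤ (FreeGroup (Fin l)),
      Ps ℤ ρ ((b.repr w a0)⁻¹ • (b.repr e0 : Fin (finrank ℚ V) → ℚ)) x =
      (b.repr w a0)⁻¹ • (b.repr ((MonoidAlgebra.mapRingHom (FreeGroup (Fin l)) (Int.castRingHom ℚ) x).coeff.sum
        (fun s c => c • T s⁻¹ e0)) : Fin (finrank ℚ V) → ℚ) := by
    intro x
    rw [← Ps_map, Ps_eq]
    unfold Finsupp.sum
    rw [map_sum]
    funext i
    rw [Pi.smul_apply, Finset.sum_apply, Finsupp.finsetSum_apply, Finset.smul_sum]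
    refine Finset.sum_congr rfl fun s _ => ?_
    show ((MonoidAlgebra.mapRingHom (FreeGroup (Fin l)) (Int.castRingHom ℚ) x).coeff s •
        Matrix.mulVec (ρ s⁻¹) ((b.repr w a0)⁻¹ • (b.repr e0 : Fin (finrank ℚ V) → ℚ))) i =
      (b.repr w a0)⁻¹ • b.repr ((MonoidAlgebra.mapRingHom (FreeGroup (Fin l)) (Int.castRingHom ℚ) x).coeff s •
        T s⁻¹ e0) i
    rw [Matrix.mulVec_smul, hρ, map_smul]
    show (MonoidAlgebra.mapRingHom (FreeGroup (Fin l)) (Int.castRingHom ℚ) x).coeff s *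
        ((b.repr w a0)⁻¹ * b.repr (T s⁻¹ e0) i) =
      (b.repr w a0)⁻¹ * ((MonoidAlgebra.mapRingHom (FreeGroup (Fin l)) (Int.castRingHom ℚ) x).coeff s *
        b.repr (T s⁻¹ e0) i)
    ring
  refine ⟨finrank ℚ V, ρ, (b.repr w a0)⁻¹ • (b.repr e0 : Fin (finrank ℚ V) → ℚ), a0, ?_, fun j => ?_⟩
  · rw [h5]
    show (b.repr w a0)⁻¹ * b.repr w a0 = 1
    exact inv_mul_cancel₀ ha0
  · rw [h5]
    have h2 : (E' j).coeff.sum (fun s c => c • T s⁻¹ e0) = 0 := by
      apply Subtype.ext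
      rw [hval (E' j) (fun s hs => Finset.mem_union_left _ (Finset.mem_biUnion.2 ⟨j, mem_univ j, hs⟩))]
      show (Submodule.Quotient.mk (E' j) : MonoidAlgebra ℚ (FreeGroup (Fin l)) ⧸ J) = 0
      rw [Submodule.Quotient.mk_eq_zero]
      refine Submodule.subset_span ⟨j, 1, ?_⟩
      rw [mul_one]
    show (b.repr w a0)⁻¹ • (b.repr ((E' j).coeff.sum (fun s c => c • T s⁻¹ e0)) :
      Fin (finrank ℚ V) → ℚ) = 0
    rw [h2, map_zero]
    show (b.repr w a0)⁻¹ • (0 : Fin (finrank ℚ V) → ℚ) = 0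
    rw [smul_zero]

end rat

end MemU

theorem mem_int {l k : ℕ} (E : Fin k → MonoidAlgebra ℤ (FreeGroup (Fin l)))
    (a : MonoidAlgebra ℤ (FreeGroup (Fin l)))
    (h : ∀ (p : ℕ) (_ : Fact p.Prime), ∃ y : Fin k → MonoidAlgebra (ZMod p) (FreeGroup (Fin l)),
      ∑ j, MonoidAlgebra.mapRingHom (FreeGroup (Fin l)) (Int.castRingHom (ZMod p)) (E j) * y j =
        MonoidAlgebra.mapRingHom (FreeGroup (Fin l)) (Int.castRingHom (ZMod p)) a) :
    ∃ n : ℕ, 0 < n ∧ ∃ y : Fin k → MonoidAlgebra ℤ (FreeGroup (Fin l)),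
      ∑ j, E j * y j = (n : ℤ) • a := by
  by_cases h1 : MonoidAlgebra.mapRingHom (FreeGroup (Fin l)) (Int.castRingHom ℚ) a ∈
      RI (K := ℚ) fun j => MonoidAlgebra.mapRingHom (FreeGroup (Fin l)) (Int.castRingHom ℚ) (E j)
  · obtain ⟨D, hD, y, hy⟩ := IntU.clear2 E h1
    refine ⟨D, hD, y, ?_⟩
    have hinj : Function.Injective (MonoidAlgebra.map (M := FreeGroup (Fin l)) (Int.castRingHom ℚ : ℤ →+ ℚ)) :=
      MonoidAlgebra.map_injective _ (Int.castRingHom ℚ).injective_int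
    refine hinj ?_
    show MonoidAlgebra.mapRingHom (FreeGroup (Fin l)) (Int.castRingHom ℚ) _ =
      MonoidAlgebra.mapRingHom (FreeGroup (Fin l)) (Int.castRingHom ℚ) _
    rw [hy, map_zsmul, Nat.cast_smul_eq_nsmul ℚ, natCast_zsmul]
  · obtain ⟨n, ρ, u, a0, hu, hE⟩ := MemU.exists_matI E a h1
    obtain ⟨p, hp, ρ', u', hr⟩ := MemU.reduceI ρ u
    obtain ⟨y, hy⟩ := h p hp
    have hE' : ∀ j, IntU.Ps ℤ ρ' u' (E j) = 0 := fun j => funext fun i => by
      have h3 := hr (E j) i 0 (by rw [hE j, Int.cast_zero]; rfl)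
      rw [h3, Int.cast_zero]
      rfl
    have ha : IntU.Ps ℤ ρ' u' a = 0 := by
      rw [← IntU.Ps_map, ← hy, IntU.Ps_sum]
      refine Finset.sum_eq_zero fun j _ => IntU.Ps_mul ρ' u' _ _ ?_
      rw [IntU.Ps_map, hE' j]
    have h4 := hr a a0 1 (by rw [hu, Int.cast_one])
    rw [ha, Int.cast_one] at h4
    exact absurd h4.symm one_ne_zero

/-- The augmentation. -/
noncomputable def aug (l : ℕ) : MonoidAlgebra ℤ (FreeGroup (Fin l)) →ₐ[ℤ] ℤ :=
  MonoidAlgebra.lift ℤ ℤ (FreeGroup (Fin l)) 1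

namespace MemU

theorem aug_single (l : ℕ) (g : FreeGroup (Fin l)) (c : ℤ) : aug l (MonoidAlgebra.single g c) = c := by
  unfold aug
  rw [MonoidAlgebra.lift_single, MonoidHom.one_apply, smul_eq_mul, mul_one]

/-- the elements `g - 1` -/
theorem span_g {l : ℕ} (g : FreeGroup (Fin l)) : ∃ a : Fin l → MonoidAlgebra ℤ (FreeGroup (Fin l)),
    MonoidAlgebra.of ℤ (FreeGroup (Fin l)) g - 1 =
      ∑ i, (MonoidAlgebra.of ℤ (FreeGroup (Fin l)) (FreeGroup.of i) - 1) * a i := by
  classical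
  induction g using FreeGroup.induction_on with
  | C1 =>
    refine ⟨0, ?_⟩
    rw [map_one, sub_self]
    simp
  | of i =>
    refine ⟨fun j => if j = i then 1 else 0, ?_⟩
    rw [Finset.sum_eq_single i (fun j _ hj => by simp only [if_neg hj, mul_zero])
      (fun h => absurd (mem_univ i) h)]
    simp only [if_true, mul_one]
  | inv_of i _ =>
    refine ⟨fun j => if j = i then - MonoidAlgebra.of ℤ (FreeGroup (Fin l)) (FreeGroup.of i)⁻¹ else 0, ?_⟩
    rw [Finset.sum_eq_single i (fun j _ hj => by simp only [if_neg hj, mul_zero])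
      (fun h => absurd (mem_univ i) h)]
    simp only [if_true]
    rw [sub_mul, mul_neg, ← map_mul, mul_inv_cancel, map_one, one_mul]
    abel
  | mul g h hg hh =>
    obtain ⟨a, ha⟩ := hg
    obtain ⟨b, hb⟩ := hh
    refine ⟨fun i => a i * MonoidAlgebra.of ℤ (FreeGroup (Fin l)) h + b i, ?_⟩
    have h1 : ∑ i, (MonoidAlgebra.of ℤ (FreeGroup (Fin l)) (FreeGroup.of i) - 1) *
        (a i * MonoidAlgebra.of ℤ (FreeGroup (Fin l)) h + b i) =
        (∑ i, (MonoidAlgebra.of ℤ (FreeGroup (Fin l)) (FreeGroup.of i) - 1) * a i) *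
          MonoidAlgebra.of ℤ (FreeGroup (Fin l)) h +
        ∑ i, (MonoidAlgebra.of ℤ (FreeGroup (Fin l)) (FreeGroup.of i) - 1) * b i := by
      rw [Finset.sum_mul, ← Finset.sum_add_distrib]
      exact Finset.sum_congr rfl fun i _ => by rw [mul_add, mul_assoc]
    rw [h1, ← ha, ← hb, sub_mul, one_mul, map_mul]
    abel

/-- the augmentation ideal -/
theorem span_aug {l : ℕ} (x : MonoidAlgebra ℤ (FreeGroup (Fin l))) :
    ∃ a : Fin l → MonoidAlgebra ℤ (FreeGroup (Fin l)),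
      x - MonoidAlgebra.single 1 (aug l x) =
        ∑ i, (MonoidAlgebra.of ℤ (FreeGroup (Fin l)) (FreeGroup.of i) - 1) * a i := by
  classical
  induction x using MonoidAlgebra.induction_linear with
  | zero => exact ⟨0, by simp⟩
  | add x y hx hy =>
    obtain ⟨a, ha⟩ := hx
    obtain ⟨b, hb⟩ := hy
    refine ⟨fun i => a i + b i, ?_⟩
    have h1 : ∑ i, (MonoidAlgebra.of ℤ (FreeGroup (Fin l)) (FreeGroup.of i) - 1) * (a i + b i) =
        (∑ i, (MonoidAlgebra.of ℤ (FreeGroup (Fin l)) (FreeGroup.of i) - 1) * a i) +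
        ∑ i, (MonoidAlgebra.of ℤ (FreeGroup (Fin l)) (FreeGroup.of i) - 1) * b i := by
      rw [← Finset.sum_add_distrib]
      exact Finset.sum_congr rfl fun i _ => mul_add _ _ _
    rw [h1, ← ha, ← hb, map_add, MonoidAlgebra.single_add]
    abel
  | single g c =>
    obtain ⟨a, ha⟩ := span_g g
    refine ⟨fun i => c • a i, ?_⟩
    have h1 : ∑ i, (MonoidAlgebra.of ℤ (FreeGroup (Fin l)) (FreeGroup.of i) - 1) * (c • a i) =
        c • ∑ i, (MonoidAlgebra.of ℤ (FreeGroup (Fin l)) (FreeGroup.of i) - 1) * a i := by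
      rw [Finset.smul_sum]
      exact Finset.sum_congr rfl fun i _ => mul_smul_comm _ _ _
    rw [h1, ← ha, aug_single, smul_sub]
    congr 1
    · rw [MonoidAlgebra.of_apply, MonoidAlgebra.smul_single, smul_eq_mul, mul_one]
    · rw [MonoidAlgebra.one_def, MonoidAlgebra.smul_single, smul_eq_mul, mul_one]

/-- one prime less -/
theorem stepI {l k : ℕ} (E : Fin k → MonoidAlgebra ℤ (FreeGroup (Fin l)))
    (hE : ∀ j, aug l (E j) = 0)
    (h : ∀ (p : ℕ) (_ : Fact p.Prime) (i : Fin l),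
      ∃ y : Fin k → MonoidAlgebra (ZMod p) (FreeGroup (Fin l)),
      ∑ j, MonoidAlgebra.mapRingHom (FreeGroup (Fin l)) (Int.castRingHom (ZMod p)) (E j) * y j =
        MonoidAlgebra.of (ZMod p) (FreeGroup (Fin l)) (FreeGroup.of i) - 1) :
    ∀ n : ℕ, 0 < n → (∀ i, ∃ y : Fin k → MonoidAlgebra ℤ (FreeGroup (Fin l)),
        ∑ j, E j * y j = (n : ℤ) • (MonoidAlgebra.of ℤ (FreeGroup (Fin l)) (FreeGroup.of i) - 1)) →
      ∀ i, ∃ y : Fin k → MonoidAlgebra ℤ (FreeGroup (Fin l)),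
        ∑ j, E j * y j = MonoidAlgebra.of ℤ (FreeGroup (Fin l)) (FreeGroup.of i) - 1 := by
  intro n
  induction n using Nat.strong_induction_on with
  | _ n ih =>
    intro hn hy i
    rcases Nat.lt_or_ge 1 n with h1 | h1
    · obtain ⟨p, hp, n', hn'⟩ := Nat.exists_prime_and_dvd (show n ≠ 1 by omega)
      have hn0 : 0 < n' := by
        rcases Nat.eq_zero_or_pos n' with h3 | h3
        · rw [h3, mul_zero] at hn'
          omega
        · exact h3
      have hlt : n' < n := by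
        rw [hn']
        have := hp.two_le
        nlinarith
      refine ih n' hlt hn0 (fun i => ?_) i
      obtain ⟨z, hz⟩ := h p ⟨hp⟩ i
      have hsur : Function.Surjective (MonoidAlgebra.map (M := FreeGroup (Fin l))
          (Int.castRingHom (ZMod p) : ℤ →+ ZMod p)) :=
        MonoidAlgebra.map_surjective _ (ZMod.ringHom_surjective (Int.castRingHom (ZMod p)))
      choose z' hz' using fun j => hsur (z j)
      set X : MonoidAlgebra ℤ (FreeGroup (Fin l)) :=
        MonoidAlgebra.of ℤ (FreeGroup (Fin l)) (FreeGroup.of i) - 1 with hX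
      have hXp : MonoidAlgebra.mapRingHom (FreeGroup (Fin l)) (Int.castRingHom (ZMod p)) X =
          MonoidAlgebra.of (ZMod p) (FreeGroup (Fin l)) (FreeGroup.of i) - 1 := by
        rw [hX, map_sub, map_one]
        congr 1
        rw [MonoidAlgebra.of_apply, MonoidAlgebra.of_apply, MonoidAlgebra.mapRingHom_single, map_one]
      have h2 : MonoidAlgebra.mapRingHom (FreeGroup (Fin l)) (Int.castRingHom (ZMod p))
          (X - ∑ j, E j * z' j) = 0 := by
        rw [map_sub, hXp, map_sum, ← hz, sub_eq_zero]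
        refine Finset.sum_congr rfl fun j _ => ?_
        rw [map_mul]
        congr 1
        exact (hz' j).symm
      obtain ⟨c, hc⟩ : ∃ c : MonoidAlgebra ℤ (FreeGroup (Fin l)), X - ∑ j, E j * z' j = (p : ℤ) • c := by
        refine ⟨.ofCoeff ((X - ∑ j, E j * z' j).coeff.mapRange (fun a => a / (p : ℤ)) (Int.zero_ediv _)), ?_⟩
        refine MonoidAlgebra.ext (Finsupp.ext fun m => ?_)
        have h4 : ((p : ℤ)) ∣ (X - ∑ j, E j * z' j).coeff m := by
          rw [← ZMod.intCast_zmod_eq_zero_iff_dvd]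
          have h5 := congrArg (fun x : MonoidAlgebra (ZMod p) (FreeGroup (Fin l)) => x.coeff m) h2
          simp only [MonoidAlgebra.coeff_mapRingHom] at h5
          exact h5
        show _ = (p : ℤ) • ((X - ∑ j, E j * z' j).coeff m / (p : ℤ))
        rw [smul_eq_mul, Int.mul_ediv_cancel' h4]
      -- the augmentation of c
      have hc0 : aug l c = 0 := by
        have h5 := congrArg (aug l) hc
        rw [map_sub, map_zsmul, map_sum, Finset.sum_eq_zero (fun j _ => by rw [map_mul, hE j, zero_mul]), sub_zero,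
          hX, map_sub, map_one, MonoidAlgebra.of_apply, aug_single, sub_self, smul_eq_mul] at h5
        rcases mul_eq_zero.1 h5.symm with h6 | h6
        · exact absurd h6 (by exact_mod_cast hp.ne_zero)
        · exact h6
      obtain ⟨d, hd⟩ := span_aug c
      rw [hc0, MonoidAlgebra.single_zero, sub_zero] at hd
      choose y hy' using hy
      refine ⟨fun j => (n' : ℤ) • z' j + ∑ i', y i' j * d i', ?_⟩
      have h3 : ∑ j, E j * ((n' : ℤ) • z' j + ∑ i', y i' j * d i') =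
          (n' : ℤ) • (∑ j, E j * z' j) + ∑ i', (∑ j, E j * y i' j) * d i' := by
        rw [Finset.smul_sum]
        have h4 : ∑ i', (∑ j, E j * y i' j) * d i' = ∑ j, ∑ i', E j * (y i' j * d i') := by
          rw [Finset.sum_comm]
          refine Finset.sum_congr rfl fun i' _ => ?_
          rw [Finset.sum_mul]
          exact Finset.sum_congr rfl fun j _ => mul_assoc _ _ _
        rw [h4, ← Finset.sum_add_distrib]
        refine Finset.sum_congr rfl fun j _ => ?_
        rw [mul_add, mul_smul_comm, Finset.mul_sum]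
      have h5 : ∑ i', (∑ j, E j * y i' j) * d i' = (n : ℤ) • c := by
        rw [hd, Finset.smul_sum]
        exact Finset.sum_congr rfl fun i' _ => by rw [hy' i', smul_mul_assoc]
      rw [h3, h5, hn', Nat.cast_mul, mul_comm (p : ℤ), mul_smul, ← hc, ← smul_add, add_sub_cancel]
    · have : n = 1 := by omega
      obtain ⟨y, hy'⟩ := hy i
      rw [this, Nat.cast_one, one_smul] at hy'
      exact ⟨y, hy'⟩

end MemU

theorem int_aug {l k : ℕ} (E : Fin k → MonoidAlgebra ℤ (FreeGroup (Fin l)))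
    (hE : ∀ j, aug l (E j) = 0)
    (h : ∀ (p : ℕ) (_ : Fact p.Prime) (i : Fin l),
      ∃ y : Fin k → MonoidAlgebra (ZMod p) (FreeGroup (Fin l)),
      ∑ j, MonoidAlgebra.mapRingHom (FreeGroup (Fin l)) (Int.castRingHom (ZMod p)) (E j) * y j =
        MonoidAlgebra.of (ZMod p) (FreeGroup (Fin l)) (FreeGroup.of i) - 1) (i : Fin l) :
    ∃ y : Fin k → MonoidAlgebra ℤ (FreeGroup (Fin l)),
      ∑ j, E j * y j = MonoidAlgebra.of ℤ (FreeGroup (Fin l)) (FreeGroup.of i) - 1 := by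
  classical
  have h1 : ∀ i : Fin l, ∃ n : ℕ, 0 < n ∧ ∃ y : Fin k → MonoidAlgebra ℤ (FreeGroup (Fin l)),
      ∑ j, E j * y j = (n : ℤ) • (MonoidAlgebra.of ℤ (FreeGroup (Fin l)) (FreeGroup.of i) - 1) := by
    intro i
    refine mem_int E _ fun p hp => ?_
    obtain ⟨y, hy⟩ := h p hp i
    refine ⟨y, ?_⟩
    rw [hy, map_sub, map_one]
    congr 1
    rw [MonoidAlgebra.of_apply, MonoidAlgebra.of_apply, MonoidAlgebra.mapRingHom_single, map_one]
  choose n hn y hy using h1
  refine MemU.stepI E hE h (∏ i, n i) (Finset.prod_pos fun i _ => hn i) (fun i => ?_) i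
  obtain ⟨m, hm⟩ : n i ∣ ∏ i, n i := Finset.dvd_prod_of_mem n (mem_univ i)
  refine ⟨fun j => (m : ℤ) • y i j, ?_⟩
  have h2 : ∑ j, E j * ((m : ℤ) • y i j) = (m : ℤ) • ∑ j, E j * y i j := by
    rw [Finset.smul_sum]
    exact Finset.sum_congr rfl fun j _ => mul_smul_comm _ _ _
  rw [h2, hy i, smul_smul, hm, Nat.cast_mul, mul_comm]

end Pool.Agent.MelD
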