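import Pool.Agent.MelD.Def

/-!
# The abelianization of the kernel of the projection `F (x_1..x_l, y_1..y_q) → F (x_1..x_l)`

`N` = normal closure of the `y_j` (the last `q` generators) = kernel of `killQ`.  `D j n` = image in
`ℤ[L]` of `∂n/∂y_j`.  On `N` the `D j` are homomorphisms, `D j (g y_i g⁻¹) = φ(g)` if `i = j` and `0`
otherwise.  Compare `Cor2.lean` (`nab`, the case `q = 1`).
-/

open Finset

namespace Pool.Agent.MelD

/-- The homomorphism killing the last `q` generators. -/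
def killQ (l q : ℕ) : FreeGroup (Fin (l + q)) →* FreeGroup (Fin l) :=
  FreeGroup.lift (Fin.addCases FreeGroup.of (fun _ => 1))

/-- The normal closure of the last `q` generators. -/
def NQ (l q : ℕ) : Subgroup (FreeGroup (Fin (l + q))) :=
  Subgroup.normalClosure (Set.range (fun j : Fin q => FreeGroup.of (Fin.natAdd l j)))

/-- The image in `ℤ[L]` of the derivative with respect to the `j`-th of the last `q` generators. -/
noncomputable def DQ (l q : ℕ) (j : Fin q) (n : FreeGroup (Fin (l + q))) :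
    MonoidAlgebra ℤ (FreeGroup (Fin l)) :=
  fox ((MonoidAlgebra.of ℤ (FreeGroup (Fin l))).comp (killQ l q)) (Fin.natAdd l j) n

private noncomputable abbrev fq (l q : ℕ) :
    FreeGroup (Fin (l + q)) →* MonoidAlgebra ℤ (FreeGroup (Fin l)) :=
  (MonoidAlgebra.of ℤ (FreeGroup (Fin l))).comp (killQ l q)

private def secQ (l q : ℕ) : FreeGroup (Fin l) →* FreeGroup (Fin (l + q)) :=
  FreeGroup.lift (fun i => FreeGroup.of (Fin.castAdd q i))

private theorem killQ_castAdd (l q : ℕ) (i : Fin l) :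
    killQ l q (FreeGroup.of (Fin.castAdd q i)) = FreeGroup.of i := by
  unfold killQ
  rw [FreeGroup.lift_apply_of, Fin.addCases_left]

private theorem killQ_natAdd (l q : ℕ) (j : Fin q) :
    killQ l q (FreeGroup.of (Fin.natAdd l j)) = 1 := by
  unfold killQ
  rw [FreeGroup.lift_apply_of, Fin.addCases_right]

instance NQ_normal (l q : ℕ) : (NQ l q).Normal := Subgroup.normalClosure_normal

theorem y_mem_NQ (l q : ℕ) (j : Fin q) : FreeGroup.of (Fin.natAdd l j) ∈ NQ l q :=
  Subgroup.subset_normalClosure ⟨j, rfl⟩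

private theorem sec_killQ (l q : ℕ) :
    ((QuotientGroup.mk' (NQ l q)).comp (secQ l q)).comp (killQ l q) =
      QuotientGroup.mk' (NQ l q) := by
  ext i
  refine Fin.addCases (fun i => ?_) (fun j => ?_) i
  · simp only [MonoidHom.comp_apply, killQ_castAdd, secQ, FreeGroup.lift_apply_of]
  · simp only [MonoidHom.comp_apply, killQ_natAdd, map_one]
    symm
    exact (QuotientGroup.eq_one_iff _).mpr (y_mem_NQ l q j)

private theorem sec_killQ_mem (l q : ℕ) (g : FreeGroup (Fin (l + q))) :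
    g * (secQ l q (killQ l q g))⁻¹ ∈ NQ l q := by
  have h := DFunLike.congr_fun (sec_killQ l q) g
  simp only [MonoidHom.comp_apply] at h
  rw [← QuotientGroup.eq_one_iff]
  show QuotientGroup.mk' (NQ l q) (g * (secQ l q (killQ l q g))⁻¹) = 1
  rw [map_mul, map_inv, h, mul_inv_cancel]

theorem killQ_secQ {l q : ℕ} (u : FreeGroup (Fin l)) : killQ l q (secQ l q u) = u := by
  have h : (killQ l q).comp (secQ l q) = MonoidHom.id _ := by
    ext i
    simp only [MonoidHom.comp_apply, secQ, FreeGroup.lift_apply_of, killQ_castAdd,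
      MonoidHom.id_apply]
  exact DFunLike.congr_fun h u

theorem killQ_NQ {l q : ℕ} (n : FreeGroup (Fin (l + q))) : n ∈ NQ l q ↔ killQ l q n = 1 := by
  constructor
  · intro hn
    have h1 : NQ l q ≤ (killQ l q).ker :=
      Subgroup.normalClosure_le_normal (by
        rintro x ⟨j, rfl⟩
        exact killQ_natAdd l q j)
    exact h1 hn
  · intro hn
    have h := sec_killQ_mem l q n
    rw [hn, map_one, inv_one, mul_one] at h
    exact h

private theorem fq_one {l q : ℕ} {n : FreeGroup (Fin (l + q))} (hn : n ∈ NQ l q) :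
    fq l q n = 1 := by
  show MonoidAlgebra.of ℤ _ (killQ l q n) = 1
  rw [(killQ_NQ n).mp hn, map_one]

theorem DQ_mul {l q : ℕ} (j : Fin q) (a b : FreeGroup (Fin (l + q))) (ha : a ∈ NQ l q) :
    DQ l q j (a * b) = DQ l q j a + DQ l q j b := by
  show fox (fq l q) _ (a * b) = fox (fq l q) _ a + fox (fq l q) _ b
  rw [fox_mul, fq_one ha, one_mul]

theorem DQ_one {l q : ℕ} (j : Fin q) : DQ l q j 1 = 0 := coc_one _ _

theorem DQ_inv {l q : ℕ} (j : Fin q) (a : FreeGroup (Fin (l + q))) (ha : a ∈ NQ l q) :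
    DQ l q j a⁻¹ = - DQ l q j a := by
  have h := DQ_mul j a a⁻¹ ha
  rw [mul_inv_cancel, DQ_one] at h
  exact eq_neg_of_add_eq_zero_right h.symm

theorem DQ_conj {l q : ℕ} (j : Fin q) (g n : FreeGroup (Fin (l + q))) (hn : n ∈ NQ l q) :
    DQ l q j (g * n * g⁻¹) =
      MonoidAlgebra.of ℤ (FreeGroup (Fin l)) (killQ l q g) * DQ l q j n := by
  show fox (fq l q) _ (g * n * g⁻¹) = fq l q g * fox (fq l q) _ n
  have hinv : fox (fq l q) (Fin.natAdd l j) g⁻¹ =
      - (fq l q g⁻¹ * fox (fq l q) (Fin.natAdd l j) g) := by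
    unfold fox
    rw [coc_inv, smul_eq_mul]
  rw [fox_mul, fox_mul, hinv, map_mul, fq_one hn, mul_one, mul_neg, ← mul_assoc, ← map_mul,
    mul_inv_cancel, map_one, one_mul]
  abel

theorem DQ_y {l q : ℕ} (i j : Fin q) :
    DQ l q j (FreeGroup.of (Fin.natAdd l i)) = if i = j then 1 else 0 := by
  show fox (fq l q) _ _ = _
  rw [fox_of]
  by_cases h : i = j
  · rw [if_pos h, if_pos (by rw [h])]
  · rw [if_neg h, if_neg (fun h' => h (Fin.natAdd_injective q l h'))]

/-- The class of `g y_j g⁻¹`. -/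
private noncomputable def clQ (l q : ℕ) (j : Fin q) (g : FreeGroup (Fin (l + q))) :
    Additive (Abelianization (NQ l q)) :=
  Additive.ofMul (Abelianization.of ⟨g * FreeGroup.of (Fin.natAdd l j) * g⁻¹,
    (NQ_normal l q).conj_mem _ (y_mem_NQ l q j) g⟩)

private theorem clQ_mul (l q : ℕ) (j : Fin q) (n g : FreeGroup (Fin (l + q))) (hn : n ∈ NQ l q) :
    clQ l q j (n * g) = clQ l q j g := by
  unfold clQ
  congr 1
  have h : (⟨n * g * FreeGroup.of (Fin.natAdd l j) * (n * g)⁻¹,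
      (NQ_normal l q).conj_mem _ (y_mem_NQ l q j) (n * g)⟩ : NQ l q) =
      ⟨n, hn⟩ * ⟨g * FreeGroup.of (Fin.natAdd l j) * g⁻¹,
        (NQ_normal l q).conj_mem _ (y_mem_NQ l q j) g⟩ * (⟨n, hn⟩ : NQ l q)⁻¹ := by
    apply Subtype.ext
    simp only [Subgroup.coe_mul, Subgroup.coe_inv]
    group
  rw [h, map_mul, map_mul, map_inv, mul_comm (Abelianization.of _), mul_assoc, mul_inv_cancel,
    mul_one]

private theorem clQ_eq (l q : ℕ) (j : Fin q) (g : FreeGroup (Fin (l + q))) :
    clQ l q j (secQ l q (killQ l q g)) = clQ l q j g := by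
  have h := clQ_mul l q j (g * (secQ l q (killQ l q g))⁻¹) (secQ l q (killQ l q g))
    (sec_killQ_mem l q g)
  rw [inv_mul_cancel_right] at h
  exact h.symm

private noncomputable def thetaQ (l q : ℕ) (j : Fin q) :
    MonoidAlgebra ℤ (FreeGroup (Fin l)) →+ Additive (Abelianization (NQ l q)) :=
  (Finsupp.liftAddHom fun u =>
    (smulAddHom ℤ (Additive (Abelianization (NQ l q)))).flip (clQ l q j (secQ l q u))).comp
    MonoidAlgebra.coeffAddEquiv.toAddMonoidHom

private theorem thetaQ_single (l q : ℕ) (j : Fin q) (u : FreeGroup (Fin l)) (ε : ℤ) :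
    thetaQ l q j (MonoidAlgebra.single u ε) = ε • clQ l q j (secQ l q u) := by
  show Finsupp.liftAddHom (fun u =>
    (smulAddHom ℤ (Additive (Abelianization (NQ l q)))).flip (clQ l q j (secQ l q u)))
      (Finsupp.single u ε) = _
  rw [Finsupp.liftAddHom_apply_single]
  rfl

private theorem mainQ (l q : ℕ) (n : FreeGroup (Fin (l + q))) (hn : n ∈ NQ l q) :
    (Additive.ofMul (Abelianization.of (⟨n, hn⟩ : NQ l q)) :
      Additive (Abelianization (NQ l q))) = ∑ j, thetaQ l q j (DQ l q j n) := by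
  refine Subgroup.closure_induction (p := fun n hn =>
    (Additive.ofMul (Abelianization.of (⟨n, hn⟩ : NQ l q)) :
      Additive (Abelianization (NQ l q))) = ∑ j, thetaQ l q j (DQ l q j n)) ?_ ?_ ?_ ?_ hn
  · intro x hx
    obtain ⟨a, ⟨i, hi⟩, hc⟩ := Group.mem_conjugatesOfSet_iff.mp hx
    obtain ⟨g, rfl⟩ := isConj_iff.mp hc
    simp only at hi
    subst hi
    rw [sum_eq_single i]
    · rw [DQ_conj i g _ (y_mem_NQ l q i), DQ_y, if_pos rfl, mul_one, MonoidAlgebra.of_apply,
        thetaQ_single, one_smul, clQ_eq]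
      rfl
    · intro j _ hj
      rw [DQ_conj j g _ (y_mem_NQ l q i), DQ_y, if_neg (Ne.symm hj), mul_zero, map_zero]
    · intro h; exact absurd (mem_univ i) h
  · have h2 : (⟨1, Subgroup.one_mem _⟩ : NQ l q) = 1 := rfl
    rw [h2, map_one]
    simp only [DQ_one, map_zero, sum_const_zero]
    rfl
  · intro x y hx hy h1 h2
    have h3 : (⟨x * y, Subgroup.mul_mem _ hx hy⟩ : NQ l q) = ⟨x, hx⟩ * ⟨y, hy⟩ := rfl
    have h4 : ∀ j, DQ l q j (x * y) = DQ l q j x + DQ l q j y := fun j => DQ_mul j x y hx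
    simp only [h4, map_add, sum_add_distrib]
    rw [← h1, ← h2]
    rfl
  · intro x hx h1
    have h4 : ∀ j, DQ l q j x⁻¹ = - DQ l q j x := fun j => DQ_inv j x hx
    simp only [h4, map_neg, sum_neg_distrib]
    rw [← h1]
    rfl

/-- The `DQ` determine elements of `N` modulo `[N, N]`. -/
theorem DQ_inj {l q : ℕ} (n n' : FreeGroup (Fin (l + q))) (hn : n ∈ NQ l q) (hn' : n' ∈ NQ l q)
    (h : ∀ j, DQ l q j n = DQ l q j n') : n * n'⁻¹ ∈ ⁅NQ l q, NQ l q⁆ := by
  have h1 := mainQ l q n hn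
  have h1' := mainQ l q n' hn'
  have h0 : ∑ j, thetaQ l q j (DQ l q j n) = ∑ j, thetaQ l q j (DQ l q j n') :=
    sum_congr rfl fun j _ => by rw [h j]
  rw [h0, ← h1'] at h1
  have h2 := Additive.ofMul.injective h1
  have h3 : Abelianization.of ((⟨n, hn⟩ : NQ l q) * (⟨n', hn'⟩ : NQ l q)⁻¹) = 1 := by
    rw [map_mul, map_inv, h2, mul_inv_cancel]
  have h4 : (⟨n, hn⟩ : NQ l q) * (⟨n', hn'⟩ : NQ l q)⁻¹ ∈ _root_.commutator (NQ l q) := by
    rw [← Abelianization.ker_of]
    exact h3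
  rw [← Subgroup.map_subtype_commutator]
  exact ⟨_, h4, rfl⟩

/-- Left multiples of the classes of elements of a normal subgroup. -/
theorem exists_comb {l q : ℕ} (W : Subgroup (FreeGroup (Fin (l + q)))) (hWn : W.Normal)
    (hW : W ≤ NQ l q) {ι : Type*} [Fintype ι] (w : ι → FreeGroup (Fin (l + q)))
    (hw : ∀ i, w i ∈ W) (b : ι → MonoidAlgebra ℤ (FreeGroup (Fin l))) :
    ∃ v ∈ W, ∀ j, DQ l q j v = ∑ t, b t * DQ l q j (w t) := by
  let S : AddSubgroup (Fin q → MonoidAlgebra ℤ (FreeGroup (Fin l))) :=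
    { carrier := {a | ∃ v ∈ W, ∀ j, DQ l q j v = a j}
      add_mem' := by
        rintro a a' ⟨v, hv, h⟩ ⟨v', hv', h'⟩
        exact ⟨v * v', W.mul_mem hv hv', fun j => by rw [DQ_mul j v v' (hW hv), h, h']; rfl⟩
      zero_mem' := ⟨1, W.one_mem, fun j => DQ_one j⟩
      neg_mem' := by
        rintro a ⟨v, hv, h⟩
        exact ⟨v⁻¹, W.inv_mem hv, fun j => by rw [DQ_inv j v (hW hv), h]; rfl⟩ }
  have hS : ∀ a, a ∈ S ↔ ∃ v ∈ W, ∀ j, DQ l q j v = a j := fun a => Iff.rfl
  have h1 : ∀ (x : MonoidAlgebra ℤ (FreeGroup (Fin l))) (v : FreeGroup (Fin (l + q))), v ∈ W →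
      (fun j => x * DQ l q j v) ∈ S := by
    intro x v hv
    induction x using MonoidAlgebra.induction_on with
    | of g =>
      refine (hS _).mpr ⟨secQ l q g * v * (secQ l q g)⁻¹, hWn.conj_mem _ hv _, fun j => ?_⟩
      rw [DQ_conj j _ _ (hW hv), killQ_secQ]
    | add a b ha hb =>
      have := S.add_mem ha hb
      convert this using 1
      funext j
      exact add_mul _ _ _
    | smul c a ha =>
      have := S.zsmul_mem ha c
      convert this using 1
      funext j
      exact smul_mul_assoc _ _ _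
  have h2 : (∑ t, fun j => b t * DQ l q j (w t)) ∈ S :=
    S.sum_mem fun t _ => h1 (b t) (w t) (hw t)
  obtain ⟨v, hv, h⟩ := (hS _).mp h2
  refine ⟨v, hv, fun j => ?_⟩
  rw [h j, Finset.sum_apply]

theorem DQ_surj {l q : ℕ} (a : Fin q → MonoidAlgebra ℤ (FreeGroup (Fin l))) :
    ∃ n ∈ NQ l q, ∀ j, DQ l q j n = a j := by
  obtain ⟨v, hv, h⟩ := exists_comb (NQ l q) (NQ_normal l q) le_rfl
    (fun j : Fin q => FreeGroup.of (Fin.natAdd l j)) (y_mem_NQ l q) a
  refine ⟨v, hv, fun j => ?_⟩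
  rw [h j, sum_eq_single j]
  · rw [DQ_y, if_pos rfl, mul_one]
  · intro i _ hi
    rw [DQ_y, if_neg hi, mul_zero]
  · intro h; exact absurd (mem_univ j) h

/-- Elements `w i` of `N` whose classes generate `ℤ[L] ^ q` generate `N` modulo `[N, N]` as a normal
subgroup. -/
theorem NQ_gen {l q : ℕ} {ι : Type} [Fintype ι] (w : ι → FreeGroup (Fin (l + q)))
    (hw : ∀ i, w i ∈ NQ l q) (b : Fin q → ι → MonoidAlgebra ℤ (FreeGroup (Fin l)))
    (h : ∀ i j, ∑ t, b i t * DQ l q j (w t) = if i = j then 1 else 0) :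
    NQ l q = Subgroup.normalClosure (Set.range w) ⊔ ⁅NQ l q, NQ l q⁆ := by
  have hWle : Subgroup.normalClosure (Set.range w) ≤ NQ l q :=
    Subgroup.normalClosure_le_normal (by
      rintro x ⟨i, rfl⟩
      exact hw i)
  apply le_antisymm
  · have hn : (Subgroup.normalClosure (Set.range w) ⊔ ⁅NQ l q, NQ l q⁆).Normal :=
      inferInstance
    refine Subgroup.normalClosure_le_normal ?_
    rintro x ⟨i, rfl⟩
    obtain ⟨v, hv, hv'⟩ := exists_comb (Subgroup.normalClosure (Set.range w))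
      Subgroup.normalClosure_normal hWle w (fun t => Subgroup.subset_normalClosure ⟨t, rfl⟩) (b i)
    have h1 : FreeGroup.of (Fin.natAdd l i) * v⁻¹ ∈ ⁅NQ l q, NQ l q⁆ := by
      refine DQ_inj _ _ (y_mem_NQ l q i) (hWle hv) fun j => ?_
      rw [hv' j, h i j, DQ_y]
    have h2 : FreeGroup.of (Fin.natAdd l i) =
        (FreeGroup.of (Fin.natAdd l i) * v⁻¹) * v := by group
    show FreeGroup.of (Fin.natAdd l i) ∈ _
    rw [h2]
    exact Subgroup.mul_mem _ (le_sup_right (a := Subgroup.normalClosure (Set.range w)) h1)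
      (le_sup_left (b := ⁅NQ l q, NQ l q⁆) hv)
  · exact sup_le hWle (Subgroup.commutator_le_left _ _)

end Pool.Agent.MelD
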