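import Pool.Agent.MelD.CorkRI

/-!
# Corank zero lifts along kernels that are `p`-groups

`θ : Q → Q'` onto, kernel `P` a `p`-group, `K` finite of characteristic `p`.  If `ev` is onto for the
functions on `Q'`, then it is onto for the functions on `Q`.

Proof: otherwise the space of the linear forms `lam` on `Q → K` that vanish on the range of `ev` is not
`0`; it is stable under the left translations by `P`, so (`P` a `p`-group, characteristic `p`, finite space)
it contains a nonzero `P`-invariant form `lam`, which factors as `lam' ∘ θ_*`, `θ_* f q' = ∑_{θ q = q'} f q`.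
`θ_*` is equivariant and onto, so `lam'` vanishes on the range of `ev` for `Q'`, so `lam' = 0`.
-/

open Finset Module

namespace Pool.Agent.MelD

section naka

variable {K : Type} [Field K] {k : ℕ} {Q Q' : Type} [Group Q] [Fintype Q] [Group Q'] [Fintype Q']

/-- left translation -/
private def ltr (K : Type) [Field K] (x : Q) : (Q → K) →ₗ[K] (Q → K) where
  toFun f q := f (x * q)
  map_add' _ _ := rfl
  map_smul' _ _ := rfl

private theorem ltr_ev (r : FreeGroup (Fin k)) (π : FreeGroup (Fin k) →* Q) (x : Q) (v : Fin k → Q → K) :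
    ltr K x (ev (ind π (1 : FreeGroup (Fin k) →* Module.End K K)) r v) =
      ev (ind π (1 : FreeGroup (Fin k) →* Module.End K K)) r (fun j => ltr K x (v j)) := by
  rw [ev_apply, ev_apply]
  refine map_coc _ _ (ltr K x) (fun g => ?_) v r
  intro f
  funext q
  show f (x * q * π g) = f (x * (q * π g))
  rw [mul_assoc]

/-- the annihilator of the range -/
private def ann (r : FreeGroup (Fin k)) (π : FreeGroup (Fin k) →* Q) : Submodule K ((Q → K) →ₗ[K] K) where
  carrier := {l | ∀ v, l (ev (ind π (1 : FreeGroup (Fin k) →* Module.End K K)) r v) = 0}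
  add_mem' := by
    intro a b ha hb v
    rw [LinearMap.add_apply, ha v, hb v, add_zero]
  zero_mem' := fun v => rfl
  smul_mem' := by
    intro c a ha v
    rw [LinearMap.smul_apply, ha v, smul_zero]

@[reducible] private def actN (r : FreeGroup (Fin k)) (π : FreeGroup (Fin k) →* Q) (P : Subgroup Q) :
    MulAction P (ann (K := K) r π) where
  smul g l := ⟨l.1.comp (ltr K (g : Q)), fun v => by
    rw [LinearMap.comp_apply, ltr_ev]
    exact l.2 _⟩
  one_smul l := by
    apply Subtype.ext
    apply LinearMap.ext
    intro f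
    show l.1 (fun q => f ((1 : Q) * q)) = l.1 f
    simp only [one_mul]
  mul_smul g h l := by
    apply Subtype.ext
    apply LinearMap.ext
    intro f
    show l.1 (fun q => f ((g * h : Q) * q)) = l.1 (fun q => f ((g : Q) * ((h : Q) * q)))
    simp only [mul_assoc]

open Classical in
/-- push forward -/
private noncomputable def psh (K : Type) [Field K] (θ : Q →* Q') : (Q → K) →ₗ[K] (Q' → K) where
  toFun f q' := ∑ q, if θ q = q' then f q else 0
  map_add' a b := by
    funext q'
    simp only [Pi.add_apply]
    rw [← sum_add_distrib]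
    refine sum_congr rfl fun q _ => ?_
    split_ifs <;> simp
  map_smul' c a := by
    funext q'
    simp only [Pi.smul_apply, RingHom.id_apply, smul_eq_mul]
    rw [mul_sum]
    refine sum_congr rfl fun q _ => ?_
    split_ifs <;> simp

private theorem psh_ev (r : FreeGroup (Fin k)) (π : FreeGroup (Fin k) →* Q) (θ : Q →* Q') (v : Fin k → Q → K) :
    psh K θ (ev (ind π (1 : FreeGroup (Fin k) →* Module.End K K)) r v) =
      ev (ind (θ.comp π) (1 : FreeGroup (Fin k) →* Module.End K K)) r (fun j => psh K θ (v j)) := by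
  classical
  rw [ev_apply, ev_apply]
  refine map_coc _ _ (psh K θ) (fun g => ?_) v r
  intro f
  funext q'
  show (∑ q, if θ q = q' then f (q * π g) else 0) = ∑ q, if θ q = q' * θ (π g) then f q else 0
  rw [← Equiv.sum_comp (Equiv.mulRight (π g)) (fun q => if θ q = q' * θ (π g) then f q else 0)]
  refine sum_congr rfl fun q _ => ?_
  show _ = if θ (q * π g) = q' * θ (π g) then f (q * π g) else 0
  rw [map_mul, mul_left_inj]

private theorem psh_surj (θ : Q →* Q') (hθ : Function.Surjective θ) : Function.Surjective (psh K θ) := by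
  classical
  intro f'
  choose s hs using hθ
  refine ⟨fun q => if q = s (θ q) then f' (θ q) else 0, ?_⟩
  funext q'
  show (∑ q, if θ q = q' then (if q = s (θ q) then f' (θ q) else 0) else 0) = f' q'
  rw [sum_eq_single (s q')]
  · rw [if_pos (hs q'), hs q', if_pos rfl]
  · intro q _ hq
    split_ifs with h1 h2
    · rw [h1] at h2
      exact absurd h2 hq
    · rfl
    · rfl
  · intro h
    exact absurd (mem_univ _) h

end naka

theorem cork_zero {K : Type} [Field K] [Finite K] {p : ℕ} [Fact p.Prime] [CharP K p] {k : ℕ}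
    (r : FreeGroup (Fin k)) {Q Q' : Type} [Group Q] [Fintype Q] [Group Q'] [Fintype Q']
    (π : FreeGroup (Fin k) →* Q) (θ : Q →* Q') (hθs : Function.Surjective θ)
    (hθ : IsPGroup p θ.ker) (h0 : cork K r (θ.comp π) = 0) : cork K r π = 0 := by
  classical
  -- the range for `Q'` is everything
  have hr' : LinearMap.range (ev (ind (θ.comp π) (1 : FreeGroup (Fin k) →* Module.End K K)) r) = ⊤ := by
    refine Submodule.eq_top_of_finrank_eq ?_
    have h1 := rank_add_cork K r (θ.comp π)
    rw [h0, add_zero] at h1
    rw [h1, Module.finrank_fintype_fun_eq_card]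
  by_contra hne
  have hr : LinearMap.range (ev (ind π (1 : FreeGroup (Fin k) →* Module.End K K)) r) ≠ ⊤ := by
    intro h
    have h1 := rank_add_cork K r π
    rw [h, finrank_top, Module.finrank_fintype_fun_eq_card] at h1
    omega
  -- the annihilator is not zero
  obtain ⟨l, hl0, hl⟩ := Submodule.exists_le_ker_of_lt_top _ (lt_top_iff_ne_top.2 hr)
  let a : ann (K := K) r π := ⟨l, fun v => hl ⟨v, rfl⟩⟩
  have ha : a ≠ 0 := fun h => hl0 (congrArg Subtype.val h)
  letI : MulAction θ.ker (ann (K := K) r π) := actN r π θ.ker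
  have hfin : Finite ((Q → K) →ₗ[K] K) := by
    have : Finite ((Q → K) → K) := inferInstance
    exact Finite.of_injective (fun (f : (Q → K) →ₗ[K] K) => (f : (Q → K) → K)) DFunLike.coe_injective
  have hfin2 : Finite (ann (K := K) r π) := inferInstance
  have hdvd : p ∣ Nat.card (ann (K := K) r π) := by
    have h1 : addOrderOf a = p := by
      refine addOrderOf_eq_prime ?_ ha
      rw [← Nat.cast_smul_eq_nsmul K, CharP.cast_eq_zero, zero_smul]
    rw [← h1]
    exact addOrderOf_dvd_natCard a
  have hfix : (0 : ann (K := K) r π) ∈ MulAction.fixedPoints θ.ker (ann (K := K) r π) := by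
    intro g
    apply Subtype.ext
    apply LinearMap.ext
    intro f
    rfl
  obtain ⟨b, hb, hb0⟩ := hθ.exists_fixed_point_of_prime_dvd_card_of_fixed_point (ann (K := K) r π) hdvd hfix
  -- values at the points depend on the image only
  have hval : ∀ q1 q2 : Q, θ q1 = θ q2 → b.1 (Pi.single q1 1) = b.1 (Pi.single q2 1) := by
    intro q1 q2 h
    have hg : q2 * q1⁻¹ ∈ θ.ker := by
      rw [MonoidHom.mem_ker, map_mul, map_inv, h, mul_inv_cancel]
    have h1 := congrArg (fun x : ann (K := K) r π => x.1 (Pi.single q2 1)) (hb ⟨q2 * q1⁻¹, hg⟩)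
    have h2 : b.1 (fun q => (Pi.single q2 1 : Q → K) (q2 * q1⁻¹ * q)) = b.1 (Pi.single q2 1) := h1
    rw [← h2]
    congr 1
    funext q
    by_cases hq : q = q1
    · rw [hq, Pi.single_eq_same, inv_mul_cancel_right, Pi.single_eq_same]
    · rw [Pi.single_eq_of_ne hq, Pi.single_eq_of_ne]
      intro h3
      apply hq
      have h4 : q2 * q1⁻¹ * q = q2 * 1 := by rw [h3, mul_one]
      rw [mul_assoc, mul_right_inj] at h4
      exact (inv_mul_eq_one.1 h4).symm
  have hexp : ∀ f : Q → K, b.1 f = ∑ q, f q * b.1 (Pi.single q 1) := by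
    intro f
    conv_lhs => rw [← Finset.univ_sum_single f, map_sum]
    refine sum_congr rfl fun q _ => ?_
    have : (Pi.single q (f q) : Q → K) = f q • Pi.single q 1 := by
      rw [← Pi.single_smul, smul_eq_mul, mul_one]
    rw [this, map_smul, smul_eq_mul]
  choose s hs using hθs
  have hps : ∀ f : Q → K, b.1 f = ∑ q', psh K θ f q' * b.1 (Pi.single (s q') 1) := by
    intro f
    rw [hexp]
    show _ = ∑ q', (∑ q, if θ q = q' then f q else 0) * b.1 (Pi.single (s q') 1)
    simp only [sum_mul]
    rw [sum_comm]
    refine sum_congr rfl fun q _ => ?_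
    rw [sum_eq_single (θ q)]
    · rw [if_pos rfl, hval q (s (θ q)) (hs (θ q)).symm]
    · intro q' _ hq'
      rw [if_neg (Ne.symm hq'), zero_mul]
    · intro h
      exact absurd (mem_univ _) h
  apply hb0
  apply Subtype.ext
  apply LinearMap.ext
  intro f
  show (0 : K) = b.1 f
  -- `psh f` is in the range for `Q'`
  have h1 : psh K θ f ∈ LinearMap.range (ev (ind (θ.comp π) (1 : FreeGroup (Fin k) →* Module.End K K)) r) := by
    rw [hr']
    trivial
  obtain ⟨v', hv'⟩ := h1
  choose v hv using fun j => psh_surj (K := K) θ (fun q' => ⟨s q', hs q'⟩) (v' j)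
  have h2 : psh K θ (ev (ind π (1 : FreeGroup (Fin k) →* Module.End K K)) r v) = psh K θ f := by
    rw [psh_ev, ← hv']
    congr 1
    funext j
    exact hv j
  have h3 := b.2 v
  rw [hps, h2, ← hps] at h3
  exact h3.symm

end Pool.Agent.MelD
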