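import Pool.Agent.MelD.Uniq

/-!
# Rationality of the dual character

Proof.  Let `D` be the `ℚ`-subalgebra of `Ω` generated by the values of `χ` (finitely generated: values at
the generators and their inverses).  A maximal ideal `M` of `D`: `E = D / M` is finite over `ℚ` (Zariski's
lemma), so there is a ring homomorphism `E → Q̄ = AlgebraicClosure ℚ`, and the composite `χ' : F → Q̄` is dual.  For
every automorphism `σ` of `Q̄` over `ℚ` the character `σ ∘ χ'` is dual, so equal to `χ'` by `dual_unique`; so the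
values of `χ'` are fixed by the Galois group, hence rational.
-/

open Finset Module

namespace Pool.Agent.MelD

open Pool.Agent.MelG (HasRel)

theorem exists_closure (k : Type) [Field k] [CharZero k] :
    ∃ (K : Type) (_ : Field K) (_ : Algebra k K), IsAlgClosed K ∧ IsGalois k K :=
  ⟨AlgebraicClosure k, inferInstance, inferInstance, inferInstance, inferInstance⟩

/-- Zariski's lemma: a finitely generated algebra over the rationals has an algebraic point. -/
theorem exists_hom_closed (D : Type) [CommRing D] [Nontrivial D] [Algebra ℚ D] [Algebra.FiniteType ℚ D]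
    (K : Type) [Field K] [Algebra ℚ K] [IsAlgClosed K] : Nonempty (D →ₐ[ℚ] K) := by
  obtain ⟨M, hM⟩ := Ideal.exists_maximal D
  have htf : ∀ (V : Type) [AddCommGroup V] [Module ℚ V], Module.IsTorsionFree ℚ V := fun V _ _ => inferInstance
  have key : ∀ (E : Type) [CommRing E] [Algebra ℚ E] (_ : Algebra.FiniteType ℚ E) (_ : IsField E),
      Nonempty (E →ₐ[ℚ] K) := by
    intro E _ _ hft hE
    let _ : Field E := hE.toField
    have hfin : Module.Finite ℚ E := finite_of_finite_type_of_isJacobsonRing ℚ E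
    have halg : Algebra.IsAlgebraic ℚ E := Algebra.IsAlgebraic.of_finite ℚ E
    have htE : Module.IsTorsionFree ℚ E := htf E
    exact ⟨IsAlgClosed.lift⟩
  have hft2 : Algebra.FiniteType ℚ (D ⧸ M) :=
    Algebra.FiniteType.of_surjective (Ideal.Quotient.mkₐ ℚ M) (Ideal.Quotient.mkₐ_surjective ℚ M)
  obtain ⟨f⟩ := key (D ⧸ M) hft2 ((Ideal.Quotient.maximal_ideal_iff_isField_quotient M).1 hM)
  exact ⟨f.comp (Ideal.Quotient.mkₐ ℚ M)⟩

theorem exists_rat {k : ℕ} (hk : 2 ≤ k) (r : FreeGroup (Fin k)) (hr1 : r ≠ 1) (m : ℕ)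
    (H : ∀ N : Subgroup (OR r), N.Normal → N.FiniteIndex → HasRel m N) {Ω : Type} [Field Ω] [CharZero Ω]
    (χ : FreeGroup (Fin k) →* Ω) (h : Dual r χ) : ∃ χ₀ : FreeGroup (Fin k) →* ℚ, Dual r χ₀ := by
  classical
  -- the algebra generated by the values
  obtain ⟨S, hS⟩ : ∃ S : Finset Ω, S = (univ.image fun j => χ (FreeGroup.of j)) ∪
      (univ.image fun j => χ (FreeGroup.of j)⁻¹) := ⟨_, rfl⟩
  obtain ⟨D, hD⟩ : ∃ D : Subalgebra ℚ Ω, D = Algebra.adjoin ℚ (S : Set Ω) := ⟨_, rfl⟩
  have hSD : ∀ x ∈ S, x ∈ D := fun x hx => by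
    rw [hD]
    exact Algebra.subset_adjoin (Finset.mem_coe.2 hx)
  have hft : Algebra.FiniteType ℚ D := by
    rw [hD]
    exact (Subalgebra.fg_iff_finiteType _).1 (Subalgebra.fg_adjoin_finset S)
  have m1 : ∀ g, χ g ∈ D := by
    refine char_mem χ D (fun j => hSD _ ?_) (fun j => hSD _ ?_)
    · rw [hS]
      exact mem_union_left _ (mem_image_of_mem _ (mem_univ j))
    · rw [hS]
      exact mem_union_right _ (mem_image_of_mem (fun j => χ (FreeGroup.of j)⁻¹) (mem_univ j))
  obtain ⟨c1, e1⟩ := exists_restrict χ D m1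
  have d1 := h.restrict D e1
  obtain ⟨K, _, _, hK, hgal⟩ := exists_closure ℚ
  obtain ⟨f⟩ := exists_hom_closed D K
  let c2 : FreeGroup (Fin k) →* K := ((f : D →+* K) : D →* K).comp c1
  have d2 : Dual r c2 := d1.map (f : D →+* K)
  -- Galois invariance
  have hinv : ∀ (σ : Gal(K/ℚ)) (g : FreeGroup (Fin k)), σ (c2 g) = c2 g := by
    intro σ g
    have h3 := dual_unique hk r hr1 m H _ c2 (d2.map ((σ : K →ₐ[ℚ] K) : K →+* K)) d2
    exact congrArg (fun ψ : FreeGroup (Fin k) →* K => ψ g) h3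
  have hrat : ∀ g, ∃ c : ℚ, algebraMap ℚ K c = c2 g := by
    intro g
    exact (InfiniteGalois.mem_range_algebraMap_iff_fixed (c2 g)).2 fun σ => hinv σ g
  choose c hc using hrat
  have hinj : Function.Injective (algebraMap ℚ K) := (algebraMap ℚ K).injective
  let χ₀ : FreeGroup (Fin k) →* ℚ :=
    { toFun := c
      map_one' := hinj (by rw [hc, map_one, map_one])
      map_mul' := fun x y => hinj (by rw [hc, map_mul, map_mul, hc, hc]) }
  refine ⟨χ₀, Dual.of_map (algebraMap ℚ K) hinj ?_⟩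
  have h5 : ((algebraMap ℚ K : ℚ →+* K) : ℚ →* K).comp χ₀ = c2 := MonoidHom.ext hc
  rw [h5]
  exact d2

end Pool.Agent.MelD
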