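import Pool.Agent.MelD.UniqZ
import Pool.Agent.MelD.Hens
import Pool.Agent.MelD.Ratl

/-!
# The rational character modulo prime powers

`χ₀ : F → ℚ` a dual character of `r`.  For a prime power `p ^ j`, `j ≥ 1`, and a finite quotient `Q` there is a dual
character `Q → ℤ / p ^ j` if and only if `p` divides no denominator of `χ₀` and `χ₀ = 1` modulo `p ^ j` on
the kernel.
-/

open Finset Module

namespace Pool.Agent.MelD

open Pool.Agent.MelG (HasRel)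

section padic

variable {p : ℕ} [hp : Fact p.Prime]

/-- A rational number that is a `p`-adic integer has a denominator prime to `p`. -/
theorem den_of_padic {x : ℚ} {u : ℤ_[p]} (h : (u : ℚ_[p]) = (x : ℚ_[p])) : ¬ p ∣ x.den := by
  intro hd
  have h1 : u * (x.den : ℤ_[p]) = (x.num : ℤ_[p]) := by
    apply Subtype.val_injective
    show ((u * (x.den : ℤ_[p]) : ℤ_[p]) : ℚ_[p]) = ((x.num : ℤ_[p]) : ℚ_[p])
    rw [PadicInt.coe_mul, h, PadicInt.coe_natCast, PadicInt.coe_intCast]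
    have h2 : x * x.den = x.num := Rat.mul_den_eq_num x
    exact_mod_cast congrArg (fun y : ℚ => (y : ℚ_[p])) h2
  have h2 := congrArg PadicInt.toZMod h1
  rw [map_mul, map_natCast, map_intCast, (ZMod.natCast_eq_zero_iff _ _).2 hd, mul_zero] at h2
  have h3 : (p : ℤ) ∣ x.num := (ZMod.intCast_zmod_eq_zero_iff_dvd _ _).1 h2.symm
  have h4 : p ∣ x.num.natAbs := Int.natCast_dvd.1 h3
  have h5 : p ∣ Nat.gcd x.num.natAbs x.den := Nat.dvd_gcd h4 hd
  rw [x.reduced] at h5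
  exact hp.out.one_lt.ne' (Nat.dvd_one.1 h5)

/-- Congruence to one modulo `p ^ j`. -/
theorem toZModPow_eq_one_iff {x : ℚ} {u : ℤ_[p]} (h : (u : ℚ_[p]) = (x : ℚ_[p])) (j : ℕ) :
    PadicInt.toZModPow j u = 1 ↔ ((p ^ j : ℕ) : ℤ) ∣ x.num - x.den := by
  have h1 : u * (x.den : ℤ_[p]) = (x.num : ℤ_[p]) := by
    apply Subtype.val_injective
    show ((u * (x.den : ℤ_[p]) : ℤ_[p]) : ℚ_[p]) = ((x.num : ℤ_[p]) : ℚ_[p])
    rw [PadicInt.coe_mul, h, PadicInt.coe_natCast, PadicInt.coe_intCast]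
    have h2 : x * x.den = x.num := Rat.mul_den_eq_num x
    exact_mod_cast congrArg (fun y : ℚ => (y : ℚ_[p])) h2
  have h2 := congrArg (PadicInt.toZModPow j) h1
  rw [map_mul, map_natCast, map_intCast] at h2
  rw [← ZMod.intCast_zmod_eq_zero_iff_dvd, Int.cast_sub, Int.cast_natCast, ← h2]
  have hc : IsUnit ((x.den : ℕ) : ZMod (p ^ j)) := by
    rw [ZMod.isUnit_iff_coprime]
    exact Nat.Coprime.pow_right j ((Nat.Prime.coprime_iff_not_dvd hp.out).2 (den_of_padic h)).symm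
  constructor
  · intro h3
    rw [h3, one_mul, sub_self]
  · intro h3
    have h4 : (PadicInt.toZModPow j u - 1) * (x.den : ZMod (p ^ j)) = 0 := by
      rw [sub_mul, one_mul, h3]
    exact sub_eq_zero.1 ((IsUnit.mul_left_eq_zero hc).1 h4)

/-- A rational dual character that is `p`-integral gives a `p`-adic one. -/
theorem rat_padic {k : ℕ} {r : FreeGroup (Fin k)} (χ₀ : FreeGroup (Fin k) →* ℚ) (h : Dual r χ₀)
    (hd : ∀ g, ¬ p ∣ (χ₀ g).den) :
    ∃ χ : FreeGroup (Fin k) →* ℤ_[p], Dual r χ ∧ ∀ g, ((χ g : ℤ_[p]) : ℚ_[p]) = (χ₀ g : ℚ_[p]) := by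
  let χ : FreeGroup (Fin k) →* ℤ_[p] :=
    { toFun := fun g => ⟨(χ₀ g : ℚ_[p]), Padic.norm_rat_le_one (hd g)⟩
      map_one' := Subtype.ext (by
        show ((χ₀ 1 : ℚ) : ℚ_[p]) = _
        rw [map_one, Rat.cast_one]
        rfl)
      map_mul' := fun g g' => Subtype.ext (by
        show ((χ₀ (g * g') : ℚ) : ℚ_[p]) = _
        rw [map_mul, Rat.cast_mul]
        rfl) }
  refine ⟨χ, ?_, fun g => rfl⟩
  refine Dual.of_map PadicInt.Coe.ringHom Subtype.val_injective ?_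
  exact h.map (Rat.castHom ℚ_[p])

end padic

variable {k : ℕ} (hk : 2 ≤ k) (r : FreeGroup (Fin k)) (hr1 : r ≠ 1) (m : ℕ)
    (H : ∀ N : Subgroup (OR r), N.Normal → N.FiniteIndex → HasRel m N) (χ₀ : FreeGroup (Fin k) →* ℚ)
    (h₀ : Dual r χ₀)

include hk hr1 H h₀

/-- From characters modulo `p ^ j` to the rational character. -/
theorem good_of_dual (p j : ℕ) [hp : Fact p.Prime] (hj : 1 ≤ j) (χ : FreeGroup (Fin k) →* ZMod (p ^ j))
    (h : Dual r χ) : (∀ g, ¬ p ∣ (χ₀ g).den) ∧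
      ∀ g, χ g = 1 → ((p ^ j : ℕ) : ℤ) ∣ (χ₀ g).num - (χ₀ g).den := by
  obtain ⟨χp, hχp, -⟩ := padic_dual hk r hr1 m H p
    (((ZMod.castHom (dvd_pow_self p (Nat.one_le_iff_ne_zero.1 hj)) (ZMod p) :
      ZMod (p ^ j) →+* ZMod p) : ZMod (p ^ j) →* ZMod p).comp χ) (h.map _)
  have h1 : ((PadicInt.Coe.ringHom : ℤ_[p] →+* ℚ_[p]) : ℤ_[p] →* ℚ_[p]).comp χp =
      ((Rat.castHom ℚ_[p] : ℚ →+* ℚ_[p]) : ℚ →* ℚ_[p]).comp χ₀ :=
    dual_unique hk r hr1 m H _ _ (hχp.map _) (h₀.map _)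
  have h2 : ∀ g, ((χp g : ℤ_[p]) : ℚ_[p]) = ((χ₀ g : ℚ) : ℚ_[p]) := fun g => DFunLike.congr_fun h1 g
  refine ⟨fun g => den_of_padic (h2 g), fun g hg => ?_⟩
  have h3 : ((PadicInt.toZModPow j : ℤ_[p] →+* ZMod (p ^ j)) : ℤ_[p] →* ZMod (p ^ j)).comp χp = χ :=
    dual_unique_pow hk r hr1 m H p j _ _ (hχp.map _) h
  rw [← toZModPow_eq_one_iff (h2 g) j, ← hg, ← h3]
  rfl

omit hk hr1 H in
/-- From the rational character to characters modulo `p ^ j`. -/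
theorem dual_of_good (p j : ℕ) [hp : Fact p.Prime] (hd : ∀ g, ¬ p ∣ (χ₀ g).den) {Q : Type} [Group Q]
    (π : FreeGroup (Fin k) →* Q) (hs : Function.Surjective π)
    (h1 : ∀ g, π g = 1 → ((p ^ j : ℕ) : ℤ) ∣ (χ₀ g).num - (χ₀ g).den) :
    ∃ ψ : Q →* ZMod (p ^ j), Dual r (ψ.comp π) := by
  obtain ⟨χ, hχ, h2⟩ := rat_padic (p := p) χ₀ h₀ hd
  let χj : FreeGroup (Fin k) →* (ZMod (p ^ j)) :=
    ((PadicInt.toZModPow j : ℤ_[p] →+* ZMod (p ^ j)) : ℤ_[p] →* ZMod (p ^ j)).comp χ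
  have h3 : π.ker ≤ (MonoidHom.toHomUnits χj).ker := by
    intro g hg
    rw [MonoidHom.mem_ker]
    apply Units.ext
    exact (toZModPow_eq_one_iff (h2 g) j).2 (h1 g hg)
  let ψ : Q →* (ZMod (p ^ j))ˣ := MonoidHom.liftOfSurjective π hs ⟨MonoidHom.toHomUnits χj, h3⟩
  refine ⟨(Units.coeHom _).comp ψ, ?_⟩
  have h4 : ((Units.coeHom (ZMod (p ^ j))).comp ψ).comp π = χj := by
    refine MonoidHom.ext fun g => ?_
    have h5 : ψ (π g) = MonoidHom.toHomUnits χj g :=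
      MonoidHom.liftOfRightInverse_comp_apply π _ (Function.rightInverse_surjInv hs)
        ⟨MonoidHom.toHomUnits χj, h3⟩ g
    show ((ψ (π g) : (ZMod (p ^ j))ˣ) : ZMod (p ^ j)) = χj g
    rw [h5]
    rfl
  rw [h4]
  exact hχ.map _

end Pool.Agent.MelD
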