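import Pool.Agent.MelD.AbLift

/-!
# Finite embedding problems

`S ≤ G_r` of infinite index, all finite index subgroups of `S` closed in `G_r`: every homomorphism
`S → P / N`, `P` finite, lifts to `P` (the profinite completion of `S` is projective).
Induction on the order of `P`: if a Sylow subgroup of `N` is not normal in `P`, then the argument of
Frattini gives a smaller `P`; if it is normal, then it contains a normal subgroup `A` of `P`, abelian
of exponent `p`, and one lifts first to `P / A`, then to `P` by `abelian_lift`.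
-/

namespace Pool.Agent.MelD

open Pool.Agent.MelG (HasRel)

/-- Change of the group in an embedding problem. -/
theorem lift_change {S P' B : Type} [Group S] [Group P'] [Group B] (f : P' →* B)
    (hf : Function.Surjective f) (φ₀ : S →* B)
    (h : ∀ ψ : S →* P' ⧸ f.ker, ∃ φ : S →* P', ∀ s, (QuotientGroup.mk (φ s) : P' ⧸ f.ker) = ψ s) :
    ∃ φ : S →* P', ∀ s, f (φ s) = φ₀ s := by
  let e := QuotientGroup.quotientKerEquivOfSurjective f hf
  obtain ⟨φ, hφ⟩ := h ((e.symm : B →* P' ⧸ f.ker).comp φ₀)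
  refine ⟨φ, fun s => ?_⟩
  have h1 := hφ s
  have h2 : e (QuotientGroup.mk (φ s)) = φ₀ s := by
    rw [h1]
    exact e.apply_symm_apply _
  exact h2

/-- A normal Sylow subgroup contains a normal subgroup of exponent `p`. -/
theorem exists_elementary {P : Type} [Group P] [Finite P] (p : ℕ) [hp : Fact p.Prime]
    (Q : Subgroup P) (hQ : Q.Normal) (hQp : IsPGroup p Q) (hQ1 : Q ≠ ⊥) :
    ∃ A : Subgroup P, A.Normal ∧ A ≤ Q ∧ A ≠ ⊥ ∧ (∀ a ∈ A, ∀ b ∈ A, a * b = b * a) ∧
      ∀ a ∈ A, a ^ p = 1 := by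
  let A : Subgroup P :=
    { carrier := {a | a ∈ Q ∧ (∀ b ∈ Q, a * b = b * a) ∧ a ^ p = 1}
      one_mem' := ⟨Q.one_mem, fun b _ => by rw [one_mul, mul_one], one_pow p⟩
      mul_mem' := by
        rintro a b ⟨ha1, ha2, ha3⟩ ⟨hb1, hb2, hb3⟩
        refine ⟨Q.mul_mem ha1 hb1, fun c hc => ?_, ?_⟩
        · rw [mul_assoc, hb2 c hc, ← mul_assoc, ha2 c hc, mul_assoc]
        · rw [(show Commute a b from ha2 b hb1).mul_pow, ha3, hb3, one_mul]
      inv_mem' := by
        rintro a ⟨ha1, ha2, ha3⟩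
        refine ⟨Q.inv_mem ha1, fun c hc => ?_, ?_⟩
        · exact ((show Commute a c from ha2 c hc).inv_left).eq
        · rw [inv_pow, ha3, inv_one] }
  have hA : ∀ a, a ∈ A ↔ a ∈ Q ∧ (∀ b ∈ Q, a * b = b * a) ∧ a ^ p = 1 := fun a => Iff.rfl
  refine ⟨A, ⟨?_⟩, fun a ha => ha.1, ?_, fun a ha b hb => ha.2.1 b hb.1, fun a ha => ha.2.2⟩
  · rintro a ⟨ha1, ha2, ha3⟩ x
    refine ⟨hQ.conj_mem a ha1 x, fun b hb => ?_, ?_⟩
    · have h1 := ha2 (x⁻¹ * b * x) (by
        have := hQ.conj_mem b hb x⁻¹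
        rwa [inv_inv] at this)
      calc x * a * x⁻¹ * b = x * (a * (x⁻¹ * b * x)) * x⁻¹ := by group
        _ = x * ((x⁻¹ * b * x) * a) * x⁻¹ := by rw [h1]
        _ = b * (x * a * x⁻¹) := by group
    · rw [conj_pow, ha3, mul_one, mul_inv_cancel]
  · have hnt : Nontrivial Q := (Subgroup.nontrivial_iff_ne_bot Q).mpr hQ1
    have hcen : Nontrivial (Subgroup.center Q) := hQp.center_nontrivial
    have hdvd : p ∣ Nat.card (Subgroup.center Q) := by
      obtain ⟨c, he⟩ := (IsPGroup.iff_card (p := p)).mp (hQp.to_subgroup (Subgroup.center Q))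
      rw [he]
      refine dvd_pow_self p ?_
      rintro rfl
      rw [pow_zero] at he
      have h1 : 1 < Nat.card (Subgroup.center Q) := Finite.one_lt_card
      omega
    obtain ⟨z, hz⟩ := exists_prime_orderOf_dvd_card' p hdvd
    intro hbot
    have h1 : (z.1.1 : P) ∈ A := by
      refine ⟨z.1.2, fun b hb => ?_, ?_⟩
      · have h2 := Subgroup.mem_center_iff.mp z.2 ⟨b, hb⟩
        exact (congrArg Subtype.val h2).symm
      · have h2 : z ^ p = 1 := by
          rw [← hz]
          exact pow_orderOf_eq_one z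
        have h3 := congrArg Subtype.val h2
        exact congrArg Subtype.val h3
    rw [hbot, Subgroup.mem_bot] at h1
    have h2 : z = 1 := Subtype.ext (Subtype.ext h1)
    rw [h2, orderOf_one] at hz
    exact hp.out.one_lt.ne hz

/-- **Finite embedding problems are solvable.** -/
theorem projective {k : ℕ} (hk : 2 ≤ k) (r : FreeGroup (Fin k)) (hr1 : r ≠ 1) (m : ℕ)
    (H : ∀ N : Subgroup (OR r), N.Normal → N.FiniteIndex → HasRel m N)
    (S : Subgroup (OR r)) (hinf : ¬ S.FiniteIndex)
    (hS : ∀ V : Subgroup S, V.FiniteIndex → IsProClosed (V.map S.subtype)) (n : ℕ) :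
    ∀ (P : Type) [Group P] [Finite P], Nat.card P ≤ n → ∀ (N : Subgroup P) [N.Normal]
      (φ₀ : S →* P ⧸ N), ∃ φ : S →* P, ∀ s, (QuotientGroup.mk (φ s) : P ⧸ N) = φ₀ s := by
  classical
  induction n with
  | zero =>
    intro P _ _ hcard
    have h1 : 0 < Nat.card P := Nat.card_pos
    omega
  | succ n ih =>
    intro P _ _ hcard N _ φ₀
    by_cases hN : N = ⊥
    · subst hN
      refine ⟨(QuotientGroup.quotientBot : P ⧸ (⊥ : Subgroup P) ≃* P).toMonoidHom.comp φ₀,
        fun s => ?_⟩
      exact (QuotientGroup.quotientBot : P ⧸ (⊥ : Subgroup P) ≃* P).symm_apply_apply _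
    have hN1 : Nat.card N ≠ 1 := fun h => hN (Subgroup.card_eq_one.mp h)
    obtain ⟨p, hp, hpN⟩ := Nat.exists_prime_and_dvd hN1
    have : Fact p.Prime := ⟨hp⟩
    obtain ⟨Q⟩ : Nonempty (Sylow p N) := inferInstance
    have hQ1 : (Q : Subgroup N) ≠ ⊥ := Q.ne_bot_of_dvd_card hpN
    have hfr := Sylow.normalizer_sup_eq_top Q
    set Q' : Subgroup P := (Q : Subgroup N).map N.subtype with hQ'
    set M := Subgroup.normalizer (Q' : Set P) with hM
    by_cases hMtop : M = ⊤
    · -- the Sylow subgroup is normal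
      have hQn : Q'.Normal := Subgroup.normalizer_eq_top_iff.mp hMtop
      have hQ'p : IsPGroup p Q' := Q.2.map N.subtype
      have hQ'1 : Q' ≠ ⊥ := by
        intro h
        exact hQ1 ((Subgroup.map_eq_bot_iff_of_injective _ N.subtype_injective).mp h)
      obtain ⟨A, hAn, hAQ, hA1, hAc, hAp⟩ := exists_elementary p Q' hQn hQ'p hQ'1
      have hAN : A ≤ N := by
        refine le_trans hAQ ?_
        rintro _ ⟨x, _, rfl⟩
        exact x.2
      let f : P ⧸ A →* P ⧸ N := QuotientGroup.map A N (MonoidHom.id P) hAN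
      have hf : Function.Surjective f := by
        intro q
        obtain ⟨x, rfl⟩ := QuotientGroup.mk'_surjective N q
        exact ⟨QuotientGroup.mk x, rfl⟩
      have hcardA : Nat.card (P ⧸ A) ≤ n := by
        have h1 := Subgroup.card_eq_card_quotient_mul_card_subgroup A
        have h2 : 1 < Nat.card A := (Subgroup.one_lt_card_iff_ne_bot A).mpr hA1
        have h3 : 0 < Nat.card (P ⧸ A) := Nat.card_pos
        have h4 : Nat.card (P ⧸ A) * 2 ≤ Nat.card (P ⧸ A) * Nat.card A :=
          Nat.mul_le_mul_left _ h2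
        omega
      obtain ⟨φ₁, hφ₁⟩ := lift_change f hf φ₀ (fun ψ => ih (P ⧸ A) hcardA f.ker ψ)
      obtain ⟨φ, hφ⟩ := abelian_lift hk r hr1 m H S hinf p A hAc hAp φ₁ inferInstance
        (hS _ inferInstance)
      refine ⟨φ, fun s => ?_⟩
      rw [← hφ₁ s, ← hφ s]
      rfl
    · -- smaller group
      have hcardM : Nat.card M ≤ n := by
        have h1 : Nat.card M < Nat.card P := by
          refine lt_of_le_of_ne (Subgroup.card_le_card_group M) ?_
          intro h
          exact hMtop (Subgroup.eq_top_of_card_eq M h)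
        omega
      let f : M →* P ⧸ N := (QuotientGroup.mk' N).comp M.subtype
      have hf : Function.Surjective f := by
        intro q
        obtain ⟨x, rfl⟩ := QuotientGroup.mk'_surjective N q
        have h1 : x ∈ M ⊔ N := by
          rw [hfr]
          exact Subgroup.mem_top x
        obtain ⟨a, ha, b, hb, rfl⟩ := Subgroup.mem_sup_of_normal_right.mp h1
        refine ⟨⟨a, ha⟩, ?_⟩
        show (QuotientGroup.mk a : P ⧸ N) = QuotientGroup.mk (a * b)
        rw [QuotientGroup.eq, inv_mul_cancel_left]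
        exact hb
      obtain ⟨φ₁, hφ₁⟩ := lift_change f hf φ₀ (fun ψ => ih M hcardM f.ker ψ)
      exact ⟨M.subtype.comp φ₁, fun s => hφ₁ s⟩

end Pool.Agent.MelD
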