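import Pool.Agent.MelD.Proj

/-!
# Projectivity when the coranks vanish

* `ev_surj`: if the corank of `r` over `K` in the finite quotient `Q` is zero, then `ev` is onto for all
  representations of `Q` over `K`.
* `lift_zero`: then homomorphisms of `G_r` with image a quotient of `Q` lift through abelian kernels of
  exponent `p`.
* `gruenberg`: lifting through elementary abelian kernels implies that all finite embedding problems
  are solvable.
* `proj_zero`: if all coranks of `r` over all prime fields in all finite quotients of `G_r` vanish, then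
  every finite embedding problem for `G_r` is solvable.
-/

open Finset Module

namespace Pool.Agent.MelD

/-- Sum of the translates of a vector. -/
noncomputable def smear {K : Type} [Field K] {Q : Type} [Group Q] [Fintype Q] {V : Type}
    [AddCommGroup V] [Module K V] (σ : Q →* Module.End K V) (v : V) : (Q → K) →ₗ[K] V where
  toFun f := ∑ q, f q • σ q⁻¹ v
  map_add' := by
    intro f g
    simp only [Pi.add_apply, add_smul, sum_add_distrib]
  map_smul' := by
    intro c f
    simp only [Pi.smul_apply, smul_eq_mul, RingHom.id_apply, smul_sum, mul_smul]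

theorem smear_apply {K : Type} [Field K] {Q : Type} [Group Q] [Fintype Q] {V : Type}
    [AddCommGroup V] [Module K V] (σ : Q →* Module.End K V) (v : V) (f : Q → K) :
    smear σ v f = ∑ q, f q • σ q⁻¹ v := rfl

theorem smear_ind {K : Type} [Field K] {Q : Type} [Group Q] [Fintype Q] {V : Type}
    [AddCommGroup V] [Module K V] (σ : Q →* Module.End K V) (v : V) {G : Type} [Group G]
    (π : G →* Q) (g : G) (f : Q → K) :
    smear σ v (ind π (1 : G →* Module.End K K) g f) = σ (π g) (smear σ v f) := by
  rw [smear_apply, smear_apply, map_sum]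
  refine Fintype.sum_equiv (Equiv.mulRight (π g)) _ _ fun q => ?_
  show (f (q * π g)) • σ q⁻¹ v = σ (π g) (f (q * π g) • σ (q * π g)⁻¹ v)
  rw [map_smul, ← Module.End.mul_apply, ← map_mul, mul_inv_rev, mul_inv_cancel_left]

theorem smear_single {K : Type} [Field K] {Q : Type} [Group Q] [Fintype Q] [DecidableEq Q]
    {V : Type} [AddCommGroup V] [Module K V] (σ : Q →* Module.End K V) (v : V) (q : Q) (c : K) :
    smear σ v (Pi.single q c) = c • σ q⁻¹ v := by
  rw [smear_apply, sum_eq_single q]
  · rw [Pi.single_eq_same]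
  · intro q' _ h
    rw [Pi.single_eq_of_ne h, zero_smul]
  · intro h
    exact absurd (mem_univ q) h

/-- The image of the range of `ev` for the regular representation. -/
theorem smear_ev {K : Type} [Field K] {k : ℕ} (r : FreeGroup (Fin k)) {Q : Type} [Group Q]
    [Fintype Q] (π : FreeGroup (Fin k) →* Q) {V : Type} [AddCommGroup V] [Module K V]
    (σ : Q →* Module.End K V) (v : V) (f : Q → K)
    (hf : f ∈ LinearMap.range (ev (ind π (1 : FreeGroup (Fin k) →* Module.End K K)) r)) :
    smear σ v f ∈ LinearMap.range (ev (σ.comp π) r) := by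
  obtain ⟨w, rfl⟩ := hf
  refine ⟨fun j => smear σ v (w j), ?_⟩
  rw [ev_apply, ev_apply]
  exact (map_coc (ind π (1 : FreeGroup (Fin k) →* Module.End K K)) (σ.comp π) (smear σ v)
    (fun g f => smear_ind σ v π g f) w r).symm

/-- If the corank vanishes, then `ev` is onto for all representations of `Q`. -/
theorem ev_surj {K : Type} [Field K] {k : ℕ} (r : FreeGroup (Fin k)) {Q : Type} [Group Q]
    [Fintype Q] (π : FreeGroup (Fin k) →* Q) (hc : cork K r π = 0) {V : Type} [AddCommGroup V]
    [Module K V] (σ : Q →* Module.End K V) : Function.Surjective (ev (σ.comp π) r) := by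
  classical
  have htop : LinearMap.range (ev (ind π (1 : FreeGroup (Fin k) →* Module.End K K)) r) = ⊤ := by
    have h1 := rank_add_cork K r π
    rw [hc, add_zero] at h1
    refine Submodule.eq_top_of_finrank_eq ?_
    rw [h1, Module.finrank_fintype_fun_eq_card]
  intro v
  have h2 := smear_ev r π σ v (Pi.single 1 1) (by rw [htop]; exact Submodule.mem_top)
  rw [smear_single, inv_one, map_one, one_smul] at h2
  exact h2

/-- Automorphisms of an abelian group of exponent `p` are linear. -/
def linAut {A : Type} [CommGroup A] (p : ℕ) [Module (ZMod p) (Additive A)] :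
    MulAut A →* Module.End (ZMod p) (Additive A) where
  toFun f := AddMonoidHom.toZModLinearMap p (MonoidHom.toAdditive f.toMonoidHom)
  map_one' := by
    apply LinearMap.ext
    intro x
    rfl
  map_mul' := by
    intro f g
    apply LinearMap.ext
    intro x
    rfl

/-- Lifting through an abelian kernel of exponent `p`, if `ev` is onto for the kernel. -/
theorem lift_core {k : ℕ} (r : FreeGroup (Fin k)) (p : ℕ) [hp : Fact p.Prime] {P A B : Type}
    [Group P] [CommGroup A] [Module (ZMod p) (Additive A)] [Group B] (ι : A →* P) (q : P →* B)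
    (hq : ∀ x, q x = 1 → ∃ a, ι a = x) (hq' : ∀ a, q (ι a) = 1) (hqs : Function.Surjective q)
    (σ' : B →* MulAut A) (hσ : ∀ x a, ι (σ' (q x) a) = x * ι a * x⁻¹) (φ₀ : OR r →* B)
    (hev : Function.Surjective (ev (((linAut p).comp (σ'.comp φ₀.range.subtype)).comp
      (φ₀.rangeRestrict.comp (PresentedGroup.mk {r}))) r)) :
    ∃ φ : OR r →* P, ∀ s, q (φ s) = φ₀ s := by
  classical
  let σ : φ₀.range →* Module.End (ZMod p) (Additive A) :=
    (linAut p).comp (σ'.comp φ₀.range.subtype)
  let π : FreeGroup (Fin k) →* φ₀.range := φ₀.rangeRestrict.comp (PresentedGroup.mk {r})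
  choose l hl using hqs
  let μ : FreeGroup (Fin k) →* P :=
    FreeGroup.lift fun j => l (φ₀ (PresentedGroup.mk {r} (FreeGroup.of j)))
  have hμ : ∀ w, q (μ w) = φ₀ (PresentedGroup.mk {r} w) := by
    have h1 : q.comp μ = φ₀.comp (PresentedGroup.mk {r}) := by
      refine FreeGroup.ext_hom _ _ fun j => ?_
      show q (μ (FreeGroup.of j)) = φ₀ (PresentedGroup.mk {r} (FreeGroup.of j))
      simp only [μ]
      rw [FreeGroup.lift_apply_of]
      exact hl _
    exact fun w => DFunLike.congr_fun h1 w
  have hact : ∀ (w : FreeGroup (Fin k)) (b : Additive A),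
      ι (Additive.toMul ((σ.comp π) w b)) = μ w * ι (Additive.toMul b) * (μ w)⁻¹ := by
    intro w b
    show ι (σ' (φ₀ (PresentedGroup.mk {r} w)) (Additive.toMul b)) = _
    rw [← hμ w]
    exact hσ _ _
  obtain ⟨o, ho⟩ := hq (μ r)⁻¹ (by rw [map_inv, hμ r, mk_rel, map_one, inv_one])
  obtain ⟨a, ha⟩ := hev (Additive.ofMul o)
  change ev (σ.comp π) r a = Additive.ofMul o at ha
  rw [ev_apply] at ha
  let C : FreeGroup (Fin k) → Additive A := coc (σ.comp π) a
  have hC : ∀ g h, ι (Additive.toMul (C (g * h))) =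
      ι (Additive.toMul (C g)) * (μ g * ι (Additive.toMul (C h)) * (μ g)⁻¹) := by
    intro g h
    rw [← hact]
    have h1 : C (g * h) = C g + (σ.comp π) g (C h) := coc_mul (σ.comp π) a g h
    rw [h1, toMul_add, map_mul]
  let μ' : FreeGroup (Fin k) →* P := MonoidHom.mk' (fun w => ι (Additive.toMul (C w)) * μ w) (by
    intro g h
    rw [hC, map_mul]
    group)
  obtain ⟨φ, hφ⟩ := exists_desc r μ' (by
    show ι (Additive.toMul (coc (σ.comp π) a r)) * μ r = 1
    rw [ha, toMul_ofMul, ho, inv_mul_cancel])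
  refine ⟨φ, ?_⟩
  intro x
  obtain ⟨w, rfl⟩ := PresentedGroup.mk_surjective _ x
  have h1 : φ (PresentedGroup.mk {r} w) = μ' w := DFunLike.congr_fun hφ w
  rw [h1, ← hμ w]
  show q (ι (Additive.toMul (C w)) * μ w) = _
  rw [map_mul, hq', one_mul]

/-- Lifting through an abelian kernel of exponent `p`. -/
theorem lift_of_ev {k : ℕ} (r : FreeGroup (Fin k)) (p : ℕ) [hp : Fact p.Prime] {P : Type} [Group P]
    (A : Subgroup P) [hAn : A.Normal]
    (hcomm : ∀ a ∈ A, ∀ b ∈ A, a * b = b * a) (hexp : ∀ a ∈ A, a ^ p = 1) (φ₀ : OR r →* P ⧸ A)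
    (hfin : Finite φ₀.range)
    (hc : ∀ (Q : Type) [Group Q] [Fintype Q] (π : FreeGroup (Fin k) →* Q),
      Function.Surjective π → π r = 1 → cork (ZMod p) r π = 0) :
    ∃ φ : OR r →* P, ∀ s, (QuotientGroup.mk (φ s) : P ⧸ A) = φ₀ s := by
  classical
  let _ : CommGroup A := { (inferInstance : Group A) with
    mul_comm := fun a b => Subtype.ext (hcomm a.1 a.2 b.1 b.2) }
  let _ : Module (ZMod p) (Additive A) := AddCommGroup.zmodModule (fun a => by
    apply Additive.toMul.injective
    apply Subtype.ext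
    exact hexp _ (Additive.toMul a).2)
  have hA1 : A ≤ (MulAut.conjNormal : P →* MulAut A).ker := by
    intro a ha
    rw [MonoidHom.mem_ker]
    ext b
    show a * b.1 * a⁻¹ = b.1
    rw [hcomm a ha b.1 b.2, mul_inv_cancel_right]
  have : Fintype φ₀.range := Fintype.ofFinite _
  have hπs : Function.Surjective (φ₀.rangeRestrict.comp (PresentedGroup.mk {r})) :=
    φ₀.rangeRestrict_surjective.comp (PresentedGroup.mk_surjective _)
  have hπr : (φ₀.rangeRestrict.comp (PresentedGroup.mk {r})) r = 1 := by
    show φ₀.rangeRestrict (PresentedGroup.mk {r} r) = 1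
    rw [mk_rel, map_one]
  exact lift_core r p (A := A) A.subtype (QuotientGroup.mk' A)
    (fun x hx => ⟨⟨x, (QuotientGroup.eq_one_iff x).mp hx⟩, rfl⟩)
    (fun a => (QuotientGroup.eq_one_iff a.1).mpr a.2) (QuotientGroup.mk'_surjective A)
    (QuotientGroup.lift A MulAut.conjNormal hA1) (fun x a => rfl) φ₀
    (ev_surj r _ (hc _ _ hπs hπr) _)

/-- Lifting through abelian kernels of prime exponent implies that all finite embedding problems are
solvable. -/
theorem gruenberg {S : Type} [Group S]
    (hL : ∀ (p : ℕ), p.Prime → ∀ (P : Type) [Group P] [Finite P] (A : Subgroup P) [A.Normal],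
      (∀ a ∈ A, ∀ b ∈ A, a * b = b * a) → (∀ a ∈ A, a ^ p = 1) → ∀ φ₀ : S →* P ⧸ A,
        ∃ φ : S →* P, ∀ s, (QuotientGroup.mk (φ s) : P ⧸ A) = φ₀ s) (n : ℕ) :
    ∀ (P : Type) [Group P] [Finite P], Nat.card P ≤ n → ∀ (N : Subgroup P) [N.Normal]
      (φ₀ : S →* P ⧸ N), ∃ φ : S →* P, ∀ s, (QuotientGroup.mk (φ s) : P ⧸ N) = φ₀ s := by
  classical
  induction n with
  | zero =>
    intro P _ _ hcard
    have h1 : 0 < Nat.card P := Nat.card_pos
    omega
  | succ n ih =>
    intro P _ _ hcard N _ φ₀
    by_cases hN : N = ⊥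
    · subst hN
      refine ⟨(QuotientGroup.quotientBot : P ⧸ (⊥ : Subgroup P) ≃* P).toMonoidHom.comp φ₀,
        fun s => ?_⟩
      exact (QuotientGroup.quotientBot : P ⧸ (⊥ : Subgroup P) ≃* P).symm_apply_apply _
    have hN1 : Nat.card N ≠ 1 := fun h => hN (Subgroup.card_eq_one.mp h)
    obtain ⟨p, hp, hpN⟩ := Nat.exists_prime_and_dvd hN1
    have : Fact p.Prime := ⟨hp⟩
    obtain ⟨Q⟩ : Nonempty (Sylow p N) := inferInstance
    have hQ1 : (Q : Subgroup N) ≠ ⊥ := Q.ne_bot_of_dvd_card hpN
    have hfr := Sylow.normalizer_sup_eq_top Q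
    set Q' : Subgroup P := (Q : Subgroup N).map N.subtype with hQ'
    set M := Subgroup.normalizer (Q' : Set P) with hM
    by_cases hMtop : M = ⊤
    · have hQn : Q'.Normal := Subgroup.normalizer_eq_top_iff.mp hMtop
      have hQ'p : IsPGroup p Q' := Q.2.map N.subtype
      have hQ'1 : Q' ≠ ⊥ := by
        intro h
        exact hQ1 ((Subgroup.map_eq_bot_iff_of_injective _ N.subtype_injective).mp h)
      obtain ⟨A, hAn, hAQ, hA1, hAc, hAp⟩ := exists_elementary p Q' hQn hQ'p hQ'1
      have hAN : A ≤ N := by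
        refine le_trans hAQ ?_
        rintro _ ⟨x, _, rfl⟩
        exact x.2
      let f : P ⧸ A →* P ⧸ N := QuotientGroup.map A N (MonoidHom.id P) hAN
      have hf : Function.Surjective f := by
        intro q
        obtain ⟨x, rfl⟩ := QuotientGroup.mk'_surjective N q
        exact ⟨QuotientGroup.mk x, rfl⟩
      have hcardA : Nat.card (P ⧸ A) ≤ n := by
        have h1 := Subgroup.card_eq_card_quotient_mul_card_subgroup A
        have h2 : 1 < Nat.card A := (Subgroup.one_lt_card_iff_ne_bot A).mpr hA1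
        have h3 : 0 < Nat.card (P ⧸ A) := Nat.card_pos
        have h4 : Nat.card (P ⧸ A) * 2 ≤ Nat.card (P ⧸ A) * Nat.card A :=
          Nat.mul_le_mul_left _ h2
        omega
      obtain ⟨φ₁, hφ₁⟩ := lift_change f hf φ₀ (fun ψ => ih (P ⧸ A) hcardA f.ker ψ)
      obtain ⟨φ, hφ⟩ := hL p hp P A hAc hAp φ₁
      refine ⟨φ, fun s => ?_⟩
      rw [← hφ₁ s, ← hφ s]
      rfl
    · have hcardM : Nat.card M ≤ n := by
        have h1 : Nat.card M < Nat.card P := by
          refine lt_of_le_of_ne (Subgroup.card_le_card_group M) ?_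
          intro h
          exact hMtop (Subgroup.eq_top_of_card_eq M h)
        omega
      let f : M →* P ⧸ N := (QuotientGroup.mk' N).comp M.subtype
      have hf : Function.Surjective f := by
        intro q
        obtain ⟨x, rfl⟩ := QuotientGroup.mk'_surjective N q
        have h1 : x ∈ M ⊔ N := by
          rw [hfr]
          exact Subgroup.mem_top x
        obtain ⟨a, ha, b, hb, rfl⟩ := Subgroup.mem_sup_of_normal_right.mp h1
        refine ⟨⟨a, ha⟩, ?_⟩
        show (QuotientGroup.mk a : P ⧸ N) = QuotientGroup.mk (a * b)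
        rw [QuotientGroup.eq, inv_mul_cancel_left]
        exact hb
      obtain ⟨φ₁, hφ₁⟩ := lift_change f hf φ₀ (fun ψ => ih M hcardM f.ker ψ)
      exact ⟨M.subtype.comp φ₁, fun s => hφ₁ s⟩

/-- **Projectivity.**  If all coranks vanish, then every finite embedding problem is solvable. -/
theorem proj_zero {k : ℕ} (r : FreeGroup (Fin k))
    (hc : ∀ (p : ℕ) [Fact p.Prime] (Q : Type) [Group Q] [Fintype Q]
      (π : FreeGroup (Fin k) →* Q), Function.Surjective π → π r = 1 → cork (ZMod p) r π = 0)
    (P : Type) [Group P] [Finite P] (N : Subgroup P) [N.Normal] (φ₀ : OR r →* P ⧸ N) :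
    ∃ φ : OR r →* P, ∀ s, (QuotientGroup.mk (φ s) : P ⧸ N) = φ₀ s := by
  refine gruenberg ?_ (Nat.card P) P le_rfl N φ₀
  intro p hp P _ _ A _ h1 h2 φ
  have : Fact p.Prime := ⟨hp⟩
  exact lift_of_ev r p A h1 h2 φ inferInstance (fun Q _ _ π hs hr => hc p Q π hs hr)

end Pool.Agent.MelD
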