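import Pool.Agent.MelD.Def

/-!
# The augmentation ideal as a right module

The augmentation ideal of `ℤ[L]`, `L` free on `x_i`, is a free right module with basis `x_i - 1`.

`dr j` : the right Fox derivatives, `dr (g h) = dr g * h + dr h`, `dr j x_i = 1` or `0` (obtained from
the Fox derivatives with values in the opposite ring); `dl j` their linear extension.
`dl j ((x_i - 1) * a) = a` for `i = j` and `0` otherwise gives the independence,
`x = ε(x) + ∑ i, (x_i - 1) * dl i x` the second statement.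
-/

open Finset

namespace Pool.Agent.MelD

private abbrev ZL (l : ℕ) : Type := MonoidAlgebra ℤ (FreeGroup (Fin l))

/-- group elements in the opposite ring -/
private noncomputable def rv (l : ℕ) : FreeGroup (Fin l) →* (ZL l)ᵐᵒᵖ where
  toFun g := MulOpposite.op (MonoidAlgebra.of ℤ (FreeGroup (Fin l)) g⁻¹)
  map_one' := by
    rw [inv_one, map_one]
    rfl
  map_mul' g h := by rw [mul_inv_rev, map_mul, MulOpposite.op_mul]

/-- the right Fox derivatives -/
private noncomputable def dr {l : ℕ} (j : Fin l) (g : FreeGroup (Fin l)) : ZL l :=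
  (coc (rv l) (Pi.single j (MulOpposite.op (MonoidAlgebra.of ℤ (FreeGroup (Fin l)) (FreeGroup.of j)⁻¹)) :
    Fin l → (ZL l)ᵐᵒᵖ) g).unop * MonoidAlgebra.of ℤ (FreeGroup (Fin l)) g

private theorem of_inv_mul {l : ℕ} (g : FreeGroup (Fin l)) :
    MonoidAlgebra.of ℤ (FreeGroup (Fin l)) g⁻¹ * MonoidAlgebra.of ℤ (FreeGroup (Fin l)) g = 1 := by
  rw [← map_mul, inv_mul_cancel, map_one]

private theorem dr_mul {l : ℕ} (j : Fin l) (g h : FreeGroup (Fin l)) :
    dr j (g * h) = dr j g * MonoidAlgebra.of ℤ (FreeGroup (Fin l)) h + dr j h := by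
  unfold dr
  rw [coc_mul, smul_eq_mul, MulOpposite.unop_add, MulOpposite.unop_mul, map_mul, add_mul]
  congr 1
  · rw [mul_assoc]
  · show _ * MonoidAlgebra.of ℤ (FreeGroup (Fin l)) g⁻¹ * _ = _
    rw [mul_assoc, ← mul_assoc (MonoidAlgebra.of ℤ (FreeGroup (Fin l)) g⁻¹), of_inv_mul, one_mul]

private theorem dr_of {l : ℕ} (i j : Fin l) : dr j (FreeGroup.of i) = if i = j then 1 else 0 := by
  unfold dr
  rw [coc_of, Pi.single_apply]
  by_cases h : i = j
  · subst h
    rw [if_pos rfl, if_pos rfl]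
    exact of_inv_mul _
  · rw [if_neg h, if_neg h, MulOpposite.unop_zero, zero_mul]

private theorem dr_one {l : ℕ} (j : Fin l) : dr j (1 : FreeGroup (Fin l)) = 0 := by
  have h := dr_mul j 1 1
  rw [mul_one, map_one, mul_one] at h
  exact left_eq_add.mp h

private theorem dr_inv {l : ℕ} (j : Fin l) (g : FreeGroup (Fin l)) :
    dr j g⁻¹ = - (dr j g * MonoidAlgebra.of ℤ (FreeGroup (Fin l)) g⁻¹) := by
  have h := dr_mul j g g⁻¹
  rw [mul_inv_cancel, dr_one] at h
  exact eq_neg_of_add_eq_zero_right h.symm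

/-- the linear extension -/
private noncomputable def dl {l : ℕ} (j : Fin l) (x : ZL l) : ZL l :=
  Finsupp.linearCombination ℤ (dr j) x.coeff

private theorem dl_zero {l : ℕ} (j : Fin l) : dl j (0 : ZL l) = 0 := by
  unfold dl
  rw [MonoidAlgebra.coeff_zero, map_zero]

private theorem dl_add {l : ℕ} (j : Fin l) (x y : ZL l) : dl j (x + y) = dl j x + dl j y := by
  unfold dl
  rw [MonoidAlgebra.coeff_add, map_add]

private theorem dl_sub {l : ℕ} (j : Fin l) (x y : ZL l) : dl j (x - y) = dl j x - dl j y := by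
  unfold dl
  rw [MonoidAlgebra.coeff_sub, map_sub]

private theorem dl_single {l : ℕ} (j : Fin l) (g : FreeGroup (Fin l)) (n : ℤ) :
    dl j (MonoidAlgebra.single g n) = n • dr j g := by
  unfold dl
  rw [MonoidAlgebra.coeff_single, Finsupp.linearCombination_single]

private theorem dl_sum {l : ℕ} {ι : Type*} (j : Fin l) (s : Finset ι) (f : ι → ZL l) :
    dl j (∑ i ∈ s, f i) = ∑ i ∈ s, dl j (f i) := by
  unfold dl
  rw [MonoidAlgebra.coeff_sum, map_sum]

private theorem dl_gen {l : ℕ} (i j : Fin l) (a : ZL l) :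
    dl j ((MonoidAlgebra.of ℤ (FreeGroup (Fin l)) (FreeGroup.of i) - 1) * a) = if i = j then a else 0 := by
  induction a using MonoidAlgebra.induction_linear with
  | zero => rw [mul_zero, dl_zero, ite_self]
  | add a b ha hb =>
    rw [mul_add, dl_add, ha, hb]
    split_ifs
    · rfl
    · rw [add_zero]
  | single g n =>
    have h1 : (MonoidAlgebra.of ℤ (FreeGroup (Fin l)) (FreeGroup.of i) - 1) * MonoidAlgebra.single g n =
        MonoidAlgebra.single (FreeGroup.of i * g) n - MonoidAlgebra.single g n := by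
      rw [sub_mul, one_mul, MonoidAlgebra.of_apply, MonoidAlgebra.single_mul_single, one_mul]
    rw [h1, dl_sub, dl_single, dl_single, dr_mul, dr_of]
    have h2 : (MonoidAlgebra.single g n : ZL l) = n • MonoidAlgebra.of ℤ (FreeGroup (Fin l)) g := by
      rw [MonoidAlgebra.of_apply, MonoidAlgebra.smul_single, smul_eq_mul, mul_one]
    by_cases h : i = j
    · rw [if_pos h, if_pos h, one_mul, smul_add, add_sub_cancel_right, h2]
    · rw [if_neg h, if_neg h, zero_mul, zero_add, sub_self]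

theorem right_indep {l : ℕ} (a : Fin l → MonoidAlgebra ℤ (FreeGroup (Fin l)))
    (h : ∑ i, (MonoidAlgebra.of ℤ (FreeGroup (Fin l)) (FreeGroup.of i) - 1) * a i = 0) : a = 0 := by
  funext j
  have h1 : dl j (∑ i, (MonoidAlgebra.of ℤ (FreeGroup (Fin l)) (FreeGroup.of i) - 1) * a i) = 0 := by
    rw [h, dl_zero]
  rw [dl_sum, Finset.sum_congr rfl fun i _ => dl_gen i j (a i), Finset.sum_ite_eq', if_pos (Finset.mem_univ _)] at h1
  exact h1

private theorem fund_right {l : ℕ} (g : FreeGroup (Fin l)) :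
    MonoidAlgebra.of ℤ (FreeGroup (Fin l)) g - 1 =
      ∑ i, (MonoidAlgebra.of ℤ (FreeGroup (Fin l)) (FreeGroup.of i) - 1) * dr i g := by
  have hone : ∀ j : Fin l, MonoidAlgebra.of ℤ (FreeGroup (Fin l)) (FreeGroup.of j) - 1 =
      ∑ i, (MonoidAlgebra.of ℤ (FreeGroup (Fin l)) (FreeGroup.of i) - 1) * dr i (FreeGroup.of j) := by
    intro j
    have h1 : ∀ i : Fin l, (MonoidAlgebra.of ℤ (FreeGroup (Fin l)) (FreeGroup.of i) - 1) * dr i (FreeGroup.of j) =
        if j = i then MonoidAlgebra.of ℤ (FreeGroup (Fin l)) (FreeGroup.of i) - 1 else 0 := by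
      intro i
      rw [dr_of]
      split_ifs
      · rw [mul_one]
      · rw [mul_zero]
    rw [Finset.sum_congr rfl fun i _ => h1 i, Finset.sum_ite_eq, if_pos (Finset.mem_univ _)]
  induction g using FreeGroup.induction_on with
  | C1 =>
    rw [map_one, sub_self]
    symm
    exact Finset.sum_eq_zero fun i _ => by rw [dr_one, mul_zero]
  | of j => exact hone j
  | inv_of j _ =>
    have h1 : ∀ i : Fin l, (MonoidAlgebra.of ℤ (FreeGroup (Fin l)) (FreeGroup.of i) - 1) * dr i (FreeGroup.of j)⁻¹ =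
        (MonoidAlgebra.of ℤ (FreeGroup (Fin l)) (FreeGroup.of i) - 1) * dr i (FreeGroup.of j) *
          (- MonoidAlgebra.of ℤ (FreeGroup (Fin l)) (FreeGroup.of j)⁻¹) := by
      intro i
      rw [dr_inv]
      noncomm_ring
    rw [Finset.sum_congr rfl fun i _ => h1 i, ← Finset.sum_mul, ← hone j, sub_mul, one_mul, mul_neg, ← map_mul,
      mul_inv_cancel, map_one]
    abel
  | mul a b ha hb =>
    have h1 : ∀ i : Fin l, (MonoidAlgebra.of ℤ (FreeGroup (Fin l)) (FreeGroup.of i) - 1) * dr i (a * b) =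
        (MonoidAlgebra.of ℤ (FreeGroup (Fin l)) (FreeGroup.of i) - 1) * dr i a *
          MonoidAlgebra.of ℤ (FreeGroup (Fin l)) b +
        (MonoidAlgebra.of ℤ (FreeGroup (Fin l)) (FreeGroup.of i) - 1) * dr i b := by
      intro i
      rw [dr_mul, mul_add, mul_assoc]
    rw [Finset.sum_congr rfl fun i _ => h1 i, Finset.sum_add_distrib, ← Finset.sum_mul, ← ha, ← hb, map_mul, sub_mul,
      one_mul]
    abel

private theorem fund_lin {l : ℕ} (x : ZL l) :
    x - (MonoidAlgebra.lift ℤ ℤ (FreeGroup (Fin l)) (1 : FreeGroup (Fin l) →* ℤ) x) • (1 : ZL l) =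
      ∑ i, (MonoidAlgebra.of ℤ (FreeGroup (Fin l)) (FreeGroup.of i) - 1) * dl i x := by
  induction x using MonoidAlgebra.induction_linear with
  | zero =>
    rw [map_zero, zero_smul, sub_zero]
    symm
    exact Finset.sum_eq_zero fun i _ => by rw [dl_zero, mul_zero]
  | add a b ha hb =>
    rw [map_add, add_smul]
    simp only [dl_add, mul_add, Finset.sum_add_distrib]
    rw [← ha, ← hb]
    abel
  | single g n =>
    rw [MonoidAlgebra.lift_single]
    have h2 : (MonoidAlgebra.single g n : ZL l) = n • MonoidAlgebra.of ℤ (FreeGroup (Fin l)) g := by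
      rw [MonoidAlgebra.of_apply, MonoidAlgebra.smul_single, smul_eq_mul, mul_one]
    have h3 : ∀ i : Fin l, (MonoidAlgebra.of ℤ (FreeGroup (Fin l)) (FreeGroup.of i) - 1) *
        dl i (MonoidAlgebra.single g n) =
        n • ((MonoidAlgebra.of ℤ (FreeGroup (Fin l)) (FreeGroup.of i) - 1) * dr i g) := by
      intro i
      rw [dl_single, mul_smul_comm]
    rw [Finset.sum_congr rfl fun i _ => h3 i, ← Finset.smul_sum, ← fund_right, h2, smul_sub]
    congr 1
    rw [MonoidHom.one_apply, smul_eq_mul, mul_one]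

theorem right_span {l : ℕ} (x : MonoidAlgebra ℤ (FreeGroup (Fin l)))
    (hx : MonoidAlgebra.lift ℤ ℤ (FreeGroup (Fin l)) (1 : FreeGroup (Fin l) →* ℤ) x = 0) :
    ∃ a : Fin l → MonoidAlgebra ℤ (FreeGroup (Fin l)),
      x = ∑ i, (MonoidAlgebra.of ℤ (FreeGroup (Fin l)) (FreeGroup.of i) - 1) * a i := by
  refine ⟨fun i => dl i x, ?_⟩
  have h := fund_lin x
  rw [hx, zero_smul, sub_zero] at h
  exact h

end Pool.Agent.MelD
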