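import Pool.Agent.MelD.Deg
import Pool.Agent.MelD.Retr2

/-!
# Retracts

`inf_order`: no proper power of `w ≠ 1` is in `[W, F]`, `W` the normal closure of `w` in the free group `F`.
`retract_w`: the one-relator group of `r` residually finite, all finite index normal subgroups with presentations
with at most `m` relators; if the one-relator group of a word `w ≠ 1` in the commutator subgroup of `F_n` is
a retract of the one-relator group of `r`, then the retraction is an isomorphism.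
-/

open Finset Module
open scoped commutatorElement

namespace Pool.Agent.MelD

open Pool.Agent.MelG (HasRel)

/-- The normal closure of one element. -/
abbrev NC {k : ℕ} (r : FreeGroup (Fin k)) : Subgroup (FreeGroup (Fin k)) :=
  Subgroup.normalClosure ({r} : Set (FreeGroup (Fin k)))

namespace RW

section ord

variable {n : ℕ}

/-- a coefficient -/
noncomputable def cf (D : ℕ) (x : FreeGroup (Fin n)) : Matrix (Fin 3) (Fin 3) ℤ :=
  PowerSeries.coeff D (ser (mag 0 x))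

/-- words with vanishing lower coefficients -/
noncomputable def SD (n D : ℕ) : Subgroup (FreeGroup (Fin n)) :=
  (KD (Matrix (Fin 3) (Fin 3) ℤ) D).comap (mag 0)

theorem mem_SD {D : ℕ} {x : FreeGroup (Fin n)} :
    x ∈ SD n D ↔ ∀ i, 0 < i → i < D → PowerSeries.coeff i (ser (mag 0 x)) = 0 := Iff.rfl

instance normal_SD (n D : ℕ) : (SD n D).Normal := by
  unfold SD
  exact Subgroup.normal_comap _

theorem cf_mul_left {D : ℕ} (hD : 0 < D) {x : FreeGroup (Fin n)} (hx : x ∈ SD n D)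
    (y : FreeGroup (Fin n)) : cf D (x * y) = cf D x + cf D y := by
  unfold cf
  rw [map_mul, coeff_ser_mul _ _ _ hD, Finset.sum_eq_zero, add_zero]
  intro i hi
  rw [mem_Ioo] at hi
  rw [mem_SD.1 hx i hi.1 hi.2, zero_mul]

theorem cf_mul_right {D : ℕ} (hD : 0 < D) {x : FreeGroup (Fin n)} (hx : x ∈ SD n D)
    (y : FreeGroup (Fin n)) : cf D (y * x) = cf D y + cf D x := by
  unfold cf
  rw [map_mul, coeff_ser_mul _ _ _ hD, Finset.sum_eq_zero, add_zero]
  intro i hi
  rw [mem_Ioo] at hi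
  rw [mem_SD.1 hx (D - i) (by omega) (by omega), mul_zero]

theorem cf_one {D : ℕ} (hD : 0 < D) : cf D (1 : FreeGroup (Fin n)) = 0 := by
  unfold cf
  rw [map_one, ser_one, PowerSeries.coeff_one, if_neg (by omega)]

theorem cf_inv {D : ℕ} (hD : 0 < D) {x : FreeGroup (Fin n)} (hx : x ∈ SD n D) :
    cf D x⁻¹ = - cf D x := by
  have h := cf_mul_left hD hx x⁻¹
  rw [mul_inv_cancel, cf_one hD] at h
  exact eq_neg_of_add_eq_zero_right h.symm

theorem cf_conj {D : ℕ} (hD : 0 < D) {x : FreeGroup (Fin n)} (hx : x ∈ SD n D)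
    (y : FreeGroup (Fin n)) : cf D (y * x * y⁻¹) = cf D x := by
  have h1 : y * x * y⁻¹ ∈ SD n D := (normal_SD n D).conj_mem x hx y
  have h2 := cf_mul_left hD h1 y
  rw [inv_mul_cancel_right, cf_mul_right hD hx y] at h2
  have h3 : cf D x + cf D y = cf D (y * x * y⁻¹) + cf D y := by
    rw [← h2, add_comm]
  exact (add_right_cancel h3).symm

theorem cf_zpow {D : ℕ} (hD : 0 < D) {x : FreeGroup (Fin n)} (hx : x ∈ SD n D) (j : ℤ) :
    cf D (x ^ j) = j • cf D x := by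
  have hnat : ∀ i : ℕ, cf D (x ^ i) = (i : ℤ) • cf D x := by
    intro i
    induction i with
    | zero => rw [pow_zero, cf_one hD, Nat.cast_zero, zero_smul]
    | succ i ih =>
      rw [pow_succ, cf_mul_right hD hx, ih, Nat.cast_succ, add_smul, one_smul]
  obtain ⟨i, rfl | rfl⟩ := j.eq_nat_or_neg
  · rw [zpow_natCast, hnat]
  · rw [zpow_neg, zpow_natCast, cf_inv hD ((SD n D).pow_mem hx i), hnat, neg_smul]

end ord

end RW

open RW

/-- The class of `w` in `W / [W, F]` has infinite order. -/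
theorem inf_order {n : ℕ} (w : FreeGroup (Fin n)) (hw : w ≠ 1) (j : ℤ)
    (h : w ^ j ∈ ⁅NC w, (⊤ : Subgroup (FreeGroup (Fin n)))⁆) : j = 0 := by
  classical
  have hex : ∃ i, 0 < i ∧ cf i w ≠ 0 := by
    by_contra hno
    push Not at hno
    apply hw
    apply mag_injective 0
    rw [map_one]
    apply ser_injective
    rw [ser_one]
    ext1 i
    rcases Nat.eq_zero_or_pos i with rfl | hi
    · rw [coeff_zero_ser, PowerSeries.coeff_one, if_pos rfl]
    · rw [PowerSeries.coeff_one, if_neg (by omega)]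
      exact hno i hi
  obtain ⟨D, ⟨hD0, hD⟩, hmin⟩ : ∃ D, (0 < D ∧ cf D w ≠ 0) ∧
      ∀ i, 0 < i → i < D → cf i w = 0 := by
    refine ⟨Nat.find hex, Nat.find_spec hex, fun i hi hlt => ?_⟩
    by_contra hne
    exact Nat.find_min hex hlt ⟨hi, hne⟩
  have hwS : w ∈ SD n D := mem_SD.2 fun i h1 h2 => hmin i h1 h2
  have hWS : NC w ≤ SD n D := Subgroup.normalClosure_le_normal (by
    intro x hx
    rw [Set.mem_singleton_iff.mp hx]
    exact hwS)
  have key : ∀ x ∈ ⁅NC w, (⊤ : Subgroup (FreeGroup (Fin n)))⁆, x ∈ SD n D ∧ cf D x = 0 := by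
    intro x hx
    rw [Subgroup.commutator_def] at hx
    refine Subgroup.closure_induction (p := fun x _ => x ∈ SD n D ∧ cf D x = 0) ?_ ?_ ?_ ?_ hx
    · rintro _ ⟨a, ha, b, _, rfl⟩
      have ha' := hWS ha
      have h1 : b * a⁻¹ * b⁻¹ ∈ SD n D := (normal_SD n D).conj_mem _ ((SD n D).inv_mem ha') b
      have h2 : ⁅a, b⁆ = a * (b * a⁻¹ * b⁻¹) := by
        rw [commutatorElement_def]
        group
      rw [h2]
      refine ⟨(SD n D).mul_mem ha' h1, ?_⟩
      rw [cf_mul_left hD0 ha', cf_conj hD0 ((SD n D).inv_mem ha'), cf_inv hD0 ha', add_neg_cancel]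
    · exact ⟨(SD n D).one_mem, cf_one hD0⟩
    · rintro a b _ _ ⟨ha, ha'⟩ ⟨hb, hb'⟩
      exact ⟨(SD n D).mul_mem ha hb, by rw [cf_mul_left hD0 ha, ha', hb', add_zero]⟩
    · rintro a _ ⟨ha, ha'⟩
      exact ⟨(SD n D).inv_mem ha, by rw [cf_inv hD0 ha, ha', neg_zero]⟩
  have h1 := (key _ h).2
  rw [cf_zpow hD0 hwS] at h1
  by_contra hj
  exact hD ((smul_eq_zero.1 h1).resolve_left hj)

/-- Elements of the normal closure modulo `[R, F]`. -/
theorem mod_RF {k : ℕ} (r t : FreeGroup (Fin k)) (ht : t ∈ NC r) :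
    ∃ d : ℤ, ∃ s ∈ ⁅NC r, (⊤ : Subgroup (FreeGroup (Fin k)))⁆, t = s * r ^ d := by
  have hr : r ∈ NC r := Subgroup.subset_normalClosure (Set.mem_singleton r)
  refine Subgroup.closure_induction (p := fun t _ => ∃ d : ℤ,
    ∃ s ∈ ⁅NC r, (⊤ : Subgroup (FreeGroup (Fin k)))⁆, t = s * r ^ d) ?_ ?_ ?_ ?_ ht
  · intro x hx
    obtain ⟨a, ha, hc⟩ := Group.mem_conjugatesOfSet_iff.mp hx
    rw [Set.mem_singleton_iff.mp ha] at hc
    obtain ⟨g, rfl⟩ := isConj_iff.mp hc
    refine ⟨1, ⁅r, g⁆⁻¹, Subgroup.inv_mem _ (Subgroup.commutator_mem_commutator hr (Subgroup.mem_top g)), ?_⟩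
    rw [commutatorElement_def, zpow_one]
    group
  · exact ⟨0, 1, Subgroup.one_mem _, by rw [zpow_zero, mul_one]⟩
  · rintro a b _ _ ⟨d, s, hs, rfl⟩ ⟨d', s', hs', rfl⟩
    refine ⟨d + d', s * (r ^ d * s' * (r ^ d)⁻¹), Subgroup.mul_mem _ hs
      ((Subgroup.commutator_normal _ _).conj_mem _ hs' _), ?_⟩
    rw [zpow_add]
    group
  · rintro a _ ⟨d, s, hs, rfl⟩
    refine ⟨-d, (r ^ d)⁻¹ * s⁻¹ * ((r ^ d)⁻¹)⁻¹,
      (Subgroup.commutator_normal _ _).conj_mem _ (Subgroup.inv_mem _ hs) _, ?_⟩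
    rw [zpow_neg]
    group

/-- Two homomorphisms that agree modulo central elements agree on the commutator subgroup. -/
theorem eq_on_comm {A B : Type*} [Group A] [Group B] (f g : A →* B)
    (h : ∀ x, f x * (g x)⁻¹ ∈ Subgroup.center B) (x : A)
    (hx : x ∈ ⁅(⊤ : Subgroup A), (⊤ : Subgroup A)⁆) : f x = g x := by
  rw [Subgroup.commutator_def] at hx
  refine Subgroup.closure_induction (p := fun x _ => f x = g x) ?_ ?_ ?_ ?_ hx
  · rintro _ ⟨a, _, b, _, rfl⟩
    have key : ∀ x y : B, ∀ u ∈ Subgroup.center B, ∀ v ∈ Subgroup.center B,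
        ⁅u * x, v * y⁆ = ⁅x, y⁆ := by
      intro x y u hu v hv
      rw [Subgroup.mem_center_iff] at hu hv
      rw [commutatorElement_def, commutatorElement_def, mul_inv_rev, mul_inv_rev]
      have e1 : u * x * (v * y) * (x⁻¹ * u⁻¹) * (y⁻¹ * v⁻¹) =
          u * (x * v) * y * (x⁻¹ * u⁻¹) * (y⁻¹ * v⁻¹) := by group
      rw [e1, hv x]
      have e2 : u * (v * x) * y * (x⁻¹ * u⁻¹) * (y⁻¹ * v⁻¹) =
          (u * v) * (x * y * x⁻¹) * u⁻¹ * (y⁻¹ * v⁻¹) := by group
      rw [e2]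
      have hvi : v⁻¹ ∈ Subgroup.center B := Subgroup.inv_mem _ (Subgroup.mem_center_iff.2 hv)
      have hui : u⁻¹ ∈ Subgroup.center B := Subgroup.inv_mem _ (Subgroup.mem_center_iff.2 hu)
      rw [Subgroup.mem_center_iff] at hvi hui
      rw [hvi y⁻¹, mul_assoc ((u * v) * (x * y * x⁻¹)) u⁻¹, ← mul_assoc u⁻¹, mul_assoc (u * v)]
      have e3 : (x * y * x⁻¹) * (u⁻¹ * v⁻¹ * y⁻¹) = (u⁻¹ * v⁻¹) * (x * y * x⁻¹ * y⁻¹) := by
        have e4 : (x * y * x⁻¹) * (u⁻¹ * v⁻¹ * y⁻¹) = ((x * y * x⁻¹) * u⁻¹) * v⁻¹ * y⁻¹ := by group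
        rw [e4, hui, mul_assoc u⁻¹, hvi]
        group
      rw [e3]
      have e5 : u * v * (u⁻¹ * v⁻¹ * (x * y * x⁻¹ * y⁻¹)) = u * (v * u⁻¹) * v⁻¹ * (x * y * x⁻¹ * y⁻¹) := by
        group
      rw [e5, hui v]
      group
    have ha := h a
    have hb := h b
    rw [map_commutatorElement, map_commutatorElement, ← key (g a) (g b) _ ha _ hb]
    rw [inv_mul_cancel_right, inv_mul_cancel_right]
  · rw [map_one, map_one]
  · rintro a b _ _ ha hb
    rw [map_mul, map_mul, ha, hb]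
  · rintro a _ ha
    rw [map_inv, map_inv, ha]

theorem mk_eq_one_iff {k : ℕ} (r t : FreeGroup (Fin k)) :
    PresentedGroup.mk ({r} : Set (FreeGroup (Fin k))) t = 1 ↔ t ∈ NC r :=
  QuotientGroup.eq_one_iff t

/-- Lifting a homomorphism between one-relator groups. -/
theorem exists_lift {k n : ℕ} (w : FreeGroup (Fin n)) (r : FreeGroup (Fin k)) (i : OR w →* OR r) :
    ∃ α : FreeGroup (Fin n) →* FreeGroup (Fin k), ∀ x,
      PresentedGroup.mk ({r} : Set (FreeGroup (Fin k))) (α x) =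
        i (PresentedGroup.mk ({w} : Set (FreeGroup (Fin n))) x) := by
  choose f hf using fun j : Fin n => PresentedGroup.mk_surjective ({r} : Set (FreeGroup (Fin k)))
    (i (PresentedGroup.mk ({w} : Set (FreeGroup (Fin n))) (FreeGroup.of j)))
  refine ⟨FreeGroup.lift f, fun x => ?_⟩
  have h : (PresentedGroup.mk ({r} : Set (FreeGroup (Fin k)))).comp (FreeGroup.lift f) =
      i.comp (PresentedGroup.mk ({w} : Set (FreeGroup (Fin n)))) := by
    refine FreeGroup.ext_hom _ _ fun j => ?_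
    show PresentedGroup.mk {r} (FreeGroup.lift f (FreeGroup.of j)) = _
    rw [FreeGroup.lift_apply_of]
    exact hf j
  exact DFunLike.congr_fun h x

/-- The degree of the inclusion of a retract. -/
theorem retract_deg {k n : ℕ} (r : FreeGroup (Fin k)) (w : FreeGroup (Fin n)) (hw1 : w ≠ 1)
    (hw : w ∈ ⁅(⊤ : Subgroup (FreeGroup (Fin n))), (⊤ : Subgroup (FreeGroup (Fin n)))⁆)
    (i : OR w →* OR r) (h : OR r →* OR w) (hi : ∀ x, h (i x) = x)
    (α : FreeGroup (Fin n) →* FreeGroup (Fin k))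
    (hα : ∀ x, PresentedGroup.mk ({r} : Set (FreeGroup (Fin k))) (α x) =
        i (PresentedGroup.mk ({w} : Set (FreeGroup (Fin n))) x)) :
    ∃ s ∈ ⁅NC r, (⊤ : Subgroup (FreeGroup (Fin k)))⁆, α w = s * r ∨ (α w)⁻¹ = s * r := by
  obtain ⟨η, hη⟩ := exists_lift r w h
  have hwW : w ∈ NC w := Subgroup.subset_normalClosure (Set.mem_singleton w)
  have hrR : r ∈ NC r := Subgroup.subset_normalClosure (Set.mem_singleton r)
  have h1 : α w ∈ NC r := by
    rw [← mk_eq_one_iff, hα, (mk_eq_one_iff w w).2 hwW, map_one]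
  have h2 : η r ∈ NC w := by
    rw [← mk_eq_one_iff, hη, (mk_eq_one_iff r r).2 hrR, map_one]
  obtain ⟨d, s1, hs1, e1⟩ := mod_RF r _ h1
  obtain ⟨e, s2, hs2, e2⟩ := mod_RF w _ h2
  -- the quotient by `[W, F]`
  have hnorm : (⁅NC w, (⊤ : Subgroup (FreeGroup (Fin n)))⁆).Normal := Subgroup.commutator_normal _ _
  let q : FreeGroup (Fin n) →* FreeGroup (Fin n) ⧸ ⁅NC w, (⊤ : Subgroup (FreeGroup (Fin n)))⁆ :=
    QuotientGroup.mk' _
  have hq : ∀ x, q x = 1 ↔ x ∈ ⁅NC w, (⊤ : Subgroup (FreeGroup (Fin n)))⁆ :=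
    fun x => QuotientGroup.eq_one_iff x
  have hqs : Function.Surjective q := QuotientGroup.mk'_surjective _
  have hcent : ∀ x ∈ NC w, q x ∈ Subgroup.center _ := by
    intro x hx
    rw [Subgroup.mem_center_iff]
    intro y
    obtain ⟨y, rfl⟩ := hqs y
    have h3 : q ⁅x, y⁆ = 1 := (hq _).2 (Subgroup.commutator_mem_commutator hx (Subgroup.mem_top y))
    rw [map_commutatorElement, commutatorElement_eq_one_iff_mul_comm] at h3
    exact h3.symm
  have h3 : q (η (α w)) = q w := by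
    refine eq_on_comm ((q.comp η).comp α) q (fun x => ?_) w hw
    show q (η (α x)) * (q x)⁻¹ ∈ _
    rw [← map_inv, ← map_mul]
    apply hcent
    rw [← mk_eq_one_iff, map_mul, hη, hα, hi, map_inv, mul_inv_cancel]
  have h4 : ∀ x ∈ ⁅NC r, (⊤ : Subgroup (FreeGroup (Fin k)))⁆, q (η x) = 1 := by
    intro x hx
    rw [hq]
    have h5 : (⁅NC r, (⊤ : Subgroup (FreeGroup (Fin k)))⁆).map η ≤
        ⁅NC w, (⊤ : Subgroup (FreeGroup (Fin n)))⁆ := by
      rw [Subgroup.map_commutator]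
      refine Subgroup.commutator_mono ?_ le_top
      rintro _ ⟨t, ht, rfl⟩
      rw [← mk_eq_one_iff, hη, (mk_eq_one_iff r t).2 ht, map_one]
    exact h5 ⟨x, hx, rfl⟩
  have h5 : q w ^ (e * d) = q w := by
    rw [e1, map_mul, map_mul, h4 s1 hs1, one_mul, map_zpow, e2, map_zpow, map_mul, (hq s2).2 hs2,
      one_mul, map_zpow, ← zpow_mul] at h3
    exact h3
  have h6 : e * d - 1 = 0 := by
    refine inf_order w hw1 _ ?_
    rw [← hq, map_zpow, zpow_sub, h5, zpow_one, mul_inv_cancel]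
  have h7 : d = 1 ∨ d = -1 := by
    have h8 : d ∣ 1 := ⟨e, by linarith⟩
    exact Int.isUnit_iff.1 (isUnit_of_dvd_one h8)
  rcases h7 with rfl | rfl
  · exact ⟨s1, hs1, Or.inl (by rw [e1, zpow_one])⟩
  · refine ⟨r * s1⁻¹ * r⁻¹, (Subgroup.commutator_normal _ _).conj_mem _ (Subgroup.inv_mem _ hs1) _,
      Or.inr ?_⟩
    rw [e1, zpow_neg, zpow_one]
    group

/-- Density of homomorphisms of degree one. -/
theorem dense_of_deg {k : ℕ} (hk : 2 ≤ k) (r : FreeGroup (Fin k)) (hr1 : r ≠ 1) (m : ℕ)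
    (H : ∀ N : Subgroup (OR r), N.Normal → N.FiniteIndex → HasRel m N)
    {G' : Type} [Group G'] (a : G' →* OR r) (s : FreeGroup (Fin k))
    (hs : s ∈ ⁅NC r, (⊤ : Subgroup (FreeGroup (Fin k)))⁆)
    (ha : s * r ∈ ⁅a.range.comap (PresentedGroup.mk ({r} : Set (FreeGroup (Fin k)))),
      a.range.comap (PresentedGroup.mk ({r} : Set (FreeGroup (Fin k))))⁆) :
    DenseHom a := by
  intro Q _ _ π hπ q
  have : Fintype Q := Fintype.ofFinite Q
  have hs' : Function.Surjective (π.comp (PresentedGroup.mk ({r} : Set (FreeGroup (Fin k))))) :=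
    hπ.comp (PresentedGroup.mk_surjective _)
  have hr : (π.comp (PresentedGroup.mk ({r} : Set (FreeGroup (Fin k))))) r = 1 := by
    show π (PresentedGroup.mk {r} r) = 1
    have h0 : PresentedGroup.mk ({r} : Set (FreeGroup (Fin k))) r = 1 :=
      PresentedGroup.one_of_mem (Set.mem_singleton r)
    rw [h0, map_one]
  have h1 := dens_deg hk r hr1 m H _ s hs ha _ hs' hr
  have h2 : q ∈ (a.range.comap (PresentedGroup.mk ({r} : Set (FreeGroup (Fin k))))).map
      (π.comp (PresentedGroup.mk ({r} : Set (FreeGroup (Fin k))))) := by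
    rw [h1]
    exact Subgroup.mem_top q
  obtain ⟨x, hx, rfl⟩ := h2
  obtain ⟨y, hy⟩ := hx
  refine ⟨y, ?_⟩
  show π (a y) = π (PresentedGroup.mk {r} x)
  rw [hy]

/-- Retracts with a relator in the commutator subgroup. -/
theorem retract_w {k n : ℕ} (hk : 2 ≤ k) (r : FreeGroup (Fin k)) (hr1 : r ≠ 1) (m : ℕ)
    (H : ∀ N : Subgroup (OR r), N.Normal → N.FiniteIndex → HasRel m N)
    (hRF : ∀ g : OR r, g ≠ 1 → ∃ U : Subgroup (OR r), U.FiniteIndex ∧ g ∉ U)
    (w : FreeGroup (Fin n)) (hw1 : w ≠ 1)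
    (hw : w ∈ ⁅(⊤ : Subgroup (FreeGroup (Fin n))), (⊤ : Subgroup (FreeGroup (Fin n)))⁆)
    (i : OR w →* OR r) (h : OR r →* OR w) (hi : ∀ x, h (i x) = x) : Function.Bijective h := by
  obtain ⟨α, hα⟩ := exists_lift w r i
  obtain ⟨s, hs, hd⟩ := retract_deg r w hw1 hw i h hi α hα
  refine bijective_of_dense (fg_OR r) hRF i (dense_of_deg hk r hr1 m H i s hs ?_) h
    (fun x => ⟨i x, hi x⟩)
  have h1 : α w ∈ ⁅i.range.comap (PresentedGroup.mk ({r} : Set (FreeGroup (Fin k)))),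
      i.range.comap (PresentedGroup.mk ({r} : Set (FreeGroup (Fin k))))⁆ := by
    have h2 : α w ∈ (⁅(⊤ : Subgroup (FreeGroup (Fin n))), (⊤ : Subgroup (FreeGroup (Fin n)))⁆).map α :=
      ⟨w, hw, rfl⟩
    rw [Subgroup.map_commutator] at h2
    refine Subgroup.commutator_mono ?_ ?_ h2 <;>
    · rintro _ ⟨x, _, rfl⟩
      exact ⟨PresentedGroup.mk {w} x, (hα x).symm⟩
  rcases hd with hd | hd
  · rw [← hd]
    exact h1
  · rw [← hd]
    exact Subgroup.inv_mem _ h1

end Pool.Agent.MelD
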