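import Pool.Agent.MelD.RigDef

/-!
# Crossed homomorphisms whose restrictions to the kernel are linearly independent

`Z = ker (ev (ind π 1) r)`, the values at the generators of the crossed homomorphisms of `G_r` with
values in `Q → K`.  Restriction: `v ↦ (h ↦ acoc π v h 1)`, `h ∈ ker π`.
If `acoc π v h 1 = 0` for all `h ∈ ker π`, then with `u q = acoc π v (s q) 1` (`s` a section of `π`)
`acoc π v x q = u (q * π x) - u q`, so `v j = (x_j - 1) u`; so the kernel of the restriction is the
image of `u ↦ (j ↦ (x_j - 1) u)`, whose kernel is the constants: it has dimension `|Q| - 1`.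
-/

open Finset Module

namespace Pool.Agent.MelD

/-- The values at the generators of the principal crossed homomorphisms. -/
def bd {K : Type} [Field K] {k : ℕ} {Q : Type} [Group Q] (π : FreeGroup (Fin k) →* Q) :
    (Q → K) →ₗ[K] (Fin k → Q → K) where
  toFun u := fun j q => u (q * π (FreeGroup.of j)) - u q
  map_add' := by
    intro a b; funext j q
    simp only [Pi.add_apply]
    ring
  map_smul' := by
    intro c a; funext j q
    simp only [Pi.smul_apply, smul_eq_mul, RingHom.id_apply]
    ring

theorem finrank_bd {K : Type} [Field K] {k : ℕ} {Q : Type} [Group Q] [Fintype Q]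
    (π : FreeGroup (Fin k) →* Q) :
    finrank K (LinearMap.range (bd (K := K) π)) ≤ Fintype.card Q - 1 := by
  have h1 := (bd (K := K) π).finrank_range_add_finrank_ker
  rw [Module.finrank_fintype_fun_eq_card] at h1
  have h2 : 0 < finrank K (LinearMap.ker (bd (K := K) π)) := by
    rw [Module.finrank_pos_iff_exists_ne_zero]
    refine ⟨⟨fun _ => 1, ?_⟩, ?_⟩
    · rw [LinearMap.mem_ker]
      funext j q
      show (1 : K) - 1 = 0
      ring
    · intro h
      have h3 := congrFun (congrArg Subtype.val h) 1
      exact one_ne_zero h3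
  omega

/-- Restriction to the kernel. -/
noncomputable def res {K : Type} [Field K] {k : ℕ} {Q : Type} [Group Q]
    (π : FreeGroup (Fin k) →* Q) : (Fin k → Q → K) →ₗ[K] (π.ker → K) where
  toFun v := fun h => acoc π v h.1 1
  map_add' := by
    intro a b
    funext h
    show acoc π (a + b) h.1 1 = acoc π a h.1 1 + acoc π b h.1 1
    unfold acoc
    rw [coc_eq_sum, coc_eq_sum, coc_eq_sum, ← Pi.add_apply, ← sum_add_distrib]
    simp only [Pi.add_apply, smul_add]
  map_smul' := by
    intro c a
    funext h
    show acoc π (c • a) h.1 1 = c * acoc π a h.1 1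
    have h1 := (ev (ind π (1 : FreeGroup (Fin k) →* Module.End K K)) h.1).map_smul c a
    exact congrFun h1 1

theorem res_apply {K : Type} [Field K] {k : ℕ} {Q : Type} [Group Q]
    (π : FreeGroup (Fin k) →* Q) (v : Fin k → Q → K) (h : π.ker) :
    res π v h = acoc π v h.1 1 := rfl

/-- A crossed homomorphism which restricts to zero is principal. -/
theorem mem_bd {K : Type} [Field K] {k : ℕ} {Q : Type} [Group Q]
    (π : FreeGroup (Fin k) →* Q) (hπ : Function.Surjective π) (v : Fin k → Q → K)
    (hv : res π v = 0) : v ∈ LinearMap.range (bd (K := K) π) := by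
  let s : Q → FreeGroup (Fin k) := Function.surjInv hπ
  have hs : ∀ q, π (s q) = q := Function.surjInv_eq hπ
  have key : ∀ x q, acoc π v x q = acoc π v (s (q * π x)) 1 - acoc π v (s q) 1 := by
    intro x q
    have h1 := acoc_mul π v (s q) x 1
    rw [one_mul, hs] at h1
    have h2 := acoc_mul π v (s q * x * (s (q * π x))⁻¹) (s (q * π x)) 1
    rw [inv_mul_cancel_right] at h2
    have h3 : π (s q * x * (s (q * π x))⁻¹) = 1 := by
      rw [map_mul, map_mul, map_inv, hs, hs, mul_inv_cancel]
    have h4 : acoc π v (s q * x * (s (q * π x))⁻¹) 1 = 0 :=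
      congrFun hv ⟨s q * x * (s (q * π x))⁻¹, h3⟩
    rw [h3, one_mul, h4, zero_add] at h2
    rw [← h2, h1]
    ring
  refine ⟨fun q => acoc π v (s q) 1, ?_⟩
  funext j q
  show acoc π v (s (q * π (FreeGroup.of j))) 1 - acoc π v (s q) 1 = v j q
  rw [← key]
  unfold acoc
  rw [coc_of]

theorem exists_coc {K : Type} [Field K] {k : ℕ} {Q : Type} [Group Q] [Fintype Q]
    (π : FreeGroup (Fin k) →* Q) (hπ : Function.Surjective π) (r : FreeGroup (Fin k)) :
    ∃ (N : ℕ) (v : Fin N → Fin k → Q → K),
      finrank K (LinearMap.ker (ev (ind π (1 : FreeGroup (Fin k) →* Module.End K K)) r)) ≤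
        N + (Fintype.card Q - 1) ∧
      (∀ i, acoc π (v i) r = 0) ∧
      (∀ c : Fin N → K, (∀ h, π h = 1 → ∑ i, c i * acoc π (v i) h 1 = 0) → c = 0) := by
  set Z := LinearMap.ker (ev (ind π (1 : FreeGroup (Fin k) →* Module.End K K)) r) with hZ
  set T := (res (K := K) π).comp Z.subtype with hT
  set A := LinearMap.range T with hA
  have hb := Module.finBasis K A
  have hex : ∀ i, ∃ z : Z, T z = (hb i : π.ker → K) := fun i => (hb i).2
  choose z hz using hex
  have h1 := T.finrank_range_add_finrank_ker
  have h2 : finrank K (LinearMap.ker T) ≤ Fintype.card Q - 1 := by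
    refine le_trans ?_ (finrank_bd (K := K) π)
    rw [← Submodule.finrank_map_subtype_eq Z (LinearMap.ker T)]
    apply Submodule.finrank_mono
    rintro _ ⟨x, hx, rfl⟩
    exact mem_bd π hπ _ hx
  refine ⟨finrank K A, fun i => (z i).1, ?_, ?_, ?_⟩
  · rw [← h1]
    exact Nat.add_le_add_left h2 _
  · intro i
    exact (z i).2
  · intro c hc
    have h3 : ∑ i, c i • hb i = 0 := by
      apply Subtype.ext
      funext h
      have h4 := hc h.1 h.2
      rw [Submodule.coe_sum, Finset.sum_apply]
      show ∑ i, c i * (hb i : π.ker → K) h = 0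
      rw [← h4]
      refine sum_congr rfl fun i _ => ?_
      rw [← hz i]
      rfl
    have h5 := Fintype.linearIndependent_iff.mp hb.linearIndependent c h3
    funext i
    exact h5 i

end Pool.Agent.MelD
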