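import Pool.Agent.MelD.Ext

/-!
# Stable finiteness of `ℤ[L]`, `L` free

`M B = 1` implies `B M = 1` for square matrices over `ℤ[L]`: `L` is residually finite (`exists_T` for the
group algebra over the field with two elements), so some nonzero coefficient of a nonzero entry of
`B M - 1` survives in the group algebra of a finite group over `ℤ/N`, and finite rings are stably
finite.
-/

open Finset

namespace Pool.Agent.MelD

/-- Free groups are residually finite. -/
theorem resfin_free {l : ℕ} (S : Finset (FreeGroup (Fin l))) :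
    ∃ (Q : Type) (_ : Group Q) (_ : Fintype Q) (κ : FreeGroup (Fin l) →* Q), Set.InjOn κ S := by
  classical
  obtain ⟨V, T, e₀, hfin, he, hT⟩ := exists_T (K := ZMod 2)
    (⊥ : Submodule (ZMod 2) (MonoidAlgebra (ZMod 2) (FreeGroup (Fin l))))
    (fun x hx y => by
      rw [Submodule.mem_bot] at hx ⊢
      rw [hx, zero_mul]) S
  have h1 := hfin
  have h2 : Finite V := Module.finite_of_finite (ZMod 2)
  have h3 : Finite (V ≃ₗ[ZMod 2] V) :=
    Finite.of_injective (fun e : V ≃ₗ[ZMod 2] V => (e : V → V)) DFunLike.coe_injective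
  refine ⟨V ≃ₗ[ZMod 2] V, inferInstance, Fintype.ofFinite _, T, ?_⟩
  intro s hs s' hs' hss
  have h4 : T s⁻¹ = T s'⁻¹ := by rw [map_inv, map_inv, hss]
  have h5 := hT s hs
  rw [h4, hT s' hs'] at h5
  rw [Submodule.mkQ_apply, Submodule.mkQ_apply, Submodule.Quotient.eq, Submodule.mem_bot, sub_eq_zero] at h5
  exact ((MonoidAlgebra.single_left_inj (one_ne_zero : (1 : ZMod 2) ≠ 0)).mp h5).symm

theorem mul_eq_one_comm_free {l g : ℕ}
    (M B : Matrix (Fin g) (Fin g) (MonoidAlgebra ℤ (FreeGroup (Fin l)))) (h : M * B = 1) :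
    B * M = 1 := by
  classical
  by_contra hne
  obtain ⟨i, j, hij⟩ : ∃ i j, (B * M - 1) i j ≠ 0 := by
    by_contra hcon
    push Not at hcon
    apply hne
    rw [← sub_eq_zero]
    ext i j : 2
    rw [hcon i j, Matrix.zero_apply]
  set x := (B * M - 1) i j with hx
  obtain ⟨g₀, hg₀⟩ : ∃ g₀, x.coeff g₀ ≠ 0 := by
    by_contra hcon
    push Not at hcon
    apply hij
    rw [← MonoidAlgebra.coeff_eq_zero]
    ext g
    rw [hcon g, Finsupp.zero_apply]
  obtain ⟨Q, iQ, iF, κ, hκ⟩ := resfin_free (insert g₀ x.coeff.support)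
  set N : ℕ := (x.coeff g₀).natAbs + 1 with hN
  have hNz : NeZero N := ⟨by omega⟩
  have hfin : Finite (MonoidAlgebra (ZMod N) Q) :=
    Finite.of_equiv (Q →₀ ZMod N) MonoidAlgebra.coeffEquiv.symm
  let f : MonoidAlgebra ℤ (FreeGroup (Fin l)) →+* MonoidAlgebra (ZMod N) Q :=
    (MonoidAlgebra.mapDomainRingHom (ZMod N) κ).comp
      (MonoidAlgebra.mapRingHom (FreeGroup (Fin l)) (Int.castRingHom (ZMod N)))
  have h1 : f.mapMatrix M * f.mapMatrix B = 1 := by rw [← map_mul, h, map_one]
  have h2 : f.mapMatrix B * f.mapMatrix M = 1 := mul_eq_one_comm.mp h1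
  have h3 : f x = 0 := by
    have h4 : f.mapMatrix (B * M - 1) = 0 := by rw [map_sub, map_mul, h2, map_one, sub_self]
    have h5 := congrFun (congrFun h4 i) j
    rw [Matrix.zero_apply] at h5
    exact h5
  have h6 : (f x).coeff (κ g₀) = ((x.coeff g₀ : ℤ) : ZMod N) := by
    have h7 : (f x).coeff = Finsupp.mapDomain κ
        (MonoidAlgebra.mapRingHom (FreeGroup (Fin l)) (Int.castRingHom (ZMod N)) x).coeff := rfl
    rw [h7, Finsupp.mapDomain_apply' (insert g₀ x.coeff.support : Finset _) _ ?_ hκ (by simp)]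
    · rw [MonoidAlgebra.coeff_mapRingHom]
      rfl
    · intro y hy
      rw [Finset.mem_coe, Finsupp.mem_support_iff, MonoidAlgebra.coeff_mapRingHom] at hy
      rw [Finset.mem_coe]
      refine Finset.mem_insert_of_mem (Finsupp.mem_support_iff.mpr fun h0 => hy ?_)
      rw [h0, map_zero]
  rw [h3, MonoidAlgebra.coeff_zero, Finsupp.zero_apply] at h6
  have h8 : (N : ℤ) ∣ x.coeff g₀ := (ZMod.intCast_zmod_eq_zero_iff_dvd _ _).mp h6.symm
  have h9 := Int.natAbs_dvd_natAbs.mpr h8
  rw [Int.natAbs_natCast] at h9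
  have h10 := Nat.le_of_dvd (Int.natAbs_pos.mpr hg₀) h9
  omega

end Pool.Agent.MelD
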