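import Pool.Agent.MelD.ChiDef
import Pool.Agent.MelD.Shap

/-!
# Homomorphisms of the finite index normal subgroups to a finite ring

`indR A π`: the action `(g f) q = f (q * π g)` on the functions `Q → A`, `A` a commutative ring.
`card_hom_ker`: for `π' : G_r → Q` onto a finite group and a finite commutative ring `A`, the number of
homomorphisms of `ker π'` to the additive group of `A`, times `|A| ^ (|Q| - 1)`, times the order of the range of
`v ↦ coc (indR A π) v r` is `|A| ^ (k |Q|)`.

Proof.  The same as `shapiro` (Shap.lean) and `finrank_Z1_OR` (Coc.lean), with cardinalities in place of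
dimensions: crossed homomorphisms `c : G_r → (Q → A)` are the `v : Fin k → Q → A` with `coc (indR A π) v r = 0`,
so their number times the order of the range is `|A| ^ (k |Q|)`; and they correspond bijectively to the pairs of a
homomorphism `ker π' → A` and a function `{q // q ≠ 1} → A`.
-/

open Finset Module

namespace Pool.Agent.MelD

/-- The coinduced representation over a commutative ring. -/
def indR (A : Type) [CommRing A] {G Q : Type} [Group G] [Group Q] (π : G →* Q) :
    G →* Module.End A (Q → A) where
  toFun g :=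
    { toFun := fun f q => f (q * π g)
      map_add' := fun _ _ => rfl
      map_smul' := fun _ _ => rfl }
  map_one' := by
    ext f q
    simp
  map_mul' := by
    intro a b
    apply LinearMap.ext
    intro f
    funext q
    show f (q * π (a * b)) = f (q * π a * π b)
    rw [map_mul, mul_assoc]

theorem indR_apply (A : Type) [CommRing A] {G Q : Type} [Group G] [Group Q] (π : G →* Q) (g : G)
    (f : Q → A) (q : Q) : indR A π g f q = f (q * π g) := rfl

/-- The range of the evaluation at `r`. -/
def rangeR {k : ℕ} (r : FreeGroup (Fin k)) (A : Type) [CommRing A] {Q : Type} [Group Q]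
    (π : FreeGroup (Fin k) →* Q) : Set (Q → A) :=
  Set.range fun v : Fin k → Q → A => coc (indR A π) v r

namespace ShapR

section cross

variable {A : Type} [CommRing A] {G Q : Type} [Group G] [Group Q]

/-- Crossed homomorphisms with values in `Q → A`. -/
def Cr (A : Type) [CommRing A] (π : G →* Q) : Type :=
  {c : G → Q → A // ∀ g h q, c (g * h) q = c g q + c h (q * π g)}

theorem Cr.one {π : G →* Q} (c : Cr A π) (q : Q) : c.1 1 q = 0 := by
  have h := c.2 1 1 q
  rw [mul_one, map_one, mul_one] at h
  exact left_eq_add.mp h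

/-- The restriction to the kernel and the values at the section. -/
def phi (π : G →* Q) (s : Q → G) (c : Cr A π) : (π.ker →* Multiplicative A) × ({q : Q // q ≠ 1} → A) :=
  ({ toFun := fun h => Multiplicative.ofAdd (c.1 h.1 1)
     map_one' := by
      show Multiplicative.ofAdd (c.1 1 1) = 1
      rw [c.one]
      rfl
     map_mul' := by
      intro a b
      have h1 := c.2 a.1 b.1 1
      have h2 : π a.1 = 1 := a.2
      rw [h2, mul_one] at h1
      show Multiplicative.ofAdd (c.1 (a.1 * b.1) 1) = Multiplicative.ofAdd (c.1 a.1 1) * Multiplicative.ofAdd (c.1 b.1 1)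
      rw [h1]
      rfl }, fun q => c.1 (s q.1) 1)

/-- The key formula. -/
theorem formula {π : G →* Q} {s : Q → G} (hs : ∀ q, π (s q) = q) (c : Cr A π) (g : G) (q : Q) :
    c.1 (s q) 1 + c.1 g q = c.1 (s q * g * (s (q * π g))⁻¹) 1 + c.1 (s (q * π g)) 1 := by
  have h1 := c.2 (s q) g 1
  have h2 := c.2 (s q * g * (s (q * π g))⁻¹) (s (q * π g)) 1
  have h3 : π (s q * g * (s (q * π g))⁻¹) = 1 := by
    rw [map_mul, map_mul, map_inv, hs, hs, mul_inv_cancel]
  rw [one_mul, hs] at h1
  rw [inv_mul_cancel_right, h3, mul_one] at h2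
  rw [← h1, ← h2]

theorem phi_inj {π : G →* Q} {s : Q → G} (hs : ∀ q, π (s q) = q) (hs1 : s 1 = 1) :
    Function.Injective (phi (A := A) π s) := by
  intro c d hcd
  have h1 : ∀ h : G, π h = 1 → c.1 h 1 = d.1 h 1 := by
    intro h hh
    have e := DFunLike.congr_fun (congrArg Prod.fst hcd) (⟨h, hh⟩ : π.ker)
    exact congrArg Multiplicative.toAdd e
  have h2 : ∀ q, c.1 (s q) 1 = d.1 (s q) 1 := by
    intro q
    by_cases hq : q = 1
    · subst hq
      rw [hs1, c.one, d.one]
    · exact congrFun (congrArg Prod.snd hcd) ⟨q, hq⟩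
  apply Subtype.ext
  funext g q
  have h3 : π (s q * g * (s (q * π g))⁻¹) = 1 := by
    rw [map_mul, map_mul, map_inv, hs, hs, mul_inv_cancel]
  have e1 := formula hs c g q
  have e2 := formula hs d g q
  rw [h1 _ h3, h2, h2, ← e2] at e1
  exact add_left_cancel e1

open Classical in
theorem phi_surj {π : G →* Q} {s : Q → G} (hs : ∀ q, π (s q) = q) (hs1 : s 1 = 1) :
    Function.Surjective (phi (A := A) π s) := by
  rintro ⟨f, w⟩
  let v : Q → A := fun q => if h : q ≠ 1 then w ⟨q, h⟩ else 0
  let F : G → A := fun g => if h : g ∈ π.ker then Multiplicative.toAdd (f ⟨g, h⟩) else 0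
  have hv1 : v 1 = 0 := by simp [v]
  have hF : ∀ (g : G) (h : g ∈ π.ker), F g = Multiplicative.toAdd (f ⟨g, h⟩) := by
    intro g h
    simp only [F, dif_pos h]
  have hFm : ∀ a b : G, a ∈ π.ker → b ∈ π.ker → F (a * b) = F a + F b := by
    intro a b ha hb
    rw [hF a ha, hF b hb, hF (a * b) (mul_mem ha hb)]
    have e : (⟨a * b, mul_mem ha hb⟩ : π.ker) = ⟨a, ha⟩ * ⟨b, hb⟩ := rfl
    rw [e, map_mul]
    rfl
  have hF1 : F 1 = 0 := by
    have h1 := hFm 1 1 (one_mem _) (one_mem _)
    rw [mul_one] at h1
    exact left_eq_add.mp h1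
  let η : G → Q → G := fun g q => s q * g * (s (q * π g))⁻¹
  have hη : ∀ g q, η g q ∈ π.ker := by
    intro g q
    show π (s q * g * (s (q * π g))⁻¹) = 1
    rw [map_mul, map_mul, map_inv, hs, hs, mul_inv_cancel]
  refine ⟨⟨fun g q => F (η g q) + v (q * π g) - v q, ?_⟩, ?_⟩
  · intro a b q
    show F (η (a * b) q) + v (q * π (a * b)) - v q =
      (F (η a q) + v (q * π a) - v q) + (F (η b (q * π a)) + v (q * π a * π b) - v (q * π a))
    have h1 : η (a * b) q = η a q * η b (q * π a) := by
      show s q * (a * b) * (s (q * π (a * b)))⁻¹ =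
        s q * a * (s (q * π a))⁻¹ * (s (q * π a) * b * (s (q * π a * π b))⁻¹)
      rw [map_mul, ← mul_assoc q]
      group
    rw [h1, hFm _ _ (hη _ _) (hη _ _), map_mul, ← mul_assoc q]
    abel
  · apply Prod.ext
    · apply MonoidHom.ext
      intro h
      show Multiplicative.ofAdd (F (η h.1 1) + v (1 * π h.1) - v 1) = f h
      have h3 : π h.1 = 1 := h.2
      have h4 : η h.1 1 = h.1 := by
        show s 1 * h.1 * (s (1 * π h.1))⁻¹ = h.1
        rw [h3, one_mul, hs1, one_mul, inv_one, mul_one]
      rw [h4, h3, one_mul, hv1, add_zero, sub_zero, hF h.1 h.2]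
      rfl
    · funext q
      show F (η (s q.1) 1) + v (1 * π (s q.1)) - v 1 = w q
      have h4 : η (s q.1) 1 = 1 := by
        show s 1 * s q.1 * (s (1 * π (s q.1)))⁻¹ = 1
        rw [hs, one_mul, hs1, one_mul, mul_inv_cancel]
      rw [h4, hs, one_mul, hv1, hF1, zero_add, sub_zero]
      simp only [v, dif_pos q.2]

/-- Shapiro's lemma with cardinalities. -/
theorem card_Cr [Fintype Q] (π : G →* Q) (hπ : Function.Surjective π) :
    Nat.card (Cr A π) = Nat.card (π.ker →* Multiplicative A) * Nat.card A ^ (Fintype.card Q - 1) := by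
  classical
  let s : Q → G := fun q => if q = 1 then 1 else Function.surjInv hπ q
  have hs : ∀ q, π (s q) = q := by
    intro q
    by_cases hq : q = 1
    · subst hq
      show π (if (1 : Q) = 1 then 1 else Function.surjInv hπ 1) = 1
      rw [if_pos rfl, map_one]
    · simp only [s, if_neg hq]
      exact Function.surjInv_eq hπ q
  have hs1 : s 1 = 1 := if_pos rfl
  rw [Nat.card_congr (Equiv.ofBijective (phi (A := A) π s) ⟨phi_inj hs hs1, phi_surj hs hs1⟩), Nat.card_prod,
    Nat.card_fun, Nat.card_eq_fintype_card (α := {q : Q // q ≠ 1}), Fintype.card_subtype_compl,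
    Fintype.card_subtype_eq]

end cross

section one

variable {k : ℕ} {r : FreeGroup (Fin k)} {Q : Type} [Group Q] {A : Type} [CommRing A]

/-- The values of a crossed homomorphism at the generators. -/
theorem coc_mk (π' : OR r →* Q) (c : Cr A π') (g : FreeGroup (Fin k)) :
    c.1 (PresentedGroup.mk {r} g) = coc (indR A (π'.comp (PresentedGroup.mk {r})))
      (fun j => c.1 (PresentedGroup.mk {r} (FreeGroup.of j))) g := by
  refine coc_unique (indR A (π'.comp (PresentedGroup.mk {r}))) (fun g => c.1 (PresentedGroup.mk {r} g)) _ ?_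
    (coc_mul _ _) ?_ g
  · intro a b
    funext q
    show c.1 (PresentedGroup.mk {r} (a * b)) q = _
    rw [map_mul, c.2]
    rfl
  · intro j
    show c.1 (PresentedGroup.mk {r} (FreeGroup.of j)) = _
    rw [coc_of]

/-- The values at the generators, with the relation. -/
def psi (π' : OR r →* Q) (c : Cr A π') :
    {v : Fin k → Q → A // coc (indR A (π'.comp (PresentedGroup.mk {r}))) v r = 0} :=
  ⟨fun j => c.1 (PresentedGroup.mk {r} (FreeGroup.of j)), by
    rw [← coc_mk π' c r]
    have h1 : PresentedGroup.mk ({r} : Set (FreeGroup (Fin k))) r = 1 := PresentedGroup.one_of_mem (Set.mem_singleton r)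
    rw [h1]
    funext q
    exact c.one q⟩

theorem psi_inj (π' : OR r →* Q) : Function.Injective (psi (A := A) π') := by
  intro c d hcd
  have h1 : (fun j => c.1 (PresentedGroup.mk {r} (FreeGroup.of j))) =
      fun j => d.1 (PresentedGroup.mk {r} (FreeGroup.of j)) := congrArg Subtype.val hcd
  apply Subtype.ext
  funext g
  obtain ⟨g, rfl⟩ := PresentedGroup.mk_surjective _ g
  rw [coc_mk π' c g, coc_mk π' d g, h1]

theorem psi_surj (π' : OR r →* Q) : Function.Surjective (psi (A := A) π') := by
  rintro ⟨v, hv⟩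
  set π := π'.comp (PresentedGroup.mk {r}) with hπ
  have hr : π r = 1 := by
    show π' (PresentedGroup.mk {r} r) = 1
    have h1 : PresentedGroup.mk ({r} : Set (FreeGroup (Fin k))) r = 1 := PresentedGroup.one_of_mem (Set.mem_singleton r)
    rw [h1, map_one]
  have h0 : aff (indR A π) v r = 1 := by
    apply Equiv.ext
    intro x
    rw [aff_apply, hv, zero_add]
    funext q
    show x (q * π r) = x q
    rw [hr, mul_one]
  obtain ⟨f, hf⟩ := exists_desc r (aff (indR A π) v) h0
  have hfm : ∀ g, f (PresentedGroup.mk {r} g) = aff (indR A π) v g := fun g => DFunLike.congr_fun hf g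
  have hf0 : ∀ g, f (PresentedGroup.mk {r} g) 0 = coc (indR A π) v g := by
    intro g
    rw [hfm, aff_apply, smul_zero, add_zero]
  refine ⟨⟨fun g => f g 0, ?_⟩, ?_⟩
  · intro a b q
    obtain ⟨a, rfl⟩ := PresentedGroup.mk_surjective _ a
    obtain ⟨b, rfl⟩ := PresentedGroup.mk_surjective _ b
    show f (PresentedGroup.mk {r} a * PresentedGroup.mk {r} b) 0 q =
      f (PresentedGroup.mk {r} a) 0 q + f (PresentedGroup.mk {r} b) 0 (q * π a)
    rw [← map_mul, hf0, hf0, hf0, coc_mul]
    rfl
  · apply Subtype.ext
    funext j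
    show f (PresentedGroup.mk {r} (FreeGroup.of j)) 0 = v j
    rw [hf0, coc_of]

/-- Crossed homomorphisms times the range. -/
theorem card_Cr_mul [Finite Q] (π' : OR r →* Q) [Finite A] :
    Nat.card (Cr A π') * Nat.card (rangeR r A (π'.comp (PresentedGroup.mk {r}))) =
      Nat.card A ^ (k * Nat.card Q) := by
  classical
  set π := π'.comp (PresentedGroup.mk {r}) with hπ
  -- the evaluation as a linear map
  let E : (Fin k → Q → A) →ₗ[A] (Q → A) :=
    { toFun := fun v => coc (indR A π) v r
      map_add' := by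
        intro a b
        simp only [coc_eq_sum, Pi.add_apply, smul_add, sum_add_distrib]
      map_smul' := by
        intro c a
        simp only [coc_eq_sum, Pi.smul_apply, RingHom.id_apply, smul_sum]
        refine sum_congr rfl fun j _ => ?_
        exact (fox (indR A π) j r).map_smul c (a j) }
  have h1 : Nat.card (Cr A π') = Nat.card (LinearMap.ker E) :=
    Nat.card_congr ((Equiv.ofBijective (psi (A := A) π') ⟨psi_inj π', psi_surj π'⟩).trans
      (Equiv.subtypeEquivRight fun v => by
        rw [LinearMap.mem_ker]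
        rfl))
  have h2 : Nat.card (rangeR r A π) = Nat.card (LinearMap.range E) := by
    refine Nat.card_congr (Equiv.subtypeEquivRight fun x => ?_)
    rw [LinearMap.mem_range]
    rfl
  have h3 := Submodule.card_eq_card_quotient_mul_card (LinearMap.ker E)
  have h4 : Nat.card ((Fin k → Q → A) ⧸ LinearMap.ker E) = Nat.card (LinearMap.range E) :=
    Nat.card_congr E.quotKerEquivRange.toEquiv
  have h5 : Nat.card (Fin k → Q → A) = Nat.card A ^ (k * Nat.card Q) := by
    rw [Nat.card_fun, Nat.card_fun, Nat.card_fin, ← pow_mul, mul_comm]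
  rw [h1, h2, ← h5, h3, h4]

end one

end ShapR

open ShapR in
theorem card_hom_ker {k : ℕ} (r : FreeGroup (Fin k)) {Q : Type} [Group Q] [Fintype Q]
    (π' : OR r →* Q) (hπ : Function.Surjective π') (A : Type) [CommRing A] [Finite A] :
    Nat.card (π'.ker →* Multiplicative A) * Nat.card A ^ (Fintype.card Q - 1) *
      Nat.card (rangeR r A (π'.comp (PresentedGroup.mk {r}))) = Nat.card A ^ (k * Fintype.card Q) := by
  rw [← card_Cr (A := A) π' hπ, card_Cr_mul, Nat.card_eq_fintype_card (α := Q)]

end Pool.Agent.MelD
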