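import Pool.Agent.MelD.Uni
import Pool.Agent.MelD.MemQ
import Pool.Agent.MelD.SFin
import Pool.Agent.MelD.RFox
import Pool.Agent.MelD.NabG

/-!
# The surface case

`k = 2 g`, `g ≥ 2`, `r` in `N ∩ [F, F]`, `N` the normal closure of the last `g` generators.
-/

open Finset Module

namespace Pool.Agent.MelD

open Pool.Agent.MelG (HasRel)

theorem RI_mem {K : Type} [Field K] {k : ℕ} {A : Type} [Ring A] [Algebra K A] (E : Fin k → A)
    (j : Fin k) (y : A) : E j * y ∈ RI (K := K) E := Submodule.subset_span ⟨j, y, rfl⟩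

theorem killQ_surj (l q : ℕ) : Function.Surjective (killQ l q) := by
  intro w
  induction w using FreeGroup.induction_on with
  | C1 => exact ⟨1, map_one _⟩
  | of i =>
    refine ⟨FreeGroup.of (Fin.castAdd q i), ?_⟩
    unfold killQ
    rw [FreeGroup.lift_apply_of, Fin.addCases_left]
  | inv_of i h =>
    obtain ⟨a, ha⟩ := h
    exact ⟨a⁻¹, by rw [map_inv, ha]⟩
  | mul a b ha hb =>
    obtain ⟨a', ha'⟩ := ha
    obtain ⟨b', hb'⟩ := hb
    exact ⟨a' * b', by rw [map_mul, ha', hb']⟩

/-- The derivatives with respect to the first generators factor through `L`. -/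
theorem fox_castAdd {K : Type} [CommRing K] {l q : ℕ} (i : Fin l) (w : FreeGroup (Fin (l + q))) :
    fox ((MonoidAlgebra.of K (FreeGroup (Fin l))).comp (killQ l q)) (Fin.castAdd q i) w =
      fox (MonoidAlgebra.of K (FreeGroup (Fin l))) i (killQ l q w) := by
  refine coc_unique ((MonoidAlgebra.of K (FreeGroup (Fin l))).comp (killQ l q))
    (fox ((MonoidAlgebra.of K (FreeGroup (Fin l))).comp (killQ l q)) (Fin.castAdd q i))
    (fun w => fox (MonoidAlgebra.of K (FreeGroup (Fin l))) i (killQ l q w)) ?_ ?_ ?_ w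
  · intro a b
    rw [fox_mul]
    rfl
  · intro a b
    show fox _ i (killQ l q (a * b)) = _
    rw [map_mul, fox_mul]
    rfl
  · intro j
    show fox _ _ (FreeGroup.of j) = fox _ i (killQ l q (FreeGroup.of j))
    rw [fox_of]
    unfold killQ
    rw [FreeGroup.lift_apply_of]
    induction j using Fin.addCases with
    | left j =>
      rw [Fin.addCases_left, fox_of]
      by_cases h : j = i
      · rw [if_pos h, if_pos (by rw [h])]
      · rw [if_neg h, if_neg (by
          intro h'
          exact h (Fin.castAdd_injective l q h'))]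
    | right j =>
      rw [Fin.addCases_right]
      have h1 : fox (MonoidAlgebra.of K (FreeGroup (Fin l))) i (1 : FreeGroup (Fin l)) = 0 := by
        unfold fox
        exact coc_one _ _
      rw [h1, if_neg]
      intro h'
      have := congrArg Fin.val h'
      simp at this
      omega

/-- The fox derivatives of elements of the commutator subgroup have augmentation zero. -/
theorem aug_fox {K : Type} [CommRing K] {k : ℕ} {L : Type} [Group L]
    (φ : FreeGroup (Fin k) →* L) (j : Fin k) (r : FreeGroup (Fin k))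
    (hr : r ∈ commutator (FreeGroup (Fin k))) :
    MonoidAlgebra.lift K K L (1 : L →* K) (fox ((MonoidAlgebra.of K L).comp φ) j r) = 0 := by
  have h1 := map_fox ((MonoidAlgebra.lift K K L (1 : L →* K) : MonoidAlgebra K L →ₐ[K] K) :
    MonoidAlgebra K L →+* K) ((MonoidAlgebra.of K L).comp φ) j r
  have h2 : (((MonoidAlgebra.lift K K L (1 : L →* K) : MonoidAlgebra K L →ₐ[K] K) :
    MonoidAlgebra K L →+* K) : MonoidAlgebra K L →* K).comp ((MonoidAlgebra.of K L).comp φ) = 1 := by
    apply MonoidHom.ext
    intro g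
    show MonoidAlgebra.lift K K L (1 : L →* K) (MonoidAlgebra.of K L (φ g)) = 1
    rw [MonoidAlgebra.lift_of]
    rfl
  rw [h2] at h1
  refine h1.trans ?_
  -- the additive homomorphism
  let χ : FreeGroup (Fin k) →* Multiplicative K :=
    { toFun := fun w => Multiplicative.ofAdd (fox (1 : FreeGroup (Fin k) →* K) j w)
      map_one' := by
        have : fox (1 : FreeGroup (Fin k) →* K) j 1 = 0 := by
          unfold fox
          exact coc_one _ _
        rw [this]
        rfl
      map_mul' := by
        intro a b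
        rw [fox_mul, MonoidHom.one_apply, one_mul]
        rfl }
  have h3 : χ r = 1 := by
    have h4 : commutator (FreeGroup (Fin k)) ≤ χ.ker := Abelianization.commutator_subset_ker χ
    exact h4 hr
  exact h3

theorem surf {g : ℕ} (hg : 2 ≤ g) (r : FreeGroup (Fin (g + g))) (hr1 : r ≠ 1) (hN : r ∈ NQ g g)
    (hc : r ∈ commutator (FreeGroup (Fin (g + g)))) (m : ℕ)
    (H : HL m (killQ g g) r) :
    ∃ w : Fin g → FreeGroup (Fin (g + g)), (∀ i, w i ∈ NQ g g) ∧
      NQ g g = Subgroup.normalClosure (Set.range w) ⊔ ⁅NQ g g, NQ g g⁆ ∧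
      r * (List.ofFn (fun i : Fin g => FreeGroup.of (Fin.castAdd g i) * w i *
        (FreeGroup.of (Fin.castAdd g i))⁻¹ * (w i)⁻¹)).prod⁻¹ ∈ ⁅NQ g g, NQ g g⁆ := by
  classical
  have hφr : killQ g g r = 1 := (killQ_NQ r).mp hN
  -- the derivatives modulo `p`
  have hp : ∀ (p : ℕ) (_ : Fact p.Prime) (i : Fin g),
      ∃ y : Fin g → MonoidAlgebra (ZMod p) (FreeGroup (Fin g)),
      ∑ j, MonoidAlgebra.mapRingHom (FreeGroup (Fin g)) (Int.castRingHom (ZMod p)) (DQ g g j r) * y j =
        MonoidAlgebra.of (ZMod p) (FreeGroup (Fin g)) (FreeGroup.of i) - 1 := by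
    intro p _ i
    set K := ZMod p
    have hrank : Module.rank K (MonoidAlgebra K (FreeGroup (Fin g)) ⧸ RI (K := K) (fun j =>
        fox ((MonoidAlgebra.of K (FreeGroup (Fin g))).comp (killQ g g)) j r)) ≤ 1 := by
      obtain ⟨c, hc1, hc2⟩ := finrank_bound r hr1 (killQ g g) (killQ_surj g g) (by omega) hφr m H K
      rw [hc1]
      have hc3 : c ≤ 1 := by
        by_contra hne
        obtain ⟨d, rfl⟩ : ∃ d, c = d + 2 := ⟨c - 2, by omega⟩
        have h1 : 2 * d ≤ g * d := Nat.mul_le_mul_right d hg
        rw [mul_add] at hc2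
        omega
      rw [← Nat.cast_one]
      exact Nat.cast_le.mpr hc3
    set E : Fin (g + g) → MonoidAlgebra K (FreeGroup (Fin g)) :=
      fun j => fox ((MonoidAlgebra.of K (FreeGroup (Fin g))).comp (killQ g g)) j r with hE
    -- the augmentation kills `RI E`
    set ε : MonoidAlgebra K (FreeGroup (Fin g)) →ₐ[K] K :=
      MonoidAlgebra.lift K K (FreeGroup (Fin g)) (1 : FreeGroup (Fin g) →* K) with hε
    have hεE : ∀ x ∈ RI (K := K) E, ε x = 0 := by
      intro x hx
      obtain ⟨y, rfl⟩ := mem_RI E hx
      rw [map_sum]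
      refine sum_eq_zero fun j _ => ?_
      rw [map_mul, hε, hE]
      simp only
      rw [aug_fox (killQ g g) j r hc, zero_mul]
    set x : MonoidAlgebra K (FreeGroup (Fin g)) :=
      MonoidAlgebra.of K (FreeGroup (Fin g)) (FreeGroup.of i) - 1 with hx
    have hεx : ε x = 0 := by
      rw [hx, map_sub, map_one, hε, MonoidAlgebra.lift_of]
      simp
    have hxR : x ∈ RI (K := K) E := by
      by_contra hcon
      -- the classes of `1` and `x` are linearly independent
      have hli : LinearIndependent K ![(RI (K := K) E).mkQ 1, (RI (K := K) E).mkQ x] := by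
        rw [LinearIndependent.pair_iff]
        intro s t hst
        rw [← map_smul, ← map_smul, ← map_add, Submodule.mkQ_apply, Submodule.Quotient.mk_eq_zero] at hst
        have h1 := hεE _ hst
        rw [map_add, map_smul, map_smul, map_one, hεx, smul_zero, add_zero, smul_eq_mul, mul_one] at h1
        subst h1
        rw [zero_smul, zero_add] at hst
        refine ⟨rfl, ?_⟩
        by_contra ht
        apply hcon
        have := (RI (K := K) E).smul_mem t⁻¹ hst
        rwa [smul_smul, inv_mul_cancel₀ ht, one_smul] at this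
      have h2 := hli.cardinal_lift_le_rank
      simp only [Cardinal.mk_fin, Cardinal.lift_id] at h2
      have h3 : ((2 : ℕ) : Cardinal) ≤ ((1 : ℕ) : Cardinal) := by
        rw [Nat.cast_one]
        exact h2.trans hrank
      exact absurd (Nat.cast_le.mp h3) (by norm_num)
    obtain ⟨y, hy⟩ := mem_RI E hxR
    refine ⟨fun j => y (Fin.natAdd g j), ?_⟩
    rw [← hy, Fin.sum_univ_add]
    have h4 : ∑ i : Fin g, E (Fin.castAdd g i) * y (Fin.castAdd g i) = 0 := by
      refine sum_eq_zero fun i _ => ?_
      rw [hE]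
      simp only
      rw [fox_castAdd, hφr]
      have h5 : fox (MonoidAlgebra.of K (FreeGroup (Fin g))) i (1 : FreeGroup (Fin g)) = 0 := by
        unfold fox
        exact coc_one _ _
      rw [h5, zero_mul]
    rw [h4, zero_add]
    refine sum_congr rfl fun j _ => ?_
    congr 1
    unfold DQ
    have h6 := map_fox (MonoidAlgebra.mapRingHom (FreeGroup (Fin g)) (Int.castRingHom K))
      ((MonoidAlgebra.of ℤ (FreeGroup (Fin g))).comp (killQ g g)) (Fin.natAdd g j) r
    rw [h6]
    congr 1
    apply MonoidHom.ext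
    intro w
    show MonoidAlgebra.mapRingHom (FreeGroup (Fin g)) (Int.castRingHom K)
      (MonoidAlgebra.of ℤ (FreeGroup (Fin g)) (killQ g g w)) = _
    rw [MonoidAlgebra.of_apply, MonoidAlgebra.mapRingHom_single, map_one]
    rfl
  have haug : ∀ j, aug g (DQ g g j r) = 0 := fun j => aug_fox (killQ g g) (Fin.natAdd g j) r hc
  have hb := int_aug (fun j => DQ g g j r) haug hp
  choose b hb using hb
  have hm := fun j => right_span (DQ g g j r) (haug j)
  choose a ha using hm
  -- `M i j = a j i`, `B j i = b i j`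
  set M : Matrix (Fin g) (Fin g) (MonoidAlgebra ℤ (FreeGroup (Fin g))) := fun i j => a j i with hM
  set B : Matrix (Fin g) (Fin g) (MonoidAlgebra ℤ (FreeGroup (Fin g))) := fun j i => b i j with hB
  have hMB : M * B = 1 := by
    ext1 i' i
    have h1 : (fun i' => (M * B) i' i - (1 : Matrix (Fin g) (Fin g) _) i' i) = 0 := by
      apply right_indep
      simp only [mul_sub, sum_sub_distrib]
      rw [sub_eq_zero]
      have h2 : ∑ x, (MonoidAlgebra.of ℤ (FreeGroup (Fin g)) (FreeGroup.of x) - 1) *
          (1 : Matrix (Fin g) (Fin g) (MonoidAlgebra ℤ (FreeGroup (Fin g)))) x i =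
          MonoidAlgebra.of ℤ (FreeGroup (Fin g)) (FreeGroup.of i) - 1 := by
        rw [sum_eq_single i]
        · rw [Matrix.one_apply_eq, mul_one]
        · intro x _ hx
          rw [Matrix.one_apply_ne hx, mul_zero]
        · intro h
          exact absurd (mem_univ i) h
      rw [h2, ← hb i]
      simp only [Matrix.mul_apply, mul_sum]
      rw [sum_comm]
      refine sum_congr rfl fun j _ => ?_
      rw [ha j, sum_mul]
      refine sum_congr rfl fun x _ => ?_
      rw [hM, hB, mul_assoc]
    have h3 := congrFun h1 i'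
    exact sub_eq_zero.mp h3
  have hBM : B * M = 1 := mul_eq_one_comm_free M B hMB
  have hw := fun i => DQ_surj (l := g) (q := g) (fun j => M i j)
  choose w hwN hwD using hw
  refine ⟨w, hwN, ?_, ?_⟩
  · refine NQ_gen w hwN (fun i t => B i t) ?_
    intro i j
    have h1 := congrFun (congrFun hBM i) j
    rw [Matrix.mul_apply, Matrix.one_apply] at h1
    rw [← h1]
    refine sum_congr rfl fun t _ => ?_
    rw [hwD]
  · -- commutators
    have hcom : ∀ i, FreeGroup.of (Fin.castAdd g i) * w i *
        (FreeGroup.of (Fin.castAdd g i))⁻¹ * (w i)⁻¹ ∈ NQ g g := by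
      intro i
      rw [killQ_NQ, map_mul, map_mul, map_mul, map_inv, map_inv,
        (killQ_NQ (w i)).mp (hwN i)]
      simp
    have hDc : ∀ i j, DQ g g j (FreeGroup.of (Fin.castAdd g i) * w i *
        (FreeGroup.of (Fin.castAdd g i))⁻¹ * (w i)⁻¹) =
        (MonoidAlgebra.of ℤ (FreeGroup (Fin g)) (FreeGroup.of i) - 1) * M i j := by
      intro i j
      have hconj : FreeGroup.of (Fin.castAdd g i) * w i * (FreeGroup.of (Fin.castAdd g i))⁻¹ ∈
          NQ g g := by
        rw [killQ_NQ, map_mul, map_mul, map_inv, (killQ_NQ (w i)).mp (hwN i)]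
        simp
      have hinv : DQ g g j (w i)⁻¹ = - DQ g g j (w i) := by
        have h1 := DQ_mul (l := g) (q := g) j (w i) (w i)⁻¹ (hwN i)
        rw [mul_inv_cancel] at h1
        have h2 : DQ g g j 1 = 0 := by
          unfold DQ fox
          exact coc_one _ _
        rw [h2] at h1
        exact (neg_eq_of_add_eq_zero_right h1.symm).symm
      rw [DQ_mul j _ _ hconj, DQ_conj j _ _ (hwN i), hinv, hwD, sub_mul,
        one_mul, ← sub_eq_add_neg]
      congr 3
      unfold killQ
      rw [FreeGroup.lift_apply_of, Fin.addCases_left]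
    have hprod : ∀ (L : List (FreeGroup (Fin (g + g)))), (∀ x ∈ L, x ∈ NQ g g) →
        L.prod ∈ NQ g g ∧ ∀ j, DQ g g j L.prod = (L.map (fun x => DQ g g j x)).sum := by
      intro L
      induction L with
      | nil =>
        intro _
        refine ⟨(NQ g g).one_mem, fun j => ?_⟩
        show DQ g g j 1 = 0
        unfold DQ fox
        exact coc_one _ _
      | cons x L ih =>
        intro h
        have h1 := ih (fun y hy => h y (List.mem_cons_of_mem x hy))
        have h2 := h x List.mem_cons_self
        refine ⟨?_, fun j => ?_⟩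
        · rw [List.prod_cons]
          exact (NQ g g).mul_mem h2 h1.1
        · rw [List.prod_cons, DQ_mul j _ _ h2, h1.2 j, List.map_cons, List.sum_cons]
    have hP := hprod (List.ofFn (fun i : Fin g => FreeGroup.of (Fin.castAdd g i) * w i *
        (FreeGroup.of (Fin.castAdd g i))⁻¹ * (w i)⁻¹)) (by
      intro x hx
      obtain ⟨i, rfl⟩ := (List.mem_ofFn' _ _).mp hx
      exact hcom i)
    refine DQ_inj _ _ hN hP.1 ?_
    intro j
    rw [hP.2 j, List.map_ofFn, List.sum_ofFn, ha j]
    refine sum_congr rfl fun i _ => ?_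
    show _ = DQ g g j (FreeGroup.of (Fin.castAdd g i) * w i *
        (FreeGroup.of (Fin.castAdd g i))⁻¹ * (w i)⁻¹)
    rw [hDc]

end Pool.Agent.MelD
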