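import Pool.Agent.MelD.NabG
import Pool.Agent.MelD.SFin

/-!
# The isomorphism with the surface group modulo the commutator subgroup of the kernel

`w i ∈ N = NQ g g` generating `N` modulo `[N, N]` as a normal subgroup, `r = ∏ [x_i, w_i]` modulo
`[N, N]`.  Then `x_i ↦ x_i`, `y_i ↦ w_i` induces an isomorphism of `S / [N', N']` onto `G_r / [Z, Z]`, where
`S` is the surface group `⟨x, y | ∏ [x_i, y_i]⟩`, `N'` and `Z` the normal closures of the `y_i`.

Proof: the endomorphism `Φ` of `F` with `x_i ↦ x_i`, `y_i ↦ w_i` maps `N` to `N` and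
`DQ j (Φ n) = ∑ i, DQ i n * M i j`, `M i j = DQ j (w i)`.  `N` is generated by the `w i` modulo `[N, N]`, so
there is a matrix `B` with `B M = 1` (the classes of `y_i` are left combinations of those of the `w_i`),
so `M B = 1` (stable finiteness) and `Φ n ∈ [N, N]` implies `n ∈ [N, N]` (`DQ_inj`).  `Φ` is onto modulo
`[N, N]`.  So `Φ` induces an automorphism of `F / [N, N]` which maps the class of `∏ [x_i, y_i]` to the class of
`r`.  (`Z` is the image of `N`, `[Z, Z]` the image of `[N, N]`, so `G_r / [Z, Z] = F / (<<r>> [N, N])`.)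
-/

open Finset

namespace Pool.Agent.MelD

/-- The surface relator. -/
def surfRel (g : ℕ) : FreeGroup (Fin (g + g)) :=
  (List.ofFn (fun i : Fin g => FreeGroup.of (Fin.castAdd g i) * FreeGroup.of (Fin.natAdd g i) *
    (FreeGroup.of (Fin.castAdd g i))⁻¹ * (FreeGroup.of (Fin.natAdd g i))⁻¹)).prod

/-- The normal closure of the last `g` generators in a one-relator group. -/
def ZQ (g : ℕ) (r : FreeGroup (Fin (g + g))) : Subgroup (OR r) :=
  Subgroup.normalClosure (Set.range (fun j : Fin g => PresentedGroup.of (Fin.natAdd g j)))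

instance (g : ℕ) (r : FreeGroup (Fin (g + g))) : (ZQ g r).Normal :=
  Subgroup.normalClosure_normal

/-- Two quotients of a group, by the images of each other's kernels. -/
theorem quot_swap {F G₁ G₂ : Type} [Group F] [Group G₁] [Group G₂] (f₁ : F →* G₁) (f₂ : F →* G₂)
    (h₁ : Function.Surjective f₁) (h₂ : Function.Surjective f₂) (P₁ : Subgroup G₁) [P₁.Normal]
    (P₂ : Subgroup G₂) [P₂.Normal] (e₁ : P₁ = f₂.ker.map f₁) (e₂ : P₂ = f₁.ker.map f₂) :
    Nonempty (G₁ ⧸ P₁ ≃* G₂ ⧸ P₂) := by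
  have k₁ : ((QuotientGroup.mk' P₁).comp f₁).ker = f₂.ker ⊔ f₁.ker := by
    rw [← MonoidHom.comap_ker, QuotientGroup.ker_mk', e₁, Subgroup.comap_map_eq]
  have k₂ : ((QuotientGroup.mk' P₂).comp f₂).ker = f₂.ker ⊔ f₁.ker := by
    rw [← MonoidHom.comap_ker, QuotientGroup.ker_mk', e₂, Subgroup.comap_map_eq, sup_comm]
  have s₁ : Function.Surjective ((QuotientGroup.mk' P₁).comp f₁) :=
    (QuotientGroup.mk'_surjective P₁).comp h₁
  have s₂ : Function.Surjective ((QuotientGroup.mk' P₂).comp f₂) :=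
    (QuotientGroup.mk'_surjective P₂).comp h₂
  exact ⟨(QuotientGroup.quotientKerEquivOfSurjective _ s₁).symm.trans
    ((QuotientGroup.quotientMulEquivOfEq (k₁.trans k₂.symm)).trans
      (QuotientGroup.quotientKerEquivOfSurjective _ s₂))⟩

/-- `G_r / [Z, Z]` is the quotient of `F / [N, N]` by the class of `r`. -/
theorem quot_ZQ (g : ℕ) (r : FreeGroup (Fin (g + g))) :
    Nonempty ((OR r ⧸ ⁅ZQ g r, ZQ g r⁆) ≃*
      ((FreeGroup (Fin (g + g)) ⧸ ⁅NQ g g, NQ g g⁆) ⧸
        Subgroup.normalClosure {QuotientGroup.mk' ⁅NQ g g, NQ g g⁆ r})) := by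
  refine quot_swap (PresentedGroup.mk {r}) (QuotientGroup.mk' ⁅NQ g g, NQ g g⁆)
    (PresentedGroup.mk_surjective _) (QuotientGroup.mk'_surjective _) _ _ ?_ ?_
  · rw [QuotientGroup.ker_mk', Subgroup.map_commutator]
    have h2 : (NQ g g).map (PresentedGroup.mk {r}) = (ZQ g r : Subgroup (OR r)) := by
      unfold NQ ZQ
      rw [Subgroup.map_normalClosure _ _ (PresentedGroup.mk_surjective _), ← Set.range_comp]
      rfl
    rw [h2]
  · have h3 : (PresentedGroup.mk ({r} : Set (FreeGroup (Fin (g + g))))).ker =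
        Subgroup.normalClosure {r} := by
      ext u
      rw [MonoidHom.mem_ker]
      exact QuotientGroup.eq_one_iff u
    rw [h3, Subgroup.map_normalClosure _ _ (QuotientGroup.mk'_surjective _), Set.image_singleton]

section endo

variable {g : ℕ} (w : Fin g → FreeGroup (Fin (g + g)))

/-- The endomorphism `x_i ↦ x_i`, `y_i ↦ w_i`. -/
private def Phi : FreeGroup (Fin (g + g)) →* FreeGroup (Fin (g + g)) :=
  FreeGroup.lift (Fin.addCases (fun i => FreeGroup.of (Fin.castAdd g i)) w)

private theorem Phi_x (i : Fin g) :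
    Phi w (FreeGroup.of (Fin.castAdd g i)) = FreeGroup.of (Fin.castAdd g i) := by
  unfold Phi
  rw [FreeGroup.lift_apply_of, Fin.addCases_left]

private theorem Phi_y (i : Fin g) : Phi w (FreeGroup.of (Fin.natAdd g i)) = w i := by
  unfold Phi
  rw [FreeGroup.lift_apply_of, Fin.addCases_right]

variable (hw : ∀ i, w i ∈ NQ g g)

include hw

private theorem killQ_Phi (u : FreeGroup (Fin (g + g))) : killQ g g (Phi w u) = killQ g g u := by
  have h : (killQ g g).comp (Phi w) = killQ g g := by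
    refine FreeGroup.ext_hom _ _ fun i => ?_
    show killQ g g (Phi w (FreeGroup.of i)) = killQ g g (FreeGroup.of i)
    induction i using Fin.addCases with
    | left i => rw [Phi_x]
    | right i => rw [Phi_y, (killQ_NQ _).mp (hw i), (killQ_NQ _).mp (y_mem_NQ g g i)]
  exact DFunLike.congr_fun h u

private theorem Phi_mem {u : FreeGroup (Fin (g + g))} : Phi w u ∈ NQ g g ↔ u ∈ NQ g g := by
  rw [killQ_NQ, killQ_NQ, killQ_Phi w hw]

private theorem Phi_comm : (⁅NQ g g, NQ g g⁆).map (Phi w) ≤ ⁅NQ g g, NQ g g⁆ := by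
  have h : (NQ g g).map (Phi w) ≤ NQ g g := by
    rintro _ ⟨u, hu, rfl⟩
    exact (Phi_mem w hw).mpr hu
  rw [Subgroup.map_commutator]
  exact Subgroup.commutator_mono h h

private theorem DQ_Phi (j : Fin g) (u : FreeGroup (Fin (g + g))) :
    DQ g g j (Phi w u) = ∑ i, DQ g g i u * DQ g g j (w i) := by
  set f : FreeGroup (Fin (g + g)) →* MonoidAlgebra ℤ (FreeGroup (Fin g)) :=
    (MonoidAlgebra.of ℤ (FreeGroup (Fin g))).comp (killQ g g) with hf
  have hfΦ : ∀ u, f (Phi w u) = f u := by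
    intro u
    show MonoidAlgebra.of ℤ (FreeGroup (Fin g)) (killQ g g (Phi w u)) = _
    rw [killQ_Phi w hw]
    rfl
  have hD : ∀ j u, DQ g g j u = fox f (Fin.natAdd g j) u := fun j u => rfl
  refine coc_unique f (fun u => DQ g g j (Phi w u)) (fun u => ∑ i, DQ g g i u * DQ g g j (w i))
    ?_ ?_ ?_ u
  · intro a b
    simp only [hD, map_mul, fox_mul, hfΦ, smul_eq_mul]
  · intro a b
    simp only [hD, fox_mul, add_mul, sum_add_distrib, smul_eq_mul, mul_sum, mul_assoc]
  · intro i
    show DQ g g j (Phi w (FreeGroup.of i)) =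
      ∑ i', DQ g g i' (FreeGroup.of i) * DQ g g j (w i')
    induction i using Fin.addCases with
    | left i =>
      rw [Phi_x]
      have h0 : ∀ j, DQ g g j (FreeGroup.of (Fin.castAdd g i)) = 0 := by
        intro j
        rw [hD, fox_of, if_neg]
        intro h
        have := congrArg Fin.val h
        simp at this
        omega
      rw [h0]
      symm
      refine sum_eq_zero fun i' _ => ?_
      rw [h0, zero_mul]
    | right i =>
      rw [Phi_y, sum_eq_single i]
      · rw [DQ_y, if_pos rfl, one_mul]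
      · intro i' _ hi'
        rw [DQ_y, if_neg (Ne.symm hi'), zero_mul]
      · intro h
        exact absurd (mem_univ i) h

variable (hgen : NQ g g = Subgroup.normalClosure (Set.range w) ⊔ ⁅NQ g g, NQ g g⁆)

include hgen

private theorem Phi_top : (Phi w).range ⊔ ⁅NQ g g, NQ g g⁆ = ⊤ := by
  set H := (Phi w).range ⊔ ⁅NQ g g, NQ g g⁆ with hH
  let σ : FreeGroup (Fin g) →* FreeGroup (Fin (g + g)) :=
    FreeGroup.lift (fun i => FreeGroup.of (Fin.castAdd g i))
  have hσ : ∀ u, killQ g g (σ u) = u := by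
    intro u
    have h : (killQ g g).comp σ = MonoidHom.id _ := by
      refine FreeGroup.ext_hom _ _ fun i => ?_
      show killQ g g (σ (FreeGroup.of i)) = FreeGroup.of i
      simp only [σ, killQ]
      rw [FreeGroup.lift_apply_of, FreeGroup.lift_apply_of, Fin.addCases_left]
    exact DFunLike.congr_fun h u
  have hσH : ∀ u, σ u ∈ H := by
    intro u
    have h : (Phi w).comp σ = σ := by
      refine FreeGroup.ext_hom _ _ fun i => ?_
      show Phi w (σ (FreeGroup.of i)) = σ (FreeGroup.of i)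
      simp only [σ]
      rw [FreeGroup.lift_apply_of, Phi_x]
    exact Subgroup.mem_sup_left ⟨σ u, DFunLike.congr_fun h u⟩
  have hwH : ∀ i, w i ∈ H := fun i => Subgroup.mem_sup_left ⟨_, Phi_y w i⟩
  have hconj : ∀ (a : FreeGroup (Fin (g + g))) (i : Fin g), a * w i * a⁻¹ ∈ H := by
    intro a i
    have hn : (σ (killQ g g a))⁻¹ * a ∈ NQ g g := by
      rw [killQ_NQ, map_mul, map_inv, hσ, inv_mul_cancel]
    have h1 : a * w i * a⁻¹ = σ (killQ g g a) *
        (((σ (killQ g g a))⁻¹ * a) * w i * ((σ (killQ g g a))⁻¹ * a)⁻¹ * (w i)⁻¹) * w i *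
        (σ (killQ g g a))⁻¹ := by group
    rw [h1]
    have h2 : ((σ (killQ g g a))⁻¹ * a) * w i * ((σ (killQ g g a))⁻¹ * a)⁻¹ * (w i)⁻¹ ∈ H :=
      Subgroup.mem_sup_right (Subgroup.commutator_mem_commutator hn (hw i))
    exact H.mul_mem (H.mul_mem (H.mul_mem (hσH _) h2) (hwH i)) (H.inv_mem (hσH _))
  have hNH : NQ g g ≤ H := by
    rw [hgen]
    refine sup_le ?_ le_sup_right
    unfold Subgroup.normalClosure
    rw [Subgroup.closure_le]
    intro b hb
    obtain ⟨b', ⟨i, rfl⟩, hconj'⟩ := Group.mem_conjugatesOfSet_iff.mp hb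
    obtain ⟨a, rfl⟩ := isConj_iff.mp hconj'
    exact hconj a i
  rw [eq_top_iff]
  intro u _
  have hn : (σ (killQ g g u))⁻¹ * u ∈ NQ g g := by
    rw [killQ_NQ, map_mul, map_inv, hσ, inv_mul_cancel]
  have h1 := H.mul_mem (hσH (killQ g g u)) (hNH hn)
  rwa [mul_inv_cancel_left] at h1

private theorem Phi_inj {u : FreeGroup (Fin (g + g))} (h : Phi w u ∈ ⁅NQ g g, NQ g g⁆) :
    u ∈ ⁅NQ g g, NQ g g⁆ := by
  classical
  have hN : u ∈ NQ g g := (Phi_mem w hw).mp (Subgroup.commutator_le_left _ _ h)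
  -- derivatives vanish on the commutator subgroup
  have hC : ∀ c ∈ ⁅NQ g g, NQ g g⁆, ∀ j, DQ g g j c = 0 := by
    intro c hc j
    have h1 : ⁅NQ g g, NQ g g⁆ ≤
        ((⊤ : Subgroup (NQ g g)).map (NQ g g).subtype) := by
      rw [← MonoidHom.range_eq_map, Subgroup.range_subtype]
      exact Subgroup.commutator_le_left _ _
    let χ : NQ g g →* Multiplicative (MonoidAlgebra ℤ (FreeGroup (Fin g))) :=
      { toFun := fun n => Multiplicative.ofAdd (DQ g g j n.1)
        map_one' := by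
          show Multiplicative.ofAdd (DQ g g j 1) = 1
          rw [DQ_one]
          rfl
        map_mul' := by
          intro a b
          show Multiplicative.ofAdd (DQ g g j (a.1 * b.1)) = _
          rw [DQ_mul j _ _ a.2]
          rfl }
    rw [← Subgroup.map_subtype_commutator] at hc
    obtain ⟨c', hc', rfl⟩ := hc
    exact Abelianization.commutator_subset_ker χ hc'
  -- combinations of the classes of the `w i`
  have hcomb : ∀ v ∈ NQ g g, ∃ b : Fin g → MonoidAlgebra ℤ (FreeGroup (Fin g)),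
      ∀ j, DQ g g j v = ∑ t, b t * DQ g g j (w t) := by
    have hle : ∀ v ∈ Subgroup.normalClosure (Set.range w), v ∈ NQ g g := by
      intro v hv
      exact (Subgroup.normalClosure_le_normal (by
        rintro x ⟨i, rfl⟩
        exact hw i)) hv
    have h1 : ∀ v ∈ Subgroup.normalClosure (Set.range w),
        ∃ b : Fin g → MonoidAlgebra ℤ (FreeGroup (Fin g)),
        ∀ j, DQ g g j v = ∑ t, b t * DQ g g j (w t) := by
      intro v hv
      unfold Subgroup.normalClosure at hv
      induction hv using Subgroup.closure_induction with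
      | mem x hx =>
        obtain ⟨b', ⟨i, rfl⟩, hconj'⟩ := Group.mem_conjugatesOfSet_iff.mp hx
        obtain ⟨a, rfl⟩ := isConj_iff.mp hconj'
        refine ⟨Pi.single i (MonoidAlgebra.of ℤ _ (killQ g g a)), fun j => ?_⟩
        rw [DQ_conj j _ _ (hw i), sum_eq_single i]
        · rw [Pi.single_eq_same]
        · intro t _ ht
          rw [Pi.single_eq_of_ne ht, zero_mul]
        · intro h
          exact absurd (mem_univ i) h
      | one => exact ⟨0, fun j => by rw [DQ_one]; simp⟩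
      | mul x y hx hy ihx ihy =>
        obtain ⟨b, hb⟩ := ihx
        obtain ⟨b', hb'⟩ := ihy
        refine ⟨b + b', fun j => ?_⟩
        rw [DQ_mul j _ _ (hle x hx), hb, hb']
        simp only [Pi.add_apply, add_mul, sum_add_distrib]
      | inv x hx ih =>
        obtain ⟨b, hb⟩ := ih
        refine ⟨-b, fun j => ?_⟩
        rw [DQ_inv j _ (hle x hx), hb]
        simp only [Pi.neg_apply, neg_mul, sum_neg_distrib]
    intro v hv
    rw [hgen] at hv
    obtain ⟨a, ha, c, hc, rfl⟩ := Subgroup.mem_sup_of_normal_right.mp hv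
    obtain ⟨b, hb⟩ := h1 a ha
    refine ⟨b, fun j => ?_⟩
    rw [DQ_mul j _ _ (hle a ha), hC c hc, add_zero, hb]
  choose B hB using fun i : Fin g => hcomb _ (y_mem_NQ g g i)
  set M : Matrix (Fin g) (Fin g) (MonoidAlgebra ℤ (FreeGroup (Fin g))) :=
    fun i j => DQ g g j (w i) with hM
  set B' : Matrix (Fin g) (Fin g) (MonoidAlgebra ℤ (FreeGroup (Fin g))) := fun i j => B i j with hB'
  have hBM : B' * M = 1 := by
    ext1 i j
    rw [Matrix.mul_apply, Matrix.one_apply]
    rw [← hB i j, DQ_y]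
  have hMB := mul_eq_one_comm_free _ _ hBM
  -- the derivatives of `u`
  have h1 : ∀ j, ∑ i, DQ g g i u * M i j = 0 := by
    intro j
    rw [← DQ_Phi w hw j u]
    exact hC _ h j
  have h2 : ∀ j, DQ g g j u = 0 := by
    intro j
    have h3 : DQ g g j u = ∑ i, DQ g g i u * (∑ t, M i t * B' t j) := by
      have h4 : ∀ i, ∑ t, M i t * B' t j = if i = j then 1 else 0 := by
        intro i
        have h5 := congrFun (congrFun hMB i) j
        rw [Matrix.mul_apply, Matrix.one_apply] at h5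
        exact h5
      simp only [h4]
      rw [sum_eq_single j]
      · rw [if_pos rfl, mul_one]
      · intro i _ hi
        rw [if_neg hi, mul_zero]
      · intro h
        exact absurd (mem_univ j) h
    rw [h3]
    simp only [mul_sum]
    rw [sum_comm]
    refine sum_eq_zero fun t _ => ?_
    simp only [← mul_assoc]
    rw [← sum_mul, h1 t, zero_mul]
  have h3 := DQ_inj u 1 hN (NQ g g).one_mem (fun j => by rw [h2, DQ_one])
  rwa [inv_one, mul_one] at h3

end endo

theorem surf_iso {g : ℕ} (r : FreeGroup (Fin (g + g))) (w : Fin g → FreeGroup (Fin (g + g)))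
    (hw : ∀ i, w i ∈ NQ g g)
    (hgen : NQ g g = Subgroup.normalClosure (Set.range w) ⊔ ⁅NQ g g, NQ g g⁆)
    (hr : r * (List.ofFn (fun i : Fin g => FreeGroup.of (Fin.castAdd g i) * w i *
        (FreeGroup.of (Fin.castAdd g i))⁻¹ * (w i)⁻¹)).prod⁻¹ ∈ ⁅NQ g g, NQ g g⁆) :
    Nonempty ((OR r ⧸ ⁅ZQ g r, ZQ g r⁆) ≃* (OR (surfRel g) ⧸ ⁅ZQ g (surfRel g), ZQ g (surfRel g)⁆)) := by
  obtain ⟨e₁⟩ := quot_ZQ g r
  obtain ⟨e₂⟩ := quot_ZQ g (surfRel g)
  have hle : ⁅NQ g g, NQ g g⁆ ≤ (⁅NQ g g, NQ g g⁆).comap (Phi w) := by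
    rw [← Subgroup.map_le_iff_le_comap]
    exact Phi_comm w hw
  let φ : FreeGroup (Fin (g + g)) ⧸ ⁅NQ g g, NQ g g⁆ →* FreeGroup (Fin (g + g)) ⧸ ⁅NQ g g, NQ g g⁆ :=
    QuotientGroup.map _ _ (Phi w) hle
  have hφ : Function.Bijective φ := by
    constructor
    · rw [injective_iff_map_eq_one]
      intro q hq
      obtain ⟨u, rfl⟩ := QuotientGroup.mk'_surjective _ q
      have h1 : (QuotientGroup.mk (Phi w u) : FreeGroup (Fin (g + g)) ⧸ ⁅NQ g g, NQ g g⁆) = 1 := hq
      exact (QuotientGroup.eq_one_iff u).mpr (Phi_inj w hw hgen ((QuotientGroup.eq_one_iff _).mp h1))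
    · intro q
      obtain ⟨u, rfl⟩ := QuotientGroup.mk'_surjective _ q
      have h1 : u ∈ (Phi w).range ⊔ ⁅NQ g g, NQ g g⁆ := by
        rw [Phi_top w hw hgen]
        exact Subgroup.mem_top u
      obtain ⟨_, ⟨a, rfl⟩, c, hc, rfl⟩ := Subgroup.mem_sup_of_normal_right.mp h1
      refine ⟨QuotientGroup.mk a, ?_⟩
      show (QuotientGroup.mk (Phi w a) : FreeGroup (Fin (g + g)) ⧸ ⁅NQ g g, NQ g g⁆) =
        QuotientGroup.mk (Phi w a * c)
      rw [QuotientGroup.eq, inv_mul_cancel_left]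
      exact hc
  let e : FreeGroup (Fin (g + g)) ⧸ ⁅NQ g g, NQ g g⁆ ≃* FreeGroup (Fin (g + g)) ⧸ ⁅NQ g g, NQ g g⁆ :=
    MulEquiv.ofBijective φ hφ
  have hs : Phi w (surfRel g) = (List.ofFn (fun i : Fin g => FreeGroup.of (Fin.castAdd g i) * w i *
        (FreeGroup.of (Fin.castAdd g i))⁻¹ * (w i)⁻¹)).prod := by
    unfold surfRel
    rw [map_list_prod, List.map_ofFn]
    congr 2
    funext i
    simp only [Function.comp_apply, map_mul, map_inv, Phi_x, Phi_y]
  have he : (Subgroup.normalClosure {QuotientGroup.mk' ⁅NQ g g, NQ g g⁆ (surfRel g)}).map φ =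
      Subgroup.normalClosure {QuotientGroup.mk' ⁅NQ g g, NQ g g⁆ r} := by
    rw [Subgroup.map_normalClosure _ φ hφ.2, Set.image_singleton]
    congr 2
    show (QuotientGroup.mk (Phi w (surfRel g)) : FreeGroup (Fin (g + g)) ⧸ ⁅NQ g g, NQ g g⁆) =
      QuotientGroup.mk r
    rw [hs, QuotientGroup.eq]
    have hnorm : (⁅NQ g g, NQ g g⁆ : Subgroup (FreeGroup (Fin (g + g)))).Normal := inferInstance
    have h1 := hnorm.mem_comm hr
    exact h1
  exact ⟨e₁.trans ((QuotientGroup.congr _ _ e he).symm.trans e₂.symm)⟩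

end Pool.Agent.MelD
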