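import Pool.Agent.MelD.TypeT

/-!
# The dichotomy for abstract groups
-/

open Finset Module

namespace Pool.Agent.MelD

open Pool.Agent.MelG (HasRel)

/-- The free group of rank `k` as a one-relator group on `k + 1` generators. -/
theorem OR_last (k : ℕ) :
    Nonempty (OR (FreeGroup.of (Fin.last k)) ≃* FreeGroup (Fin k)) := by
  let f₀ : FreeGroup (Fin (k + 1)) →* FreeGroup (Fin k) :=
    FreeGroup.lift (Fin.lastCases 1 fun i => FreeGroup.of i)
  have h0 : f₀ (FreeGroup.of (Fin.last k)) = 1 := by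
    show FreeGroup.lift _ (FreeGroup.of (Fin.last k)) = 1
    rw [FreeGroup.lift_apply_of, Fin.lastCases_last]
  obtain ⟨f, hf⟩ := exists_desc (FreeGroup.of (Fin.last k)) f₀ h0
  have hf' : ∀ x, f (PresentedGroup.mk {FreeGroup.of (Fin.last k)} x) = f₀ x :=
    fun x => DFunLike.congr_fun hf x
  let g : FreeGroup (Fin k) →* OR (FreeGroup.of (Fin.last k)) :=
    FreeGroup.lift fun i => PresentedGroup.mk {FreeGroup.of (Fin.last k)} (FreeGroup.of i.castSucc)
  have hg : ∀ i, g (FreeGroup.of i) =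
      PresentedGroup.mk {FreeGroup.of (Fin.last k)} (FreeGroup.of i.castSucc) := fun i => by
    show FreeGroup.lift _ (FreeGroup.of i) = _
    rw [FreeGroup.lift_apply_of]
  have h1 : f.comp g = MonoidHom.id _ := by
    refine FreeGroup.ext_hom _ _ fun i => ?_
    show f (g (FreeGroup.of i)) = FreeGroup.of i
    rw [hg, hf']
    show FreeGroup.lift _ (FreeGroup.of i.castSucc) = FreeGroup.of i
    rw [FreeGroup.lift_apply_of, Fin.lastCases_castSucc]
  have h2 : (g.comp f).comp (PresentedGroup.mk {FreeGroup.of (Fin.last k)}) =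
      PresentedGroup.mk {FreeGroup.of (Fin.last k)} := by
    refine FreeGroup.ext_hom _ _ fun i => ?_
    show g (f (PresentedGroup.mk _ (FreeGroup.of i))) = PresentedGroup.mk _ (FreeGroup.of i)
    rw [hf']
    show g (FreeGroup.lift _ (FreeGroup.of i)) = _
    rw [FreeGroup.lift_apply_of]
    refine Fin.lastCases ?_ (fun j => ?_) i
    · rw [Fin.lastCases_last, map_one]
      exact (mk_rel _).symm
    · rw [Fin.lastCases_castSucc, hg]
  refine ⟨MulEquiv.mk' ⟨f, g, fun x => ?_, fun x => ?_⟩ (map_mul f)⟩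
  · obtain ⟨x, rfl⟩ := PresentedGroup.mk_surjective _ x
    exact DFunLike.congr_fun h2 x
  · exact DFunLike.congr_fun h1 x

/-- Infinite one-relator groups have presentations with at least two generators and a nontrivial
relator. -/
theorem exists_OR_inf {G : Type} [Group G] [Infinite G] (h1 : HasRel 1 G) :
    ∃ (k : ℕ) (r : FreeGroup (Fin k)), 2 ≤ k ∧ r ≠ 1 ∧ Nonempty (G ≃* OR r) := by
  obtain ⟨k, r, ⟨e⟩⟩ := hasRel_one h1
  by_cases hr : r = 1
  · subst hr
    obtain ⟨f⟩ := OR_one k
    rcases Nat.eq_zero_or_pos k with hk | hk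
    · subst hk
      have h2 : Finite G := Finite.of_injective (e.trans f) (e.trans f).injective
      exact absurd h2 (not_finite_iff_infinite.2 inferInstance)
    · obtain ⟨g⟩ := OR_last k
      exact ⟨k + 1, FreeGroup.of (Fin.last k), by omega, FreeGroup.of_ne_one _,
        ⟨(e.trans f).trans g.symm⟩⟩
  · refine ⟨k, r, ?_, hr, ⟨e⟩⟩
    by_contra hk
    have h2 : Finite (OR r) := finite_OR (by omega) r hr
    have h3 : Finite G := Finite.of_injective e e.injective
    exact absurd h3 (not_finite_iff_infinite.2 inferInstance)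

theorem dichotomy (m : ℕ) (G : Type) [Group G] [Infinite G] (h1 : HasRel 1 G)
    (H : ∀ N : Subgroup G, N.Normal → N.FiniteIndex → HasRel m N) :
    ∃ e : ℕ,
      ((∀ N : Subgroup G, N.Normal → N.FiniteIndex → ∀ q : ℕ, 0 < q →
          Nat.card (N →* Multiplicative (ZMod q)) = q ^ (e * N.index + 1)) ∧
        (∀ (P : Type) [Group P] [Finite P] (M : Subgroup P) [M.Normal] (φ : G →* P ⧸ M),
          ∃ ψ : G →* P, ∀ g, (QuotientGroup.mk (ψ g) : P ⧸ M) = φ g) ∧
        (∀ (S : Type) [Group S] [Finite S] [Group.IsSolvable S],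
          Nat.card (G →* S) = Nat.card S ^ (e + 1))) ∨
      ∃ χ : G →* ℚ, (∀ N : Subgroup G, N.Normal → N.FiniteIndex → ∀ q : ℕ, 0 < q →
        ∃ c : ℕ, c ∣ q ∧ Good χ N c ∧ (∀ c' : ℕ, c' ∣ q → Good χ N c' → c' ∣ c) ∧
          Nat.card (N →* Multiplicative (ZMod q)) = q ^ (e * N.index + 1) * c) ∧
        ∀ (p : ℕ), p.Prime → ∀ (P : Type) [Group P] [Finite P] (A : Subgroup P) [A.Normal],
          (∀ a ∈ A, ∀ b ∈ A, a * b = b * a) → (∀ a ∈ A, a ^ p = 1) → ∀ φ : G →* P ⧸ A,
          (∀ l : A →* Multiplicative (ZMod p), (∀ (g : G) (y : P) (a b : A),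
            (QuotientGroup.mk y : P ⧸ A) = φ g → b.1 = y * a.1 * y⁻¹ →
              ((χ g).den : ZMod p) * Multiplicative.toAdd (l b) =
                ((χ g).num : ZMod p) * Multiplicative.toAdd (l a)) → l = 1) →
          ∃ ψ : G →* P, ∀ g, (QuotientGroup.mk (ψ g) : P ⧸ A) = φ g := by
  obtain ⟨k, r, hk, hr1, ⟨e⟩⟩ := exists_OR_inf h1
  have H' := closed_transport r e m H
  -- transport of subgroups
  have htr : ∀ N : Subgroup G, N.Normal → N.FiniteIndex →
      (N.map e.toMonoidHom).Normal ∧ (N.map e.toMonoidHom).FiniteIndex ∧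
      (N.map e.toMonoidHom).index = N.index ∧
      ∀ A : Type, ∀ _ : Group A, Nat.card (N.map e.toMonoidHom →* A) = Nat.card (N →* A) := by
    intro N hN hf
    have h2 : (N.map e.toMonoidHom).index = N.index :=
      Subgroup.index_map_of_bijective e.bijective N
    refine ⟨hN.map _ e.surjective, ⟨by rw [h2]; exact hf.index_ne_zero⟩, h2, ?_⟩
    intro A _
    let e' : N ≃* N.map e.toMonoidHom := Subgroup.equivMapOfInjective N e.toMonoidHom e.injective
    exact Nat.card_congr
      { toFun := fun f => f.comp e'.toMonoidHom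
        invFun := fun f => f.comp e'.symm.toMonoidHom
        left_inv := fun f => MonoidHom.ext fun x => congrArg f (e'.apply_symm_apply x)
        right_inv := fun f => MonoidHom.ext fun x => congrArg f (e'.symm_apply_apply x) }
  refine ⟨k - 2, ?_⟩
  rcases dichotomy_OR hk r hr1 m H' with ⟨a1, a2, a3⟩ | ⟨χ, hχ, hχ2⟩
  · left
    refine ⟨?_, ?_, ?_⟩
    · intro N hN hf q hq
      obtain ⟨b1, b2, b3, b4⟩ := htr N hN hf
      rw [← b4, ← b3]
      exact a1 _ b1 b2 q hq
    · intro P _ _ M _ φ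
      obtain ⟨ψ, hψ⟩ := a2 P M (φ.comp e.symm.toMonoidHom)
      refine ⟨ψ.comp e.toMonoidHom, fun g => ?_⟩
      have h2 := hψ (e g)
      show (QuotientGroup.mk (ψ (e g)) : P ⧸ M) = φ g
      rw [h2]
      show φ (e.symm (e g)) = φ g
      rw [e.symm_apply_apply]
    · intro S _ _ _
      have h2 : Nat.card (OR r →* S) = Nat.card (G →* S) := Nat.card_congr
        { toFun := fun f => f.comp e.toMonoidHom
          invFun := fun f => f.comp e.symm.toMonoidHom
          left_inv := fun f => MonoidHom.ext fun x => congrArg f (e.apply_symm_apply x)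
          right_inv := fun f => MonoidHom.ext fun x => congrArg f (e.symm_apply_apply x) }
      rw [← h2, a3 S]
      congr 1
      omega
  · right
    refine ⟨χ.comp e.toMonoidHom, ?_, ?_⟩
    swap
    · intro p hp P _ _ A _ hcomm hexp φ hA
      obtain ⟨ψ, hψ⟩ := hχ2 p hp P A hcomm hexp (φ.comp e.symm.toMonoidHom) (fun l hl =>
        hA l fun g y a b hy hb => by
          refine hl (e g) y a b ?_ hb
          rw [hy]
          show φ g = φ (e.symm (e g))
          rw [e.symm_apply_apply])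
      refine ⟨ψ.comp e.toMonoidHom, fun g => ?_⟩
      have h2 := hψ (e g)
      show (QuotientGroup.mk (ψ (e g)) : P ⧸ A) = φ g
      rw [h2]
      show φ (e.symm (e g)) = φ g
      rw [e.symm_apply_apply]
    intro N hN hf q hq
    obtain ⟨b1, b2, b3, b4⟩ := htr N hN hf
    have hgood : ∀ c, Good χ (N.map e.toMonoidHom) c ↔ Good (χ.comp e.toMonoidHom) N c := by
      intro c
      constructor
      · rintro ⟨g1, g2⟩
        exact ⟨fun g => g1 (e g), fun g hg => g2 (e g) ⟨g, hg, rfl⟩⟩
      · rintro ⟨g1, g2⟩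
        refine ⟨fun g => ?_, ?_⟩
        · have h2 := g1 (e.symm g)
          have h3 : (χ.comp e.toMonoidHom) (e.symm g) = χ g := congrArg χ (e.apply_symm_apply g)
          rwa [h3] at h2
        · rintro _ ⟨g, hg, rfl⟩
          exact g2 g hg
    obtain ⟨c, c1, c2, c3, c4⟩ := hχ _ b1 b2 q hq
    refine ⟨c, c1, (hgood c).1 c2, fun c' h2 h3 => c3 c' h2 ((hgood c').2 h3), ?_⟩
    rw [← b4, ← b3]
    exact c4

end Pool.Agent.MelD
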