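import Pool.Agent.MelD.PadQ
import Pool.Agent.MelD.CycC
import Pool.Agent.MelD.CorkChar
import Pool.Agent.MelD.HomCount
import Pool.Agent.MelD.ProjZero
import Pool.Agent.MelD.DualLift
import Pool.Agent.MelD.ClosedG

/-!
# The dichotomy

All finite index normal subgroups of `G_r` have presentations with at most `m` relators.  Either there is no
dual character modulo any prime, and then `G_r` has the homology of a free group in all finite index normal
subgroups, all finite embedding problems are solvable, and the numbers of homomorphisms to finite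
solvable groups are those of a free group; or there is one rational character that determines the
abelianizations of all finite index normal subgroups.
-/

open Finset Module

namespace Pool.Agent.MelD

open Pool.Agent.MelG (HasRel)

/-- `χ` takes values that are units at `c` and is one modulo `c` on `N`. -/
def Good {G : Type} [Group G] (χ : G →* ℚ) (N : Subgroup G) (c : ℕ) : Prop :=
  (∀ g, (χ g).den.Coprime c) ∧ ∀ g ∈ N, (c : ℤ) ∣ (χ g).num - (χ g).den

private theorem arith (k n q X R c : ℕ) (hk : 2 ≤ k) (hn : 1 ≤ n) (hq : 0 < q)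
    (h1 : X * q ^ (n - 1) * R = q ^ (k * n)) (h2 : R * c = q ^ n) :
    X = q ^ ((k - 2) * n + 1) * c := by
  have h3 : X * q ^ (2 * n - 1) = (q ^ ((k - 2) * n + 1) * c) * q ^ (2 * n - 1) := by
    calc X * q ^ (2 * n - 1) = X * (q ^ (n - 1) * q ^ n) := by
          rw [← pow_add]
          congr 2
          omega
      _ = X * q ^ (n - 1) * R * c := by rw [← h2]; ring
      _ = q ^ (k * n) * c := by rw [h1]
      _ = q ^ (((k - 2) * n + 1) + (2 * n - 1)) * c := by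
          congr 2
          obtain ⟨k', rfl⟩ := Nat.exists_eq_add_of_le hk
          have : (2 + k' - 2) = k' := by omega
          rw [this, Nat.add_mul]
          omega
      _ = _ := by rw [pow_add]; ring
  exact Nat.eq_of_mul_eq_mul_right (pow_pos hq _) h3

variable {k : ℕ} (hk : 2 ≤ k) (r : FreeGroup (Fin k)) (hr1 : r ≠ 1) (m : ℕ)
    (H : ∀ N : Subgroup (OR r), N.Normal → N.FiniteIndex → HasRel m N)

/-- The projection of the free group onto a quotient of `G_r`. -/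
def prN (N : Subgroup (OR r)) [N.Normal] : FreeGroup (Fin k) →* OR r ⧸ N :=
  (QuotientGroup.mk' N).comp (PresentedGroup.mk ({r} : Set (FreeGroup (Fin k))))

theorem prN_surj (N : Subgroup (OR r)) [N.Normal] : Function.Surjective (prN r N) :=
  (QuotientGroup.mk'_surjective N).comp (PresentedGroup.mk_surjective _)

theorem prN_rel (N : Subgroup (OR r)) [N.Normal] : prN r N r = 1 := by
  show QuotientGroup.mk' N (PresentedGroup.mk {r} r) = 1
  rw [mk_rel, map_one]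

include hk hr1 H

theorem card_hom_N (N : Subgroup (OR r)) [N.Normal] [N.FiniteIndex] (q : ℕ) (hq : 0 < q) :
    ∃ c : ℕ, c ∣ q ∧ (∃ ψ : (OR r ⧸ N) →* ZMod c, Dual r (ψ.comp (prN r N))) ∧
      (∀ c' : ℕ, c' ∣ q → (∃ ψ : (OR r ⧸ N) →* ZMod c', Dual r (ψ.comp (prN r N))) → c' ∣ c) ∧
      Nat.card (N →* Multiplicative (ZMod q)) = q ^ ((k - 2) * N.index + 1) * c := by
  classical
  have : Fintype (OR r ⧸ N) := Fintype.ofFinite _
  have : NeZero q := ⟨hq.ne'⟩
  obtain ⟨c, h1, h2, h3, h4⟩ := card_rangeR hk r hr1 m H (prN r N) (prN_surj r N) (prN_rel r N) q hq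
  refine ⟨c, h1, h2, h3, ?_⟩
  have h5 := card_hom_ker r (QuotientGroup.mk' N) (QuotientGroup.mk'_surjective N) (ZMod q)
  rw [QuotientGroup.ker_mk', Nat.card_zmod] at h5
  have hcard : Fintype.card (OR r ⧸ N) = N.index := by
    rw [Subgroup.index, Nat.card_eq_fintype_card]
  rw [hcard] at h4 h5
  have hn : 1 ≤ N.index := by
    rw [← hcard]
    exact Fintype.card_pos
  exact arith k N.index q _ _ c hk hn hq h5 h4

/-- The free type. -/
theorem type_A (hV : ∀ (p : ℕ) [Fact p.Prime] (χ : FreeGroup (Fin k) →* ZMod p), ¬ Dual r χ) :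
    (∀ (N : Subgroup (OR r)), N.Normal → N.FiniteIndex → ∀ q : ℕ, 0 < q →
      Nat.card (N →* Multiplicative (ZMod q)) = q ^ ((k - 2) * N.index + 1)) ∧
    (∀ (P : Type) [Group P] [Finite P] (N : Subgroup P) [N.Normal] (φ₀ : OR r →* P ⧸ N),
      ∃ φ : OR r →* P, ∀ s, (QuotientGroup.mk (φ s) : P ⧸ N) = φ₀ s) ∧
    (∀ (S : Type) [Group S] [Finite S] [Group.IsSolvable S],
      Nat.card (OR r →* S) = Nat.card S ^ (k - 1)) := by
  have hcork : ∀ (Q : Type) [Group Q] [Fintype Q] (π : FreeGroup (Fin k) →* Q), Function.Surjective π →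
      π r = 1 → ∀ (p : ℕ) [Fact p.Prime], cork (ZMod p) r π = 0 := by
    intro Q _ _ π hs hπ p _
    have h1 := cork_le_one_all hk r hr1 m H π hs hπ (ZMod p)
    by_contra h2
    obtain ⟨χ, hχ⟩ := cork_char r π (ZMod p) (by omega)
    exact hV p _ hχ
  refine ⟨?_, ?_, ?_⟩
  · intro N hN hf q hq
    obtain ⟨c, h1, ⟨ψ, hψ⟩, -, h4⟩ := card_hom_N hk r hr1 m H N q hq
    have hc : c = 1 := by
      by_contra hc
      obtain ⟨p, hp, hpc⟩ := Nat.exists_prime_and_dvd hc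
      have : Fact p.Prime := ⟨hp⟩
      exact hV p _ (hψ.map (ZMod.castHom hpc (ZMod p)))
    rw [h4, hc, mul_one]
  · intro P _ _ N _ φ₀
    exact proj_zero r (fun p _ Q _ _ π hs hπ => hcork Q π hs hπ p) P N φ₀
  · intro S _ _ _
    obtain ⟨k', rfl⟩ := Nat.exists_eq_add_of_le' (show 1 ≤ k by omega)
    exact hom_count r hcork S

/-- Lifting problems in the presence of a rational dual character. -/
theorem lift_B (χ₀ : FreeGroup (Fin k) →* ℚ) (h₀ : Dual r χ₀) (p : ℕ) (hp : p.Prime) (P : Type)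
    [Group P] [Finite P] (A : Subgroup P) [A.Normal] (hcomm : ∀ a ∈ A, ∀ b ∈ A, a * b = b * a)
    (hexp : ∀ a ∈ A, a ^ p = 1) (φ₀ : OR r →* P ⧸ A)
    (hA : ∀ l : A →* Multiplicative (ZMod p), (∀ (w : FreeGroup (Fin k)) (y : P) (a b : A),
      (QuotientGroup.mk y : P ⧸ A) = φ₀ (PresentedGroup.mk {r} w) → b.1 = y * a.1 * y⁻¹ →
        ((χ₀ w).den : ZMod p) * Multiplicative.toAdd (l b) =
          ((χ₀ w).num : ZMod p) * Multiplicative.toAdd (l a)) → l = 1) :
    ∃ φ : OR r →* P, ∀ s, (QuotientGroup.mk (φ s) : P ⧸ A) = φ₀ s := by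
  classical
  have : Fact p.Prime := ⟨hp⟩
  have hfin : Finite φ₀.range := inferInstance
  by_cases hd : ∀ g, ¬ p ∣ (χ₀ g).den
  · obtain ⟨χ, hχ, h2⟩ := rat_padic (p := p) χ₀ h₀ hd
    let χ₁ : FreeGroup (Fin k) →* ZMod p := ((PadicInt.toZMod : ℤ_[p] →+* ZMod p) : ℤ_[p] →* ZMod p).comp χ
    have hχ₁ : Dual r χ₁ := hχ.map _
    refine lift_dual hk r hr1 m H p χ₁ hχ₁ A hcomm hexp φ₀ hfin fun l hl => hA l fun w y a b hy hb => ?_
    rw [hl w y a b hy hb]
    have h3 : χ w * ((χ₀ w).den : ℤ_[p]) = ((χ₀ w).num : ℤ_[p]) := by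
      apply Subtype.val_injective
      show ((χ w * ((χ₀ w).den : ℤ_[p]) : ℤ_[p]) : ℚ_[p]) = (((χ₀ w).num : ℤ_[p]) : ℚ_[p])
      rw [PadicInt.coe_mul, h2, PadicInt.coe_natCast, PadicInt.coe_intCast]
      have h4 : χ₀ w * (χ₀ w).den = (χ₀ w).num := Rat.mul_den_eq_num _
      exact_mod_cast congrArg (fun y : ℚ => (y : ℚ_[p])) h4
    have h4 := congrArg PadicInt.toZMod h3
    rw [map_mul, map_natCast, map_intCast] at h4
    rw [← h4, ← mul_assoc]
    congr 1
    show ((χ₀ w).den : ZMod p) * χ₁ w = χ₁ w * ((χ₀ w).den : ZMod p)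
    exact mul_comm _ _
  · refine lift_of_ev r p A hcomm hexp φ₀ hfin ?_
    intro Q _ _ π hs hπ
    have h1 := cork_le_one_all hk r hr1 m H π hs hπ (ZMod p)
    by_contra h2
    obtain ⟨χ, hχ⟩ := cork_char r π (ZMod p) (by omega)
    apply hd
    obtain ⟨χp, hχp, -⟩ := padic_dual hk r hr1 m H p _ hχ
    have h3 : ((PadicInt.Coe.ringHom : ℤ_[p] →+* ℚ_[p]) : ℤ_[p] →* ℚ_[p]).comp χp =
        ((Rat.castHom ℚ_[p] : ℚ →+* ℚ_[p]) : ℚ →* ℚ_[p]).comp χ₀ :=
      dual_unique hk r hr1 m H _ _ (hχp.map _) (h₀.map _)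
    exact fun g => den_of_padic (DFunLike.congr_fun h3 g)

/-- The types with a rational character. -/
theorem type_B (χ₀ : FreeGroup (Fin k) →* ℚ) (h₀ : Dual r χ₀) :
    ∃ χ : OR r →* ℚ, (∀ (N : Subgroup (OR r)), N.Normal → N.FiniteIndex → ∀ q : ℕ, 0 < q →
      ∃ c : ℕ, c ∣ q ∧ Good χ N c ∧ (∀ c' : ℕ, c' ∣ q → Good χ N c' → c' ∣ c) ∧
        Nat.card (N →* Multiplicative (ZMod q)) = q ^ ((k - 2) * N.index + 1) * c) ∧
      ∀ (p : ℕ), p.Prime → ∀ (P : Type) [Group P] [Finite P] (A : Subgroup P) [A.Normal],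
        (∀ a ∈ A, ∀ b ∈ A, a * b = b * a) → (∀ a ∈ A, a ^ p = 1) → ∀ φ₀ : OR r →* P ⧸ A,
        (∀ l : A →* Multiplicative (ZMod p), (∀ (g : OR r) (y : P) (a b : A),
          (QuotientGroup.mk y : P ⧸ A) = φ₀ g → b.1 = y * a.1 * y⁻¹ →
            ((χ g).den : ZMod p) * Multiplicative.toAdd (l b) =
              ((χ g).num : ZMod p) * Multiplicative.toAdd (l a)) → l = 1) →
        ∃ φ : OR r →* P, ∀ s, (QuotientGroup.mk (φ s) : P ⧸ A) = φ₀ s := by
  obtain ⟨χ, hχ⟩ := exists_desc r χ₀ h₀.rel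
  have hχ' : ∀ g, χ (PresentedGroup.mk {r} g) = χ₀ g := fun g => DFunLike.congr_fun hχ g
  refine ⟨χ, ?_, ?_⟩
  swap
  · intro p hp P _ _ A _ hcomm hexp φ₀ hA
    refine lift_B hk r hr1 m H χ₀ h₀ p hp P A hcomm hexp φ₀ fun l hl => hA l fun g y a b hy hb => ?_
    obtain ⟨w, rfl⟩ := PresentedGroup.mk_surjective _ g
    rw [hχ']
    exact hl w y a b hy hb
  intro N hN hf q hq
  obtain ⟨c, h1, ⟨ψ, hψ⟩, h3, h4⟩ := card_hom_N hk r hr1 m H N q hq
  have hc0 : 0 < c := Nat.pos_of_dvd_of_pos h1 hq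
  -- prime powers that divide `c`
  have hpp : ∀ p j : ℕ, p.Prime → 1 ≤ j → p ^ j ∣ c →
      (∀ g, ¬ p ∣ (χ₀ g).den) ∧ ∀ g, prN r N g = 1 → ((p ^ j : ℕ) : ℤ) ∣ (χ₀ g).num - (χ₀ g).den := by
    intro p j hp hj hpc
    have : Fact p.Prime := ⟨hp⟩
    obtain ⟨g1, g2⟩ := good_of_dual hk r hr1 m H χ₀ h₀ p j hj _ (hψ.map (ZMod.castHom hpc (ZMod (p ^ j))))
    refine ⟨g1, fun g hg => g2 g ?_⟩
    show ZMod.castHom hpc (ZMod (p ^ j)) (ψ (prN r N g)) = 1
    rw [hg, map_one, map_one]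
  refine ⟨c, h1, ⟨?_, ?_⟩, ?_, h4⟩
  · intro g
    obtain ⟨g, rfl⟩ := PresentedGroup.mk_surjective _ g
    rw [hχ']
    refine Nat.Coprime.symm (Nat.coprime_of_dvd fun p hp hpc hpd => ?_)
    exact (hpp p 1 hp le_rfl (by rwa [pow_one])).1 g hpd
  · intro g hg
    obtain ⟨g, rfl⟩ := PresentedGroup.mk_surjective _ g
    rw [hχ']
    have hg' : prN r N g = 1 := (QuotientGroup.eq_one_iff _).2 hg
    rw [Int.natCast_dvd]
    refine (Nat.dvd_iff_prime_pow_dvd_dvd _ _).2 fun p j hp hpj => ?_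
    rcases Nat.eq_zero_or_pos j with hj | hj
    · rw [hj, pow_zero]
      exact one_dvd _
    · exact Int.natCast_dvd.1 ((hpp p j hp hj hpj).2 g hg')
  · intro c' hc' hg
    refine (Nat.dvd_iff_prime_pow_dvd_dvd _ _).2 fun p j hp hpj => ?_
    rcases Nat.eq_zero_or_pos j with hj | hj
    · rw [hj, pow_zero]
      exact one_dvd _
    have : Fact p.Prime := ⟨hp⟩
    refine h3 _ (hpj.trans hc') ?_
    refine dual_of_good r χ₀ h₀ p j ?_ (prN r N) (prN_surj r N) ?_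
    · intro g hpd
      have h5 := hg.1 (PresentedGroup.mk {r} g)
      rw [hχ'] at h5
      have h6 : p ∣ Nat.gcd (χ₀ g).den c' := Nat.dvd_gcd hpd
        ((dvd_pow_self p (Nat.one_le_iff_ne_zero.1 hj)).trans hpj)
      rw [h5] at h6
      exact hp.one_lt.ne' (Nat.dvd_one.1 h6)
    · intro g hg1
      have h5 := hg.2 (PresentedGroup.mk {r} g) ((QuotientGroup.eq_one_iff _).1 hg1)
      rw [hχ'] at h5
      exact dvd_trans (Int.natCast_dvd_natCast.2 hpj) h5

/-- The dichotomy for one-relator groups. -/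
theorem dichotomy_OR :
    ((∀ (N : Subgroup (OR r)), N.Normal → N.FiniteIndex → ∀ q : ℕ, 0 < q →
      Nat.card (N →* Multiplicative (ZMod q)) = q ^ ((k - 2) * N.index + 1)) ∧
    (∀ (P : Type) [Group P] [Finite P] (N : Subgroup P) [N.Normal] (φ₀ : OR r →* P ⧸ N),
      ∃ φ : OR r →* P, ∀ s, (QuotientGroup.mk (φ s) : P ⧸ N) = φ₀ s) ∧
    (∀ (S : Type) [Group S] [Finite S] [Group.IsSolvable S],
      Nat.card (OR r →* S) = Nat.card S ^ (k - 1))) ∨
    ∃ χ : OR r →* ℚ, (∀ (N : Subgroup (OR r)), N.Normal → N.FiniteIndex → ∀ q : ℕ, 0 < q →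
      ∃ c : ℕ, c ∣ q ∧ Good χ N c ∧ (∀ c' : ℕ, c' ∣ q → Good χ N c' → c' ∣ c) ∧
        Nat.card (N →* Multiplicative (ZMod q)) = q ^ ((k - 2) * N.index + 1) * c) ∧
      ∀ (p : ℕ), p.Prime → ∀ (P : Type) [Group P] [Finite P] (A : Subgroup P) [A.Normal],
        (∀ a ∈ A, ∀ b ∈ A, a * b = b * a) → (∀ a ∈ A, a ^ p = 1) → ∀ φ₀ : OR r →* P ⧸ A,
        (∀ l : A →* Multiplicative (ZMod p), (∀ (g : OR r) (y : P) (a b : A),
          (QuotientGroup.mk y : P ⧸ A) = φ₀ g → b.1 = y * a.1 * y⁻¹ →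
            ((χ g).den : ZMod p) * Multiplicative.toAdd (l b) =
              ((χ g).num : ZMod p) * Multiplicative.toAdd (l a)) → l = 1) →
        ∃ φ : OR r →* P, ∀ s, (QuotientGroup.mk (φ s) : P ⧸ A) = φ₀ s := by
  by_cases hV : ∀ (p : ℕ) [Fact p.Prime] (χ : FreeGroup (Fin k) →* ZMod p), ¬ Dual r χ
  · exact Or.inl (type_A hk r hr1 m H hV)
  · right
    push Not at hV
    obtain ⟨p, hp, χ, hχ⟩ := hV
    obtain ⟨χp, h1, -⟩ := padic_dual hk r hr1 m H p χ hχ
    obtain ⟨χ₀, h2⟩ := exists_rat hk r hr1 m H _ (h1.map PadicInt.Coe.ringHom)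
    exact type_B hk r hr1 m H χ₀ h2

end Pool.Agent.MelD
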