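import Pool.Agent.MelD.Final
import Pool.Agent.MelD.Int
import Pool.Agent.MelD.Cor1
import Pool.Agent.MelD.Cor2

/-!
# Large free quotients: unimodularity, and the kernel for `l = k - 1`
-/

open Finset Module

namespace Pool.Agent.MelD

open Pool.Agent.MelG (HasRel)

/-- The elements of the right ideal. -/
theorem mem_RI {K : Type} [Field K] {k : ℕ} {A : Type} [Ring A] [Algebra K A] (E : Fin k → A) {x : A}
    (hx : x ∈ RI (K := K) E) : ∃ y : Fin k → A, ∑ j, E j * y j = x := by
  classical
  unfold RI at hx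
  induction hx using Submodule.span_induction with
  | mem x hx =>
    obtain ⟨i, y, rfl⟩ := hx
    refine ⟨Pi.single i y, ?_⟩
    rw [sum_eq_single i]
    · rw [Pi.single_eq_same]
    · intro j _ hj
      rw [Pi.single_eq_of_ne hj, mul_zero]
    · intro h
      exact absurd (mem_univ i) h
  | zero => exact ⟨0, by simp⟩
  | add a b _ _ ha hb =>
    obtain ⟨y, hy⟩ := ha
    obtain ⟨z, hz⟩ := hb
    refine ⟨y + z, ?_⟩
    simp only [Pi.add_apply, mul_add, sum_add_distrib, hy, hz]
  | smul c a _ ha =>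
    obtain ⟨y, hy⟩ := ha
    refine ⟨c • y, ?_⟩
    simp only [Pi.smul_apply, mul_smul_comm, ← smul_sum, hy]

/-- The codimension is finite and satisfies Schreier's inequality. -/
theorem finrank_bound {k l : ℕ} (r : FreeGroup (Fin k)) (hr1 : r ≠ 1)
    (φ : FreeGroup (Fin k) →* FreeGroup (Fin l)) (hφ : Function.Surjective φ) (hl : 1 ≤ l)
    (hr : φ r = 1) (m : ℕ) (H : HL m φ r) (K : Type) [Field K] [Finite K] :
    ∃ c : ℕ, Module.rank K (MonoidAlgebra K (FreeGroup (Fin l)) ⧸
      RI (K := K) (fun j => fox ((MonoidAlgebra.of K (FreeGroup (Fin l))).comp φ) j r)) = c ∧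
      l * c + 1 + l ≤ k + c := by
  have h := rank_le_m r hr1 φ hφ hl hr m H K
  have h1 : FiniteDimensional K (MonoidAlgebra K (FreeGroup (Fin l)) ⧸
      RI (K := K) (fun j => fox ((MonoidAlgebra.of K (FreeGroup (Fin l))).comp φ) j r)) :=
    Module.rank_lt_aleph0_iff.mp (lt_of_le_of_lt h (Cardinal.natCast_lt_aleph0))
  exact ⟨_, (finrank_eq_rank K _).symm, schreier φ hφ r hr h1⟩

/-- If `k < 2 l`, then the right ideal is everything over every finite field. -/
theorem row_one {k l : ℕ} (r : FreeGroup (Fin k)) (hr1 : r ≠ 1)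
    (φ : FreeGroup (Fin k) →* FreeGroup (Fin l)) (hφ : Function.Surjective φ) (hl : 1 ≤ l)
    (hr : φ r = 1) (hk : k < 2 * l) (m : ℕ) (H : HL m φ r) (K : Type) [Field K] [Finite K] :
    ∃ y : Fin k → MonoidAlgebra K (FreeGroup (Fin l)),
      ∑ j, fox ((MonoidAlgebra.of K (FreeGroup (Fin l))).comp φ) j r * y j = 1 := by
  obtain ⟨c, hc, hs⟩ := finrank_bound r hr1 φ hφ hl hr m H K
  have hc0 : c = 0 := by
    by_contra hne
    obtain ⟨d, rfl⟩ : ∃ d, c = d + 1 := ⟨c - 1, by omega⟩
    have h1 : 1 * d ≤ l * d := Nat.mul_le_mul_right d hl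
    rw [mul_add, mul_one] at hs
    omega
  rw [hc0, Nat.cast_zero] at hc
  have h1 := rank_zero_iff.mp hc
  have h2 : (1 : MonoidAlgebra K (FreeGroup (Fin l))) ∈ RI (K := K)
      (fun j => fox ((MonoidAlgebra.of K (FreeGroup (Fin l))).comp φ) j r) := by
    rw [← Submodule.Quotient.mk_eq_zero]
    exact Subsingleton.elim _ _
  exact mem_RI _ h2

theorem map_fox_mod {k : ℕ} {L : Type} [Group L] (φ : FreeGroup (Fin k) →* L) (K : Type) [Field K]
    (j : Fin k) (r : FreeGroup (Fin k)) :
    MonoidAlgebra.mapRingHom L (Int.castRingHom K)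
      (fox ((MonoidAlgebra.of ℤ L).comp φ) j r) = fox ((MonoidAlgebra.of K L).comp φ) j r := by
  have h6 := map_fox (MonoidAlgebra.mapRingHom L (Int.castRingHom K))
      ((MonoidAlgebra.of ℤ L).comp φ) j r
  rw [h6]
  congr 1
  apply MonoidHom.ext
  intro w
  show MonoidAlgebra.mapRingHom L (Int.castRingHom K) (MonoidAlgebra.of ℤ L (φ w)) = _
  rw [MonoidAlgebra.of_apply, MonoidAlgebra.mapRingHom_single, map_one]
  rfl

/-- If `k < 2 l`, then the row of the Fox derivatives is unimodular over `ℤ[L]`. -/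
theorem unimod {k l : ℕ} (r : FreeGroup (Fin k)) (hr1 : r ≠ 1)
    (φ : FreeGroup (Fin k) →* FreeGroup (Fin l)) (hφ : Function.Surjective φ) (hl : 1 ≤ l)
    (hr : φ r = 1) (hk : k < 2 * l) (m : ℕ) (H : HL m φ r) :
    ∃ y : Fin k → MonoidAlgebra ℤ (FreeGroup (Fin l)),
      ∑ j, fox ((MonoidAlgebra.of ℤ (FreeGroup (Fin l))).comp φ) j r * y j = 1 := by
  refine int_unimod _ ?_
  intro p _
  obtain ⟨y, hy⟩ := row_one r hr1 φ hφ hl hr hk m H (ZMod p)
  refine ⟨y, ?_⟩
  rw [← hy]
  refine sum_congr rfl fun j _ => ?_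
  rw [map_fox_mod]

theorem killLast_surj (l : ℕ) : Function.Surjective (killLast l) := by
  intro w
  induction w using FreeGroup.induction_on with
  | C1 => exact ⟨1, map_one _⟩
  | of i =>
    refine ⟨FreeGroup.of (Fin.castSucc i), ?_⟩
    unfold killLast
    rw [FreeGroup.lift_apply_of, Fin.lastCases_castSucc]
  | inv_of i h =>
    obtain ⟨a, ha⟩ := h
    exact ⟨a⁻¹, by rw [map_inv, ha]⟩
  | mul a b ha hb =>
    obtain ⟨a', ha'⟩ := ha
    obtain ⟨b', hb'⟩ := hb
    exact ⟨a' * b', by rw [map_mul, ha', hb']⟩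

theorem killLast_kill {l : ℕ} (w : FreeGroup (Fin (l + 1)))
    (hw : w ∈ Subgroup.normalClosure {FreeGroup.of (Fin.last l)}) : killLast l w = 1 := by
  have h : Subgroup.normalClosure {FreeGroup.of (Fin.last l)} ≤ (killLast l).ker :=
    Subgroup.normalClosure_le_normal (by
      intro x hx
      rw [Set.mem_singleton_iff.mp hx]
      show killLast l (FreeGroup.of (Fin.last l)) = 1
      unfold killLast
      rw [FreeGroup.lift_apply_of, Fin.lastCases_last])
  exact h hw

/-- The section. -/
def secLast (l : ℕ) : FreeGroup (Fin l) →* FreeGroup (Fin (l + 1)) :=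
  FreeGroup.lift (fun i => FreeGroup.of (Fin.castSucc i))

theorem kill_killLast {l : ℕ} (w : FreeGroup (Fin (l + 1))) (hw : killLast l w = 1) :
    w ∈ Subgroup.normalClosure {FreeGroup.of (Fin.last l)} := by
  have h : ∀ w : FreeGroup (Fin (l + 1)), w * (secLast l (killLast l w))⁻¹ ∈
      Subgroup.normalClosure {FreeGroup.of (Fin.last l)} := by
    intro w
    induction w using FreeGroup.induction_on with
    | C1 => simp
    | of i =>
      induction i using Fin.lastCases with
      | last =>
        unfold killLast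
        rw [FreeGroup.lift_apply_of, Fin.lastCases_last, map_one, inv_one, mul_one]
        exact Subgroup.subset_normalClosure rfl
      | cast i =>
        unfold killLast secLast
        rw [FreeGroup.lift_apply_of, Fin.lastCases_castSucc, FreeGroup.lift_apply_of,
          mul_inv_cancel]
        exact one_mem _
    | inv_of i h =>
      have h1 := (Subgroup.normalClosure {FreeGroup.of (Fin.last l)}).inv_mem h
      have h2 := (Subgroup.normalClosure_normal (s := {FreeGroup.of (Fin.last l)})).conj_mem _ h1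
        (FreeGroup.of i)⁻¹
      rw [map_inv, map_inv]
      convert h2 using 1
      group
    | mul a b ha hb =>
      have h2 := (Subgroup.normalClosure_normal (s := {FreeGroup.of (Fin.last l)})).conj_mem _ hb a
      have h3 := (Subgroup.normalClosure {FreeGroup.of (Fin.last l)}).mul_mem h2 ha
      rw [map_mul, map_mul]
      convert h3 using 1
      group
  have h1 := h w
  rwa [hw, map_one, inv_one, mul_one] at h1

theorem fox_castSucc {K : Type} [CommRing K] {l : ℕ} (i : Fin l) (w : FreeGroup (Fin (l + 1))) :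
    fox ((MonoidAlgebra.of K (FreeGroup (Fin l))).comp (killLast l)) (Fin.castSucc i) w =
      fox (MonoidAlgebra.of K (FreeGroup (Fin l))) i (killLast l w) := by
  refine coc_unique ((MonoidAlgebra.of K (FreeGroup (Fin l))).comp (killLast l))
    (fox ((MonoidAlgebra.of K (FreeGroup (Fin l))).comp (killLast l)) (Fin.castSucc i))
    (fun w => fox (MonoidAlgebra.of K (FreeGroup (Fin l))) i (killLast l w)) ?_ ?_ ?_ w
  · intro a b
    rw [fox_mul]
    rfl
  · intro a b
    show fox _ i (killLast l (a * b)) = _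
    rw [map_mul, fox_mul]
    rfl
  · intro j
    show fox _ _ (FreeGroup.of j) = fox _ i (killLast l (FreeGroup.of j))
    rw [fox_of]
    unfold killLast
    rw [FreeGroup.lift_apply_of]
    induction j using Fin.lastCases with
    | cast j =>
      rw [Fin.lastCases_castSucc, fox_of]
      by_cases h : j = i
      · rw [if_pos h, if_pos (by rw [h])]
      · rw [if_neg h, if_neg (by
          intro h'
          exact h (Fin.castSucc_injective l h'))]
    | last =>
      rw [Fin.lastCases_last]
      have h1 : fox (MonoidAlgebra.of K (FreeGroup (Fin l))) i (1 : FreeGroup (Fin l)) = 0 := by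
        unfold fox
        exact coc_one _ _
      rw [h1, if_neg (Fin.castSucc_lt_last i).ne']

/-- The kernel of the map onto a free group of rank `k - 1`. -/
theorem kernel {l : ℕ} (hl : 2 ≤ l) (r : FreeGroup (Fin (l + 1))) (hr1 : r ≠ 1)
    (hr : r ∈ Subgroup.normalClosure {FreeGroup.of (Fin.last l)}) (m : ℕ)
    (H : HL m (killLast l) r) :
    ∃ (g : FreeGroup (Fin (l + 1))) (ε : ℤ), (ε = 1 ∨ ε = -1) ∧
      r * (g * FreeGroup.of (Fin.last l) ^ ε * g⁻¹)⁻¹ ∈
      ⁅Subgroup.normalClosure {FreeGroup.of (Fin.last l)},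
        Subgroup.normalClosure {FreeGroup.of (Fin.last l)}⁆ := by
  have hφr := killLast_kill r hr
  obtain ⟨u, hu⟩ := monomial_of_mod_primes
    (fox ((MonoidAlgebra.of ℤ (FreeGroup (Fin l))).comp (killLast l)) (Fin.last l) r) (by
    intro p _
    obtain ⟨y, hy⟩ := row_one (k := l + 1) r hr1 (killLast l) (killLast_surj l) (by omega) hφr
      (by omega) m H (ZMod p)
    refine ⟨y (Fin.last l), ?_⟩
    rw [Fin.sum_univ_castSucc] at hy
    have h4 : ∑ i : Fin l, fox ((MonoidAlgebra.of (ZMod p) (FreeGroup (Fin l))).comp (killLast l))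
        (Fin.castSucc i) r * y (Fin.castSucc i) = 0 := by
      refine sum_eq_zero fun i _ => ?_
      rw [fox_castSucc, hφr]
      have h5 : fox (MonoidAlgebra.of (ZMod p) (FreeGroup (Fin l))) i (1 : FreeGroup (Fin l)) = 0 := by
        unfold fox
        exact coc_one _ _
      rw [h5, zero_mul]
    rw [h4, zero_add] at hy
    rw [map_fox_mod]
    exact hy)
  rcases hu with hu | hu
  · obtain ⟨g, hg⟩ := nab r hr u 1 hu
    exact ⟨g, 1, Or.inl rfl, hg⟩
  · obtain ⟨g, hg⟩ := nab r hr u (-1) hu
    exact ⟨g, -1, Or.inr rfl, hg⟩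

end Pool.Agent.MelD
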