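import Pool.Agent.MelD.ChiDef

/-!
# Uniqueness of the dual character over every field

Proof.  Suppose `χ₁ g ≠ χ₂ g`.  `D` = the subring of `Ω` generated by the values of `χ₁` and `χ₂` at the
generators and their inverses: a finitely generated domain, so a Jacobson ring, so some maximal ideal `M` of
`D` does not contain `χ₁ g - χ₂ g`; `D / M` is a field that is a finitely generated ring, so it is finite
(`finite_of_finite_type_of_isJacobsonRing` over `ℤ`: finite over `ℤ`, so not of characteristic zero), say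
of characteristic `p`.  `dual_rigid` for `A = D / M × D / M` and the character `(χ₁, χ₂)` modulo `M`: its
value at `g` is in the prime field, embedded diagonally, so `χ₁ g = χ₂ g` modulo `M`.
-/

open Finset Module

namespace Pool.Agent.MelD

open Pool.Agent.MelG (HasRel)

/-! ### subrings generated by the values -/

theorem char_mem {k : ℕ} {R A : Type*} [CommRing R] [CommRing A] [Algebra R A]
    (χ : FreeGroup (Fin k) →* A) (D : Subalgebra R A) (h : ∀ j, χ (FreeGroup.of j) ∈ D)
    (h' : ∀ j, χ (FreeGroup.of j)⁻¹ ∈ D) (g : FreeGroup (Fin k)) : χ g ∈ D := by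
  induction g using FreeGroup.induction_on with
  | C1 => rw [map_one]; exact D.one_mem
  | of j => exact h j
  | inv_of j _ => exact h' j
  | mul x y hx hy => rw [map_mul]; exact D.mul_mem hx hy

/-- a character with values in a subalgebra -/
theorem exists_restrict {k : ℕ} {R A : Type*} [CommRing R] [CommRing A] [Algebra R A]
    (χ : FreeGroup (Fin k) →* A) (D : Subalgebra R A) (h : ∀ g, χ g ∈ D) :
    ∃ χ' : FreeGroup (Fin k) →* D, ((D.val : D →+* A) : D →* A).comp χ' = χ :=
  ⟨{ toFun := fun g => ⟨χ g, h g⟩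
     map_one' := Subtype.ext (map_one χ)
     map_mul' := fun x y => Subtype.ext (map_mul χ x y) }, MonoidHom.ext fun _ => rfl⟩

/-- a dual character restricts to a dual character -/
theorem Dual.restrict {k : ℕ} {r : FreeGroup (Fin k)} {R A : Type*} [CommRing R] [CommRing A] [Algebra R A]
    {χ : FreeGroup (Fin k) →* A} (hd : Dual r χ) (D : Subalgebra R A) {χ' : FreeGroup (Fin k) →* D}
    (h : ((D.val : D →+* A) : D →* A).comp χ' = χ) : Dual r χ' :=
  Dual.of_map (D.val : D →+* A) Subtype.val_injective (by rw [h]; exact hd)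

/-! ### fields which are finitely generated rings -/

theorem jac_int : IsJacobsonRing ℤ := by
  rw [isJacobsonRing_iff_prime_eq]
  intro P hP
  by_cases h0 : P = ⊥
  · subst h0
    refine le_antisymm (fun x hx => ?_) Ideal.le_jacobson
    by_contra hne
    have hx0 : x ≠ 0 := fun h => hne (by rw [h]; exact Submodule.zero_mem _)
    obtain ⟨q, hq1, hq2⟩ := Nat.exists_infinite_primes (x.natAbs + 1)
    have hmax : (Ideal.span {(q : ℤ)}).IsMaximal :=
      PrincipalIdealRing.isMaximal_of_irreducible (Nat.prime_iff_prime_int.1 hq2).irreducible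
    have h1 : x ∈ Ideal.span {(q : ℤ)} := by
      unfold Ideal.jacobson at hx
      rw [Ideal.mem_sInf] at hx
      exact hx ⟨bot_le, hmax⟩
    rw [Ideal.mem_span_singleton] at h1
    have h2 := Int.natAbs_dvd_natAbs.2 h1
    have h3 := Nat.le_of_dvd (Int.natAbs_pos.2 hx0) h2
    rw [Int.natAbs_natCast] at h3
    omega
  · have : P.IsMaximal := IsPrime.to_maximal_ideal h0
    exact Ideal.jacobson_eq_self_of_isMaximal

theorem finite_of_finiteType_int (K : Type*) [Field K] [ia : Algebra ℤ K] [Algebra.FiniteType ℤ K] :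
    ∃ p : ℕ, p.Prime ∧ CharP K p ∧ Finite K := by
  obtain rfl : ia = Ring.toIntAlgebra K := Subsingleton.elim _ _
  have hj := jac_int
  have hfin : Module.Finite ℤ K := finite_of_finite_type_of_isJacobsonRing ℤ K
  have hint : Algebra.IsIntegral ℤ K := Algebra.IsIntegral.of_finite ℤ K
  obtain ⟨p, hp⟩ := CharP.exists K
  rcases CharP.char_is_prime_or_zero K p with hp' | h0
  · refine ⟨p, hp', hp, ?_⟩
    have htor : Module.IsTorsion ℤ K := by
      intro x
      refine ⟨⟨(p : ℤ), mem_nonZeroDivisors_of_ne_zero (by exact_mod_cast hp'.ne_zero)⟩, ?_⟩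
      show (p : ℤ) • x = 0
      rw [zsmul_eq_mul, Int.cast_natCast, CharP.cast_eq_zero, zero_mul]
    exact Module.finite_of_fg_torsion K htor
  · subst h0
    exfalso
    have hcz : CharZero K := CharP.charP_to_charZero K
    have hinj : Function.Injective (algebraMap ℤ K) := by
      intro a b hab
      rw [eq_intCast, eq_intCast] at hab
      exact Int.cast_injective hab
    exact Int.not_isField (isField_of_isIntegral_of_isField hinj (Field.toIsField K))

theorem dual_unique {k : ℕ} (hk : 2 ≤ k) (r : FreeGroup (Fin k)) (hr1 : r ≠ 1) (m : ℕ)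
    (H : ∀ N : Subgroup (OR r), N.Normal → N.FiniteIndex → HasRel m N) {Ω : Type} [Field Ω]
    (χ₁ χ₂ : FreeGroup (Fin k) →* Ω) (h₁ : Dual r χ₁) (h₂ : Dual r χ₂) : χ₁ = χ₂ := by
  classical
  by_contra hne
  obtain ⟨g, hg⟩ : ∃ g, χ₁ g ≠ χ₂ g := by
    by_contra hcon
    push Not at hcon
    exact hne (MonoidHom.ext hcon)
  -- the ring generated by the values
  obtain ⟨S, hS⟩ : ∃ S : Finset Ω, S = (univ.image fun j => χ₁ (FreeGroup.of j)) ∪
      (univ.image fun j => χ₁ (FreeGroup.of j)⁻¹) ∪ ((univ.image fun j => χ₂ (FreeGroup.of j)) ∪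
      (univ.image fun j => χ₂ (FreeGroup.of j)⁻¹)) := ⟨_, rfl⟩
  obtain ⟨D, hD⟩ : ∃ D : Subalgebra ℤ Ω, D = Algebra.adjoin ℤ (S : Set Ω) := ⟨_, rfl⟩
  have hSD : ∀ x ∈ S, x ∈ D := fun x hx => by
    rw [hD]
    exact Algebra.subset_adjoin (Finset.mem_coe.2 hx)
  have hft : Algebra.FiniteType ℤ D := by
    rw [hD]
    exact (Subalgebra.fg_iff_finiteType _).1 (Subalgebra.fg_adjoin_finset S)
  have m1 : ∀ g, χ₁ g ∈ D := by
    refine char_mem χ₁ D (fun j => hSD _ ?_) (fun j => hSD _ ?_)
    · rw [hS]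
      exact mem_union_left _ (mem_union_left _ (mem_image_of_mem _ (mem_univ j)))
    · rw [hS]
      exact mem_union_left _ (mem_union_right _ (mem_image_of_mem (fun j => χ₁ (FreeGroup.of j)⁻¹) (mem_univ j)))
  have m2 : ∀ g, χ₂ g ∈ D := by
    refine char_mem χ₂ D (fun j => hSD _ ?_) (fun j => hSD _ ?_)
    · rw [hS]
      exact mem_union_right _ (mem_union_left _ (mem_image_of_mem _ (mem_univ j)))
    · rw [hS]
      exact mem_union_right _ (mem_union_right _ (mem_image_of_mem (fun j => χ₂ (FreeGroup.of j)⁻¹) (mem_univ j)))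
  obtain ⟨c1, e1⟩ := exists_restrict χ₁ D m1
  obtain ⟨c2, e2⟩ := exists_restrict χ₂ D m2
  have d1 := h₁.restrict D e1
  have d2 := h₂.restrict D e2
  have hx : c1 g - c2 g ≠ 0 := by
    intro h0
    apply hg
    rw [← e1, ← e2]
    show ((c1 g : D) : Ω) = ((c2 g : D) : Ω)
    rw [sub_eq_zero.1 h0]
  -- a maximal ideal
  have hjz := jac_int
  have hJ : IsJacobsonRing D := isJacobsonRing_of_finiteType (A := ℤ)
  have hbot : (⊥ : Ideal D).jacobson = ⊥ := hJ.out (Ideal.isPrime_bot).isRadical
  obtain ⟨M, hM, hxM⟩ : ∃ M : Ideal D, M.IsMaximal ∧ c1 g - c2 g ∉ M := by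
    by_contra hcon
    push Not at hcon
    apply hx
    have h3 : c1 g - c2 g ∈ (⊥ : Ideal D).jacobson := by
      unfold Ideal.jacobson
      rw [Ideal.mem_sInf]
      intro J hJ'
      exact hcon J hJ'.2
    rw [hbot] at h3
    exact (Submodule.mem_bot D).1 h3
  let _ : Field (D ⧸ M) := Ideal.Quotient.field M
  have hft2 : Algebra.FiniteType ℤ (D ⧸ M) :=
    Algebra.FiniteType.of_surjective (Ideal.Quotient.mkₐ ℤ M) (Ideal.Quotient.mkₐ_surjective ℤ M)
  obtain ⟨p, hp, hch, hfin⟩ := finite_of_finiteType_int (D ⧸ M)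
  have : Fact p.Prime := ⟨hp⟩
  let _ : Algebra (ZMod p) (D ⧸ M) := ZMod.algebra (D ⧸ M) p
  obtain ⟨c, hc⟩ := dual_rigid hk r hr1 m H (p := p) _
    ((d1.map (Ideal.Quotient.mk M)).prod (d2.map (Ideal.Quotient.mk M))) g
  apply hxM
  have h4 : Ideal.Quotient.mk M (c1 g) = algebraMap (ZMod p) (D ⧸ M) c := congrArg Prod.fst hc
  have h5 : Ideal.Quotient.mk M (c2 g) = algebraMap (ZMod p) (D ⧸ M) c := congrArg Prod.snd hc
  rw [← Ideal.Quotient.eq_zero_iff_mem, map_sub, h4, h5, sub_self]

end Pool.Agent.MelD
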