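import Pool.Agent.MelD.Uniq

/-!
# Uniqueness of the dual character over `ℤ / c`

Proof.  By the Chinese remainder theorem `c = p ^ j`.  Induction on `j`; `j = 1`: `dual_unique` for the field
`ZMod p`.  Step `j → j + 1`, `j ≥ 1`: by induction `χ g - χ' g` is in `p ^ j ℤ / p ^ (j + 1)` for all `g`; on the
subring `C` of the `(a, b)` in `ZMod (p ^ (j + 1)) ^ 2` with `p ^ j ∣ b - a` the map
`(a, b) ↦ a + ε (b - a) / p ^ j` to the dual numbers over `ZMod p` is a ring homomorphism (as `j ≥ 1`), so the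
composite of `(χ, χ')` with it is dual, and by `dual_rigid` its values are in `ZMod p`, so `χ = χ'`.
(Do first the theorem `dual_unique_pow` below.)
-/

open Finset Module

namespace Pool.Agent.MelD

open Pool.Agent.MelG (HasRel)

section step

variable {p j : ℕ} [hp : Fact p.Prime]

/-- reduction modulo `p` -/
def redP (p j : ℕ) : ZMod (p ^ (j + 1)) →+* ZMod p :=
  ZMod.castHom (dvd_pow_self p (Nat.succ_ne_zero j)) (ZMod p)

/-- reduction modulo `p ^ j` -/
def redJ (p j : ℕ) : ZMod (p ^ (j + 1)) →+* ZMod (p ^ j) :=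
  ZMod.castHom (pow_dvd_pow p (Nat.le_succ j)) (ZMod (p ^ j))

theorem redP_iff (y : ZMod (p ^ (j + 1))) : (p : ZMod (p ^ (j + 1))) ^ j * y = 0 ↔ redP p j y = 0 := by
  have hp0 : 0 < p := hp.out.pos
  have : NeZero (p ^ (j + 1)) := ⟨(pow_pos hp0 _).ne'⟩
  obtain ⟨n, rfl⟩ : ∃ n : ℕ, y = (n : ZMod (p ^ (j + 1))) := ⟨y.val, (ZMod.natCast_zmod_val y).symm⟩
  have e1 : (p : ZMod (p ^ (j + 1))) ^ j * (n : ZMod (p ^ (j + 1))) = ((p ^ j * n : ℕ) : ZMod (p ^ (j + 1))) := by
    push_cast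
    rfl
  have e2 : redP p j (n : ZMod (p ^ (j + 1))) = ((n : ℕ) : ZMod p) := map_natCast _ n
  rw [e1, e2, ZMod.natCast_eq_zero_iff, ZMod.natCast_eq_zero_iff, pow_succ]
  exact Nat.mul_dvd_mul_iff_left (pow_pos hp0 j)

theorem redJ_ex (x : ZMod (p ^ (j + 1))) (hx : redJ p j x = 0) :
    ∃ y : ZMod (p ^ (j + 1)), x = (p : ZMod (p ^ (j + 1))) ^ j * y := by
  have hp0 : 0 < p := hp.out.pos
  have : NeZero (p ^ (j + 1)) := ⟨(pow_pos hp0 _).ne'⟩
  obtain ⟨n, rfl⟩ : ∃ n : ℕ, x = (n : ZMod (p ^ (j + 1))) := ⟨x.val, (ZMod.natCast_zmod_val x).symm⟩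
  have e2 : redJ p j (n : ZMod (p ^ (j + 1))) = ((n : ℕ) : ZMod (p ^ j)) := map_natCast _ n
  rw [e2, ZMod.natCast_eq_zero_iff] at hx
  obtain ⟨k, rfl⟩ := hx
  exact ⟨(k : ZMod (p ^ (j + 1))), by push_cast; rfl⟩

theorem redP_pow (hj : 1 ≤ j) : redP p j ((p : ZMod (p ^ (j + 1))) ^ j) = 0 := by
  rw [map_pow, map_natCast, ZMod.natCast_self, zero_pow (by omega)]

/-- congruent pairs -/
def CP (p j : ℕ) : Subring (ZMod (p ^ (j + 1)) × ZMod (p ^ (j + 1))) :=
  RingHom.eqLocus ((redJ p j).comp (RingHom.fst _ _)) ((redJ p j).comp (RingHom.snd _ _))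

theorem CP_ex (c : CP p j) : ∃ y : ZMod (p ^ (j + 1)), c.1.2 = c.1.1 + (p : ZMod (p ^ (j + 1))) ^ j * y := by
  have h1 : redJ p j c.1.1 = redJ p j c.1.2 := c.2
  obtain ⟨y, hy⟩ := redJ_ex (c.1.2 - c.1.1) (by rw [map_sub, h1, sub_self])
  exact ⟨y, by rw [← hy]; ring⟩

/-- the divided difference -/
noncomputable def dd (c : CP p j) : ZMod (p ^ (j + 1)) := (CP_ex c).choose

theorem dd_spec (c : CP p j) : c.1.2 = c.1.1 + (p : ZMod (p ^ (j + 1))) ^ j * dd c := (CP_ex c).choose_spec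

theorem dd_unique (c : CP p j) (y : ZMod (p ^ (j + 1)))
    (hy : c.1.2 = c.1.1 + (p : ZMod (p ^ (j + 1))) ^ j * y) : redP p j (dd c) = redP p j y := by
  have h1 := dd_spec c
  rw [hy] at h1
  have h2 : (p : ZMod (p ^ (j + 1))) ^ j * (dd c - y) = 0 := by
    rw [mul_sub, sub_eq_zero]
    exact (add_left_cancel h1).symm
  have h3 := (redP_iff _).1 h2
  rw [map_sub, sub_eq_zero] at h3
  exact h3

/-- the map to the dual numbers -/
noncomputable def toDual (hj : 1 ≤ j) : CP p j →+* TrivSqZeroExt (ZMod p) (ZMod p) where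
  toFun c := TrivSqZeroExt.inl (redP p j c.1.1) + TrivSqZeroExt.inr (redP p j (dd c))
  map_one' := by
    have h := dd_unique (1 : CP p j) 0 (by
      show (1 : ZMod (p ^ (j + 1))) = 1 + (p : ZMod (p ^ (j + 1))) ^ j * 0
      ring)
    rw [h, map_zero]
    show TrivSqZeroExt.inl (redP p j 1) + _ = _
    rw [map_one, TrivSqZeroExt.inr_zero, add_zero, TrivSqZeroExt.inl_one]
  map_zero' := by
    have h := dd_unique (0 : CP p j) 0 (by
      show (0 : ZMod (p ^ (j + 1))) = 0 + (p : ZMod (p ^ (j + 1))) ^ j * 0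
      ring)
    rw [h, map_zero]
    show TrivSqZeroExt.inl (redP p j 0) + _ = _
    rw [map_zero, TrivSqZeroExt.inr_zero, add_zero, TrivSqZeroExt.inl_zero]
  map_mul' := by
    intro c c'
    have e1 := dd_spec c
    have e2 := dd_spec c'
    have h := dd_unique (c * c') (c.1.1 * dd c' + c'.1.1 * dd c +
      (p : ZMod (p ^ (j + 1))) ^ j * (dd c * dd c')) (by
      show c.1.2 * c'.1.2 = c.1.1 * c'.1.1 + _
      rw [e1, e2]
      ring)
    rw [h]
    have e3 : (c * c').1.1 = c.1.1 * c'.1.1 := rfl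
    rw [e3, map_add, map_add, map_mul, map_mul, map_mul, map_mul, redP_pow hj, zero_mul, add_zero]
    ext
    · simp
    · simp
      ring
  map_add' := by
    intro c c'
    have e1 := dd_spec c
    have e2 := dd_spec c'
    have h := dd_unique (c + c') (dd c + dd c') (by
      show c.1.2 + c'.1.2 = c.1.1 + c'.1.1 + _
      rw [e1, e2]
      ring)
    rw [h]
    have e3 : (c + c').1.1 = c.1.1 + c'.1.1 := rfl
    rw [e3, map_add, map_add]
    ext
    · simp
    · simp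

end step

theorem dual_unique_pow {k : ℕ} (hk : 2 ≤ k) (r : FreeGroup (Fin k)) (hr1 : r ≠ 1) (m : ℕ)
    (H : ∀ N : Subgroup (OR r), N.Normal → N.FiniteIndex → HasRel m N) (p j : ℕ) [Fact p.Prime]
    (χ χ' : FreeGroup (Fin k) →* ZMod (p ^ j)) (h : Dual r χ) (h' : Dual r χ') : χ = χ' := by
  induction j with
  | zero =>
    refine MonoidHom.ext fun g => ?_
    have : Subsingleton (ZMod (p ^ 0)) := by
      rw [pow_zero]
      infer_instance
    exact Subsingleton.elim _ _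
  | succ j ih =>
    by_cases hj : j = 0
    · subst hj
      have : Fact (p ^ (0 + 1)).Prime := ⟨by rw [zero_add, pow_one]; exact Fact.out⟩
      exact dual_unique hk r hr1 m H χ χ' h h'
    · have hj1 : 1 ≤ j := by omega
      have h3 := ih ((redJ p j : ZMod (p ^ (j + 1)) →* ZMod (p ^ j)).comp χ)
        ((redJ p j : ZMod (p ^ (j + 1)) →* ZMod (p ^ j)).comp χ') (h.map (redJ p j)) (h'.map (redJ p j))
      have hmem : ∀ g, (χ.prod χ') g ∈ CP p j := fun g =>
        congrArg (fun ψ : FreeGroup (Fin k) →* ZMod (p ^ j) => ψ g) h3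
      let ψ : FreeGroup (Fin k) →* CP p j :=
        { toFun := fun g => ⟨(χ.prod χ') g, hmem g⟩
          map_one' := Subtype.ext (map_one (χ.prod χ'))
          map_mul' := fun x y => Subtype.ext (map_mul (χ.prod χ') x y) }
      have hψ : Dual r ψ := by
        refine Dual.of_map (CP p j).subtype Subtype.val_injective ?_
        have e : (((CP p j).subtype : CP p j →+* _) : CP p j →* _).comp ψ = χ.prod χ' :=
          MonoidHom.ext fun _ => rfl
        rw [e]
        exact h.prod h'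
      have : Finite (TrivSqZeroExt (ZMod p) (ZMod p)) := inferInstanceAs (Finite (ZMod p × ZMod p))
      refine MonoidHom.ext fun g => ?_
      obtain ⟨c, hc⟩ := dual_rigid hk r hr1 m H (p := p) _ (hψ.map (toDual (p := p) (j := j) hj1)) g
      have h4 : TrivSqZeroExt.snd (toDual (p := p) (j := j) hj1 (ψ g)) = 0 := by
        have h5 : TrivSqZeroExt.snd (toDual (p := p) (j := j) hj1 (ψ g)) =
            TrivSqZeroExt.snd (algebraMap (ZMod p) (TrivSqZeroExt (ZMod p) (ZMod p)) c) :=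
          congrArg (TrivSqZeroExt.snd (R := ZMod p) (M := ZMod p)) hc
        exact h5.trans rfl
      have h6 : redP p j (dd (ψ g)) = 0 := by
        have h7 : TrivSqZeroExt.snd (toDual (p := p) (j := j) hj1 (ψ g)) = redP p j (dd (ψ g)) := by
          show TrivSqZeroExt.snd (TrivSqZeroExt.inl (redP p j (ψ g).1.1) +
            TrivSqZeroExt.inr (redP p j (dd (ψ g)))) = _
          rw [TrivSqZeroExt.snd_add, TrivSqZeroExt.snd_inl, TrivSqZeroExt.snd_inr, zero_add]
        rw [← h7]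
        exact h4
      have h8 := dd_spec (ψ g)
      rw [(redP_iff _).2 h6, add_zero] at h8
      exact h8.symm

theorem dual_unique_zmod {k : ℕ} (hk : 2 ≤ k) (r : FreeGroup (Fin k)) (hr1 : r ≠ 1) (m : ℕ)
    (H : ∀ N : Subgroup (OR r), N.Normal → N.FiniteIndex → HasRel m N) (c : ℕ) (hc : 0 < c)
    (χ χ' : FreeGroup (Fin k) →* ZMod c) (h : Dual r χ) (h' : Dual r χ') : χ = χ' := by
  refine MonoidHom.ext fun g => ?_
  have : NeZero c := ⟨hc.ne'⟩
  rw [← sub_eq_zero]
  obtain ⟨n, hn⟩ : ∃ n : ℕ, χ g - χ' g = (n : ZMod c) :=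
    ⟨(χ g - χ' g).val, (ZMod.natCast_zmod_val _).symm⟩
  rw [hn, ZMod.natCast_eq_zero_iff, Nat.dvd_iff_prime_pow_dvd_dvd]
  intro p j hp hpj
  have : Fact p.Prime := ⟨hp⟩
  have h3 := dual_unique_pow hk r hr1 m H p j _ _ (h.map (ZMod.castHom hpj (ZMod (p ^ j))))
    (h'.map (ZMod.castHom hpj (ZMod (p ^ j))))
  have h4 : ZMod.castHom hpj (ZMod (p ^ j)) (χ g) = ZMod.castHom hpj (ZMod (p ^ j)) (χ' g) :=
    congrArg (fun ψ : FreeGroup (Fin k) →* ZMod (p ^ j) => ψ g) h3
  have h5 : ((n : ℕ) : ZMod (p ^ j)) = 0 := by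
    rw [← map_natCast (ZMod.castHom hpj (ZMod (p ^ j))) n, ← hn, map_sub, h4, sub_self]
  exact (ZMod.natCast_eq_zero_iff _ _).1 h5

end Pool.Agent.MelD
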